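import Pool.Agent.Lib.SmS.Nsum
import Pool.Agent.Lib.SmJ.L.Kum

/-!
SMITH-S: the action of the Galois group on the Jacobian of `y ^ l = f(x)`, `f : K[X]`, and the twisted action.
-/

set_option autoImplicit false

open Polynomial

namespace Pool.Agent.SmS

variable {l : ℕ} {K Ω : Type} [Field K] [Field Ω] [Algebra K Ω]

/-- `f` over `Ω`. -/
noncomputable abbrev fO (Ω : Type) [Field Ω] [Algebra K Ω] (f : Polynomial K) : Polynomial Ω := f.map (algebraMap K Ω)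

theorem map_gal (f : K[X]) (s : Ω ≃ₐ[K] Ω) :
    (fO Ω f).map ((s : Ω ≃+* Ω) : Ω →+* Ω) = fO Ω f := by
  rw [fO, Polynomial.map_map]
  congr 1
  ext x
  exact s.commutes x

variable [Fact l.Prime] {f : K[X]} [Sup l (fO Ω f)] [IsSepClosed Ω]

/-- The twist of the action of `s` by the root of unity `u`. -/
noncomputable def galU (f : K[X]) [Sup l (fO Ω f)] (s : Ω ≃ₐ[K] Ω) (u : Ω) (hu : u ^ l = 1) :
    JJ l (fO Ω f) →+ JJ l (fO Ω f) := act (s : Ω ≃+* Ω) (map_gal f s) u hu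

/-- The action of the Galois group. -/
noncomputable def galS (l : ℕ) [Fact l.Prime] (f : K[X]) [Sup l (fO Ω f)] (s : Ω ≃ₐ[K] Ω) :
    JJ l (fO Ω f) →+ JJ l (fO Ω f) := galU f s 1 (one_pow l)

/-- The twisted action. -/
noncomputable def twS (f : K[X]) [Sup l (fO Ω f)] {ζ : Ω} (hz : ζ ^ l = 1)
    (chi : (Ω ≃ₐ[K] Ω) → ZMod l) (s : Ω ≃ₐ[K] Ω) : JJ l (fO Ω f) →+ JJ l (fO Ω f) :=
  galU f s (ζ ^ (chi s).val) (zpow_pow hz _)

private theorem gal_act_congr {s t : Ω ≃+* Ω} (e : s = t)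
    (hs : (fO Ω f).map (s : Ω →+* Ω) = fO Ω f) (ht : (fO Ω f).map (t : Ω →+* Ω) = fO Ω f)
    {u v : Ω} (e' : u = v) (hu : u ^ l = 1) (hv : v ^ l = 1) (Q : JJ l (fO Ω f)) :
    act s hs u hu Q = act t ht v hv Q := by
  subst e
  subst e'
  rfl

theorem twS_eq {ζ : Ω} (hz : ζ ^ l = 1) (chi : (Ω ≃ₐ[K] Ω) → ZMod l) (s : Ω ≃ₐ[K] Ω)
    (Q : JJ l (fO Ω f)) : twS f hz chi s Q = (zact hz)^[(chi s).val] (galS l f s Q) := by
  rw [zact_pow]
  change act _ _ _ _ Q = act _ _ _ _ (act _ _ _ _ Q)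
  rw [act_act]
  refine gal_act_congr (RingEquiv.ext fun x => rfl) _ _ ?_ _ _ Q
  rw [map_one, mul_one]

theorem galS_one (Q : JJ l (fO Ω f)) : galS l f 1 Q = Q := by
  have h1 := zact_pow (f := fO Ω f) (one_pow l : (1 : Ω) ^ l = 1) 0 Q
  rw [Function.iterate_zero, id_eq] at h1
  refine Eq.trans ?_ h1.symm
  exact gal_act_congr (RingEquiv.ext fun x => rfl) _ _ (pow_zero (1 : Ω)).symm _ _ Q

theorem galS_mul (s t : Ω ≃ₐ[K] Ω) (Q : JJ l (fO Ω f)) :
    galS l f (s * t) Q = galS l f s (galS l f t Q) := by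
  change act _ _ _ _ Q = act _ _ _ _ (act _ _ _ _ Q)
  rw [act_act]
  refine gal_act_congr (RingEquiv.ext fun x => rfl) _ _ ?_ _ _ Q
  rw [map_one, mul_one]

/-- `ζ ∈ K`. -/
theorem galS_zact {ζ : Ω} (hz : ζ ^ l = 1) (hK : ∀ s : Ω ≃ₐ[K] Ω, s ζ = ζ) (s : Ω ≃ₐ[K] Ω)
    (Q : JJ l (fO Ω f)) : galS l f s (zact hz Q) = zact hz (galS l f s Q) := by
  change act _ _ _ _ (act _ _ _ _ Q) = act _ _ _ _ (act _ _ _ _ Q)
  rw [act_act, act_act]
  refine gal_act_congr (RingEquiv.ext fun x => rfl) _ _ ?_ _ _ Q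
  rw [map_one, mul_one, one_mul]
  exact hK s

theorem galS_gmod [Algebra.IsAlgebraic K Ω] [SmChar l (fO Ω f)] :
    Pool.Agent.SmJ.L.GMod (galS (Ω := Ω) l f) := by
  refine ⟨galS_one, galS_mul, fun Q => ?_⟩
  induction Q using jac_induction with
  | h0 => exact ⟨⊥, inferInstance, fun s t _ => by rw [map_zero, map_zero]⟩
  | h1 P =>
    refine ⟨IntermediateField.adjoin K {P.x, P.y}, ?_, fun s t hst => ?_⟩
    · exact IntermediateField.finiteDimensional_adjoin fun x _ =>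
        (Algebra.IsAlgebraic.isAlgebraic (R := K) x).isIntegral
    · have hx : s P.x = t P.x := hst _ (IntermediateField.subset_adjoin K _ (by simp))
      have hy : s P.y = t P.y := hst _ (IntermediateField.subset_adjoin K _ (by simp))
      change act _ _ _ _ P.cl = act _ _ _ _ P.cl
      rw [act_cl, act_cl]
      congr 1
      ext
      · exact hx
      · change 1 * s P.y = 1 * t P.y
        rw [hy]
  | h2 x y hx hy =>
    obtain ⟨L, hL, h1⟩ := hx
    obtain ⟨L', hL', h2⟩ := hy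
    refine ⟨L ⊔ L', inferInstance, fun s t hst => ?_⟩
    rw [map_add, map_add, h1 s t fun z hz => hst z ((le_sup_left : L ≤ L ⊔ L') hz),
      h2 s t fun z hz => hst z ((le_sup_right : L' ≤ L ⊔ L') hz)]

end Pool.Agent.SmS
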