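import Pool.Agent.Lib.SmS.VM
import Pool.Agent.Lib.SmL.Fnl.Mod

/-!
# SMITH-S, section 11: the level of the `l`-power torsion

`D : AutM l (Gal(Ω/K)) J`, the kernel `J[lam]` of `1 - sig` is finite and `N1 ∈ NN` acts trivially on it. Then
for each `n` there is `N ∈ NN` which acts trivially on `J[l ^ n]`.

PROOF. Let `lam Q = Q - sig Q`, `lam ^[m]` its iterates.
(1) `pow_trivS` (compare `SmL/Fnl/Mod.lean`, `pow_triv`): if `s` fixes the elements fixed by `sig` then `s ^ (l ^ m)` fixes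
`ker lam ^[m + 1]`: `u = s ^ (l ^ m)` fixes `ker lam ^[m + 1]`; for `lam ^[m + 2] Q = 0` let `R = u Q - Q`. Then
`lam R = u (lam Q) - lam Q = 0` (`D.comm`), so `sig R = R`, so `u R = R` and `l R = 0`
(`∑ sig ^[k] R = l R = 0`, see `l_of_fix` in `SmS/VFld.lean`), `u ^ a Q = Q + a R`, `u ^ l Q = Q`.
(2) `l ^ n Q = 0` implies `lam ^[n (l - 1)] Q = 0`: `lam_of_l` (`SmL/V/Alg.lean`) for the module `VV D` over `AA l`
(`VV.norm_smul`, `VV.lam_smul`; `VV.mk ⟨n, h⟩`, by induction `VV.val D ((1 - zeta l) ^ m • Q) = lam ^[m] (VV.val D Q)`).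
(3) `ker lam ^[m]` is finite, by induction: `lam` maps `ker lam ^[m + 1]` to `ker lam ^[m]`, two elements with the same image
differ by an element of `J[lam]`. So `J[l ^ n]` is finite.
(4) As `act_fin_of` in `SmL/Fnl/Mod.lean`: `N = N1 ⊓ trivS K Ω l n J` (`trivS_normal`, `trivS_open`) is in `NN` by `hF.ext`.
-/

set_option autoImplicit false

namespace Pool.Agent.SmS

open Pool.Agent.SmL.V Pool.Agent.SmL.Fnl

section abs

variable {G J : Type*} [Group G] [AddCommGroup J] [DistribMulAction G J] {l : ℕ}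

/-- `1 - sig`. -/
private noncomputable def ActFin_lam (D : AutM l G J) : J →+ J := AddMonoidHom.id J - D.sig

private theorem ActFin_apply (D : AutM l G J) (Q : J) : ActFin_lam D Q = Q - D.sig Q := rfl

private theorem ActFin_l (D : AutM l G J) {Q : J} (h : D.sig Q = Q) : l • Q = 0 := by
  have h1 : ∀ k : ℕ, (⇑D.sig)^[k] Q = Q := fun k => Function.iterate_fixed h k
  have h2 := D.sum Q
  simpa only [h1, Finset.sum_const, Finset.card_range] using h2

private theorem ActFin_pow (D : AutM l G J) {s : G} (h : ∀ Q : J, D.sig Q = Q → s • Q = Q)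
    (m : ℕ) : ∀ Q : J, (⇑(ActFin_lam D))^[m + 1] Q = 0 → (s ^ l ^ m) • Q = Q := by
  induction m with
  | zero =>
    intro Q hQ
    rw [pow_zero, pow_one]
    apply h
    have h1 : Q - D.sig Q = 0 := hQ
    exact (sub_eq_zero.1 h1).symm
  | succ m ih =>
    intro Q hQ
    set u := s ^ l ^ m with hu
    have h1 : u • (Q - D.sig Q) = Q - D.sig Q := by
      apply ih
      rw [Function.iterate_succ_apply] at hQ
      exact hQ
    have h2 : D.sig (u • Q - Q) = u • Q - Q := by
      rw [smul_sub, D.comm] at h1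
      rw [map_sub]
      have h3 : D.sig (u • Q) - D.sig Q = u • Q - (u • Q - D.sig (u • Q)) - D.sig Q := by abel
      rw [h3, h1]
      abel
    have h3 : u • (u • Q - Q) = u • Q - Q := by
      have h4 : ∀ n : ℕ, (s ^ n) • (u • Q - Q) = u • Q - Q := by
        intro n
        induction n with
        | zero => rw [pow_zero, one_smul]
        | succ n ihn => rw [pow_succ, mul_smul, h _ h2, ihn]
      exact h4 _
    have h4 : ∀ a : ℕ, (u ^ a) • Q = Q + a • (u • Q - Q) := by
      intro a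
      induction a with
      | zero => rw [pow_zero, one_smul, zero_smul, add_zero]
      | succ a iha =>
        have h5 : u • (a • (u • Q - Q)) = a • (u • Q - Q) := by rw [smul_comm, h3]
        rw [pow_succ', mul_smul, iha, smul_add, h5, succ_nsmul]
        abel
    rw [pow_succ, pow_mul, ← hu, h4, ActFin_l D h2, add_zero]

private theorem ActFin_val [NeZero l] (D : AutM l G J) (n : ℕ) (Q : VV D) :
    VV.val D ((1 - zeta l) ^ n • Q) = (⇑(ActFin_lam D))^[n] (VV.val D Q) := by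
  induction n generalizing Q with
  | zero => rw [pow_zero, one_smul]; rfl
  | succ n ih =>
    rw [pow_succ, mul_smul, ih, VV.lam_smul, Function.iterate_succ_apply, ActFin_apply]

private theorem ActFin_of_l [Fact l.Prime] (D : AutM l G J) {n : ℕ} {Q : J} (h : l ^ n • Q = 0) :
    (⇑(ActFin_lam D))^[n * (l - 1)] Q = 0 := by
  have h1 : l ^ n • (VV.mk (D := D) ⟨n, h⟩ : VV D) = 0 := by
    apply VV.val_inj
    rw [map_nsmul, map_zero]
    exact h
  have h2 := congrArg (VV.val D) (lam_of_l (A := AA l) (ze := zeta l) VV.norm_smul h1)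
  rw [ActFin_val, map_zero] at h2
  exact h2

private theorem ActFin_fin (D : AutM l G J) (hfin : {Q : J | D.sig Q = Q}.Finite) (m : ℕ) :
    {Q : J | (⇑(ActFin_lam D))^[m] Q = 0}.Finite := by
  induction m with
  | zero => exact (Set.finite_singleton 0).subset fun Q hQ => hQ
  | succ m ih =>
    have h1 : {Q : J | (⇑(ActFin_lam D))^[m + 1] Q = 0} =
        ⇑(ActFin_lam D) ⁻¹' {Q : J | (⇑(ActFin_lam D))^[m] Q = 0} := by
      ext Q
      change _ = 0 ↔ _ = 0
      rw [Function.iterate_succ_apply]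
    rw [h1]
    refine ih.preimage' fun R _ => ?_
    by_cases hR : ∃ Q0, ActFin_lam D Q0 = R
    · obtain ⟨Q0, hQ0⟩ := hR
      refine (hfin.image fun Q => Q + Q0).subset fun Q hQ => ⟨Q - Q0, ?_, sub_add_cancel _ _⟩
      have h2 : ActFin_lam D Q = R := hQ
      have h3 : ActFin_lam D (Q - Q0) = 0 := by rw [map_sub, h2, hQ0, sub_self]
      rw [ActFin_apply] at h3
      exact (sub_eq_zero.1 h3).symm
    · refine Set.finite_empty.subset fun Q hQ => hR ⟨Q, hQ⟩

end abs

variable {K Ω : Type} [Field K] [Field Ω] [Algebra K Ω] {l : ℕ} {J : Type} [AddCommGroup J]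
  [DistribMulAction (Ω ≃ₐ[K] Ω) J] {NN : Set (Subgroup (Ω ≃ₐ[K] Ω))}

theorem act_finS [Fact l.Prime] (hF : FamE l NN) (D : AutM l (Ω ≃ₐ[K] Ω) J)
    (hfin : {Q : J | D.sig Q = Q}.Finite)
    (hlev : ∀ Q : J, ∃ L : IntermediateField K Ω, FiniteDimensional K L ∧
      ∀ s t : Ω ≃ₐ[K] Ω, (∀ x ∈ L, s x = t x) → s • Q = t • Q)
    (h1 : ∃ N ∈ NN, ∀ s ∈ N, ∀ Q : J, D.sig Q = Q → s • Q = Q) (n : ℕ) :
    ∃ N ∈ NN, ∀ s ∈ N, ∀ Q : J, l ^ n • Q = 0 → s • Q = Q := by
  obtain ⟨N1, hN1, h1⟩ := h1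
  have hn1 := hF.normal N1 hN1
  have hn2 := trivS_normal (K := K) (Ω := Ω) (l := l) (A := J) n
  refine ⟨N1 ⊓ trivS K Ω l n J, hF.ext N1 hN1 _ inferInstance ?_ inf_le_left fun s hs => ?_,
    fun s hs => hs.2⟩
  · rw [Subgroup.coe_inf]
    refine (hF.isOpen N1 hN1).inter (trivS_open ?_ hlev)
    exact ((ActFin_fin D hfin (n * (l - 1))).subset fun Q hQ => ActFin_of_l D hQ).to_subtype
  · refine ⟨n * (l - 1), N1.pow_mem hs _, fun P hP => ?_⟩
    apply ActFin_pow D (h1 s hs)
    rw [Function.iterate_succ_apply', ActFin_of_l D hP, map_zero]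

end Pool.Agent.SmS
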