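import Pool.Agent.Lib.SmS.VFld
import Pool.Agent.Lib.SmL.Fin.AOkStd

/-!
# SMITH-S, section 11: `AOk` for the system `sysS` over a global function field

`exists_aokS`: for the system `sysS` of the `G`-module `J` with the standard data of a global function
field all hypotheses of the counting half (`AOk`) hold, if `V1` has all the arithmetic facts (`Gd`, `ShaT`),
no fixed vectors, `F_l[G]` maps onto `End V1 × F_l` and the cocycles which vanish on the kernel of the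
action are trivial.
-/

set_option autoImplicit false

open Finset

namespace Pool.Agent.SmS

open Pool.Agent.BSDFF Pool.Agent.Lib.SmD Pool.Agent.GBU Pool.Agent.SmL.Ar Pool.Agent.SmL.C
  Pool.Agent.SmL.Fld Pool.Agent.SmL.Ch Pool.Agent.SmL.V Pool.Agent.SmL

section abs

variable {l : ℕ} {G J V1 Pl : Type*} [Group G] [AddCommGroup J] [DistribMulAction G J]
  [AddCommGroup V1] [Module (ZMod l) V1]

/-- More bad places. -/
theorem ModS.mono {D : AutM l G J} {B : Bs G Pl} {a : G →* (V1 ≃ₗ[ZMod l] V1)}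
    {e : V1 →ₗ[ZMod l] V1 →ₗ[ZMod l] ZMod l} {io : V1 →+ J} {T T' : Finset Pl}
    (h : ModS D B a e io T) (hT : T ⊆ T') : ModS D B a e io T' where
  div := h.div
  inj := h.inj
  fix := h.fix
  range := h.range
  ac := h.ac
  act_fin := h.act_fin
  good_triv := fun v hv => h.good_triv v fun h1 => hv (hT h1)
  fin_inv := h.fin_inv
  isot := h.isot

/-- The facts on the group action on `V1` for the counting half. -/
structure ActOk (l : ℕ) {G V1 : Type*} [Group G] [AddCommGroup V1] [Module (ZMod l) V1]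
    (a : G →* (V1 ≃ₗ[ZMod l] V1)) : Prop where
  nofix : ∀ w : V1, (∀ s, a s w = w) → w = 0
  span : ∀ (B : V1 →ₗ[ZMod l] V1) (ε : ZMod l), ∃ U : G →₀ ZMod l,
    (∀ w, ∑ g ∈ U.support, U g • a g w = B w) ∧ ∑ g ∈ U.support, U g = ε
  znd : ∀ c : G → V1, (∀ s t, c (s * t) = c s + a s (c t)) → (∀ s, (∀ w, a s w = w) → c s = 0) →
    ∃ z : V1, ∀ s, c s = a s z - z

end abs

variable {k K Ω : Type} [Field k] [Finite k] [Field K] [Algebra k K] [Algebra (RatFunc k) K]
  [IsScalarTower k (RatFunc k) K] [FiniteDimensional (RatFunc k) K]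
  [Algebra.IsSeparable (RatFunc k) K] [Field Ω] [Algebra K Ω] [IsSepClosure K Ω]
  {l : ℕ} {ζ : Ω} {N0 : Subgroup (Ω ≃ₐ[K] Ω)} {w : Place k K → ValuationSubring Ω}
  {sg ph : Place k K → Ω ≃ₐ[K] Ω}
  {J : Type} [AddCommGroup J] [DistribMulAction (Ω ≃ₐ[K] Ω) J]
  {V1 : Type} [AddCommGroup V1] [Module (ZMod l) V1]

/-- **`AOk` for the superelliptic twists.** -/
theorem exists_aokS [NeZero l] (h2 : (2 : k) ≠ 0)
    (hk : ∀ x : K, IsIntegral k x → ∃ c : k, algebraMap k K c = x)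
    (hl : l.Prime) (hl2 : l ≠ 2) (hζ : IsPrimitiveRoot ζ l)
    (hζK : ∃ z : K, algebraMap K Ω z = ζ) (h0 : TameN N0) (hS : Std l ζ (NNt N0) w sg ph)
    {D : AutM l (Ω ≃ₐ[K] Ω) J} {a : (Ω ≃ₐ[K] Ω) →* (V1 ≃ₗ[ZMod l] V1)}
    {e : V1 →ₗ[ZMod l] V1 →ₗ[ZMod l] ZMod l} {io : V1 →+ J} {T1 : Finset (Place k K)}
    (he : ∀ x y, e x y = e y x)
    (hG : (⟨a, a, e⟩ : DP l (Ω ≃ₐ[K] Ω) V1 V1).Gd (bK (NNt N0) w sg ph))
    (hsha : ∃ T0 : Finset (Place k K), ∀ T, T0 ⊆ T → ShaT (bK (NNt N0) w sg ph) a T)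
    (hM : ModS D (bK (NNt N0) w sg ph) a e io T1) (hA : ActOk l a)
    {fr : Ω ≃ₐ[K] Ω} (hfr : IsFrC k fr) :
    ∃ T0 : Finset (Place k K), ∀ TS : Finset (Place k K), T0 ⊆ TS →
      ∃ T2 : Finset (Place k K), ∀ T : Finset (Place k K), T2 ⊆ T → ∃ a' C m0 : ℕ,
      AOk (sysS D (bK (NNt N0) w sg ph) a e io TS) (T : Set (Place k K)) Place.degree
        (Nat.card k) (GeoK k K Ω) fr a' C m0 := by
  classical
  have hCh := cheb1_std hk hS
  have hB := std_ok hl hl2 hζ hζK hS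
  have hR := std_rec h2 hl hζ hζK hS
  have hGt := Fnl.trP_std h2 hl hl2 hζ hζK h0 hS hCh
  obtain ⟨T3, h3⟩ := exists_T (lnkS hB hG.ok he hM) hG hsha
  refine ⟨T1 ∪ T3, fun TS hTS => ?_⟩
  have hM' := hM.mono (Finset.union_subset_left hTS)
  have hC := (h3 TS (Finset.union_subset_right hTS)).2.2.2
  have hok := okS hB hR hG he hM' hC
  have hL := lnkS hB hG.ok he hM'
  set S := sysS D (bK (NNt N0) w sg ph) a e io TS with hSdef
  obtain ⟨T4, h4⟩ := exists_lag hL hR hCh hG hsha hGt hok.good_fin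
  refine ⟨T4, fun T hT => ?_⟩
  obtain ⟨hV, hF⟩ := h4 T hT
  obtain ⟨a', C, hcheb⟩ := chebT_std (S := S) h0.normal h0.isOpen hS rfl rfl rfl T.finite_toSet hfr
  have hfi : ∀ N ∈ S.NN, N.FiniteIndex := hS.fi
  obtain ⟨N, hN, hNa⟩ := hG.ok.ker
  have hNn := hS.fam.normal N hN
  have hNi := hS.fi N hN
  refine ⟨a', C, N.index, ?_⟩
  exact
    { ok := hok
      fi := hfi
      up := fun N hN N' h' hle => Fnl.up_NNt hN h' hle
      lagV := hV
      lagF := hF
      nofix := hA.nofix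
      span := hA.span
      xok := xokL hk T.finite_toSet
      geo := geoOk_std (S := S) hS rfl rfl hfr fun c hc h0 => hA.znd c hc.2 fun s hs =>
        h0 s (LinearEquiv.ext hs)
      cheb := hcheb
      m0_pos := Nat.one_le_iff_ne_zero.2 hNi.index_ne_zero
      m0_mem := hNa _ (Subgroup.pow_index_mem N fr) }

end Pool.Agent.SmS
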