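import Pool.Agent.Lib.SmS.E6
import Pool.Agent.Lib.SmL.Fnl.BrgD
import Pool.Agent.Lib.SmL.Fnl.Tot
import Pool.Agent.Lib.SmL.L.Fix

/-!
# SMITH-S, final layer: from small Selmer groups of `V` to bounded Selmer groups of `J`
-/

set_option autoImplicit false

namespace Pool.Agent.SmS

open Pool.Agent.BSDFF Pool.Agent.Lib.SmD
open Pool.Agent.SmJ.L (ZSel BSel Sel)
open Pool.Agent.SmL Pool.Agent.SmL.V Pool.Agent.SmL.Ar Pool.Agent.SmL.Fnl Pool.Agent.SmL.L

section fix

variable {l : ℕ} {A G V V1 Pl : Type*} [CommRing A] [Group G] [AddCommGroup V] [Module A V]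
  [DistribMulAction G V] [AddCommGroup V1] [Module (ZMod l) V1] {S : Sys l A G V V1 Pl}
  {chi : G → ZMod l}

/-- There are no fixed vectors in `V`. -/
theorem eq_zero_of_fix (hS : S.Ok) (nofix : ∀ w : V1, (∀ s, S.ac s w = w) → w = 0) {R : V}
    (hR : ∀ s, S.dl chi R s = 0) : R = 0 := by
  obtain ⟨j, hj⟩ := hS.tors R
  induction j generalizing R with
  | zero => rwa [pow_zero, one_smul] at hj
  | succ j ih =>
    have h1 : S.lam • R = 0 := ih (R := S.lam • R)
      (fun s => by rw [Sys.dl_smul hS, hR, smul_zero]) (by rw [← mul_smul, ← pow_succ, hj])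
    obtain ⟨w, rfl⟩ := hS.iota_range R h1
    have h2 : w = 0 := by
      apply nofix
      intro s
      have h3 := hR s
      rw [Sys.dl_iota hS] at h3
      exact sub_eq_zero.1 (hS.iota_inj (h3.trans (map_zero S.iota).symm))
    rw [h2, map_zero]

end fix

variable {k K Ω : Type} [Field k] [Field K] [Field Ω] [Algebra k K] [Algebra K Ω]
  {l : ℕ} {J V1 Pl : Type} [AddCommGroup J] [DistribMulAction (Ω ≃ₐ[K] Ω) J]
  [AddCommGroup V1] [Module (ZMod l) V1]
  {D : AutM l (Ω ≃ₐ[K] Ω) J} {B : Bs (Ω ≃ₐ[K] Ω) Pl} {a : (Ω ≃ₐ[K] Ω) →* (V1 ≃ₗ[ZMod l] V1)}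
  {e : V1 →ₗ[ZMod l] V1 →ₗ[ZMod l] ZMod l} {io : V1 →+ J} {T : Finset Pl}
  {chi : (Ω ≃ₐ[K] Ω) → ZMod l}

/-- A Selmer cocycle of `J` is a Selmer cocycle of `V`. -/
theorem isSel_of_zsel [IsGalois K Ω] [Fact l.Prime] (hF : FamE l B.NN)
    (hpl : ∀ v, ∃ w : ValuationSubring Ω, w ≠ ⊤ ∧
      (∀ c : k, algebraMap K Ω (algebraMap k K c) ∈ w) ∧ B.D v = w.decompositionSubgroup K)
    (hL : Lnk (sysS D B a e io T) B.q) (hS : (sysS D B a e io T).Ok)
    (hM : ModS D B a e io T) (hchi : (sysS D B a e io T).HomG chi)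
    (hiso : ∀ v, IsoV D B a e io chi v) (hlev : ∀ v, LevV D B io chi v) {i : ℕ}
    {ψ : (Ω ≃ₐ[K] Ω) → J} (hψ : ψ ∈ ZSel k (twJ D chi) (l ^ i)) :
    (sysS D B a e io T).IsSel chi (i * (l - 1))
      (fun s => VV.mk (D := D) (Q := ψ s) ⟨i, hψ.tors s⟩) := by
  set S := sysS D B a e io T with hSdef
  have hchi1 : chi 1 = 0 := by
    have := hchi.2 1 1
    rw [mul_one] at this
    exact left_eq_add.1 this
  have hψ1 : ψ 1 = 0 := by
    have h := hψ.cocycle 1 1
    rw [mul_one, twJ_apply, hchi1, ZMod.val_zero, Function.iterate_zero, id_eq, one_smul] at h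
    exact left_eq_add.1 h
  have hN0 : ∃ N ∈ B.NN, ∀ n ∈ N, chi n = 0 := by
    obtain ⟨N', hN', h2⟩ := hchi.1
    exact ⟨N', hN', fun n hn => by
      have h4 := h2 1 n hn
      rw [one_mul] at h4
      rw [h4, hchi1]⟩
  obtain ⟨N, hN, h1, h2⟩ := level_mem hF hchi.2 hN0 (hM.act_fin i) (c := ψ)
    (fun s t hs _ => by
      rw [hψ.cocycle, twJ_apply, hs, ZMod.val_zero]
      rfl) (fun s _ => hψ.tors s) (by
      obtain ⟨F, hF, h3⟩ := hψ.cont
      exact ⟨F, hF, fun s t _ _ hst => h3 s t hst⟩)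
  have h3 : ∀ n ∈ N, ψ n = 0 := fun n hn => by
    have h4 := h2 1 hchi1 n hn
    rw [one_mul, hψ1] at h4
    exact h4
  refine ⟨⟨N, hN, fun s n hn => VV.val_inj ?_⟩, fun s t => VV.val_inj ?_, fun s => ?_, fun v => ?_⟩
  · change ψ (s * n) = ψ s
    rw [hψ.cocycle, h3 n hn, map_zero, add_zero]
  · rw [map_add, val_twJ]
    exact hψ.cocycle s t
  · refine lam_of_l (A := AA l) (ze := zeta l) VV.norm_smul (VV.val_inj ?_)
    rw [map_nsmul, map_zero]
    exact hψ.tors s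
  · obtain ⟨w, hw, hc, hD⟩ := hpl v
    obtain ⟨Q, hQ⟩ := hψ.loc w hw hc
    have hQ' : ∀ s ∈ B.D v, ψ s = twJ D chi s Q - Q := fun s hs => hQ s (hD ▸ hs)
    obtain ⟨Q', h4⟩ := e6S hL hS hM hchi (hiso v) (hlev v) (i := i) (Q := Q) fun s hs => by
      rw [← hQ' s hs]
      exact hψ.tors s
    refine ⟨Q', fun s hs => VV.val_inj ?_⟩
    rw [val_dlJ, ← h4 s hs]
    exact hQ' s hs

/-- **The bound.** -/
theorem sel_of_small [IsGalois K Ω] [Fact l.Prime] (hF : FamE l B.NN)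
    (hpl : ∀ v, ∃ w : ValuationSubring Ω, w ≠ ⊤ ∧
      (∀ c : k, algebraMap K Ω (algebraMap k K c) ∈ w) ∧ B.D v = w.decompositionSubgroup K)
    (hL : Lnk (sysS D B a e io T) B.q) (hS : (sysS D B a e io T).Ok)
    (hM : ModS D B a e io T) (hchi : (sysS D B a e io T).HomG chi)
    (hiso : ∀ v, IsoV D B a e io chi v) (hlev : ∀ v, LevV D B io chi v)
    (nofix : ∀ w : V1, (∀ s, a s w = w) → w = 0) {m : ℕ}
    (hsm : SmallS (sysS D B a e io T) m chi) (i : ℕ) :
    Finite (Sel k (twJ D chi) (l ^ i)) ∧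
      Nat.card (Sel k (twJ D chi) (l ^ i)) ≤ (l * Nat.card V1) ^ m := by
  classical
  set S := sysS D B a e io T with hSdef
  have key : ∀ ψ : ZSel k (twJ D chi) (l ^ i), ∃ Psi0 : {Psi // S.IsSel chi m Psi}, ∃ Q : VV D,
      ∀ s, ψ.1 s = VV.val D (Psi0.1 s) + (twJ D chi s (VV.val D Q) - VV.val D Q) := by
    intro ψ
    obtain ⟨Psi0, h0, Q, hQ⟩ := bounded_of_small hS hchi nofix hsm.1 hsm.2 _ _
      (isSel_of_zsel hF hpl hL hS hM hchi hiso hlev ψ.2)
    refine ⟨⟨Psi0, h0⟩, Q, fun s => ?_⟩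
    have h1 := congrArg (VV.val D) (hQ s)
    rw [map_add, val_dlJ] at h1
    exact h1
  choose f R hR using key
  let g : Sel k (twJ D chi) (l ^ i) → {Psi // S.IsSel chi m Psi} := fun x => f x.out
  have hg : Function.Injective g := by
    intro x y hxy
    have hxy' : f x.out = f y.out := hxy
    rw [← QuotientAddGroup.out_eq' x, ← QuotientAddGroup.out_eq' y, QuotientAddGroup.eq]
    rw [AddSubgroup.mem_addSubgroupOf]
    have h1 : ∀ s, y.out.1 s - x.out.1 s =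
        twJ D chi s (VV.val D (R y.out - R x.out)) - VV.val D (R y.out - R x.out) := by
      intro s
      rw [hR x.out s, hR y.out s, hxy', map_sub, map_sub]
      abel
    have h2 : l ^ i • (R y.out - R x.out) = 0 := by
      apply eq_zero_of_fix (chi := chi) hS nofix
      intro s
      apply VV.val_inj
      rw [val_dlJ, map_nsmul, map_nsmul, ← smul_sub, ← h1 s, smul_sub, y.out.2.tors s,
        x.out.2.tors s, sub_self, map_zero]
    refine ⟨VV.val D (R y.out - R x.out), ?_, fun s => ?_⟩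
    · rw [← map_nsmul, h2, map_zero]
    · rw [← h1 s]
      change -(x.out.1 s) + y.out.1 s = y.out.1 s - x.out.1 s
      abel
  have := hsm.1
  exact ⟨Finite.of_injective g hg, (Nat.card_le_card_of_injective g hg).trans hsm.2.le⟩

end Pool.Agent.SmS
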