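import Pool.Agent.Lib.SmS.PE

/-!
SMITH-S, section 10, Brp: the class of a stable set `O` of branch points.

`C' := del⁻¹`, so `s g C' = (u g)⁻¹ C'`. `fS := ∏ i ∈ O, (X - a i)`, `fc := ∏ i ∉ O, (X - a i)`, `ff a = fS * fc`; `h := y + C' fS(x)`.
`G := fc - (-C') ^ l * fS ^ (l - 1)`, so `ff a - (-C' fS) ^ l = fS * G`. (For `O = ∅`: `fS = 1`, fine too.)
(a) `(s g) fS = fS`, `(s g) fc = fc` (`O` stable, reindex by `p g`, which maps `O` onto `O`: injective and finite), `(s g) G = G` (`u g ^ l = 1`).
(b) `G` splits over `F`: its degree is `≤ n (l - 1)`; `G ≠ 0` and an irreducible factor of `G` of degree `d`, `1 ≤ d ≤ n (l - 1)` is separable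
(its derivative is not zero because `(d : F) ≠ 0`, `SmChar`), so it has degree 1 (`IsSepClosed.degree_eq_one_of_irreducible`). So `G.roots.card = G.natDegree`
(`splits_iff_card_roots`).
(c) `natDegree (fS * G) = max n (l * #O)` because `n ≠ l * #O` (`l ∤ n`); `ord h` is the same: `LT_add`, `LT` of `y` has degree `n`, `LT` of
`po (C C' * fS)` has degree `l * #O` (`ord_yy`, `ord_po`), different degrees.
(d) for `β` a root of `fS * G` let `pn β := ⟨β, -C' fS(β)⟩` (a point of the curve: `ff a (β) = (-C' fS(β)) ^ l`). `(pn β).idl = (x - β, h)`: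
`Pnt.idl_eq_span`, `h - (y - (pn β).y) = C' (fS(x) - fS(β))` is divisible by `x - β`. Hence
`∏ β ∈ (fS * G).roots, (pn β).idl ≤ (∏ (x - β), h) = (po (fS * G) up to a constant, h) = (h)` as
`po (fS * G) = y ^ l - (-C' fS(x)) ^ l` is divisible by `y + C' fS(x) = h` (`sub_dvd_pow_sub_pow`). The degrees agree (`dg_mul`, `dg_idl`, `dg_span`), so
`∏ β, (pn β).idl = (h)`: if `I ≤ J`, `I = J * I'` (`Ideal.dvd_iff_le`), `dg I' = 0`, `I' = ⊤`.
(e) `(fS * G).roots = fS.roots + G.roots`, `fS.roots.map pn = O.val.map (br l a)` (as `fS (a i) = 0` for `i ∈ O`). So `T := G.roots.map pn` has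
`∑ i ∈ O, e_i + clT T = cls (h) = 0`.
(f) `T` is stable: `pt g (pn β) = pn (s g β)`: `u g * s g (-C' fS(β)) = -C' fS (s g β)`; and `G.roots.map (s g) = G.roots` (`(s g) G = G`;
`Polynomial.roots_map_of_injective_of_card_eq_natDegree` or count roots).
(g) `NB T`: `G (a_j) ≠ 0`: `j ∈ O`: `G (a_j) = fc (a_j) ≠ 0` (`l - 1 ≥ 1`); `j ∉ O`: `G (a_j) = -(-C') ^ l fS (a_j) ^ (l - 1) ≠ 0`.
-/

set_option autoImplicit false

open Polynomial

namespace Pool.Agent.SmS

variable {l : ℕ} {F : Type} [Field F] [Fact l.Prime] {n : ℕ} {a : Fin n → F} [SupA l a]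
  [IsSepClosed F] [SmChar l (ff a)] {Γ : Type} [Group Γ]

/-! ### Polynomials -/

/-- `∏ i ∈ O, (X - a i)`. -/
private noncomputable def brp_S {n : ℕ} (a : Fin n → F) (O : Finset (Fin n)) : F[X] :=
  ∏ i ∈ O, (X - C (a i))

/-- `fc - c ^ l fS ^ (l - 1)`. -/
private noncomputable def brp_G (l : ℕ) {n : ℕ} (a : Fin n → F) (O : Finset (Fin n)) (c : F) : F[X] :=
  brp_S a Oᶜ - C (c ^ l) * brp_S a O ^ (l - 1)

omit [Fact l.Prime] [SupA l a] [IsSepClosed F] [SmChar l (ff a)] in
private theorem brp_monic (O : Finset (Fin n)) : (brp_S a O).Monic :=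
  monic_prod_of_monic _ _ fun i _ => monic_X_sub_C (a i)

omit [Fact l.Prime] [SupA l a] [IsSepClosed F] [SmChar l (ff a)] in
private theorem brp_deg (O : Finset (Fin n)) : (brp_S a O).natDegree = O.card := by
  rw [brp_S, natDegree_prod_of_monic _ _ fun i _ => monic_X_sub_C (a i)]
  simp

omit [Fact l.Prime] [SupA l a] [IsSepClosed F] [SmChar l (ff a)] in
private theorem brp_mul (O : Finset (Fin n)) : brp_S a O * brp_S a Oᶜ = ff a :=
  Finset.prod_mul_prod_compl O _

omit [SupA l a] [IsSepClosed F] [SmChar l (ff a)] in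
private theorem brp_SG (O : Finset (Fin n)) (c : F) :
    brp_S a O * brp_G l a O c = ff a - (C c * brp_S a O) ^ l := by
  have hl : l.Prime := Fact.out
  have e : brp_S a O ^ l = brp_S a O * brp_S a O ^ (l - 1) := by
    rw [← pow_succ', Nat.sub_add_cancel hl.one_le]
  rw [brp_G, mul_sub, brp_mul, mul_pow, ← C_pow, e]
  ring

omit [Fact l.Prime] [SupA l a] [IsSepClosed F] [SmChar l (ff a)] in
private theorem brp_eval (O : Finset (Fin n)) (x : F) : (brp_S a O).eval x = ∏ i ∈ O, (x - a i) := by
  rw [brp_S, eval_prod]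
  simp

omit [Fact l.Prime] [SupA l a] [IsSepClosed F] [SmChar l (ff a)] in
private theorem brp_zero {O : Finset (Fin n)} {i : Fin n} (hi : i ∈ O) :
    (brp_S a O).eval (a i) = 0 := by
  rw [brp_eval]
  exact Finset.prod_eq_zero hi (sub_self _)

omit [Fact l.Prime] [IsSepClosed F] [SmChar l (ff a)] in
private theorem brp_ne {O : Finset (Fin n)} {i : Fin n} (hi : i ∉ O) (h : Function.Injective a) :
    (brp_S a O).eval (a i) ≠ 0 := by
  rw [brp_eval]
  refine Finset.prod_ne_zero_iff.mpr fun j hj => sub_ne_zero.mpr fun e => ?_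
  exact hi (h e ▸ hj)

omit [IsSepClosed F] [SmChar l (ff a)] in
private theorem brp_G_ne (O : Finset (Fin n)) {c : F} (hc : c ≠ 0) (i : Fin n) :
    (brp_G l a O c).eval (a i) ≠ 0 := by
  have hl : l.Prime := Fact.out
  have ha := SupA.inj (l := l) (a := a)
  rw [brp_G, eval_sub, eval_mul, eval_C, eval_pow]
  by_cases hi : i ∈ O
  · rw [brp_zero hi, zero_pow (Nat.sub_ne_zero_of_lt hl.one_lt), mul_zero, sub_zero]
    exact brp_ne (by simpa using hi) ha
  · rw [brp_zero (O := Oᶜ) (by simpa using hi), zero_sub, neg_ne_zero]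
    exact mul_ne_zero (pow_ne_zero _ hc) (pow_ne_zero _ (brp_ne hi ha))

omit [IsSepClosed F] [SmChar l (ff a)] in
private theorem brp_G_ne_zero (O : Finset (Fin n)) {c : F} (hc : c ≠ 0) : brp_G l a O c ≠ 0 := by
  intro h
  have h2 := SupA.two_le (l := l) (a := a)
  have h1 := brp_G_ne (l := l) (a := a) O hc ⟨0, by omega⟩
  rw [h, eval_zero] at h1
  exact h1 rfl

omit [SupA l a] [IsSepClosed F] [SmChar l (ff a)] in
private theorem brp_G_deg (O : Finset (Fin n)) (c : F) :
    (brp_G l a O c).natDegree ≤ n * (l - 1) := by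
  have hl : l.Prime := Fact.out
  have h1 : 1 ≤ l - 1 := Nat.le_sub_of_add_le hl.two_le
  have h2 : ∀ O : Finset (Fin n), O.card ≤ n := fun O => by
    simpa using Finset.card_le_univ O
  refine (natDegree_sub_le _ _).trans (max_le ?_ ?_)
  · rw [brp_deg]
    exact (h2 _).trans (Nat.le_mul_of_pos_right n h1)
  · refine (natDegree_C_mul_le _ _).trans ?_
    refine natDegree_pow_le.trans ?_
    rw [brp_deg, mul_comm]
    exact Nat.mul_le_mul_right _ (h2 _)

private theorem brp_G_splits (O : Finset (Fin n)) {c : F} (hc : c ≠ 0) :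
    (brp_G l a O c).Splits := by
  obtain ⟨u, hu⟩ := UniqueFactorizationMonoid.factors_prod (brp_G_ne_zero (l := l) (a := a) O hc)
  rw [← hu]
  refine (Splits.multisetProd fun g hg' => ?_).mul u.isUnit.splits
  have hg : Irreducible g := UniqueFactorizationMonoid.irreducible_of_factor g hg'
  have hd : g ∣ brp_G l a O c := UniqueFactorizationMonoid.dvd_of_mem_factors hg'
  apply Splits.of_degree_eq_one
  apply IsSepClosed.degree_eq_one_of_irreducible F hg
  rw [separable_iff_derivative_ne_zero hg]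
  intro h0
  have hd1 : g.natDegree ≤ n * (l - 1) :=
    (natDegree_le_of_dvd hd (brp_G_ne_zero O hc)).trans (brp_G_deg O c)
  have hpos := hg.natDegree_pos
  have h1 := SmChar.ne (l := l) (f := ff a) g.natDegree hpos (by rw [natDegree_ff]; exact hd1)
  have h2 : (derivative g).coeff (g.natDegree - 1) = g.leadingCoeff * (g.natDegree : F) := by
    rw [coeff_derivative, Nat.sub_add_cancel hpos, leadingCoeff, Nat.cast_sub hpos]
    push_cast
    ring
  rw [h0, coeff_zero] at h2
  exact mul_ne_zero (leadingCoeff_ne_zero.mpr hg.ne_zero) h1 h2.symm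

omit [IsSepClosed F] [SmChar l (ff a)] in
private theorem brp_ord (O : Finset (Fin n)) {c : F} (hc : c ≠ 0) :
    ord (yy l (ff a) - po l (ff a) (C c * brp_S a O)) = (brp_S a O * brp_G l a O c).natDegree ∧
      yy l (ff a) - po l (ff a) (C c * brp_S a O) ≠ 0 := by
  have hl : l.Prime := Fact.out
  have hne : n ≠ l * O.card := by
    intro h
    have h1 := SupA.cop (l := l) (a := a)
    have h2 : l ∣ n := ⟨_, h⟩
    exact hl.one_lt.ne' (Nat.dvd_one.mp (h1.gcd_eq_one ▸ Nat.dvd_gcd dvd_rfl h2))
  have e1 : (LT (yy l (ff a))).natDegree = n := by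
    have := ord_yy (l := l) (f := ff a)
    rwa [natDegree_ff] at this
  have e2 : (LT (po l (ff a) (C c * brp_S a O))).natDegree = l * O.card := by
    have := ord_po (l := l) (f := ff a) (C c * brp_S a O)
    rwa [natDegree_C_mul hc, brp_deg] at this
  have e3 : (ff a).natDegree = n := natDegree_ff a
  have e4 : ((C c * brp_S a O) ^ l).natDegree = l * O.card := by
    rw [natDegree_pow, natDegree_C_mul hc, brp_deg]
  have hord : ord (yy l (ff a) - po l (ff a) (C c * brp_S a O)) =
      (brp_S a O * brp_G l a O c).natDegree := by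
    rw [ord, LT_sub, brp_SG]
    rcases lt_or_gt_of_ne hne with h | h
    · rw [natDegree_sub_eq_right_of_natDegree_lt (by rw [e1, e2]; exact h),
        natDegree_sub_eq_right_of_natDegree_lt (by rw [e3, e4]; exact h), e2, e4]
    · rw [natDegree_sub_eq_left_of_natDegree_lt (by rw [e1, e2]; exact h),
        natDegree_sub_eq_left_of_natDegree_lt (by rw [e3, e4]; exact h), e1, e3]
  refine ⟨hord, fun h0 => ?_⟩
  have h1 : LT (yy l (ff a)) = LT (po l (ff a) (C c * brp_S a O)) := by
    rw [sub_eq_zero.mp h0]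
  rw [h1, e2] at e1
  exact hne e1.symm

/-! ### Points -/

omit [IsSepClosed F] [SmChar l (ff a)] in
open Classical in
/-- The point `(β, c fS(β))`. -/
private noncomputable def brp_pn (l : ℕ) [Fact l.Prime] {n : ℕ} (a : Fin n → F) [SupA l a]
    (O : Finset (Fin n)) (c : F) (β : F) : Pnt l (ff a) :=
  if h : (c * (brp_S a O).eval β) ^ l = (ff a).eval β then ⟨β, c * (brp_S a O).eval β, h⟩
  else br l a ⟨0, lt_of_lt_of_le two_pos (SupA.two_le (l := l) (a := a))⟩

omit [SupA l a] [IsSepClosed F] [SmChar l (ff a)] in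
private theorem brp_on {O : Finset (Fin n)} {c : F} {β : F}
    (h : (brp_S a O * brp_G l a O c).eval β = 0) :
    (c * (brp_S a O).eval β) ^ l = (ff a).eval β := by
  rw [brp_SG, eval_sub, eval_pow, eval_mul, eval_C, sub_eq_zero] at h
  exact h.symm

omit [IsSepClosed F] [SmChar l (ff a)] in
private theorem brp_pn_x {O : Finset (Fin n)} {c : F} {β : F}
    (h : (brp_S a O * brp_G l a O c).eval β = 0) : (brp_pn l a O c β).x = β := by
  rw [brp_pn, dif_pos (brp_on h)]

omit [IsSepClosed F] [SmChar l (ff a)] in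
private theorem brp_pn_y {O : Finset (Fin n)} {c : F} {β : F}
    (h : (brp_S a O * brp_G l a O c).eval β = 0) :
    (brp_pn l a O c β).y = c * (brp_S a O).eval β := by
  rw [brp_pn, dif_pos (brp_on h)]

omit [IsSepClosed F] [SmChar l (ff a)] in
private theorem brp_idl_le {O : Finset (Fin n)} {c : F} {β : F}
    (h : (brp_S a O * brp_G l a O c).eval β = 0) :
    (brp_pn l a O c β).idl ≤
      Ideal.span {po l (ff a) (X - C β), yy l (ff a) - po l (ff a) (C c * brp_S a O)} := by
  rw [Pnt.idl_eq_span, brp_pn_x h, brp_pn_y h, Ideal.span_le]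
  rintro z (rfl | rfl)
  · exact Ideal.subset_span (Set.mem_insert _ _)
  · obtain ⟨q, hq⟩ := (dvd_iff_isRoot (p := C c * brp_S a O - C (c * (brp_S a O).eval β)) (a := β)).mpr
      (by rw [IsRoot, eval_sub, eval_mul, eval_C, eval_C, sub_self])
    have e : yy l (ff a) - po l (ff a) (C (c * (brp_S a O).eval β)) =
        po l (ff a) q * po l (ff a) (X - C β) +
          1 * (yy l (ff a) - po l (ff a) (C c * brp_S a O)) := by
      have h1 : po l (ff a) q * po l (ff a) (X - C β) =
          po l (ff a) (C c * brp_S a O) - po l (ff a) (C (c * (brp_S a O).eval β)) := by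
        rw [← map_sub, hq, ← map_mul, mul_comm]
      rw [h1]
      ring
    change _ ∈ Ideal.span _
    rw [e, Ideal.mem_span_pair]
    exact ⟨_, _, rfl⟩

omit [IsSepClosed F] [SmChar l (ff a)] in
private theorem brp_prod_le {O : Finset (Fin n)} {c : F} (R : Multiset F)
    (h : ∀ β ∈ R, (brp_S a O * brp_G l a O c).eval β = 0) :
    idT (R.map (brp_pn l a O c)) ≤
      Ideal.span {po l (ff a) (R.map fun β => X - C β).prod,
        yy l (ff a) - po l (ff a) (C c * brp_S a O)} := by
  induction R using Multiset.induction_on with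
  | empty =>
    rw [Multiset.map_zero, Multiset.map_zero, Multiset.prod_zero, map_one, Ideal.span_insert,
      Ideal.span_singleton_one, top_sup_eq]
    exact le_top
  | cons β R ih =>
    rw [Multiset.map_cons, idT_cons, Multiset.map_cons, Multiset.prod_cons]
    refine (Ideal.mul_mono (brp_idl_le (h β (Multiset.mem_cons_self _ _)))
      (ih fun b hb => h b (Multiset.mem_cons_of_mem hb))).trans ?_
    rw [Ideal.span_pair_mul_span_pair, Ideal.span_le, map_mul (po l (ff a)) (X - C β)]
    rintro z (rfl | rfl | rfl | rfl)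
    · exact Ideal.subset_span (Set.mem_insert _ _)
    · exact Ideal.mul_mem_left _ _ (Ideal.subset_span (Set.mem_insert_of_mem _ (Set.mem_singleton _)))
    · exact Ideal.mul_mem_right _ _ (Ideal.subset_span (Set.mem_insert_of_mem _ (Set.mem_singleton _)))
    · exact Ideal.mul_mem_right _ _ (Ideal.subset_span (Set.mem_insert_of_mem _ (Set.mem_singleton _)))

omit [SmChar l (ff a)] in
private theorem brp_dg_idT (T : Multiset (Pnt l (ff a))) : dg (idT T) = T.card := by
  induction T using Multiset.induction_on with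
  | empty =>
    rw [idT_zero, Multiset.card_zero, dg]
    have : Subsingleton (Co l (ff a) ⧸ (⊤ : Ideal (Co l (ff a)))) :=
      Ideal.Quotient.subsingleton_iff.mpr rfl
    exact Module.finrank_zero_of_subsingleton
  | cons P T ih => rw [idT_cons, dg_mul P.ne_bot (idT_ne_bot T), ih, dg_idl, Multiset.card_cons, add_comm]

omit [SmChar l (ff a)] in
private theorem brp_eq {I J : Ideal (Co l (ff a))} (h : I ≤ J) (hI : I ≠ ⊥) (e : dg I = dg J) :
    I = J := by
  obtain ⟨I', hI'⟩ := Ideal.dvd_iff_le.mpr h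
  have hJ : J ≠ ⊥ := by
    rintro rfl
    exact hI (le_bot_iff.mp h)
  have hI'0 : I' ≠ ⊥ := by
    rintro rfl
    rw [Ideal.mul_bot] at hI'
    exact hI hI'
  have h1 : dg I' = 0 := by
    rw [hI', dg_mul hJ hI'0] at e
    omega
  have h2 := fin_quot hI'0
  have h3 : Subsingleton (Co l (ff a) ⧸ I') := Module.finrank_zero_iff.mp h1
  rw [hI', Ideal.Quotient.subsingleton_iff.mp h3, Ideal.mul_top]

private theorem brp_idT (O : Finset (Fin n)) {c : F} (hc : c ≠ 0) :
    idT ((brp_S a O * brp_G l a O c).roots.map (brp_pn l a O c)) =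
      Ideal.span {yy l (ff a) - po l (ff a) (C c * brp_S a O)} := by
  have hS : brp_S a O ≠ 0 := (brp_monic O).ne_zero
  have h0 : brp_S a O * brp_G l a O c ≠ 0 := mul_ne_zero hS (brp_G_ne_zero O hc)
  have hsp : (brp_S a O * brp_G l a O c).Splits := by
    refine Splits.mul ?_ (brp_G_splits O hc)
    exact Splits.prod fun i _ => Splits.X_sub_C _
  obtain ⟨ho, hne⟩ := brp_ord (l := l) (a := a) O hc
  apply brp_eq
  · refine (brp_prod_le (l := l) (a := a) (O := O) (c := c) _ fun β hβ => ?_).trans ?_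
    · exact (mem_roots'.mp hβ).2
    · rw [Ideal.span_le]
      rintro z (rfl | rfl)
      · change _ ∈ Ideal.span _
        rw [Ideal.mem_span_singleton]
        have h1 : po l (ff a) (brp_S a O * brp_G l a O c) =
            po l (ff a) (C (brp_S a O * brp_G l a O c).leadingCoeff) * po l (ff a)
              ((brp_S a O * brp_G l a O c).roots.map fun β => X - C β).prod := by
          rw [← map_mul, ← hsp.eq_prod_roots]
        have h2 : yy l (ff a) - po l (ff a) (C c * brp_S a O) ∣
            po l (ff a) (brp_S a O * brp_G l a O c) := by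
          rw [brp_SG, map_sub, ← yy_pow, map_pow]
          exact sub_dvd_pow_sub_pow _ _ _
        rw [h1] at h2
        have hu : IsUnit (po l (ff a) (C (brp_S a O * brp_G l a O c).leadingCoeff)) :=
          ((isUnit_iff_ne_zero.mpr (leadingCoeff_ne_zero.mpr h0)).map C).map (po l (ff a))
        exact (hu.dvd_mul_left).mp h2
      · exact Ideal.mem_span_singleton_self _
  · exact idT_ne_bot _
  · rw [brp_dg_idT, Multiset.card_map, dg_span hne, ho, splits_iff_card_roots.mp hsp]

theorem Tw.brp (W : Tw l a Γ) (O : Finset (Fin n)) (hO : ∀ g, ∀ i ∈ O, W.p g i ∈ O) :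
    ∃ T : Multiset (Pnt l (ff a)), W.Stab T ∧ NB T ∧ ∑ i ∈ O, ee l a i = -clT T := by
  have hl : l.Prime := Fact.out
  set c : F := -(W.del)⁻¹ with hcd
  have hc : c ≠ 0 := neg_ne_zero.mpr (inv_ne_zero W.del_ne)
  have hsc : ∀ g, W.s g c = (W.u g)⁻¹ * c := by
    intro g
    rw [hcd, map_neg, map_inv₀, W.sd, mul_inv, mul_neg]
  have hS : brp_S a O ≠ 0 := (brp_monic O).ne_zero
  have hG : brp_G l a O c ≠ 0 := brp_G_ne_zero O hc
  -- the polynomials are fixed
  have hfS : ∀ g, (brp_S a O).map (W.s g : F →+* F) = brp_S a O := by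
    intro g
    have hm : O.map (W.p g).toEmbedding = O := by
      refine Finset.eq_of_subset_of_card_le ?_ (by rw [Finset.card_map])
      intro j hj
      obtain ⟨i, hi, rfl⟩ := Finset.mem_map.mp hj
      exact hO g i hi
    conv_rhs => rw [brp_S, ← hm, Finset.prod_map]
    rw [brp_S, Polynomial.map_prod]
    refine Finset.prod_congr rfl fun i _ => ?_
    rw [Polynomial.map_sub, map_X, map_C]
    change X - C (W.s g (a i)) = _
    rw [W.sa]
    rfl
  have hfc : ∀ g, (brp_S a Oᶜ).map (W.s g : F →+* F) = brp_S a Oᶜ := by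
    intro g
    apply mul_left_cancel₀ hS
    conv_rhs => rw [brp_mul, ← W.map_ff g, ← brp_mul (a := a) O, Polynomial.map_mul, hfS g]
  have hfG : ∀ g, (brp_G l a O c).map (W.s g : F →+* F) = brp_G l a O c := by
    intro g
    rw [brp_G, Polynomial.map_sub, Polynomial.map_mul, Polynomial.map_pow, hfS, hfc, map_C]
    congr 3
    change W.s g (c ^ l) = c ^ l
    rw [map_pow, hsc, mul_pow, inv_pow, W.ul, inv_one, one_mul]
  have hGroots : ∀ β ∈ (brp_G l a O c).roots, (brp_S a O * brp_G l a O c).eval β = 0 := by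
    intro β hβ
    rw [eval_mul, show (brp_G l a O c).eval β = 0 from (mem_roots'.mp hβ).2, mul_zero]
  have hrm : ∀ g, (brp_G l a O c).roots.map (W.s g) = (brp_G l a O c).roots := by
    intro g
    have h1 := (brp_G_splits (l := l) (a := a) O hc).roots_map_of_injective
      (i := (W.s g : F →+* F)) (W.s g).injective
    rw [hfG g] at h1
    exact h1.symm
  refine ⟨(brp_G l a O c).roots.map (brp_pn l a O c), ?_, ?_, ?_⟩
  · intro g
    rw [Multiset.map_map]
    conv_rhs => rw [← hrm g, Multiset.map_map]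
    refine Multiset.map_congr rfl fun β hβ => ?_
    have h1 := hGroots β hβ
    have h2 : W.s g β ∈ (brp_G l a O c).roots := by
      rw [← hrm g]
      exact Multiset.mem_map_of_mem _ hβ
    have h3 := hGroots _ h2
    have h4 : W.s g ((brp_S a O).eval β) = (brp_S a O).eval (W.s g β) := by
      have h5 := eval_map_apply (W.s g : F →+* F) (p := brp_S a O) β
      rw [hfS g] at h5
      exact h5.symm
    ext
    · change (W.pt g (brp_pn l a O c β)).x = (brp_pn l a O c (W.s g β)).x
      rw [Tw.pt_x, brp_pn_x h1, brp_pn_x h3]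
    · change (W.pt g (brp_pn l a O c β)).y = (brp_pn l a O c (W.s g β)).y
      rw [Tw.pt_y, brp_pn_y h1, brp_pn_y h3, map_mul, hsc, h4, ← mul_assoc, ← mul_assoc,
        mul_inv_cancel₀ (W.u_ne g), one_mul]
  · intro t ht i
    obtain ⟨β, hβ, rfl⟩ := Multiset.mem_map.mp ht
    rw [brp_pn_x (hGroots β hβ)]
    rintro rfl
    exact brp_G_ne (l := l) O hc i (mem_roots'.mp hβ).2
  · rw [eq_neg_iff_add_eq_zero]
    have h1 := congrArg SmJ.cls (brp_idT (l := l) (a := a) O hc)
    rw [SmJ.cls_span, cls_idT, roots_mul (mul_ne_zero hS hG), Multiset.map_add, clT_add] at h1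
    rw [← h1]
    congr 1
    have h2 : (brp_S a O).roots = O.val.map a := by
      have h3 : brp_S a O = ((O.val.map a).map fun b => X - C b).prod := by
        rw [Multiset.map_map]
        rfl
      rw [h3, roots_multiset_prod_X_sub_C]
    have h4 : (O.val.map a).map (brp_pn l a O c) = O.val.map (br l a) := by
      rw [Multiset.map_map]
      refine Multiset.map_congr rfl fun i hi => ?_
      have h5 : (brp_S a O * brp_G l a O c).eval (a i) = 0 := by
        rw [eval_mul, brp_zero hi, zero_mul]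
      ext
      · change (brp_pn l a O c (a i)).x = a i
        exact brp_pn_x h5
      · change (brp_pn l a O c (a i)).y = 0
        rw [brp_pn_y h5, brp_zero hi, mul_zero]
    rw [h2, h4, clT, Multiset.map_map]
    rfl

end Pool.Agent.SmS
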