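import Pool.Agent.Lib.SmS.Ded

/-!
SMITH-S, section 3 of the paper: degrees of ideals. `dg I = finrank F (Co l f ⧸ I)`.

`dg_span`: Mathlib `finrank_quotient_span_eq_natDegree_norm` and `exists_nm`. `dg_mul`: `I ⧸ I I' ≃ R ⧸ I'`
(`IsDedekindDomain.exists_sup_span_eq`). `exists_small`: the `h` with `ord h ≤ m` form a space of dimension
`≥ m + 1 - n (l - 1) / 2`. `exists_pnt`: `R ⧸ q` is a finite extension of `F` of degree `d`.
-/

set_option autoImplicit false

open Polynomial

namespace Pool.Agent.SmS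

variable {l : ℕ} {F : Type} [Field F] {f : F[X]} [Fact l.Prime] [Sup l f]

/-! ### Leading term polynomials -/

omit [Sup l f] in
private theorem Col_mono (p : F[X]) {j : ℕ} (hj : j < l) :
    LT (po l f p * yy l f ^ j) = expand F l p * X ^ (f.natDegree * j) := by
  have e : po l f p * yy l f ^ j =
      ∑ i ∈ Finset.range l, po l f (if i = j then p else 0) * yy l f ^ i := by
    rw [Finset.sum_eq_single_of_mem j (Finset.mem_range.mpr hj), if_pos rfl]
    intro b _ hb
    rw [if_neg hb, map_zero, zero_mul]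
  rw [LT, Finset.sum_eq_single_of_mem j (Finset.mem_range.mpr hj)]
  · rw [e, cf_sum _ hj, if_pos rfl]
  · intro b hb hbj
    rw [e, cf_sum _ (Finset.mem_range.mp hb), if_neg hbj, map_zero, zero_mul]

omit [Fact l.Prime] [Sup l f] in
private theorem Col_coe (p : F[X]) (hl : 0 < l) (j m : ℕ) :
    (expand F l p * X ^ (f.natDegree * j)).coeff m ≠ 0 →
    ∃ i, m = l * i + f.natDegree * j ∧ p.coeff i ≠ 0 := by
  intro h
  rw [coeff_mul_X_pow'] at h
  split_ifs at h with h1
  · rw [coeff_expand hl] at h
    split_ifs at h with h2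
    · refine ⟨(m - f.natDegree * j) / l, ?_, h⟩
      rw [Nat.mul_div_cancel' h2]
      omega
    · exact absurd rfl h
  · exact absurd rfl h

omit [Sup l f] in
private theorem Col_form (h : Co l f) {m : ℕ} (hm : (LT h).coeff m ≠ 0) :
    ∃ i j : ℕ, j < l ∧ m = l * i + f.natDegree * j := by
  have hl : l.Prime := Fact.out
  rw [LT, finsetSum_coeff] at hm
  obtain ⟨j, hj, h1⟩ := Finset.exists_ne_zero_of_sum_ne_zero hm
  obtain ⟨i, h2, _⟩ := Col_coe (f := f) _ hl.pos _ _ h1
  exact ⟨i, j, Finset.mem_range.mp hj, h2⟩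

omit [Sup l f] in
private theorem Col_smul (c : F) (h : Co l f) : c • h = po l f (C c) * h := by
  rw [Algebra.smul_def]
  rfl

private noncomputable def Col_LT (l : ℕ) {F : Type} [Field F] (f : F[X]) [Fact l.Prime] :
    Co l f →ₗ[F] F[X] where
  toFun := LT
  map_add' := LT_add
  map_smul' c h := by rw [Col_smul, LT_C_mul, RingHom.id_apply, smul_eq_C_mul]

/-- The `g` whose leading term polynomial has degree `< m`. -/
private noncomputable def Col_W (l : ℕ) {F : Type} [Field F] (f : F[X]) [Fact l.Prime] (m : ℕ) :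
    Submodule F (Co l f) := (degreeLT F m).comap (Col_LT l f)

omit [Sup l f] in
private theorem Col_mem {m : ℕ} {g : Co l f} : g ∈ Col_W l f m ↔ (LT g).degree < (m : WithBot ℕ) := by
  rw [Col_W, Submodule.mem_comap, mem_degreeLT]
  rfl

omit [Sup l f] in
private theorem Col_X (i j : ℕ) (hj : j < l) :
    LT (po l f (X ^ i) * yy l f ^ j) = X ^ (l * i + f.natDegree * j) := by
  rw [Col_mono _ hj, map_pow, expand_X, ← pow_mul, ← pow_add]

/-! ### The semigroup -/

private theorem Col_res {n : ℕ} (hc : l.Coprime n) (e : ℕ) :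
    ∃ j < l, ((n * j : ℕ) : ZMod l) = (e : ZMod l) := by
  have hl : l.Prime := Fact.out
  have hn : (n : ZMod l) ≠ 0 := by
    intro h0
    rw [ZMod.natCast_eq_zero_iff] at h0
    exact hl.one_lt.ne' (Nat.dvd_one.mp (hc.gcd_eq_one ▸ Nat.dvd_gcd dvd_rfl h0))
  refine ⟨((e : ZMod l) * (n : ZMod l)⁻¹).val, ZMod.val_lt _, ?_⟩
  rw [Nat.cast_mul, ZMod.natCast_zmod_val, mul_comm, mul_assoc, inv_mul_cancel₀ hn, mul_one]

private theorem Col_rep {n : ℕ} (hc : l.Coprime n) {e : ℕ} (he : n * (l - 1) ≤ e) :
    ∃ i j : ℕ, j < l ∧ e = l * i + n * j := by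
  have hl : l.Prime := Fact.out
  obtain ⟨j, hj, h1⟩ := Col_res (l := l) hc e
  have h2 : n * j ≤ e := le_trans (Nat.mul_le_mul_left _ (by omega)) he
  have h3 : l ∣ e - n * j := by
    rw [← ZMod.natCast_eq_zero_iff, Nat.cast_sub h2, h1, sub_self]
  obtain ⟨i, hi⟩ := h3
  exact ⟨i, j, hj, by omega⟩

private theorem Col_gap {n : ℕ} (hc : l.Coprime n) {e : ℕ}
    (he : ¬ ∃ i j : ℕ, j < l ∧ e = l * i + n * j) :
    ∃ e' : ℕ, e + e' + n + l = n * l ∧ ∃ i j : ℕ, j < l ∧ e' = l * i + n * j := by
  have hl : l.Prime := Fact.out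
  obtain ⟨j, hj, h1⟩ := Col_res (l := l) hc e
  rcases le_or_gt (n * j) e with h2 | h2
  · exfalso
    apply he
    have h3 : l ∣ e - n * j := by
      rw [← ZMod.natCast_eq_zero_iff, Nat.cast_sub h2, h1, sub_self]
    obtain ⟨i, hi⟩ := h3
    exact ⟨i, j, hj, by omega⟩
  · have h3 : l ∣ n * j - e := by
      rw [← ZMod.natCast_eq_zero_iff, Nat.cast_sub h2.le, h1, sub_self]
    obtain ⟨k, hk⟩ := h3
    have hk0 : k ≠ 0 := by
      rintro rfl
      rw [mul_zero] at hk
      omega
    obtain ⟨k, rfl⟩ := Nat.exists_eq_succ_of_ne_zero hk0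
    obtain ⟨d, hd⟩ := Nat.exists_eq_add_of_lt hj
    refine ⟨l * k + n * d, ?_, k, d, by omega, rfl⟩
    have h4 : n * j = e + l * (k + 1) := by
      have : n * j - e = l * (k + 1) := hk
      omega
    have h5 : n * l = n * j + n * d + n := by
      rw [hd]
      ring
    rw [h5, h4]
    ring

open scoped Classical in
private noncomputable def Col_E (l n m : ℕ) : Finset ℕ :=
  (Finset.range m).filter fun e => ∃ i j : ℕ, j < l ∧ e = l * i + n * j

private theorem Col_memE {l n m e : ℕ} :
    e ∈ Col_E l n m ↔ e < m ∧ ∃ i j : ℕ, j < l ∧ e = l * i + n * j := by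
  classical
  rw [Col_E, Finset.mem_filter, Finset.mem_range]

private theorem Col_card_add {n : ℕ} (hc : l.Coprime n) (r : ℕ) :
    (Col_E l n (r + n * (l - 1))).card = (Col_E l n (n * (l - 1))).card + r := by
  classical
  have h1 : Col_E l n (r + n * (l - 1)) =
      Col_E l n (n * (l - 1)) ∪ Finset.Ico (n * (l - 1)) (r + n * (l - 1)) := by
    ext e
    rw [Finset.mem_union, Col_memE, Col_memE, Finset.mem_Ico]
    constructor
    · rintro ⟨h2, h3⟩
      rcases lt_or_ge e (n * (l - 1)) with h4 | h4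
      · exact Or.inl ⟨h4, h3⟩
      · exact Or.inr ⟨h4, h2⟩
    · rintro (⟨h2, h3⟩ | ⟨h2, h3⟩)
      · exact ⟨by omega, h3⟩
      · exact ⟨h3, Col_rep hc h2⟩
  have h2 : Disjoint (Col_E l n (n * (l - 1))) (Finset.Ico (n * (l - 1)) (r + n * (l - 1))) := by
    rw [Finset.disjoint_left]
    intro e h3 h4
    rw [Col_memE] at h3
    rw [Finset.mem_Ico] at h4
    omega
  rw [h1, Finset.card_union_of_disjoint h2, Nat.card_Ico]
  omega

private theorem Col_card_ge {n : ℕ} (hc : l.Coprime n) (M : ℕ) :
    M ≤ (Col_E l n M).card + n * (l - 1) / 2 := by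
  classical
  have hl : l.Prime := Fact.out
  set S : ℕ → Prop := fun e => ∃ i j : ℕ, j < l ∧ e = l * i + n * j with hS
  set T := Finset.range (n * l + 1 - n - l) with hT
  have h1 : (T.filter fun e => ¬ S e).card ≤ (T.filter S).card := by
    refine Finset.card_le_card_of_injOn (fun e => n * l - n - l - e) ?_ ?_
    · intro e he
      simp only [Finset.coe_filter, Set.mem_setOf_eq, hT, Finset.mem_range] at he ⊢
      obtain ⟨e', h2, h3⟩ := Col_gap hc he.2
      have h4 : n * l - n - l - e = e' := by omega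
      rw [h4]
      exact ⟨by omega, h3⟩
    · intro e he e1 he1 h2
      simp only [Finset.coe_filter, Set.mem_setOf_eq, hT, Finset.mem_range] at he he1 h2
      omega
  have h2 : (T.filter S).card + (T.filter fun e => ¬ S e).card = n * l + 1 - n - l := by
    rw [Finset.card_filter_add_card_filter_not, hT, Finset.card_range]
  have h3 : ((Finset.range M).filter S).card + ((Finset.range M).filter fun e => ¬ S e).card =
      M := by
    rw [Finset.card_filter_add_card_filter_not, Finset.card_range]
  have h4 : ((Finset.range M).filter fun e => ¬ S e).card ≤ (T.filter fun e => ¬ S e).card := by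
    apply Finset.card_le_card
    intro e he
    rw [Finset.mem_filter] at he ⊢
    refine ⟨?_, he.2⟩
    obtain ⟨e', h5, _⟩ := Col_gap hc he.2
    rw [hT, Finset.mem_range]
    omega
  have h5 : (Col_E l n M).card = ((Finset.range M).filter S).card := by
    congr 1
  have h6 : n * l = n * (l - 1) + n := by
    obtain ⟨k, hk⟩ := Nat.exists_eq_succ_of_ne_zero hl.ne_zero
    rw [hk, Nat.succ_sub_one, Nat.succ_eq_add_one]
    ring
  have h7 := hl.two_le
  rw [h5]
  omega

/-! ### Dimensions -/

private theorem Col_fin (m : ℕ) : FiniteDimensional F (Col_W l f m) := by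
  let θ : Col_W l f m →ₗ[F] degreeLT F m :=
    (Col_LT l f).restrict fun g hg => hg
  refine FiniteDimensional.of_injective θ ?_
  intro g h e
  have e1 : LT g.1 = LT h.1 := congrArg Subtype.val e
  apply Subtype.ext
  rw [← sub_eq_zero, ← LT_eq_zero, LT_sub, e1, sub_self]

private theorem Col_finrank (m : ℕ) :
    Module.finrank F (Col_W l f m) = (Col_E l f.natDegree m).card := by
  classical
  let θ : Col_W l f m →ₗ[F] (Col_E l f.natDegree m → F) :=
    { toFun := fun g e => (LT g.1).coeff e.1
      map_add' := fun g h => by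
        funext e
        rw [Pi.add_apply, ← coeff_add, ← LT_add]
        rfl
      map_smul' := fun c g => by
        funext e
        have h1 : LT (c • g : Col_W l f m).1 = c • LT g.1 := (Col_LT l f).map_smul c g.1
        rw [h1, coeff_smul]
        rfl }
  have hθ : ∀ g e, θ g e = (LT g.1).coeff e.1 := fun _ _ => rfl
  have hb : Function.Bijective θ := by
    constructor
    · rw [injective_iff_map_eq_zero]
      intro g hg
      apply Subtype.ext
      change g.1 = 0
      rw [← LT_eq_zero]
      ext1 e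
      rw [coeff_zero]
      by_contra h1
      have h2 := Col_form g.1 h1
      have h3 : e < m := by
        have h4 := Col_mem.mp g.2
        have h5 := le_degree_of_ne_zero h1
        exact_mod_cast lt_of_le_of_lt h5 h4
      have h4 := congrFun hg ⟨e, Col_memE.mpr ⟨h3, h2⟩⟩
      rw [hθ] at h4
      exact h1 h4
    · intro c
      have h1 : ∀ e : Col_E l f.natDegree m, ∃ b : Co l f, LT b = X ^ (e : ℕ) := by
        intro e
        obtain ⟨_, i, j, hj, he⟩ := Col_memE.mp e.2
        exact ⟨_, (Col_X i j hj).trans (by rw [he])⟩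
      choose b hb using h1
      have h2 : LT (∑ e, c e • b e) = ∑ e, c e • X ^ (e : ℕ) := by
        have h3 := map_sum (Col_LT l f) (fun e => c e • b e) Finset.univ
        refine h3.trans (Finset.sum_congr rfl fun e _ => ?_)
        rw [map_smul]
        congr 1
        exact hb e
      have h4 : ∑ e, c e • b e ∈ Col_W l f m := by
        refine Submodule.sum_mem _ fun e _ => Submodule.smul_mem _ _ ?_
        rw [Col_mem, hb, degree_X_pow]
        exact_mod_cast (Col_memE.mp e.2).1
      refine ⟨⟨_, h4⟩, ?_⟩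
      funext e
      rw [hθ]
      change (LT (∑ e, c e • b e)).coeff e.1 = c e
      rw [h2, finsetSum_coeff, Finset.sum_eq_single e]
      · rw [coeff_smul, coeff_X_pow, if_pos rfl, smul_eq_mul, mul_one]
      · intro e' _ he
        rw [coeff_smul, coeff_X_pow, if_neg fun h => he (Subtype.ext h.symm), smul_zero]
      · intro h
        exact absurd (Finset.mem_univ _) h
  rw [(LinearEquiv.ofBijective θ hb).finrank_eq, Module.finrank_fintype_fun_eq_card,
    Fintype.card_coe]

private theorem Col_reduce {z : Co l f} (hz : z ≠ 0) (g : Co l f) :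
    ∃ w ∈ Col_W l f (ord z + f.natDegree * (l - 1)), g - w ∈ Ideal.span {z} := by
  have hc := CopDeg.cop (l := l) (f := f)
  induction hn : ord g using Nat.strong_induction_on generalizing g with
  | _ k ih =>
    by_cases h : (LT g).degree < ((ord z + f.natDegree * (l - 1) : ℕ) : WithBot ℕ)
    · exact ⟨g, Col_mem.mpr h, by rw [sub_self]; exact Ideal.zero_mem _⟩
    · have hg : LT g ≠ 0 := by
        intro h0
        rw [h0, degree_zero] at h
        exact h (WithBot.bot_lt_coe _)
      have h1 : ord z + f.natDegree * (l - 1) ≤ ord g := by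
        rw [degree_eq_natDegree hg] at h
        rw [ord]
        have h2 : (((ord z + f.natDegree * (l - 1) : ℕ)) : WithBot ℕ) ≤
          (((LT g).natDegree : ℕ) : WithBot ℕ) := not_lt.mp h
        exact_mod_cast h2
      obtain ⟨i, j, hj, he⟩ := Col_rep (l := l) hc (e := ord g - ord z) (by omega)
      set t : Co l f := po l f (X ^ i) * yy l f ^ j with ht
      have hLt : LT t = X ^ (ord g - ord z) := by rw [ht, Col_X _ _ hj, ← he]
      have ht1 : ord t = ord g - ord z := by rw [ord, hLt, natDegree_X_pow]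
      have ht2 : lcc t = 1 := by rw [lcc, hLt, leadingCoeff_X_pow]
      have ht0 : t ≠ 0 := by
        rw [← lcc_ne_zero, ht2]
        exact one_ne_zero
      have hz1 : lcc z ≠ 0 := lcc_ne_zero.mpr hz
      have hg1 : lcc g ≠ 0 := by
        rw [lcc]
        exact leadingCoeff_ne_zero.mpr hg
      have hc0 : lcc g / lcc z ≠ 0 := div_ne_zero hg1 hz1
      set u : Co l f := po l f (C (lcc g / lcc z)) * (t * z) with hu
      have hpc : po l f (C (lcc g / lcc z)) ≠ 0 := by
        rw [← lcc_ne_zero, lcc_po, leadingCoeff_C]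
        exact hc0
      have hu1 : ord u = ord g := by
        rw [hu, ord_mul hpc (mul_ne_zero ht0 hz), ord_mul ht0 hz, ord_po, natDegree_C, ht1]
        omega
      have hu2 : lcc u = lcc g := by
        rw [hu, lcc_mul, lcc_mul, lcc_po, leadingCoeff_C, ht2, one_mul, div_mul_cancel₀ _ hz1]
      have hus : u ∈ Ideal.span {z} := by
        rw [hu, ← mul_assoc]
        exact Ideal.mul_mem_left _ _ (Ideal.mem_span_singleton_self z)
      by_cases hgu : g = u
      · refine ⟨0, Submodule.zero_mem _, ?_⟩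
        rw [sub_zero, hgu]
        exact hus
      · have h5 := ord_sub_lt hu1.symm hu2.symm hgu
        obtain ⟨w, hw, hw1⟩ := ih _ (hn ▸ h5) (g - u) rfl
        refine ⟨w, hw, ?_⟩
        have e : g - w = g - u - w + u := by ring
        rw [e]
        exact Ideal.add_mem _ hw1 hus

private noncomputable def Col_mk (I : Ideal (Co l f)) (m : ℕ) : Col_W l f m →ₗ[F] (Co l f ⧸ I) :=
  (Ideal.Quotient.mkₐ F I).toLinearMap.comp (Col_W l f m).subtype

omit [Sup l f] in
private theorem Col_mk_apply (I : Ideal (Co l f)) (m : ℕ) (g : Col_W l f m) :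
    Col_mk I m g = Ideal.Quotient.mk I g.1 := rfl

private theorem Col_mk_surj {I : Ideal (Co l f)} {z : Co l f} (hz : z ≠ 0) (hzI : z ∈ I) :
    Function.Surjective (Col_mk I (ord z + f.natDegree * (l - 1))) := by
  intro y
  obtain ⟨g, rfl⟩ := Ideal.Quotient.mk_surjective y
  obtain ⟨w, hw, h1⟩ := Col_reduce hz g
  refine ⟨⟨w, hw⟩, ?_⟩
  rw [Col_mk_apply]
  symm
  rw [Ideal.Quotient.eq]
  exact (Ideal.span_singleton_le_iff_mem I).mpr hzI h1

theorem fin_quot {I : Ideal (Co l f)} (h : I ≠ ⊥) : FiniteDimensional F (Co l f ⧸ I) := by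
  obtain ⟨z, hz, hz0⟩ := Submodule.exists_mem_ne_zero_of_ne_bot h
  have := Col_fin (l := l) (f := f) (ord z + f.natDegree * (l - 1))
  exact Module.Finite.of_surjective _ (Col_mk_surj hz0 hz)

/-- The degree of an ideal. -/
noncomputable def dg (I : Ideal (Co l f)) : ℕ := Module.finrank F (Co l f ⧸ I)

theorem dg_span {h : Co l f} (hh : h ≠ 0) : dg (Ideal.span {h}) = ord h := by
  have hc := CopDeg.cop (l := l) (f := f)
  set N := f.natDegree * (l - 1) with hN
  have hM := Col_fin (l := l) (f := f) (ord h + N)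
  have hN' := Col_fin (l := l) (f := f) N
  have hLh : LT h ≠ 0 := fun h0 => hh (LT_eq_zero.mp h0)
  have hdeg : ∀ t : Co l f, t ∈ Col_W l f N ↔ h * t ∈ Col_W l f (ord h + N) := by
    intro t
    by_cases ht : t = 0
    · subst ht
      rw [mul_zero]
      exact ⟨fun _ => Submodule.zero_mem _, fun _ => Submodule.zero_mem _⟩
    · have h1 : LT t ≠ 0 := fun h0 => ht (LT_eq_zero.mp h0)
      have h2 : LT (h * t) ≠ 0 := fun h0 => mul_ne_zero hh ht (LT_eq_zero.mp h0)
      have h3 : (LT (h * t)).natDegree = ord h + (LT t).natDegree := ord_mul hh ht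
      rw [Col_mem, Col_mem, degree_eq_natDegree h1, degree_eq_natDegree h2, h3]
      constructor
      · intro h4
        have h5 : (LT t).natDegree < N := by exact_mod_cast h4
        exact_mod_cast Nat.add_lt_add_left h5 (ord h)
      · intro h4
        have h5 : ord h + (LT t).natDegree < ord h + N := by exact_mod_cast h4
        exact_mod_cast (Nat.add_lt_add_iff_left.mp h5)
  let ψ : Col_W l f N →ₗ[F] Col_W l f (ord h + N) :=
    { toFun := fun t => ⟨h * t.1, (hdeg t.1).mp t.2⟩
      map_add' := fun s t => Subtype.ext (mul_add _ _ _)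
      map_smul' := fun c t => Subtype.ext (mul_smul_comm c h t.1) }
  have hψ : Function.Injective ψ := by
    intro s t e
    have e1 : h * s.1 = h * t.1 := congrArg Subtype.val e
    exact Subtype.ext (mul_left_cancel₀ hh e1)
  have hr : LinearMap.ker (Col_mk (Ideal.span {h}) (ord h + N)) = LinearMap.range ψ := by
    ext g
    rw [LinearMap.mem_ker, LinearMap.mem_range, Col_mk_apply, Ideal.Quotient.eq_zero_iff_mem,
      Ideal.mem_span_singleton]
    constructor
    · rintro ⟨t, ht⟩
      refine ⟨⟨t, (hdeg t).mpr (ht ▸ g.2)⟩, Subtype.ext ht.symm⟩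
    · rintro ⟨t, rfl⟩
      exact ⟨t.1, rfl⟩
  have h1 := LinearMap.finrank_range_add_finrank_ker (Col_mk (Ideal.span {h}) (ord h + N))
  rw [LinearMap.range_eq_top.mpr (Col_mk_surj hh (Ideal.mem_span_singleton_self h)), finrank_top,
    hr, LinearMap.finrank_range_of_inj hψ, Col_finrank, Col_finrank, hN, Col_card_add hc] at h1
  rw [dg]
  omega

theorem dg_mul [IsDedekindDomain (Co l f)] {I I' : Ideal (Co l f)} (h : I ≠ ⊥) (h' : I' ≠ ⊥) :
    dg (I * I') = dg I + dg I' := by
  obtain ⟨t, ht⟩ := IsDedekindDomain.exists_sup_span_eq (I := I * I') (J := I) Ideal.mul_le_left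
    (mul_ne_zero h h')
  have htI : t ∈ I := by
    rw [← ht]
    exact Ideal.mem_sup_right (Ideal.mem_span_singleton_self t)
  have hle : I' ≤ Submodule.comap (LinearMap.mulLeft (Co l f) t) (I * I') :=
    fun x hx => Ideal.mul_mem_mul htI hx
  set i : (Co l f ⧸ I') →ₗ[Co l f] (Co l f ⧸ I * I') :=
    Submodule.mapQ I' (I * I') (LinearMap.mulLeft (Co l f) t) hle
  set q : (Co l f ⧸ I * I') →ₗ[Co l f] (Co l f ⧸ I) := Submodule.mapQ (I * I') I LinearMap.id
    (fun x hx => Ideal.mul_le_left hx)
  have hi : ∀ x : Co l f, i (Ideal.Quotient.mk I' x) = Ideal.Quotient.mk (I * I') (t * x) :=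
    fun _ => rfl
  have hq : ∀ x : Co l f, q (Ideal.Quotient.mk (I * I') x) = Ideal.Quotient.mk I x := fun _ => rfl
  have hinj : Function.Injective (i.restrictScalars F) := by
    rw [injective_iff_map_eq_zero]
    intro x hx
    obtain ⟨x, rfl⟩ := Ideal.Quotient.mk_surjective x
    have h1 : t * x ∈ I * I' := Ideal.Quotient.eq_zero_iff_mem.1 hx
    rw [Ideal.Quotient.eq_zero_iff_mem]
    have h2 : I * Ideal.span {x} ≤ I * I' := by
      rw [← ht, Ideal.sup_mul, sup_le_iff]
      constructor
      · rw [ht]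
        exact Ideal.mul_le_left
      · rw [ht, Ideal.span_singleton_mul_span_singleton, Ideal.span_singleton_le_iff_mem]
        exact h1
    have h3 : Ideal.span {x} ≤ I' := by
      rw [← Ideal.dvd_iff_le] at h2 ⊢
      exact (mul_dvd_mul_iff_left h).1 h2
    exact h3 (Ideal.mem_span_singleton_self x)
  have hsurj : Function.Surjective (q.restrictScalars F) := by
    intro x
    obtain ⟨x, rfl⟩ := Ideal.Quotient.mk_surjective x
    exact ⟨Ideal.Quotient.mk (I * I') x, rfl⟩
  have hex : LinearMap.ker (q.restrictScalars F) = LinearMap.range (i.restrictScalars F) := by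
    ext y
    obtain ⟨y, rfl⟩ := Ideal.Quotient.mk_surjective y
    rw [LinearMap.mem_ker, LinearMap.mem_range]
    change Ideal.Quotient.mk I y = 0 ↔ (∃ x, i x = _)
    rw [Ideal.Quotient.eq_zero_iff_mem]
    constructor
    · intro hy
      rw [← ht] at hy
      obtain ⟨z, hz, w, hw, hzw⟩ := Submodule.mem_sup.1 hy
      obtain ⟨x, rfl⟩ := Ideal.mem_span_singleton'.1 hw
      refine ⟨Ideal.Quotient.mk I' x, ?_⟩
      rw [hi, Ideal.Quotient.eq, ← hzw]
      have : t * x - (z + x * t) = -z := by ring
      rw [this]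
      exact (I * I').neg_mem hz
    · rintro ⟨x, hx⟩
      obtain ⟨x, rfl⟩ := Ideal.Quotient.mk_surjective x
      rw [hi] at hx
      have h1 : t * x - y ∈ I * I' := Ideal.Quotient.eq.1 hx
      have h2 : t * x ∈ I := Ideal.mul_mem_right x I htI
      have h3 := I.sub_mem h2 (Ideal.mul_le_left h1)
      rwa [sub_sub_cancel] at h3
  have := fin_quot (l := l) (f := f) (mul_ne_zero h h')
  have h1 := LinearMap.finrank_range_add_finrank_ker (q.restrictScalars F)
  rw [LinearMap.range_eq_top.mpr hsurj, finrank_top, hex, LinearMap.finrank_range_of_inj hinj] at h1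
  exact h1.symm

theorem exists_small {I : Ideal (Co l f)} (h : I ≠ ⊥) :
    ∃ g ∈ I, g ≠ 0 ∧ ord g ≤ dg I + f.natDegree * (l - 1) / 2 := by
  have hc := CopDeg.cop (l := l) (f := f)
  set M := dg I + f.natDegree * (l - 1) / 2 + 1 with hM
  have h1 := Col_card_ge (l := l) hc M
  rw [← Col_finrank] at h1
  have h2 := Col_fin (l := l) (f := f) M
  have h3 := fin_quot h
  have h4 : Module.finrank F (Co l f ⧸ I) < Module.finrank F (Col_W l f M) := by
    rw [dg] at hM
    omega
  have h5 : LinearMap.ker (Col_mk I M) ≠ ⊥ := LinearMap.ker_ne_bot_of_finrank_lt h4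
  obtain ⟨g, hg, hg0⟩ := Submodule.exists_mem_ne_zero_of_ne_bot h5
  rw [LinearMap.mem_ker, Col_mk_apply, Ideal.Quotient.eq_zero_iff_mem] at hg
  refine ⟨g.1, hg, fun h0 => hg0 (Subtype.ext h0), ?_⟩
  have h6 := Col_mem.mp g.2
  have h7 : LT g.1 ≠ 0 := fun h0 => hg0 (Subtype.ext (LT_eq_zero.mp h0))
  rw [degree_eq_natDegree h7] at h6
  have h8 : (LT g.1).natDegree < M := by exact_mod_cast h6
  rw [ord]
  omega

theorem dg_idl (P : Pnt l f) : dg P.idl = 1 := by
  let φ : Co l f →ₐ[F] F :=
    { P.ev with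
      commutes' := fun c => by
        change P.ev (po l f (C c)) = c
        rw [Pnt.ev_po, eval_C] }
  have h1 : Function.Surjective φ := P.ev_surj
  have h2 := (Ideal.quotientKerAlgEquivOfSurjective h1).toLinearEquiv.finrank_eq
  rw [Module.finrank_self] at h2
  exact h2

/-- A maximal ideal of small degree is the ideal of a point. -/
theorem exists_pnt [IsSepClosed F] {I : Ideal (Co l f)} (hI : I.IsMaximal) (h0 : I ≠ ⊥)
    (hd : ∀ d : ℕ, 1 ≤ d → d ≤ dg I → (d : F) ≠ 0) : ∃ P : Pnt l f, I = P.idl := by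
  letI : Field (Co l f ⧸ I) := Ideal.Quotient.field I
  have h1 := fin_quot h0
  have hsep : Algebra.IsSeparable F (Co l f ⧸ I) := by
    constructor
    intro x
    have hx : IsIntegral F x := Algebra.IsIntegral.isIntegral x
    have h2 := minpoly.irreducible hx
    change (minpoly F x).Separable
    rw [separable_iff_derivative_ne_zero h2]
    intro h3
    have h4 : 1 ≤ (minpoly F x).natDegree := minpoly.natDegree_pos hx
    have h5 : (minpoly F x).natDegree ≤ dg I := minpoly.natDegree_le x
    have h6 := hd _ h4 h5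
    have h7 := congrArg (fun p => p.coeff ((minpoly F x).natDegree - 1)) h3
    simp only [coeff_derivative, coeff_zero] at h7
    rw [Nat.sub_add_cancel h4, (minpoly.monic hx).coeff_natDegree, one_mul] at h7
    apply h6
    rw [← h7]
    have h8 : ((minpoly F x).natDegree : F) = (((minpoly F x).natDegree - 1 + 1 : ℕ) : F) := by
      rw [Nat.sub_add_cancel h4]
    rw [h8, Nat.cast_add, Nat.cast_one]
  have hs : Function.Surjective (algebraMap F (Co l f ⧸ I)) :=
    IsSepClosed.algebraMap_surjective F (Co l f ⧸ I)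
  have hm : ∀ c : F, algebraMap F (Co l f ⧸ I) c = Ideal.Quotient.mk I (po l f (C c)) :=
    fun _ => rfl
  obtain ⟨x, hx⟩ := hs (Ideal.Quotient.mk I (po l f X))
  obtain ⟨y, hy⟩ := hs (Ideal.Quotient.mk I (yy l f))
  have hx1 : ∀ p : F[X], Ideal.Quotient.mk I (po l f p) = algebraMap F (Co l f ⧸ I) (p.eval x) := by
    intro p
    have e : ((Ideal.Quotient.mk I).comp (po l f)) =
        ((algebraMap F (Co l f ⧸ I)).comp (evalRingHom x)) := by
      apply Polynomial.ringHom_ext
      · intro c
        rw [RingHom.comp_apply, RingHom.comp_apply, coe_evalRingHom, eval_C, hm]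
      · rw [RingHom.comp_apply, RingHom.comp_apply, coe_evalRingHom, eval_X, hx]
    exact RingHom.congr_fun e p
  have hon : y ^ l = f.eval x := by
    apply (algebraMap F (Co l f ⧸ I)).injective
    rw [map_pow, hy, ← map_pow, yy_pow, hx1]
  refine ⟨⟨x, y, hon⟩, ?_⟩
  have h2 : I ≤ (⟨x, y, hon⟩ : Pnt l f).idl := by
    intro g hg
    rw [Pnt.mem_idl, Pnt.ev_apply]
    apply (algebraMap F (Co l f ⧸ I)).injective
    rw [map_zero, map_sum, ← Ideal.Quotient.eq_zero_iff_mem.mpr hg]
    conv_rhs => rw [eq_sum g, map_sum]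
    refine Finset.sum_congr rfl fun j _ => ?_
    rw [map_mul, map_mul, map_pow, map_pow, hx1, hy]
  exact hI.eq_of_le (Pnt.idl_max _).ne_top h2

end Pool.Agent.SmS
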