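import Pool.Agent.Lib.SmS.Ord

/-!
SMITH-S, section 2 of the paper: `Co l f` is a Dedekind domain.

Noetherian, integral over `F[x]`, so of dimension `≤ 1` (Mathlib: `Ring.DimensionLEOne` of an integral
extension). Integrally closed: `h = ∑ h_j y ^ j` in the fraction field, integral. `(1/l) ∑ k, ζ ^ (j k) σ ^ k h =
h_j y ^ j` is integral, its `l`-th power `h_j ^ l f ^ j` is in `F(x)` and integral over `F[x]`, so it is in
`F[x]`; `f` squarefree and `j < l`: `h_j ∈ F[x]`.
-/

set_option autoImplicit false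

open Polynomial

namespace Pool.Agent.SmS

variable {l : ℕ} {F : Type} [Field F] {f : F[X]} [Fact l.Prime]

theorem exists_zeta (l : ℕ) {F : Type} [Field F] [IsSepClosed F] [Fact l.Prime] (hl : (l : F) ≠ 0) :
    ∃ ζ : F, IsPrimitiveRoot ζ l := by
  have : NeZero (l : F) := ⟨hl⟩
  exact HasEnoughRootsOfUnity.exists_primitiveRoot F l

theorem exists_root (l : ℕ) {F : Type} [Field F] [IsSepClosed F] [Fact l.Prime] (hl : (l : F) ≠ 0)
    (c : F) : ∃ r : F, r ^ l = c := by
  have : NeZero (l : F) := ⟨hl⟩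
  exact IsSepClosed.exists_pow_nat_eq c l

private theorem Ded_dvd {f d a : F[X]} (hf : Squarefree f) {l j : ℕ} (hj : j < l)
    (h : d ^ l ∣ a ^ l * f ^ j) (hd : d ≠ 0) : d ∣ a := by
  classical
  by_cases ha : a = 0
  · rw [ha]; exact dvd_zero d
  set g := EuclideanDomain.gcd a d with hg
  have hg0 : g ≠ 0 := by
    intro h0
    exact hd ((EuclideanDomain.gcd_eq_zero_iff.mp h0).2)
  obtain ⟨a', ha'⟩ := EuclideanDomain.gcd_dvd_left a d
  obtain ⟨d', hd'⟩ := EuclideanDomain.gcd_dvd_right a d
  rw [← hg] at ha' hd'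
  have hcop : IsCoprime a' d' := by
    have h1 := EuclideanDomain.gcd_eq_gcd_ab a d
    rw [← hg] at h1
    refine ⟨EuclideanDomain.gcdA a d, EuclideanDomain.gcdB a d, ?_⟩
    apply mul_left_cancel₀ hg0
    calc g * (EuclideanDomain.gcdA a d * a' + EuclideanDomain.gcdB a d * d') =
        (g * a') * EuclideanDomain.gcdA a d + (g * d') * EuclideanDomain.gcdB a d := by ring
      _ = g * 1 := by rw [← ha', ← hd', ← h1, mul_one]
  have h2 : d' ^ l ∣ f ^ j := by
    rw [ha', hd', mul_pow, mul_pow, mul_assoc] at h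
    have h3 := (mul_dvd_mul_iff_left (pow_ne_zero l hg0)).mp h
    exact (hcop.symm.pow (m := l) (n := l)).dvd_of_dvd_mul_left h3
  have h3 : IsUnit d' := by
    by_contra hu
    have hd'0 : d' ≠ 0 := by
      rintro rfl
      rw [mul_zero] at hd'
      exact hd hd'
    obtain ⟨p, hp, hpd⟩ := WfDvdMonoid.exists_irreducible_factor hu hd'0
    have hpp : Prime p := hp.prime
    have h4 : p ^ l ∣ f ^ j := (pow_dvd_pow_of_dvd hpd l).trans h2
    have h5 : (l : ℕ∞) ≤ emultiplicity p (f ^ j) := le_emultiplicity_of_pow_dvd h4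
    rw [emultiplicity_pow hpp] at h5
    have h6 : emultiplicity p f ≤ 1 := by
      rcases (squarefree_iff_emultiplicity_le_one f).mp hf p with h | h
      · exact h
      · exact absurd h hp.not_isUnit
    have h7 : (l : ℕ∞) ≤ (j : ℕ∞) := h5.trans (by
      calc (j : ℕ∞) * emultiplicity p f ≤ (j : ℕ∞) * 1 := by gcongr
        _ = j := mul_one _)
    exact absurd (Nat.cast_le.mp h7) (not_le.mpr hj)
  rw [ha', hd']
  exact mul_dvd_mul_left g (h3.dvd)

private theorem Ded_int {R S : Type*} [CommRing R] [IsDomain R] [IsIntegrallyClosed R] [Field S]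
    [Algebra R S] [FaithfulSMul R S] {x : S} (hx : IsIntegral R x) {D N : R} (hD : D ≠ 0)
    (h : x * algebraMap R S D = algebraMap R S N) : D ∣ N := by
  have hinj : Function.Injective (algebraMap R S) := FaithfulSMul.algebraMap_injective R S
  let φ : FractionRing R →+* S := IsFractionRing.lift hinj
  have hφ : ∀ r : R, φ (algebraMap R (FractionRing R) r) = algebraMap R S r := fun r =>
    IsFractionRing.lift_algebraMap hinj r
  have hD' : algebraMap R (FractionRing R) D ≠ 0 := by
    intro h0
    exact hD ((map_eq_zero_iff _ (IsFractionRing.injective R (FractionRing R))).mp h0)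
  set q : FractionRing R := algebraMap R (FractionRing R) N / algebraMap R (FractionRing R) D with hq
  have hqx : φ q = x := by
    rw [hq, map_div₀, hφ, hφ, ← h, mul_div_cancel_right₀]
    intro h0
    exact hD ((map_eq_zero_iff _ hinj).mp h0)
  have hqi : IsIntegral R q := by
    obtain ⟨p, hp, hpx⟩ := hx
    refine ⟨p, hp, ?_⟩
    apply φ.injective
    rw [hom_eval₂, map_zero, hqx]
    have : φ.comp (algebraMap R (FractionRing R)) = algebraMap R S := RingHom.ext hφ
    rw [this]
    exact hpx
  obtain ⟨y, hy⟩ := IsIntegrallyClosed.isIntegral_iff.mp hqi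
  refine ⟨y, ?_⟩
  apply IsFractionRing.injective R (FractionRing R)
  rw [map_mul, hy, hq, mul_div_cancel₀ _ hD']

private theorem Ded_sum [Sup l f] {ζ : F} (hζ : IsPrimitiveRoot ζ l) (a : Co l f) {j : ℕ}
    (hj : j < l) :
    ∑ k ∈ Finset.range l, po l f (C (ζ ^ (k * j))) * sig (l := l) (f := f) (ζ := ζ ^ k)
      (by rw [← pow_mul, mul_comm, pow_mul, hζ.pow_eq_one, one_pow]) a =
      po l f (C (l : F) * cf a j) * yy l f ^ j := by
  have hu : ∀ k : ℕ, (ζ ^ k) ^ l = 1 := fun k => by
    rw [← pow_mul, mul_comm, pow_mul, hζ.pow_eq_one, one_pow]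
  have hz0 : ζ ≠ 0 := hζ.ne_zero (Fact.out : l.Prime).ne_zero
  refine co_ext fun i hi => ?_
  have hR : cf (po l f (C (l : F) * cf a j) * yy l f ^ j) i =
      if i = j then C (l : F) * cf a j else 0 := by
    have h2 := cf_sum (l := l) (f := f) (fun i => if i = j then C (l : F) * cf a j else 0) hi
    have h3 : ∑ i ∈ Finset.range l, po l f (if i = j then C (l : F) * cf a j else 0) * yy l f ^ i =
        po l f (C (l : F) * cf a j) * yy l f ^ j := by
      rw [Finset.sum_eq_single j (fun i _ hi => by rw [if_neg hi, map_zero, zero_mul])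
        (fun h => absurd (Finset.mem_range.mpr hj) h), if_pos rfl]
    rw [h3] at h2
    exact h2
  rw [hR]
  have hadd : ∀ (s : Finset ℕ) (g : ℕ → Co l f), cf (∑ k ∈ s, g k) i = ∑ k ∈ s, cf (g k) i := by
    intro s g
    induction s using Finset.induction_on with
    | empty => rw [Finset.sum_empty, Finset.sum_empty, cf_zero]
    | insert k s hk ih => rw [Finset.sum_insert hk, Finset.sum_insert hk, cf_add, ih]
  rw [hadd]
  have h4 : ∀ k ∈ Finset.range l, cf (po l f (C (ζ ^ (k * j))) * sig (l := l) (f := f) (ζ := ζ ^ k)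
      (hu k) a) i = C ((ζ ^ j * (ζ ^ i)⁻¹) ^ k) * cf a i := by
    intro k _
    rw [cf_po_mul, sig, cf_coMap _ _ _ _ _ hi, ← mul_assoc, ← C_mul]
    congr 1
    · congr 1
      rw [mul_pow, inv_pow, inv_pow, ← pow_mul, ← pow_mul, ← pow_mul, mul_comm k j, mul_comm k i]
    · exact Polynomial.map_id
  rw [Finset.sum_congr rfl h4, ← Finset.sum_mul, ← map_sum]
  split_ifs with hij
  · subst hij
    rw [mul_inv_cancel₀ (pow_ne_zero _ hz0)]
    simp
  · have h5 : ζ ^ j * (ζ ^ i)⁻¹ ≠ 1 := by
      intro h6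
      rw [mul_inv_eq_one₀ (pow_ne_zero _ hz0)] at h6
      exact hij (hζ.pow_inj hi hj h6.symm)
    have h6 : (ζ ^ j * (ζ ^ i)⁻¹) ^ l = 1 := by
      rw [mul_pow, inv_pow, hu, hu, inv_one, mul_one]
    have h7 : ∑ k ∈ Finset.range l, (ζ ^ j * (ζ ^ i)⁻¹) ^ k = 0 := by
      have h8 := mul_neg_geom_sum (ζ ^ j * (ζ ^ i)⁻¹) l
      rw [h6, sub_self] at h8
      exact (mul_eq_zero.mp h8).resolve_left (sub_ne_zero.mpr (Ne.symm h5))
    rw [h7, map_zero, zero_mul]

private theorem Ded_mem [Sup l f] [IsSepClosed F] {z : FractionRing (Co l f)}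
    (hz : IsIntegral F[X] z) : ∃ a : Co l f, algebraMap (Co l f) (FractionRing (Co l f)) a = z := by
  have hl0 : (l : F) ≠ 0 := Sup.ne (f := f)
  obtain ⟨ζ, hζ⟩ := exists_zeta l hl0
  have : Module.Finite F[X] (Co l f) := (monic_def f).finite_adjoinRoot
  have hint : Algebra.IsIntegral F[X] (Co l f) := Algebra.IsIntegral.of_finite _ _
  -- `z = a / d`
  obtain ⟨a, d, hd, had⟩ : ∃ (a : Co l f) (d : F[X]), d ≠ 0 ∧
      z * algebraMap F[X] (FractionRing (Co l f)) d =
        algebraMap (Co l f) (FractionRing (Co l f)) a := by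
    obtain ⟨a, b, hb, rfl⟩ := IsFractionRing.div_surjective (A := Co l f) z
    have hb0 : b ≠ 0 := nonZeroDivisors.ne_zero hb
    have h1 : (Ideal.span {b}).comap (algebraMap F[X] (Co l f)) ≠ ⊥ :=
      Ideal.comap_ne_bot_of_integral_mem hb0 (Ideal.mem_span_singleton_self b)
        (Algebra.IsIntegral.isIntegral b)
    obtain ⟨d, hd, hd0⟩ := Submodule.exists_mem_ne_zero_of_ne_bot h1
    rw [Ideal.mem_comap, Ideal.mem_span_singleton] at hd
    obtain ⟨c, hc⟩ := hd
    refine ⟨a * c, d, hd0, ?_⟩
    rw [IsScalarTower.algebraMap_apply F[X] (Co l f) (FractionRing (Co l f)), hc, map_mul, map_mul]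
    have hb1 : algebraMap (Co l f) (FractionRing (Co l f)) b ≠ 0 := by
      intro h0
      exact hb0 ((map_eq_zero_iff _ (IsFractionRing.injective (Co l f) _)).mp h0)
    field_simp
  set ι := algebraMap (Co l f) (FractionRing (Co l f)) with hι
  have hιinj : Function.Injective ι := IsFractionRing.injective (Co l f) _
  have hιpo : ∀ p : F[X], algebraMap F[X] (FractionRing (Co l f)) p = ι (po l f p) := fun p =>
    IsScalarTower.algebraMap_apply F[X] (Co l f) (FractionRing (Co l f)) p
  have hpoinj : Function.Injective (po l f) := by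
    intro p q h
    have h1 := congrArg (fun h => cf h 0) h
    have hl : 0 < l := (Fact.out : l.Prime).pos
    have e : ∀ p : F[X], cf (po l f p) 0 = p := by
      intro p
      have h2 := cf_sum (l := l) (f := f) (fun i => if i = 0 then p else 0) hl
      have h3 : ∑ i ∈ Finset.range l, po l f (if i = 0 then p else 0) * yy l f ^ i = po l f p := by
        rw [Finset.sum_eq_single 0 (fun i _ hi => by rw [if_neg hi, map_zero, zero_mul])
          (fun h => absurd (Finset.mem_range.mpr hl) h), if_pos rfl, pow_zero, mul_one]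
      rw [h3, if_pos rfl] at h2
      exact h2
    rwa [e, e] at h1
  have hfaith : FaithfulSMul F[X] (FractionRing (Co l f)) := by
    rw [faithfulSMul_iff_algebraMap_injective]
    intro p q h
    rw [hιpo, hιpo] at h
    exact hpoinj (hιinj h)
  have key : ∀ j < l, d ∣ cf a j := by
    intro j hj
    refine Ded_dvd (Sup.sep (l := l) (f := f)).squarefree hj (l := l) ?_ hd
    -- the component
    have hu : ∀ k : ℕ, (ζ ^ k) ^ l = 1 := fun k => by
      rw [← pow_mul, mul_comm, pow_mul, hζ.pow_eq_one, one_pow]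
    let τ : ℕ → (FractionRing (Co l f) →+* FractionRing (Co l f)) := fun k =>
      (IsFractionRing.ringEquivOfRingEquiv (sig (l := l) (f := f) (hu k)) :
        FractionRing (Co l f) ≃+* FractionRing (Co l f))
    have hτ : ∀ k (b : Co l f), τ k (ι b) = ι (sig (l := l) (f := f) (hu k) b) := fun k b =>
      IsFractionRing.ringEquivOfRingEquiv_algebraMap _ b
    have hτpo : ∀ k (p : F[X]), τ k (algebraMap F[X] (FractionRing (Co l f)) p) =
        algebraMap F[X] (FractionRing (Co l f)) p := by
      intro k p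
      rw [hιpo, hτ]
      congr 1
      change coMap _ _ _ _ (po l f p) = _
      rw [coMap_po]
      congr 1
      exact Polynomial.map_id
    have hτint : ∀ k, IsIntegral F[X] (τ k z) := by
      intro k
      exact hz.map_of_comp_eq (RingHom.id _) (τ k) (RingHom.ext fun p => (hτpo k p).symm)
    set S : FractionRing (Co l f) := algebraMap F[X] (FractionRing (Co l f)) (C ((l : F)⁻¹)) *
      ∑ k ∈ Finset.range l, algebraMap F[X] (FractionRing (Co l f)) (C (ζ ^ (k * j))) * τ k z with hS
    have hSint : IsIntegral F[X] S := by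
      refine isIntegral_algebraMap.mul (IsIntegral.sum _ fun k _ => ?_)
      exact isIntegral_algebraMap.mul (hτint k)
    have hSd : S * algebraMap F[X] (FractionRing (Co l f)) d = ι (po l f (cf a j) * yy l f ^ j) := by
      have h1 : (∑ k ∈ Finset.range l, algebraMap F[X] (FractionRing (Co l f)) (C (ζ ^ (k * j))) *
          τ k z) * algebraMap F[X] (FractionRing (Co l f)) d =
          ι (po l f (C (l : F) * cf a j) * yy l f ^ j) := by
        rw [← Ded_sum hζ a hj, map_sum, Finset.sum_mul]
        refine Finset.sum_congr rfl fun k _ => ?_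
        rw [mul_assoc, map_mul, ← hιpo]
        congr 1
        rw [← hτ, ← had, map_mul, hτpo]
      rw [hS, mul_assoc, h1, hιpo, ← map_mul, ← mul_assoc, ← map_mul, ← mul_assoc, ← C_mul,
        inv_mul_cancel₀ hl0, C_1, one_mul]
    refine Ded_int (S := FractionRing (Co l f)) (x := S ^ l) (hSint.pow l)
      (pow_ne_zero l hd) ?_
    rw [map_pow, ← mul_pow, hSd, ← map_pow, mul_pow, ← pow_mul, mul_comm j l, pow_mul, yy_pow,
      ← map_pow, ← map_pow, ← map_mul, hιpo]
  choose! c hc using key
  refine ⟨∑ j ∈ Finset.range l, po l f (c j) * yy l f ^ j, ?_⟩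
  have hd1 : algebraMap F[X] (FractionRing (Co l f)) d ≠ 0 := by
    intro h0
    exact hd ((map_eq_zero_iff _ (FaithfulSMul.algebraMap_injective _ _)).mp h0)
  apply mul_right_cancel₀ hd1
  rw [had, hιpo, ← map_mul]
  congr 1
  conv_rhs => rw [eq_sum a]
  rw [Finset.sum_mul]
  refine Finset.sum_congr rfl fun j hj => ?_
  rw [hc j (Finset.mem_range.mp hj), map_mul]
  ring

instance co_isDedekind [Sup l f] [IsSepClosed F] : IsDedekindDomain (Co l f) := by
  have : Module.Finite F[X] (Co l f) := (monic_def f).finite_adjoinRoot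
  have hint : Algebra.IsIntegral F[X] (Co l f) := Algebra.IsIntegral.of_finite _ _
  have h1 : IsNoetherianRing (Co l f) :=
    isNoetherian_of_tower F[X] (isNoetherian_of_isNoetherianRing_of_finite F[X] (Co l f))
  exact { h1, Ring.DimensionLEOne.of_isIntegral F[X] (Co l f),
    (isIntegrallyClosed_iff (FractionRing (Co l f))).mpr fun {x} hx =>
      Ded_mem (isIntegral_trans (R := F[X]) _ hx) with : IsDedekindDomain (Co l f) }

end Pool.Agent.SmS
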