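import Mathlib
import Pool.Agent.Lib.SmJ.E.Cls

/-!
SMITH-S (superelliptic curves, MP_950c68_ag): definitions.

`F` a field, `f : F[X]`, `l` a prime. `Co l f = F[x, y] / (y ^ l - f)`; `po p = p(x)`, `yy = y`;
`cf h j` = the coefficient (a polynomial in `x`) of `y ^ j`, `j < l`. `CopDeg l f`: the degree of `f`
is prime to `l` (then `Co l f` is a domain); `Mc l f`: moreover `f` is monic; `Sup l f`: the standing
hypotheses (`f` monic separable of degree `≥ 2` prime to `l`, `l` odd and different from the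
characteristic). `coMap s h u hu`: the automorphism `x ↦ x`, `y ↦ u⁻¹ y`, `s` on the constants (`s` an
automorphism of `F` fixing `f`, `u ^ l = 1`); it maps the ideal of the point `(x, y)` to the
ideal of the point `(s x, u s y)`. `JJ l f` = the class group, additively.
-/

set_option autoImplicit false

open Polynomial

namespace Pool.Agent.SmS

/-- The coordinate ring. -/
abbrev Co (l : ℕ) {F : Type} [CommRing F] (f : F[X]) : Type := AdjoinRoot ((X : F[X][X]) ^ l - C f)

section basic

variable {l : ℕ} {F : Type} [CommRing F] {f : F[X]}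

/-- `p(x)`. -/
noncomputable def po (l : ℕ) {F : Type} [CommRing F] (f : F[X]) : F[X] →+* Co l f :=
  AdjoinRoot.of _

/-- `y`. -/
noncomputable def yy (l : ℕ) {F : Type} [CommRing F] (f : F[X]) : Co l f := AdjoinRoot.root _

theorem yy_pow : yy l f ^ l = po l f f := by
  have h : (((X : F[X][X]) ^ l - C f).eval₂ (AdjoinRoot.of ((X : F[X][X]) ^ l - C f))
      (AdjoinRoot.root ((X : F[X][X]) ^ l - C f))) = 0 := AdjoinRoot.eval₂_root _
  rw [eval₂_sub, eval₂_X_pow, eval₂_C, sub_eq_zero] at h
  exact h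

theorem monic_def [NeZero l] (f : F[X]) : ((X : F[X][X]) ^ l - C f).Monic :=
  monic_X_pow_sub_C f (NeZero.ne l)

theorem natDegree_def [NeZero l] [Nontrivial F] (f : F[X]) :
    ((X : F[X][X]) ^ l - C f).natDegree = l := natDegree_X_pow_sub_C

/-- The coefficient of `y ^ j`. -/
noncomputable def cf [NeZero l] (h : Co l f) (j : ℕ) : F[X] :=
  (AdjoinRoot.modByMonicHom (monic_def f) h).coeff j

theorem cf_add [NeZero l] (g h : Co l f) (j : ℕ) : cf (g + h) j = cf g j + cf h j := by
  rw [cf, map_add, coeff_add]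
  rfl

theorem cf_zero [NeZero l] (j : ℕ) : cf (0 : Co l f) j = 0 := by
  rw [cf, map_zero, coeff_zero]

theorem cf_sub [NeZero l] (g h : Co l f) (j : ℕ) : cf (g - h) j = cf g j - cf h j := by
  rw [cf, map_sub, coeff_sub]
  rfl

theorem cf_neg [NeZero l] (h : Co l f) (j : ℕ) : cf (-h) j = -cf h j := by
  rw [cf, map_neg, coeff_neg]
  rfl

theorem po_mul_smul (p : F[X]) (h : Co l f) : po l f p * h = p • h := (Algebra.smul_def p h).symm

theorem cf_po_mul [NeZero l] (p : F[X]) (h : Co l f) (j : ℕ) : cf (po l f p * h) j = p * cf h j := by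
  rw [po_mul_smul, cf, map_smul, coeff_smul, smul_eq_mul]
  rfl

theorem cf_eq_zero [NeZero l] [Nontrivial F] (h : Co l f) {j : ℕ} (hj : l ≤ j) : cf h j = 0 := by
  apply coeff_eq_zero_of_degree_lt
  have h1 : (AdjoinRoot.modByMonicHom (monic_def f) h).degree < ((X : F[X][X]) ^ l - C f).degree := by
    induction h using AdjoinRoot.induction_on with
    | ih p =>
      rw [AdjoinRoot.modByMonicHom_mk]
      exact degree_modByMonic_lt _ (monic_def f)
  refine lt_of_lt_of_le h1 ?_
  rw [degree_X_pow_sub_C (NeZero.pos l)]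
  exact_mod_cast hj

theorem eq_sum [NeZero l] [Nontrivial F] (h : Co l f) :
    h = ∑ j ∈ Finset.range l, po l f (cf h j) * yy l f ^ j := by
  have h1 : AdjoinRoot.mk ((X : F[X][X]) ^ l - C f) (AdjoinRoot.modByMonicHom (monic_def f) h) = h :=
    AdjoinRoot.mk_leftInverse (monic_def f) h
  have h2 : (AdjoinRoot.modByMonicHom (monic_def f) h) =
      ∑ j ∈ Finset.range l, C (cf h j) * X ^ j := by
    ext1 m
    rw [finsetSum_coeff]
    simp only [coeff_C_mul, coeff_X_pow, mul_ite, mul_one, mul_zero, Finset.sum_ite_eq,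
      Finset.mem_range]
    split_ifs with hm
    · rfl
    · exact cf_eq_zero h (not_lt.mp hm)
  conv_lhs => rw [← h1, h2]
  rw [map_sum]
  refine Finset.sum_congr rfl fun j _ => ?_
  rw [map_mul, map_pow]
  rfl

theorem cf_sum [NeZero l] [Nontrivial F] (c : ℕ → F[X]) {j : ℕ} (hj : j < l) :
    cf (∑ i ∈ Finset.range l, po l f (c i) * yy l f ^ i) j = c j := by
  have h2 : (∑ i ∈ Finset.range l, po l f (c i) * yy l f ^ i) =
      AdjoinRoot.mk ((X : F[X][X]) ^ l - C f) (∑ i ∈ Finset.range l, C (c i) * X ^ i) := by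
    rw [map_sum]
    refine Finset.sum_congr rfl fun j _ => ?_
    rw [map_mul, map_pow]
    rfl
  have h3 : (∑ i ∈ Finset.range l, C (c i) * X ^ i : F[X][X]).degree <
      ((X : F[X][X]) ^ l - C f).degree := by
    rw [degree_X_pow_sub_C (NeZero.pos l)]
    refine lt_of_le_of_lt (degree_sum_le _ _) ?_
    rw [Finset.sup_lt_iff (WithBot.bot_lt_coe _)]
    intro i hi
    refine lt_of_le_of_lt (degree_C_mul_X_pow_le _ _) ?_
    exact_mod_cast Finset.mem_range.mp hi
  rw [h2, cf, AdjoinRoot.modByMonicHom_mk, modByMonic_eq_self_iff (monic_def f) |>.mpr h3,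
    finsetSum_coeff]
  simp only [coeff_C_mul, coeff_X_pow, mul_ite, mul_one, mul_zero, Finset.sum_ite_eq,
    Finset.mem_range, if_pos hj]

theorem co_ext [NeZero l] [Nontrivial F] {g h : Co l f} (e : ∀ j < l, cf g j = cf h j) : g = h := by
  rw [eq_sum g, eq_sum h]
  exact Finset.sum_congr rfl fun j hj => by rw [e j (Finset.mem_range.mp hj)]

end basic

/-! ### Domain -/

section dom

variable {l : ℕ} {F : Type} [Field F] {f : F[X]}

/-- `f` has degree prime to `l`. -/
class CopDeg (l : ℕ) {F : Type} [Field F] (f : F[X]) : Prop where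
  cop : l.Coprime f.natDegree

theorem not_pow [Fact l.Prime] [CopDeg l f] (b : RatFunc F) :
    b ^ l ≠ algebraMap F[X] (RatFunc F) f := by
  intro h
  have hl : l.Prime := Fact.out
  have hc := CopDeg.cop (l := l) (f := f)
  have hf0 : f.natDegree ≠ 0 := by
    intro h0
    rw [h0, Nat.coprime_zero_right] at hc
    exact hl.one_lt.ne' hc
  have hf : f ≠ 0 := by
    rintro rfl
    exact hf0 natDegree_zero
  have hb : b ≠ 0 := by
    rintro rfl
    rw [zero_pow hl.ne_zero] at h
    exact hf ((map_eq_zero_iff _ (RatFunc.algebraMap_injective F)).mp h.symm)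
  have h1 := congrArg RatFunc.intDegree h
  rw [RatFunc.intDegree_polynomial] at h1
  have h2 : ∀ n : ℕ, RatFunc.intDegree (b ^ n) = n * RatFunc.intDegree b := by
    intro n
    induction n with
    | zero => simp
    | succ n ih =>
      rw [pow_succ, RatFunc.intDegree_mul (pow_ne_zero n hb) hb, ih]
      push_cast
      ring
  rw [h2] at h1
  have h3 : (l : ℤ) ∣ (f.natDegree : ℤ) := ⟨_, h1.symm⟩
  have h4 : l ∣ f.natDegree := by exact_mod_cast h3
  exact hl.one_lt.ne' (Nat.dvd_one.mp (hc.symm.gcd_eq_one ▸ Nat.dvd_gcd h4 dvd_rfl))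

theorem co_irreducible [Fact l.Prime] [CopDeg l f] : Irreducible ((X : F[X][X]) ^ l - C f) := by
  have hl : l.Prime := Fact.out
  have : NeZero l := ⟨hl.ne_zero⟩
  rw [(monic_def f).irreducible_iff_irreducible_map_fraction_map (K := RatFunc F)]
  rw [Polynomial.map_sub, Polynomial.map_pow, map_X, map_C]
  exact X_pow_sub_C_irreducible_of_prime hl not_pow

instance co_isDomain [Fact l.Prime] [CopDeg l f] : IsDomain (Co l f) :=
  AdjoinRoot.isDomain_of_prime (UniqueFactorizationMonoid.irreducible_iff_prime.mp co_irreducible)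

/-- The Jacobian. -/
abbrev JJ (l : ℕ) {F : Type} [Field F] (f : F[X]) [Fact l.Prime] [CopDeg l f] : Type :=
  Additive (ClassGroup (Co l f))

/-- `f` monic of degree prime to `l`. -/
class Mc (l : ℕ) {F : Type} [Field F] (f : F[X]) : Prop extends CopDeg l f where
  monic : f.Monic

/-- The standing hypotheses. -/
class Sup (l : ℕ) {F : Type} [Field F] (f : F[X]) : Prop extends Mc l f where
  sep : f.Separable
  two_le : 2 ≤ f.natDegree
  odd : l ≠ 2
  ne : (l : F) ≠ 0

instance neZero_prime [h : Fact l.Prime] : NeZero l := ⟨h.out.ne_zero⟩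

end dom

/-! ### Points -/

/-- The affine points of the curve `y ^ l = f(x)`. -/
@[ext]
structure Pnt (l : ℕ) {F : Type} [CommRing F] (f : F[X]) where
  x : F
  y : F
  on : y ^ l = f.eval x

section pnt

variable {l : ℕ} {F : Type} [Field F] {f : F[X]}

namespace Pnt

variable (P : Pnt l f)

/-- Evaluation at `P`. -/
noncomputable def ev : Co l f →+* F :=
  AdjoinRoot.lift (evalRingHom P.x) P.y (by
    rw [eval₂_sub, eval₂_X_pow, eval₂_C, coe_evalRingHom, P.on, sub_self])

@[simp] theorem ev_po (p : F[X]) : P.ev (po l f p) = p.eval P.x := AdjoinRoot.lift_of _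

@[simp] theorem ev_yy : P.ev (yy l f) = P.y := AdjoinRoot.lift_root _

theorem ev_apply [NeZero l] (h : Co l f) :
    P.ev h = ∑ j ∈ Finset.range l, (cf h j).eval P.x * P.y ^ j := by
  conv_lhs => rw [eq_sum h]
  rw [map_sum]
  refine Finset.sum_congr rfl fun j _ => ?_
  rw [map_mul, map_pow, ev_po, ev_yy]

/-- The maximal ideal of `P`. -/
noncomputable def idl : Ideal (Co l f) := RingHom.ker P.ev

theorem mem_idl {h : Co l f} : h ∈ P.idl ↔ P.ev h = 0 := Iff.rfl

theorem ev_surj : Function.Surjective P.ev := fun c => ⟨po l f (C c), by rw [ev_po, eval_C]⟩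

instance idl_max : P.idl.IsMaximal := RingHom.ker_isMaximal_of_surjective _ P.ev_surj

/-- The class of `P`. -/
noncomputable def cl [Fact l.Prime] [CopDeg l f] [IsDedekindDomain (Co l f)] : JJ l f :=
  SmJ.cls P.idl

end Pnt

/-! ### Automorphisms -/

/-- The ring homomorphism `x ↦ x`, `y ↦ u y`, `s` on the constants. -/
noncomputable def coHom {F' : Type} [Field F'] {f' : F'[X]} (s : F →+* F') (h : f.map s = f')
    (u : F') (hu : u ^ l = 1) : Co l f →+* Co l f' :=
  AdjoinRoot.lift ((po l f').comp (mapRingHom s)) (po l f' (C u) * yy l f') (by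
    rw [eval₂_sub, eval₂_X_pow, eval₂_C, mul_pow, yy_pow, ← map_pow, ← C_pow, hu, map_one, map_one,
      one_mul, RingHom.comp_apply, coe_mapRingHom, h, sub_self])

@[simp] theorem coHom_po {F' : Type} [Field F'] {f' : F'[X]} (s : F →+* F') (h : f.map s = f')
    (u : F') (hu : u ^ l = 1) (p : F[X]) : coHom s h u hu (po l f p) = po l f' (p.map s) :=
  AdjoinRoot.lift_of _

@[simp] theorem coHom_yy {F' : Type} [Field F'] {f' : F'[X]} (s : F →+* F') (h : f.map s = f')
    (u : F') (hu : u ^ l = 1) : coHom s h u hu (yy l f) = po l f' (C u) * yy l f' :=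
  AdjoinRoot.lift_root _

theorem hom_ext {R : Type} [CommRing R] {α β : Co l f →+* R} (h1 : ∀ p, α (po l f p) = β (po l f p))
    (h2 : α (yy l f) = β (yy l f)) : α = β := by
  refine AdjoinRoot.ringHom_ext (RingHom.ext h1) h2

theorem map_symm {s : F ≃+* F} (h : f.map (s : F →+* F) = f) : f.map (s.symm : F →+* F) = f := by
  conv_lhs => rw [← h, Polynomial.map_map]
  rw [show ((s.symm : F →+* F)).comp (s : F →+* F) = RingHom.id F from
    RingHom.ext fun x => s.symm_apply_apply x, Polynomial.map_id]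

theorem ne_of_pow [NeZero l] {u : F} (hu : u ^ l = 1) : u ≠ 0 := by
  rintro rfl
  rw [zero_pow (NeZero.ne l)] at hu
  exact zero_ne_one hu

/-- The automorphism `x ↦ x`, `y ↦ u⁻¹ y`, `s` on the constants. -/
noncomputable def coMap [NeZero l] (s : F ≃+* F) (h : f.map (s : F →+* F) = f) (u : F)
    (hu : u ^ l = 1) : Co l f ≃+* Co l f :=
  RingEquiv.ofRingHom (coHom (s : F →+* F) h u⁻¹ (by rw [inv_pow, hu, inv_one]))
    (coHom (s.symm : F →+* F) (map_symm h) (s.symm u) (by rw [← map_pow, hu, map_one]))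
    (by
      apply hom_ext
      · intro p
        rw [RingHom.comp_apply, coHom_po, coHom_po, Polynomial.map_map]
        rw [show ((s : F →+* F)).comp (s.symm : F →+* F) = RingHom.id F from
          RingHom.ext fun x => s.apply_symm_apply x, Polynomial.map_id]
        rfl
      · rw [RingHom.comp_apply, coHom_yy, map_mul, coHom_po, coHom_yy, map_C, ← mul_assoc,
          ← map_mul, ← C_mul]
        have e : (s : F →+* F) (s.symm u) * u⁻¹ = 1 := by
          change s (s.symm u) * u⁻¹ = 1
          rw [s.apply_symm_apply, mul_inv_cancel₀ (ne_of_pow hu)]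
        rw [e, map_one, map_one, one_mul]
        rfl)
    (by
      apply hom_ext
      · intro p
        rw [RingHom.comp_apply, coHom_po, coHom_po, Polynomial.map_map]
        rw [show ((s.symm : F →+* F)).comp (s : F →+* F) = RingHom.id F from
          RingHom.ext fun x => s.symm_apply_apply x, Polynomial.map_id]
        rfl
      · rw [RingHom.comp_apply, coHom_yy, map_mul, coHom_po, coHom_yy, map_C, ← mul_assoc,
          ← map_mul, ← C_mul]
        have e : (s.symm : F →+* F) u⁻¹ * s.symm u = 1 := by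
          change s.symm u⁻¹ * s.symm u = 1
          rw [← map_mul, inv_mul_cancel₀ (ne_of_pow hu), map_one]
        rw [e, map_one, map_one, one_mul]
        rfl)

variable [NeZero l]

@[simp] theorem coMap_po (s : F ≃+* F) (h : f.map (s : F →+* F) = f) (u : F) (hu : u ^ l = 1)
    (p : F[X]) : coMap s h u hu (po l f p) = po l f (p.map (s : F →+* F)) :=
  coHom_po (s : F →+* F) h u⁻¹ (by rw [inv_pow, hu, inv_one]) p

@[simp] theorem coMap_yy (s : F ≃+* F) (h : f.map (s : F →+* F) = f) (u : F) (hu : u ^ l = 1) :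
    coMap s h u hu (yy l f) = po l f (C u⁻¹) * yy l f :=
  coHom_yy (s : F →+* F) h u⁻¹ (by rw [inv_pow, hu, inv_one])

theorem map_mul_eq {s t : F ≃+* F} (hs : f.map (s : F →+* F) = f) (ht : f.map (t : F →+* F) = f) :
    f.map ((t.trans s : F ≃+* F) : F →+* F) = f := by
  conv_rhs => rw [← hs, ← ht, Polynomial.map_map]
  rfl

theorem coMap_coMap (s t : F ≃+* F) (hs : f.map (s : F →+* F) = f) (ht : f.map (t : F →+* F) = f)
    (u v : F) (hu : u ^ l = 1) (hv : v ^ l = 1) (h : Co l f) :
    coMap s hs u hu (coMap t ht v hv h) = coMap (t.trans s) (map_mul_eq hs ht) (u * s v)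
      (by rw [mul_pow, hu, ← map_pow, hv, map_one, one_mul]) h := by
  have e : ((coMap s hs u hu : Co l f →+* Co l f)).comp (coMap t ht v hv : Co l f →+* Co l f) =
      (coMap (t.trans s) (map_mul_eq hs ht) (u * s v)
        (by rw [mul_pow, hu, ← map_pow, hv, map_one, one_mul]) : Co l f →+* Co l f) := by
    apply hom_ext
    · intro p
      change coMap s hs u hu (coMap t ht v hv (po l f p)) = coMap _ _ _ _ (po l f p)
      rw [coMap_po, coMap_po, coMap_po, Polynomial.map_map]
      rfl
    · change coMap s hs u hu (coMap t ht v hv (yy l f)) = coMap _ _ _ _ (yy l f)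
      rw [coMap_yy, map_mul, coMap_po, coMap_yy, coMap_yy, map_C, ← mul_assoc, ← map_mul, ← C_mul]
      congr 3
      change s v⁻¹ * u⁻¹ = (u * s v)⁻¹
      rw [mul_inv, map_inv₀, mul_comm]
  exact RingHom.congr_fun e h

/-- The coefficients of the image. -/
theorem cf_coMap (s : F ≃+* F) (hs : f.map (s : F →+* F) = f) (u : F) (hu : u ^ l = 1)
    (h : Co l f) {j : ℕ} (hj : j < l) :
    cf (coMap s hs u hu h) j = C (u⁻¹ ^ j) * (cf h j).map (s : F →+* F) := by
  have e : coMap s hs u hu h = ∑ j ∈ Finset.range l,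
      po l f (C (u⁻¹ ^ j) * (cf h j).map (s : F →+* F)) * yy l f ^ j := by
    conv_lhs => rw [eq_sum h]
    rw [map_sum]
    refine Finset.sum_congr rfl fun j _ => ?_
    rw [map_mul, map_pow, coMap_po, coMap_yy, mul_pow, ← map_pow, ← C_pow, ← mul_assoc, ← map_mul,
      mul_comm (Polynomial.map _ _)]
  rw [e, cf_sum _ hj]

/-- The action on points. -/
def Pnt.map (s : F ≃+* F) (h : f.map (s : F →+* F) = f) (u : F) (hu : u ^ l = 1) (P : Pnt l f) :
    Pnt l f :=
  ⟨s P.x, u * s P.y, by
    have h1 := congrArg (s : F →+* F) P.on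
    rw [map_pow, ← eval_map_apply, h] at h1
    rw [mul_pow, hu, one_mul]
    exact h1⟩

omit [NeZero l] in
@[simp] theorem Pnt.map_x (s : F ≃+* F) (h : f.map (s : F →+* F) = f) (u : F) (hu : u ^ l = 1)
    (P : Pnt l f) : (P.map s h u hu).x = s P.x := rfl

omit [NeZero l] in
@[simp] theorem Pnt.map_y (s : F ≃+* F) (h : f.map (s : F →+* F) = f) (u : F) (hu : u ^ l = 1)
    (P : Pnt l f) : (P.map s h u hu).y = u * s P.y := rfl

/-- `(s h)(s P) = s (h(P))`. -/
theorem ev_map (s : F ≃+* F) (hs : f.map (s : F →+* F) = f) (u : F) (hu : u ^ l = 1) (P : Pnt l f)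
    (h : Co l f) : (P.map s hs u hu).ev (coMap s hs u hu h) = s (P.ev h) := by
  have e : ((P.map s hs u hu).ev).comp (coMap s hs u hu : Co l f →+* Co l f) =
      (s : F →+* F).comp P.ev := by
    apply hom_ext
    · intro p
      change (P.map s hs u hu).ev (coMap s hs u hu (po l f p)) = s (P.ev (po l f p))
      rw [coMap_po, Pnt.ev_po, Pnt.ev_po, Pnt.map_x]
      exact eval_map_apply (s : F →+* F) P.x
    · change (P.map s hs u hu).ev (coMap s hs u hu (yy l f)) = s (P.ev (yy l f))
      rw [coMap_yy, map_mul, Pnt.ev_po, Pnt.ev_yy, Pnt.ev_yy, eval_C, Pnt.map_y, ← mul_assoc,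
        inv_mul_cancel₀ (ne_of_pow hu), one_mul]
  exact RingHom.congr_fun e h

theorem Pnt.map_idl (s : F ≃+* F) (hs : f.map (s : F →+* F) = f) (u : F) (hu : u ^ l = 1)
    (P : Pnt l f) : P.idl.map (coMap s hs u hu : Co l f →+* Co l f) = (P.map s hs u hu).idl := by
  ext z
  rw [Ideal.mem_map_iff_of_surjective (coMap s hs u hu : Co l f →+* Co l f)
    (coMap s hs u hu).surjective]
  constructor
  · rintro ⟨w, hw, rfl⟩
    rw [mem_idl] at hw ⊢
    change (P.map s hs u hu).ev (coMap s hs u hu w) = 0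
    rw [ev_map, hw, map_zero]
  · intro hz
    refine ⟨(coMap s hs u hu).symm z, ?_, RingEquiv.apply_symm_apply _ _⟩
    rw [mem_idl] at hz ⊢
    apply s.injective
    rw [← ev_map s hs u hu, RingEquiv.apply_symm_apply, hz, map_zero]

end pnt

section act

variable {l : ℕ} {F : Type} [Field F] {f : F[X]} [Fact l.Prime] [CopDeg l f]
  [IsDedekindDomain (Co l f)]

/-- The action on the Jacobian. -/
noncomputable def act (s : F ≃+* F) (h : f.map (s : F →+* F) = f) (u : F) (hu : u ^ l = 1) :
    JJ l f →+ JJ l f := SmJ.jMap (coMap s h u hu)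

theorem act_cls (s : F ≃+* F) (h : f.map (s : F →+* F) = f) (u : F) (hu : u ^ l = 1)
    (I : Ideal (Co l f)) :
    act s h u hu (SmJ.cls I) = SmJ.cls (I.map (coMap s h u hu : Co l f →+* Co l f)) :=
  SmJ.jMap_cls _ _

theorem act_cl (s : F ≃+* F) (h : f.map (s : F →+* F) = f) (u : F) (hu : u ^ l = 1)
    (P : Pnt l f) : act s h u hu P.cl = (P.map s h u hu).cl := by
  rw [Pnt.cl, act_cls, Pnt.map_idl]
  rfl

theorem act_act (s t : F ≃+* F) (hs : f.map (s : F →+* F) = f) (ht : f.map (t : F →+* F) = f)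
    (u v : F) (hu : u ^ l = 1) (hv : v ^ l = 1) (Q : JJ l f) :
    act s hs u hu (act t ht v hv Q) = act (t.trans s) (map_mul_eq hs ht) (u * s v)
      (by rw [mul_pow, hu, ← map_pow, hv, map_one, one_mul]) Q := by
  rw [act, act, SmJ.jMap_jMap, act]
  congr 1
  exact congrArg SmJ.jMap (RingEquiv.ext fun h => coMap_coMap s t hs ht u v hu hv h)

theorem map_refl (f : F[X]) : f.map ((RingEquiv.refl F : F ≃+* F) : F →+* F) = f :=
  Polynomial.map_id

/-- The automorphism `y ↦ ζ⁻¹ y`, it maps the point `(x, y)` to `(x, ζ y)`. -/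
noncomputable abbrev sig {ζ : F} (hz : ζ ^ l = 1) : Co l f ≃+* Co l f :=
  coMap (RingEquiv.refl F) (map_refl f) ζ hz

/-- The action of `ζ` on the Jacobian. -/
noncomputable abbrev zact {ζ : F} (hz : ζ ^ l = 1) : JJ l f →+ JJ l f :=
  act (RingEquiv.refl F) (map_refl f) ζ hz

/-- `1 - ζ`. -/
noncomputable def lam {ζ : F} (hz : ζ ^ l = 1) : JJ l f →+ JJ l f := AddMonoidHom.id _ - zact hz

theorem lam_apply {ζ : F} (hz : ζ ^ l = 1) (Q : JJ l f) : lam hz Q = Q - zact hz Q := rfl

end act

/-! ### Branch points -/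

section branch

variable {l : ℕ} {F : Type} [Field F]

/-- The polynomial `∏ (X - a i)`. -/
noncomputable def ff {n : ℕ} (a : Fin n → F) : F[X] := ∏ i, (X - C (a i))

theorem ff_eval {n : ℕ} (a : Fin n → F) (x : F) : (ff a).eval x = ∏ i, (x - a i) := by
  rw [ff, eval_prod]
  simp

theorem ff_monic {n : ℕ} (a : Fin n → F) : (ff a).Monic :=
  monic_prod_of_monic _ _ fun i _ => monic_X_sub_C (a i)

theorem natDegree_ff {n : ℕ} (a : Fin n → F) : (ff a).natDegree = n := by
  rw [ff, natDegree_prod_of_monic _ _ fun i _ => monic_X_sub_C (a i)]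
  simp

/-- The standing hypotheses in the split case. -/
class SupA (l : ℕ) {n : ℕ} (a : Fin n → F) : Prop where
  inj : Function.Injective a
  cop : l.Coprime n
  two_le : 2 ≤ n
  odd : l ≠ 2
  ne : (l : F) ≠ 0

instance {n : ℕ} (a : Fin n → F) [h : SupA l a] : Sup l (ff a) where
  cop := by rw [natDegree_ff]; exact h.cop
  monic := ff_monic a
  sep := separable_prod_X_sub_C_iff.mpr h.inj
  two_le := by rw [natDegree_ff]; exact h.two_le
  odd := h.odd
  ne := h.ne

/-- The branch points. -/
def br (l : ℕ) [NeZero l] {n : ℕ} (a : Fin n → F) (i : Fin n) : Pnt l (ff a) :=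
  ⟨a i, 0, by
    rw [ff_eval, Finset.prod_eq_zero (Finset.mem_univ i) (sub_self _), zero_pow (NeZero.ne l)]⟩

/-- The classes of the branch points. -/
noncomputable def ee (l : ℕ) [Fact l.Prime] {n : ℕ} (a : Fin n → F) [SupA l a]
    [IsDedekindDomain (Co l (ff a))] (i : Fin n) : JJ l (ff a) := (br l a i).cl

end branch

end Pool.Agent.SmS
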