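import Mathlib

/-!
SMITH-S, (6.2) of the paper, for a Dedekind domain `R` with an automorphism `σ` of prime order `l`:
`H ^ (-1)` of the group of fractional ideals is zero.
-/

set_option autoImplicit false

namespace Pool.Agent.SmS

private theorem HMin_ex {X : Type} (σ : X ≃ X) {l : ℕ} (hl : 0 < l) (h1 : ∀ x, (σ^[l]) x = x)
    (x : X) {y : X} (h : Equiv.Perm.SameCycle σ x y) : ∃ k : ℕ, (σ^[k]) x = y := by
  obtain ⟨i, hi⟩ := h
  have hp : (σ : Equiv.Perm X) ^ l = 1 := by
    ext z
    rw [Equiv.Perm.coe_pow]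
    exact h1 z
  have hz : (σ : Equiv.Perm X) ^ (l : ℤ) = 1 := by
    rw [zpow_natCast, hp]
  refine ⟨(i % (l : ℤ)).toNat, ?_⟩
  have h3 : (σ : Equiv.Perm X) ^ i = (σ : Equiv.Perm X) ^ (i % (l : ℤ)).toNat := by
    have h4 : (((i % (l : ℤ)).toNat : ℕ) : ℤ) = i % (l : ℤ) :=
      Int.toNat_of_nonneg (Int.emod_nonneg _ (by exact_mod_cast hl.ne'))
    rw [← zpow_natCast, h4]
    conv_lhs => rw [← Int.emod_add_mul_ediv i (l : ℤ)]
    rw [zpow_add, zpow_mul, hz, one_zpow, mul_one]
  rw [← hi, h3, Equiv.Perm.coe_pow]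

/-- Finitely supported functions with sum zero on every orbit. -/
theorem orbit_zero {X : Type} (σ : X ≃ X) {l : ℕ} (hl : l.Prime) (h1 : ∀ x, (σ^[l]) x = x)
    (v : X →₀ ℤ) (hv : ∀ x, ∑ k ∈ Finset.range l, v ((σ^[k]) x) = 0) :
    ∃ c : X →₀ ℤ, ∀ x, v x = c x - c (σ.symm x) := by
  classical
  -- representatives
  let S : Setoid X := Equiv.Perm.SameCycle.setoid σ
  let r : X → X := fun x => (Quotient.out (Quotient.mk S x))
  have hr : ∀ x, Equiv.Perm.SameCycle σ (r x) x := fun x =>
    Quotient.exact (s := S) (Quotient.out_eq (Quotient.mk S x))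
  have hrr : ∀ x, r (σ.symm x) = r x := by
    intro x
    have : Quotient.mk S (σ.symm x) = Quotient.mk S x := by
      apply Quotient.sound
      refine ⟨1, ?_⟩
      simp
    show Quotient.out (Quotient.mk S (σ.symm x)) = Quotient.out (Quotient.mk S x)
    rw [this]
  have hex : ∀ x, ∃ k : ℕ, (σ^[k]) (r x) = x := fun x => HMin_ex σ hl.pos h1 _ (hr x)
  let idx : X → ℕ := fun x => Nat.find (hex x)
  have hidx : ∀ x, (σ^[idx x]) (r x) = x := fun x => Nat.find_spec (hex x)
  have hmin : ∀ x (k : ℕ), (σ^[k]) (r x) = x → idx x ≤ k := fun x k hk => Nat.find_min' (hex x) hk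
  let f : X → ℤ := fun x => ∑ j ∈ Finset.range (idx x + 1), v ((σ^[j]) (r x))
  have hf : ∀ x, v x = f x - f (σ.symm x) := by
    intro x
    rcases Nat.eq_zero_or_pos (idx x) with h0 | h0
    · -- x is the representative
      have hx : r x = x := by
        have := hidx x
        rw [h0] at this
        simpa using this
      have hfx : f x = v x := by
        show ∑ j ∈ Finset.range (idx x + 1), v ((σ^[j]) (r x)) = v x
        rw [h0, hx]
        simp
      -- minimal period
      set p := idx (σ.symm x) + 1 with hp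
      have hper : (σ^[p]) x = x := by
        have h2 := hidx (σ.symm x)
        rw [hrr, hx] at h2
        rw [hp, Function.iterate_succ_apply', h2]
        simp
      have hle : ∀ q : ℕ, 0 < q → (σ^[q]) x = x → p ≤ q := by
        intro q hq hqx
        obtain ⟨q', rfl⟩ : ∃ q', q = q' + 1 := ⟨q - 1, by omega⟩
        have h3 : (σ^[q']) x = σ.symm x := by
          rw [Function.iterate_succ_apply'] at hqx
          rw [← hqx]
          simp [hqx]
          rw [Equiv.eq_symm_apply]
          exact hqx
        have h4 := hmin (σ.symm x) q' (by rw [hrr, hx]; exact h3)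
        omega
      have hpm : Function.minimalPeriod σ x = p := by
        apply le_antisymm
        · exact Function.IsPeriodicPt.minimalPeriod_le (by omega) hper
        · apply hle
          · exact Function.minimalPeriod_pos_of_mem_periodicPts ⟨p, by omega, hper⟩
          · exact Function.isPeriodicPt_minimalPeriod σ x
      have hdvd : p ∣ l := by
        rw [← hpm]
        exact Function.IsPeriodicPt.minimalPeriod_dvd (h1 x)
      have hfs : f (σ.symm x) = 0 := by
        show ∑ j ∈ Finset.range (idx (σ.symm x) + 1), v ((σ^[j]) (r (σ.symm x))) = 0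
        rw [← hp, hrr, hx]
        rcases (Nat.dvd_prime hl).1 hdvd with h5 | h5
        · have hfix : σ x = x := by
            rw [h5] at hper
            simpa using hper
          have hfixk : ∀ k : ℕ, (σ^[k]) x = x := fun k => Function.iterate_fixed hfix k
          have h6 := hv x
          simp only [hfixk, Finset.sum_const, Finset.card_range, nsmul_eq_mul] at h6
          have h7 : v x = 0 := by
            rcases mul_eq_zero.1 h6 with h | h
            · exfalso
              have := hl.pos
              have h8 : l = 0 := by exact_mod_cast h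
              omega
            · exact h
          rw [h5]
          simp [h7]
        · rw [h5]
          exact hv x
      rw [hfx, hfs, sub_zero]
    · -- general element
      obtain ⟨k, hk⟩ : ∃ k, idx x = k + 1 := ⟨idx x - 1, by omega⟩
      have h2 : (σ^[k]) (r x) = σ.symm x := by
        have h3 := hidx x
        rw [hk, Function.iterate_succ_apply'] at h3
        rw [Equiv.eq_symm_apply]
        exact h3
      have h3 : idx (σ.symm x) = k := by
        apply le_antisymm
        · exact hmin _ _ (by rw [hrr]; exact h2)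
        · have h4 := hidx (σ.symm x)
          rw [hrr] at h4
          have h5 : (σ^[idx (σ.symm x) + 1]) (r x) = x := by
            rw [Function.iterate_succ_apply', h4]
            simp
          have h6 := hmin x _ h5
          omega
      have hfx : f x = ∑ j ∈ Finset.range (k + 1 + 1), v ((σ^[j]) (r x)) := by
        show ∑ j ∈ Finset.range (idx x + 1), v ((σ^[j]) (r x)) = _
        rw [hk]
      have hfs : f (σ.symm x) = ∑ j ∈ Finset.range (k + 1), v ((σ^[j]) (r x)) := by
        show ∑ j ∈ Finset.range (idx (σ.symm x) + 1), v ((σ^[j]) (r (σ.symm x))) = _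
        rw [h3, hrr]
      have h7 : (σ^[k + 1]) (r x) = x := by
        rw [← hk]; exact hidx x
      rw [hfx, hfs, Finset.sum_range_succ, h7]
      ring
  -- finite support
  let T : Finset X := (v.support ×ˢ Finset.range l).image fun p => (σ^[p.2]) p.1
  refine ⟨Finsupp.onFinset T f ?_, fun x => ?_⟩
  · intro x hx
    have h2 : ∃ j ∈ Finset.range (idx x + 1), v ((σ^[j]) (r x)) ≠ 0 := by
      by_contra hcon
      exact hx (Finset.sum_eq_zero fun j hj => by_contra fun h9 => hcon ⟨j, hj, h9⟩)
    obtain ⟨j, -, hj⟩ := h2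
    have h3 : Equiv.Perm.SameCycle σ ((σ^[j]) (r x)) x := by
      refine Equiv.Perm.SameCycle.trans ?_ (hr x)
      refine Equiv.Perm.SameCycle.symm ⟨(j : ℤ), ?_⟩
      rw [zpow_natCast, Equiv.Perm.coe_pow]
    obtain ⟨k, hk⟩ := HMin_ex σ hl.pos h1 _ h3
    have hmodz : ∀ z : X, (σ^[k % l]) z = (σ^[k]) z := by
      intro z
      have h8 : (σ^[k]) z = (σ^[k % l + l * (k / l)]) z := by rw [Nat.mod_add_div]
      rw [h8, Function.iterate_add_apply, Function.iterate_mul,
        Function.iterate_fixed (h1 z)]
    have hmod : (σ^[k % l]) ((σ^[j]) (r x)) = x := by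
      rw [hmodz, hk]
    refine Finset.mem_image.2 ⟨((σ^[j]) (r x), k % l), ?_, hmod⟩
    refine Finset.mem_product.2 ⟨?_, ?_⟩
    · exact Finsupp.mem_support_iff.2 hj
    · exact Finset.mem_range.2 (Nat.mod_lt _ hl.pos)
  · exact hf x

private theorem HMin_pow {R : Type} [CommRing R] (σ : R ≃+* R) (A : Ideal R) (k : ℕ) :
    A.map ((σ : R →+* R) ^ (k + 1)) = (A.map ((σ : R →+* R) ^ k)).map (σ : R →+* R) := by
  rw [Ideal.map_map, pow_succ']
  rfl

/-- the equivalence of ideals. -/
private noncomputable def HMinE {R : Type} [CommRing R] (σ : R ≃+* R) : Ideal R ≃* Ideal R where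
  toFun I := I.map (σ : R →+* R)
  invFun I := I.map (σ.symm : R →+* R)
  left_inv I := Ideal.map_of_equiv σ
  right_inv I := by
    have := Ideal.map_of_equiv (I := I) σ.symm
    simpa using this
  map_mul' I J := Ideal.map_mul _ _ _

theorem hminus {R : Type} [CommRing R] [IsDedekindDomain R] (σ : R ≃+* R) {l : ℕ} (hl : l.Prime)
    (h1 : ∀ x, (σ^[l]) x = x) {A B : Ideal R} (hA : A ≠ ⊥) (hB : B ≠ ⊥)
    (h : ∏ k ∈ Finset.range l, A.map ((σ : R →+* R) ^ k) =
      ∏ k ∈ Finset.range l, B.map ((σ : R →+* R) ^ k)) :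
    ∃ C C' : Ideal R, C ≠ ⊥ ∧ C' ≠ ⊥ ∧
      A * C.map (σ : R →+* R) * C' = B * C * C'.map (σ : R →+* R) := by
  classical
  let E : Ideal R ≃* Ideal R := HMinE σ
  have hE : ∀ I : Ideal R, E I = I.map (σ : R →+* R) := fun I => rfl
  have hEk : ∀ (k : ℕ) (I : Ideal R), (E^[k]) I = I.map ((σ : R →+* R) ^ k) := by
    intro k I
    induction k with
    | zero =>
      rw [pow_zero]
      exact (Ideal.map_id I).symm
    | succ k ih => rw [Function.iterate_succ_apply', ih, hE, HMin_pow]
  have hsl : (σ : R →+* R) ^ l = 1 := by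
    ext x
    rw [RingHom.coe_pow]
    exact h1 x
  let X := {P : Ideal R // Prime P}
  let τ : X ≃ X := E.toEquiv.subtypeEquiv (fun P => (MulEquiv.prime_iff E).symm)
  have hτ : ∀ x : X, ((τ x : X) : Ideal R) = E (x : Ideal R) := fun x => rfl
  have hτk : ∀ (k : ℕ) (x : X), (((τ^[k]) x : X) : Ideal R) = (E^[k]) (x : Ideal R) := by
    intro k x
    induction k with
    | zero => rfl
    | succ k ih => rw [Function.iterate_succ_apply', Function.iterate_succ_apply', hτ, ih]
  have hτl : ∀ x : X, (τ^[l]) x = x := by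
    intro x
    apply Subtype.ext
    rw [hτk, hEk, hsl]
    exact Ideal.map_id _
  -- factorisation
  let pr : Multiset X → Ideal R := fun s => (s.map Subtype.val).prod
  have hpr_add : ∀ s t, pr (s + t) = pr s * pr t := by
    intro s t
    simp [pr]
  have hpr_ne : ∀ s, pr s ≠ ⊥ := by
    intro s hs
    have h2 : (0 : Ideal R) ∈ s.map Subtype.val := by
      exact Multiset.prod_eq_zero_iff.1 hs
    obtain ⟨x, -, hx⟩ := Multiset.mem_map.1 h2
    exact x.2.ne_zero hx
  have hpr_inj : ∀ s t, pr s = pr t → s = t := by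
    intro s t hst
    have h2 : Multiset.Rel Associated (s.map Subtype.val) (t.map Subtype.val) := by
      apply UniqueFactorizationMonoid.factors_unique
      · intro x hx
        obtain ⟨y, -, rfl⟩ := Multiset.mem_map.1 hx
        exact y.2.irreducible
      · intro x hx
        obtain ⟨y, -, rfl⟩ := Multiset.mem_map.1 hx
        exact y.2.irreducible
      · exact Associated.of_eq hst
    have h3 : s.map Subtype.val = t.map Subtype.val := by
      have h4 : Multiset.Rel Eq (s.map Subtype.val) (t.map Subtype.val) :=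
        h2.mono (fun a _ b _ hab => associated_iff_eq.1 hab)
      exact Multiset.rel_eq.1 h4
    exact Multiset.map_injective Subtype.val_injective h3
  have hex : ∀ I : Ideal R, I ≠ ⊥ → ∃ s, pr s = I := by
    intro I hI
    obtain ⟨f, hf1, hf2⟩ := UniqueFactorizationMonoid.exists_prime_factors I hI
    refine ⟨f.pmap (fun P hP => (⟨P, hP⟩ : X)) hf1, ?_⟩
    show ((f.pmap (fun P hP => (⟨P, hP⟩ : X)) hf1).map Subtype.val).prod = I
    rw [Multiset.map_pmap]
    have h5 : Multiset.pmap (fun a (_ : Prime a) => a) f hf1 = f := by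
      rw [Multiset.pmap_eq_map]
      exact Multiset.map_id' f
    exact (congrArg Multiset.prod h5).trans (associated_iff_eq.1 hf2)
  have hprE : ∀ s, E (pr s) = pr (s.map τ) := by
    intro s
    show E ((s.map Subtype.val).prod) = ((s.map τ).map Subtype.val).prod
    rw [map_multiset_prod, Multiset.map_map, Multiset.map_map]
    rfl
  have hprEk : ∀ (k : ℕ) s, (E^[k]) (pr s) = pr (s.map (τ^[k])) := by
    intro k s
    induction k with
    | zero => simp
    | succ k ih =>
      rw [Function.iterate_succ_apply', ih, hprE, Multiset.map_map, Function.iterate_succ']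
  obtain ⟨a, ha⟩ := hex A hA
  obtain ⟨b, hb⟩ := hex B hB
  have hprod : ∀ s : Multiset X, ∏ k ∈ Finset.range l, (pr s).map ((σ : R →+* R) ^ k) =
      pr (∑ k ∈ Finset.range l, s.map (τ^[k])) := by
    intro s
    have h2 : ∀ n : ℕ, ∏ k ∈ Finset.range n, (pr s).map ((σ : R →+* R) ^ k) =
      pr (∑ k ∈ Finset.range n, s.map (τ^[k])) := by
      intro n
      induction n with
      | zero => simp [pr]
      | succ n ih =>
        rw [Finset.prod_range_succ, Finset.sum_range_succ, hpr_add, ih, ← hprEk, hEk]
    exact h2 l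
  have hsum : ∑ k ∈ Finset.range l, a.map (τ^[k]) = ∑ k ∈ Finset.range l, b.map (τ^[k]) := by
    apply hpr_inj
    rw [← hprod, ← hprod, ha, hb, h]
  -- the function
  let v : X →₀ ℤ := (Multiset.toFinsupp a).mapRange (fun n : ℕ => (n : ℤ)) (by simp) -
    (Multiset.toFinsupp b).mapRange (fun n : ℕ => (n : ℤ)) (by simp)
  have hv0 : ∀ x, v x = (a.count x : ℤ) - (b.count x : ℤ) := by
    intro x
    simp [v]
  have hinj : ∀ k : ℕ, Function.Injective (τ^[k]) := fun k => τ.injective.iterate k
  have hcount : ∀ (s : Multiset X) (k : ℕ) (x : X), (s.map (τ^[k])).count ((τ^[k]) x) =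
      s.count x := fun s k x => Multiset.count_map_eq_count' _ _ (hinj k) x
  have hv : ∀ x, ∑ k ∈ Finset.range l, v ((τ^[k]) x) = 0 := by
    intro x
    have h2 : ∀ s : Multiset X, (∑ k ∈ Finset.range l, s.map (τ^[k])).count ((τ^[l - 1]) x) =
        ∑ k ∈ Finset.range l, s.count ((τ^[k]) x) := by
      intro s
      rw [Multiset.count_sum', ← Finset.sum_range_reflect]
      apply Finset.sum_congr rfl
      intro k hk
      have hk' : k < l := Finset.mem_range.1 hk
      have h3 : (τ^[l - 1]) x = (τ^[l - 1 - k]) ((τ^[k]) x) := by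
        rw [← Function.iterate_add_apply]
        congr 2
        omega
      rw [h3, hcount]
    have h4 := h2 a
    rw [hsum, h2 b] at h4
    have h5 : (∑ k ∈ Finset.range l, (a.count ((τ^[k]) x) : ℤ)) =
        ∑ k ∈ Finset.range l, (b.count ((τ^[k]) x) : ℤ) := by
      exact_mod_cast h4.symm
    simp only [hv0, Finset.sum_sub_distrib]
    rw [h5, sub_self]
  obtain ⟨c, hc⟩ := orbit_zero τ hl hτl v hv
  let c1 : Multiset X := Finsupp.toMultiset (c.mapRange Int.toNat (by simp))
  let c2 : Multiset X := Finsupp.toMultiset ((-c).mapRange Int.toNat (by simp))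
  have hc1 : ∀ x, c1.count x = (c x).toNat := by
    intro x
    simp [c1, Finsupp.count_toMultiset]
  have hc2 : ∀ x, c2.count x = (-(c x)).toNat := by
    intro x
    simp [c2, Finsupp.count_toMultiset]
  refine ⟨pr c1, pr c2, hpr_ne _, hpr_ne _, ?_⟩
  rw [← hE, ← hE, hprE, hprE, ← ha, ← hb, ← hpr_add, ← hpr_add, ← hpr_add, ← hpr_add]
  congr 1
  ext x
  obtain ⟨y, rfl⟩ := τ.surjective x
  rw [Multiset.count_add, Multiset.count_add, Multiset.count_add, Multiset.count_add,
    Multiset.count_map_eq_count' _ _ τ.injective, Multiset.count_map_eq_count' _ _ τ.injective,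
    hc1, hc2, hc1, hc2]
  have h6 := hc (τ y)
  rw [hv0, Equiv.symm_apply_apply] at h6
  omega

end Pool.Agent.SmS
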