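import Pool.Agent.Lib.SmS.NrmX
import Pool.Agent.Lib.SmS.HMin

/-!
SMITH-S, (6.3) of the paper: the Jacobian is divisible by `λ = 1 - σ`.
-/

set_option autoImplicit false

open Polynomial

namespace Pool.Agent.SmS

variable {l : ℕ} {F : Type} [Field F] {f : F[X]} [Fact l.Prime]

private theorem Div_pow {ζ : F} (hz : ζ ^ l = 1) (k : ℕ) :
    ((sig hz : Co l f ≃+* Co l f) : Co l f →+* Co l f) ^ k =
      ((sig (zpow_pow hz k) : Co l f ≃+* Co l f) : Co l f →+* Co l f) := by
  induction k with
  | zero =>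
    apply hom_ext
    · intro p
      rw [pow_zero]
      change po l f p = sig (zpow_pow hz 0) (po l f p)
      rw [coMap_po]
      change po l f p = po l f (p.map (RingHom.id F))
      rw [Polynomial.map_id]
    · rw [pow_zero]
      change yy l f = sig (zpow_pow hz 0) (yy l f)
      rw [coMap_yy, pow_zero, inv_one, C_1, map_one, one_mul]
  | succ k ih =>
    apply hom_ext
    · intro p
      rw [pow_succ, ih]
      change sig (zpow_pow hz k) (sig hz (po l f p)) = sig (zpow_pow hz (k + 1)) (po l f p)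
      rw [coMap_po, coMap_po, coMap_po]
      change po l f ((p.map (RingHom.id F)).map (RingHom.id F)) = po l f (p.map (RingHom.id F))
      rw [Polynomial.map_id]
    · rw [pow_succ, ih]
      change sig (zpow_pow hz k) (sig hz (yy l f)) = sig (zpow_pow hz (k + 1)) (yy l f)
      rw [coMap_yy, map_mul, coMap_po, coMap_yy, coMap_yy, ← mul_assoc, ← map_mul]
      change po l f ((C ζ⁻¹).map (RingHom.id F) * C (ζ ^ k)⁻¹) * yy l f = _
      rw [Polynomial.map_id, ← C_mul, pow_succ, mul_inv, mul_comm ζ⁻¹]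

private theorem Div_iter {ζ : F} (hz : ζ ^ l = 1) (x : Co l f) :
    (sig (l := l) (f := f) hz)^[l] x = x := by
  have h1 : ∀ k : ℕ, (sig (l := l) (f := f) hz)^[k] x = sig (zpow_pow hz k) x := by
    intro k
    change _ = ((sig (zpow_pow hz k) : Co l f ≃+* Co l f) : Co l f →+* Co l f) x
    rw [← Div_pow (f := f) hz k]
    induction k with
    | zero => rfl
    | succ k ih =>
      rw [Function.iterate_succ_apply', ih, pow_succ']
      rfl
  rw [h1 l]
  have h2 : ((sig (zpow_pow hz l) : Co l f ≃+* Co l f) : Co l f →+* Co l f) = RingHom.id _ := by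
    apply hom_ext
    · intro p
      change sig (zpow_pow hz l) (po l f p) = po l f p
      rw [coMap_po]
      change po l f (p.map (RingHom.id F)) = _
      rw [Polynomial.map_id]
    · change sig (zpow_pow hz l) (yy l f) = yy l f
      rw [coMap_yy, hz, inv_one, C_1, map_one, one_mul]
  exact RingHom.congr_fun h2 x

private theorem Div_idl [Sup l f] (P : Pnt l f) : P.idl ≠ ⊥ := by
  intro h0
  have h1 : po l f (X - C P.x) ∈ P.idl := by
    rw [Pnt.mem_idl, Pnt.ev_po, eval_sub, eval_X, eval_C, sub_self]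
  rw [h0, Ideal.mem_bot] at h1
  refine lcc_ne_zero.mp ?_ h1
  rw [lcc_po, leadingCoeff_X_sub_C]
  exact one_ne_zero

theorem exists_lam [Sup l f] [IsSepClosed F] [SmChar l f] {ζ : F} (hz : IsPrimitiveRoot ζ l)
    (Q : JJ l f) : ∃ R, lam hz.pow_eq_one R = Q := by
  refine jac_induction (p := fun Q : JJ l f => ∃ R, lam hz.pow_eq_one R = Q) ⟨0, map_zero _⟩ ?_ ?_ Q
  · intro P
    obtain ⟨α, β, hα, hβ, h⟩ := exists_norm_X (l := l) (f := f) hz P.x
    have hl : l.Prime := Fact.out
    have hP := Div_idl P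
    have hsα : Ideal.span {α} ≠ ⊥ := by rwa [Ne, Ideal.span_singleton_eq_bot]
    have hsβ : Ideal.span {β} ≠ ⊥ := by rwa [Ne, Ideal.span_singleton_eq_bot]
    obtain ⟨C1, C2, h1, h2, h3⟩ := hminus (sig (l := l) (f := f) hz.pow_eq_one) hl
      (Div_iter hz.pow_eq_one) (A := P.idl * Ideal.span {β}) (B := Ideal.span {α})
      (mul_ne_zero hP hsβ) hsα (by
        have e1 : ∀ k : ℕ, ((P.idl * Ideal.span {β}).map
            (((sig hz.pow_eq_one : Co l f ≃+* Co l f) : Co l f →+* Co l f) ^ k)) =
            (P.rot (ζ ^ k) (zpow_pow hz.pow_eq_one k)).idl *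
              Ideal.span {sig (l := l) (f := f) (zpow_pow hz.pow_eq_one k) β} := by
          intro k
          rw [Div_pow, Ideal.map_mul, Pnt.map_idl, Ideal.map_span, Set.image_singleton]
          rfl
        have e2 : ∀ k : ℕ, ((Ideal.span {α}).map
            (((sig hz.pow_eq_one : Co l f ≃+* Co l f) : Co l f →+* Co l f) ^ k)) =
              Ideal.span {sig (l := l) (f := f) (zpow_pow hz.pow_eq_one k) α} := by
          intro k
          rw [Div_pow, Ideal.map_span, Set.image_singleton]
          rfl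
        simp only [e1, e2]
        rw [Finset.prod_mul_distrib, prod_rot hz P, Ideal.prod_span_singleton,
          Ideal.prod_span_singleton, Ideal.span_singleton_mul_span_singleton]
        congr 2
        exact h.symm)
    refine ⟨SmJ.cls C1 - SmJ.cls C2, ?_⟩
    have n1 := SmJ.map_ne_bot (sig (l := l) (f := f) hz.pow_eq_one) h1
    have n2 := SmJ.map_ne_bot (sig (l := l) (f := f) hz.pow_eq_one) h2
    have h4 := congrArg SmJ.cls h3
    rw [SmJ.cls_mul (mul_ne_zero (mul_ne_zero hP hsβ) n1) h2, SmJ.cls_mul (mul_ne_zero hP hsβ) n1,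
      SmJ.cls_mul hP hsβ, SmJ.cls_span, add_zero, SmJ.cls_mul (mul_ne_zero hsα h1) n2,
      SmJ.cls_mul hsα h1, SmJ.cls_span, zero_add] at h4
    rw [lam_apply, map_sub, act_cls, act_cls]
    have h5 : P.cl = SmJ.cls P.idl := rfl
    rw [h5]
    have h6 := eq_sub_of_add_eq (eq_sub_of_add_eq h4)
    rw [h6]
    abel
  · rintro x y ⟨a, rfl⟩ ⟨b, rfl⟩
    exact ⟨a + b, map_add _ _ _⟩

end Pool.Agent.SmS
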