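import Pool.Agent.Lib.SmS.VFld
import Pool.Agent.Lib.SmL.Ar.Nd
import Pool.Agent.Lib.SmL.G.Kum

/-!
# SMITH-S, (10.6): local classes in `J` come from `V`

`e6S`: if the coboundary of `Q ∈ J` on `D v` is killed by a power of `1 - sig` it is the coboundary of a
torsion element. For the exponent `1` the pair of values is orthogonal to the local Kummer group, which is
its own orthogonal complement.
-/

set_option autoImplicit false

open Finset

namespace Pool.Agent.SmS

open Pool.Agent.SmL Pool.Agent.SmL.V Pool.Agent.SmL.Ar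

section orth

variable {l : ℕ} {A G V V1 Pl : Type*} [CommRing A] [Group G] [AddCommGroup V] [Module A V]
  [DistribMulAction G V] [AddCommGroup V1] [Module (ZMod l) V1] {S : Sys l A G V V1 Pl}
  {q : Pl → ℕ} {chi : G → ZMod l}

/-- The local Kummer group contains its orthogonal complement. -/
theorem mem_Wl_of_orth (hS : S.Ok) (hL : Lnk S q) (hchi : S.HomG chi) (v : Pl) {x : V1 × V1}
    (hx : ∀ y ∈ S.Wl chi v, S.sy v x y = 0) : x ∈ S.Wl chi v := by
  classical
  have hfin : Finite V1 := hS.fin1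
  have : Fact l.Prime := ⟨hS.prime⟩
  have hl := hS.prime
  have hcard := Sys.card_W hS hchi v
  have hiso : ∀ x ∈ S.W chi v, ∀ y ∈ S.W chi v, S.sy v x y = 0 := hS.isot chi hchi v
  set W := S.W chi v with hWdef
  set Q0 : Submodule (ZMod l) (V1 × V1) := AddSubgroup.toZModSubmodule l W with hP
  have hmem : ∀ z, z ∈ Q0 ↔ z ∈ W := fun z => by rw [hP]; rfl
  have h1 : Nat.card Q0 = Nat.card V1 := by
    rw [← hcard]
    rfl
  have h2 : Module.finrank (ZMod l) Q0 = Module.finrank (ZMod l) V1 := by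
    have a := Module.natCard_eq_pow_finrank (K := ZMod l) (V := Q0)
    have b := Module.natCard_eq_pow_finrank (K := ZMod l) (V := V1)
    rw [h1, b] at a
    have h0 : 1 < Nat.card (ZMod l) := by rw [Nat.card_zmod]; exact hl.one_lt
    exact (Nat.pow_right_injective h0 a).symm
  have h3 : Module.finrank (ZMod l) (V1 × V1)
      = Module.finrank (ZMod l) V1 + Module.finrank (ZMod l) V1 := Module.finrank_prod
  have h4 := Subspace.finrank_add_finrank_dualAnnihilator_eq Q0
  have h5 : Module.finrank (ZMod l) Q0.dualAnnihilator = Module.finrank (ZMod l) V1 := by omega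
  have hinj : Function.Injective (S.sy v) := by
    rw [← LinearMap.ker_eq_bot, LinearMap.ker_eq_bot']
    intro z hz
    refine sy_inj_left hL.ok hL.dok v fun y => ?_
    rw [← hL.sy, hz]
    rfl
  set Q : Submodule (ZMod l) (V1 × V1) := Q0.dualAnnihilator.comap (S.sy v) with hQ
  have hPQ : Q0 ≤ Q := by
    intro z hz
    rw [hQ, Submodule.mem_comap, Submodule.mem_dualAnnihilator]
    intro w hw
    exact hiso z ((hmem z).1 hz) w ((hmem w).1 hw)
  have hle : Module.finrank (ZMod l) Q ≤ Module.finrank (ZMod l) Q0.dualAnnihilator := by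
    have := LinearMap.finrank_le_finrank_of_injective
      (f := ((S.sy v).restrict (p := Q) (q := Q0.dualAnnihilator) (fun z hz => hz))) (by
        intro a b hab
        apply Subtype.ext
        apply hinj
        exact congrArg Subtype.val hab)
    exact this
  have heq : Q0 = Q := Submodule.eq_of_le_of_finrank_le hPQ (by omega)
  have : x ∈ Q := by
    rw [hQ, Submodule.mem_comap, Submodule.mem_dualAnnihilator]
    intro w hw
    exact hx w ((hmem w).1 hw)
  rw [← heq] at this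
  exact (hmem x).1 this

end orth

variable {l : ℕ} {G J V1 Pl : Type*} [Group G] [AddCommGroup J] [DistribMulAction G J]
  [AddCommGroup V1] [Module (ZMod l) V1]

/-- The twisted action on `J`. -/
noncomputable def twJ (D : AutM l G J) (chi : G → ZMod l) (s : G) : J →+ J where
  toFun Q := (⇑D.sig)^[(chi s).val] (s • Q)
  map_zero' := by rw [smul_zero, iterate_map_zero]
  map_add' Q R := by rw [smul_add, iterate_map_add]

section

variable {D : AutM l G J} {B : Bs G Pl} {a : G →* (V1 ≃ₗ[ZMod l] V1)}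
  {e : V1 →ₗ[ZMod l] V1 →ₗ[ZMod l] ZMod l} {io : V1 →+ J} {T : Finset Pl} {chi : G → ZMod l}

theorem twJ_apply (s : G) (Q : J) : twJ D chi s Q = (⇑D.sig)^[(chi s).val] (s • Q) := rfl

theorem twJ_sig (s : G) (Q : J) : twJ D chi s (D.sig Q) = D.sig (twJ D chi s Q) := by
  rw [twJ_apply, twJ_apply, D.comm, ← Function.iterate_succ_apply, Function.iterate_succ_apply']

theorem twJ_mul [NeZero l] (hchi : ∀ s t, chi (s * t) = chi s + chi t) (s t : G) (Q : J) :
    twJ D chi (s * t) Q = twJ D chi s (twJ D chi t Q) := by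
  rw [twJ_apply, twJ_apply, twJ_apply, D.comm_iter, ← mul_smul, ← Function.iterate_add_apply,
    hchi s t, ZMod.val_add, D.iter_mod]

theorem twJ_io (hM : ModS D B a e io T) (s : G) (w : V1) :
    twJ D chi s (io w) = io (a s w) := by
  rw [twJ_apply, hM.ac]
  exact Function.iterate_fixed (hM.fix _) _

theorem val_twJ [NeZero l] (s : G) (Q : VV D) :
    VV.val D ((sysS D B a e io T).tw chi s Q) = twJ D chi s (VV.val D Q) := val_tw chi s Q

theorem val_dlJ [NeZero l] (s : G) (Q : VV D) :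
    VV.val D ((sysS D B a e io T).dl chi Q s) = twJ D chi s (VV.val D Q) - VV.val D Q :=
  val_dl chi s Q

/-- The values of a coboundary in `V1` form a cocycle. -/
theorem coc_of_tw [NeZero l] (hM : ModS D B a e io T)
    (hchi : ∀ s t, chi (s * t) = chi s + chi t) {H : Subgroup G} {Q : J} {x : G → V1}
    (hx : ∀ s ∈ H, twJ D chi s Q - Q = io (x s)) :
    ∀ s ∈ H, ∀ t ∈ H, x (s * t) = x s + a s (x t) := by
  intro s hs t ht
  apply hM.inj
  rw [← hx _ (mul_mem hs ht), map_add, ← hx s hs, ← twJ_io (chi := chi) hM s (x t), ← hx t ht,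
    map_sub, twJ_mul hchi]
  abel

/-- The elements of the local Kummer group. -/
theorem exists_of_Wl [NeZero l] (hB : B.Ok l) (hM : ModS D B a e io T)
    (hchi : (sysS D B a e io T).HomG chi) {v : Pl} {y : V1 × V1}
    (hy : y ∈ (sysS D B a e io T).Wl chi v) : ∃ (Q : J) (c : G → V1), (∃ n : ℕ, l ^ n • Q = 0) ∧
      (∀ s ∈ B.D v, twJ D chi s Q - Q = io (c s)) ∧
      (sysS D B a e io T).CocV v c ∧ (sysS D B a e io T).loc v c = y := by
  classical
  have hlam : (sysS D B a e io T).lam = 1 - zeta l := rfl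
  obtain ⟨Q, hQ, hx1, hx2⟩ := hy
  have h1 : ∀ s ∈ B.D v, ∃ w, io w = twJ D chi s (VV.val D Q) - VV.val D Q := by
    intro s hs
    have h2 := hQ s hs
    rw [hlam] at h2
    have h3 := congrArg (VV.val D) h2
    rw [VV.lam_smul, map_zero, sub_eq_zero, val_dlJ] at h3
    exact hM.range _ h3.symm
  choose! c hc using h1
  refine ⟨VV.val D Q, c, VV.val_tors Q, fun s hs => (hc s hs).symm,
    ⟨?_, coc_of_tw hM hchi.2 fun s hs => (hc s hs).symm⟩, ?_⟩
  · obtain ⟨n, hn⟩ := VV.val_tors Q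
    obtain ⟨N, hN, h2⟩ := hM.act_fin n
    obtain ⟨N', hN', h3⟩ := hchi.1
    refine ⟨N ⊓ N', hB.inf_mem N hN N' hN', fun s hs m hm hm' => hM.inj ?_⟩
    rw [hc _ (mul_mem hs hm'), hc s hs, twJ_apply, twJ_apply, h3 s m hm.2, mul_smul,
      h2 m hm.1 _ hn]
  · refine Prod.ext (hM.inj ?_) (hM.inj ?_)
    · change io (c (B.sg v)) = io y.1
      rw [hc _ (hB.sg_mem v)]
      have h5 := congrArg (VV.val D) hx1
      rw [val_dlJ] at h5
      exact h5
    · change io (c (B.ph v)) = io y.2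
      rw [hc _ (hB.ph_mem v)]
      have h5 := congrArg (VV.val D) hx2
      rw [val_dlJ] at h5
      exact h5

/-- The isotropy of the local Kummer groups, at one place: `Q` is an arbitrary element of `J`. -/
def IsoV (D : AutM l G J) (B : Bs G Pl) (a : G →* (V1 ≃ₗ[ZMod l] V1))
    (e : V1 →ₗ[ZMod l] V1 →ₗ[ZMod l] ZMod l) (io : V1 →+ J) (chi : G → ZMod l) (v : Pl) : Prop :=
  ∀ (Q Q' : J) (x x' : G → V1), (∃ n : ℕ, l ^ n • Q' = 0) →
    B.TFOn (B.D v) x → B.TFOn (B.D v) x' →
    (∀ s ∈ B.D v, twJ D chi s Q - Q = io (x s)) →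
    (∀ s ∈ B.D v, twJ D chi s Q' - Q' = io (x' s)) →
    B.inv v (fun s t => e (x s) (a s (x' t))) = 0

/-- The level of the cocycles. -/
def LevV (D : AutM l G J) (B : Bs G Pl) (io : V1 →+ J) (chi : G → ZMod l) (v : Pl) : Prop :=
  ∀ (Q : J) (x : G → V1), (∀ s ∈ B.D v, twJ D chi s Q - Q = io (x s)) → B.TFOn (B.D v) x

/-- (10.6) for the exponent one. -/
theorem e6_one [NeZero l] (hL : Lnk (sysS D B a e io T) B.q) (hS : (sysS D B a e io T).Ok)
    (hM : ModS D B a e io T) (hchi : (sysS D B a e io T).HomG chi) {v : Pl}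
    (hiso : IsoV D B a e io chi v) (hlev : LevV D B io chi v) {Q : J}
    (hQ : ∀ s ∈ B.D v, D.sig (twJ D chi s Q - Q) = twJ D chi s Q - Q) :
    ∃ Q' : VV D, ∀ s ∈ B.D v, twJ D chi s Q - Q = twJ D chi s (VV.val D Q') - VV.val D Q' := by
  classical
  have hB : B.Ok l := hL.ok
  set S := sysS D B a e io T with hSdef
  have h1 : ∀ s ∈ B.D v, ∃ w, twJ D chi s Q - Q = io w := by
    intro s hs
    obtain ⟨w, hw⟩ := hM.range _ (hQ s hs)
    exact ⟨w, hw.symm⟩
  choose! x hx using h1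
  have hTF := hlev Q x hx
  have hcoc := coc_of_tw hM hchi.2 hx
  have hCV : S.CocV v x := ⟨hTF, hcoc⟩
  have hW : S.loc v x ∈ S.Wl chi v := by
    refine mem_Wl_of_orth hS hL hchi v fun y hy => ?_
    obtain ⟨Q', c, ht, hc1, hc2, rfl⟩ := exists_of_Wl hB hM hchi hy
    rw [← f_inv_sy hL v x c hCV hc2]
    exact hiso Q Q' x c ht hTF hc2.1 hx hc1
  obtain ⟨Q', hQ', h3, h4⟩ := hW
  have h5 : S.CocD chi v (fun s => S.dl chi Q' s - S.iota (x s)) := by
    have h6 := Sys.dl_cocD hS hchi Q' v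
    refine ⟨?_, fun s hs t ht => ?_⟩
    · obtain ⟨N, hN, h7⟩ := h6.tf
      obtain ⟨N', hN', h8⟩ := hTF
      refine ⟨N ⊓ N', hB.inf_mem N hN N' hN', fun s hs n hn hn' => ?_⟩
      beta_reduce
      rw [h7 s hs n hn.1 hn', h8 s hs n hn.2 hn']
    · have h7 : x (s * t) = x s + S.ac s (x t) := hcoc s hs t ht
      rw [h6.coc s hs t ht, h7, map_add, Sys.tw_sub, Sys.tw_iota hS]
      abel
  have h6 := Sys.cocD_zero hS hchi v h5 (by
      rw [h3, sub_eq_zero]
      rfl) (by
      rw [h4, sub_eq_zero]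
      rfl)
  refine ⟨Q', fun s hs => ?_⟩
  have h7 := congrArg (VV.val D) (sub_eq_zero.1 (h6 s hs))
  rw [val_dlJ] at h7
  rw [h7, hx s hs]
  rfl

/-- `1 - sig` on `J`. -/
noncomputable def lamJ (D : AutM l G J) : J →+ J := AddMonoidHom.id J - D.sig

theorem lamJ_apply (Q : J) : lamJ D Q = Q - D.sig Q := rfl

theorem val_lam [NeZero l] (n : ℕ) (Q : VV D) :
    VV.val D ((1 - zeta l) ^ n • Q) = (⇑(lamJ D))^[n] (VV.val D Q) := by
  induction n generalizing Q with
  | zero => rw [pow_zero, one_smul]; rfl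
  | succ n ih =>
    rw [pow_succ, mul_smul, ih, VV.lam_smul, Function.iterate_succ_apply, lamJ_apply]

theorem twJ_lam (s : G) (Q : J) : twJ D chi s (lamJ D Q) = lamJ D (twJ D chi s Q) := by
  rw [lamJ_apply, lamJ_apply, map_sub, twJ_sig]

/-- **(10.6)** -/
theorem e6_lam [NeZero l] (hL : Lnk (sysS D B a e io T) B.q) (hS : (sysS D B a e io T).Ok)
    (hM : ModS D B a e io T) (hchi : (sysS D B a e io T).HomG chi) {v : Pl}
    (hiso : IsoV D B a e io chi v) (hlev : LevV D B io chi v) (j : ℕ) :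
    ∀ Q : J, (∀ s ∈ B.D v, (⇑(lamJ D))^[j] (twJ D chi s Q - Q) = 0) →
    ∃ Q' : VV D, ∀ s ∈ B.D v, twJ D chi s Q - Q = twJ D chi s (VV.val D Q') - VV.val D Q' := by
  induction j with
  | zero =>
    intro Q hQ
    refine ⟨0, fun s hs => ?_⟩
    rw [map_zero, map_zero, sub_zero]
    exact hQ s hs
  | succ j ih =>
    intro Q hQ
    obtain ⟨Q1, hQ1⟩ := ih (lamJ D Q) fun s hs => by
      have h1 := hQ s hs
      rw [Function.iterate_succ_apply, map_sub, ← twJ_lam] at h1
      exact h1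
    obtain ⟨Q2, hQ2⟩ := halfS hM Q1
    have hQ2' : lamJ D (VV.val D Q2) = VV.val D Q1 := by
      rw [← hQ2, VV.lam_smul, lamJ_apply]
    obtain ⟨Q3, hQ3⟩ := e6_one hL hS hM hchi hiso hlev (Q := Q - VV.val D Q2) fun s hs => by
      have h1 := hQ1 s hs
      rw [twJ_lam, ← hQ2', twJ_lam, ← map_sub, ← map_sub, ← sub_eq_zero, ← map_sub,
        lamJ_apply, sub_eq_zero] at h1
      have h2 : twJ D chi s Q - Q - (twJ D chi s (VV.val D Q2) - VV.val D Q2) =
          twJ D chi s (Q - VV.val D Q2) - (Q - VV.val D Q2) := by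
        rw [map_sub]
        abel
      rw [h2] at h1
      exact h1.symm
    refine ⟨Q2 + Q3, fun s hs => ?_⟩
    have h1 := hQ3 s hs
    rw [map_sub] at h1
    rw [map_add, map_add]
    have h2 : twJ D chi s Q - Q = (twJ D chi s Q - twJ D chi s (VV.val D Q2) -
        (Q - VV.val D Q2)) + (twJ D chi s (VV.val D Q2) - VV.val D Q2) := by abel
    rw [h2, h1]
    abel

/-- `l`-power torsion in terms of `1 - sig`. -/
theorem lamJ_of_l [Fact l.Prime] {n : ℕ} {Q : J} (h : l ^ n • Q = 0) :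
    (⇑(lamJ D))^[n * (l - 1)] Q = 0 := by
  have h1 : l ^ n • (VV.mk (D := D) ⟨n, h⟩ : VV D) = 0 := by
    apply VV.val_inj
    rw [map_nsmul, map_zero]
    exact h
  have h2 := congrArg (VV.val D) (lam_of_l (A := AA l) (ze := zeta l) VV.norm_smul h1)
  rw [val_lam, map_zero] at h2
  exact h2

/-- **(10.6)**, for multiplication by `l ^ i`. -/
theorem e6S [Fact l.Prime] (hL : Lnk (sysS D B a e io T) B.q) (hS : (sysS D B a e io T).Ok)
    (hM : ModS D B a e io T) (hchi : (sysS D B a e io T).HomG chi) {v : Pl}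
    (hiso : IsoV D B a e io chi v) (hlev : LevV D B io chi v) {i : ℕ} {Q : J}
    (hQ : ∀ s ∈ B.D v, l ^ i • (twJ D chi s Q - Q) = 0) :
    ∃ Q' : VV D, ∀ s ∈ B.D v, twJ D chi s Q - Q = twJ D chi s (VV.val D Q') - VV.val D Q' :=
  e6_lam hL hS hM hchi hiso hlev _ Q fun s hs => lamJ_of_l (hQ s hs)

end

end Pool.Agent.SmS
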