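import Pool.Agent.Lib.SmS.Fnv

/-!
SMITH-S, section 10: the cochain `ε`.

`Q'` a class with `ac g Q' = Q' + io (x' g)`. Let `A'` be an ideal in the class `Q'` prime to `idT T` (`SmJ.exists_coprime`,
`idT_ne_bot`). `ε g` := the value with `IsFn T (th g A') (A' * PE (vl (x' g))) (ε g)`: it exists by `exists_isFn` (`ac_cls`, `cls_PE`;
`th g A'` is prime to the points `t ∈ T`, `T` being stable: `t = pt g t'`, `t' ∈ T`, `idl_pt`; the `P_i` are prime to `t`: two different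
maximal ideals, `NB T`). To have `ε` locally constant define it as a function of the pair `(th g A', x' g)`: by `IsFn.uniq` `ε g = ε h` if
`th g A' = th h A'` and `x' g = x' h`; `A'` is fixed by some `N ∈ NN` (`lv_ideal`, `map_th_mul`) and `x'` is `LC` (`lc_x`).
Cocycle relation: write `D g = th g A'`, `E g = PE (vl (x' g))`.
(1) `IsFn T (D g) (A' * E g) (ε g)`;
(2) `IsFn.th` applied to `h`: `IsFn T (D (g h)) (D g * PE (vl (pw g (x' h)))) (s g (ε h))` (`map_th_mul`, `Ideal.map_mul`, `th_PE`); condition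
on degrees: `dg (th h A') = dg A'` (`dg_th`: copy the proof of the private `Min_dg_map` of Lib/SmS/Min.lean)
and `dg_mul`, `dg_PE`;
(3) `isFn_PE`, `e i = cy ((x' g).1 i) ((pw g (x' h)).1 i)`: `IsFn T (PE (l * e)) ⊤ M`.
Multiply (1) (2) (3): `IsFn T (D g * D (g h) * PE (l e)) (A' * E g * (D g * PE (vl (pw g (x' h)))) * ⊤) (ε g * s g (ε h) * M)`, and by `vl_add`, `PE_add`,
`x_mul`: `E g * PE (vl (pw g (x' h))) = E (g h) * PE (l e)`: cancel `D g * PE (l e)`: `IsFn T (D (g h)) (A' * E (g h)) (...)`, `uniq`.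
-/

set_option autoImplicit false

open Polynomial

namespace Pool.Agent.SmS

variable {l : ℕ} {F : Type} [Field F] [Fact l.Prime] {n : ℕ} {a : Fin n → F} [SupA l a]
  [IsSepClosed F] {Γ : Type} [Group Γ]

/-- An automorphism preserves the degree of ideals. -/
theorem Tw.dg_th (W : Tw l a Γ) (g : Γ) {A : Ideal (Co l (ff a))} (hA : A ≠ ⊥) :
    dg (A.map (W.th g : Co l (ff a) →+* Co l (ff a))) = dg A := by
  unfold dg Module.finrank
  congr 1
  refine (rank_eq_of_equiv_equiv (W.s g : F → F)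
    (Ideal.quotientEquiv A (A.map (W.th g : Co l (ff a) →+* Co l (ff a))) (W.th g) rfl :
      (Co l (ff a) ⧸ A) ≃+* _).toAddEquiv (W.s g).bijective ?_).symm
  intro r m
  obtain ⟨m, rfl⟩ := Ideal.Quotient.mk_surjective m
  change Ideal.Quotient.mk _ (W.th g (r • m)) =
    Ideal.Quotient.mk _ (W.s g r • W.th g m)
  congr 1
  have e : ∀ (c : F) (z : Co l (ff a)), c • z = po l (ff a) (C c) * z := by
    intro c z
    rw [Algebra.smul_def, AdjoinRoot.algebraMap_eq']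
    rfl
  rw [e, e, map_mul, Tw.th_C]

omit [IsSepClosed F] in
/-- An ideal prime to `idT T` is prime to the points of `T`. -/
private theorem Eps_sup {T : Multiset (Pnt l (ff a))} {A : Ideal (Co l (ff a))}
    (h : A ⊔ idT T = ⊤) : ∀ t ∈ T, A ⊔ t.idl = ⊤ := by
  intro t ht
  obtain ⟨T', rfl⟩ := Multiset.exists_cons_of_mem ht
  rw [idT_cons] at h
  rw [eq_top_iff, ← h]
  exact sup_le_sup_left Ideal.mul_le_left _

omit [IsSepClosed F] in
private theorem Eps_th (W : Tw l a Γ) {T : Multiset (Pnt l (ff a))} (hT : W.Stab T)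
    {A : Ideal (Co l (ff a))} (h : ∀ t ∈ T, A ⊔ t.idl = ⊤) (g : Γ) :
    ∀ t ∈ T, A.map (W.th g : Co l (ff a) →+* Co l (ff a)) ⊔ t.idl = ⊤ := by
  intro t ht
  rw [← hT g, Multiset.mem_map] at ht
  obtain ⟨t', ht', rfl⟩ := ht
  rw [← W.idl_pt, ← Ideal.map_sup, h t' ht', Ideal.map_top]

private theorem Eps_PE {T : Multiset (Pnt l (ff a))} (hb : NB T) {A : Ideal (Co l (ff a))}
    (h : ∀ t ∈ T, A ⊔ t.idl = ⊤) (w : Fin n → ℕ) : ∀ t ∈ T, A * PE l a w ⊔ t.idl = ⊤ := by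
  intro t ht
  have h1 : t.idl ⊔ PE l a w = ⊤ := by
    apply PE_sup
    intro i
    rw [sup_idl_iff]
    intro h2
    have h3 : t.idl = (br l a i).idl := t.idl_max.eq_of_le (br l a i).idl_max.ne_top h2
    exact hb t ht i (congrArg Pnt.x (Pnt.idl_inj h3))
  rw [sup_comm] at h1
  exact Ideal.isCoprime_iff_sup_eq.mp
    ((Ideal.isCoprime_iff_sup_eq.mpr (h t ht)).mul_left (Ideal.isCoprime_iff_sup_eq.mpr h1))

omit [SupA l a] [IsSepClosed F] in
private theorem Eps_ne (W : Tw l a Γ) (g : Γ) {A : Ideal (Co l (ff a))} (h : A ≠ ⊥) :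
    A.map (W.th g : Co l (ff a) →+* Co l (ff a)) ≠ ⊥ := by
  intro h0
  exact h ((Ideal.map_eq_bot_iff_of_injective (W.th g).injective).mp h0)

theorem exists_eps (W : Tw l a Γ) {T : Multiset (Pnt l (ff a))} (hT : W.Stab T) (hb : NB T)
    {Q' : JJ l (ff a)} {x' : Γ → V0 l n} (hx' : ∀ g, W.ac g Q' = Q' + io l a (x' g)) :
    ∃ ε : Γ → F, (∀ g, ε g ≠ 0) ∧ W.LC ε ∧ ∀ g h, ε (g * h) =
      (T.map fun t => ∏ i, (t.x - a i) ^ cy ((x' g).1 i) ((W.pw g (x' h)).1 i)).prod *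
        (ε g * W.s g (ε h)) := by
  obtain ⟨A, hA, hcl, hco⟩ := SmJ.exists_coprime Q' (idT_ne_bot T)
  have hAt := Eps_sup hco
  have hne : ∀ w : Fin n → ℕ, A * PE l a w ≠ ⊥ := fun w => mul_ne_zero hA (PE_ne_bot w)
  have hex : ∀ g, ∃ v, IsFn T (A.map (W.th g : Co l (ff a) →+* Co l (ff a)))
      (A * PE l a (vl (x' g))) v := by
    intro g
    refine exists_isFn (Eps_ne W g hA) (hne _) ?_ (Eps_th W hT hAt g) (Eps_PE hb hAt _)
    rw [← W.ac_cls, hcl, hx', SmJ.cls_mul hA (PE_ne_bot _), hcl, cls_PE]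
  choose ε hε using hex
  refine ⟨ε, fun g => (hε g).ne, ?_, ?_⟩
  · obtain ⟨N, hN, h1⟩ := W.lv_ideal A
    obtain ⟨N', hN', h2⟩ := W.lc_x hx'
    refine ⟨N ⊓ N', W.inf N hN N' hN', fun g m hm => ?_⟩
    have h3 := hε (g * m)
    rw [W.map_th_mul, h1 m hm.1, h2 g m hm.2] at h3
    exact h3.uniq (Eps_ne W g hA) (hne _) (hε g)
  · intro g h
    have h2 : IsFn T (A.map (W.th (g * h) : Co l (ff a) →+* Co l (ff a)))
        (A.map (W.th g : Co l (ff a) →+* Co l (ff a)) * PE l a (vl (W.pw g (x' h))))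
        (W.s g (ε h)) := by
      have h3 := (hε h).th W hT (Eps_ne W h hA) (hne _) (by
        rw [W.dg_th h hA, dg_mul hA (PE_ne_bot _), Nat.cast_add, dg_PE, add_zero]) g
      rwa [← W.map_th_mul, Ideal.map_mul, W.th_PE] at h3
    have h3 := isFn_PE W.hz hb (fun i => cy ((x' g).1 i) ((W.pw g (x' h)).1 i))
    set M := (T.map fun t => ∏ i, (t.x - a i) ^ cy ((x' g).1 i) ((W.pw g (x' h)).1 i)).prod
    set L : Ideal (Co l (ff a)) := PE l a (fun i => l * cy ((x' g).1 i) ((W.pw g (x' h)).1 i))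
    set Dg := A.map (W.th g : Co l (ff a) →+* Co l (ff a))
    set Dgh := A.map (W.th (g * h) : Co l (ff a) →+* Co l (ff a))
    have h4 := h3.mul ((hε g).mul h2)
    have e1 : L * (Dg * Dgh) = Dgh * (Dg * L) := by ring
    have e2 : (⊤ : Ideal (Co l (ff a))) * (A * PE l a (vl (x' g)) *
        (Dg * PE l a (vl (W.pw g (x' h))))) = A * PE l a (vl (x' (g * h))) * (Dg * L) := by
      have e3 : PE l a (vl (x' g)) * PE l a (vl (W.pw g (x' h))) =
          PE l a (vl (x' (g * h))) * L := by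
        rw [← PE_add, vl_add, PE_add, W.x_mul hx']
      rw [← Ideal.one_eq_top, one_mul]
      calc A * PE l a (vl (x' g)) * (Dg * PE l a (vl (W.pw g (x' h)))) =
          A * Dg * (PE l a (vl (x' g)) * PE l a (vl (W.pw g (x' h)))) := by ring
        _ = A * Dg * (PE l a (vl (x' (g * h))) * L) := by rw [e3]
        _ = _ := by ring
    rw [e1, e2] at h4
    have h5 : Dg * L ≠ ⊥ := mul_ne_zero (Eps_ne W g hA) (PE_ne_bot _)
    exact (hε (g * h)).uniq (Eps_ne W _ hA) (hne _) (h4.cancel h5)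

end Pool.Agent.SmS
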