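import Pool.Agent.Lib.SmS.ModK
import Pool.Agent.Lib.SmL.Fld.ExStd
import Pool.Agent.Lib.SmL.Ch.StdCh

/-!
# SMITH-S, section 11: the standard data for the superelliptic twists over a global function field

`exists_rtsS`: the roots of `f`. `gU_transport`: the passage from `JJ l (fO Ω f)` to `JJ l (ff a)` for all
twisted actions. `exists_datS`: the places, the generators, `ModS`, and the facts for `V0 l n`.
-/

set_option autoImplicit false

open Polynomial

namespace Pool.Agent.SmS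

open Pool.Agent.BSDFF Pool.Agent.Lib.SmD Pool.Agent.GBU Pool.Agent.SmL.Fld Pool.Agent.SmL.Fnl
  Pool.Agent.SmL.C Pool.Agent.SmL.Ar Pool.Agent.SmL.Ch Pool.Agent.SmL

/-- The roots of a separable polynomial. -/
theorem exists_rtsS {Ω : Type} [Field Ω] {F : Polynomial Ω} (hm : F.Monic) (hs : F.Separable)
    (hsp : F.Splits) : ∃ a : Fin F.natDegree → Ω, Function.Injective a ∧ F = ff a := by
  classical
  have hc : F.roots.toFinset.card = F.natDegree := by
    rw [hsp.natDegree_eq_card_roots]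
    exact Multiset.toFinset_card_of_nodup (nodup_roots hs)
  let e := F.roots.toFinset.equivFinOfCardEq hc
  refine ⟨fun i => (e.symm i).1, fun i j h => e.symm.injective (Subtype.ext h), ?_⟩
  have h1 : ff (fun i => (e.symm i).1) = ∏ x ∈ F.roots.toFinset, (X - C x) := by
    rw [ff, ← Finset.prod_coe_sort F.roots.toFinset]
    exact Equiv.prod_comp e.symm fun x : F.roots.toFinset => (X - C (x : Ω) : Polynomial Ω)
  rw [h1]
  have h2 : F.roots.toFinset.val = F.roots := by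
    rw [Multiset.toFinset_val]
    exact (nodup_roots hs).dedup
  rw [Finset.prod_eq_multiset_prod, h2]
  exact hsp.eq_prod_roots_of_monic hm

section tr

variable (K : Type) {Ω : Type} [Field K] [Field Ω] [Algebra K Ω] {n : ℕ} (a : Fin n → Ω)
  {l : ℕ} [Fact l.Prime] [SupA l a] [IsSepClosed Ω] [RtS K a]

/-- The action of `s` twisted by the root of unity `u`. -/
noncomputable def gU (s : Ω ≃ₐ[K] Ω) (u : Ω) (hu : u ^ l = 1) : JJ l (ff a) →+ JJ l (ff a) :=
  act (s : Ω ≃+* Ω) (map_ffS K a s) u hu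

/-- The twisted action. -/
noncomputable def twA {ζ : Ω} (hz : ζ ^ l = 1) (chi : (Ω ≃ₐ[K] Ω) → ZMod l) (s : Ω ≃ₐ[K] Ω) :
    JJ l (ff a) →+ JJ l (ff a) := gU K a s (ζ ^ (chi s).val) (zpow_pow hz _)

theorem twA_eq {ζ : Ω} (hz : ζ ^ l = 1) (chi : (Ω ≃ₐ[K] Ω) → ZMod l) (s : Ω ≃ₐ[K] Ω)
    (Q : JJ l (ff a)) : twA K a hz chi s Q = (zact hz)^[(chi s).val] (gS K a l s Q) :=
  (zact_gS K a hz _ s Q).symm

/-- Transport of statements on all the twisted actions. -/
theorem gU_transport {f : K[X]} (hfa : fO Ω f = ff a) [Sup l (fO Ω f)]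
    (P : ∀ (M : Type) [AddCommGroup M], ((Ω ≃ₐ[K] Ω) → (u : Ω) → u ^ l = 1 → M →+ M) → Prop) :
    P (JJ l (fO Ω f)) (galU f) ↔ P (JJ l (ff a)) (gU K a) := by
  have key : ∀ (G : Polynomial Ω) (_ : fO Ω f = G) (i1 : CopDeg l G)
      (i2 : IsDedekindDomain (Co l G))
      (hs : ∀ s : Ω ≃ₐ[K] Ω, G.map ((s : Ω ≃+* Ω) : Ω →+* Ω) = G),
      P (JJ l (fO Ω f)) (galU f) ↔
        P (JJ l G) (fun s u hu => act (s : Ω ≃+* Ω) (hs s) u hu) := by
    rintro G rfl i1 i2 hs
    exact Iff.rfl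
  exact key (ff a) hfa inferInstance inferInstance (map_ffS K a)

theorem gS_transport_iff {f : K[X]} (hfa : fO Ω f = ff a) [Sup l (fO Ω f)]
    (P : ∀ (M : Type) [AddCommGroup M], ((Ω ≃ₐ[K] Ω) → M →+ M) → Prop) :
    P (JJ l (fO Ω f)) (galS l f) ↔ P (JJ l (ff a)) (gS K a l) :=
  gU_transport K a hfa (fun M _ ρ => P M (fun s => ρ s 1 (one_pow l)))

theorem tw_transport {f : K[X]} (hfa : fO Ω f = ff a) [Sup l (fO Ω f)] {ζ : Ω} (hz : ζ ^ l = 1)
    (chi : (Ω ≃ₐ[K] Ω) → ZMod l)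
    (P : ∀ (M : Type) [AddCommGroup M], ((Ω ≃ₐ[K] Ω) → M →+ M) → Prop) :
    P (JJ l (fO Ω f)) (twS f hz chi) ↔ P (JJ l (ff a)) (twA K a hz chi) :=
  gU_transport K a hfa (fun M _ ρ => P M (fun s => ρ s (ζ ^ (chi s).val) (zpow_pow hz _)))

end tr

section ker

variable {K Ω : Type} [Field K] [Field Ω] [Algebra K Ω] {n : ℕ} {a : Fin n → Ω} [RtS K a]

theorem mem_ker_pmS {s : Ω ≃ₐ[K] Ω} : s ∈ (pmS K a).ker ↔ ∀ i, s (a i) = a i := by
  rw [MonoidHom.mem_ker]
  constructor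
  · intro h i
    rw [← pmS_spec K a s i, h]
    rfl
  · intro h
    ext1 i
    apply RtS.inj K (a := a)
    rw [pmS_spec K a s i, h]
    rfl

theorem ker_pmS_open [Algebra.IsAlgebraic K Ω] :
    IsOpen ((pmS K a).ker : Set (Ω ≃ₐ[K] Ω)) := by
  have h1 : FiniteDimensional K (IntermediateField.adjoin K (Set.range a)) :=
    IntermediateField.finiteDimensional_adjoin fun x _ =>
      (Algebra.IsAlgebraic.isAlgebraic (R := K) x).isIntegral
  refine Subgroup.isOpen_mono (H₁ := (IntermediateField.adjoin K (Set.range a)).fixingSubgroup)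
    ?_ (IntermediateField.fixingSubgroup_isOpen _)
  intro s hs
  rw [IntermediateField.mem_fixingSubgroup_iff] at hs
  exact mem_ker_pmS.2 fun i => hs _ (IntermediateField.subset_adjoin K _ ⟨i, rfl⟩)

end ker

section fac

variable {l : ℕ} {F : Type} [Field F] {n : ℕ} {a : Fin n → F}

theorem fac_ne [Fact l.Prime] [SupA l a] [SmChar l (ff a)] : ((n.factorial : ℕ) : F) ≠ 0 := by
  have h1 : ∀ d : ℕ, 1 ≤ d → d ≤ n → (d : F) ≠ 0 := by
    intro d hd hdn
    refine SmChar.ne (l := l) (f := ff a) d hd ?_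
    rw [natDegree_ff]
    have h2 : 1 ≤ l - 1 := by
      have h3 := (Fact.out : l.Prime).two_le
      omega
    calc d ≤ n * 1 := by rw [mul_one]; exact hdn
      _ ≤ n * (l - 1) := Nat.mul_le_mul_left n h2
  have h2 : ∀ m : ℕ, m ≤ n → ((m.factorial : ℕ) : F) ≠ 0 := by
    intro m
    induction m with
    | zero =>
      intro _
      rw [Nat.factorial_zero, Nat.cast_one]
      exact one_ne_zero
    | succ m ih =>
      intro hm
      rw [Nat.factorial_succ, Nat.cast_mul]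
      exact mul_ne_zero (h1 _ (Nat.succ_le_succ (Nat.zero_le m)) hm) (ih (by omega))
  exact h2 n le_rfl

theorem n_ne [hl : Fact l.Prime] [h : SupA l a] : (n : ZMod l) ≠ 0 := by
  rw [Ne, ZMod.natCast_eq_zero_iff]
  intro h1
  have h2 := h.cop
  rw [Nat.Prime.coprime_iff_not_dvd hl.out] at h2
  exact h2 h1

end fac

variable {k K Ω : Type} [Field k] [Finite k] [Field K] [Algebra k K] [Algebra (RatFunc k) K]
  [IsScalarTower k (RatFunc k) K] [FiniteDimensional (RatFunc k) K]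
  [Algebra.IsSeparable (RatFunc k) K] [Field Ω] [Algebra K Ω] [IsSepClosure K Ω]
  [IsSepClosed Ω]
  {l : ℕ} [Fact l.Prime] {ζ : Ω} {n : ℕ} {a : Fin n → Ω} [SupA l a] [RtS K a] [SmChar l (ff a)]

variable (k) in
/-- **The standard data.** `hiso` is the isotropy theorem. -/
theorem exists_datS (h2 : (2 : k) ≠ 0)
    (hk : ∀ x : K, IsIntegral k x → ∃ c : k, algebraMap k K c = x) (hlk : (l : k) ≠ 0)
    (hζ : IsPrimitiveRoot ζ l) (hζK : ∃ z : K, algebraMap K Ω z = ζ)
    (hK : ∀ s : Ω ≃ₐ[K] Ω, s ζ = ζ) {f : K[X]} (hm : f.Monic)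
    (hs : f.Separable) (hfa : fO Ω f = ff a) (htr : ∀ i j, ∃ s, pmS K a s i = j)
    (hiso : ∀ (w : Place k K → ValuationSubring Ω) (sg ph : Place k K → Ω ≃ₐ[K] Ω),
      Std l ζ (NNt (pmS K a).ker) w sg ph → IsotK l a hζ (NNt (pmS K a).ker) w sg ph) :
    TameN (pmS K a).ker ∧ ∃ (w : Place k K → ValuationSubring Ω)
      (sg ph : Place k K → Ω ≃ₐ[K] Ω), Std l ζ (NNt (pmS K a).ker) w sg ph ∧
      (P0 l (pmS K a)).Gd (bK (NNt (pmS K a).ker) w sg ph) ∧
      (∃ T0 : Finset (Place k K), ∀ T, T0 ⊆ T →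
        ShaT (bK (NNt (pmS K a).ker) w sg ph) (ac0 l (pmS K a)) T) ∧
      ∃ T0 : Finset (Place k K), ∀ T, T0 ⊆ T →
        ModS (autS K a hζ hK) (bK (NNt (pmS K a).ker) w sg ph) (ac0 l (pmS K a)) (e0 l n)
          (ioJ l K a) T := by
  have hl : l.Prime := Fact.out
  have hl2 : l ≠ 2 := SupA.odd (l := l) (a := a)
  have hgal : IsGalois K Ω := inferInstance
  have hop : IsOpen ((pmS K a).ker : Set (Ω ≃ₐ[K] Ω)) := ker_pmS_open
  have hpr : (ringChar K).Prime := by
    have h1 : ringChar k = ringChar K := Algebra.ringChar_eq k K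
    rw [← h1]
    exact CharP.char_is_prime k (ringChar k)
  have hfac : ((n.factorial : ℕ) : K) ≠ 0 := by
    intro h
    apply fac_ne (l := l) (a := a)
    rw [← map_natCast (algebraMap K Ω), h, map_zero]
  have h0 : TameN (pmS K a).ker := tame_ker hop hpr hfac
  choose w hw' using fun v : Place k K => exists_above_place Ω v
  have hw : ∀ v, below K (w v) = v.ring := fun v => (hw' v).2
  obtain ⟨sg, ph, hS⟩ := exists_std (k := k) h2 hl hζ hζK h0 w hw
  have hCh := cheb1_std hk hS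
  obtain ⟨hG, hsha⟩ := gd0 h2 hl2 hζ hζK h0 hS hCh (n_ne (a := a)) htr le_rfl
  exact ⟨h0, w, sg, ph, hS, hG, hsha, exists_modS h2 hlk hζ hK hm hs hfa hS
    ⟨_, self_mem h0.normal h0.isOpen, le_rfl⟩ (hiso w sg ph hS)⟩

end Pool.Agent.SmS
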