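import Pool.Agent.Lib.SmS.Good
import Pool.Agent.Lib.SmL.E.LocF
import Pool.Agent.Lib.SmJ.E.FinLoc

/-!
SMITH-S, (9.2) of the paper: the `l`-power torsion over the local fields is finite.

Scale: `(x, y) ↦ (b ^ l x, b ^ n y)`, `b ∈ K`, maps the curve of `f` to the curve of `(b ^ l) ^ n f (x / b ^ l)`, and
commutes with the Galois action; so `f` has `w`-integral coefficients (coefficient `c_i ↦ b ^ (l (n - i)) c_i`).
`exists_rho` (SmJ/E/FinLoc) gives `ρ`. The multiset `red Q` of a fixed class is stable under `D' = dec ∩ U`, the polynomials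
`∏ (X - x_k)` over the integral and over the non-integral points, and `∏ (X - y_k)` over the integral points, have coefficients
fixed by `D'`; `fin_roots` (SmJ/E/FinCode) with `dec` replaced by `D'`, `hFin_open` (SmL/E/LocF).
Two classes with the same pattern (numbers of points in the balls of radius `|ρ|` for `(x, y)`) differ by
an element of `J1`, so they are equal if they have `l`-power order (`J1_tors`).
-/

set_option autoImplicit false

open Polynomial

namespace Pool.Agent.SmS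

open Pool.Agent.Lib.SmD

section roots

open IsLocalRing

variable {K Om : Type} [Field K] [Field Om] [Algebra K Om] {w : ValuationSubring Om}

/-- `fin_roots` for a subgroup `D`. -/
private theorem FinI_fin_roots {ι : Type*} (D : Subgroup (Om ≃ₐ[K] Om)) (N : ι → (w : Type)[X])
    {n : ℕ} (hdeg : ∀ i, (N i).natDegree ≤ n)
    (hres : ∀ i, (N i).map (residue w) ≠ 0)
    (hspl : ∀ i, ((N i).map (algebraMap w Om)).Splits)
    (hfix : ∀ i j, ∀ s ∈ D, s (((N i).coeff j : w) : Om) = ((N i).coeff j : w))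
    {t : K} (hFin : ∃ Fs : Set Om, Fs.Finite ∧ ∀ u, w.valuation u ≤ 1 →
      (∀ s ∈ D, s u = u) → ∃ v ∈ Fs, w.valuation (u - v) ≤ w.valuation (algebraMap K Om t))
    {δ : w.ValueGroup} (hδ : δ ≤ 1) (htδ : w.valuation (algebraMap K Om t) < δ ^ n) :
    ∃ R : Set Om, R.Finite ∧ ∀ (i : ι) (x : w), (N i).eval x = 0 →
      ∃ r ∈ R, w.valuation ((x : Om) - r) < δ := by
  classical
  obtain ⟨Fs, hFs, hFs'⟩ := hFin
  have hfs : Finite Fs := hFs.to_subtype
  have h1 : ∀ i, ∀ j : Fin (n + 1), ∃ v : Fs,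
      w.valuation ((((N i).coeff j : w) : Om) - v) ≤ w.valuation (algebraMap K Om t) := by
    intro i j
    obtain ⟨v, hv, hv'⟩ := hFs' _ (w.valuation_le_one ((N i).coeff j)) (hfix i j)
    exact ⟨⟨v, hv⟩, hv'⟩
  choose c hc using h1
  have hrange : (Set.range c).Finite := Set.toFinite _
  have hsel : ∀ κ : Set.range c, ∃ i, c i = κ := fun κ => κ.2
  choose sel hsel' using hsel
  have hfr : Finite (Set.range c) := hrange.to_subtype
  refine ⟨⋃ κ : Set.range c, {r | r ∈ ((N (sel κ)).map (algebraMap w Om)).roots}, ?_, ?_⟩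
  · refine Set.finite_iUnion fun κ => ?_
    refine (((N (sel κ)).map (algebraMap w Om)).roots.toFinset.finite_toSet).subset ?_
    intro r hr
    exact Finset.mem_coe.mpr (Multiset.mem_toFinset.mpr hr)
  · intro i x hx
    set κ : Set.range c := ⟨c i, i, rfl⟩ with hκ
    have e : c (sel κ) = c i := hsel' κ
    have hclose : ∀ j, j ≤ n → w.valuation ((((N (sel κ)).coeff j : w) : Om) -
        ((N i).coeff j : w)) ≤ w.valuation (algebraMap K Om t) := by
      intro j hj
      have a1 := hc (sel κ) ⟨j, by omega⟩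
      have a2 := hc i ⟨j, by omega⟩
      rw [e] at a1
      have e1 : (((N (sel κ)).coeff j : w) : Om) - ((N i).coeff j : w) =
          ((((N (sel κ)).coeff j : w) : Om) - (c i ⟨j, by omega⟩ : Om)) -
          ((((N i).coeff j : w) : Om) - (c i ⟨j, by omega⟩ : Om)) := by ring
      rw [e1]
      exact (w.valuation.map_sub _ _).trans (max_le a1 a2)
    have h2 := SmJ.eval_close (hdeg (sel κ)) (hdeg i) hclose x
    rw [hx] at h2
    have e2 : (((N (sel κ)).eval x : w) : Om) - ((0 : w) : Om) = ((N (sel κ)).eval x : w) := by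
      change _ - (0 : Om) = _
      rw [sub_zero]
    rw [e2] at h2
    obtain ⟨r, hr, hr'⟩ := SmJ.near_root hδ (hres (sel κ)) (hspl (sel κ)) (hdeg (sel κ))
      (lt_of_le_of_lt h2 htδ)
    exact ⟨r, Set.mem_iUnion.mpr ⟨κ, hr⟩, hr'⟩

/-- The monic polynomial with given integral roots. -/
private theorem FinI_lift (s : Multiset Om) (hs : ∀ x ∈ s, w.valuation x ≤ 1) :
    ∃ N : (w : Type)[X], N.Monic ∧
      N.map (algebraMap w Om) = (s.map fun x => X - C x).prod := by
  induction s using Multiset.induction_on with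
  | empty => exact ⟨1, monic_one, by simp⟩
  | cons x s ih =>
    obtain ⟨N, hN, hN'⟩ := ih fun y hy => hs y (Multiset.mem_cons_of_mem hy)
    have hx : x ∈ w := (w.valuation_le_one_iff _).mp (hs x (Multiset.mem_cons_self _ _))
    refine ⟨(X - C (⟨x, hx⟩ : w)) * N, (monic_X_sub_C _).mul hN, ?_⟩
    rw [Polynomial.map_mul, hN', Multiset.map_cons, Multiset.prod_cons, Polynomial.map_sub,
      Polynomial.map_X, Polynomial.map_C]
    rfl

/-- Integral families of multisets which are stable under `D`: finitely many balls. -/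
private theorem FinI_balls {ι : Type*} (D : Subgroup (Om ≃ₐ[K] Om)) (m : ι → Multiset Om) {n : ℕ}
    (hcard : ∀ i, (m i).card ≤ n) (hint : ∀ i, ∀ x ∈ m i, w.valuation x ≤ 1)
    (hfix : ∀ i, ∀ s ∈ D, (m i).map s = m i)
    {t : K} (hFin : ∃ Fs : Set Om, Fs.Finite ∧ ∀ u, w.valuation u ≤ 1 →
      (∀ s ∈ D, s u = u) → ∃ v ∈ Fs, w.valuation (u - v) ≤ w.valuation (algebraMap K Om t))
    {δ : w.ValueGroup} (hδ : δ ≤ 1) (htδ : w.valuation (algebraMap K Om t) < δ ^ n) :
    ∃ R : Set Om, R.Finite ∧ ∀ (i : ι), ∀ x ∈ m i, ∃ r ∈ R, w.valuation (x - r) < δ := by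
  choose N hNm hN using fun i => FinI_lift (m i) (hint i)
  have hd : ∀ i, (N i).natDegree ≤ n := by
    intro i
    have e := congrArg natDegree (hN i)
    rw [natDegree_map_eq_of_injective (SmJ.inj_w w), natDegree_multiset_prod_X_sub_C_eq_card] at e
    rw [e]
    exact hcard i
  obtain ⟨R, hR, hR'⟩ := FinI_fin_roots D N hd
    (fun i h0 => by
      have h1 := (hNm i).map (residue w)
      rw [h0] at h1
      exact h1.ne_zero rfl)
    (fun i => by
      rw [hN i]
      refine Splits.multisetProd ?_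
      intro p hp
      obtain ⟨x, -, rfl⟩ := Multiset.mem_map.mp hp
      exact Splits.X_sub_C x)
    (fun i j s hs => by
      have e : ((N i).map (algebraMap w Om)).map (((s : Om ≃ₐ[K] Om) : Om ≃+* Om) : Om →+* Om) =
          (N i).map (algebraMap w Om) := by
        rw [hN i, Polynomial.map_multiset_prod, Multiset.map_map]
        conv_rhs => rw [← hfix i s hs, Multiset.map_map]
        congr 1
        refine Multiset.map_congr rfl fun x _ => ?_
        rw [Function.comp_apply, Function.comp_apply, Polynomial.map_sub, Polynomial.map_X,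
          Polynomial.map_C]
        rfl
      have e1 := congrArg (fun q => q.coeff j) e
      simp only [coeff_map] at e1
      exact e1)
    hFin hδ htδ
  refine ⟨R, hR, fun i x hx => ?_⟩
  have hxw : x ∈ w := (w.valuation_le_one_iff _).mp (hint i x hx)
  refine hR' i ⟨x, hxw⟩ ?_
  apply SmJ.inj_w w
  rw [map_zero]
  have e : ((N i).map (algebraMap w Om)).eval (algebraMap w Om ⟨x, hxw⟩) =
      algebraMap w Om ((N i).eval ⟨x, hxw⟩) := Polynomial.eval_map_apply _ _
  rw [← e, hN i]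
  change eval x _ = 0
  rw [eval_multiset_prod, Multiset.prod_eq_zero_iff, Multiset.map_map]
  exact Multiset.mem_map.mpr ⟨x, hx, by simp⟩

end roots

section integral

variable {l : ℕ} {K Ω : Type} [Field K] [Field Ω] [Algebra K Ω] [Fact l.Prime]
  {w : ValuationSubring Ω} {F : Polynomial Ω} [Sup l F] [IsSepClosed Ω] [SmChar l F]

/-- The integral case. -/
private theorem FinI_int {f0 : (w : Type)[X]} (hm : f0.Monic) (hF : f0.map (algebraMap w Ω) = F)
    (hl : w.valuation (l : Ω) = 1) (D : Subgroup (Ω ≃ₐ[K] Ω)) (hD : ∀ s ∈ D, s ∈ dec K w)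
    (hDF : ∀ s ∈ D, F.map (((s : Ω ≃ₐ[K] Ω) : Ω ≃+* Ω) : Ω →+* Ω) = F)
    (hFin : ∀ t : K, t ≠ 0 → ∃ Fs : Set Ω, Fs.Finite ∧ ∀ u, w.valuation u ≤ 1 →
      (∀ s ∈ D, s u = u) → ∃ v ∈ Fs, w.valuation (u - v) ≤ w.valuation (algebraMap K Ω t))
    (hsm : ∀ x : Ω, x ≠ 0 → ∃ t : K, t ≠ 0 ∧ w.valuation (algebraMap K Ω t) < w.valuation x) :
    {Q : JJ l F | (∃ j : ℕ, l ^ j • Q = 0) ∧ ∀ s (hs : s ∈ D),
      act (s : Ω ≃+* Ω) (hDF s hs) 1 (one_pow l) Q = Q}.Finite := by
  classical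
  obtain ⟨v, hv⟩ := exists_gv (l := l) hm hF
  have hsep : (f0.map (algebraMap w Ω)).Separable := by
    rw [hF]
    exact Sup.sep l
  obtain ⟨ρ, hρ0, hρ⟩ := SmJ.exists_rho hsep
  have hρ' : (ρ : Ω) ≠ 0 := fun h0 => hρ0 (Subtype.ext h0)
  have hvρ1 : w.valuation (ρ : Ω) ≤ 1 := w.valuation_le_one ρ
  obtain ⟨red, hr1, hr2, hr3⟩ := exists_red (l := l) (f := F)
  set S : Set (JJ l F) := {Q | (∃ j : ℕ, l ^ j • Q = 0) ∧ ∀ s (hs : s ∈ D),
      act (s : Ω ≃+* Ω) (hDF s hs) 1 (one_pow l) Q = Q} with hS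
  set B : ℕ := F.natDegree * (l - 1) / 2 with hB
  -- the integral points
  set M : S → Multiset (Pnt l F) := fun Q => (red Q.1).filter fun P => w.valuation P.x ≤ 1 with hM
  have hMcard : ∀ Q, (M Q).card ≤ B := fun Q =>
    (Multiset.card_le_card (Multiset.filter_le _ _)).trans (hr2 Q.1)
  have hMmem : ∀ Q, ∀ P ∈ M Q, w.valuation P.x ≤ 1 := fun Q P hP =>
    (Multiset.mem_filter.mp hP).2
  have hMst : ∀ Q : S, ∀ s (hs : s ∈ D),
      (M Q).map (Pnt.map (s : Ω ≃+* Ω) (hDF s hs) 1 (one_pow l)) = M Q := by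
    intro Q s hs
    have e1 := hr3 (s : Ω ≃+* Ω) (hDF s hs) 1 (one_pow l) Q.1
    rw [Q.2.2 s hs] at e1
    have e2 : (M Q) = ((red Q.1).map (Pnt.map (s : Ω ≃+* Ω) (hDF s hs) 1 (one_pow l))).filter
        fun P => w.valuation P.x ≤ 1 := by
      rw [← e1]
    conv_rhs => rw [e2, Multiset.filter_map]
    congr 1
    apply Multiset.filter_congr
    intro P _
    rw [Function.comp_apply, Pnt.map_x]
    exact (dec_val_le K (hD s hs) P.x).symm
  -- the small element
  obtain ⟨t, ht0, ht⟩ := hsm ((ρ : Ω) ^ B) (pow_ne_zero _ hρ')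
  rw [map_pow] at ht
  obtain ⟨RX, hRX, hRX'⟩ := FinI_balls (w := w) D (fun Q : S => (M Q).map fun P => P.x)
    (n := B) (fun Q => by rw [Multiset.card_map]; exact hMcard Q)
    (fun Q x hx => by
      obtain ⟨P, hP, rfl⟩ := Multiset.mem_map.mp hx
      exact hMmem Q P hP)
    (fun Q s hs => by
      conv_rhs => rw [← hMst Q s hs]
      rw [Multiset.map_map, Multiset.map_map]
      rfl) (hFin t ht0) hvρ1 ht
  obtain ⟨RY, hRY, hRY'⟩ := FinI_balls (w := w) D (fun Q : S => (M Q).map fun P => P.y)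
    (n := B) (fun Q => by rw [Multiset.card_map]; exact hMcard Q)
    (fun Q x hx => by
      obtain ⟨P, hP, rfl⟩ := Multiset.mem_map.mp hx
      exact y_int hF (hMmem Q P hP))
    (fun Q s hs => by
      conv_rhs => rw [← hMst Q s hs]
      rw [Multiset.map_map, Multiset.map_map]
      refine Multiset.map_congr rfl fun P _ => ?_
      rw [Function.comp_apply, Function.comp_apply, Pnt.map_y, one_mul]
      rfl) (hFin t ht0) hvρ1 ht
  -- the quotient
  set q : JJ l F →+ (JJ l F ⧸ J1 v) := QuotientAddGroup.mk' (J1 v) with hq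
  have hq0 : ∀ c ∈ J1 v, q c = 0 := fun c hc => (QuotientAddGroup.eq_zero_iff _).mpr hc
  set T : Set (JJ l F ⧸ J1 v) := insert 0 (⋃ a ∈ RX, ⋃ b ∈ RY, {y | ∃ P : Pnt l F,
    w.valuation P.x ≤ 1 ∧ w.valuation (P.x - a) < w.valuation (ρ : Ω) ∧
    w.valuation (P.y - b) < w.valuation (ρ : Ω) ∧ y = q P.cl}) with hT
  have hsubc : ∀ (a x x' : Ω), w.valuation (x - a) < w.valuation (ρ : Ω) →
      w.valuation (x' - a) < w.valuation (ρ : Ω) →
      w.valuation (x - x') < w.valuation (ρ : Ω) := by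
    intro a x x' h1 h2
    have e : x - x' = (x - a) - (x' - a) := by ring
    rw [e]
    exact lt_of_le_of_lt (w.valuation.map_sub _ _) (max_lt h1 h2)
  have hTfin : T.Finite := by
    refine Set.Finite.insert 0 (hRX.biUnion fun a _ => hRY.biUnion fun b _ => ?_)
    apply Set.Subsingleton.finite
    rintro y ⟨P, hP, hPx, hPy, rfl⟩ y' ⟨P', hP', hPx', hPy', rfl⟩
    rw [← sub_eq_zero, ← map_sub]
    exact hq0 _ (J1_close hm hF hv hl hρ0 hρ hP (hsubc a _ _ hPx hPx') (hsubc b _ _ hPy hPy'))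
  have hpt : ∀ (Q : S) (P : Pnt l F), P ∈ red Q.1 → q P.cl ∈ T := by
    intro Q P hP
    by_cases hPx : w.valuation P.x ≤ 1
    · right
      have hPM : P ∈ M Q := Multiset.mem_filter.mpr ⟨hP, hPx⟩
      obtain ⟨a, ha, ha'⟩ := hRX' Q P.x (Multiset.mem_map.mpr ⟨P, hPM, rfl⟩)
      obtain ⟨b, hb, hb'⟩ := hRY' Q P.y (Multiset.mem_map.mpr ⟨P, hPM, rfl⟩)
      exact Set.mem_iUnion₂.mpr ⟨a, ha, Set.mem_iUnion₂.mpr ⟨b, hb, P, hPx, ha', hb', rfl⟩⟩
    · left
      exact hq0 _ (J1_inf hm hF hv (not_le.mp hPx))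
  refine Set.Finite.of_injOn (f := q) ?_ ?_ (SmJ.finite_sums hTfin B)
  · intro Q hQ
    refine ⟨(red Q).map fun P => q P.cl, ?_, ?_, ?_⟩
    · rw [Multiset.card_map]
      exact hr2 Q
    · intro y hy
      obtain ⟨P, hP, rfl⟩ := Multiset.mem_map.mp hy
      exact hpt ⟨Q, hQ⟩ P hP
    · have e := congrArg q (hr1 Q)
      rw [map_multiset_sum, Multiset.map_map] at e
      exact e.symm
  · intro Q hQ Q' hQ' he
    obtain ⟨j, hj⟩ := hQ.1
    obtain ⟨j', hj'⟩ := hQ'.1
    have hmem : Q - Q' ∈ J1 v := by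
      rw [← QuotientAddGroup.eq_zero_iff]
      change q (Q - Q') = 0
      rw [map_sub, he, sub_self]
    have htor : l ^ (j + j') • (Q - Q') = 0 := by
      rw [smul_sub, pow_add, mul_comm, mul_smul, hj, smul_zero, mul_comm, mul_smul, hj', smul_zero,
        sub_zero]
    exact sub_eq_zero.mp (J1_tors hm hF hv hl hmem htor)

end integral

section scale

variable {l : ℕ} {Ω : Type} [Field Ω] [Fact l.Prime]

/-- The scaling `x ↦ c ^ l x`, `y ↦ c ^ n y`. -/
private noncomputable def FinI_sc {F F' : Polynomial Ω} (n : ℕ) (c : Ω)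
    (h : F'.comp (C (c ^ l) * X) = C ((c ^ n) ^ l) * F) : Co l F' →+* Co l F :=
  AdjoinRoot.lift ((po l F).comp (compRingHom (C (c ^ l) * X))) (po l F (C (c ^ n)) * yy l F) (by
    rw [eval₂_sub, eval₂_X_pow, eval₂_C, mul_pow, yy_pow, RingHom.comp_apply, coe_compRingHom_apply,
      h, ← map_pow, ← C_pow, ← map_mul, sub_self])

omit [Fact l.Prime] in
private theorem FinI_sc_po {F F' : Polynomial Ω} (n : ℕ) (c : Ω)
    (h : F'.comp (C (c ^ l) * X) = C ((c ^ n) ^ l) * F) (p : Polynomial Ω) :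
    FinI_sc n c h (po l F' p) = po l F (p.comp (C (c ^ l) * X)) :=
  AdjoinRoot.lift_of _

omit [Fact l.Prime] in
private theorem FinI_sc_yy {F F' : Polynomial Ω} (n : ℕ) (c : Ω)
    (h : F'.comp (C (c ^ l) * X) = C ((c ^ n) ^ l) * F) :
    FinI_sc n c h (yy l F') = po l F (C (c ^ n)) * yy l F :=
  AdjoinRoot.lift_root _

omit [Fact l.Prime] in
private theorem FinI_sc_sc {F F' : Polynomial Ω} (n : ℕ) {c d : Ω} (hcd : c * d = 1)
    (h : F'.comp (C (c ^ l) * X) = C ((c ^ n) ^ l) * F)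
    (h' : F.comp (C (d ^ l) * X) = C ((d ^ n) ^ l) * F') :
    (FinI_sc n d h').comp (FinI_sc n c h) = RingHom.id (Co l F') := by
  apply hom_ext
  · intro p
    rw [RingHom.comp_apply, FinI_sc_po, FinI_sc_po, comp_assoc, mul_comp, C_comp, X_comp,
      ← mul_assoc, ← C_mul, ← mul_pow, hcd, one_pow, C_1, one_mul, comp_X]
    rfl
  · rw [RingHom.comp_apply, FinI_sc_yy, map_mul, FinI_sc_po, FinI_sc_yy, C_comp, ← mul_assoc,
      ← map_mul, ← C_mul, ← mul_pow, hcd, one_pow, C_1, map_one, one_mul]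
    rfl

omit [Fact l.Prime] in
private theorem FinI_rel {F : Polynomial Ω} {c : Ω} :
    (F.scaleRoots (c ^ l)).comp (C (c ^ l) * X) = C ((c ^ F.natDegree) ^ l) * F := by
  have e : (c ^ F.natDegree) ^ l = (c ^ l) ^ F.natDegree := by
    rw [← pow_mul, ← pow_mul, mul_comm]
  rw [e]
  set d := c ^ l
  ext i
  rw [comp_C_mul_X_coeff, coeff_scaleRoots, coeff_C_mul]
  by_cases hi : i ≤ F.natDegree
  · rw [mul_assoc, ← pow_add, Nat.sub_add_cancel hi, mul_comm]
  · rw [coeff_eq_zero_of_natDegree_lt (not_le.mp hi)]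
    ring

omit [Fact l.Prime] in
private theorem FinI_rel' {F F' : Polynomial Ω} (n : ℕ) {c d : Ω} (hcd : c * d = 1)
    (h : F'.comp (C (c ^ l) * X) = C ((c ^ n) ^ l) * F) :
    F.comp (C (d ^ l) * X) = C ((d ^ n) ^ l) * F' := by
  have e : (F'.comp (C (c ^ l) * X)).comp (C (d ^ l) * X) =
      (C ((c ^ n) ^ l) * F).comp (C (d ^ l) * X) := by rw [h]
  rw [comp_assoc, mul_comp, C_comp, X_comp, ← mul_assoc, ← C_mul, ← mul_pow, hcd, one_pow, C_1,
    one_mul, comp_X, mul_comp, C_comp] at e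
  rw [e, ← mul_assoc, ← C_mul, ← mul_pow, ← mul_pow, mul_comm d c, hcd, one_pow, one_pow, C_1,
    one_mul]

private theorem FinI_sep {F F' : Polynomial Ω} {e d : Ω} (hd : d ≠ 0)
    (h : F.comp (C d * X) = C e * F') (hs : F.Separable) : F'.Separable := by
  have h1 : IsCoprime (F.comp (C d * X)) (F.derivative.comp (C d * X)) := by
    have := IsCoprime.map (f := compRingHom (C d * X)) hs
    simpa only [coe_compRingHom_apply] using this
  have h2 : derivative (F.comp (C d * X)) = C d * (F.derivative.comp (C d * X)) := by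
    rw [derivative_comp, derivative_C_mul, derivative_X, mul_one]
  have h3 : (F.comp (C d * X)).Separable := by
    rw [Separable, h2]
    exact (isCoprime_mul_unit_left_right (isUnit_C.mpr hd.isUnit) _ _).mpr h1
  rw [h] at h3
  exact h3.of_mul_right

end scale

variable {k K Ω : Type} [Field k] [Finite k] [Field K] [Algebra k K] [Algebra (RatFunc k) K]
  [IsScalarTower k (RatFunc k) K] [FiniteDimensional (RatFunc k) K]
  [Algebra.IsSeparable (RatFunc k) K] [Field Ω] [Algebra K Ω] [IsSepClosure K Ω]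
  {l : ℕ} [Fact l.Prime]

omit [IsSepClosure K Ω] in
private theorem FinI_mult {w : ValuationSubring Ω}
    (hsm : ∀ x : Ω, x ≠ 0 → ∃ t : K, t ≠ 0 ∧ w.valuation (algebraMap K Ω t) < w.valuation x)
    (s : Finset Ω) : ∃ b : K, b ≠ 0 ∧ w.valuation (algebraMap K Ω b) ≤ 1 ∧
      ∀ a ∈ s, w.valuation (a * algebraMap K Ω b) ≤ 1 := by
  classical
  induction s using Finset.induction_on with
  | empty => exact ⟨1, one_ne_zero, by rw [map_one, map_one], by simp⟩
  | insert a s ha ih =>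
    obtain ⟨b, hb0, hb1, hb⟩ := ih
    by_cases ha0 : a = 0
    · refine ⟨b, hb0, hb1, fun x hx => ?_⟩
      rcases Finset.mem_insert.mp hx with rfl | hx
      · rw [ha0, zero_mul, map_zero]
        exact zero_le_one
      · exact hb x hx
    obtain ⟨t, ht0, ht⟩ := hsm a⁻¹ (inv_ne_zero ha0)
    have hva : 0 < w.valuation a := zero_lt_iff.mpr ((w.valuation.ne_zero_iff).mpr ha0)
    rw [map_inv₀] at ht
    by_cases ht1 : w.valuation (algebraMap K Ω t) ≤ 1
    · refine ⟨b * t, mul_ne_zero hb0 ht0, ?_, fun x hx => ?_⟩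
      · rw [map_mul, map_mul]
        exact mul_le_one' hb1 ht1
      · rw [map_mul, map_mul, map_mul]
        rcases Finset.mem_insert.mp hx with rfl | hx
        · rw [mul_left_comm]
          refine mul_le_one' hb1 ?_
          calc w.valuation x * w.valuation (algebraMap K Ω t)
              ≤ w.valuation x * (w.valuation x)⁻¹ := mul_le_mul' le_rfl ht.le
            _ = 1 := mul_inv_cancel₀ hva.ne'
        · rw [← mul_assoc, ← map_mul]
          exact mul_le_one' (hb x hx) ht1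
    · refine ⟨b, hb0, hb1, fun x hx => ?_⟩
      rcases Finset.mem_insert.mp hx with rfl | hx
      · rw [map_mul]
        refine mul_le_one' ?_ hb1
        have h1 : 1 < (w.valuation x)⁻¹ := lt_trans (not_le.mp ht1) ht
        exact ((one_lt_inv₀ hva).mp h1).le
      · exact hb x hx

theorem fin_fixS (f : K[X]) [Sup l (fO Ω f)] [IsSepClosed Ω] [SmChar l (fO Ω f)]
    (h2 : (2 : k) ≠ 0) (hl : (l : k) ≠ 0) {w : ValuationSubring Ω} (hw : w ≠ ⊤)
    {U : Subgroup (Ω ≃ₐ[K] Ω)} (hU : IsOpen (U : Set (Ω ≃ₐ[K] Ω))) :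
    {Q : JJ l (fO Ω f) | (∃ j : ℕ, l ^ j • Q = 0) ∧
      ∀ s ∈ dec K w, s ∈ U → galS l f s Q = Q}.Finite := by
  classical
  have hgal : IsGalois K Ω := inferInstance
  have halg : Algebra.IsAlgebraic K Ω := inferInstance
  obtain ⟨π, hL⟩ := GBU.exists_locHyp_of_ne_top k K h2 w hw
  have hsm : ∀ x : Ω, x ≠ 0 → ∃ t : K, t ≠ 0 ∧
      w.valuation (algebraMap K Ω t) < w.valuation x := by
    intro x hx
    obtain ⟨N, hN⟩ := SmJ.exists_pow_le_alg (K := K) hL hx
    refine ⟨π ^ (N + 1), pow_ne_zero _ hL.pi_ne, lt_of_lt_of_le ?_ hN⟩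
    rw [map_pow, map_pow, pow_succ]
    exact mul_lt_of_lt_one_right (pow_pos hL.pi_pos N) hL.pi_lt
  have hlw : w.valuation (l : Ω) = 1 := SmL.E.val_unit k K w hl
  -- the scaling
  set F := fO Ω f with hF
  obtain ⟨b, hb0, hb1, hb⟩ := FinI_mult hsm ((Finset.range F.natDegree).image F.coeff)
  set c : Ω := algebraMap K Ω b with hc
  have hc0 : c ≠ 0 := (map_ne_zero_iff _ (algebraMap K Ω).injective).mpr hb0
  set n := F.natDegree with hn
  set F' := F.scaleRoots (c ^ l) with hF'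
  have hrel : F'.comp (C (c ^ l) * X) = C ((c ^ n) ^ l) * F := FinI_rel
  have hrel' : F.comp (C (c⁻¹ ^ l) * X) = C ((c⁻¹ ^ n) ^ l) * F' :=
    FinI_rel' n (mul_inv_cancel₀ hc0) hrel
  have hnat : F'.natDegree = n := natDegree_scaleRoots _ _
  have hlp : l.Prime := Fact.out
  have i1 : Sup l F' :=
    { cop := by rw [hnat]; exact CopDeg.cop
      monic := (monic_scaleRoots_iff _).mpr (Mc.monic l)
      sep := FinI_sep (pow_ne_zero _ (inv_ne_zero hc0)) hrel' (Sup.sep l)
      two_le := by rw [hnat]; exact Sup.two_le l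
      odd := Sup.odd F
      ne := Sup.ne F }
  have i2 : SmChar l F' := ⟨by rw [hnat]; exact SmChar.ne⟩
  set θ : Co l F' ≃+* Co l F := RingEquiv.ofRingHom (FinI_sc n c hrel) (FinI_sc n c⁻¹ hrel')
    (FinI_sc_sc n (inv_mul_cancel₀ hc0) hrel' hrel)
    (FinI_sc_sc n (mul_inv_cancel₀ hc0) hrel hrel') with hθ
  have hinj : Function.Injective (SmJ.jMap θ.symm) := by
    intro Q Q' h
    have e := congrArg (SmJ.jMap θ) h
    have e1 : θ.symm.trans θ = RingEquiv.refl _ := RingEquiv.symm_trans_self θ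
    rwa [SmJ.jMap_jMap, SmJ.jMap_jMap, e1, SmJ.jMap_refl, SmJ.jMap_refl] at e
  -- the integral model
  have hcs : ∀ s : Ω ≃ₐ[K] Ω, s c = c := fun s => s.commutes b
  have hint : F' ∈ Polynomial.lifts (algebraMap w Ω) := by
    rw [Polynomial.lifts_iff_coeff_lifts]
    intro i
    refine ⟨⟨F'.coeff i, ?_⟩, rfl⟩
    rw [← w.valuation_le_one_iff, hF', coeff_scaleRoots]
    rcases lt_trichotomy i n with hi | hi | hi
    · have e : (c ^ l) ^ (n - i) = c * c ^ (l * (n - i) - 1) := by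
        rw [← pow_mul, ← pow_succ']
        congr 1
        have : 1 ≤ l * (n - i) := Nat.mul_pos hlp.pos (by omega)
        omega
      rw [← hn, e, ← mul_assoc, map_mul, map_pow]
      refine mul_le_one' (hb _ (Finset.mem_image_of_mem _ (Finset.mem_range.mpr hi))) ?_
      exact pow_le_one' hb1 _
    · have hmon : F.Monic := Mc.monic l
      rw [hi, hn, hmon.coeff_natDegree, Nat.sub_self, pow_zero, mul_one, map_one]
    · rw [coeff_eq_zero_of_natDegree_lt (hn ▸ hi), zero_mul, map_zero]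
      exact zero_le_one
  obtain ⟨f0, hf0⟩ := (Polynomial.mem_lifts _).mp hint
  have hf0m : f0.Monic := by
    apply Polynomial.monic_of_injective (SmJ.inj_w w)
    rw [hf0]
    exact (monic_scaleRoots_iff _).mpr (Mc.monic l)
  have hFs : ∀ s : Ω ≃ₐ[K] Ω, F'.map (((s : Ω ≃ₐ[K] Ω) : Ω ≃+* Ω) : Ω →+* Ω) = F' := by
    intro s
    ext i
    have e := congrArg (fun p => p.coeff i) (map_gal (K := K) f s)
    simp only [coeff_map] at e
    rw [coeff_map, hF', coeff_scaleRoots, map_mul, map_pow, map_pow]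
    have e2 : (((s : Ω ≃ₐ[K] Ω) : Ω ≃+* Ω) : Ω →+* Ω) c = c := hcs s
    rw [e2]
    exact congrArg (· * (c ^ l) ^ (F.natDegree - i)) (by rw [hF, fO, coeff_map]; exact e)
  have hmain := FinI_int (K := K) (l := l) hf0m hf0 hlw (dec K w ⊓ U) (fun s hs => hs.1)
    (fun s _ => hFs s)
    (fun t ht => by
      obtain ⟨Fs, h1, h3⟩ := SmL.E.hFin_open (k := k) h2 hw hU ht
      exact ⟨Fs, h1, fun u hu hu' => h3 u hu fun s hs hsU => hu' s ⟨hs, hsU⟩⟩)
    hsm
  refine Set.Finite.of_injOn (f := SmJ.jMap θ.symm) ?_ hinj.injOn hmain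
  rintro Q ⟨⟨j, hj⟩, hQ⟩
  refine ⟨⟨j, by rw [← map_nsmul, hj, map_zero]⟩, fun s hs => ?_⟩
  have e := hQ s hs.1 hs.2
  conv_rhs => rw [← e]
  rw [galS, galU, act, act, SmJ.jMap_jMap, SmJ.jMap_jMap]
  congr 1
  congr 1
  have hci : (((s : Ω ≃ₐ[K] Ω) : Ω ≃+* Ω) : Ω →+* Ω) c⁻¹ = c⁻¹ := by
    rw [map_inv₀]
    congr 1
    exact hcs s
  have hθpo : ∀ p : Polynomial Ω, θ.symm (po l F p) = po l F' (p.comp (C (c⁻¹ ^ l) * X)) :=
    fun p => FinI_sc_po n c⁻¹ hrel' p
  have hθyy : θ.symm (yy l F) = po l F' (C (c⁻¹ ^ n)) * yy l F' := FinI_sc_yy n c⁻¹ hrel'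
  have key : ((θ.symm.trans (coMap (s : Ω ≃+* Ω) (hFs s) 1 (one_pow l)) : Co l F ≃+* Co l F') :
      Co l F →+* Co l F') =
      (((coMap (s : Ω ≃+* Ω) (map_gal f s) 1 (one_pow l)).trans θ.symm : Co l F ≃+* Co l F') :
      Co l F →+* Co l F') := by
    apply hom_ext
    · intro p
      change coMap (s : Ω ≃+* Ω) (hFs s) 1 (one_pow l) (θ.symm (po l F p)) =
        θ.symm (coMap (s : Ω ≃+* Ω) (map_gal f s) 1 (one_pow l) (po l F p))
      rw [hθpo, coMap_po, coMap_po, hθpo, Polynomial.map_comp, Polynomial.map_mul, map_X,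
        Polynomial.map_C, map_pow, hci]
    · change coMap (s : Ω ≃+* Ω) (hFs s) 1 (one_pow l) (θ.symm (yy l F)) =
        θ.symm (coMap (s : Ω ≃+* Ω) (map_gal f s) 1 (one_pow l) (yy l F))
      rw [hθyy, map_mul, coMap_po, coMap_yy, coMap_yy, map_mul, hθpo, hθyy, Polynomial.map_C,
        map_pow, hci, C_comp]
      ring
  exact RingEquiv.ext fun x => RingHom.congr_fun key x

end Pool.Agent.SmS
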