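import Pool.Agent.Lib.SmS.Stab

/-!
SMITH-S, section 7 of the paper: the classes fixed by `σ`.

`ee_tors`, `sum_ee`: `prod_rot` for the branch point, and `∏ P_i = (y)`. `fixed_ee`: `exists_stable`,
`stable_form` and (7.2) of the paper. `ee_zero`: (7.3). `io_inj`, `io_range`: `l` does not divide `n`, `sum_ee`.
-/

set_option autoImplicit false

open Polynomial

namespace Pool.Agent.SmS

variable {l : ℕ} {F : Type} [Field F] [Fact l.Prime]

section split

variable {n : ℕ} {a : Fin n → F} [SupA l a] [IsSepClosed F]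

omit [IsSepClosed F] in
private theorem fix_ne (l : ℕ) (a : Fin n → F) [SupA l a] : (l : F) ≠ 0 := SupA.ne a

omit [SupA l a] [IsSepClosed F] in
private theorem fix_map_br {ζ : F} (hz : ζ ^ l = 1) (i : Fin n) :
    (br l a i).map (RingEquiv.refl F) (map_refl (ff a)) ζ hz = br l a i := by
  ext
  · rfl
  · change ζ * (0 : F) = 0
    exact mul_zero _

omit [SupA l a] [IsSepClosed F] in
private theorem fix_idl_ne (P : Pnt l (ff a)) : P.idl ≠ ⊥ := by
  intro h
  have h1 : po l (ff a) (X - C P.x) ∈ P.idl := by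
    rw [Pnt.mem_idl, Pnt.ev_po]
    simp
  rw [h, Ideal.mem_bot] at h1
  have h2 := congrArg (fun z => cf z 0) h1
  have h3 : cf (po l (ff a) (X - C P.x) * 1) 0 = (X - C P.x) * cf (1 : Co l (ff a)) 0 := cf_po_mul _ _ _
  have h4 : cf (1 : Co l (ff a)) 0 = 1 := by
    have h5 : (1 : Co l (ff a)) = ∑ i ∈ Finset.range l, po l (ff a) (if i = 0 then 1 else 0) *
        yy l (ff a) ^ i := by
      rw [Finset.sum_eq_single_of_mem 0 (Finset.mem_range.mpr (NeZero.pos l))]
      · simp
      · intro j _ hj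
        simp [hj]
    rw [h5, cf_sum _ (NeZero.pos l)]
    simp
  rw [mul_one, h4, mul_one] at h3
  simp only [h3, cf_zero] at h2
  exact X_sub_C_ne_zero _ h2

omit [SupA l a] [IsSepClosed F] in
private theorem fix_cf_po (p : F[X]) : cf (po l (ff a) p) 0 = p := by
  have h5 : po l (ff a) p = ∑ i ∈ Finset.range l, po l (ff a) (if i = 0 then p else 0) *
      yy l (ff a) ^ i := by
    rw [Finset.sum_eq_single_of_mem 0 (Finset.mem_range.mpr (NeZero.pos l))]
    · simp
    · intro j _ hj
      simp [hj]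
  rw [h5, cf_sum _ (NeZero.pos l)]
  simp

omit [SupA l a] [IsSepClosed F] in
private theorem fix_po_inj {p q : F[X]} (h : po l (ff a) p = po l (ff a) q) : p = q := by
  rw [← fix_cf_po (l := l) (a := a) p, h, fix_cf_po]

omit [IsSepClosed F] in
private theorem fix_pow {ζ : F} (hz : IsPrimitiveRoot ζ l) (i : Fin n) :
    (br l a i).idl ^ l = Ideal.span {po l (ff a) (X - C (a i))} := by
  have h := prod_rot hz (br l a i)
  rw [Finset.prod_congr rfl (g := fun _ => (br l a i).idl), Finset.prod_const,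
    Finset.card_range] at h
  · exact h
  · intro k _
    rw [Pnt.rot, fix_map_br]

theorem ee_tors (i : Fin n) : l • ee l a i = 0 := by
  obtain ⟨ζ, hz⟩ := exists_zeta l (F := F) (fix_ne l a)
  rw [ee, Pnt.cl, ← SmJ.cls_pow (fix_idl_ne _), fix_pow hz, SmJ.cls_span]

theorem zact_ee {ζ : F} (hz : ζ ^ l = 1) (i : Fin n) : zact hz (ee l a i) = ee l a i := by
  rw [ee, act_cl, fix_map_br]

omit [Field F] [Fact l.Prime] [SupA l a] [IsSepClosed F] in
private theorem fix_prod_le {R ι : Type} [CommRing R] (s : Finset ι) (x : ι → R) (J : Ideal R) :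
    ∏ i ∈ s, (Ideal.span {x i} ⊔ J) ≤ Ideal.span {∏ i ∈ s, x i} ⊔ J := by
  classical
  induction s using Finset.induction_on with
  | empty =>
    rw [Finset.prod_empty, Finset.prod_empty, Ideal.one_eq_top, Ideal.span_singleton_one]
    exact le_sup_left
  | insert i s hi ih =>
    rw [Finset.prod_insert hi, Finset.prod_insert hi]
    refine le_trans (Ideal.mul_mono_right ih) ?_
    rw [Ideal.mul_le]
    intro r hr t ht
    obtain ⟨r1, hr1, r2, hr2, rfl⟩ := Submodule.mem_sup.mp hr
    obtain ⟨t1, ht1, t2, ht2, rfl⟩ := Submodule.mem_sup.mp ht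
    rw [Submodule.mem_sup]
    refine ⟨r1 * t1, ?_, r1 * t2 + r2 * (t1 + t2), ?_, by ring⟩
    · obtain ⟨u, rfl⟩ := Ideal.mem_span_singleton.mp hr1
      obtain ⟨v, rfl⟩ := Ideal.mem_span_singleton.mp ht1
      exact Ideal.mem_span_singleton.mpr ⟨u * v, by ring⟩
    · exact J.add_mem (J.mul_mem_left _ ht2) (J.mul_mem_right _ hr2)

omit [IsSepClosed F] in
private theorem fix_prod : ∏ i, (br l a i).idl = Ideal.span {yy l (ff a)} := by
  classical
  apply le_antisymm
  · have h1 : ∀ i ∈ (Finset.univ : Finset (Fin n)), (br l a i).idl =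
        Ideal.span {po l (ff a) (X - C (a i))} ⊔ Ideal.span {yy l (ff a)} := by
      intro i _
      rw [Pnt.idl_eq_span, Ideal.span_insert]
      congr 3
      change yy l (ff a) - po l (ff a) (C 0) = yy l (ff a)
      rw [C_0, map_zero, sub_zero]
    rw [Finset.prod_congr rfl h1]
    refine (fix_prod_le _ _ _).trans (sup_le ?_ le_rfl)
    rw [← map_prod, ← ff, ← yy_pow, Ideal.span_singleton_le_span_singleton]
    exact dvd_pow_self _ (NeZero.ne l)
  · rw [Ideal.prod_eq_iInf_of_pairwise_isCoprime]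
    · rw [Ideal.span_singleton_le_iff_mem]
      simp only [Finset.mem_univ, iInf_pos, Ideal.mem_iInf]
      intro i
      rw [Pnt.mem_idl, Pnt.ev_yy]
      rfl
    · intro i _ j _ hij
      apply Ideal.isCoprime_of_isMaximal
      intro h
      replace h : (br l a i).idl = (br l a j).idl := h
      have h1 : po l (ff a) (X - C (a i)) ∈ (br l a i).idl := by
        rw [Pnt.mem_idl, Pnt.ev_po]
        simp [br]
      rw [h, Pnt.mem_idl, Pnt.ev_po] at h1
      have h2 : a j - a i = 0 := by simpa [br] using h1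
      exact hij (SupA.inj l (sub_eq_zero.mp h2).symm)

theorem sum_ee : ∑ i, ee l a i = 0 := by
  have h := SmJ.cls_prod (Finset.univ : Finset (Fin n)) (I := fun i => (br l a i).idl)
    (fun i _ => fix_idl_ne _)
  rw [fix_prod, SmJ.cls_span] at h
  exact h.symm

omit [SupA l a] [IsSepClosed F] in
private theorem fix_map_idl {ζ : F} (hz : ζ ^ l = 1) (i : Fin n) :
    (br l a i).idl.map ((sig hz : Co l (ff a) ≃+* Co l (ff a)) : Co l (ff a) →+* Co l (ff a)) =
      (br l a i).idl := by
  rw [Pnt.map_idl, fix_map_br]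

private theorem fix_step {ζ : F} (hz : IsPrimitiveRoot ζ l) {I : Ideal (Co l (ff a))} (hI : I ≠ ⊥)
    (hs : I.map ((sig hz.pow_eq_one : Co l (ff a) ≃+* Co l (ff a)) :
      Co l (ff a) →+* Co l (ff a)) = I) :
    (∃ z, I = Ideal.span {z}) ∨ ∃ i, I ≤ (br l a i).idl := by
  classical
  obtain ⟨q, hm, hmem, hdiv, h0⟩ := stable_form hz hI hs
  have hl : 0 < l := NeZero.pos l
  by_cases hall : ∀ j, j + 1 < l → q (j + 1) = q j
  · left
    have hq : ∀ j < l, q j = q 0 := by
      intro j
      induction j with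
      | zero => intro _; rfl
      | succ j ih =>
        intro hj
        rw [hall j hj, ih (by omega)]
    refine ⟨po l (ff a) (q 0), ?_⟩
    ext h
    rw [Ideal.mem_span_singleton, hmem]
    constructor
    · intro hh
      have h1 : ∀ j, ∃ c : F[X], j < l → cf h j = q 0 * c := by
        intro j
        by_cases hj : j < l
        · obtain ⟨c, hc⟩ := hh j hj
          exact ⟨c, fun _ => by rw [hc, hq j hj]⟩
        · exact ⟨0, fun h => absurd h hj⟩
      choose c hc using h1
      refine ⟨∑ j ∈ Finset.range l, po l (ff a) (c j) * yy l (ff a) ^ j, ?_⟩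
      conv_lhs => rw [eq_sum h]
      rw [Finset.mul_sum]
      refine Finset.sum_congr rfl fun j hj => ?_
      rw [hc j (Finset.mem_range.mp hj), map_mul, mul_assoc]
    · rintro ⟨g, rfl⟩ j hj
      rw [cf_po_mul, hq j hj]
      exact dvd_mul_right _ _
  · right
    push Not at hall
    obtain ⟨j, hj, hne⟩ := hall
    have hchain : ∀ d i, i + d < l → q (i + d) ∣ q i := by
      intro d
      induction d with
      | zero => intro i _; exact dvd_rfl
      | succ d ih =>
        intro i hi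
        exact (hdiv (i + d) (by omega)).trans (ih i (by omega))
    obtain ⟨c, hc⟩ := hdiv j hj
    have hq0 : q (j + 1) ≠ 0 := (hm (j + 1) hj).ne_zero
    have h1 : q (l - 1) ∣ q (j + 1) := by
      have := hchain (l - 1 - (j + 1)) (j + 1) (by omega)
      rwa [show j + 1 + (l - 1 - (j + 1)) = l - 1 by omega] at this
    have h2 : q j ∣ q 0 := by
      have := hchain j 0 (by omega)
      rwa [zero_add] at this
    have h3 : c ∣ ff a := by
      have h4 : q (j + 1) * c ∣ q (j + 1) * ff a := by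
        rw [← hc, mul_comm (q (j + 1))]
        exact (h2.trans h0).trans (mul_dvd_mul_left _ h1)
      exact (mul_dvd_mul_iff_left hq0).mp h4
    have hcu : ¬ IsUnit c := by
      intro hu
      apply hne
      refine eq_of_monic_of_associated (hm (j + 1) hj) (hm j (by omega)) ?_
      exact ⟨hu.unit, hc.symm⟩
    have hc0 : c ≠ 0 := by
      rintro rfl
      rw [mul_zero] at hc
      exact (hm j (by omega)).ne_zero hc
    obtain ⟨p, hp, hpc⟩ := WfDvdMonoid.exists_irreducible_factor hcu hc0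
    have h5 : p ∣ ∏ i, (X - C (a i)) := hpc.trans h3
    obtain ⟨i, -, hi⟩ := (Prime.dvd_finsetProd_iff hp.prime _).mp h5
    have h6 : X - C (a i) ∣ q 0 :=
      ((hp.associated_of_dvd (irreducible_X_sub_C (a i)) hi).symm.dvd.trans hpc).trans
        ((hc ▸ dvd_mul_left c (q (j + 1)) : c ∣ q j).trans h2)
    refine ⟨i, fun h hh => ?_⟩
    have h7 : X - C (a i) ∣ cf h 0 := h6.trans ((hmem h).mp hh 0 hl)
    rw [Pnt.mem_idl, Pnt.ev_apply, Finset.sum_eq_single_of_mem 0 (Finset.mem_range.mpr hl)]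
    · rw [pow_zero, mul_one]
      exact dvd_iff_isRoot.mp h7
    · intro k _ hk
      change _ * (0 : F) ^ k = 0
      rw [zero_pow hk, mul_zero]

private theorem fix_ind {ζ : F} (hz : IsPrimitiveRoot ζ l) (m : ℕ) : ∀ I : Ideal (Co l (ff a)),
    I ≠ ⊥ → dg I ≤ m →
    I.map ((sig hz.pow_eq_one : Co l (ff a) ≃+* Co l (ff a)) : Co l (ff a) →+* Co l (ff a)) = I →
    ∃ w : Fin n → ℕ, SmJ.cls I = ∑ i, w i • ee l a i := by
  classical
  induction m with
  | zero =>
    intro I hI hd hs
    rcases fix_step hz hI hs with ⟨z, rfl⟩ | ⟨i, hi⟩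
    · exact ⟨0, by simp⟩
    · exfalso
      obtain ⟨I', rfl⟩ := Ideal.dvd_iff_le.mpr hi
      have hI' : I' ≠ ⊥ := right_ne_zero_of_mul hI
      rw [dg_mul (fix_idl_ne _) hI', dg_idl] at hd
      omega
  | succ m ih =>
    intro I hI hd hs
    rcases fix_step hz hI hs with ⟨z, rfl⟩ | ⟨i, hi⟩
    · exact ⟨0, by simp⟩
    · obtain ⟨I', rfl⟩ := Ideal.dvd_iff_le.mpr hi
      have hI' : I' ≠ ⊥ := right_ne_zero_of_mul hI
      rw [dg_mul (fix_idl_ne _) hI', dg_idl] at hd
      rw [Ideal.map_mul, fix_map_idl] at hs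
      have hs' := mul_left_cancel₀ (a := (br l a i).idl) (fix_idl_ne _) hs
      obtain ⟨w, hw⟩ := ih I' hI' (by omega) hs'
      refine ⟨fun j => w j + if j = i then 1 else 0, ?_⟩
      rw [SmJ.cls_mul (fix_idl_ne _) hI', hw]
      simp only [add_smul, Finset.sum_add_distrib]
      rw [add_comm]
      congr 1
      change ee l a i = _
      rw [Finset.sum_eq_single_of_mem i (Finset.mem_univ _)]
      · rw [if_pos rfl, one_smul]
      · intro j _ hj
        rw [if_neg hj, zero_smul]

theorem fixed_ee {ζ : F} (hz : IsPrimitiveRoot ζ l) {Q : JJ l (ff a)}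
    (hQ : zact hz.pow_eq_one Q = Q) : ∃ w : Fin n → ℕ, Q = ∑ i, w i • ee l a i := by
  obtain ⟨I, hI, rfl, hs⟩ := exists_stable hz hQ
  exact fix_ind hz (dg I) I hI le_rfl hs

omit [IsSepClosed F] in
private theorem fix_rm (l : ℕ) [SupA l a] (w : Fin n → ℕ) (i : Fin n) (s : Finset (Fin n)) :
    rootMultiplicity (a i) (∏ j ∈ s, (X - C (a j)) ^ w j) = if i ∈ s then w i else 0 := by
  classical
  induction s using Finset.induction_on with
  | empty => simp
  | insert k s hk ih =>
    have h1 : ∀ t : Finset (Fin n), ∏ j ∈ t, (X - C (a j)) ^ w j ≠ 0 := fun t =>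
      Finset.prod_ne_zero_iff.mpr fun j _ => pow_ne_zero _ (X_sub_C_ne_zero _)
    rw [Finset.prod_insert hk, rootMultiplicity_mul (mul_ne_zero (pow_ne_zero _ (X_sub_C_ne_zero _)) (h1 _)), ih]
    by_cases hik : i = k
    · subst hik
      rw [rootMultiplicity_X_sub_C_pow, if_neg hk, if_pos (Finset.mem_insert_self _ _), add_zero]
    · have h2 : rootMultiplicity (a i) ((X - C (a k)) ^ w k) = 0 := by
        apply rootMultiplicity_eq_zero
        rw [IsRoot.def, eval_pow, eval_sub, eval_X, eval_C]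
        exact pow_ne_zero _ (sub_ne_zero.mpr fun h => hik (SupA.inj l h))
      rw [h2, zero_add]
      simp [Finset.mem_insert, hik]

theorem ee_zero {ζ : F} (hz : IsPrimitiveRoot ζ l) {w : Fin n → ℕ} (h : ∑ i, w i • ee l a i = 0)
    (i j : Fin n) : (w i : ZMod l) = w j := by
  classical
  have hl : 0 < l := NeZero.pos l
  -- the ideal
  set I : Ideal (Co l (ff a)) := ∏ i, (br l a i).idl ^ w i with hIdef
  have hne : I ≠ ⊥ := Finset.prod_ne_zero_iff.mpr fun i _ => pow_ne_zero _ (fix_idl_ne _)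
  have hcls : SmJ.cls I = 0 := by
    rw [hIdef, SmJ.cls_prod _ fun i _ => pow_ne_zero _ (fix_idl_ne _), ← h]
    exact Finset.sum_congr rfl fun i _ => SmJ.cls_pow (fix_idl_ne _) _
  obtain ⟨g, hg⟩ := (SmJ.cls_eq_zero_iff hne).mp hcls
  have hg0 : g ≠ 0 := by
    rintro rfl
    exact hne (hg.trans (Ideal.span_singleton_eq_bot.mpr rfl))
  -- `σ g = c g`
  have hsI : I.map ((sig hz.pow_eq_one : Co l (ff a) ≃+* Co l (ff a)) :
      Co l (ff a) →+* Co l (ff a)) = I := by
    rw [hIdef, ← Ideal.mapHom_apply, map_prod]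
    refine Finset.prod_congr rfl fun i _ => ?_
    rw [Ideal.mapHom_apply, Ideal.map_pow, fix_map_idl]
  rw [hg, Ideal.map_span, Set.image_singleton, Ideal.span_singleton_eq_span_singleton] at hsI
  obtain ⟨u, hu⟩ := hsI.symm
  obtain ⟨c, hc0, hc⟩ := isUnit_co.mp u.isUnit
  have h1 : ∀ k < l, C ((ζ⁻¹) ^ k) * cf g k = C c * cf g k := by
    intro k hk
    have h2 := congrArg (fun z => cf z k) hu
    simp only [hc] at h2
    rw [mul_comm, cf_po_mul] at h2
    rw [h2]
    change _ = cf (sig hz.pow_eq_one g) k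
    rw [cf_coMap _ _ _ _ _ hk]
    congr 1
    exact Polynomial.map_id.symm
  obtain ⟨k0, hk0, hk0'⟩ : ∃ k < l, cf g k ≠ 0 := by
    by_contra hcon
    push Not at hcon
    exact hg0 (co_ext fun k hk => by rw [hcon k hk, cf_zero])
  have h2 : ∀ k < l, k ≠ k0 → cf g k = 0 := by
    intro k hk hkk
    by_contra hcon
    have h3 := C_injective (mul_right_cancel₀ hk0' (h1 k0 hk0))
    have h4 := C_injective (mul_right_cancel₀ hcon (h1 k hk))
    have hz' : IsPrimitiveRoot ζ⁻¹ l := hz.inv
    exact hkk (hz'.pow_inj hk hk0 (h4.trans h3.symm))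
  have h3 : g = po l (ff a) (cf g k0) * yy l (ff a) ^ k0 := by
    conv_lhs => rw [eq_sum g]
    rw [Finset.sum_eq_single_of_mem k0 (Finset.mem_range.mpr hk0)]
    intro k hk hkk
    rw [h2 k (Finset.mem_range.mp hk) hkk, map_zero, zero_mul]
  -- the `l`-th power
  have h4 : I ^ l = Ideal.span {po l (ff a) (∏ i, (X - C (a i)) ^ w i)} := by
    rw [hIdef, ← Finset.prod_pow, map_prod]
    rw [← Ideal.prod_span_singleton]
    refine Finset.prod_congr rfl fun i _ => ?_
    rw [← pow_mul, mul_comm, pow_mul, fix_pow hz, map_pow, Ideal.span_singleton_pow]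
  have h5 : g ^ l = po l (ff a) (cf g k0 ^ l * ff a ^ k0) := by
    conv_lhs => rw [h3]
    rw [mul_pow, ← pow_mul, mul_comm k0, pow_mul, yy_pow, map_mul, map_pow, map_pow]
  rw [hg, Ideal.span_singleton_pow, h5, Ideal.span_singleton_eq_span_singleton] at h4
  obtain ⟨v, hv⟩ := h4
  obtain ⟨d, hd0, hd⟩ := isUnit_co.mp v.isUnit
  rw [hd, ← map_mul] at hv
  have h6 := fix_po_inj hv
  -- multiplicities
  have hf : ∀ m : ℕ, ff a ^ m = ∏ j, (X - C (a j)) ^ m := fun m => by rw [ff, Finset.prod_pow]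
  have h7 : ∀ i, w i = l * rootMultiplicity (a i) (cf g k0) + k0 := by
    intro i
    have h8 := congrArg (rootMultiplicity (a i)) h6
    have e1 : cf g k0 ^ l * ff a ^ k0 ≠ 0 :=
      mul_ne_zero (pow_ne_zero _ hk0') (pow_ne_zero _ (ff_monic a).ne_zero)
    have e2 : cf g k0 ^ l * ff a ^ k0 * C d ≠ 0 := mul_ne_zero e1 (C_ne_zero.mpr hd0)
    rw [fix_rm l, if_pos (Finset.mem_univ _), rootMultiplicity_mul e2, rootMultiplicity_mul e1,
      rootMultiplicity_C, add_zero, hf, fix_rm l (fun _ => k0), if_pos (Finset.mem_univ _),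
      ← count_roots, roots_pow, Multiset.count_nsmul, count_roots] at h8
    exact h8.symm
  rw [h7 i, h7 j]
  push_cast
  rw [ZMod.natCast_self, zero_mul, zero_mul]

/-- The vectors of sum zero. -/
def V0 (l n : ℕ) : Submodule (ZMod l) (Fin n → ZMod l) where
  carrier := {w | ∑ i, w i = 0}
  add_mem' {x y} hx hy := by
    have hx' : ∑ i, x i = 0 := hx
    have hy' : ∑ i, y i = 0 := hy
    change ∑ i, (x + y) i = 0
    simp only [Pi.add_apply, Finset.sum_add_distrib, hx', hy', add_zero]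
  zero_mem' := by simp
  smul_mem' c x hx := by
    have hx' : ∑ i, x i = 0 := hx
    change ∑ i, (c • x) i = 0
    simp only [Pi.smul_apply, ← Finset.smul_sum, hx', smul_zero]

/-- `w ↦ ∑ w_i e_i`. -/
noncomputable def io (l : ℕ) {F : Type} [Field F] [Fact l.Prime] {n : ℕ} (a : Fin n → F)
    [SupA l a] [IsSepClosed F] : V0 l n →+ JJ l (ff a) where
  toFun w := ∑ i, (w.1 i).val • ee l a i
  map_zero' := by simp
  map_add' w w' := by
    rw [← Finset.sum_add_distrib]
    refine Finset.sum_congr rfl fun i _ => ?_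
    rw [← add_smul]
    change ((w.1 i + w'.1 i).val) • _ = _
    rw [ZMod.val_add]
    conv_rhs => rw [← Nat.div_add_mod ((w.1 i).val + (w'.1 i).val) l, add_smul, mul_comm,
      mul_smul, ee_tors, smul_zero, zero_add]

theorem io_apply (w : V0 l n) : io l a w = ∑ i, (w.1 i).val • ee l a i := rfl

omit [IsSepClosed F] in
private theorem fix_n_ne (l : ℕ) [Fact l.Prime] (a : Fin n → F) [SupA l a] : (n : ZMod l) ≠ 0 := by
  intro h
  have h1 : l ∣ n := (ZMod.natCast_eq_zero_iff _ _).mp h
  have h2 : l.Coprime n := SupA.cop a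
  have h3 : l ∣ 1 := h2.gcd_eq_one ▸ Nat.dvd_gcd dvd_rfl h1
  exact (Fact.out : l.Prime).one_lt.ne' (Nat.dvd_one.mp h3)

theorem io_inj {ζ : F} (hz : IsPrimitiveRoot ζ l) : Function.Injective (io l a) := by
  rw [injective_iff_map_eq_zero]
  intro w hw
  rw [io_apply] at hw
  have h1 : ∀ i j, w.1 i = w.1 j := by
    intro i j
    have h := ee_zero hz hw i j
    rwa [ZMod.natCast_zmod_val, ZMod.natCast_zmod_val] at h
  have h2 : ∑ i, w.1 i = 0 := w.2
  apply Subtype.ext
  funext i
  have h3 : ∑ j, w.1 j = (n : ZMod l) * w.1 i := by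
    rw [Finset.sum_congr rfl fun j _ => h1 j i, Finset.sum_const, Finset.card_univ,
      Fintype.card_fin, nsmul_eq_mul]
  rw [h2] at h3
  exact (mul_eq_zero.mp h3.symm).resolve_left (fix_n_ne l a)

private theorem fix_val (i : Fin n) (m m' : ℕ) (h : (m : ZMod l) = m') :
    m • ee l a i = m' • ee l a i := by
  have h1 : ∀ m : ℕ, m • ee l a i = (m % l) • ee l a i := by
    intro m
    conv_lhs => rw [← Nat.div_add_mod m l, add_smul, mul_comm, mul_smul, ee_tors, smul_zero,
      zero_add]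
  rw [h1 m, h1 m', (ZMod.natCast_eq_natCast_iff' _ _ _).mp h]

theorem io_range {ζ : F} (hz : IsPrimitiveRoot ζ l) {Q : JJ l (ff a)}
    (hQ : lam hz.pow_eq_one Q = 0) : ∃ w, io l a w = Q := by
  have h1 : zact hz.pow_eq_one Q = Q := by
    rw [lam_apply, sub_eq_zero] at hQ
    exact hQ.symm
  obtain ⟨w, hw⟩ := fixed_ee hz h1
  have hn := fix_n_ne l a
  set c : ZMod l := (∑ i, (w i : ZMod l)) * (n : ZMod l)⁻¹ with hc
  refine ⟨⟨fun i => (w i : ZMod l) - c, ?_⟩, ?_⟩
  · change ∑ i, ((w i : ZMod l) - c) = 0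
    rw [Finset.sum_sub_distrib, Finset.sum_const, Finset.card_univ, Fintype.card_fin,
      nsmul_eq_mul, hc, mul_comm (∑ i, (w i : ZMod l)), ← mul_assoc, mul_inv_cancel₀ hn, one_mul,
      sub_self]
  · rw [io_apply, hw]
    have h2 : ∑ i, c.val • ee l a i = 0 := by rw [← Finset.smul_sum, sum_ee, smul_zero]
    rw [← add_zero (∑ i, ((_ : ZMod l).val • ee l a i)), ← h2, ← Finset.sum_add_distrib]
    refine Finset.sum_congr rfl fun i _ => ?_
    rw [← add_smul]
    apply fix_val
    push_cast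
    rw [ZMod.natCast_zmod_val, ZMod.natCast_zmod_val]
    ring

theorem lam_io {ζ : F} (hz : IsPrimitiveRoot ζ l) (w : V0 l n) :
    lam hz.pow_eq_one (io l a w) = 0 := by
  rw [lam_apply, sub_eq_zero, io_apply, map_sum]
  refine Finset.sum_congr rfl fun i _ => ?_
  rw [map_nsmul, zact_ee]

end split

end Pool.Agent.SmS
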