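import Pool.Agent.Lib.SmS.WildR
import Pool.Agent.Lib.SmL.Fld.Std
import Pool.Agent.Lib.SmL.Ar.Sy
import Pool.Agent.Lib.SmL.Fnl.Mod

/-!
# SMITH-S, (10.6): the level of the cocycles on the decomposition groups

`tfOn_of_open`: a cocycle on the decomposition group with values in a finite `F_l`-module, continuous for
the Krull topology, is of a level in the family `NN`.
-/

set_option autoImplicit false

open IsLocalRing

namespace Pool.Agent.SmS

open Pool.Agent.BSDFF Pool.Agent.Lib.SmD Pool.Agent.SmD Pool.Agent.GBU Pool.Agent.SmL.Ar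
  Pool.Agent.SmL.C Pool.Agent.SmL.Fld Pool.Agent.SmL.Fnl

section root

variable {K Ω : Type*} [Field K] [Field Ω] [Algebra K Ω] {l : ℕ} {ζ : Ω}

private theorem Lev_pow {t : Ω ≃ₐ[K] Ω} {η ξ : Ω} (h : t ξ = η * ξ) (hη : t η = η) (n : ℕ) :
    (t ^ n) ξ = η ^ n * ξ := by
  have h1 : ∀ n : ℕ, (t ^ n) η = η := by
    intro n
    induction n with
    | zero => rfl
    | succ n ih => rw [pow_succ, AlgEquiv.mul_apply, hη, ih]
  induction n with
  | zero => rw [pow_zero, pow_zero, one_mul]; rfl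
  | succ n ih => rw [pow_succ, AlgEquiv.mul_apply, h, map_mul, h1, ih, pow_succ]; ring

private theorem Lev_mu (hl : 0 < l) (hζ : IsPrimitiveRoot ζ l) (s : Ω ≃ₐ[K] Ω) (hK : s ζ = ζ)
    (a : ℕ) : ∀ ξ : Ω, ξ ^ l ^ a = 1 → (s ^ l ^ a) ξ = ξ := by
  have hne : NeZero l := ⟨hl.ne'⟩
  have hKn : ∀ n : ℕ, (s ^ n) ζ = ζ := by
    intro n
    induction n with
    | zero => rfl
    | succ n ih => rw [pow_succ, AlgEquiv.mul_apply, hK, ih]
  induction a with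
  | zero =>
    intro ξ hξ
    rw [pow_zero, pow_one] at hξ
    rw [hξ, map_one]
  | succ a ih =>
    intro ξ hξ
    have hξ0 : ξ ≠ 0 := by
      rintro rfl
      rw [zero_pow (pow_pos hl _).ne'] at hξ
      exact zero_ne_one hξ
    have h1 : (s ^ l ^ a) (ξ ^ l) = ξ ^ l := by
      apply ih
      rw [← pow_mul, ← pow_succ', hξ]
    have h2 : ((s ^ l ^ a) ξ / ξ) ^ l = 1 := by
      rw [div_pow, ← map_pow, h1, div_self (pow_ne_zero _ hξ0)]
    obtain ⟨i, -, hi⟩ := hζ.eq_pow_of_pow_eq_one h2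
    have h3 : (s ^ l ^ a) ξ = ζ ^ i * ξ := by rw [hi, div_mul_cancel₀ _ hξ0]
    have h4 : (s ^ l ^ a) (ζ ^ i) = ζ ^ i := by rw [map_pow, hKn]
    rw [pow_succ l a, pow_mul, Lev_pow h3 h4, ← pow_mul, mul_comm i, pow_mul, hζ.pow_eq_one,
      one_pow, one_mul]

private theorem Lev_root (hl : 0 < l) (hζ : IsPrimitiveRoot ζ l) (s : Ω ≃ₐ[K] Ω) (hK : s ζ = ζ)
    (a : ℕ) {c : K} (hc : c ≠ 0) {r : Ω} (hr : r ^ l ^ a = algebraMap K Ω c) :
    (s ^ l ^ (a + a)) r = r := by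
  have hr0 : r ≠ 0 := by
    rintro rfl
    rw [zero_pow (pow_pos hl _).ne'] at hr
    exact hc ((map_eq_zero _).1 hr.symm)
  have h2 : ((s ^ l ^ a) r / r) ^ l ^ a = 1 := by
    rw [div_pow, ← map_pow, hr, AlgEquiv.commutes, div_self]
    rw [Ne, map_eq_zero]
    exact hc
  have h3 : (s ^ l ^ a) r = (s ^ l ^ a) r / r * r := (div_mul_cancel₀ _ hr0).symm
  rw [pow_add l, pow_mul, Lev_pow h3 (Lev_mu hl hζ s hK a _ h2), h2, one_mul]

private theorem Lev_split {l : ℕ} (hl : l.Prime) (hl0 : (l : K) ≠ 0) {t : ℕ} (ht : t ≠ 0) :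
    ∃ m r : ℕ, t = m * r ∧ m.Coprime l ∧ (r : K) ≠ 0 := by
  obtain ⟨p, hp⟩ := CharP.exists K
  rcases CharP.char_is_prime_or_zero K p with hpp | rfl
  · obtain ⟨j, r, hr, rfl⟩ := Nat.exists_eq_pow_mul_and_not_dvd ht p hpp.ne_one
    refine ⟨p ^ j, r, rfl, ?_, fun h0 => hr ((CharP.cast_eq_zero_iff K p r).1 h0)⟩
    refine Nat.Coprime.pow_left j ((Nat.coprime_primes hpp hl).2 ?_)
    rintro rfl
    exact hl0 (CharP.cast_eq_zero K p)
  · refine ⟨1, t, (one_mul t).symm, Nat.coprime_one_left l, fun h0 => ht ?_⟩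
    have h1 := (CharP.cast_eq_zero_iff K 0 t).1 h0
    exact Nat.eq_zero_of_zero_dvd h1

/-- The automorphisms which fix the roots of `X ^ m - c`. -/
def fixR (Ω : Type*) [Field Ω] [Algebra K Ω] (m : ℕ) (c : K) : Subgroup (Ω ≃ₐ[K] Ω) where
  carrier := {s | ∀ r : Ω, r ^ m = algebraMap K Ω c → s r = r}
  one_mem' := fun r _ => rfl
  mul_mem' := by
    intro s t hs ht r hr
    rw [AlgEquiv.mul_apply, ht r hr, hs r hr]
  inv_mem' := by
    intro s hs r hr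
    have h1 := hs r hr
    apply s.injective
    rw [← AlgEquiv.mul_apply, mul_inv_cancel, AlgEquiv.one_apply, h1]

private theorem fixR_normal (m : ℕ) (c : K) : (fixR Ω m c).Normal := by
  refine ⟨fun s hs g r hr => ?_⟩
  have h1 : (g⁻¹ r) ^ m = algebraMap K Ω c := by
    rw [← map_pow, hr, AlgEquiv.commutes]
  rw [AlgEquiv.mul_apply, AlgEquiv.mul_apply, hs _ h1, ← AlgEquiv.mul_apply, mul_inv_cancel,
    AlgEquiv.one_apply]

private theorem fixR_open [Algebra.IsAlgebraic K Ω] {m : ℕ} (hm : 0 < m) (c : K) :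
    IsOpen (fixR Ω m c : Set (Ω ≃ₐ[K] Ω)) := by
  classical
  have hfin : {r : Ω | r ^ m = algebraMap K Ω c}.Finite := by
    refine ((Polynomial.X ^ m - Polynomial.C (algebraMap K Ω c)).roots.toFinset.finite_toSet).subset
      fun r hr => ?_
    have hne : (Polynomial.X ^ m - Polynomial.C (algebraMap K Ω c)) ≠ 0 :=
      Polynomial.X_pow_sub_C_ne_zero hm _
    rw [Finset.mem_coe, Multiset.mem_toFinset, Polynomial.mem_roots hne, Polynomial.IsRoot,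
      Polynomial.eval_sub, Polynomial.eval_pow, Polynomial.eval_X, Polynomial.eval_C, sub_eq_zero]
    exact hr
  have := hfin.to_subtype
  have h1 : FiniteDimensional K (IntermediateField.adjoin K {r : Ω | r ^ m = algebraMap K Ω c}) :=
    IntermediateField.finiteDimensional_adjoin fun x _ =>
      (Algebra.IsAlgebraic.isAlgebraic (R := K) x).isIntegral
  refine Subgroup.isOpen_mono (H₁ := (IntermediateField.adjoin K
    {r : Ω | r ^ m = algebraMap K Ω c}).fixingSubgroup) ?_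
    (IntermediateField.fixingSubgroup_isOpen _)
  intro s hs r hr
  rw [IntermediateField.mem_fixingSubgroup_iff] at hs
  exact hs _ (IntermediateField.subset_adjoin K _ hr)

end root

variable {k K Ω : Type} [Field k] [Finite k] [Field K] [Algebra k K] [Algebra (RatFunc k) K]
  [IsScalarTower k (RatFunc k) K] [FiniteDimensional (RatFunc k) K]
  [Algebra.IsSeparable (RatFunc k) K] [Field Ω] [Algebra K Ω] [IsSepClosure K Ω]
  {l : ℕ} {ζ : Ω} {NN : Set (Subgroup (Ω ≃ₐ[K] Ω))} {w : Place k K → ValuationSubring Ω}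
  {sg ph : Place k K → Ω ≃ₐ[K] Ω}

omit [Algebra.IsSeparable (RatFunc k) K] in
/-- The inertia group modulo an open normal subgroup, up to a `p`-group. -/
theorem iner_level (h2 : (2 : k) ≠ 0) (hl : l.Prime) (hζ : IsPrimitiveRoot ζ l)
    (hK : ∀ s : Ω ≃ₐ[K] Ω, s ζ = ζ) (hS : Std l ζ NN w sg ph) (v : Place k K)
    {U : Subgroup (Ω ≃ₐ[K] Ω)} (hUn : U.Normal) (hUo : IsOpen (U : Set (Ω ≃ₐ[K] Ω))) :
    ∃ m : ℕ, m.Coprime l ∧ ∃ N ∈ NN, ∀ σ ∈ iner K (w v), σ ∈ N → σ ^ m ∈ U := by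
  have hgal : IsGalois K Ω := inferInstance
  have hsc : IsSepClosed Ω := IsSepClosure.sep_closed K
  have hne : NeZero l := ⟨hl.ne_zero⟩
  have hlΩ : (l : Ω) ≠ 0 := hζ.neZero'.out
  have hlK : (l : K) ≠ 0 := by
    intro h
    apply hlΩ
    rw [← map_natCast (algebraMap K Ω), h, map_zero]
  obtain ⟨π, hπ⟩ := IsDiscreteValuationRing.exists_irreducible v.ring
  have hL : LocHyp K (w v) (π : K) := locHyp_of_below h2 v (w v) (hS.loc.below v) hπ
  have hch : CharOk (w v) := charOk_of_finite k K (w v)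
  obtain ⟨ϖ, hϖ0, hker⟩ := exists_ratioU hL hch hUn hUo
  obtain ⟨e, he, -, j, hj⟩ := value_torsion_le hL.disc hϖ0
    (Algebra.IsAlgebraic.isAlgebraic (R := K) ϖ).isIntegral
  obtain ⟨a, e', he', hee⟩ := Nat.exists_eq_pow_mul_and_not_dvd he.ne' l hl.ne_one
  have hla : NeZero ((l ^ a : ℕ) : Ω) := ⟨by rw [Nat.cast_pow]; exact pow_ne_zero _ hlΩ⟩
  obtain ⟨r, hr⟩ := IsSepClosed.exists_pow_nat_eq (algebraMap K Ω (π : K)) (l ^ a)
  have hr0 : r ≠ 0 := by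
    rintro rfl
    rw [zero_pow (pow_pos hl.pos _).ne'] at hr
    exact hL.pi_ne ((map_eq_zero _).1 hr.symm)
  have hb0 : r ^ j ≠ 0 := zpow_ne_zero _ hr0
  have hval : (w v).valuation (ϖ ^ e') = (w v).valuation (r ^ j) := by
    have h3 : ((w v).valuation (ϖ ^ e')) ^ l ^ a = ((w v).valuation (r ^ j)) ^ l ^ a := by
      rw [map_pow, ← pow_mul, mul_comm, ← hee, hj, ← hr, map_pow, map_zpow₀, ← zpow_natCast,
        ← zpow_natCast, ← zpow_mul, ← zpow_mul, mul_comm]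
    exact (pow_left_inj₀ zero_le zero_le (pow_pos hl.pos _).ne').1 h3
  obtain ⟨N1, hN1⟩ : ∃ N1, N1 ∈ NN := ⟨_, hS.fam.hc 0⟩
  have hN1n := hS.fam.normal N1 hN1
  have hFn := fixR_normal (Ω := Ω) (l ^ a) (π : K)
  have hN : N1 ⊓ fixR Ω (l ^ a) (π : K) ∈ NN := by
    refine hS.fam.ext N1 hN1 _ inferInstance ?_ inf_le_left fun s hs => ⟨a + a, ?_⟩
    · rw [Subgroup.coe_inf]
      exact (hS.fam.isOpen N1 hN1).inter (fixR_open (pow_pos hl.pos _) _)
    · exact ⟨N1.pow_mem hs _, fun r hr => Lev_root hl.pos hζ s (hK s) a hL.pi_ne hr⟩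
  have hfin : Finite ((Ω ≃ₐ[K] Ω) ⧸ U) := Subgroup.quotient_finite_of_isOpen U hUo
  have hfi : U.FiniteIndex := Subgroup.finiteIndex_of_finite_quotient
  obtain ⟨m, t, hmt, hml, ht⟩ := Lev_split (K := K) hl hlK (t := U.index) hfi.index_ne_zero
  refine ⟨e' * m, Nat.Coprime.mul_left ?_ hml, _, hN, fun σ hσ hσN => ?_⟩
  · exact ((Nat.Prime.coprime_iff_not_dvd hl).2 he').symm
  have h3 : σ (r ^ j) = r ^ j := by rw [map_zpow₀, hσN.2 r hr]
  have h4 : rr (w v) (σ ϖ / ϖ) ^ e' = 1 := by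
    have h5 := ratio_eq hσ (pow_ne_zero e' hϖ0) hb0 hval
    rw [h3, div_self hb0, rr_one, map_pow, ← div_pow, rr_pow (ratio_mem hσ.1 hϖ0)] at h5
    exact h5
  refine hker _ ((iner K (w v)).pow_mem hσ _) ⟨t, ht, ?_⟩ ?_
  · rw [← pow_mul, mul_assoc, ← hmt, pow_mul]
    exact Subgroup.pow_index_mem U _
  · rw [ratio_pow hσ hϖ0, pow_mul, h4, one_pow]

section coc

variable {V1 : Type} [AddCommGroup V1] [Module (ZMod l) V1]
  {a : (Ω ≃ₐ[K] Ω) →* (V1 ≃ₗ[ZMod l] V1)} {v : Place k K} {x : (Ω ≃ₐ[K] Ω) → V1}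
  {U : Subgroup (Ω ≃ₐ[K] Ω)}

omit [Finite k] [Algebra (RatFunc k) K]
  [IsScalarTower k (RatFunc k) K] [FiniteDimensional (RatFunc k) K]
  [Algebra.IsSeparable (RatFunc k) K] [IsSepClosure K Ω] in
private theorem Lev_one (hx : ∀ s ∈ dec K (w v), ∀ t ∈ dec K (w v), x (s * t) = x s + a s (x t)) :
    x 1 = 0 := by
  have h1 := hx 1 (one_mem _) 1 (one_mem _)
  rw [mul_one, map_one] at h1
  have h2 : x 1 = x 1 + x 1 := h1
  exact left_eq_add.1 h2

omit [Finite k] [Algebra (RatFunc k) K]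
  [IsScalarTower k (RatFunc k) K] [FiniteDimensional (RatFunc k) K]
  [Algebra.IsSeparable (RatFunc k) K] [IsSepClosure K Ω] in
private theorem Lev_nrm (hx : ∀ s ∈ dec K (w v), ∀ t ∈ dec K (w v), x (s * t) = x s + a s (x t))
    {s : Ω ≃ₐ[K] Ω} (hs : s ∈ dec K (w v)) (n : ℕ) : x (s ^ n) = nrm (a s) n (x s) := by
  induction n with
  | zero => rw [pow_zero, Lev_one hx, nrm_apply]; simp
  | succ n ih =>
    rw [pow_succ, hx _ (pow_mem hs n) _ hs, ih, map_pow, nrm_apply, nrm_apply,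
      Finset.sum_range_succ]

omit [Algebra.IsSeparable (RatFunc k) K] in
/-- A cocycle vanishes on a part of the inertia group. -/
theorem coc_iner (h2 : (2 : k) ≠ 0) (hl : l.Prime) (hζ : IsPrimitiveRoot ζ l)
    (hK : ∀ s : Ω ≃ₐ[K] Ω, s ζ = ζ) (hS : Std l ζ NN w sg ph)
    (hka : ∃ M ∈ NN, ∀ s ∈ M, a s = 1)
    (hx : ∀ s ∈ dec K (w v), ∀ t ∈ dec K (w v), x (s * t) = x s + a s (x t))
    (hUn : U.Normal) (hUo : IsOpen (U : Set (Ω ≃ₐ[K] Ω)))
    (hxU : ∀ s ∈ dec K (w v), ∀ u ∈ U, u ∈ dec K (w v) → x (s * u) = x s) :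
    ∃ N ∈ NN, ∀ σ ∈ iner K (w v), σ ∈ N → x σ = 0 := by
  have : Fact l.Prime := ⟨hl⟩
  obtain ⟨m, hm, N, hN, h⟩ := iner_level h2 hl hζ hK hS v hUn hUo
  obtain ⟨M, hM, hMa⟩ := hka
  refine ⟨N ⊓ M, hS.fam.inf_mem N hN M hM, fun σ hσ hσN => ?_⟩
  have hone := Lev_one hx
  have h3 : ∀ n : ℕ, x (σ ^ n) = n • x σ := by
    intro n
    induction n with
    | zero => rw [pow_zero, hone, zero_smul]
    | succ n ih =>
      rw [pow_succ, hx _ (pow_mem hσ.1 n) _ hσ.1, ih, hMa _ (M.pow_mem hσN.2 n), succ_nsmul]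
      rfl
  have h4 : x (σ ^ m) = 0 := by
    have h5 := hxU 1 (one_mem _) _ (h σ hσ hσN.1) (pow_mem hσ.1 m)
    rw [one_mul, hone] at h5
    exact h5
  rw [h3, ← Nat.cast_smul_eq_nsmul (ZMod l)] at h4
  have hu : IsUnit (m : ZMod l) := (ZMod.isUnit_iff_coprime m l).2 hm
  exact (hu.smul_eq_zero).1 h4

omit [Algebra.IsSeparable (RatFunc k) K] in
/-- A cocycle is determined by its pair of values. -/
theorem coc_zero (h2 : (2 : k) ≠ 0) (hl : l.Prime) (hζ : IsPrimitiveRoot ζ l)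
    (hK : ∀ s : Ω ≃ₐ[K] Ω, s ζ = ζ) (hS : Std l ζ NN w sg ph)
    (hka : ∃ M ∈ NN, ∀ s ∈ M, a s = 1)
    (hx : ∀ s ∈ dec K (w v), ∀ t ∈ dec K (w v), x (s * t) = x s + a s (x t))
    (hUn : U.Normal) (hUo : IsOpen (U : Set (Ω ≃ₐ[K] Ω)))
    (hxU : ∀ s ∈ dec K (w v), ∀ u ∈ U, u ∈ dec K (w v) → x (s * u) = x s)
    (hsg : x (sg v) = 0) (hph : x (ph v) = 0) : ∀ s ∈ dec K (w v), x s = 0 := by
  have hgal : IsGalois K Ω := inferInstance
  obtain ⟨N, hN, h⟩ := coc_iner h2 hl hζ hK hS hka hx hUn hUo hxU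
  have hsgi := hS.loc.iner v
  have hphd := (hS.frob v).mem
  have hsgn : ∀ n : ℕ, x (sg v ^ n) = 0 := fun n => by
    rw [Lev_nrm hx hsgi.1, hsg, map_zero]
  have hphn : ∀ n : ℕ, x (ph v ^ n) = 0 := fun n => by
    rw [Lev_nrm hx hphd, hph, map_zero]
  have hin : ∀ σ ∈ iner K (w v), x σ = 0 := by
    intro σ hσ
    obtain ⟨n, hn⟩ := hS.igen v N hN σ hσ
    have h3 : (sg v ^ n)⁻¹ * σ ∈ iner K (w v) := mul_mem (inv_mem (pow_mem hsgi n)) hσ
    have h4 := hx _ (pow_mem hsgi.1 n) _ h3.1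
    rw [mul_inv_cancel_left, hsgn, h _ h3 hn, map_zero, add_zero] at h4
    exact h4
  intro s hs
  obtain ⟨F, hF, hFU⟩ := exists_fix_le hUo
  have hfin : Finite (ResidueField (below K (w v))) := by
    obtain ⟨π, hπ⟩ := IsDiscreteValuationRing.exists_irreducible v.ring
    exact (locHyp_of_below h2 v (w v) (hS.loc.below v) hπ).fin
  obtain ⟨n, ι, hι, h1⟩ := fin_gen (hS.frob v) F hs
  have hιd : ι * ph v ^ n ∈ dec K (w v) := mul_mem hι.1 (pow_mem hphd n)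
  have h3 : (ι * ph v ^ n)⁻¹ * s ∈ U := by
    apply hFU
    intro y hy
    rw [AlgEquiv.mul_apply, h1 y hy, ← AlgEquiv.mul_apply ι, ← AlgEquiv.mul_apply, inv_mul_cancel,
      AlgEquiv.one_apply]
  have h4 := hxU _ hιd _ h3 (mul_mem (inv_mem hιd) hs)
  rw [mul_inv_cancel_left, hx _ hι.1 _ (pow_mem hphd n), hin ι hι, hphn, map_zero, add_zero] at h4
  exact h4

omit [Algebra.IsSeparable (RatFunc k) K] in
/-- The relation between the values. -/
theorem coc_rel (h2 : (2 : k) ≠ 0) (hl : l.Prime) (hζ : IsPrimitiveRoot ζ l)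
    (hK : ∀ s : Ω ≃ₐ[K] Ω, s ζ = ζ) (hS : Std l ζ NN w sg ph)
    (hka : ∃ M ∈ NN, ∀ s ∈ M, a s = 1)
    (hx : ∀ s ∈ dec K (w v), ∀ t ∈ dec K (w v), x (s * t) = x s + a s (x t))
    (hUn : U.Normal) (hUo : IsOpen (U : Set (Ω ≃ₐ[K] Ω)))
    (hxU : ∀ s ∈ dec K (w v), ∀ u ∈ U, u ∈ dec K (w v) → x (s * u) = x s) :
    rel (bK NN w sg ph) a v (loc (bK NN w sg ph) v x) = 0 := by
  obtain ⟨N, hN, h⟩ := coc_iner h2 hl hζ hK hS hka hx hUn hUo hxU
  have hsgi := hS.loc.iner v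
  have hphd := (hS.frob v).mem
  set q := Nat.card k ^ v.degree with hq
  set n := (sg v ^ q * ph v)⁻¹ * (ph v * sg v) with hn
  have hnτ : n = (ph v)⁻¹ * ((sg v ^ q)⁻¹ * (ph v * sg v * (ph v)⁻¹)) * (ph v)⁻¹⁻¹ := by
    rw [hn]
    group
  have hni : n ∈ iner K (w v) := by
    rw [hnτ]
    exact iner_conj (inv_mem hphd) (mul_mem (inv_mem (pow_mem hsgi q)) (iner_conj hphd hsgi))
  have hnN : n ∈ N := by
    rw [hnτ]
    exact (hS.fam.normal N hN).conj_mem _ (hS.loc.rel v N hN) (ph v)⁻¹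
  have hD : sg v ^ q * ph v ∈ dec K (w v) := mul_mem (pow_mem hsgi.1 q) hphd
  have h3 := hx _ hD _ hni.1
  rw [hn, mul_inv_cancel_left, ← hn, h n hni hnN, map_zero, add_zero,
    hx _ hphd _ hsgi.1, hx _ (pow_mem hsgi.1 q) _ hphd, Lev_nrm hx hsgi.1, map_pow] at h3
  rw [rel_apply]
  change a (ph v) (x (sg v)) - nrm (a (sg v)) q (x (sg v)) +
    (x (ph v) - (a (sg v) ^ q : V1 ≃ₗ[ZMod l] V1) (x (ph v))) = 0
  rw [sub_add_sub_comm, add_comm (a (ph v) (x (sg v))), h3, sub_self]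

omit [Algebra.IsSeparable (RatFunc k) K] in
/-- **The level of a cocycle.** -/
theorem tfOn_of_open (h2 : (2 : k) ≠ 0) (hl : l.Prime) (hζ : IsPrimitiveRoot ζ l)
    (hK : ∀ s : Ω ≃ₐ[K] Ω, s ζ = ζ) (hS : Std l ζ NN w sg ph)
    (hka : ∃ M ∈ NN, ∀ s ∈ M, a s = 1)
    (hcp : ∀ y : V1 × V1, rel (bK NN w sg ph) a v y = 0 → y ∈ CP (bK NN w sg ph) a v)
    (hx : ∀ s ∈ dec K (w v), ∀ t ∈ dec K (w v), x (s * t) = x s + a s (x t))
    (hUn : U.Normal) (hUo : IsOpen (U : Set (Ω ≃ₐ[K] Ω)))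
    (hxU : ∀ s ∈ dec K (w v), ∀ u ∈ U, u ∈ dec K (w v) → x (s * u) = x s) :
    (bK NN w sg ph).TFOn (dec K (w v)) x := by
  obtain ⟨c, ⟨⟨M, hM, hc⟩, hc2⟩, hcx⟩ := hcp _ (coc_rel h2 hl hζ hK hS hka hx hUn hUo hxU)
  have hMn := hS.fam.normal M hM
  have h0 := coc_zero (x := fun s => x s - c s) (U := U ⊓ M) h2 hl hζ hK hS hka
    (fun s hs t ht => by
      have h3 := hc2 s hs t ht
      rw [hx s hs t ht, h3, map_sub]
      abel) inferInstance
    (by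
      rw [Subgroup.coe_inf]
      exact hUo.inter (hS.fam.isOpen M hM))
    (fun s hs u hu hud => by
      rw [hxU s hs u hu.1 hud, hc s hs u hu.2 hud])
    (sub_eq_zero.2 (congrArg Prod.fst hcx).symm) (sub_eq_zero.2 (congrArg Prod.snd hcx).symm)
  refine ⟨M, hM, fun s hs n hn hnd => ?_⟩
  rw [sub_eq_zero.1 (h0 _ (mul_mem hs hnd)), sub_eq_zero.1 (h0 s hs)]
  exact hc s hs n hn hnd

end coc

end Pool.Agent.SmS
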