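import Pool.Agent.Lib.SmS.VM
import Pool.Agent.Lib.SmL.Ar.Fields

/-!
# SMITH-S, section 11: the instance of `Sys`

`ModS D B a e io T`: the properties of the `G`-module `J` (with the automorphism `sig` of `D`) relative to
the groups `B`, the action `a` and the pairing `e` on `V1`, the embedding `io` of `V1` with
image the kernel of `1 - sig`, and the finite set `T` of the bad places. `sysS` is the structure
`Sys`, `okS`: it satisfies `Sys.Ok`.
-/

set_option autoImplicit false

open Finset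

namespace Pool.Agent.SmS

open Pool.Agent.SmL Pool.Agent.SmL.V

variable {l : ℕ} {G J V1 Pl : Type*} [Group G] [AddCommGroup J] [DistribMulAction G J]
  [AddCommGroup V1] [Module (ZMod l) V1]

/-- The properties of `J` relative to the groups. -/
structure ModS (D : AutM l G J) (B : Ar.Bs G Pl) (a : G →* (V1 ≃ₗ[ZMod l] V1))
    (e : V1 →ₗ[ZMod l] V1 →ₗ[ZMod l] ZMod l) (io : V1 →+ J) (T : Finset Pl) : Prop where
  /-- `J` is divisible by `1 - sig` -/
  div : ∀ Q : J, ∃ R, R - D.sig R = Q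
  inj : Function.Injective io
  fix : ∀ w, D.sig (io w) = io w
  range : ∀ Q : J, D.sig Q = Q → ∃ w, io w = Q
  ac : ∀ s w, s • io w = io (a s w)
  act_fin : ∀ n : ℕ, ∃ N ∈ B.NN, ∀ s ∈ N, ∀ Q : J, l ^ n • Q = 0 → s • Q = Q
  good_triv : ∀ v ∉ T, ∀ Q : J, (∃ n : ℕ, l ^ n • Q = 0) → B.sg v • Q = Q
  fin_inv : ∀ chi : G → ZMod l, B.TF chi → (∀ s t, chi (s * t) = chi s + chi t) → ∀ v,
    {Q : J | (∃ n : ℕ, l ^ n • Q = 0) ∧ ∀ s ∈ B.D v, chi s = 0 → s • Q = Q}.Finite
  /-- isotropy of the local Kummer groups -/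
  isot : ∀ chi : G → ZMod l, B.TF chi → (∀ s t, chi (s * t) = chi s + chi t) → ∀ v,
    ∀ (Q Q' : J) (x x' : G → V1), (∃ n : ℕ, l ^ n • Q = 0) → (∃ n : ℕ, l ^ n • Q' = 0) →
    (∀ s ∈ B.D v, (⇑D.sig)^[(chi s).val] (s • Q) - Q = io (x s)) →
    (∀ s ∈ B.D v, (⇑D.sig)^[(chi s).val] (s • Q') - Q' = io (x' s)) →
    B.inv v (fun s t => e (x s) (a s (x' t))) = 0

theorem l_zero (w : V1) : l • w = 0 := by
  rw [← Nat.cast_smul_eq_nsmul (ZMod l), ZMod.natCast_self, zero_smul]

/-- The embedding of `V1`. -/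
noncomputable def ioV (D : AutM l G J) (io : V1 →+ J) : V1 →+ VV D where
  toFun w := VV.mk (Q := io w) ⟨1, by rw [pow_one, ← map_nsmul, l_zero, map_zero]⟩
  map_zero' := VV.val_inj (map_zero io)
  map_add' w w' := VV.val_inj (map_add io w w')

theorem val_ioV (D : AutM l G J) (io : V1 →+ J) (w : V1) : VV.val D (ioV D io w) = io w := rfl

/-- The instance of `Sys`. -/
noncomputable def sysS [NeZero l] (D : AutM l G J) (B : Ar.Bs G Pl)
    (a : G →* (V1 ≃ₗ[ZMod l] V1)) (e : V1 →ₗ[ZMod l] V1 →ₗ[ZMod l] ZMod l) (io : V1 →+ J)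
    (T : Finset Pl) : Sys l (AA l) G (VV D) V1 Pl where
  ze := zeta l
  se := 1
  NN := B.NN
  D := B.D
  phi := B.ph
  sg := B.sg
  iota := ioV D io
  ac := a
  e := e
  sy := fun v => (⟨a, a, e⟩ : Ar.DP l G V1 V1).sy B v
  inv := fun v => B.inv v
  good := {v | v ∉ T}

section

variable {D : AutM l G J} {B : Ar.Bs G Pl} {a : G →* (V1 ≃ₗ[ZMod l] V1)}
  {e : V1 →ₗ[ZMod l] V1 →ₗ[ZMod l] ZMod l} {io : V1 →+ J} {T : Finset Pl}

/-- An element fixed by `sig` is killed by `l`. -/
theorem l_of_fix {Q : J} (h : D.sig Q = Q) : l • Q = 0 := by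
  have h1 : ∀ k : ℕ, (⇑D.sig)^[k] Q = Q := fun k => Function.iterate_fixed h k
  have h2 := D.sum Q
  simpa only [h1, sum_const, card_range] using h2

theorem val_zz [NeZero l] (c : ZMod l) (Q : VV D) :
    VV.val D ((sysS D B a e io T).zz c • Q) = (⇑D.sig)^[c.val] (VV.val D Q) :=
  VV.zeta_pow_smul _ _

theorem val_tw [NeZero l] (chi : G → ZMod l) (s : G) (Q : VV D) :
    VV.val D ((sysS D B a e io T).tw chi s Q) = (⇑D.sig)^[(chi s).val] (s • VV.val D Q) :=
  val_zz (B := B) (a := a) (e := e) (io := io) (T := T) (chi s) (s • Q)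

theorem val_dl [NeZero l] (chi : G → ZMod l) (s : G) (Q : VV D) :
    VV.val D ((sysS D B a e io T).dl chi Q s) =
      (⇑D.sig)^[(chi s).val] (s • VV.val D Q) - VV.val D Q := by
  unfold Sys.dl
  rw [map_sub, val_tw]

/-- The link with the arithmetic of `V1`. -/
theorem lnkS [NeZero l] (hB : B.Ok l) (hP : (⟨a, a, e⟩ : Ar.DP l G V1 V1).Ok B)
    (he : ∀ w w', e w w' = e w' w) (hM : ModS D B a e io T) : Ar.Lnk (sysS D B a e io T) B.q where
  ok := hB
  inv _ _ := rfl
  sy _ := rfl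
  se_eq := Or.inl rfl
  e_symm w w' := by
    change e w w' = 1 * e w' w
    rw [one_mul, he]
  dok := hP
  good v hv := by
    refine LinearEquiv.ext fun x => hM.inj ?_
    change io (a (B.sg v) x) = io x
    rw [← hM.ac]
    exact hM.good_triv v hv _ ⟨1, by rw [pow_one, ← map_nsmul, l_zero, map_zero]⟩

/-- `J` is divisible by `1 - sig`, so is `V`. -/
theorem halfS [NeZero l] (hM : ModS D B a e io T) (Q : VV D) : ∃ R : VV D, (1 - zeta l) • R = Q := by
  obtain ⟨R, hR⟩ := hM.div (VV.val D Q)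
  obtain ⟨n, hn⟩ := VV.val_tors Q
  have h1 : D.sig (l ^ n • R) = l ^ n • R := by
    rw [← hR, smul_sub, sub_eq_zero] at hn
    rw [map_nsmul, hn]
  have h2 : l ^ (n + 1) • R = 0 := by
    rw [pow_succ, mul_comm, mul_smul]
    exact l_of_fix h1
  refine ⟨VV.mk ⟨n + 1, h2⟩, VV.val_inj ?_⟩
  rw [VV.lam_smul]
  exact hR

/-- Each element of `V` is killed by a power of `1 - ze`. -/
theorem torsS [hl : Fact l.Prime] (Q : VV D) : ∃ j : ℕ, (1 - zeta l) ^ j • Q = 0 := by
  obtain ⟨n, hn⟩ := VV.val_tors Q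
  have h1 : l ^ n • Q = 0 := by
    apply VV.val_inj
    rw [map_nsmul, hn, map_zero]
  exact ⟨n * (l - 1), lam_of_l (A := AA l) (ze := zeta l) VV.norm_smul h1⟩

/-- `V[lam ^ j]` is in `V[l ^ j]`. -/
theorem lS [hl : Fact l.Prime] {j : ℕ} {Q : VV D} (hQ : (1 - zeta l) ^ j • Q = 0) :
    l ^ j • VV.val D Q = 0 := by
  have h2 : l ^ j • Q = 0 := by
    apply l_of_lam (A := AA l) (ze := zeta l) VV.norm_smul
    have h3 : j ≤ j * (l - 1) :=
      Nat.le_mul_of_pos_right j (by have := hl.out.two_le; omega)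
    obtain ⟨r, hr⟩ := Nat.exists_eq_add_of_le h3
    rw [hr, pow_add, mul_comm, mul_smul, hQ, smul_zero]
  rw [← map_nsmul, h2, map_zero]

/-- The invariants are finite. -/
theorem finS [NeZero l] (hM : ModS D B a e io T) (chi : G → ZMod l)
    (hchi : (sysS D B a e io T).HomG chi) (v : Pl) :
    {Q : VV D | ∀ s ∈ B.D v, (sysS D B a e io T).dl chi Q s = 0}.Finite := by
  have h0 := (hM.fin_inv chi hchi.1 hchi.2 v).preimage
    ((VV.val_inj (D := D)).injOn (s := ⇑(VV.val D) ⁻¹' {Q : J | (∃ n : ℕ, l ^ n • Q = 0) ∧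
      ∀ s ∈ B.D v, chi s = 0 → s • Q = Q}))
  refine h0.subset ?_
  intro Q hQ
  refine ⟨VV.val_tors Q, fun s hs h0 => ?_⟩
  have h2 : (sysS D B a e io T).dl chi Q s = 0 := hQ s hs
  have h1 := congrArg (VV.val D) h2
  rw [val_dl, h0, ZMod.val_zero, map_zero, sub_eq_zero] at h1
  exact h1

/-- The isotropy. -/
theorem isotS [NeZero l] (hB : B.Ok l) (hP : (⟨a, a, e⟩ : Ar.DP l G V1 V1).Ok B)
    (he : ∀ w w', e w w' = e w' w) (hM : ModS D B a e io T) :
    ∀ chi : G → ZMod l, (sysS D B a e io T).HomG chi → ∀ v,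
    ∀ x ∈ (sysS D B a e io T).Wl chi v, ∀ y ∈ (sysS D B a e io T).Wl chi v,
    (sysS D B a e io T).sy v x y = 0 := by
  classical
  intro chi hchi v
  have hlam : (sysS D B a e io T).lam = 1 - zeta l := rfl
  have key : ∀ x ∈ (sysS D B a e io T).Wl chi v, ∃ (Q : J) (c : G → V1), (∃ n : ℕ, l ^ n • Q = 0) ∧
      (∀ s ∈ B.D v, (⇑D.sig)^[(chi s).val] (s • Q) - Q = io (c s)) ∧
      (sysS D B a e io T).CocV v c ∧ (sysS D B a e io T).loc v c = x := by
    rintro x ⟨Q, hQ, hx1, hx2⟩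
    have h1 : ∀ s ∈ B.D v, ∃ w, io w = (⇑D.sig)^[(chi s).val] (s • VV.val D Q) - VV.val D Q := by
      intro s hs
      have h2 := hQ s hs
      rw [hlam] at h2
      have h3 := congrArg (VV.val D) h2
      rw [VV.lam_smul, map_zero, sub_eq_zero, val_dl] at h3
      exact hM.range _ h3.symm
    choose! c hc using h1
    refine ⟨VV.val D Q, c, VV.val_tors Q, fun s hs => (hc s hs).symm, ⟨?_, ?_⟩, ?_⟩
    · obtain ⟨n, hn⟩ := VV.val_tors Q
      obtain ⟨N, hN, h2⟩ := hM.act_fin n
      obtain ⟨N', hN', h3⟩ := hchi.1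
      refine ⟨N ⊓ N', hB.inf_mem N hN N' hN', fun s hs m hm hm' => hM.inj ?_⟩
      rw [hc _ (mul_mem hs hm'), hc s hs, h3 s m hm.2, mul_smul, h2 m hm.1 _ hn]
    · intro s hs t ht
      apply hM.inj
      rw [hc _ (mul_mem hs ht), map_add, hc s hs]
      change _ = _ + io (a s (c t))
      have h4 : io (a s (c t)) = (⇑D.sig)^[(chi s).val] (s • io (c t)) := by
        rw [hM.ac]
        exact (Function.iterate_fixed (hM.fix _) _).symm
      rw [h4, hc t ht, smul_sub, iterate_map_sub D.sig, D.comm_iter, ← mul_smul,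
        ← Function.iterate_add_apply, hchi.2 s t, ZMod.val_add, D.iter_mod]
      abel
    · refine Prod.ext (hM.inj ?_) (hM.inj ?_)
      · change io (c (B.sg v)) = io x.1
        rw [hc _ (hB.sg_mem v)]
        have h5 := congrArg (VV.val D) hx1
        rw [val_dl] at h5
        exact h5
      · change io (c (B.ph v)) = io x.2
        rw [hc _ (hB.ph_mem v)]
        have h5 := congrArg (VV.val D) hx2
        rw [val_dl] at h5
        exact h5
  intro x hx y hy
  obtain ⟨Q, c, hQ, h1, h2, rfl⟩ := key x hx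
  obtain ⟨Q', c', hQ', h1', h2', rfl⟩ := key y hy
  rw [← Ar.f_inv_sy (lnkS hB hP he hM) v c c' h2 h2']
  exact hM.isot chi hchi.1 hchi.2 v Q Q' c c' hQ hQ' h1 h1'

/-- **The instance satisfies `Sys.Ok`.** -/
theorem okS [NeZero l] (hB : B.Ok l) (hR : B.Rec2 l) (hG : (⟨a, a, e⟩ : Ar.DP l G V1 V1).Gd B)
    (he : ∀ w w', e w w' = e w' w) (hM : ModS D B a e io T) (hC : Ar.CorrT B a T) :
    (sysS D B a e io T).Ok := by
  have hl : Fact l.Prime := ⟨hB.prime⟩
  have hL := lnkS hB hG.ok he hM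
  exact
    { prime := hB.prime
      odd := hB.odd
      ze_pow := zeta_pow_l
      smul_comm := VV.g_comm
      top_mem := hB.top_mem
      inf_mem := hB.inf_mem
      normal := hB.normal
      phi_mem := hB.ph_mem
      sg_mem := hB.sg_mem
      gen := hB.gen
      frob := fun v N hN => ⟨B.q v, hB.q_one v, hB.rel v N hN⟩
      fin1 := hG.ok.fin
      se_eq := Or.inl rfl
      e_symm := hL.e_symm
      e_nondeg := fun w hw => hG.ok.nd w hw
      e_inv := fun s w w' => hG.ok.inv s w w'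
      iota_inj := fun w w' h => hM.inj (congrArg (VV.val D) h)
      lam_iota := fun w => VV.val_inj (by
        change VV.val D ((1 - zeta l) • ioV D io w) = 0
        rw [VV.lam_smul, val_ioV, hM.fix, sub_self])
      iota_range := fun Q hQ => by
        have h1 := congrArg (VV.val D) hQ
        change VV.val D ((1 - zeta l) • Q) = 0 at h1
        rw [VV.lam_smul, sub_eq_zero] at h1
        obtain ⟨w, hw⟩ := hM.range _ h1.symm
        exact ⟨w, VV.val_inj hw⟩
      iota_ac := fun s w => by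
        change s • ioV D io w = ioV D io (a s w)
        apply VV.val_inj
        rw [VV.val_g, val_ioV, val_ioV, hM.ac]
      half := halfS hM
      tors := torsS
      act_fin := fun j => by
        obtain ⟨N, hN, h1⟩ := hM.act_fin j
        refine ⟨N, hN, fun s hs Q hQ => ?_⟩
        apply VV.val_inj
        rw [VV.val_g, h1 s hs _ (lS hQ)]
      unr := hB.unr
      good_fin := by
        refine (Finset.finite_toSet T).subset fun v hv => ?_
        by_contra h1
        exact hv h1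
      good_triv := fun v hv Q => by
        change B.sg v • Q = Q
        apply VV.val_inj
        rw [VV.val_g, hM.good_triv v hv _ (VV.val_tors Q)]
      hasse := Ar.f_hasse hL hG
      sy_comm := Ar.f_sy_comm hL
      sy_cob := Ar.f_sy_cob hL
      sy_unr := Ar.f_sy_unr hL
      sy_split := Ar.f_sy_split hL
      inv_congr := Ar.f_inv_congr hL
      inv_add := Ar.f_inv_add hL
      inv_cob := Ar.f_inv_cob hL
      inv_sy := Ar.f_inv_sy hL
      inv_unr := Ar.f_inv_unr hL
      recip2 := Ar.f_recip2 hL hR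
      recip := Ar.f_recip hL hR
      corr := fun w hw hv => by
        obtain ⟨c, hc, h1⟩ := hC w hw hv
        exact ⟨c, hc, h1⟩
      dual := Ar.f_dual hL hR hG
      fin_inv := finS hM
      isot := isotS hB hG.ok he hM }

end

end Pool.Agent.SmS
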