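import Pool.Agent.Lib.SmS.V1
import Pool.Agent.Lib.SmS.VFld
import Pool.Agent.Lib.SmS.Gal
import Pool.Agent.Lib.SmS.Div

/-!
# SMITH-S, section 11: the Jacobian of `y ^ l = ∏ (x - a i)` as a Galois module

The `a i ∈ Ω` are permuted by `Gal(Ω/K)` (`RtS K a`), `pmS K a s` is the permutation of the indices. `JS l K a` is
the group `JJ l (ff a)` with the action `gS` of `Gal(Ω/K)`, `autS` = its structure `AutM` given by a
root of unity `ζ ∈ K`.
-/

set_option autoImplicit false

open Polynomial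

namespace Pool.Agent.SmS

/-- The standing hypotheses: the `a i ∈ Ω` are distinct and permuted by the Galois group. -/
class RtS (K : Type) {Ω : Type} [Field K] [Field Ω] [Algebra K Ω] {n : ℕ}
    (a : Fin n → Ω) : Prop where
  inj : Function.Injective a
  perm : ∀ (s : Ω ≃ₐ[K] Ω) (i : Fin n), ∃ j, s (a i) = a j

variable (K : Type) {Ω : Type} [Field K] [Field Ω] [Algebra K Ω] {n : ℕ} (a : Fin n → Ω)

/-- The permutation of the indices. -/
noncomputable def pmS [RtS K a] : (Ω ≃ₐ[K] Ω) →* Equiv.Perm (Fin n) where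
  toFun s := Equiv.ofBijective (fun i => (RtS.perm (a := a) s i).choose) (by
    have hinj : Function.Injective fun i => (RtS.perm (a := a) s i).choose := by
      intro i j h
      have h1 := (RtS.perm (a := a) s i).choose_spec
      have h2 := (RtS.perm (a := a) s j).choose_spec
      apply RtS.inj K (a := a)
      apply s.injective
      rw [h1, h2]
      exact congrArg a h
    exact Finite.injective_iff_bijective.mp hinj)
  map_one' := by
    ext i
    congr 1
    apply RtS.inj K (a := a)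
    exact (RtS.perm (a := a) (1 : Ω ≃ₐ[K] Ω) i).choose_spec.symm
  map_mul' s t := by
    ext i
    congr 1
    apply RtS.inj K (a := a)
    have h1 := (RtS.perm (a := a) (s * t) i).choose_spec
    have h2 := (RtS.perm (a := a) t i).choose_spec
    have h3 := (RtS.perm (a := a) s (RtS.perm (a := a) t i).choose).choose_spec
    change a (RtS.perm (a := a) (s * t) i).choose =
      a (RtS.perm (a := a) s (RtS.perm (a := a) t i).choose).choose
    rw [← h1, ← h3, ← h2]
    rfl

theorem pmS_spec [RtS K a] (s : Ω ≃ₐ[K] Ω) (i : Fin n) : a (pmS K a s i) = s (a i) :=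
  (RtS.perm (a := a) s i).choose_spec.symm

theorem map_ffS [RtS K a] (s : Ω ≃ₐ[K] Ω) :
    (ff a).map ((s : Ω ≃+* Ω) : Ω →+* Ω) = ff a := by
  rw [ff, Polynomial.map_prod]
  rw [← Equiv.prod_comp (pmS K a s) fun i => (X - C (a i) : Polynomial Ω)]
  refine Finset.prod_congr rfl fun i _ => ?_
  rw [Polynomial.map_sub, map_X, map_C, pmS_spec K a s i]
  rfl

/-- The roots of a polynomial over `K`. -/
theorem rtS_of {f : K[X]} (hinj : Function.Injective a) (hfa : fO Ω f = ff a) : RtS K a where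
  inj := hinj
  perm s i := by
    have h1 : (ff a).eval (s (a i)) = 0 := by
      rw [← hfa, ← map_gal f s]
      change (Polynomial.map _ _).eval (((s : Ω ≃+* Ω) : Ω →+* Ω) (a i)) = 0
      rw [eval_map_apply, hfa, ff_eval, Finset.prod_eq_zero (Finset.mem_univ i) (sub_self _),
        map_zero]
    rw [ff_eval, Finset.prod_eq_zero_iff] at h1
    obtain ⟨j, -, hj⟩ := h1
    exact ⟨j, sub_eq_zero.mp hj⟩

section jac

variable (l : ℕ) [Fact l.Prime] [SupA l a] [IsSepClosed Ω] [RtS K a]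

/-- The action on the Jacobian. -/
noncomputable def gS (s : Ω ≃ₐ[K] Ω) : JJ l (ff a) →+ JJ l (ff a) :=
  act (s : Ω ≃+* Ω) (map_ffS K a s) 1 (one_pow l)

variable {l}

theorem act_congr {F : Type} [Field F] {f : F[X]} [CopDeg l f] [IsDedekindDomain (Co l f)]
    {s t : F ≃+* F} (e : s = t) (hs : f.map (s : F →+* F) = f) (ht : f.map (t : F →+* F) = f)
    {u v : F} (e' : u = v) (hu : u ^ l = 1) (hv : v ^ l = 1) (Q : JJ l f) :
    act s hs u hu Q = act t ht v hv Q := by
  subst e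
  subst e'
  rfl

theorem gS_one (Q : JJ l (ff a)) : gS K a l 1 Q = Q := by
  have h1 := zact_pow (f := ff a) (one_pow l : (1 : Ω) ^ l = 1) 0 Q
  rw [Function.iterate_zero, id_eq] at h1
  refine Eq.trans ?_ h1.symm
  exact act_congr (RingEquiv.ext fun x => rfl) _ _ (pow_zero (1 : Ω)).symm _ _ Q

theorem gS_mul (s t : Ω ≃ₐ[K] Ω) (Q : JJ l (ff a)) :
    gS K a l (s * t) Q = gS K a l s (gS K a l t Q) := by
  change act _ _ _ _ Q = act _ _ _ _ (act _ _ _ _ Q)
  rw [act_act]
  refine act_congr (RingEquiv.ext fun x => rfl) _ _ ?_ _ _ Q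
  rw [map_one, mul_one]

/-- `ζ ∈ K`. -/
theorem gS_zact {ζ : Ω} (hz : ζ ^ l = 1) (hK : ∀ s : Ω ≃ₐ[K] Ω, s ζ = ζ) (s : Ω ≃ₐ[K] Ω)
    (Q : JJ l (ff a)) : gS K a l s (zact hz Q) = zact hz (gS K a l s Q) := by
  change act _ _ _ _ (act _ _ _ _ Q) = act _ _ _ _ (act _ _ _ _ Q)
  rw [act_act, act_act]
  refine act_congr (RingEquiv.ext fun x => rfl) _ _ ?_ _ _ Q
  rw [map_one, mul_one, one_mul]
  exact hK s

theorem gS_ee (s : Ω ≃ₐ[K] Ω) (i : Fin n) : gS K a l s (ee l a i) = ee l a (pmS K a s i) := by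
  change act _ _ _ _ (br l a i).cl = (br l a (pmS K a s i)).cl
  rw [act_cl]
  congr 1
  ext
  · exact (pmS_spec K a s i).symm
  · change 1 * s 0 = 0
    rw [map_zero, mul_zero]

theorem gS_io (s : Ω ≃ₐ[K] Ω) (w : V0 l n) :
    gS K a l s (io l a w) = io l a (ac0 l (pmS K a) s w) := by
  rw [io_apply, io_apply, map_sum]
  refine Fintype.sum_equiv (pmS K a s) _ _ fun i => ?_
  rw [map_nsmul, gS_ee, ac0_apply, inv_ap]

/-- The twisted action is the iterate of `zact`. -/
theorem zact_gS {ζ : Ω} (hz : ζ ^ l = 1) (k : ℕ) (s : Ω ≃ₐ[K] Ω) (Q : JJ l (ff a)) :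
    (zact hz)^[k] (gS K a l s Q) = act (s : Ω ≃+* Ω) (map_ffS K a s) (ζ ^ k) (zpow_pow hz k) Q := by
  rw [zact_pow]
  change act _ _ _ _ (act _ _ _ _ Q) = act _ _ _ _ Q
  rw [act_act]
  refine act_congr (RingEquiv.ext fun x => rfl) _ _ ?_ _ _ Q
  rw [map_one, mul_one]

/-- Every class is defined over a finite extension. -/
theorem gS_level [Algebra.IsAlgebraic K Ω] [SmChar l (ff a)] (Q : JJ l (ff a)) :
    ∃ L : IntermediateField K Ω, FiniteDimensional K L ∧
      ∀ s t : Ω ≃ₐ[K] Ω, (∀ x ∈ L, s x = t x) → gS K a l s Q = gS K a l t Q := by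
  induction Q using jac_induction with
  | h0 => exact ⟨⊥, inferInstance, fun s t _ => by rw [map_zero, map_zero]⟩
  | h1 P =>
    refine ⟨IntermediateField.adjoin K {P.x, P.y}, ?_, fun s t hst => ?_⟩
    · exact IntermediateField.finiteDimensional_adjoin fun x _ =>
        (Algebra.IsAlgebraic.isAlgebraic (R := K) x).isIntegral
    · have hx : s P.x = t P.x := hst _ (IntermediateField.subset_adjoin K _ (by simp))
      have hy : s P.y = t P.y := hst _ (IntermediateField.subset_adjoin K _ (by simp))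
      change act _ _ _ _ P.cl = act _ _ _ _ P.cl
      rw [act_cl, act_cl]
      congr 1
      ext
      · exact hx
      · change 1 * s P.y = 1 * t P.y
        rw [hy]
  | h2 x y hx hy =>
    obtain ⟨L, hL, h1⟩ := hx
    obtain ⟨L', hL', h2⟩ := hy
    refine ⟨L ⊔ L', inferInstance, fun s t hst => ?_⟩
    rw [map_add, map_add, h1 s t fun z hz => hst z ((le_sup_left : L ≤ L ⊔ L') hz),
      h2 s t fun z hz => hst z ((le_sup_right : L' ≤ L ⊔ L') hz)]

/-- Transport: for `f : K[X]` with roots `a` the action is `galS`. -/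
theorem gS_transport {f : K[X]} (hfa : fO Ω f = ff a) [Sup l (fO Ω f)]
    (P : ∀ (M : Type) [AddCommGroup M], ((Ω ≃ₐ[K] Ω) → M →+ M) → Prop)
    (h : P (JJ l (fO Ω f)) (galS l f)) : P (JJ l (ff a)) (gS K a l) := by
  have key : ∀ (G : Polynomial Ω) (_ : fO Ω f = G) (i1 : CopDeg l G) (i2 : IsDedekindDomain (Co l G))
      (hs : ∀ s : Ω ≃ₐ[K] Ω, G.map ((s : Ω ≃+* Ω) : Ω →+* Ω) = G),
      P (JJ l G) (fun s => act (s : Ω ≃+* Ω) (hs s) 1 (one_pow l)) := by
    rintro G rfl i1 i2 hs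
    exact h
  exact key (ff a) hfa inferInstance inferInstance (map_ffS K a)

variable (l) in
/-- The Jacobian with the action of the Galois group. -/
def JS (l : ℕ) [Fact l.Prime] (K : Type) {Ω : Type} [Field K] [Field Ω] [Algebra K Ω] {n : ℕ}
    (a : Fin n → Ω) [SupA l a] [RtS K a] : Type := JJ l (ff a)

noncomputable instance : AddCommGroup (JS l K a) := inferInstanceAs (AddCommGroup (JJ l (ff a)))

noncomputable instance : DistribMulAction (Ω ≃ₐ[K] Ω) (JS l K a) where
  smul s Q := gS K a l s Q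
  one_smul Q := gS_one K a Q
  mul_smul s t Q := gS_mul K a s t Q
  smul_zero s := map_zero (gS K a l s)
  smul_add s P Q := map_add (gS K a l s) P Q

theorem smul_JS (s : Ω ≃ₐ[K] Ω) (Q : JS l K a) : s • Q = (gS K a l s Q : JJ l (ff a)) := rfl

/-- The structure given by the root of unity `ζ ∈ K`. -/
noncomputable def autS {ζ : Ω} (hz : IsPrimitiveRoot ζ l) (hK : ∀ s : Ω ≃ₐ[K] Ω, s ζ = ζ)
    [SmChar l (ff a)] : AutM l (Ω ≃ₐ[K] Ω) (JS l K a) where
  sig := (zact hz.pow_eq_one : JJ l (ff a) →+ JJ l (ff a))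
  comm s Q := gS_zact K a hz.pow_eq_one hK s Q
  sum Q := by
    refine Eq.trans (Finset.sum_congr rfl fun k _ => ?_) (sum_zact hz (Q : JJ l (ff a)))
    exact zact_pow hz.pow_eq_one k Q

theorem sig_autS {ζ : Ω} (hz : IsPrimitiveRoot ζ l) (hK : ∀ s : Ω ≃ₐ[K] Ω, s ζ = ζ)
    [SmChar l (ff a)] : (autS K a hz hK).sig = (zact hz.pow_eq_one : JJ l (ff a) →+ JJ l (ff a)) :=
  rfl

end jac

end Pool.Agent.SmS
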