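import Pool.Agent.Lib.SmS.V1

/-!
# SMITH-S, section 11: the permutation groups for which the method works

`PermOk l π`: the image of `π : G → Perm (Fin n)` is the full symmetric group, or it is doubly transitive
and its order is prime to `l`. `PermOk.trans`, `PermOk.nofix`, `PermOk.span` (`F_l[G]` is onto
`End V1 × F_l`), `PermOk.znd` (the first cohomology of the image with values in `V1` is zero).
-/

set_option autoImplicit false

open Finset

namespace Pool.Agent.SmS

variable {l n : ℕ} {G : Type*} [Group G] (π : G →* Equiv.Perm (Fin n))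

/-- The image is doubly transitive. -/
def DT : Prop := ∀ i j i' j', i ≠ j → i' ≠ j' → ∃ s, π s i = i' ∧ π s j = j'

/-- The image is the full symmetric group, or doubly transitive of order prime to `l`. -/
def PermOk (l : ℕ) : Prop := Function.Surjective π ∨ (¬ l ∣ Nat.card π.range ∧ DT π)

variable {π}

theorem exists_ne_fin (h2 : 2 ≤ n) (i : Fin n) : ∃ j, i ≠ j := by
  have : Nontrivial (Fin n) := Fin.nontrivial_iff_two_le.2 h2
  obtain ⟨j, hj⟩ := exists_ne i
  exact ⟨j, hj.symm⟩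

theorem DT.trans (h : DT π) (h2 : 2 ≤ n) (i j : Fin n) : ∃ s, π s i = j := by
  obtain ⟨i', hi'⟩ := exists_ne_fin h2 i
  obtain ⟨j', hj'⟩ := exists_ne_fin h2 j
  obtain ⟨s, hs, -⟩ := h i i' j j' hi' hj'
  exact ⟨s, hs⟩

theorem PermOk.trans (h : PermOk π l) (h2 : 2 ≤ n) (i j : Fin n) : ∃ s, π s i = j := by
  rcases h with h | h
  · obtain ⟨s, hs⟩ := h (Equiv.swap i j)
    exact ⟨s, by rw [hs, Equiv.swap_apply_left]⟩
  · exact h.2.trans h2 i j

theorem PermOk.nofix [Fact l.Prime] (hn : (n : ZMod l) ≠ 0) (h : PermOk π l) (h2 : 2 ≤ n)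
    (w : V0 l n) (hw : ∀ s : G, ac0 l π s w = w) : w = 0 := nofix0 π hn (h.trans h2) w hw

/-- The kernel of the action on `V1` acts trivially on `Fin n`. -/
theorem faith0 [Fact l.Prime] (hl2 : l ≠ 2) {s : G} (h : ac0 l π s = 1) : π s = 1 := by
  have h1 : (1 : ZMod l) ≠ -1 := by
    intro h3
    have h4 : ((2 : ℕ) : ZMod l) = 0 := by
      have h5 : (1 : ZMod l) + 1 = 0 := by
        nth_rewrite 2 [h3]
        rw [add_neg_cancel]
      rw [← h5]
      norm_num
    rw [ZMod.natCast_eq_zero_iff] at h4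
    exact hl2 ((Nat.prime_dvd_prime_iff_eq Fact.out Nat.prime_two).1 h4)
  refine Equiv.ext fun i => ?_
  rw [Equiv.Perm.one_apply]
  by_contra hi
  -- compare at `i` the vectors `s (e_i - e_{s i})` and `e_i - e_{s i}`
  have h2 := congrArg (fun z : V0 l n => z.1 i) (LinearEquiv.congr_fun h (vv l i (π s i)))
  change (vv l i (π s i)).1 ((π s)⁻¹ i) = (vv l i (π s i)).1 i at h2
  rw [vv_apply, vv_apply, if_pos rfl, if_neg (show ¬ i = π s i from fun h3 => hi h3.symm),
    sub_zero] at h2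
  by_cases h3 : (π s)⁻¹ i = i
  · apply hi
    conv_lhs => rw [← h3]
    rw [ap_inv]
  · rw [if_neg h3, zero_sub] at h2
    by_cases h4 : (π s)⁻¹ i = π s i
    · rw [if_pos h4] at h2
      exact h1 h2.symm
    · rw [if_neg h4, neg_zero] at h2
      exact zero_ne_one h2

/-! ### The order is prime to `l` -/

section cop

variable [Fact l.Prime]

theorem card_ne (hc : ¬ l ∣ Nat.card π.range) : ((Nat.card π.range : ℕ) : ZMod l) ≠ 0 := by
  rwa [Ne, ZMod.natCast_eq_zero_iff]

/-- A cocycle of the image. -/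
theorem coc_congr {c : G → V0 l n} (hc : ∀ s t, c (s * t) = c s + ac0 l π s (c t))
    (h0 : ∀ s, ac0 l π s = 1 → c s = 0) {s t : G} (h : π s = π t) : c s = c t := by
  have h1 : ac0 l π (s⁻¹ * t) = 1 := by
    refine LinearEquiv.ext fun w => ?_
    ext i
    rw [ac0_apply, map_mul, map_inv, h, inv_mul_cancel, inv_one]
    rfl
  have h2 := hc s (s⁻¹ * t)
  rw [mul_inv_cancel_left, h0 _ h1, map_zero, add_zero] at h2
  exact h2.symm

/-- A preimage of an element of the image. -/
noncomputable def pre (h : π.range) : G := (MonoidHom.mem_range.1 h.2).choose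

theorem pi_pre (h : π.range) : π (pre h) = h.1 := (MonoidHom.mem_range.1 h.2).choose_spec

theorem znd_cop (hd : ¬ l ∣ Nat.card π.range) {c : G → V0 l n}
    (hc : ∀ s t, c (s * t) = c s + ac0 l π s (c t)) (h0 : ∀ s, ac0 l π s = 1 → c s = 0) :
    ∃ z : V0 l n, ∀ s, c s = ac0 l π s z - z := by
  classical
  have hm := card_ne hd
  have : Fintype π.range := Fintype.ofFinite _
  set m : ZMod l := ((Nat.card π.range : ℕ) : ZMod l) with hmdef
  have h1 : ∀ s, ∑ h : π.range, c (pre h) = m • c s + ac0 l π s (∑ h : π.range, c (pre h)) := by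
    intro s
    have h2 : ∑ h : π.range, c (pre h) = ∑ h : π.range, c (s * pre h) := by
      rw [← Equiv.sum_comp (Equiv.mulLeft (⟨π s, s, rfl⟩ : π.range)) fun h => c (pre h)]
      refine sum_congr rfl fun h _ => coc_congr hc h0 ?_
      rw [pi_pre, map_mul, pi_pre]
      rfl
    conv_lhs => rw [h2]
    rw [sum_congr rfl fun h _ => hc s (pre h), sum_add_distrib, sum_const, card_univ,
      ← map_sum, hmdef, Nat.card_eq_fintype_card, Nat.cast_smul_eq_nsmul]
  refine ⟨-(m⁻¹ • ∑ h : π.range, c (pre h)), fun s => ?_⟩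
  have h3 : m • c s = ∑ h : π.range, c (pre h) - ac0 l π s (∑ h : π.range, c (pre h)) := by
    conv_rhs => arg 1; rw [h1 s]
    rw [add_sub_cancel_right]
  have h4 : c s = m⁻¹ • (m • c s) := by rw [smul_smul, inv_mul_cancel₀ hm, one_smul]
  rw [h4, h3, map_neg, map_smul, smul_sub]
  abel

/-! ### Double transitivity -/

section dt

open scoped Classical in
/-- The number of `h` in the image with `h j = j'`, `h k = i`. -/
noncomputable def TT (π : G →* Equiv.Perm (Fin n)) (l : ℕ) (j k j' i : Fin n) : ZMod l :=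
  ∑ᶠ h : π.range, if h.1 j = j' ∧ h.1 k = i then 1 else 0

variable [Fintype π.range]

open scoped Classical in
theorem TT_eq (j k j' i : Fin n) :
    TT π l j k j' i = ∑ h : π.range, if h.1 j = j' ∧ h.1 k = i then 1 else 0 := by
  rw [TT, finsum_eq_sum_of_fintype]

theorem TT_right (s : G) (j k j' i : Fin n) : TT π l (π s j) (π s k) j' i = TT π l j k j' i := by
  classical
  rw [TT_eq, TT_eq]
  exact Equiv.sum_comp (Equiv.mulRight (⟨π s, s, rfl⟩ : π.range)) fun h : π.range =>
    if h.1 j = j' ∧ h.1 k = i then (1 : ZMod l) else 0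

theorem TT_left (s : G) (j k j' i : Fin n) : TT π l j k (π s j') (π s i) = TT π l j k j' i := by
  classical
  rw [TT_eq, TT_eq, ← Equiv.sum_comp (Equiv.mulLeft (⟨π s, s, rfl⟩ : π.range))]
  refine sum_congr rfl fun h _ => if_congr ?_ rfl rfl
  change π s (h.1 j) = π s j' ∧ π s (h.1 k) = π s i ↔ _
  rw [(π s).injective.eq_iff, (π s).injective.eq_iff]

theorem TT_diag {k j' i : Fin n} (h : j' ≠ i) : TT π l k k j' i = 0 := by
  classical
  rw [TT_eq]
  exact sum_eq_zero fun x _ => if_neg fun hx => h (hx.1.symm.trans hx.2)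

theorem TT_diag' {j k i : Fin n} (h : j ≠ k) : TT π l j k i i = 0 := by
  classical
  rw [TT_eq]
  exact sum_eq_zero fun x _ => if_neg fun hx => h (x.1.injective (hx.1.trans hx.2.symm))

theorem TT_sum (j k i : Fin n) : ∑ j', TT π l j k j' i = TT π l k k i i := by
  classical
  simp only [TT_eq]
  rw [sum_comm]
  refine sum_congr rfl fun h _ => ?_
  by_cases h1 : h.1 k = i
  · rw [if_pos ⟨h1, h1⟩]
    have h2 : ∀ j', (if h.1 j = j' ∧ h.1 k = i then (1 : ZMod l) else 0) =
        if h.1 j = j' then 1 else 0 := fun j' => if_congr (and_iff_left h1) rfl rfl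
    rw [sum_congr rfl fun j' _ => h2 j', sum_ite_eq univ, if_pos (mem_univ _)]
  · rw [if_neg fun h2 => h1 h2.1]
    exact sum_eq_zero fun j' _ => if_neg fun h2 => h1 h2.2

theorem TT_total (k : Fin n) : ∑ i, TT π l k k i i = ((Nat.card π.range : ℕ) : ZMod l) := by
  classical
  simp only [TT_eq]
  rw [sum_comm]
  have h2 : ∀ h : π.range, ∑ i, (if h.1 k = i ∧ h.1 k = i then (1 : ZMod l) else 0) = 1 := by
    intro h
    have h3 : ∀ i, (if h.1 k = i ∧ h.1 k = i then (1 : ZMod l) else 0) =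
        if h.1 k = i then 1 else 0 := fun i => if_congr (and_self_iff) rfl rfl
    rw [sum_congr rfl fun i _ => h3 i, sum_ite_eq univ, if_pos (mem_univ _)]
  rw [sum_congr rfl fun h _ => h2 h, sum_const, card_univ, nsmul_eq_mul, mul_one,
    Nat.card_eq_fintype_card]

/-- The values of `TT` for a doubly transitive image of order prime to `l`. -/
theorem TT_val (h2 : 2 ≤ n) (hdt : DT π) (hd : ¬ l ∣ Nat.card π.range) :
    ∃ c1 c2 : ZMod l, c1 + c2 ≠ 0 ∧ ∀ j k j' i, TT π l j k j' i =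
      c2 * ((1 - if j = k then 1 else 0) * (1 - if j' = i then 1 else 0)) +
        c1 * ((if j = k then 1 else 0) * (if j' = i then 1 else 0)) := by
  classical
  have hm := card_ne hd
  obtain ⟨a, -⟩ : ∃ i : Fin n, True := ⟨⟨0, by omega⟩, trivial⟩
  obtain ⟨b, hab⟩ := exists_ne_fin h2 a
  have e1 : ∀ k i, TT π l k k i i = TT π l a a a a := by
    intro k i
    obtain ⟨s, hs⟩ := hdt.trans h2 a k
    obtain ⟨t, ht⟩ := hdt.trans h2 a i
    rw [← hs, ← ht, TT_right, TT_left]
  have e2 : ∀ j k j' i, j ≠ k → j' ≠ i → TT π l j k j' i = TT π l a b a b := by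
    intro j k j' i h h'
    obtain ⟨s, hs, hs'⟩ := hdt a b j k hab h
    obtain ⟨t, ht, ht'⟩ := hdt a b j' i hab h'
    rw [← hs, ← hs', ← ht, ← ht', TT_right, TT_left]
  have e3 : TT π l a a a a = (n - 1 : ZMod l) * TT π l a b a b := by
    have h3 := TT_sum (π := π) (l := l) a b b
    rw [e1 b b] at h3
    rw [← h3]
    have h4 : ∀ j', TT π l a b j' b =
        TT π l a b a b - if j' = b then TT π l a b a b else 0 := by
      intro j'
      by_cases h5 : j' = b
      · rw [if_pos h5, sub_self, h5, TT_diag' hab]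
      · rw [if_neg h5, sub_zero, e2 _ _ _ _ hab h5]
    rw [sum_congr rfl fun j' _ => h4 j', sum_sub_distrib, sum_const, card_univ,
      Fintype.card_fin, nsmul_eq_mul, sum_ite_eq' univ b, if_pos (mem_univ _)]
    ring
  have e4 : (n : ZMod l) * TT π l a a a a = ((Nat.card π.range : ℕ) : ZMod l) := by
    rw [← TT_total (π := π) (l := l) a, sum_congr rfl fun i _ => e1 a i, sum_const, card_univ,
      Fintype.card_fin, nsmul_eq_mul]
  refine ⟨TT π l a a a a, TT π l a b a b, fun h => hm ?_, fun j k j' i => ?_⟩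
  · rw [← e4, e3]
    rw [e3] at h
    have h5 : (n : ZMod l) * TT π l a b a b = 0 := by
      rw [← h]
      ring
    rw [show (n : ZMod l) * ((n - 1 : ZMod l) * TT π l a b a b) =
      (n - 1 : ZMod l) * (n * TT π l a b a b) by ring, h5, mul_zero]
  · by_cases h3 : j = k
    · subst h3
      by_cases h4 : j' = i
      · subst h4
        rw [if_pos rfl, if_pos rfl, e1]
        ring
      · rw [if_pos rfl, if_neg h4, TT_diag h4]
        ring
    · by_cases h4 : j' = i
      · subst h4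
        rw [if_neg h3, if_pos rfl, TT_diag' h3]
        ring
      · rw [if_neg h3, if_neg h4, e2 _ _ _ _ h3 h4]
        ring

theorem sum_ind (w : V0 l n) (i : Fin n) : ∑ j, w.1 j * (1 - if j = i then 1 else 0) = -w.1 i := by
  classical
  have h : ∀ j, w.1 j * (1 - if j = i then 1 else 0) = w.1 j - if j = i then w.1 j else 0 :=
    fun j => by rw [mul_sub, mul_one, mul_ite, mul_one, mul_zero]
  rw [sum_congr rfl fun j _ => h j, sum_sub_distrib, v0_sum, sum_ite_eq' univ i,
    if_pos (mem_univ _), zero_sub]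

/-- `∑ h, e(u, h⁻¹ v) h w = (c1 + c2) e(u, w) v`. -/
theorem orth (h2 : 2 ≤ n) (hdt : DT π) (hd : ¬ l ∣ Nat.card π.range) :
    ∃ c : ZMod l, c ≠ 0 ∧ ∀ u v w : V0 l n,
      ∑ h : π.range, e0 l n u (prm l h.1⁻¹ v) • prm l h.1 w = (c * e0 l n u w) • v := by
  classical
  obtain ⟨c1, c2, hc, hT⟩ := TT_val h2 hdt hd
  refine ⟨c1 + c2, hc, fun u v w => ?_⟩
  ext i
  have h3 : (∑ h : π.range, e0 l n u (prm l h.1⁻¹ v) • prm l h.1 w : V0 l n).1 i =
      ∑ h : π.range, (∑ j, u.1 j * v.1 (h.1 j)) * w.1 (h.1⁻¹ i) := by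
    rw [Submodule.coe_sum, Finset.sum_apply]
    refine sum_congr rfl fun h _ => ?_
    change (∑ j, u.1 j * (prm l h.1⁻¹ v).1 j) * (prm l h.1 w).1 i = _
    rw [prm_apply]
    congr 1
  rw [h3]
  have h4 : ∀ h : π.range, (∑ j, u.1 j * v.1 (h.1 j)) * w.1 (h.1⁻¹ i) =
      ∑ j, ∑ k, ∑ j', u.1 j * w.1 k * v.1 j' * (if h.1 j = j' ∧ h.1 k = i then 1 else 0) := by
    intro h
    rw [sum_mul]
    refine sum_congr rfl fun j _ => ?_
    have h5 : ∀ k, ∑ j', u.1 j * w.1 k * v.1 j' * (if h.1 j = j' ∧ h.1 k = i then 1 else 0) =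
        if k = h.1⁻¹ i then u.1 j * w.1 k * v.1 (h.1 j) else 0 := by
      intro k
      by_cases h6 : h.1 k = i
      · rw [if_pos (show k = h.1⁻¹ i by rw [← h6, inv_ap])]
        have h7 : ∀ j', u.1 j * w.1 k * v.1 j' *
            (if h.1 j = j' ∧ h.1 k = i then (1 : ZMod l) else 0) =
            if h.1 j = j' then u.1 j * w.1 k * v.1 j' else 0 := by
          intro j'
          rw [mul_ite, mul_one, mul_zero]
          exact if_congr (and_iff_left h6) rfl rfl
        rw [sum_congr rfl fun j' _ => h7 j', sum_ite_eq univ, if_pos (mem_univ _)]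
      · rw [if_neg fun h7 => h6 (by rw [h7, ap_inv])]
        exact sum_eq_zero fun j' _ => by rw [if_neg fun h7 => h6 h7.2, mul_zero]
    rw [sum_congr rfl fun k _ => h5 k, sum_ite_eq' univ, if_pos (mem_univ _)]
    ring
  rw [sum_congr rfl fun h _ => h4 h, sum_comm]
  have h8 : ∀ j, ∑ h : π.range, ∑ k, ∑ j', u.1 j * w.1 k * v.1 j' *
      (if h.1 j = j' ∧ h.1 k = i then (1 : ZMod l) else 0) =
      ∑ k, ∑ j', u.1 j * w.1 k * v.1 j' * TT π l j k j' i := by
    intro j
    rw [sum_comm]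
    refine sum_congr rfl fun k _ => ?_
    rw [sum_comm]
    refine sum_congr rfl fun j' _ => ?_
    rw [← mul_sum, TT_eq]
  rw [sum_congr rfl fun j _ => h8 j]
  simp only [hT]
  have h9 : ∀ j k, ∑ j', u.1 j * w.1 k * v.1 j' *
      (c2 * ((1 - if j = k then 1 else 0) * (1 - if j' = i then 1 else 0)) +
        c1 * ((if j = k then 1 else 0) * (if j' = i then 1 else 0))) =
      (-(c2 * v.1 i)) * (u.1 j * (w.1 k * (1 - if k = j then 1 else 0))) +
        (c1 * v.1 i) * (if k = j then u.1 j * w.1 k else 0) := by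
    intro j k
    have h10 : ∀ j', u.1 j * w.1 k * v.1 j' *
      (c2 * ((1 - if j = k then 1 else 0) * (1 - if j' = i then 1 else 0)) +
        c1 * ((if j = k then 1 else 0) * (if j' = i then 1 else 0))) =
        (c2 * (u.1 j * (w.1 k * (1 - if k = j then 1 else 0)))) *
          (v.1 j' * (1 - if j' = i then 1 else 0)) +
        (if j' = i then (c1 * v.1 j') * (if k = j then u.1 j * w.1 k else 0) else 0) := by
      intro j'
      simp only [eq_comm (a := j) (b := k)]
      split_ifs <;> ring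
    rw [sum_congr rfl fun j' _ => h10 j', sum_add_distrib, ← mul_sum, sum_ind,
      sum_ite_eq' univ i, if_pos (mem_univ _)]
    ring
  simp only [h9, sum_add_distrib, ← mul_sum]
  have h11 : ∑ j, u.1 j * ∑ k, w.1 k * (1 - if k = j then 1 else 0) = -(e0 l n u w) := by
    rw [e0_apply, ← sum_neg_distrib]
    refine sum_congr rfl fun j _ => ?_
    rw [sum_ind]
    ring
  have h12 : ∑ j, ∑ k, (if k = j then u.1 j * w.1 k else 0) = e0 l n u w := by
    rw [e0_apply]
    refine sum_congr rfl fun j _ => ?_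
    rw [sum_ite_eq' univ j, if_pos (mem_univ _)]
  rw [h11, h12]
  change _ = ((c1 + c2) * e0 l n u w) * v.1 i
  ring

/-- The sum of the `h v` is zero. -/
theorem sum_prm (h2 : 2 ≤ n) (hdt : DT π) (v : V0 l n) :
    ∑ h : π.range, prm l h.1⁻¹ v = 0 := by
  classical
  ext j
  rw [Submodule.coe_sum, Finset.sum_apply]
  change ∑ h : π.range, v.1 (h.1⁻¹⁻¹ j) = 0
  simp only [inv_inv]
  have h3 : ∀ h : π.range, v.1 (h.1 j) =
      ∑ j', v.1 j' * (if h.1 j = j' ∧ h.1 j = j' then 1 else 0) := by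
    intro h
    have h4 : ∀ j', v.1 j' * (if h.1 j = j' ∧ h.1 j = j' then (1 : ZMod l) else 0) =
        if h.1 j = j' then v.1 j' else 0 := fun j' => by
      rw [mul_ite, mul_one, mul_zero]
      exact if_congr and_self_iff rfl rfl
    rw [sum_congr rfl fun j' _ => h4 j', sum_ite_eq univ, if_pos (mem_univ _)]
  rw [sum_congr rfl fun h _ => h3 h, sum_comm]
  have h5 : ∀ j', ∑ h : π.range, v.1 j' * (if h.1 j = j' ∧ h.1 j = j' then (1 : ZMod l) else 0) =
      TT π l j j j j * v.1 j' := by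
    intro j'
    rw [← mul_sum, ← TT_eq, mul_comm]
    congr 1
    obtain ⟨s, hs⟩ := hdt.trans h2 j j'
    conv_lhs => rw [← hs]
    exact TT_left s j j j j
  rw [sum_congr rfl fun j' _ => h5 j', ← mul_sum, v0_sum, mul_zero]

end dt

/-- From the rank one operators to everything. -/
theorem top_of_rk (hl2 : l ≠ 2) (hn : (n : ZMod l) ≠ 0)
    (W : Submodule (ZMod l) ((V0 l n →ₗ[ZMod l] V0 l n) × ZMod l))
    (h1 : (LinearMap.id, (1 : ZMod l)) ∈ W) (h4' : ∀ i j k m, (rk l i j k m, (0 : ZMod l)) ∈ W) :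
    W = ⊤ := by
  have h4 : ∀ B : V0 l n →ₗ[ZMod l] V0 l n, (B, (0 : ZMod l)) ∈ W := by
    intro B
    have h5 : Submodule.span (ZMod l) (Set.range fun x : Fin n × Fin n × Fin n × Fin n =>
        rk l x.1 x.2.1 x.2.2.1 x.2.2.2) ≤
        W.comap (LinearMap.inl (ZMod l) (V0 l n →ₗ[ZMod l] V0 l n) (ZMod l)) := by
      rw [Submodule.span_le]
      rintro _ ⟨⟨i, j, k, m⟩, rfl⟩
      exact h4' i j k m
    exact h5 (rk_span hl2 hn B)
  rw [eq_top_iff]
  rintro ⟨B, ε⟩ -
  have h5 := W.add_mem (h4 (B - ε • LinearMap.id)) (W.smul_mem ε h1)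
  have h6 : ((B - ε • LinearMap.id, (0 : ZMod l)) : (V0 l n →ₗ[ZMod l] V0 l n) × ZMod l) +
      ε • (LinearMap.id, (1 : ZMod l)) = (B, ε) := by
    refine Prod.ext (LinearMap.ext fun w => ?_) ?_
    · change (B w - ε • w) + ε • w = B w
      rw [sub_add_cancel]
    · change (0 : ZMod l) + ε * 1 = ε
      rw [zero_add, mul_one]
  rw [h6] at h5
  exact h5

theorem span_dt_top (hl2 : l ≠ 2) (hn : (n : ZMod l) ≠ 0) (h2 : 2 ≤ n) (hdt : DT π)
    (hd : ¬ l ∣ Nat.card π.range) :
    Submodule.span (ZMod l) (Set.range fun g : G =>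
      (((ac0 l π g : V0 l n →ₗ[ZMod l] V0 l n), (1 : ZMod l)) :
        (V0 l n →ₗ[ZMod l] V0 l n) × ZMod l)) = ⊤ := by
  classical
  have : Fintype π.range := Fintype.ofFinite _
  set W := Submodule.span (ZMod l) (Set.range fun g : G =>
      (((ac0 l π g : V0 l n →ₗ[ZMod l] V0 l n), (1 : ZMod l)) :
        (V0 l n →ₗ[ZMod l] V0 l n) × ZMod l)) with hW
  have hg : ∀ g : G, (((ac0 l π g : V0 l n →ₗ[ZMod l] V0 l n), (1 : ZMod l)) :
        (V0 l n →ₗ[ZMod l] V0 l n) × ZMod l) ∈ W := fun g => Submodule.subset_span ⟨g, rfl⟩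
  refine top_of_rk hl2 hn W ?_ fun i j k m => ?_
  · have h3 := hg 1
    rw [map_one] at h3
    exact h3
  obtain ⟨c, hc, ho⟩ := orth (l := l) h2 hdt hd
  have h4 : (c⁻¹ • ∑ h : π.range, e0 l n (vv l i j) (prm l h.1⁻¹ (vv l k m)) •
      ((prm l h.1, (1 : ZMod l)) : (V0 l n →ₗ[ZMod l] V0 l n) × ZMod l)) ∈ W := by
    refine W.smul_mem _ (W.sum_mem fun h _ => W.smul_mem _ ?_)
    have h5 := hg (pre h)
    have h6 : (ac0 l π (pre h) : V0 l n →ₗ[ZMod l] V0 l n) = prm l h.1 := by
      refine LinearMap.ext fun w => ?_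
      ext x
      change w.1 ((π (pre h))⁻¹ x) = w.1 (h.1⁻¹ x)
      rw [pi_pre]
    rw [h6] at h5
    exact h5
  have h7 : (c⁻¹ • ∑ h : π.range, e0 l n (vv l i j) (prm l h.1⁻¹ (vv l k m)) •
      ((prm l h.1, (1 : ZMod l)) : (V0 l n →ₗ[ZMod l] V0 l n) × ZMod l)) =
      (rk l i j k m, 0) := by
    refine Prod.ext (LinearMap.ext fun w => ?_) ?_
    · rw [Prod.smul_fst, Prod.fst_sum, LinearMap.smul_apply, LinearMap.sum_apply]
      have h8 := ho (vv l i j) (vv l k m) w
      have h9 : ∑ h : π.range, (e0 l n (vv l i j) (prm l h.1⁻¹ (vv l k m)) •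
          ((prm l h.1, (1 : ZMod l)) : (V0 l n →ₗ[ZMod l] V0 l n) × ZMod l)).1 w =
          ∑ h : π.range, e0 l n (vv l i j) (prm l h.1⁻¹ (vv l k m)) • prm l h.1 w :=
        sum_congr rfl fun h _ => rfl
      rw [h9, h8, smul_smul, ← mul_assoc, inv_mul_cancel₀ hc, one_mul, rk_apply, e0_symm, e0_vv]
    · rw [Prod.smul_snd, Prod.snd_sum]
      have h9 : ∑ h : π.range, (e0 l n (vv l i j) (prm l h.1⁻¹ (vv l k m)) •
          ((prm l h.1, (1 : ZMod l)) : (V0 l n →ₗ[ZMod l] V0 l n) × ZMod l)).2 =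
          e0 l n (vv l i j) (∑ h : π.range, prm l h.1⁻¹ (vv l k m)) := by
        rw [map_sum]
        refine sum_congr rfl fun h _ => ?_
        change e0 l n (vv l i j) (prm l h.1⁻¹ (vv l k m)) * 1 = _
        rw [mul_one]
      rw [h9, sum_prm h2 hdt, map_zero, smul_zero]
  rw [← h7]
  exact h4

end cop

/-! ### The symmetric group -/

section sym

variable [Fact l.Prime]

/-- Cocycles of the symmetric group with values in `V0`. -/
theorem sym_cob (hl2 : l ≠ 2) (hn : (n : ZMod l) ≠ 0) (b : Equiv.Perm (Fin n) → V0 l n)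
    (hb : ∀ σ τ, b (σ * τ) = b σ + prm l σ (b τ)) : ∃ z : V0 l n, ∀ σ, b σ = prm l σ z - z := by
  have h2 : ∀ x : ZMod l, x = -x → x = 0 := by
    intro x hx
    have h4 : ((2 : ℕ) : ZMod l) * x = 0 := by
      push_cast
      rw [two_mul]
      nth_rewrite 1 [hx]
      rw [neg_add_cancel]
    refine (mul_eq_zero.1 h4).resolve_left fun h5 => ?_
    rw [ZMod.natCast_eq_zero_iff] at h5
    exact hl2 ((Nat.prime_dvd_prime_iff_eq Fact.out Nat.prime_two).1 h5)
  have hb' : ∀ σ τ i, (b (σ * τ)).1 i = (b σ).1 i + (b τ).1 (σ⁻¹ i) := fun σ τ i => by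
    rw [hb]
    rfl
  have h1 : b 1 = 0 := by
    have h3 := hb 1 1
    have h4 : prm l 1 (b 1) = b 1 := by
      ext i
      rfl
    rw [mul_one, h4] at h3
    exact left_eq_add.1 h3
  -- the transpositions
  have hs : ∀ i j x, (b (Equiv.swap i j)).1 (Equiv.swap i j x) = -(b (Equiv.swap i j)).1 x := by
    intro i j x
    have h3 := hb' (Equiv.swap i j) (Equiv.swap i j) (Equiv.swap i j x)
    rw [Equiv.swap_mul_self, h1, Equiv.swap_inv, Equiv.swap_apply_self] at h3
    exact eq_neg_of_add_eq_zero_left h3.symm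
  have hs0 : ∀ i j x, x ≠ i → x ≠ j → (b (Equiv.swap i j)).1 x = 0 := by
    intro i j x hi hj
    have h3 := hs i j x
    rw [Equiv.swap_apply_of_ne_of_ne hi hj] at h3
    exact h2 _ h3
  set β : Fin n → Fin n → ZMod l := fun i j => (b (Equiv.swap i j)).1 i with hβ
  have hβj : ∀ i j, (b (Equiv.swap i j)).1 j = -β i j := by
    intro i j
    have h3 := hs i j i
    rw [Equiv.swap_apply_left] at h3
    exact h3
  have hβs : ∀ i j, β j i = -β i j := by
    intro i j
    rw [← hβj, hβ]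
    change (b (Equiv.swap j i)).1 j = _
    rw [Equiv.swap_comm]
  have hβ0 : ∀ i, β i i = 0 := by
    intro i
    rw [hβ]
    change (b (Equiv.swap i i)).1 i = 0
    rw [Equiv.swap_self]
    change (b 1).1 i = 0
    rw [h1]
    rfl
  have hβt : ∀ i j k, i ≠ j → j ≠ k → i ≠ k → β i k = β i j + β j k := by
    intro i j k hij hjk hik
    have h3 : Equiv.swap i j * Equiv.swap j k * Equiv.swap i j = Equiv.swap i k := by
      have h4 := Equiv.swap_mul_swap_mul_swap (x := k) (y := j) (z := i) hjk.symm hik.symm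
      rw [Equiv.swap_comm j i, Equiv.swap_comm k j] at h4
      exact h4
    have h4 : (b (Equiv.swap i k)).1 k = -β j k + -β i j := by
      rw [← h3, hb', hb', hs0 i j k hik.symm hjk.symm, zero_add, Equiv.swap_inv,
        Equiv.swap_apply_of_ne_of_ne hik.symm hjk.symm, hβj, mul_inv_rev, Equiv.Perm.mul_apply,
        Equiv.swap_inv, Equiv.swap_inv, Equiv.swap_apply_of_ne_of_ne hik.symm hjk.symm,
        Equiv.swap_apply_right, hβj]
    rw [hβj] at h4
    have h5 := congrArg (fun x => -x) h4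
    simp only [neg_neg, neg_add] at h5
    rw [h5, add_comm]
  rcases isEmpty_or_nonempty (Fin n) with hE | ⟨⟨a⟩⟩
  · exact ⟨0, fun σ => Subtype.ext (funext fun i => (hE.false i).elim)⟩
  have hz : ∀ i j, β i j = β a j - β a i := by
    intro i j
    by_cases hij : i = j
    · rw [hij, hβ0, sub_self]
    by_cases hi : a = i
    · rw [← hi, hβ0, sub_zero]
    by_cases hj : a = j
    · rw [← hj, hβ0, zero_sub, hβs]
    · rw [hβt a i j hi hij hj]
      abel
  set z := p0 l n hn (β a) with hzdef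
  have hzz : ∀ i j, z.1 j - z.1 i = β i j := by
    intro i j
    rw [hzdef, p0_apply, p0_apply, hz i j]
    abel
  refine ⟨z, fun σ => ?_⟩
  induction σ using Equiv.Perm.swap_induction_on with
  | one =>
    rw [h1]
    ext i
    change 0 = z.1 i - z.1 i
    rw [sub_self]
  | swap_mul σ i j hij ih =>
    rw [hb, ih, map_sub]
    have h3 : b (Equiv.swap i j) = prm l (Equiv.swap i j) z - z := by
      ext x
      change (b (Equiv.swap i j)).1 x = z.1 ((Equiv.swap i j)⁻¹ x) - z.1 x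
      rw [Equiv.swap_inv]
      by_cases hxi : x = i
      · subst hxi
        rw [Equiv.swap_apply_left, hzz]
      by_cases hxj : x = j
      · subst hxj
        rw [Equiv.swap_apply_right, hβj, ← hzz i x]
        abel
      · rw [Equiv.swap_apply_of_ne_of_ne hxi hxj, sub_self, hs0 i j x hxi hxj]
    have h4 : prm l (Equiv.swap i j * σ) z = prm l (Equiv.swap i j) (prm l σ z) := by
      ext x
      change z.1 ((Equiv.swap i j * σ)⁻¹ x) = z.1 (σ⁻¹ ((Equiv.swap i j)⁻¹ x))
      rw [mul_inv_rev, Equiv.Perm.mul_apply]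
    rw [h3, h4]
    abel

theorem znd_sym (hl2 : l ≠ 2) (hn : (n : ZMod l) ≠ 0) (hπ : Function.Surjective π) {c : G → V0 l n}
    (hc : ∀ s t, c (s * t) = c s + ac0 l π s (c t)) (h0 : ∀ s, ac0 l π s = 1 → c s = 0) :
    ∃ z : V0 l n, ∀ s, c s = ac0 l π s z - z := by
  choose g hg using hπ
  obtain ⟨z, hz⟩ := sym_cob hl2 hn (fun σ => c (g σ)) fun σ τ => by
    have h1 : c (g (σ * τ)) = c (g σ * g τ) :=
      coc_congr hc h0 (by rw [hg, map_mul, hg, hg])
    rw [h1, hc]
    congr 1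
    ext i
    change (c (g τ)).1 ((π (g σ))⁻¹ i) = (c (g τ)).1 (σ⁻¹ i)
    rw [hg]
  refine ⟨z, fun s => ?_⟩
  have h1 := hz (π s)
  change c (g (π s)) = prm l (π s) z - z at h1
  rw [coc_congr hc h0 (show π (g (π s)) = π s from hg _)] at h1
  exact h1

end sym

section main

variable [Fact l.Prime]

/-- The first cohomology of the image with values in `V0` is zero. -/
theorem PermOk.znd (hl2 : l ≠ 2) (hn : (n : ZMod l) ≠ 0) (h : PermOk π l) {c : G → V0 l n}
    (hc : ∀ s t, c (s * t) = c s + ac0 l π s (c t)) (h0 : ∀ s, ac0 l π s = 1 → c s = 0) :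
    ∃ z : V0 l n, ∀ s, c s = ac0 l π s z - z := by
  rcases h with h | h
  · exact znd_sym hl2 hn h hc h0
  · exact znd_cop h.1 hc h0

theorem PermOk.span_top (hl2 : l ≠ 2) (hn : (n : ZMod l) ≠ 0) (h2 : 2 ≤ n) (h : PermOk π l) :
    Submodule.span (ZMod l) (Set.range fun g : G =>
      (((ac0 l π g : V0 l n →ₗ[ZMod l] V0 l n), (1 : ZMod l)) :
        (V0 l n →ₗ[ZMod l] V0 l n) × ZMod l)) = ⊤ := by
  rcases h with h | h
  · exact span0_top π hl2 hn h
  · exact span_dt_top hl2 hn h2 h.2 h.1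

/-- The form of `AOk.span`. -/
theorem PermOk.span (hl2 : l ≠ 2) (hn : (n : ZMod l) ≠ 0) (h2 : 2 ≤ n) (h' : PermOk π l)
    (B : V0 l n →ₗ[ZMod l] V0 l n) (ε : ZMod l) :
    ∃ U : G →₀ ZMod l, (∀ w, ∑ g ∈ U.support, U g • ac0 l π g w = B w) ∧
      ∑ g ∈ U.support, U g = ε := by
  have h : (B, ε) ∈ Submodule.span (ZMod l) (Set.range fun g : G =>
      (((ac0 l π g : V0 l n →ₗ[ZMod l] V0 l n), (1 : ZMod l)) :
        (V0 l n →ₗ[ZMod l] V0 l n) × ZMod l)) := by
    rw [h'.span_top hl2 hn h2]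
    exact Submodule.mem_top
  rw [Finsupp.mem_span_range_iff_exists_finsupp] at h
  obtain ⟨U, hU⟩ := h
  rw [Finsupp.sum] at hU
  refine ⟨U, fun w => ?_, ?_⟩
  · have h1 := congrArg (fun z : (V0 l n →ₗ[ZMod l] V0 l n) × ZMod l => z.1 w) hU
    change (∑ g ∈ U.support, U g • (((ac0 l π g : V0 l n →ₗ[ZMod l] V0 l n), (1 : ZMod l)) :
        (V0 l n →ₗ[ZMod l] V0 l n) × ZMod l)).1 w = B w at h1
    rw [← h1, Prod.fst_sum, LinearMap.sum_apply]
    rfl
  · have h1 := congrArg (fun z : (V0 l n →ₗ[ZMod l] V0 l n) × ZMod l => z.2) hU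
    change (∑ g ∈ U.support, U g • (((ac0 l π g : V0 l n →ₗ[ZMod l] V0 l n), (1 : ZMod l)) :
        (V0 l n →ₗ[ZMod l] V0 l n) × ZMod l)).2 = ε at h1
    rw [← h1, Prod.snd_sum]
    refine sum_congr rfl fun g _ => ?_
    change U g = U g * 1
    rw [mul_one]

end main

end Pool.Agent.SmS
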