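import Pool.Agent.Lib.SmS.Good
import Pool.Agent.Lib.SmL.E.LocF
import Pool.Agent.Lib.GBU.Div
import Pool.Agent.Lib.GBC.E.Main

/-!
# SMITH-S, section 11: good reduction at almost all places

PROOF. Let `v` be a place of `K` at which all coefficients of `f` are integral and the discriminant of `f` has order `0`
(`ord_finite` in `GBU/Div.lean`: all but finitely many `v`; or: `f` separable over `K`, so there are `A, B ∈ K[X]` with
`A f + B f' = 1`, exclude also the finitely many poles of the coefficients of `A` and `B`: this is simpler). Let `below K w = v.ring`.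
Then `f = F.map` with `F : (below K w)[X]`, hence `fO Ω f = f0.map (algebraMap w Ω)` with `f0 : w[X]` monic, and
`f0.map (residue w)` is separable (reduce `A f + B f' = 1`). `l` is a unit: `SmL.E.val_unit`. Apply `good_fixS`.
-/

set_option autoImplicit false

open Polynomial

namespace Pool.Agent.SmS

open Pool.Agent.BSDFF Pool.Agent.Lib.SmD

variable {k K Ω : Type} [Field k] [Finite k] [Field K] [Algebra k K] [Algebra (RatFunc k) K]
  [IsScalarTower k (RatFunc k) K] [FiniteDimensional (RatFunc k) K]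
  [Algebra.IsSeparable (RatFunc k) K] [Field Ω] [Algebra K Ω] [IsSepClosure K Ω]
  {l : ℕ} [Fact l.Prime]

omit [Finite k] [FiniteDimensional (RatFunc k) K] [Algebra.IsSeparable (RatFunc k) K]
  [IsSepClosure K Ω] [Algebra (RatFunc k) K] [IsScalarTower k (RatFunc k) K] in
private theorem Triv_lift {v : Place k K} {w : ValuationSubring Ω} (hw : below K w = v.ring)
    (P : K[X]) (hP : ∀ n, P.coeff n ∈ v.ring) :
    ∃ P0 : (w : Type)[X], P0.map (algebraMap w Ω) = P.map (algebraMap K Ω) := by
  have h := (Polynomial.lifts_iff_coeff_lifts (f := algebraMap w Ω) (P.map (algebraMap K Ω))).2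
    (fun n => ?_)
  · exact (Polynomial.mem_lifts _).1 h
  · rw [coeff_map]
    have h1 : P.coeff n ∈ below K w := by
      rw [hw]
      exact hP n
    exact ⟨⟨algebraMap K Ω (P.coeff n), h1⟩, rfl⟩

variable (k) in
theorem exists_trivS (f : K[X]) [Sup l (fO Ω f)] [IsSepClosed Ω] [SmChar l (fO Ω f)]
    (hm : f.Monic) (hs : f.Separable) (hlk : (l : k) ≠ 0) :
    ∃ T : Set (Place k K), T.Finite ∧ ∀ v ∉ T, ∀ w : ValuationSubring Ω, below K w = v.ring →
      ∀ s ∈ iner K w, ∀ Q : JJ l (fO Ω f), (∃ n : ℕ, l ^ n • Q = 0) → galS l f s Q = Q := by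
  obtain ⟨G, -⟩ := Pool.Agent.GBC.exists_geo k K
  obtain ⟨A, B, hAB⟩ := hs
  have hfin : ∀ P : K[X], {v : Place k K | ∃ n, P.coeff n ∉ v.ring}.Finite := by
    intro P
    refine ((P.support.finite_toSet.biUnion (t := fun n => {v : Place k K | Pool.Agent.GBC.ord v (P.coeff n) ≠ 0})
      fun n hn => Pool.Agent.GBU.ord_finite G
        (Polynomial.mem_support_iff.1 (Finset.mem_coe.1 hn)))).subset ?_
    rintro v ⟨n, hn⟩
    have h0 : P.coeff n ≠ 0 := fun h => hn (by rw [h]; exact zero_mem _)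
    refine Set.mem_biUnion (Finset.mem_coe.2 (Polynomial.mem_support_iff.2 h0)) ?_
    intro h1
    exact hn ((Pool.Agent.GBC.mem_ring_iff v h0).2 h1.ge)
  refine ⟨({v : Place k K | ∃ n, f.coeff n ∉ v.ring} ∪ {v : Place k K | ∃ n, A.coeff n ∉ v.ring}) ∪
    {v : Place k K | ∃ n, B.coeff n ∉ v.ring}, ((hfin f).union (hfin A)).union (hfin B), ?_⟩
  intro v hv w hw s hs Q hQ
  have h1 : (∀ n, f.coeff n ∈ v.ring) ∧ (∀ n, A.coeff n ∈ v.ring) ∧ (∀ n, B.coeff n ∈ v.ring) := by
    refine ⟨fun n => ?_, fun n => ?_, fun n => ?_⟩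
    · by_contra h
      exact hv (Or.inl (Or.inl ⟨n, h⟩))
    · by_contra h
      exact hv (Or.inl (Or.inr ⟨n, h⟩))
    · by_contra h
      exact hv (Or.inr ⟨n, h⟩)
  obtain ⟨f0, hf0⟩ := Triv_lift hw f h1.1
  obtain ⟨A0, hA0⟩ := Triv_lift hw A h1.2.1
  obtain ⟨B0, hB0⟩ := Triv_lift hw B h1.2.2
  have hinj : Function.Injective (algebraMap w Ω) := Subtype.val_injective
  have hmf : f0.Monic := by
    rw [Function.Injective.monic_map_iff hinj, hf0]
    exact hm.map _
  have hsep : f0.Separable := by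
    refine ⟨A0, B0, Polynomial.map_injective _ hinj ?_⟩
    rw [Polynomial.map_add, Polynomial.map_mul, Polynomial.map_mul, ← Polynomial.derivative_map,
      hf0, hA0, hB0, Polynomial.derivative_map, ← Polynomial.map_mul, ← Polynomial.map_mul,
      ← Polynomial.map_add, hAB, Polynomial.map_one, Polynomial.map_one]
  obtain ⟨n, hn⟩ := hQ
  exact good_fixS hmf hf0 (Pool.Agent.SmL.E.val_unit k K w hlk) hsep.map hs hn

end Pool.Agent.SmS
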