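import Pool.Agent.Lib.SmS.GalA
import Pool.Agent.Lib.SmS.ActFin
import Pool.Agent.Lib.SmS.Triv
import Pool.Agent.Lib.SmS.FinI

/-!
# SMITH-S, section 11: `ModS` over a global function field
-/

set_option autoImplicit false

open Polynomial

namespace Pool.Agent.SmS

open Pool.Agent.BSDFF Pool.Agent.Lib.SmD Pool.Agent.GBU Pool.Agent.SmL.Fld Pool.Agent.SmL.Fnl
  Pool.Agent.SmL.C

/-- The embedding of `V0 l n`. -/
noncomputable def ioJ (l : ℕ) [Fact l.Prime] (K : Type) {Ω : Type} [Field K] [Field Ω]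
    [Algebra K Ω] {n : ℕ} (a : Fin n → Ω) [SupA l a] [RtS K a] [IsSepClosed Ω] :
    V0 l n →+ JS l K a := (io l a : V0 l n →+ JJ l (ff a))

/-- The isotropy of the local Kummer groups, in terms of the Jacobian. -/
def IsotK {k K Ω : Type} [Field k] [Field K] [Algebra k K] [Field Ω] [Algebra K Ω] (l : ℕ)
    [Fact l.Prime] {n : ℕ} (a : Fin n → Ω) [SupA l a] [RtS K a] [IsSepClosed Ω] {ζ : Ω}
    (hζ : IsPrimitiveRoot ζ l) (NN : Set (Subgroup (Ω ≃ₐ[K] Ω)))
    (w : Place k K → ValuationSubring Ω) (sg ph : Place k K → Ω ≃ₐ[K] Ω) : Prop :=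
  ∀ chi : (Ω ≃ₐ[K] Ω) → ZMod l, (bK NN w sg ph).TF chi →
    (∀ s t, chi (s * t) = chi s + chi t) → ∀ v, ∀ (Q Q' : JJ l (ff a))
    (x x' : (Ω ≃ₐ[K] Ω) → V0 l n),
    (∀ s ∈ dec K (w v), (zact hζ.pow_eq_one)^[(chi s).val] (gS K a l s Q) - Q = io l a (x s)) →
    (∀ s ∈ dec K (w v), (zact hζ.pow_eq_one)^[(chi s).val] (gS K a l s Q') - Q' =
      io l a (x' s)) →
    (bK NN w sg ph).inv v (fun s t => e0 l n (x s) (ac0 l (pmS K a) s (x' t))) = 0

variable {k K Ω : Type} [Field k] [Finite k] [Field K] [Algebra k K] [Algebra (RatFunc k) K]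
  [IsScalarTower k (RatFunc k) K] [FiniteDimensional (RatFunc k) K]
  [Algebra.IsSeparable (RatFunc k) K] [Field Ω] [Algebra K Ω] [IsSepClosure K Ω]
  [IsSepClosed Ω]
  {l : ℕ} [Fact l.Prime] {ζ : Ω} {NN : Set (Subgroup (Ω ≃ₐ[K] Ω))}
  {w : Place k K → ValuationSubring Ω} {sg ph : Place k K → Ω ≃ₐ[K] Ω}
  {n : ℕ} {a : Fin n → Ω} [SupA l a] [RtS K a] [SmChar l (ff a)]

/-- **The properties of the Jacobian over a global function field.** -/
theorem exists_modS (h2 : (2 : k) ≠ 0) (hlk : (l : k) ≠ 0) (hζ : IsPrimitiveRoot ζ l)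
    (hK : ∀ s : Ω ≃ₐ[K] Ω, s ζ = ζ) {f : K[X]} (hm : f.Monic) (hs : f.Separable)
    (hfa : fO Ω f = ff a) (hS : Std l ζ NN w sg ph) (h1 : ∃ N ∈ NN, N ≤ (pmS K a).ker)
    (hiso : IsotK l a hζ NN w sg ph) :
    ∃ T0 : Finset (Place k K), ∀ T, T0 ⊆ T →
      ModS (autS K a hζ hK) (bK NN w sg ph) (ac0 l (pmS K a)) (e0 l n) (ioJ l K a) T := by
  classical
  have hl : l.Prime := Fact.out
  have hne : NeZero l := ⟨hl.ne_zero⟩
  have : Sup l (fO Ω f) := by
    rw [hfa]
    infer_instance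
  have : SmChar l (fO Ω f) := by
    rw [hfa]
    infer_instance
  have hF := famE_of hS.fam
  obtain ⟨T1, hT1, htriv⟩ := gS_transport (l := l) K a hfa (fun M _ ρ =>
    ∃ T : Set (Place k K), T.Finite ∧ ∀ v ∉ T, ∀ w : ValuationSubring Ω, below K w = v.ring →
      ∀ s ∈ iner K w, ∀ Q : M, (∃ n : ℕ, l ^ n • Q = 0) → ρ s Q = Q)
    (exists_trivS k f hm hs hlk)
  have hfixlam : ∀ Q : JJ l (ff a), zact hζ.pow_eq_one Q = Q → ∃ w, io l a w = Q := by
    intro Q hQ
    apply io_range hζ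
    rw [lam_apply, hQ, sub_self]
  have hiofix : ∀ w : V0 l n, zact hζ.pow_eq_one (io l a w) = io l a w := by
    intro w
    have h3 := lam_io (a := a) hζ w
    rw [lam_apply, sub_eq_zero] at h3
    exact h3.symm
  refine ⟨hT1.toFinset, fun T hTT => ?_⟩
  exact
    { div := fun Q => by
        obtain ⟨R, hR⟩ := exists_lam hζ (Q : JJ l (ff a))
        exact ⟨R, hR⟩
      inj := io_inj hζ
      fix := hiofix
      range := hfixlam
      ac := fun s w => gS_io K a s w
      act_fin := by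
        refine act_finS hF (autS K a hζ hK) ?_ (fun Q => gS_level K a Q) ?_
        · have : Finite (V0 l n) := inferInstance
          refine (Set.finite_range (io l a)).subset fun Q hQ => ?_
          exact hfixlam Q hQ
        · obtain ⟨N, hN, h3⟩ := h1
          refine ⟨N, hN, fun s hs Q hQ => ?_⟩
          obtain ⟨w, rfl⟩ := hfixlam Q hQ
          have h4 : pmS K a s = 1 := h3 hs
          change gS K a l s (io l a w) = io l a w
          rw [gS_io]
          congr 1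
          apply Subtype.ext
          funext i
          rw [ac0_apply, h4]
          rfl
      good_triv := fun v hv Q hQ => by
        have hv' : v ∉ T1 := fun h => hv (hTT (hT1.mem_toFinset.2 h))
        exact htriv v hv' (w v) (hS.loc.below v) _ (hS.loc.iner v) Q hQ
      fin_inv := fun chi h3 h4 v => by
        obtain ⟨U, hU, h5⟩ := ker_open hF h3 h4
        have h6 := gS_transport (l := l) K a hfa (fun M _ ρ =>
          {Q : M | (∃ j : ℕ, l ^ j • Q = 0) ∧
            ∀ s ∈ dec K (w v), s ∈ U → ρ s Q = Q}.Finite)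
          (fin_fixS (k := k) f h2 hlk (wv_ne_top hS v) hU)
        refine h6.subset ?_
        rintro P ⟨hP, h7⟩
        exact ⟨hP, fun s hs hsU => h7 s hs ((h5 s).1 hsU)⟩
      isot := fun chi h3 h4 v Q Q' x x' _ _ h5 h6 => hiso chi h3 h4 v Q Q' x x' h5 h6 }

end Pool.Agent.SmS
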