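import Pool.Agent.Lib.SmS.LIsot
import Pool.Agent.Lib.SmS.ModK

/-!
# SMITH-S, section 10: the isotropy of the local Kummer groups, in the form of section 11

No condition on the classes `Q`, `Q'` of the Jacobian.
-/

set_option autoImplicit false

open Polynomial

namespace Pool.Agent.SmS

open Pool.Agent.BSDFF Pool.Agent.Lib.SmD Pool.Agent.GBU Pool.Agent.SmL.Fld Pool.Agent.SmL.Fnl
  Pool.Agent.SmL.C

variable {k K Ω : Type} [Field k] [Finite k] [Field K] [Algebra k K] [Algebra (RatFunc k) K]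
  [IsScalarTower k (RatFunc k) K] [FiniteDimensional (RatFunc k) K]
  [Algebra.IsSeparable (RatFunc k) K] [Field Ω] [Algebra K Ω] [IsSepClosure K Ω]
  [IsSepClosed Ω]
  {l : ℕ} [Fact l.Prime] {ζ : Ω} {NN : Set (Subgroup (Ω ≃ₐ[K] Ω))}
  {w : Place k K → ValuationSubring Ω} {sg ph : Place k K → Ω ≃ₐ[K] Ω}
  {n : ℕ} {a : Fin n → Ω} [SupA l a] [RtS K a] [SmChar l (ff a)]

theorem isotK (h2 : (2 : k) ≠ 0) (hl2 : l ≠ 2) (hζ : IsPrimitiveRoot ζ l)
    (hζK : ∃ z : K, algebraMap K Ω z = ζ) (hS : Std l ζ NN w sg ph)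
    (h1 : ∃ N ∈ NN, N ≤ (pmS K a).ker) : IsotK l a hζ NN w sg ph := by
  intro chi hTF hadd v Q Q' x x' hx hx'
  have hhom : HomO l chi := by
    refine ⟨hadd, ?_⟩
    obtain ⟨N, hN, hc⟩ := hTF
    refine ⟨N, hS.fam.isOpen N hN, fun s hs => ?_⟩
    have h3 := hc 1 s hs
    rw [one_mul] at h3
    have h4 := hadd 1 1
    rw [mul_one] at h4
    rw [h3]
    exact left_eq_add.mp h4
  have key : ∀ (s : Ω ≃ₐ[K] Ω) (P : JJ l (ff a)) (y : V0 l n),
      (zact hζ.pow_eq_one)^[(chi s).val] (gS K a l s P) - P = io l a y →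
      act (s : Ω ≃+* Ω) (map_ffS K a s) (ζ ^ (chi s).val) (zpow_pow hζ.pow_eq_one _) P =
        P + io l a y := by
    intro s P y h
    rw [← h, add_sub_cancel, zact_pow]
    change _ = act _ _ _ _ (act _ _ _ _ P)
    rw [act_act]
    refine act_congr (RingEquiv.ext fun x => rfl) _ _ ?_ _ _ P
    exact (mul_one _).symm
  exact isot_dec h2 hl2 hζ hζK hS hhom (σ := fun s => pmS K a s)
    (fun s i => (pmS_spec K a s i).symm)
    (by
      obtain ⟨N, hN, h3⟩ := h1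
      exact ⟨N, hN, fun s hs => h3 hs⟩) v (map_ffS K a)
    (fun s hs => key s Q (x s) (hx s hs)) (fun s hs => key s Q' (x' s) (hx' s hs))

end Pool.Agent.SmS
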