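import Pool.Agent.Lib.SmS.PE

/-!
SMITH-S, section 10: the value at a multiset of points of the function with given divisor and leading coefficient 1.

`IsFn T B B' v`: there are `k`, `k'` not zero, `(k) * B' = (k') * B`, with the same leading coefficient (so `k / k'` is THE function with
divisor `B - B'` and leading coefficient 1), without zeros in `T`, `v = ∏ t ∈ T, k(t) / k'(t)`.

`uniq`: from `(k) B' = (k') B`, `(m) B' = (m') B`: `(k m') B B' = (k' m) B B'`, cancel, `k m' = C κ k' m` (`isUnit_co`), `κ = 1` by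
`lcc_mul`, `lcc_po`. `exists_isFn`: `V` in the class `-cls B` prime to `idT T` (`SmJ.exists_coprime`), `B V = (k)`, `B' V = (k'')`,
`k' = C κ k''` with the right leading coefficient; `k` has no zero at `t ∈ T`: `idT T ≤ t.idl`, `t.idl` is prime, `B ⊔ t.idl = ⊤`.
`mul`, `cancel`: clear (the ideals form a cancellative monoid: `mul_left_cancel₀`).
`IsFn.th`: `k`, `k'` ↦ `th g k`, `th g k'`; `lcc (th g k) = s g (lcc k) * u⁻¹ ^ jx l n (ord k)` (`lcc_coMap`, `natDegree_ff`), and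
`ord k + dg B' = ord k' + dg B` (`dg_span`, `dg_mul`), so `ord k = ord k'` in `ZMod l`, `jx` are equal (definition of `jx`); `T` stable:
`∏ t ∈ T, ev t (th g k) = ∏ t ∈ T, ev (pt g t) (th g k) = ∏ t ∈ T, s g (ev t k)` (rewrite `T` as `T.map (pt g)`, `Multiset.map_map`, `ev_pt`).
`isFn_PE`: `k = po (∏ i, (X - C (a i)) ^ e i)`, `k' = 1` (`PE_l`), values `t.x - a i ≠ 0`.
-/

set_option autoImplicit false

open Polynomial

namespace Pool.Agent.SmS

variable {l : ℕ} {F : Type} [Field F] [Fact l.Prime] {n : ℕ} {a : Fin n → F} [SupA l a]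
  [IsSepClosed F]

/-- `v` is the value at `T` of the function with divisor `B - B'` and leading coefficient 1. -/
def IsFn (T : Multiset (Pnt l (ff a))) (B B' : Ideal (Co l (ff a))) (v : F) : Prop :=
  ∃ k k' : Co l (ff a), k ≠ 0 ∧ k' ≠ 0 ∧ lcc k = lcc k' ∧
    Ideal.span {k} * B' = Ideal.span {k'} * B ∧ (∀ t ∈ T, t.ev k ≠ 0 ∧ t.ev k' ≠ 0) ∧
    v = (T.map fun t => t.ev k / t.ev k').prod

theorem IsFn.uniq {T : Multiset (Pnt l (ff a))} {B B' : Ideal (Co l (ff a))} (hB : B ≠ ⊥)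
    (hB' : B' ≠ ⊥) {v v' : F} (h : IsFn T B B' v) (h' : IsFn T B B' v') : v = v' := by
  obtain ⟨k, k', hk, hk', hl, he, ht, rfl⟩ := h
  obtain ⟨m, m', hm, hm', hl', he', ht', rfl⟩ := h'
  have h1 : Ideal.span {k' * m} * B' = Ideal.span {m' * k} * B' := by
    rw [← Ideal.span_singleton_mul_span_singleton, ← Ideal.span_singleton_mul_span_singleton,
      mul_assoc, he', mul_assoc, he, ← mul_assoc, ← mul_assoc, mul_comm (Ideal.span {k'})]
  have h2 : Ideal.span {k' * m} = Ideal.span {m' * k} := mul_right_cancel₀ hB' h1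
  obtain ⟨w, hw⟩ := Ideal.span_singleton_eq_span_singleton.mp h2
  obtain ⟨c, hc, hwc⟩ := isUnit_co.mp w.isUnit
  have h3 := congrArg lcc hw
  rw [hwc, lcc_mul, lcc_mul, lcc_mul, lcc_po, leadingCoeff_C, hl, hl', mul_comm (lcc m')] at h3
  have h4 : lcc k' * lcc m' ≠ 0 := mul_ne_zero (lcc_ne_zero.mpr hk') (lcc_ne_zero.mpr hm')
  have h5 : c = 1 := (mul_eq_left₀ h4).mp h3
  rw [hwc, h5, C_1, map_one, mul_one] at hw
  congr 1
  refine Multiset.map_congr rfl fun t htT => ?_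
  rw [div_eq_div_iff (ht t htT).2 (ht' t htT).2, ← map_mul, ← map_mul, mul_comm k m', mul_comm m k',
    hw]

theorem IsFn.ne {T : Multiset (Pnt l (ff a))} {B B' : Ideal (Co l (ff a))} {v : F}
    (h : IsFn T B B' v) : v ≠ 0 := by
  obtain ⟨k, k', hk, hk', hl, he, ht, rfl⟩ := h
  refine Multiset.prod_ne_zero fun h0 => ?_
  obtain ⟨t, htT, h1⟩ := Multiset.mem_map.mp h0
  exact div_ne_zero (ht t htT).1 (ht t htT).2 h1

theorem exists_isFn {T : Multiset (Pnt l (ff a))} {B B' : Ideal (Co l (ff a))} (hB : B ≠ ⊥)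
    (hB' : B' ≠ ⊥) (hc : SmJ.cls B = SmJ.cls B') (hT : ∀ t ∈ T, B ⊔ t.idl = ⊤)
    (hT' : ∀ t ∈ T, B' ⊔ t.idl = ⊤) : ∃ v, IsFn T B B' v := by
  obtain ⟨V, hV, hcV, hVT⟩ := SmJ.exists_coprime (-SmJ.cls B) (idT_ne_bot T)
  have hBV : B * V ≠ ⊥ := mul_ne_zero hB hV
  have hBV' : B' * V ≠ ⊥ := mul_ne_zero hB' hV
  obtain ⟨k, hk⟩ := (SmJ.cls_eq_zero_iff hBV).mp (by
    rw [SmJ.cls_mul hB hV, hcV, add_neg_cancel])
  obtain ⟨m, hm⟩ := (SmJ.cls_eq_zero_iff hBV').mp (by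
    rw [SmJ.cls_mul hB' hV, hcV, ← hc, add_neg_cancel])
  have hk0 : k ≠ 0 := by
    rintro rfl
    exact hBV (hk.trans (Ideal.span_singleton_eq_bot.mpr rfl))
  have hm0 : m ≠ 0 := by
    rintro rfl
    exact hBV' (hm.trans (Ideal.span_singleton_eq_bot.mpr rfl))
  have hc0 : lcc k / lcc m ≠ 0 := div_ne_zero (lcc_ne_zero.mpr hk0) (lcc_ne_zero.mpr hm0)
  have hu : IsUnit (po l (ff a) (C (lcc k / lcc m))) := isUnit_co.mpr ⟨_, hc0, rfl⟩
  have hVt : ∀ t ∈ T, ¬ V ≤ t.idl := by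
    intro t htT h1
    have h2 : idT T ≤ t.idl := by
      rw [idT]
      exact (Ideal.multiset_prod_le_inf).trans (Multiset.inf_le (Multiset.mem_map_of_mem _ htT))
    have h3 : V ⊔ idT T ≤ t.idl := sup_le h1 h2
    rw [hVT] at h3
    exact t.idl_max.ne_top (top_le_iff.mp h3)
  have key : ∀ (D : Ideal (Co l (ff a))) (z : Co l (ff a)), D * V = Ideal.span {z} →
      (∀ t ∈ T, D ⊔ t.idl = ⊤) → ∀ t ∈ T, t.ev z ≠ 0 := by
    intro D z hz hD t htT h0
    have h1 : D * V ≤ t.idl := by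
      rw [hz, Ideal.span_singleton_le_iff_mem]
      exact h0
    rcases (Ideal.IsPrime.mul_le t.idl_max.isPrime).mp h1 with h2 | h2
    · exact sup_idl_iff.mp (hD t htT) h2
    · exact hVt t htT h2
  refine ⟨_, k, po l (ff a) (C (lcc k / lcc m)) * m, hk0, mul_ne_zero hu.ne_zero hm0, ?_, ?_, ?_,
    rfl⟩
  · rw [lcc_mul, lcc_po, leadingCoeff_C, div_mul_cancel₀ _ (lcc_ne_zero.mpr hm0)]
  · rw [Ideal.span_singleton_mul_left_unit hu, ← hk, ← hm]
    ring
  · intro t htT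
    refine ⟨key B k hk hT t htT, ?_⟩
    rw [map_mul, Pnt.ev_C]
    exact mul_ne_zero hc0 (key B' m hm hT' t htT)

theorem IsFn.mul {T : Multiset (Pnt l (ff a))} {B B' D D' : Ideal (Co l (ff a))} {v w : F}
    (h : IsFn T B B' v) (h' : IsFn T D D' w) : IsFn T (B * D) (B' * D') (v * w) := by
  obtain ⟨k, k', hk, hk', hl, he, ht, rfl⟩ := h
  obtain ⟨m, m', hm, hm', hl', he', ht', rfl⟩ := h'
  refine ⟨k * m, k' * m', mul_ne_zero hk hm, mul_ne_zero hk' hm', ?_, ?_, ?_, ?_⟩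
  · rw [lcc_mul, lcc_mul, hl, hl']
  · rw [← Ideal.span_singleton_mul_span_singleton, ← Ideal.span_singleton_mul_span_singleton,
      mul_mul_mul_comm, he, he', mul_mul_mul_comm]
  · intro t htT
    rw [map_mul, map_mul]
    exact ⟨mul_ne_zero (ht t htT).1 (ht' t htT).1, mul_ne_zero (ht t htT).2 (ht' t htT).2⟩
  · rw [← Multiset.prod_map_mul]
    congr 1
    refine Multiset.map_congr rfl fun t _ => ?_
    rw [map_mul, map_mul, mul_div_mul_comm]

theorem IsFn.cancel {T : Multiset (Pnt l (ff a))} {B B' D : Ideal (Co l (ff a))} {v : F}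
    (hD : D ≠ ⊥) (h : IsFn T (B * D) (B' * D) v) : IsFn T B B' v := by
  obtain ⟨k, k', hk, hk', hl, he, ht, rfl⟩ := h
  refine ⟨k, k', hk, hk', hl, ?_, ht, rfl⟩
  rw [← mul_assoc, ← mul_assoc] at he
  exact mul_right_cancel₀ hD he

theorem IsFn.th {Γ : Type} [Group Γ] (W : Tw l a Γ) {T : Multiset (Pnt l (ff a))}
    (hT : W.Stab T) {B B' : Ideal (Co l (ff a))} (hB : B ≠ ⊥) (hB' : B' ≠ ⊥)
    (hd : ((dg B : ℕ) : ZMod l) = (dg B' : ℕ)) {v : F} (h : IsFn T B B' v) (g : Γ) :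
    IsFn T (B.map (W.th g : Co l (ff a) →+* Co l (ff a)))
      (B'.map (W.th g : Co l (ff a) →+* Co l (ff a))) (W.s g v) := by
  obtain ⟨k, k', hk, hk', hl, he, ht, rfl⟩ := h
  have hth : ∀ z : Co l (ff a), z ≠ 0 → W.th g z ≠ 0 := fun z hz h0 =>
    hz ((W.th g).injective (h0.trans (map_zero _).symm))
  have hsk : Ideal.span {k} ≠ ⊥ := by rwa [Ne, Ideal.span_singleton_eq_bot]
  have hsk' : Ideal.span {k'} ≠ ⊥ := by rwa [Ne, Ideal.span_singleton_eq_bot]
  have hord : ((ord k : ℕ) : ZMod l) = (ord k' : ℕ) := by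
    have h1 := congrArg dg he
    rw [dg_mul hsk hB', dg_mul hsk' hB, dg_span hk, dg_span hk'] at h1
    have h2 := congrArg (fun z : ℕ => (z : ZMod l)) h1
    simp only [Nat.cast_add] at h2
    rw [hd] at h2
    exact add_right_cancel h2
  refine ⟨W.th g k, W.th g k', hth k hk, hth k' hk', ?_, ?_, ?_, ?_⟩
  · rw [Tw.th, lcc_coMap, lcc_coMap, hl, jx, jx, hord]
  · rw [← SmJ.map_span_mul, ← SmJ.map_span_mul, he]
  · intro t htT
    rw [← hT g] at htT
    obtain ⟨t', ht', rfl⟩ := Multiset.mem_map.mp htT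
    rw [W.ev_pt, W.ev_pt]
    exact ⟨fun h0 => (ht t' ht').1 ((W.s g).injective (h0.trans (map_zero _).symm)),
      fun h0 => (ht t' ht').2 ((W.s g).injective (h0.trans (map_zero _).symm))⟩
  · conv_rhs => rw [← hT g]
    rw [Multiset.map_map, map_multiset_prod, Multiset.map_map]
    congr 1
    refine Multiset.map_congr rfl fun t _ => ?_
    rw [Function.comp_apply, Function.comp_apply, W.ev_pt, W.ev_pt, map_div₀]

theorem isFn_PE {ζ : F} (hz : IsPrimitiveRoot ζ l) {T : Multiset (Pnt l (ff a))} (hb : NB T)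
    (e : Fin n → ℕ) : IsFn T (PE l a (fun i => l * e i)) ⊤
      (T.map fun t => ∏ i, (t.x - a i) ^ e i).prod := by
  have hmon : (∏ i, (X - C (a i)) ^ e i : F[X]).Monic :=
    monic_prod_of_monic _ _ fun i _ => (monic_X_sub_C (a i)).pow _
  have hev : ∀ t : Pnt l (ff a), t.ev (po l (ff a) (∏ i, (X - C (a i)) ^ e i)) =
      ∏ i, (t.x - a i) ^ e i := by
    intro t
    rw [Pnt.ev_po, eval_prod]
    simp
  have h1 : lcc (1 : Co l (ff a)) = 1 := by
    have h3 := lcc_po (l := l) (f := ff a) 1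
    rwa [map_one, leadingCoeff_one] at h3
  have h2 : lcc (po l (ff a) (∏ i, (X - C (a i)) ^ e i)) = 1 := by rw [lcc_po, hmon.leadingCoeff]
  refine ⟨po l (ff a) (∏ i, (X - C (a i)) ^ e i), 1, ?_, one_ne_zero, ?_, ?_, ?_, ?_⟩
  · rw [← lcc_ne_zero, h2]
    exact one_ne_zero
  · rw [h1, h2]
  · rw [PE_l e hz, Ideal.span_singleton_one, Ideal.mul_top, Ideal.top_mul]
  · intro t htT
    rw [hev, map_one]
    refine ⟨Finset.prod_ne_zero_iff.mpr fun i _ => pow_ne_zero _ (sub_ne_zero.mpr (hb t htT i)),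
      one_ne_zero⟩
  · congr 1
    refine Multiset.map_congr rfl fun t _ => ?_
    rw [hev, map_one, div_one]

end Pool.Agent.SmS
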