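import Pool.Agent.Lib.SmS.Nsum

/-!
SMITH-S, sections 7 and 8 of the paper: ideals and classes stable under `σ`.

`stable_form`: the projectors `(1/l) ∑ k, ζ ^ (j k) σ ^ k` map `I` into itself, so `I = ⊕ A_j y ^ j`, `A_j` an
ideal of the principal ideal domain `F[x]`; `y I ≤ I`. `exists_stable`: `Q = cls I`, `σ I = g I` (`g` in the
fraction field), the norm of `g` is a unit of `Co l f` (compare the products of the conjugates of both sides;
use `exists_nm`), so a constant `ν`; divide `g` by an `l`-th root of `ν`; Hilbert 90 for the cyclic group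
generated by `σ` (directly: `b = ∑ (k < l) g σ(g) ... σ ^ (k - 1)(g) σ ^ k(θ)` with `θ` such that `b ≠ 0`, independence of
characters), `g σ(b) = b` and `b I` is stable; multiply by a constant polynomial to have an ideal
(`b = c / p(x)`, `p` a polynomial).
-/

set_option autoImplicit false

open Polynomial

namespace Pool.Agent.SmS

variable {l : ℕ} {F : Type} [Field F] [Fact l.Prime]

section stable

variable {f : F[X]} [Sup l f] [IsSepClosed F]

/-! ### The powers of `σ` -/

private noncomputable abbrev stabS {ζ : F} (hz : ζ ^ l = 1) (k : ℕ) : Co l f ≃+* Co l f :=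
  sig (zpow_pow hz k)

omit [Sup l f] [IsSepClosed F] in
private theorem stab_cf {ζ : F} (hz : ζ ^ l = 1) (k : ℕ) (h : Co l f) {j : ℕ} (hj : j < l) :
    cf (stabS hz k h) j = C ((ζ ^ k)⁻¹ ^ j) * cf h j := by
  rw [stabS, sig, cf_coMap _ _ _ _ _ hj, map_refl]

omit [Sup l f] [IsSepClosed F] in
private theorem stab_cf1 {ζ : F} (hz : ζ ^ l = 1) (h : Co l f) {j : ℕ} (hj : j < l) :
    cf (sig (f := f) hz h) j = C (ζ⁻¹ ^ j) * cf h j := by
  rw [sig, cf_coMap _ _ _ _ _ hj, map_refl]

omit [Sup l f] [IsSepClosed F] in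
private theorem stab_zero {ζ : F} (hz : ζ ^ l = 1) (h : Co l f) : stabS hz 0 h = h := by
  refine co_ext fun j hj => ?_
  rw [stab_cf hz 0 h hj, pow_zero, inv_one, one_pow, C_1, one_mul]

omit [Sup l f] [IsSepClosed F] in
private theorem stab_self {ζ : F} (hz : ζ ^ l = 1) (h : Co l f) : stabS hz l h = h := by
  refine co_ext fun j hj => ?_
  rw [stab_cf hz l h hj, hz, inv_one, one_pow, C_1, one_mul]

omit [Sup l f] [IsSepClosed F] in
private theorem stab_succ {ζ : F} (hz : ζ ^ l = 1) (k : ℕ) (h : Co l f) :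
    sig hz (stabS hz k h) = stabS hz (k + 1) h := by
  refine co_ext fun j hj => ?_
  rw [stab_cf1 hz _ hj, stab_cf hz k h hj, stab_cf hz (k + 1) h hj, ← mul_assoc, ← C_mul, ← mul_pow,
    ← mul_inv, pow_succ']

omit [Sup l f] [IsSepClosed F] in
private theorem stab_succ' {ζ : F} (hz : ζ ^ l = 1) (k : ℕ) (h : Co l f) :
    stabS hz k (sig hz h) = stabS hz (k + 1) h := by
  refine co_ext fun j hj => ?_
  rw [stab_cf hz k _ hj, stab_cf1 hz h hj, stab_cf hz (k + 1) h hj, ← mul_assoc, ← C_mul, ← mul_pow,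
    ← mul_inv, pow_succ]

omit [Sup l f] [IsSepClosed F] in
private theorem stab_const {ζ : F} (hz : ζ ^ l = 1) (k : ℕ) (c : F) :
    stabS (f := f) hz k (po l f (C c)) = po l f (C c) := by
  rw [stabS, sig, coMap_po, map_C]
  rfl

omit [Sup l f] [IsSepClosed F] in
private theorem stab_yy {ζ : F} (hz : ζ ^ l = 1) (k : ℕ) :
    stabS (f := f) hz k (yy l f) = po l f (C (ζ ^ k)⁻¹) * yy l f := by
  rw [stabS, sig, coMap_yy]

omit [Sup l f] [IsSepClosed F] in
private theorem stab_cf_sum {ι : Type*} (s : Finset ι) (g : ι → Co l f) (j : ℕ) :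
    cf (∑ i ∈ s, g i) j = ∑ i ∈ s, cf (g i) j := by
  classical
  induction s using Finset.induction_on with
  | empty => rw [Finset.sum_empty, Finset.sum_empty, cf_zero]
  | insert a s ha ih => rw [Finset.sum_insert ha, Finset.sum_insert ha, cf_add, ih]

omit [Sup l f] [IsSepClosed F] in
private theorem stab_cf_mon (p : F[X]) {i j : ℕ} (hi : i < l) (hj : j < l) :
    cf (po l f p * yy l f ^ j) i = if i = j then p else 0 := by
  have e : po l f p * yy l f ^ j =
      ∑ m ∈ Finset.range l, po l f (if m = j then p else 0) * yy l f ^ m := by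
    rw [Finset.sum_eq_single j]
    · rw [if_pos rfl]
    · intro m _ hm
      rw [if_neg hm, map_zero, zero_mul]
    · intro h
      exact absurd (Finset.mem_range.mpr hj) h
  rw [e, cf_sum _ hi]

omit [Fact l.Prime] [IsSepClosed F] in
private theorem stab_geom {x : F} (hx : x ^ l = 1) (h1 : x ≠ 1) : ∑ j ∈ Finset.range l, x ^ j = 0 := by
  have h := geom_sum_mul x l
  rw [hx, sub_self] at h
  rcases mul_eq_zero.mp h with h | h
  · exact h
  · exact absurd (sub_eq_zero.mp h) h1

omit [Sup l f] [IsSepClosed F] in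
/-- The projector. -/
private theorem stab_proj {ζ : F} (hz : IsPrimitiveRoot ζ l) (h : Co l f) {j : ℕ} (hj : j < l) :
    ∑ k ∈ Finset.range l, po l f (C ((ζ ^ j) ^ k)) * stabS hz.pow_eq_one k h =
      po l f (C (l : F) * cf h j) * yy l f ^ j := by
  have hz0 : ζ ≠ 0 := ne_of_pow hz.pow_eq_one
  refine co_ext fun i hi => ?_
  rw [stab_cf_sum, stab_cf_mon _ hi hj]
  have h1 : ∀ k, cf (po l f (C ((ζ ^ j) ^ k)) * stabS hz.pow_eq_one k h) i =
      C ((ζ ^ j * (ζ ^ i)⁻¹) ^ k) * cf h i := by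
    intro k
    rw [cf_po_mul, stab_cf _ k h hi, ← mul_assoc, ← C_mul]
    congr 2
    rw [mul_pow, ← inv_pow, ← inv_pow, ← pow_mul ζ⁻¹, ← pow_mul ζ⁻¹, mul_comm k i]
  rw [Finset.sum_congr rfl fun k _ => h1 k, ← Finset.sum_mul, ← map_sum]
  split_ifs with hij
  · subst hij
    rw [mul_inv_cancel₀ (pow_ne_zero _ hz0)]
    simp
  · rw [stab_geom (x := ζ ^ j * (ζ ^ i)⁻¹), map_zero, zero_mul]
    · rw [mul_pow, inv_pow, ← pow_mul, ← pow_mul, mul_comm j, mul_comm i, pow_mul, pow_mul,
        hz.pow_eq_one, one_pow, one_pow, inv_one, one_mul]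
    · intro h2
      apply hij
      have h3 : ζ ^ j = ζ ^ i := by
        rwa [← div_eq_mul_inv, div_eq_one_iff_eq (pow_ne_zero _ hz0)] at h2
      exact (hz.pow_inj hj hi h3).symm

/-- A nonzero ideal stable under `σ` is `⊕ q_j y ^ j F[x]`, `q_(j + 1) ∣ q_j`, `q_0 ∣ f q_(l - 1)`, `q_j` monic. -/
theorem stable_form {ζ : F} (hz : IsPrimitiveRoot ζ l) {I : Ideal (Co l f)} (hI : I ≠ ⊥)
    (hs : I.map ((sig hz.pow_eq_one : Co l f ≃+* Co l f) : Co l f →+* Co l f) = I) :
    ∃ q : ℕ → F[X], (∀ j < l, (q j).Monic) ∧ (∀ h : Co l f, h ∈ I ↔ ∀ j < l, q j ∣ cf h j) ∧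
      (∀ j, j + 1 < l → q (j + 1) ∣ q j) ∧ q 0 ∣ f * q (l - 1) := by
  have hl : l.Prime := Fact.out
  have hl0 : (l : F) ≠ 0 := Sup.ne (f := f)
  -- stability
  have hstab : ∀ k : ℕ, ∀ h ∈ I, stabS hz.pow_eq_one k h ∈ I := by
    intro k
    induction k with
    | zero => intro h hh; rw [stab_zero]; exact hh
    | succ k ih =>
      intro h hh
      rw [← stab_succ, ← hs]
      exact Ideal.mem_map_of_mem _ (ih h hh)
  have hproj : ∀ h ∈ I, ∀ j < l, po l f (cf h j) * yy l f ^ j ∈ I := by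
    intro h hh j hj
    have h1 : po l f (C (l : F) * cf h j) * yy l f ^ j ∈ I := by
      rw [← stab_proj hz h hj]
      exact I.sum_mem fun k _ => I.mul_mem_left _ (hstab k h hh)
    have h2 : po l f (cf h j) * yy l f ^ j =
        po l f (C (l : F)⁻¹) * (po l f (C (l : F) * cf h j) * yy l f ^ j) := by
      rw [← mul_assoc, ← map_mul, ← mul_assoc, ← C_mul, inv_mul_cancel₀ hl0, C_1, one_mul]
    rw [h2]
    exact I.mul_mem_left _ h1
  -- the ideals of coefficients
  let A : ℕ → Ideal F[X] := fun j =>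
    { carrier := {p | po l f p * yy l f ^ j ∈ I}
      add_mem' := by
        intro p q hp hq
        change po l f (p + q) * yy l f ^ j ∈ I
        rw [map_add, add_mul]
        exact I.add_mem hp hq
      zero_mem' := by
        change po l f 0 * yy l f ^ j ∈ I
        rw [map_zero, zero_mul]
        exact I.zero_mem
      smul_mem' := by
        intro c p hp
        change po l f (c * p) * yy l f ^ j ∈ I
        rw [map_mul, mul_assoc]
        exact I.mul_mem_left _ hp }
  have hA : ∀ j p, p ∈ A j ↔ po l f p * yy l f ^ j ∈ I := fun j p => Iff.rfl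
  have hA1 : ∀ j p, p ∈ A j → p ∈ A (j + 1) := by
    intro j p hp
    rw [hA] at hp ⊢
    rw [pow_succ, ← mul_assoc]
    exact I.mul_mem_right _ hp
  have hA2 : ∀ p, p ∈ A (l - 1) → f * p ∈ A 0 := by
    intro p hp
    rw [hA] at hp ⊢
    have h1 : po l f (f * p) * yy l f ^ 0 = po l f p * yy l f ^ (l - 1) * yy l f := by
      rw [mul_assoc, ← pow_succ, Nat.sub_add_cancel hl.one_le, yy_pow, ← map_mul, pow_zero, mul_one,
        mul_comm]
    rw [h1]
    exact I.mul_mem_right _ hp
  have hA3 : ∀ j k p, p ∈ A j → p ∈ A (j + k) := by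
    intro j k
    induction k with
    | zero => intro p hp; exact hp
    | succ k ih => intro p hp; exact hA1 _ _ (ih p hp)
  have hf0 : f ≠ 0 := (Mc.monic (l := l) (f := f)).ne_zero
  have hne : ∀ j, A j ≠ ⊥ := by
    obtain ⟨h, hh, hh0⟩ := Submodule.exists_mem_ne_zero_of_ne_bot hI
    obtain ⟨i, hi, hi0⟩ : ∃ i, i < l ∧ cf h i ≠ 0 := by
      by_contra hcon
      push Not at hcon
      apply hh0
      exact co_ext fun j hj => by rw [hcon j hj, cf_zero]
    have h1 : cf h i ∈ A (l - 1) := by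
      have h2 := hA3 i (l - 1 - i) _ ((hA i _).mpr (hproj h hh i hi))
      rwa [show i + (l - 1 - i) = l - 1 by omega] at h2
    have h3 := hA2 _ h1
    intro j hj
    have h4 := hA3 0 j _ h3
    rw [zero_add, hj] at h4
    exact mul_ne_zero hf0 hi0 h4
  have hgen : ∀ j, ∃ q : F[X], q.Monic ∧ A j = Ideal.span {q} := by
    intro j
    obtain ⟨p, hp⟩ := (IsPrincipalIdealRing.principal (A j)).principal
    have hp0 : p ≠ 0 := by
      rintro rfl
      apply hne j
      rw [hp]
      exact Submodule.span_zero_singleton _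
    refine ⟨p * C p.leadingCoeff⁻¹, monic_mul_leadingCoeff_inv hp0, ?_⟩
    have hu : IsUnit (C p.leadingCoeff⁻¹ : F[X]) :=
      isUnit_C.mpr (IsUnit.mk0 _ (inv_ne_zero (leadingCoeff_ne_zero.mpr hp0)))
    rw [hp]
    exact (Ideal.span_singleton_mul_right_unit hu p).symm
  choose q hq1 hq2 using hgen
  have hq : ∀ j p, po l f p * yy l f ^ j ∈ I ↔ q j ∣ p := by
    intro j p
    rw [← hA, hq2, Ideal.mem_span_singleton]
  refine ⟨q, fun j _ => hq1 j, ?_, ?_, ?_⟩
  · intro h
    constructor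
    · intro hh j hj
      exact (hq j _).mp (hproj h hh j hj)
    · intro hh
      rw [eq_sum h]
      exact I.sum_mem fun j hj => (hq j _).mpr (hh j (Finset.mem_range.mp hj))
  · intro j _
    rw [← hq, ← hA]
    exact hA1 j _ ((hA j _).mpr ((hq j _).mpr dvd_rfl))
  · rw [← hq, ← hA]
    exact hA2 _ ((hA _ _).mpr ((hq _ _).mpr dvd_rfl))

/-! ### Hilbert 90 -/

private noncomputable def stabT {ζ : F} (hz : ζ ^ l = 1) (a b θ : Co l f) (k : ℕ) : Co l f :=
  (∏ i ∈ Finset.range k, stabS hz i b) * (∏ i ∈ Finset.Ico k l, stabS hz i a) * stabS hz k θ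

omit [Sup l f] [IsSepClosed F] in
private theorem stab_T_succ {ζ : F} (hz : ζ ^ l = 1) (a b θ : Co l f) {k : ℕ} (hk : k < l) :
    b * sig hz (stabT hz a b θ k) = a * stabT hz a b θ (k + 1) := by
  have h1 : sig hz (∏ i ∈ Finset.range k, stabS hz i b) * b =
      ∏ i ∈ Finset.range (k + 1), stabS hz i b := by
    rw [Finset.prod_range_succ', map_prod, stab_zero]
    congr 1
    exact Finset.prod_congr rfl fun i _ => stab_succ hz i b
  have h2 : sig hz (∏ i ∈ Finset.Ico k l, stabS hz i a) =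
      (∏ i ∈ Finset.Ico (k + 1) l, stabS hz i a) * a := by
    rw [map_prod, Finset.prod_congr rfl fun i _ => stab_succ hz i a,
      Finset.prod_Ico_add' (fun i => stabS hz i a) k l 1,
      Finset.prod_Ico_succ_top (by omega : k + 1 ≤ l), stab_self]
  rw [stabT, map_mul, map_mul, stab_succ, h2, stabT, ← h1]
  ring

omit [Sup l f] [IsSepClosed F] in
private theorem stab_sum {ζ : F} (hz : ζ ^ l = 1) (a b θ : Co l f)
    (hN : ∏ i ∈ Finset.range l, stabS hz i b = ∏ i ∈ Finset.range l, stabS hz i a) :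
    b * sig hz (∑ k ∈ Finset.range l, stabT hz a b θ k) =
      a * ∑ k ∈ Finset.range l, stabT hz a b θ k := by
  have h1 : ∑ k ∈ Finset.range l, stabT hz a b θ (k + 1) = ∑ k ∈ Finset.range l, stabT hz a b θ k := by
    have h2 := Finset.sum_range_succ (stabT hz a b θ) l
    rw [Finset.sum_range_succ'] at h2
    have h3 : stabT hz a b θ l = stabT hz a b θ 0 := by
      rw [stabT, stabT, Finset.Ico_self, Finset.prod_empty, mul_one, Finset.range_zero,
        Finset.prod_empty, one_mul, stab_self, stab_zero, hN, Finset.range_eq_Ico]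
    rw [h3] at h2
    exact add_right_cancel h2
  rw [map_sum, Finset.mul_sum, Finset.sum_congr rfl fun k hk =>
    stab_T_succ hz a b θ (Finset.mem_range.mp hk), ← Finset.mul_sum, h1]

omit [IsSepClosed F] in
private theorem stab_h90 {ζ : F} (hz : IsPrimitiveRoot ζ l) (a b : Co l f) (ha : a ≠ 0)
    (hN : ∏ i ∈ Finset.range l, stabS hz.pow_eq_one i b =
      ∏ i ∈ Finset.range l, stabS hz.pow_eq_one i a) :
    ∃ β : Co l f, β ≠ 0 ∧ b * sig hz.pow_eq_one β = a * β := by
  have hl : l.Prime := Fact.out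
  have hl0 : (l : F) ≠ 0 := Sup.ne (f := f)
  by_contra hcon
  push Not at hcon
  have h0 : ∀ θ : Co l f, ∑ k ∈ Finset.range l, stabT hz.pow_eq_one a b θ k = 0 := by
    intro θ
    by_contra h
    exact hcon _ h (stab_sum hz.pow_eq_one a b θ hN)
  have hy : yy l f ≠ 0 := by
    apply lcc_ne_zero.mp
    rw [lcc_yy]
    exact one_ne_zero
  set c : ℕ → Co l f := fun k => (∏ i ∈ Finset.range k, stabS hz.pow_eq_one i b) *
    (∏ i ∈ Finset.Ico k l, stabS hz.pow_eq_one i a) with hc
  have h1 : ∀ j : ℕ, ∑ k ∈ Finset.range l, c k * po l f (C (((ζ ^ k)⁻¹) ^ j)) = 0 := by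
    intro j
    have h2 := h0 (yy l f ^ j)
    have h3 : ∑ k ∈ Finset.range l, stabT hz.pow_eq_one a b (yy l f ^ j) k =
        (∑ k ∈ Finset.range l, c k * po l f (C (((ζ ^ k)⁻¹) ^ j))) * yy l f ^ j := by
      rw [Finset.sum_mul]
      refine Finset.sum_congr rfl fun k _ => ?_
      rw [stabT, map_pow, stab_yy, mul_pow, ← map_pow, ← C_pow, ← mul_assoc]
    rw [h3] at h2
    exact (mul_eq_zero.mp h2).resolve_right (pow_ne_zero _ hy)
  have h4 : ∑ j ∈ Finset.range l, ∑ k ∈ Finset.range l, c k * po l f (C (((ζ ^ k)⁻¹) ^ j)) = 0 :=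
    Finset.sum_eq_zero fun j _ => h1 j
  rw [Finset.sum_comm] at h4
  have h5 : ∀ k ∈ Finset.range l, ∑ j ∈ Finset.range l, c k * po l f (C (((ζ ^ k)⁻¹) ^ j)) =
      if k = 0 then c 0 * po l f (C (l : F)) else 0 := by
    intro k hk
    rw [← Finset.mul_sum, ← map_sum, ← map_sum]
    split_ifs with h
    · subst h
      simp
    · rw [stab_geom (x := (ζ ^ k)⁻¹), map_zero, map_zero, mul_zero]
      · rw [inv_pow, zpow_pow hz.pow_eq_one k, inv_one]
      · intro h6
        rw [inv_eq_one] at h6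
        have h7 := (hz.pow_eq_one_iff_dvd k).mp h6
        exact h (Nat.eq_zero_of_dvd_of_lt h7 (Finset.mem_range.mp hk))
  rw [Finset.sum_congr rfl h5, Finset.sum_ite_eq' (Finset.range l) 0,
    if_pos (Finset.mem_range.mpr hl.pos)] at h4
  have h8 : po l f (C (l : F)) ≠ 0 := by
    apply lcc_ne_zero.mp
    rw [lcc_po, leadingCoeff_C]
    exact hl0
  have h9 : c 0 ≠ 0 := by
    simp only [hc, Finset.range_zero, Finset.prod_empty, one_mul]
    exact Finset.prod_ne_zero_iff.mpr fun i _ h =>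
      ha ((map_eq_zero_iff _ (stabS hz.pow_eq_one i).injective).mp h)
  exact (mul_ne_zero h9 h8) h4

/-- A class fixed by `σ` contains a `σ`-stable ideal. -/
theorem exists_stable {ζ : F} (hz : IsPrimitiveRoot ζ l) {Q : JJ l f}
    (hQ : zact hz.pow_eq_one Q = Q) : ∃ I : Ideal (Co l f), I ≠ ⊥ ∧ SmJ.cls I = Q ∧
      I.map ((sig hz.pow_eq_one : Co l f ≃+* Co l f) : Co l f →+* Co l f) = I := by
  have hl : l.Prime := Fact.out
  have hl0 : (l : F) ≠ 0 := Sup.ne (f := f)
  obtain ⟨I, hI, rfl⟩ := SmJ.exists_cls Q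
  have hmap : ∀ k : ℕ, I.map ((stabS hz.pow_eq_one k : Co l f ≃+* Co l f) : Co l f →+* Co l f) ≠ ⊥ :=
    fun k => SmJ.map_ne_bot _ hI
  have e1 : SmJ.cls (I.map ((sig hz.pow_eq_one : Co l f ≃+* Co l f) : Co l f →+* Co l f)) =
      SmJ.cls I := by
    rw [← act_cls]
    exact hQ
  obtain ⟨a, b, ha, hb, e⟩ := (SmJ.cls_eq_iff (SmJ.map_ne_bot _ hI) hI).mp e1
  -- the conjugates
  have e2 : ∀ k : ℕ, Ideal.span {stabS hz.pow_eq_one k a} *
      I.map ((stabS hz.pow_eq_one (k + 1) : Co l f ≃+* Co l f) : Co l f →+* Co l f) =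
      Ideal.span {stabS hz.pow_eq_one k b} *
      I.map ((stabS hz.pow_eq_one k : Co l f ≃+* Co l f) : Co l f →+* Co l f) := by
    intro k
    have h1 := congrArg (Ideal.map ((stabS hz.pow_eq_one k : Co l f ≃+* Co l f) :
      Co l f →+* Co l f)) e
    rw [SmJ.map_span_mul, SmJ.map_span_mul, Ideal.map_map] at h1
    have h2 : ((stabS hz.pow_eq_one k : Co l f ≃+* Co l f) : Co l f →+* Co l f).comp
        ((sig hz.pow_eq_one : Co l f ≃+* Co l f) : Co l f →+* Co l f) =
        ((stabS hz.pow_eq_one (k + 1) : Co l f ≃+* Co l f) : Co l f →+* Co l f) :=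
      RingHom.ext fun h => stab_succ' hz.pow_eq_one k h
    rw [h2] at h1
    exact h1
  have e3 : Ideal.span {∏ k ∈ Finset.range l, stabS hz.pow_eq_one k a} =
      Ideal.span {∏ k ∈ Finset.range l, stabS hz.pow_eq_one k b} := by
    have h1 : ∏ k ∈ Finset.range l, (Ideal.span {stabS hz.pow_eq_one k a} *
      I.map ((stabS hz.pow_eq_one (k + 1) : Co l f ≃+* Co l f) : Co l f →+* Co l f)) =
      ∏ k ∈ Finset.range l, (Ideal.span {stabS hz.pow_eq_one k b} *
      I.map ((stabS hz.pow_eq_one k : Co l f ≃+* Co l f) : Co l f →+* Co l f)) :=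
      Finset.prod_congr rfl fun k _ => e2 k
    rw [Finset.prod_mul_distrib, Finset.prod_mul_distrib, Ideal.prod_span_singleton,
      Ideal.prod_span_singleton] at h1
    have h2 : ∏ k ∈ Finset.range l,
        I.map ((stabS hz.pow_eq_one (k + 1) : Co l f ≃+* Co l f) : Co l f →+* Co l f) =
        ∏ k ∈ Finset.range l,
        I.map ((stabS hz.pow_eq_one k : Co l f ≃+* Co l f) : Co l f →+* Co l f) := by
      have h3 := Finset.prod_range_succ (fun k => I.map ((stabS hz.pow_eq_one k :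
        Co l f ≃+* Co l f) : Co l f →+* Co l f)) l
      rw [Finset.prod_range_succ'] at h3
      have h4 : I.map ((stabS hz.pow_eq_one l : Co l f ≃+* Co l f) : Co l f →+* Co l f) =
          I.map ((stabS hz.pow_eq_one 0 : Co l f ≃+* Co l f) : Co l f →+* Co l f) := by
        congr 1
        exact RingHom.ext fun h => by
          change stabS hz.pow_eq_one l h = stabS hz.pow_eq_one 0 h
          rw [stab_self, stab_zero]
      rw [h4] at h3
      exact mul_right_cancel₀ (hmap 0) h3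
    rw [h2] at h1
    exact mul_right_cancel₀ (Finset.prod_ne_zero_iff.mpr fun k _ => hmap k) h1
  obtain ⟨w, hw⟩ := Ideal.span_singleton_eq_span_singleton.mp e3
  obtain ⟨ν, hν, hwν⟩ := isUnit_co.mp w.isUnit
  obtain ⟨r, hr⟩ := exists_root l hl0 ν
  have hr0 : r ≠ 0 := by
    rintro rfl
    rw [zero_pow hl.ne_zero] at hr
    exact hν hr.symm
  -- normalise b
  have hN : ∏ k ∈ Finset.range l, stabS hz.pow_eq_one k (po l f (C r⁻¹) * b) =
      ∏ k ∈ Finset.range l, stabS hz.pow_eq_one k a := by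
    rw [Finset.prod_congr rfl fun k _ => show stabS hz.pow_eq_one k (po l f (C r⁻¹) * b) =
      po l f (C r⁻¹) * stabS hz.pow_eq_one k b by rw [map_mul, stab_const], Finset.prod_mul_distrib,
      Finset.prod_const, Finset.card_range, ← hw, hwν, ← map_pow, ← C_pow, inv_pow, hr,
      mul_comm _ (po l f (C ν)), ← mul_assoc, ← map_mul, ← C_mul, inv_mul_cancel₀ hν, C_1, map_one,
      one_mul]
  have hspan : Ideal.span {po l f (C r⁻¹) * b} = Ideal.span {b} := by
    have hu : IsUnit (po l f (C r⁻¹)) := (isUnit_C.mpr (IsUnit.mk0 _ (inv_ne_zero hr0))).map _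
    exact Ideal.span_singleton_mul_left_unit hu b
  obtain ⟨β, hβ, hβe⟩ := stab_h90 hz a (po l f (C r⁻¹) * b) ha hN
  have hβ' : Ideal.span {β} ≠ ⊥ := by rwa [Ne, Ideal.span_singleton_eq_bot]
  have ha' : Ideal.span {a} ≠ ⊥ := by rwa [Ne, Ideal.span_singleton_eq_bot]
  refine ⟨Ideal.span {β} * I, mul_ne_zero hβ' hI, ?_, ?_⟩
  · rw [SmJ.cls_mul hβ' hI, SmJ.cls_span, zero_add]
  · apply mul_left_cancel₀ ha'
    rw [SmJ.map_span_mul, ← mul_assoc, mul_comm (Ideal.span {a}), mul_assoc, e, ← hspan,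
      ← mul_assoc, Ideal.span_singleton_mul_span_singleton, mul_comm _ (po l f (C r⁻¹) * b), hβe,
      ← mul_assoc, Ideal.span_singleton_mul_span_singleton]

end stable

end Pool.Agent.SmS
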