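import Pool.Agent.Lib.SmS.J1
import Pool.Agent.Lib.SmS.Stab
import Pool.Agent.Lib.SmL.V.Alg

/-!
SMITH-S, (8.2) of the paper, THE KEY LEMMA: `J1` contains no nonzero class fixed by `σ`, hence no
nonzero class of `l`-power order.

`J1_tors` from `J1_fixed`: let `c ≠ 0`, `l c = 0` (take a multiple); `λ ^ (l - 1) c = 0` by `V.exists_g` and
`sum_zact`; so some `λ ^ m c ≠ 0` is fixed by `σ`.
-/

set_option autoImplicit false

open Polynomial

namespace Pool.Agent.SmS

variable {l : ℕ} {Om : Type} [Field Om] [Fact l.Prime] {w : ValuationSubring Om} {F : Om[X]}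
  [Sup l F] [IsSepClosed Om] {v : Valuation (Fr l F) w.ValueGroup}

/-! ### Coefficients and the Gauss valuation of polynomials -/

omit [Sup l F] [IsSepClosed Om] in
private theorem J1A_cf_mon (p : Om[X]) {i j : ℕ} (hi : i < l) (hj : j < l) :
    cf (po l F p * yy l F ^ j) i = if i = j then p else 0 := by
  have e : po l F p * yy l F ^ j =
      ∑ m ∈ Finset.range l, po l F (if m = j then p else 0) * yy l F ^ m := by
    rw [Finset.sum_eq_single j]
    · rw [if_pos rfl]
    · intro m _ hm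
      rw [if_neg hm, map_zero, zero_mul]
    · intro h
      exact absurd (Finset.mem_range.mpr hj) h
  rw [e, cf_sum _ hi]

omit [Sup l F] [IsSepClosed Om] in
private theorem J1A_cf_po (p : Om[X]) {i : ℕ} (hi : i < l) :
    cf (po l F p) i = if i = 0 then p else 0 := by
  have h := J1A_cf_mon (F := F) p hi (NeZero.pos l)
  rwa [pow_zero, mul_one] at h

omit [Fact l.Prime] [Sup l F] [IsSepClosed Om] in
private theorem J1A_tm (x y : Co l F) : toFr (x * y) = toFr x * toFr y := map_mul _ _ _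

omit [Fact l.Prime] [Sup l F] [IsSepClosed Om] in
private theorem J1A_ts (x y : Co l F) : toFr (x - y) = toFr x - toFr y := map_sub _ _ _

omit [Fact l.Prime] [Sup l F] [IsSepClosed Om] in
private theorem J1A_t1 : toFr (1 : Co l F) = 1 := map_one _

omit [Fact l.Prime] [Sup l F] [IsSepClosed Om] in
private theorem J1A_t0 : toFr (0 : Co l F) = 0 := map_zero _

omit [Fact l.Prime] [Sup l F] [IsSepClosed Om] in
private theorem J1A_inj {x y : Co l F} (h : toFr x = toFr y) : x = y :=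
  IsFractionRing.injective (Co l F) (Fr l F) h

omit [Fact l.Prime] [Sup l F] [IsSepClosed Om] in
private theorem J1A_ne {x : Co l F} (h : x ≠ 0) : toFr x ≠ 0 := fun h0 =>
  h (J1A_inj (h0.trans (map_zero _).symm))

omit [IsSepClosed Om] in
private theorem J1A_po_ne {p : Om[X]} (h : p ≠ 0) : po l F p ≠ 0 := by
  apply lcc_ne_zero.mp
  rw [lcc_po]
  exact leadingCoeff_ne_zero.mpr h

omit [IsSepClosed Om] in
private theorem J1A_po_lt (hv : IsGv w v) {p : Om[X]} {r : w.ValueGroup} (hr : 0 < r) :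
    v (toFr (po l F p)) < r ↔ ∀ i, w.valuation (p.coeff i) < r := by
  rw [hv.lt_iff _ hr]
  constructor
  · intro h i
    have h1 := h 0 (NeZero.pos l) i
    rwa [J1A_cf_po p (NeZero.pos l), if_pos rfl] at h1
  · intro h j hj i
    rw [J1A_cf_po p hj]
    split_ifs
    · exact h i
    · rw [coeff_zero, map_zero]
      exact hr

omit [IsSepClosed Om] in
private theorem J1A_po_le (hv : IsGv w v) {p : Om[X]} {r : w.ValueGroup}
    (h : v (toFr (po l F p)) ≤ r) (i : ℕ) : w.valuation (p.coeff i) ≤ r := by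
  have h1 := (hv.le_iff _ _).mp h 0 (NeZero.pos l) i
  rwa [J1A_cf_po p (NeZero.pos l), if_pos rfl] at h1

omit [IsSepClosed Om] in
private theorem J1A_cf_lt (hv : IsGv w v) {h : Co l F} {r : w.ValueGroup} (hr : 0 < r)
    (h1 : v (toFr h) < r) {j : ℕ} (hj : j < l) : v (toFr (po l F (cf h j))) < r := by
  rw [J1A_po_lt hv hr]
  exact (hv.lt_iff _ hr).mp h1 j hj

omit [IsSepClosed Om] in
private theorem J1A_monic_unit (hv : IsGv w v) {C0 : (w : Type)[X]} (hC : C0.Monic) {U : Om[X]}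
    (hU : v (toFr (po l F (C0.map (algebraMap w Om) * U - 1))) < 1) : C0 = 1 := by
  have h1 : v (toFr (po l F (C0.map (algebraMap w Om) * U))) = 1 := by
    rw [map_sub, J1A_ts, map_one, J1A_t1] at hU
    have h2 := v.map_eq_of_sub_lt (x := 1) (y := toFr (po l F (C0.map (algebraMap w Om) * U)))
      (by rw [map_one]; exact hU)
    rw [h2, map_one]
  have h2 : v (toFr (po l F U)) = 1 := by
    rw [map_mul, J1A_tm, map_mul, hv.val_po_monic hC, one_mul] at h1
    exact h1
  have h3 : ∀ i, U.coeff i ∈ w := fun i => by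
    rw [← w.valuation_le_one_iff]
    exact J1A_po_le hv h2.le i
  obtain ⟨U0, hU0⟩ : ∃ U0 : (w : Type)[X], U0.map (algebraMap w Om) = U := by
    have h4 : U ∈ Polynomial.lifts (algebraMap w Om) := by
      rw [Polynomial.lifts_iff_coeff_lifts]
      intro i
      exact ⟨⟨_, h3 i⟩, rfl⟩
    exact (Polynomial.mem_lifts _).mp h4
  have h4 : (C0.map (IsLocalRing.residue w)) * (U0.map (IsLocalRing.residue w)) = 1 := by
    rw [← Polynomial.map_mul, ← sub_eq_zero, ← Polynomial.map_one (IsLocalRing.residue w),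
      ← Polynomial.map_sub]
    ext i
    rw [coeff_map, coeff_zero, IsLocalRing.residue_eq_zero_iff, w.valuation_lt_one_iff]
    have h5 := (J1A_po_lt hv zero_lt_one).mp hU i
    have h6 : ((C0 * U0 - 1).coeff i : Om) =
        (C0.map (algebraMap w Om) * U - 1).coeff i := by
      rw [← hU0, ← Polynomial.map_mul, ← Polynomial.map_one (algebraMap w Om),
        ← Polynomial.map_sub, coeff_map]
      rfl
    rw [h6]
    exact h5
  have h5 : IsUnit (C0.map (IsLocalRing.residue w)) := IsUnit.of_mul_eq_one _ h4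
  have h6 := natDegree_eq_zero_of_isUnit h5
  rw [hC.natDegree_map] at h6
  exact hC.natDegree_eq_zero.mp h6

/-! ### The end of the proof -/

private theorem J1A_B {f0 : (w : Type)[X]} (hm : f0.Monic) (hF : f0.map (algebraMap w Om) = F)
    (hv : IsGv w v) {ζ : Om} (hz : IsPrimitiveRoot ζ l) {I : Ideal (Co l F)} (hI : I ≠ ⊥)
    (hs : I.map ((sig hz.pow_eq_one : Co l F ≃+* Co l F) : Co l F →+* Co l F) = I)
    {d : Om[X]} (hd : d ≠ 0) {y : Co l F} (hy : y ∈ I)
    (h1 : v (toFr (y - po l F d)) < v (toFr (po l F d)))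
    (h2 : ∀ t ∈ I, t ≠ 0 → ∃ r : Co l F, v (toFr (po l F d * r - t)) < v (toFr t)) :
    ∃ z, I = Ideal.span {z} := by
  have hl : l.Prime := Fact.out
  obtain ⟨q, hm', hmem, hdiv, h0⟩ := stable_form hz hI hs
  have hl0 : 0 < l := NeZero.pos l
  have hl1 : l - 1 < l := by omega
  obtain ⟨u, hu⟩ := (hmem y).mp hy 0 hl0
  have hVne : ∀ {p : Om[X]}, p ≠ 0 → v (toFr (po l F p)) ≠ 0 := fun hp =>
    (Valuation.ne_zero_iff v).mpr (J1A_ne (J1A_po_ne hp))
  have hVmul : ∀ p p' : Om[X], v (toFr (po l F (p * p'))) =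
      v (toFr (po l F p)) * v (toFr (po l F p')) := fun p p' => by
    rw [map_mul, J1A_tm, map_mul]
  -- the first estimate
  have h3 : v (toFr (po l F (q 0 * u - d))) < v (toFr (po l F d)) := by
    have h4 := J1A_cf_lt hv (zero_lt_iff.mpr (hVne hd)) h1 hl0
    rwa [cf_sub, J1A_cf_po _ hl0, if_pos rfl, hu] at h4
  -- the second estimate
  set Q := q (l - 1) with hQ
  have hQ0 : Q ≠ 0 := (hm' _ hl1).ne_zero
  have hyv : v (toFr (po l F Q * yy l F ^ (l - 1))) = v (toFr (po l F Q)) := by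
    have e : toFr (yy l F ^ (l - 1)) = toFr (yy l F) ^ (l - 1) := map_pow _ _ _
    rw [J1A_tm, map_mul, e, map_pow, hv.val_yy, one_pow, mul_one]
  have hne : v (toFr (po l F Q)) ≠ 0 := hVne hQ0
  obtain ⟨r0, hr0⟩ := h2 (po l F Q * yy l F ^ (l - 1)) (by
    rw [hmem]
    intro j hj
    rw [J1A_cf_mon _ hj hl1]
    split_ifs with h
    · rw [h]
    · exact dvd_zero _) (by
    intro h
    rw [h, J1A_t0, map_zero] at hyv
    exact hne hyv.symm)
  set u' := cf r0 (l - 1) with hu'
  have h4 : v (toFr (po l F (d * u' - Q))) < v (toFr (po l F Q)) := by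
    rw [hyv] at hr0
    have h5 := J1A_cf_lt hv (zero_lt_iff.mpr hne) hr0 hl1
    rwa [cf_sub, cf_po_mul, J1A_cf_mon _ hl1 hl1, if_pos rfl] at h5
  -- divisibilities
  have hchain : ∀ e i, i + e < l → q (i + e) ∣ q i := by
    intro e
    induction e with
    | zero => intro i _; exact dvd_rfl
    | succ e ih =>
      intro i hi
      exact (hdiv (i + e) (by omega)).trans (ih i (by omega))
  obtain ⟨Cc, hCc⟩ : Q ∣ q 0 := by
    have := hchain (l - 1) 0 (by omega)
    rwa [zero_add] at this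
  have hCm : Cc.Monic := by
    have := hm' 0 hl0
    rw [hCc] at this
    exact (hm' _ hl1).of_mul_monic_left this
  have hCF : Cc ∣ F := by
    rw [hCc, mul_comm F] at h0
    exact (mul_dvd_mul_iff_left hQ0).mp h0
  obtain ⟨C0, hC0⟩ : ∃ C0 : (w : Type)[X], C0.map (algebraMap w Om) = Cc := by
    rw [← hF] at hCF
    obtain ⟨C0, hC0⟩ := IsIntegrallyClosed.eq_map_mul_C_of_dvd Om hm hCF
    refine ⟨C0, ?_⟩
    rw [hCm.leadingCoeff, C_1, mul_one] at hC0
    exact hC0
  have hC0m : C0.Monic := by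
    apply monic_of_injective (f := algebraMap w Om) (IsFractionRing.injective w Om)
    rw [hC0]
    exact hCm
  have hdu : v (toFr (po l F (d * u'))) = v (toFr (po l F Q)) := by
    rw [map_sub, J1A_ts] at h4
    exact v.map_eq_of_sub_lt h4
  have hu0 : v (toFr (po l F u')) ≠ 0 := by
    intro h
    rw [hVmul, h, mul_zero] at hdu
    exact hne hdu.symm
  have h5 : v (toFr (po l F (Cc * (u * u') - 1))) < 1 := by
    have h6 : v (toFr (po l F (Q * (Cc * (u * u') - 1)))) < v (toFr (po l F Q)) := by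
      have e : Q * (Cc * (u * u') - 1) = (q 0 * u - d) * u' + (d * u' - Q) := by
        rw [hCc]
        ring
      have e2 : toFr (po l F (Q * (Cc * (u * u') - 1))) =
          toFr (po l F ((q 0 * u - d) * u')) + toFr (po l F (d * u' - Q)) := by
        rw [e, map_add]
        exact map_add _ _ _
      rw [e2]
      refine v.map_add_lt ?_ h4
      rw [hVmul, ← hdu, hVmul]
      exact mul_lt_mul_of_pos_right h3 (zero_lt_iff.mpr hu0)
    rw [hVmul] at h6
    by_contra h7
    rw [not_lt] at h7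
    exact absurd h6 (not_lt.mpr (le_mul_of_one_le_right' h7))
  have hC1 : Cc = 1 := by
    rw [← hC0, J1A_monic_unit hv hC0m (U := u * u') (by rw [hC0]; exact h5), Polynomial.map_one]
  -- all the `q j` are equal
  have hq : ∀ j < l, q j = q 0 := by
    intro j hj
    have e1 : q j ∣ q 0 := by
      have := hchain j 0 (by omega)
      rwa [zero_add] at this
    have e2 : q 0 ∣ q j := by
      rw [hCc, hC1, mul_one]
      have := hchain (l - 1 - j) j (by omega)
      rwa [show j + (l - 1 - j) = l - 1 by omega] at this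
    exact eq_of_monic_of_associated (hm' j hj) (hm' 0 hl0) (associated_of_dvd_dvd e1 e2)
  refine ⟨po l F (q 0), ?_⟩
  ext h
  rw [Ideal.mem_span_singleton, hmem]
  constructor
  · intro hh
    have h1 : ∀ j, ∃ c : Om[X], j < l → cf h j = q 0 * c := by
      intro j
      by_cases hj : j < l
      · obtain ⟨c, hc⟩ := hh j hj
        exact ⟨c, fun _ => by rw [hc, hq j hj]⟩
      · exact ⟨0, fun h => absurd h hj⟩
    choose c hc using h1
    refine ⟨∑ j ∈ Finset.range l, po l F (c j) * yy l F ^ j, ?_⟩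
    conv_lhs => rw [eq_sum h]
    rw [Finset.mul_sum]
    refine Finset.sum_congr rfl fun j hj => ?_
    rw [hc j (Finset.mem_range.mp hj), map_mul, mul_assoc]
  · rintro ⟨g, rfl⟩ j hj
    rw [cf_po_mul, hq j hj]
    exact dvd_mul_right _ _

/-! ### The powers of `σ` -/

private noncomputable abbrev J1A_S {ζ : Om} (hz : ζ ^ l = 1) (k : ℕ) : Co l F ≃+* Co l F :=
  sig (zpow_pow hz k)

omit [Sup l F] [IsSepClosed Om] in
private theorem J1A_S_cf {ζ : Om} (hz : ζ ^ l = 1) (k : ℕ) (h : Co l F) {j : ℕ} (hj : j < l) :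
    cf (J1A_S hz k h) j = C ((ζ ^ k)⁻¹ ^ j) * cf h j := by
  rw [J1A_S, sig, cf_coMap _ _ _ _ _ hj, map_refl]

omit [Sup l F] [IsSepClosed Om] in
private theorem J1A_S_cf1 {ζ : Om} (hz : ζ ^ l = 1) (h : Co l F) {j : ℕ} (hj : j < l) :
    cf (sig (f := F) hz h) j = C (ζ⁻¹ ^ j) * cf h j := by
  rw [sig, cf_coMap _ _ _ _ _ hj, map_refl]

omit [Sup l F] [IsSepClosed Om] in
private theorem J1A_S_zero {ζ : Om} (hz : ζ ^ l = 1) (h : Co l F) : J1A_S hz 0 h = h := by
  refine co_ext fun j hj => ?_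
  rw [J1A_S_cf hz 0 h hj, pow_zero, inv_one, one_pow, C_1, one_mul]

omit [Sup l F] [IsSepClosed Om] in
private theorem J1A_S_self {ζ : Om} (hz : ζ ^ l = 1) (h : Co l F) : J1A_S hz l h = h := by
  refine co_ext fun j hj => ?_
  rw [J1A_S_cf hz l h hj, hz, inv_one, one_pow, C_1, one_mul]

omit [Sup l F] [IsSepClosed Om] in
private theorem J1A_S_succ {ζ : Om} (hz : ζ ^ l = 1) (k : ℕ) (h : Co l F) :
    sig hz (J1A_S hz k h) = J1A_S hz (k + 1) h := by
  refine co_ext fun j hj => ?_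
  rw [J1A_S_cf1 hz _ hj, J1A_S_cf hz k h hj, J1A_S_cf hz (k + 1) h hj, ← mul_assoc, ← C_mul,
    ← mul_pow, ← mul_inv, pow_succ']

omit [Sup l F] [IsSepClosed Om] in
private theorem J1A_S_succ' {ζ : Om} (hz : ζ ^ l = 1) (k : ℕ) (h : Co l F) :
    J1A_S hz k (sig hz h) = J1A_S hz (k + 1) h := by
  refine co_ext fun j hj => ?_
  rw [J1A_S_cf hz k _ hj, J1A_S_cf1 hz h hj, J1A_S_cf hz (k + 1) h hj, ← mul_assoc, ← C_mul,
    ← mul_pow, ← mul_inv, pow_succ]

omit [Sup l F] [IsSepClosed Om] in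
private theorem J1A_S_const {ζ : Om} (hz : ζ ^ l = 1) (k : ℕ) (c : Om) :
    J1A_S (F := F) hz k (po l F (C c)) = po l F (C c) := by
  rw [J1A_S, sig, coMap_po, map_C]
  rfl

/-- `(a) σ(I) = (b) I`: the norms of `a` and `b` agree up to a constant. -/
private theorem J1A_norm {ζ : Om} (hz : ζ ^ l = 1) {I : Ideal (Co l F)} (hI : I ≠ ⊥)
    {a b : Co l F} (e : Ideal.span {a} * I.map ((sig hz : Co l F ≃+* Co l F) :
      Co l F →+* Co l F) = Ideal.span {b} * I) :
    ∃ ν : Om, ν ≠ 0 ∧ ∏ k ∈ Finset.range l, J1A_S hz k b =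
      po l F (C ν) * ∏ k ∈ Finset.range l, J1A_S hz k a := by
  have hmap : ∀ k : ℕ, I.map ((J1A_S hz k : Co l F ≃+* Co l F) : Co l F →+* Co l F) ≠ ⊥ :=
    fun k => SmJ.map_ne_bot _ hI
  have e2 : ∀ k : ℕ, Ideal.span {J1A_S hz k a} *
      I.map ((J1A_S hz (k + 1) : Co l F ≃+* Co l F) : Co l F →+* Co l F) =
      Ideal.span {J1A_S hz k b} *
      I.map ((J1A_S hz k : Co l F ≃+* Co l F) : Co l F →+* Co l F) := by
    intro k
    have h1 := congrArg (Ideal.map ((J1A_S hz k : Co l F ≃+* Co l F) :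
      Co l F →+* Co l F)) e
    rw [SmJ.map_span_mul, SmJ.map_span_mul, Ideal.map_map] at h1
    have h2 : ((J1A_S hz k : Co l F ≃+* Co l F) : Co l F →+* Co l F).comp
        ((sig hz : Co l F ≃+* Co l F) : Co l F →+* Co l F) =
        ((J1A_S hz (k + 1) : Co l F ≃+* Co l F) : Co l F →+* Co l F) :=
      RingHom.ext fun h => J1A_S_succ' hz k h
    rw [h2] at h1
    exact h1
  have e3 : Ideal.span {∏ k ∈ Finset.range l, J1A_S hz k a} =
      Ideal.span {∏ k ∈ Finset.range l, J1A_S hz k b} := by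
    have h1 : ∏ k ∈ Finset.range l, (Ideal.span {J1A_S hz k a} *
      I.map ((J1A_S hz (k + 1) : Co l F ≃+* Co l F) : Co l F →+* Co l F)) =
      ∏ k ∈ Finset.range l, (Ideal.span {J1A_S hz k b} *
      I.map ((J1A_S hz k : Co l F ≃+* Co l F) : Co l F →+* Co l F)) :=
      Finset.prod_congr rfl fun k _ => e2 k
    rw [Finset.prod_mul_distrib, Finset.prod_mul_distrib, Ideal.prod_span_singleton,
      Ideal.prod_span_singleton] at h1
    have h2 : ∏ k ∈ Finset.range l,
        I.map ((J1A_S hz (k + 1) : Co l F ≃+* Co l F) : Co l F →+* Co l F) =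
        ∏ k ∈ Finset.range l,
        I.map ((J1A_S hz k : Co l F ≃+* Co l F) : Co l F →+* Co l F) := by
      have h3 := Finset.prod_range_succ (fun k => I.map ((J1A_S hz k :
        Co l F ≃+* Co l F) : Co l F →+* Co l F)) l
      rw [Finset.prod_range_succ'] at h3
      have h4 : I.map ((J1A_S hz l : Co l F ≃+* Co l F) : Co l F →+* Co l F) =
          I.map ((J1A_S hz 0 : Co l F ≃+* Co l F) : Co l F →+* Co l F) := by
        congr 1
        exact RingHom.ext fun h => by
          change J1A_S hz l h = J1A_S hz 0 h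
          rw [J1A_S_self, J1A_S_zero]
      rw [h4] at h3
      exact mul_right_cancel₀ (hmap 0) h3
    rw [h2] at h1
    exact mul_right_cancel₀ (Finset.prod_ne_zero_iff.mpr fun k _ => hmap k) h1
  obtain ⟨w', hw⟩ := Ideal.span_singleton_eq_span_singleton.mp e3
  obtain ⟨ν, hν, hwν⟩ := isUnit_co.mp w'.isUnit
  exact ⟨ν, hν, by rw [← hw, hwν, mul_comm]⟩

/-! ### The cocycle -/

/-- `k ↦ g σ(g) ... σ ^ (k - 1)(g)`. -/
private noncomputable def J1A_P {K : Type} [Field K] (s : K ≃+* K) (g : K) : ℕ → K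
  | 0 => 1
  | k + 1 => g * s (J1A_P s g k)

private theorem J1A_sum {K : Type} [Field K] (s : K ≃+* K) (g : K) {n : ℕ} (h : J1A_P s g n = 1) :
    g * s (∑ k ∈ Finset.range n, J1A_P s g k) = ∑ k ∈ Finset.range n, J1A_P s g k := by
  rw [map_sum, Finset.mul_sum]
  have h2 := Finset.sum_range_succ (J1A_P s g) n
  rw [Finset.sum_range_succ', h] at h2
  exact add_right_cancel h2

omit [IsSepClosed Om] in
private theorem J1A_P_eq {ζ : Om} (hz : ζ ^ l = 1) {a b z : Co l F} {g : Fr l F}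
    (hg : g * (toFr a * toFr (sig hz z)) = toFr b * toFr z) (k : ℕ) :
    J1A_P (sfr hz) g k * toFr ((∏ i ∈ Finset.range k, J1A_S hz i a) * J1A_S hz k z) =
      toFr ((∏ i ∈ Finset.range k, J1A_S hz i b) * z) := by
  induction k with
  | zero =>
    rw [Finset.prod_range_zero, Finset.prod_range_zero, J1A_S_zero]
    exact one_mul _
  | succ k ih =>
    have h1 : ∀ c : Co l F, ∏ i ∈ Finset.range (k + 1), J1A_S hz i c =
        sig hz (∏ i ∈ Finset.range k, J1A_S hz i c) * c := by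
      intro c
      rw [Finset.prod_range_succ', map_prod, J1A_S_zero]
      congr 1
      exact Finset.prod_congr rfl fun i _ => (J1A_S_succ hz i c).symm
    have h2 := congrArg (sfr hz) ih
    rw [map_mul, show sfr hz (toFr ((∏ i ∈ Finset.range k, J1A_S hz i a) * J1A_S hz k z)) = _ from
      sfr_toFr hz _, show sfr hz (toFr ((∏ i ∈ Finset.range k, J1A_S hz i b) * z)) = _ from
      sfr_toFr hz _, map_mul, map_mul, J1A_tm, J1A_tm, J1A_S_succ] at h2
    rw [h1, h1, J1A_tm, J1A_tm, J1A_tm, J1A_tm]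
    change g * sfr hz (J1A_P (sfr hz) g k) * _ = _
    calc _ = g * toFr a * (sfr hz (J1A_P (sfr hz) g k) *
          (toFr (sig hz (∏ i ∈ Finset.range k, J1A_S hz i a)) * toFr (J1A_S hz (k + 1) z))) := by
          ring
      _ = g * (toFr a * toFr (sig hz z)) * toFr (sig hz (∏ i ∈ Finset.range k, J1A_S hz i b)) := by
          rw [h2]
          ring
      _ = _ := by
          rw [hg]
          ring

omit [IsSepClosed Om] in
private theorem J1A_lt {x y : w.ValueGroup} (hx : x ≤ 1) (hy : y < 1) : x * y < 1 :=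
  lt_of_le_of_lt (mul_le_of_le_one_left' hx) hy

omit [Fact l.Prime] [Sup l F] [IsSepClosed Om] in
private theorem J1A_close_mul {x y x' y' : Fr l F} (hx : v x ≤ 1) (hy' : v y' ≤ 1)
    (h : v (x - y) < 1) (h' : v (x' - y') < 1) : v (x * x' - y * y') < 1 := by
  have e : x * x' - y * y' = x * (x' - y') + (x - y) * y' := by ring
  rw [e]
  refine v.map_add_lt ?_ ?_
  · rw [map_mul]
    exact J1A_lt hx h'
  · rw [map_mul, mul_comm]
    exact J1A_lt hy' h

omit [Fact l.Prime] [Sup l F] [IsSepClosed Om] in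
private theorem J1A_close_val {x y : Fr l F} (h : v (x - y) < 1) (hy : v y = 1) : v x = 1 := by
  rw [← hy]
  exact v.map_eq_of_sub_lt (by rw [hy]; exact h)

omit [IsSepClosed Om] in
private theorem J1A_P_close (hv : IsGv w v) {ζ : Om} (hz : ζ ^ l = 1) {g : Fr l F} {c : Om}
    (hc : w.valuation c = 1) (hg : v (g - toFr (po l F (C c))) < 1) (k : ℕ) :
    v (J1A_P (sfr hz) g k - toFr (po l F (C (c ^ k)))) < 1 := by
  induction k with
  | zero =>
    change v (1 - _) < 1
    rw [pow_zero, C_1, map_one, J1A_t1, sub_self, map_zero]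
    exact zero_lt_one
  | succ k ih =>
    change v (g * sfr hz (J1A_P (sfr hz) g k) - _) < 1
    rw [pow_succ', C_mul, map_mul, J1A_tm]
    refine J1A_close_mul ?_ ?_ hg ?_
    · rw [J1A_close_val hg (by rw [hv.val_C, hc])]
    · rw [hv.val_C, map_pow, hc, one_pow]
    · have e : toFr (po l F (C (c ^ k))) = sfr hz (toFr (po l F (C (c ^ k)))) := by
        rw [show sfr hz (toFr (po l F (C (c ^ k)))) = _ from sfr_toFr hz _]
        congr 1
        rw [coMap_po, map_C]
        rfl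
      rw [e, ← map_sub, val_sfr hv hz]
      exact ih

/-! ### The proof -/

omit [Fact l.Prime] [Sup l F] [IsSepClosed Om] in
private theorem J1A_span_C {c : Om} (hc : c ≠ 0) (b : Co l F) :
    Ideal.span {po l F (C c) * b} = Ideal.span {b} := by
  have hu : IsUnit (po l F (C c)) := (isUnit_C.mpr (IsUnit.mk0 _ hc)).map _
  exact Ideal.span_singleton_mul_left_unit hu b

omit [IsSepClosed Om] in
/-- An `l`-th root of unity close to `c`. -/
private theorem J1A_root {ζ : Om} (hz : IsPrimitiveRoot ζ l) {c : Om}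
    (hc : w.valuation (c ^ l - 1) < 1) : ∃ k : ℕ, w.valuation (c - ζ ^ k) < 1 := by
  have hl : l.Prime := Fact.out
  by_contra hcon
  push Not at hcon
  have h1 := X_pow_sub_C_eq_prod hz hl.pos (one_pow l : (1 : Om) ^ l = 1)
  have h2 := congrArg (eval c) h1
  rw [eval_sub, eval_pow, eval_X, eval_C, eval_prod] at h2
  rw [h2, map_prod] at hc
  refine absurd hc (not_lt.mpr (Finset.one_le_prod' fun k _ => ?_))
  rw [eval_sub, eval_X, eval_C, mul_one]
  exact hcon k

/-- First part: the normalised cocycle. -/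
private theorem J1A_core1 {f0 : (w : Type)[X]} (hm : f0.Monic)
    (hF : f0.map (algebraMap w Om) = F) (hv : IsGv w v) {ζ : Om} (hz : IsPrimitiveRoot ζ l)
    {I : Ideal (Co l F)} (hI : I ≠ ⊥) {z : Co l F} (hz0 : z ≠ 0) {h h' : Fr l F}
    (hh : v (h - 1) < 1) (hh' : v (h' - 1) < 1) {y : Co l F} (hy : y ∈ I)
    (hyz : h * toFr z = toFr y) (hr : ∀ t ∈ I, ∃ r : Co l F, h' * toFr t = toFr z * toFr r)
    (hfix : SmJ.cls (I.map ((sig hz.pow_eq_one : Co l F ≃+* Co l F) : Co l F →+* Co l F)) =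
      SmJ.cls I) :
    ∃ (a b2 : Co l F) (g2 : Fr l F), a ≠ 0 ∧ Ideal.span {a} *
      I.map ((sig hz.pow_eq_one : Co l F ≃+* Co l F) : Co l F →+* Co l F) =
        Ideal.span {b2} * I ∧
      g2 * (toFr a * toFr (sig hz.pow_eq_one z)) = toFr b2 * toFr z ∧ v (g2 - 1) < 1 ∧
      J1A_P (sfr hz.pow_eq_one) g2 l = 1 := by
  have hlp : l.Prime := Fact.out
  have hl0 : (l : Om) ≠ 0 := Sup.ne (f := F)
  set s : Co l F ≃+* Co l F := sig hz.pow_eq_one with hs
  set S : Fr l F ≃+* Fr l F := sfr hz.pow_eq_one with hS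
  have hSt : ∀ x : Co l F, S (toFr x) = toFr (s x) := fun x => sfr_toFr hz.pow_eq_one x
  have hSv : ∀ x : Fr l F, v (S x) = v x := fun x => val_sfr hv hz.pow_eq_one x
  have hSC : ∀ c : Om, s (po l F (C c)) = po l F (C c) := by
    intro c
    rw [hs, coMap_po, map_C]
    rfl
  have hz1 : toFr z ≠ 0 := J1A_ne hz0
  have hsz1 : toFr (s z) ≠ 0 := J1A_ne fun h => hz0 ((map_eq_zero_iff s s.injective).mp h)
  have hC0 : ∀ {c : Om}, c ≠ 0 → toFr (po l F (C c)) ≠ 0 := fun hc =>
    J1A_ne (J1A_po_ne (C_ne_zero.mpr hc))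
  obtain ⟨a, b0, ha, hb0, e0⟩ := (SmJ.cls_eq_iff (SmJ.map_ne_bot _ hI) hI).mp hfix
  -- normalise the value
  obtain ⟨κ, hκ⟩ := w.valuation_surjective (v (toFr a) * (v (toFr b0))⁻¹)
  have hva : v (toFr a) ≠ 0 := (Valuation.ne_zero_iff v).mpr (J1A_ne ha)
  have hvb0 : v (toFr b0) ≠ 0 := (Valuation.ne_zero_iff v).mpr (J1A_ne hb0)
  have hκ0 : κ ≠ 0 := by
    rintro rfl
    rw [map_zero] at hκ
    exact mul_ne_zero hva (inv_ne_zero hvb0) hκ.symm
  obtain ⟨b, hb, e, hvb⟩ : ∃ b : Co l F, b ≠ 0 ∧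
      Ideal.span {a} * I.map ((s : Co l F ≃+* Co l F) : Co l F →+* Co l F) = Ideal.span {b} * I ∧
      v (toFr b) = v (toFr a) := by
    refine ⟨po l F (C κ) * b0, mul_ne_zero (J1A_po_ne (C_ne_zero.mpr hκ0)) hb0, ?_, ?_⟩
    · rw [J1A_span_C hκ0]
      exact e0
    · rw [J1A_tm, map_mul, hv.val_C, hκ, mul_assoc, inv_mul_cancel₀ hvb0, mul_one]
  clear e0 hκ hκ0 hvb0 hb0
  have ha1 : toFr a ≠ 0 := J1A_ne ha
  have hb1 : toFr b ≠ 0 := J1A_ne hb
  set g : Fr l F := toFr b * toFr z / (toFr a * toFr (s z)) with hg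
  have hg1 : g * (toFr a * toFr (s z)) = toFr b * toFr z :=
    div_mul_cancel₀ _ (mul_ne_zero ha1 hsz1)
  have hvz : v (toFr (s z)) = v (toFr z) := by rw [← hSt, hSv]
  have hvg : v g = 1 := by
    rw [hg, map_div₀, map_mul, map_mul, hvb, hvz]
    exact div_self (mul_ne_zero hva ((Valuation.ne_zero_iff v).mpr hz1))
  -- the elements r1, r2
  obtain ⟨t, ht, hbt⟩ : ∃ t ∈ I, b * y = a * s t := by
    have h1 : b * y ∈ Ideal.span {b} * I := Ideal.mul_mem_mul (Ideal.mem_span_singleton_self b) hy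
    rw [← e, Ideal.mem_span_singleton_mul] at h1
    obtain ⟨u, hu, hu'⟩ := h1
    rw [Ideal.mem_map_iff_of_surjective (s : Co l F →+* Co l F) s.surjective] at hu
    obtain ⟨t, ht, rfl⟩ := hu
    exact ⟨t, ht, hu'.symm⟩
  obtain ⟨t', ht', hat⟩ : ∃ t' ∈ I, a * s y = b * t' := by
    have h1 : a * s y ∈ Ideal.span {a} * I.map ((s : Co l F ≃+* Co l F) : Co l F →+* Co l F) :=
      Ideal.mul_mem_mul (Ideal.mem_span_singleton_self a) (Ideal.mem_map_of_mem _ hy)
    rw [e, Ideal.mem_span_singleton_mul] at h1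
    obtain ⟨u, hu, hu'⟩ := h1
    exact ⟨u, hu, hu'.symm⟩
  obtain ⟨r1, hr1⟩ := hr t ht
  obtain ⟨r2, hr2⟩ := hr t' ht'
  have hR1 : toFr (s r1) = g * (h * S h') := by
    have h1 := congrArg S hr1
    rw [map_mul, map_mul, hSt, hSt, hSt] at h1
    have h2 : toFr b * toFr y = toFr a * toFr (s t) := by
      rw [← J1A_tm, hbt, J1A_tm]
    apply mul_left_cancel₀ (mul_ne_zero ha1 hsz1)
    calc toFr a * toFr (s z) * toFr (s r1) = toFr a * (toFr (s z) * toFr (s r1)) := by ring
      _ = (toFr a * toFr (s t)) * S h' := by rw [← h1]; ring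
      _ = toFr b * toFr z * (h * S h') := by rw [← h2, ← hyz]; ring
      _ = _ := by rw [← hg1]; ring
  have hR2 : g * toFr r2 = S h * h' := by
    have h2 : toFr a * toFr (s y) = toFr b * toFr t' := by
      rw [← J1A_tm, hat, J1A_tm]
    have h3 : S h * toFr (s z) = toFr (s y) := by
      rw [← hSt, ← hSt, ← map_mul, hyz]
    apply mul_left_cancel₀ (mul_ne_zero ha1 hsz1)
    calc toFr a * toFr (s z) * (g * toFr r2) = (g * (toFr a * toFr (s z))) * toFr r2 := by ring
      _ = toFr b * (toFr z * toFr r2) := by rw [hg1]; ring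
      _ = (toFr b * toFr t') * h' := by rw [← hr2]; ring
      _ = _ := by rw [← h2, ← h3]; ring
  have hvh : v h = 1 := J1A_close_val (y := 1) hh (map_one v)
  have hvh' : v h' = 1 := J1A_close_val (y := 1) hh' (map_one v)
  have hcl1 : v (h * S h' - 1) < 1 := by
    have h1 := J1A_close_mul (v := v) (x := h) (y := 1) (x' := S h') (y' := 1) hvh.le
      (by rw [map_one]) hh (by rw [← map_one S, ← map_sub, hSv]; exact hh')
    rwa [one_mul] at h1
  have hcl2 : v (S h * h' - 1) < 1 := by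
    have h1 := J1A_close_mul (v := v) (x := S h) (y := 1) (x' := h') (y' := 1)
      (by rw [hSv]; exact hvh.le)
      (by rw [map_one]) (by rw [← map_one S, ← map_sub, hSv]; exact hh) hh'
    rwa [one_mul] at h1
  have hv1 : v (toFr (s r1)) = 1 := by
    rw [hR1, map_mul, map_mul, hSv, hvg, hvh, hvh', one_mul, one_mul]
  have hv2 : v (toFr r2) = 1 := by
    have h1 := congrArg v hR2
    rw [map_mul, map_mul, hSv, hvg, hvh, hvh', one_mul, one_mul] at h1
    exact h1
  have hv3 : v (toFr (s r1 * r2 - 1)) < 1 := by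
    have h1 : toFr (s r1 * r2) = (h * S h') * (S h * h') := by
      rw [J1A_tm, hR1, ← hR2]
      ring
    rw [J1A_ts, J1A_t1, h1]
    have h2 := J1A_close_mul (v := v) (x := h * S h') (y := 1) (x' := S h * h') (y' := 1)
      (J1A_close_val (y := 1) hcl1 (map_one v)).le (by rw [map_one]) hcl1 hcl2
    rwa [one_mul] at h2
  obtain ⟨c, hc, hcv⟩ := unit_mod hm hF hv hv1.le hv2.le hv3
  have hgc : v (g - toFr (po l F (C c))) < 1 := by
    have h1 : g - toFr (po l F (C c)) = -(g * (h * S h' - 1)) +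
        (toFr (s r1) - toFr (po l F (C c))) := by
      rw [hR1]
      ring
    rw [h1]
    refine v.map_add_lt ?_ ?_
    · rw [Valuation.map_neg, map_mul, hvg, one_mul]
      exact hcl1
    · rw [← J1A_ts]
      exact hcv
  -- the norm
  obtain ⟨ν, hν, hνe⟩ := J1A_norm hz.pow_eq_one hI e
  have hNa : ∏ k ∈ Finset.range l, J1A_S hz.pow_eq_one k a ≠ 0 :=
    Finset.prod_ne_zero_iff.mpr fun k _ h =>
      ha ((map_eq_zero_iff _ (J1A_S hz.pow_eq_one k).injective).mp h)
  have hPl : J1A_P S g l = toFr (po l F (C ν)) := by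
    have h1 := J1A_P_eq hz.pow_eq_one hg1 l
    rw [J1A_S_self, hνe] at h1
    apply mul_right_cancel₀ (J1A_ne (mul_ne_zero hNa hz0))
    rw [h1, ← J1A_tm, mul_assoc]
  have hνc : w.valuation (ν - c ^ l) < 1 := by
    have h1 := J1A_P_close hv hz.pow_eq_one hc hgc l
    rw [show J1A_P (sfr hz.pow_eq_one) g l = _ from hPl, ← J1A_ts, ← map_sub, ← C_sub,
      hv.val_C] at h1
    exact h1
  obtain ⟨ρ, hρ⟩ := exists_root l hl0 ν
  have hρ0 : ρ ≠ 0 := by
    rintro rfl
    rw [zero_pow hlp.ne_zero] at hρ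
    exact hν hρ.symm
  have hνv : w.valuation ν = 1 := by
    have h1 : w.valuation (c ^ l) = 1 := by rw [map_pow, hc, one_pow]
    rw [← h1]
    exact w.valuation.map_eq_of_sub_lt (by rw [h1]; exact hνc)
  have hρv : w.valuation ρ = 1 := by
    rw [← hρ, map_pow] at hνv
    exact (pow_eq_one_iff.mp hνv).resolve_right hlp.ne_zero
  obtain ⟨k, hk⟩ := J1A_root (w := w) hz (c := c / ρ) (by
    rw [div_pow, hρ, div_sub_one hν, map_div₀, hνv, div_one, Valuation.map_sub_swap]
    exact hνc)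
  set τ : Om := ζ ^ k * ρ with hτ
  have hζ0 : ζ ≠ 0 := ne_of_pow hz.pow_eq_one
  have hζv : w.valuation ζ = 1 := by
    have h1 : w.valuation ζ ^ l = 1 := by rw [← map_pow, hz.pow_eq_one, map_one]
    exact (pow_eq_one_iff.mp h1).resolve_right hlp.ne_zero
  have hτ0 : τ ≠ 0 := mul_ne_zero (pow_ne_zero _ hζ0) hρ0
  have hτl : τ ^ l = ν := by
    rw [hτ, mul_pow, hρ, ← pow_mul, mul_comm k, pow_mul, hz.pow_eq_one, one_pow, one_mul]
  have hτv : w.valuation τ = 1 := by
    rw [hτ, map_mul, map_pow, hζv, hρv, one_pow, one_mul]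
  have hcτ : w.valuation (c - τ) < 1 := by
    have h1 : c - τ = ρ * (c / ρ - ζ ^ k) := by
      rw [mul_sub, mul_div_cancel₀ _ hρ0, hτ]
      ring
    rw [h1, map_mul, hρv, one_mul]
    exact hk
  have hgτ : v (g - toFr (po l F (C τ))) < 1 := by
    have h1 : g - toFr (po l F (C τ)) = (g - toFr (po l F (C c))) +
        toFr (po l F (C (c - τ))) := by
      rw [C_sub, map_sub, J1A_ts]
      ring
    rw [h1]
    refine v.map_add_lt hgc ?_
    rw [hv.val_C]
    exact hcτ
  -- the normalised cocycle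
  have hττ : toFr (po l F (C τ⁻¹)) * toFr (po l F (C τ)) = 1 := by
    rw [← J1A_tm, ← map_mul, ← C_mul, inv_mul_cancel₀ hτ0, C_1, map_one, J1A_t1]
  set b2 : Co l F := po l F (C τ⁻¹) * b with hb2
  set g2 : Fr l F := toFr (po l F (C τ⁻¹)) * g with hg2
  have hg21 : g2 * (toFr a * toFr (s z)) = toFr b2 * toFr z := by
    rw [hg2, hb2, J1A_tm, mul_assoc, hg1, mul_assoc]
  have hg2c : v (g2 - 1) < 1 := by
    have h1 : g2 - 1 = toFr (po l F (C τ⁻¹)) * (g - toFr (po l F (C τ))) := by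
      rw [mul_sub, hττ]
    rw [h1, map_mul, hv.val_C, map_inv₀, hτv, inv_one, one_mul]
    exact hgτ
  have hP2 : J1A_P S g2 l = 1 := by
    have h1 := J1A_P_eq hz.pow_eq_one hg21 l
    have h2 : ∏ k ∈ Finset.range l, J1A_S hz.pow_eq_one k b2 =
        ∏ k ∈ Finset.range l, J1A_S hz.pow_eq_one k a := by
      rw [Finset.prod_congr rfl fun k _ => show J1A_S hz.pow_eq_one k b2 =
        po l F (C τ⁻¹) * J1A_S hz.pow_eq_one k b by rw [hb2, map_mul, J1A_S_const],
        Finset.prod_mul_distrib, Finset.prod_const, Finset.card_range, hνe, ← map_pow, ← C_pow,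
        inv_pow, hτl, ← mul_assoc, ← map_mul, ← C_mul, inv_mul_cancel₀ hν, C_1, map_one, one_mul]
    rw [J1A_S_self, h2] at h1
    apply mul_right_cancel₀ (J1A_ne (mul_ne_zero hNa hz0))
    rw [h1, one_mul]
  refine ⟨a, b2, g2, ha, ?_, hg21, hg2c, hP2⟩
  rw [hb2, J1A_span_C (inv_ne_zero hτ0)]
  exact e

/-- Second part: the stable ideal. -/
private theorem J1A_core2 {f0 : (w : Type)[X]} (hm : f0.Monic)
    (hF : f0.map (algebraMap w Om) = F) (hv : IsGv w v) (hl : w.valuation (l : Om) = 1)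
    {ζ : Om} (hz : IsPrimitiveRoot ζ l)
    {I : Ideal (Co l F)} (hI : I ≠ ⊥) {z : Co l F} (hz0 : z ≠ 0) {h h' : Fr l F}
    (hh : v (h - 1) < 1) (hh' : v (h' - 1) < 1) {y : Co l F} (hy : y ∈ I)
    (hyz : h * toFr z = toFr y) (hr : ∀ t ∈ I, ∃ r : Co l F, h' * toFr t = toFr z * toFr r)
    {a b2 : Co l F} {g2 : Fr l F} (ha : a ≠ 0) (e : Ideal.span {a} *
      I.map ((sig hz.pow_eq_one : Co l F ≃+* Co l F) : Co l F →+* Co l F) =
        Ideal.span {b2} * I)
    (hg21 : g2 * (toFr a * toFr (sig hz.pow_eq_one z)) = toFr b2 * toFr z)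
    (hg2c : v (g2 - 1) < 1) (hP2 : J1A_P (sfr hz.pow_eq_one) g2 l = 1) : SmJ.cls I = 0 := by
  have hlp : l.Prime := Fact.out
  have hl0 : (l : Om) ≠ 0 := Sup.ne (f := F)
  set s : Co l F ≃+* Co l F := sig hz.pow_eq_one with hs
  set S : Fr l F ≃+* Fr l F := sfr hz.pow_eq_one with hS
  have hSt : ∀ x : Co l F, S (toFr x) = toFr (s x) := fun x => sfr_toFr hz.pow_eq_one x
  have hz1 : toFr z ≠ 0 := J1A_ne hz0
  set β : Fr l F := ∑ k ∈ Finset.range l, J1A_P S g2 k with hβ
  have hβ1 : g2 * S β = β := J1A_sum S g2 hP2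
  have hβc : v (β - toFr (po l F (C (l : Om)))) < 1 := by
    have h1 : β - toFr (po l F (C (l : Om))) = ∑ k ∈ Finset.range l,
        (J1A_P S g2 k - toFr (po l F (C ((1 : Om) ^ k)))) := by
      rw [Finset.sum_sub_distrib, hβ]
      congr 1
      simp
    rw [h1]
    refine v.map_sum_lt one_ne_zero fun k _ => ?_
    refine J1A_P_close hv hz.pow_eq_one (map_one _) ?_ k
    rw [C_1, map_one, J1A_t1]
    exact hg2c
  set L : Fr l F := toFr (po l F (C (l : Om))) with hL
  set L' : Fr l F := toFr (po l F (C (l : Om)⁻¹)) with hL'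
  have hLL : L' * L = 1 := by
    rw [hL, hL', ← J1A_tm, ← map_mul, ← C_mul, inv_mul_cancel₀ hl0, C_1, map_one, J1A_t1]
  have hLv : v L = 1 := by rw [hL, hv.val_C, hl]
  have hLv' : v L' = 1 := by rw [hL', hv.val_C, map_inv₀, hl, inv_one]
  have hβv : v β = 1 := J1A_close_val hβc hLv
  have hβ0 : β ≠ 0 := by
    intro h
    rw [h, map_zero] at hβv
    exact zero_ne_one hβv
  -- the stable ideal
  obtain ⟨n0, m0, hm0, hnm⟩ := IsFractionRing.div_surjective (A := Co l F) (β / toFr z)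
  have hm00 : m0 ≠ 0 := nonZeroDivisors.ne_zero hm0
  obtain ⟨p, hp1, -, hp2⟩ := exists_nm hz m0
  have hp0 : p ≠ 0 := hp2 hm00
  obtain ⟨m1, hm1⟩ : m0 ∣ po l F p := by
    rw [← hp1]
    have h1 : J1A_S hz.pow_eq_one 0 m0 ∣ ∏ k ∈ Finset.range l, J1A_S hz.pow_eq_one k m0 :=
      Finset.dvd_prod_of_mem _ (Finset.mem_range.mpr hlp.pos)
    rwa [J1A_S_zero] at h1
  set n : Co l F := n0 * m1 with hn
  have hnz : toFr n * toFr z = β * toFr (po l F p) := by
    have h1 : toFr n0 * toFr z = β * toFr m0 := by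
      have h2 : toFr n0 / toFr m0 = β / toFr z := hnm
      rw [div_eq_div_iff (J1A_ne hm00) hz1] at h2
      exact h2
    rw [hn, hm1, J1A_tm, J1A_tm]
    calc toFr n0 * toFr m1 * toFr z = toFr n0 * toFr z * toFr m1 := by ring
      _ = _ := by rw [h1]; ring
  have hpo0 : toFr (po l F p) ≠ 0 := J1A_ne (J1A_po_ne hp0)
  have hn0 : n ≠ 0 := by
    intro h
    rw [h, J1A_t0, zero_mul] at hnz
    exact mul_ne_zero hβ0 hpo0 hnz.symm
  have hn' : Ideal.span {n} ≠ ⊥ := by rwa [Ne, Ideal.span_singleton_eq_bot]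
  have ha' : Ideal.span {a} ≠ ⊥ := by rwa [Ne, Ideal.span_singleton_eq_bot]
  have hsn : s n * b2 = a * n := by
    apply J1A_inj
    apply mul_right_cancel₀ hz1
    have h1 := congrArg S hnz
    have h2 : s (po l F p) = po l F p := by
      rw [hs, coMap_po, map_refl]
    rw [map_mul, map_mul, hSt, hSt, hSt, h2] at h1
    calc toFr (s n * b2) * toFr z = toFr (s n) * (toFr b2 * toFr z) := by rw [J1A_tm]; ring
      _ = g2 * toFr a * (toFr (s n) * toFr (s z)) := by rw [← hg21]; ring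
      _ = (g2 * S β) * toFr (po l F p) * toFr a := by rw [h1]; ring
      _ = toFr (a * n) * toFr z := by rw [hβ1, ← hnz, J1A_tm a n]; ring
  have hstab : (Ideal.span {n} * I).map ((sig hz.pow_eq_one : Co l F ≃+* Co l F) :
      Co l F →+* Co l F) = Ideal.span {n} * I := by
    apply mul_left_cancel₀ ha'
    rw [SmJ.map_span_mul, ← mul_assoc, mul_comm (Ideal.span {a}), mul_assoc]
    change Ideal.span {s n} * (Ideal.span {a} * I.map ((s : Co l F ≃+* Co l F) :
      Co l F →+* Co l F)) = _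
    rw [e, ← mul_assoc, Ideal.span_singleton_mul_span_singleton, hsn,
      ← Ideal.span_singleton_mul_span_singleton, mul_assoc]
  have hβL : v (L' * β - 1) < 1 := by
    have h1 : L' * β - 1 = L' * (β - L) := by rw [mul_sub, hLL]
    rw [h1, map_mul, hLv', one_mul]
    exact hβc
  have hLβ : v (L * β⁻¹ - 1) < 1 := by
    have h1 : L * β⁻¹ - 1 = (L - β) * β⁻¹ := by rw [sub_mul, mul_inv_cancel₀ hβ0]
    rw [h1, map_mul, map_inv₀, hβv, inv_one, mul_one, Valuation.map_sub_swap]
    exact hβc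
  obtain ⟨z', hz'⟩ := J1A_B hm hF hv hz (mul_ne_zero hn' hI) hstab hp0
    (y := po l F (C (l : Om)⁻¹) * (n * y))
    (Ideal.mul_mem_left _ _ (Ideal.mul_mem_mul (Ideal.mem_span_singleton_self n) hy))
    (by
      have h1 : toFr (po l F (C (l : Om)⁻¹) * (n * y) - po l F p) =
          (L' * β * h - 1) * toFr (po l F p) := by
        rw [J1A_ts, J1A_tm, J1A_tm, ← hyz]
        calc L' * (toFr n * (h * toFr z)) - toFr (po l F p) =
            L' * h * (toFr n * toFr z) - toFr (po l F p) := by ring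
          _ = _ := by rw [hnz]; ring
      rw [h1, map_mul]
      have h2 := J1A_close_mul (v := v) (x := L' * β) (y := 1) (x' := h) (y' := 1)
        (J1A_close_val (y := 1) hβL (map_one v)).le (by rw [map_one]) hβL hh
      rw [one_mul] at h2
      exact mul_lt_of_lt_one_left (zero_lt_iff.mpr ((Valuation.ne_zero_iff v).mpr hpo0)) h2)
    (by
      intro t ht ht0
      rw [Ideal.mem_span_singleton_mul] at ht
      obtain ⟨u, hu, rfl⟩ := ht
      obtain ⟨r, hr⟩ := hr u hu
      refine ⟨po l F (C (l : Om)) * r, ?_⟩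
      have h1 : toFr (po l F p * (po l F (C (l : Om)) * r) - n * u) =
          (L * β⁻¹ * h' - 1) * toFr (n * u) := by
        have h2 : toFr (po l F p) * toFr r = β⁻¹ * (h' * (toFr n * toFr u)) := by
          rw [eq_inv_mul_iff_mul_eq₀ hβ0]
          calc β * (toFr (po l F p) * toFr r) = (β * toFr (po l F p)) * toFr r := by ring
            _ = toFr n * (toFr z * toFr r) := by rw [← hnz]; ring
            _ = _ := by rw [← hr]; ring
        rw [J1A_ts, J1A_tm, J1A_tm, J1A_tm]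
        calc toFr (po l F p) * (L * toFr r) - toFr n * toFr u =
            L * (toFr (po l F p) * toFr r) - toFr n * toFr u := by ring
          _ = _ := by rw [h2]; ring
      rw [h1, map_mul]
      have h2 := J1A_close_mul (v := v) (x := L * β⁻¹) (y := 1) (x' := h') (y' := 1)
        (J1A_close_val (y := 1) hLβ (map_one v)).le (by rw [map_one]) hLβ hh'
      rw [one_mul] at h2
      exact mul_lt_of_lt_one_left
        (zero_lt_iff.mpr ((Valuation.ne_zero_iff v).mpr (J1A_ne ht0))) h2)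
  have h1 := SmJ.cls_mul hn' hI
  rw [SmJ.cls_span, zero_add, hz', SmJ.cls_span] at h1
  exact h1.symm

theorem J1_fixed {f0 : (w : Type)[X]} (hm : f0.Monic) (hF : f0.map (algebraMap w Om) = F)
    (hv : IsGv w v) (hl : w.valuation (l : Om) = 1) {ζ : Om} (hz : IsPrimitiveRoot ζ l)
    {c : JJ l F} (hc : c ∈ J1 v) (hfix : zact hz.pow_eq_one c = c) : c = 0 := by
  obtain ⟨I, I', hI, hI', m1, m2, rfl⟩ := hc
  obtain ⟨J, hJ, z, hz0, hJz⟩ := SmJ.exists_cls_neg I' hI'
  have hcls : SmJ.cls I - SmJ.cls I' = SmJ.cls (I * J) := by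
    have h1 := SmJ.cls_mul hI' hJ
    rw [hJz, SmJ.cls_span] at h1
    rw [SmJ.cls_mul hI hJ, sub_eq_iff_eq_add, add_assoc, add_comm (SmJ.cls J), ← h1, add_zero]
  have n1 : Mv v (I * J) (Ideal.span {z}) := hJz ▸ Mv.mul m1 (Mv.one J)
  have n2 : Mv v (Ideal.span {z}) (I * J) := hJz ▸ Mv.mul m2 (Mv.one J)
  obtain ⟨h, hh, hhm⟩ := n1
  obtain ⟨h', hh', hhm'⟩ := n2
  obtain ⟨y, hy, hyz⟩ := hhm z (Ideal.mem_span_singleton_self z)
  rw [hcls] at hfix ⊢
  have hr : ∀ t ∈ I * J, ∃ r : Co l F, h' * toFr t = toFr z * toFr r := by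
    intro t ht
    obtain ⟨y', hy', e⟩ := hhm' t ht
    obtain ⟨r, rfl⟩ := Ideal.mem_span_singleton.mp hy'
    exact ⟨r, by rw [e, J1A_tm]⟩
  obtain ⟨a, b2, g2, ha, e, hg1, hg2, hP⟩ := J1A_core1 hm hF hv hz (mul_ne_zero hI hJ) hz0 hh hh'
    hy hyz hr (by
      rw [← act_cls]
      exact hfix)
  exact J1A_core2 hm hF hv hl hz (mul_ne_zero hI hJ) hz0 hh hh' hy hyz hr ha e hg1 hg2 hP

omit [Fact l.Prime] [Sup l F] [IsSepClosed Om] in
private theorem J1A_end {A : Type} [AddCommGroup A] (s : AddMonoid.End A) {p : ℕ} (hp : p.Prime)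
    (hodd : p ≠ 2) (hs : s ^ p = 1) {c : A} (hc : p • c = 0) : ((1 - s) ^ p) c = 0 := by
  obtain ⟨E, h1⟩ : ∃ E : AddMonoid.End A, (1 - s) ^ p = (p : AddMonoid.End A) * E := by
    have h2 := (Commute.one_left (-s)).add_pow_prime_eq hp
    rw [one_pow, (hp.odd_of_ne_two hodd).neg_pow, hs, add_neg_cancel, zero_add,
      ← sub_eq_add_neg] at h2
    rw [h2, mul_assoc, mul_assoc]
    exact ⟨_, rfl⟩
  rw [h1]
  have h3 : ∀ E : AddMonoid.End A, ((p : AddMonoid.End A) * E) c = 0 := by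
    intro E
    change (p : AddMonoid.End A) (E c) = 0
    rw [AddMonoid.End.natCast_apply, ← map_nsmul, hc, map_zero]
  exact h3 _

private theorem J1A_act_one (h1 : (1 : Om) ^ l = 1) (Q : JJ l F) : zact h1 Q = Q := by
  have e : ((sig h1 : Co l F ≃+* Co l F) : Co l F →+* Co l F) = RingHom.id _ := by
    apply hom_ext
    · intro p
      change sig h1 (po l F p) = po l F p
      rw [coMap_po]
      congr 1
      exact Polynomial.map_id
    · change sig h1 (yy l F) = yy l F
      rw [coMap_yy, inv_one, map_one, map_one, one_mul]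
  obtain ⟨I, _, rfl⟩ := SmJ.exists_cls Q
  rw [act_cls]
  congr 1
  rw [e, Ideal.map_id]

theorem J1_tors [SmChar l F] {f0 : (w : Type)[X]} (hm : f0.Monic)
    (hF : f0.map (algebraMap w Om) = F) (hv : IsGv w v) (hl : w.valuation (l : Om) = 1)
    {c : JJ l F} (hc : c ∈ J1 v) {j : ℕ} (hj : l ^ j • c = 0) : c = 0 := by
  have hlp : l.Prime := Fact.out
  have hl0 : (l : Om) ≠ 0 := Sup.ne (f := F)
  obtain ⟨ζ, hz⟩ := exists_zeta l hl0
  set s : AddMonoid.End (JJ l F) := zact hz.pow_eq_one with hs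
  have hspow : ∀ (k : ℕ) (Q : JJ l F), (s ^ k) Q = (zact hz.pow_eq_one)^[k] Q := by
    intro k Q
    rw [AddMonoid.End.coe_pow]
    rfl
  have hsl : s ^ l = 1 := by
    ext Q
    rw [hspow, zact_pow hz.pow_eq_one l Q]
    have h1 : ∀ (u : Om) (hu : u ^ l = 1), u = 1 → zact hu Q = Q := by
      rintro u hu rfl
      exact J1A_act_one hu Q
    exact h1 _ _ hz.pow_eq_one
  -- no element of order `l`
  have key : ∀ c ∈ J1 v, l • c = 0 → c = 0 := by
    intro c hc hlc
    have hmem : ∀ k : ℕ, ((1 - s) ^ k) c ∈ J1 v := by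
      intro k
      induction k with
      | zero => exact hc
      | succ k ih =>
        rw [pow_succ']
        change (1 - s) (((1 - s) ^ k) c) ∈ J1 v
        change ((1 - s) ^ k) c - s (((1 - s) ^ k) c) ∈ J1 v
        exact (J1 v).sub_mem ih (J1_zact hv hz.pow_eq_one ih)
    have hdown : ∀ k : ℕ, ((1 - s) ^ k) c = 0 → c = 0 := by
      intro k
      induction k with
      | zero => intro h; exact h
      | succ k ih =>
        intro h
        apply ih
        refine J1_fixed hm hF hv hl hz (hmem k) ?_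
        rw [pow_succ'] at h
        have h2 : ((1 - s) ^ k) c - s (((1 - s) ^ k) c) = 0 := h
        exact (sub_eq_zero.mp h2).symm
    exact hdown l (J1A_end s hlp (Sup.odd (l := l) (f := F)) hsl hlc)
  induction j with
  | zero => rwa [pow_zero, one_smul] at hj
  | succ j ih =>
    apply ih
    apply key _ ((J1 v).nsmul_mem hc _)
    rw [← mul_smul, ← pow_succ']
    exact hj

end Pool.Agent.SmS
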