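import Pool.Agent.Lib.SmS.J1

/-!
SMITH-S, (8.3) of the paper: points with a non-integral abscissa are in `J1`, and close integral points are
equal modulo `J1`.
-/

set_option autoImplicit false

open Polynomial

namespace Pool.Agent.SmS

variable {l : ℕ} {Om : Type} [Field Om] [Fact l.Prime] {w : ValuationSubring Om} {F : Om[X]}
  [Sup l F] [IsSepClosed Om] {v : Valuation (Fr l F) w.ValueGroup}

section J1B_aux

omit [IsSepClosed Om] in
private theorem J1B_cf_po (p : Om[X]) {j : ℕ} (hj : j < l) :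
    cf (po l F p) j = if j = 0 then p else 0 := by
  have hl : 0 < l := (Fact.out : l.Prime).pos
  have h2 := cf_sum (l := l) (f := F) (fun i => if i = 0 then p else 0) hj
  have h3 : ∑ i ∈ Finset.range l, po l F (if i = 0 then p else 0) * yy l F ^ i = po l F p := by
    rw [Finset.sum_eq_single 0 (fun i _ hi => by rw [if_neg hi, map_zero, zero_mul])
      (fun h => absurd (Finset.mem_range.mpr hl) h), if_pos rfl, pow_zero, mul_one]
  rw [h3] at h2
  exact h2

omit [IsSepClosed Om] in
private theorem J1B_cf_yy {j : ℕ} (hj : j < l) :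
    cf (yy l F) j = if j = 1 then 1 else 0 := by
  have hl : 1 < l := (Fact.out : l.Prime).one_lt
  have h2 := cf_sum (l := l) (f := F) (fun i => if i = 1 then (1 : Om[X]) else 0) hj
  have h3 : ∑ i ∈ Finset.range l, po l F (if i = 1 then (1 : Om[X]) else 0) * yy l F ^ i =
      yy l F := by
    rw [Finset.sum_eq_single 1 (fun i _ hi => by rw [if_neg hi, map_zero, zero_mul])
      (fun h => absurd (Finset.mem_range.mpr hl) h), if_pos rfl, pow_one, map_one, one_mul]
  rw [h3] at h2
  exact h2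

omit [IsSepClosed Om] in
private theorem J1B_idl_ne (P : Pnt l F) : P.idl ≠ ⊥ := by
  intro h
  have h1 : po l F (X - C P.x) ∈ P.idl := by
    rw [Pnt.mem_idl, Pnt.ev_po]
    simp
  rw [h, Ideal.mem_bot] at h1
  have h2 := congrArg (fun z => cf z 0) h1
  have hl : 0 < l := (Fact.out : l.Prime).pos
  rw [J1B_cf_po _ hl, if_pos rfl, cf_zero] at h2
  exact X_sub_C_ne_zero _ h2

/-- Polynomials in `x`. -/
private noncomputable abbrev J1B_E (l : ℕ) (w : ValuationSubring Om) (F : Om[X]) :
    (w : Type)[X] →+* Co l F := (po l F).comp (mapRingHom (algebraMap w Om))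

/-- Polynomials in `y`. -/
private noncomputable abbrev J1B_E' (l : ℕ) (w : ValuationSubring Om) (F : Om[X]) :
    (w : Type)[X] →+* Co l F :=
  eval₂RingHom (((po l F).comp C).comp (algebraMap w Om)) (yy l F)

omit [IsSepClosed Om] in
private theorem J1B_val_yy (hv : IsGv w v) : v (toFr (yy l F)) ≤ 1 := by
  rw [hv.le_iff]
  intro j hj i
  rw [J1B_cf_yy hj]
  split_ifs
  · rw [coeff_one]
    split_ifs <;> simp
  · simp

omit [IsSepClosed Om] in
private theorem J1B_val_E (hv : IsGv w v) (p : (w : Type)[X]) :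
    v (toFr (J1B_E l w F p)) ≤ 1 := by
  rw [hv.le_iff]
  intro j hj i
  change w.valuation ((cf (po l F (p.map (algebraMap w Om))) j).coeff i) ≤ 1
  rw [J1B_cf_po _ hj]
  split_ifs
  · rw [coeff_map]
    exact w.valuation_le_one _
  · simp

omit [IsSepClosed Om] in
private theorem J1B_val_E' (hv : IsGv w v) (p : (w : Type)[X]) :
    v (toFr (J1B_E' l w F p)) ≤ 1 := by
  induction p using Polynomial.induction_on' with
  | add p q hp hq =>
    rw [toFr, map_add, map_add]
    exact (v.map_add _ _).trans (max_le hp hq)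
  | monomial n a =>
    have h1 : J1B_E' l w F (monomial n a) = J1B_E l w F (C a) * yy l F ^ n := by
      change eval₂ _ _ (monomial n a) = po l F ((C a).map (algebraMap w Om)) * _
      rw [eval₂_monomial, map_C]
      rfl
    rw [h1, toFr, map_mul, map_pow, map_mul, map_pow]
    exact mul_le_one₀ (J1B_val_E hv _) zero_le (pow_le_one₀ zero_le (J1B_val_yy hv))

end J1B_aux

theorem J1_inf {f0 : (w : Type)[X]} (hm : f0.Monic) (hF : f0.map (algebraMap w Om) = F)
    (hv : IsGv w v) {P : Pnt l F} (hP : 1 < w.valuation P.x) : P.cl ∈ J1 v := by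
  have hx0 : P.x ≠ 0 := by
    intro h
    rw [h, map_zero] at hP
    exact absurd hP (not_lt.mpr zero_le_one)
  refine ⟨P.idl, ⊤, J1B_idl_ne P, by simp, ⟨toFr (po l F (1 - C P.x⁻¹ * X)), ?_, ?_⟩,
    ⟨1, ?_, fun x _ => ⟨x, trivial, one_mul _⟩⟩, ?_⟩
  · have h1 : toFr (po l F (1 - C P.x⁻¹ * X)) - 1 = toFr (po l F (-(C P.x⁻¹ * X))) := by
      simp only [toFr, map_sub, map_one, map_neg, sub_sub_cancel_left]
    rw [h1, hv.lt_iff _ zero_lt_one]
    intro j hj i
    rw [J1B_cf_po _ hj]
    split_ifs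
    · rw [coeff_neg, Valuation.map_neg, coeff_C_mul, map_mul, map_inv₀, coeff_X]
      split_ifs
      · rw [map_one, mul_one]
        exact inv_lt_one_of_one_lt₀ hP
      · rw [map_zero, mul_zero]
        exact zero_lt_one
    · rw [coeff_zero, map_zero]
      exact zero_lt_one
  · intro x _
    refine ⟨po l F (1 - C P.x⁻¹ * X) * x, ?_, by rw [toFr, toFr, toFr, map_mul]⟩
    apply Ideal.mul_mem_right
    rw [Pnt.mem_idl, Pnt.ev_po]
    simp [inv_mul_cancel₀ hx0]
  · rw [sub_self, map_zero]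
    exact zero_lt_one
  · rw [SmJ.cls_top, sub_zero]
    rfl

theorem y_int {f0 : (w : Type)[X]} (hF : f0.map (algebraMap w Om) = F) {P : Pnt l F}
    (hP : w.valuation P.x ≤ 1) : w.valuation P.y ≤ 1 := by
  have h1 : w.valuation (F.eval P.x) ≤ 1 := by
    have h2 : F.eval P.x = algebraMap w Om (f0.eval ⟨P.x, (w.valuation_le_one_iff _).mp hP⟩) := by
      refine (congrArg (eval P.x) hF).symm.trans ?_
      exact eval_map_apply (algebraMap w Om) (⟨P.x, (w.valuation_le_one_iff _).mp hP⟩ : w)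
    rw [h2]
    exact w.valuation_le_one _
  rw [← P.on, map_pow] at h1
  exact (pow_le_one_iff_of_nonneg zero_le (Fact.out : l.Prime).ne_zero).mp h1

section J1B_close

omit [IsSepClosed Om] in
/-- The general step. -/
private theorem J1B_mk {P P' : Pnt l F} {r : Om} (hr : r ≠ 0) {B1 B2 : Fr l F}
    (h1 : v B1 ≤ 1) (h2 : v B2 ≤ 1)
    (hB : toFr (po l F (X - C P.x)) * B1 + toFr (yy l F - po l F (C P.y)) * B2 =
      toFr (po l F (C r)))
    (hi1 : ∀ z ∈ P.idl, ∃ y : Co l F, B1 * toFr z = toFr y)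
    (hi2 : ∀ z ∈ P.idl, ∃ y : Co l F, B2 * toFr z = toFr y)
    (hv : IsGv w v)
    (hx : w.valuation (P.x - P'.x) < w.valuation r)
    (hy : w.valuation (P.y - P'.y) < w.valuation r) : Mv v P'.idl P.idl := by
  have hk : ∀ a b : Om, toFr (po l F (C (a * b))) = toFr (po l F (C a)) * toFr (po l F (C b)) := by
    intro a b
    simp only [toFr, map_mul]
  have hk1 : toFr (po l F (C r⁻¹)) * toFr (po l F (C r)) = 1 := by
    rw [← hk, inv_mul_cancel₀ hr]
    simp only [toFr, map_one]
  refine ⟨toFr (po l F (C r⁻¹)) * (toFr (po l F (X - C P'.x)) * B1 +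
    toFr (yy l F - po l F (C P'.y)) * B2), ?_, ?_⟩
  · have e : toFr (po l F (C r⁻¹)) * (toFr (po l F (X - C P'.x)) * B1 +
        toFr (yy l F - po l F (C P'.y)) * B2) - 1 =
        toFr (po l F (C r⁻¹)) * (toFr (po l F (C (P.x - P'.x))) * B1 +
          toFr (po l F (C (P.y - P'.y))) * B2) := by
      rw [← hk1, ← mul_sub, ← hB]
      congr 1
      simp only [toFr, map_sub]
      ring
    rw [e, map_mul, hv.val_C, map_inv₀]
    have hr0 : 0 < w.valuation r := by
      rw [zero_lt_iff, ne_eq, map_eq_zero]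
      exact hr
    rw [inv_mul_lt_iff₀ hr0, mul_one]
    refine lt_of_le_of_lt (v.map_add _ _) (max_lt ?_ ?_)
    · rw [map_mul, hv.val_C]
      exact lt_of_le_of_lt (mul_le_of_le_one_right' h1) hx
    · rw [map_mul, hv.val_C]
      exact lt_of_le_of_lt (mul_le_of_le_one_right' h2) hy
  · intro z hz
    obtain ⟨y1, hy1⟩ := hi1 z hz
    obtain ⟨y2, hy2⟩ := hi2 z hz
    refine ⟨po l F (C r⁻¹) * (po l F (X - C P'.x) * y1 + (yy l F - po l F (C P'.y)) * y2), ?_, ?_⟩
    · refine P'.idl.mul_mem_left _ (P'.idl.add_mem (P'.idl.mul_mem_right _ ?_)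
        (P'.idl.mul_mem_right _ ?_))
      · rw [Pnt.mem_idl, Pnt.ev_po]
        simp
      · rw [Pnt.mem_idl, map_sub, Pnt.ev_po, Pnt.ev_yy]
        simp
    · have e1 : toFr (po l F (C r⁻¹) * (po l F (X - C P'.x) * y1 +
          (yy l F - po l F (C P'.y)) * y2)) =
          toFr (po l F (C r⁻¹)) * (toFr (po l F (X - C P'.x)) * toFr y1 +
            toFr (yy l F - po l F (C P'.y)) * toFr y2) := by
        simp only [toFr, map_mul, map_add]
      rw [e1, ← hy1, ← hy2]
      ring

omit [IsSepClosed Om] in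
/-- `B1`, `B2` exist. -/
private theorem J1B_ex {f0 : (w : Type)[X]} (hF : f0.map (algebraMap w Om) = F)
    (hv : IsGv w v) (hl : w.valuation (l : Om) = 1) {ρ : w}
    (hρ : ∀ x : w, f0.eval x ∣ ρ ∨ f0.derivative.eval x ∣ ρ) {P : Pnt l F}
    (hP : w.valuation P.x ≤ 1) (hPy : w.valuation P.y ≤ 1) : ∃ B1 B2 : Fr l F,
      v B1 ≤ 1 ∧ v B2 ≤ 1 ∧
      toFr (po l F (X - C P.x)) * B1 + toFr (yy l F - po l F (C P.y)) * B2 =
        toFr (po l F (C (ρ : Om))) ∧
      (∀ z ∈ P.idl, ∃ y : Co l F, B1 * toFr z = toFr y) ∧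
      (∀ z ∈ P.idl, ∃ y : Co l F, B2 * toFr z = toFr y) := by
  set X0 : w := ⟨P.x, (w.valuation_le_one_iff _).mp hP⟩ with hX0
  set Y0 : w := ⟨P.y, (w.valuation_le_one_iff _).mp hPy⟩ with hY0
  -- the polynomials over `w`
  obtain ⟨g0, hg0⟩ := X_sub_C_dvd_sub_C_eval (p := f0) (a := X0)
  have hg0v : g0.eval X0 = f0.derivative.eval X0 := by
    have h := congrArg (fun p => (derivative p).eval X0) hg0
    simpa using h.symm
  obtain ⟨m0, hm0⟩ := X_sub_C_dvd_sub_C_eval (p := g0) (a := X0)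
  rw [hg0v] at hm0
  obtain ⟨q0, hq0⟩ := X_sub_C_dvd_sub_C_eval (p := (X ^ l : (w : Type)[X])) (a := Y0)
  have hq0v : q0.eval Y0 = (l : w) * Y0 ^ (l - 1) := by
    have h := congrArg (fun p => (derivative p).eval Y0) hq0
    rw [derivative_sub, derivative_C, sub_zero, derivative_X_pow, derivative_mul] at h
    simpa using h.symm
  obtain ⟨n0, hn0⟩ := X_sub_C_dvd_sub_C_eval (p := q0) (a := Y0)
  rw [hq0v] at hn0
  have hY : Y0 ^ l = f0.eval X0 := by
    apply Subtype.val_injective
    change P.y ^ l = algebraMap w Om (f0.eval X0)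
    rw [P.on]
    refine (congrArg (eval P.x) hF).symm.trans ?_
    exact eval_map_apply (algebraMap w Om) X0
  -- the elements of the coordinate ring
  have kE : ∀ a : w, J1B_E l w F (C a) = po l F (C (a : Om)) := by
    intro a
    change po l F ((C a).map (algebraMap w Om)) = _
    rw [map_C]
    rfl
  have kE' : ∀ a : w, J1B_E' l w F (C a) = po l F (C (a : Om)) := by
    intro a
    change eval₂ _ _ (C a) = _
    rw [eval₂_C]
    rfl
  have ha : J1B_E l w F (X - C X0) = po l F (X - C P.x) := by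
    change po l F ((X - C X0).map (algebraMap w Om)) = _
    rw [Polynomial.map_sub, map_X, map_C]
    rfl
  have hb : J1B_E' l w F (X - C Y0) = yy l F - po l F (C P.y) := by
    change eval₂ _ _ (X - C Y0) = _
    rw [eval₂_sub, eval₂_X, eval₂_C]
    rfl
  have hE0 : J1B_E l w F f0 = yy l F ^ l := by
    change po l F (f0.map (algebraMap w Om)) = _
    rw [hF, yy_pow]
  have hE1 : J1B_E' l w F (X ^ l) = yy l F ^ l := by
    change eval₂ _ _ (X ^ l) = _
    rw [eval₂_X_pow]
  set a := po l F (X - C P.x) with hadef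
  set b := yy l F - po l F (C P.y) with hbdef
  set G := J1B_E l w F g0 with hG
  set Q := J1B_E' l w F q0 with hQ
  have hGQ : a * G = b * Q := by
    rw [← ha, ← hb, hG, hQ, ← map_mul, ← map_mul, ← hg0, ← hq0, map_sub, map_sub, hE0, hE1, kE, kE']
    simp only [eval_pow, eval_X, hY]
  have hGm : G = po l F (C ((f0.derivative.eval X0 : w) : Om)) + a * J1B_E l w F m0 := by
    rw [← kE, ← ha, ← map_mul, ← hm0, map_sub, hG]
    ring
  have hQm : Q = po l F (C (((l : w) * Y0 ^ (l - 1) : w) : Om)) + b * J1B_E' l w F n0 := by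
    rw [← kE', ← hb, ← map_mul, ← hn0, map_sub, hQ]
    ring
  have hvb : ¬ v (toFr b) < 1 := by
    intro h
    rw [hv.lt_iff _ zero_lt_one] at h
    have h1 := h 1 (Fact.out : l.Prime).one_lt 0
    rw [hbdef, cf_sub, J1B_cf_yy (Fact.out : l.Prime).one_lt,
      J1B_cf_po _ (Fact.out : l.Prime).one_lt, if_pos rfl, if_neg one_ne_zero, sub_zero,
      coeff_one_zero, map_one] at h1
    exact lt_irrefl _ h1
  have hb0 : toFr b ≠ 0 := by
    intro h
    rw [h, map_zero] at hvb
    exact hvb zero_lt_one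
  set φ : Fr l F := toFr G / toFr b with hφ
  have hφb : φ * toFr b = toFr G := div_mul_cancel₀ _ hb0
  have hφa : φ * toFr a = toFr Q := by
    rw [hφ, div_mul_eq_mul_div, div_eq_iff hb0]
    simp only [toFr, ← map_mul]
    rw [mul_comm G a, hGQ, mul_comm]
  have hφv : v φ ≤ 1 := by
    rw [hφ, map_div₀]
    refine div_le_one_of_le₀ ((J1B_val_E hv g0).trans (not_lt.mp hvb)) zero_le
  have hφi : ∀ z ∈ P.idl, ∃ y : Co l F, φ * toFr z = toFr y := by
    intro z hz
    rw [Pnt.idl_eq_span, Ideal.mem_span_pair] at hz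
    obtain ⟨s, t, rfl⟩ := hz
    refine ⟨s * Q + t * G, ?_⟩
    have e1 : toFr (s * a + t * b) = toFr s * toFr a + toFr t * toFr b := by
      simp only [toFr, map_mul, map_add]
    have e2 : toFr (s * Q + t * G) = toFr s * toFr Q + toFr t * toFr G := by
      simp only [toFr, map_mul, map_add]
    rw [e1, e2, ← hφa, ← hφb]
    ring
  have hi : ∀ (c d : Co l F), ∀ z ∈ P.idl, ∃ y : Co l F, toFr c * toFr z = toFr y := by
    intro c _ z _
    exact ⟨c * z, by simp only [toFr, map_mul]⟩
  rcases hρ X0 with h | h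
  · -- `f0 (x0)` divides `ρ`
    obtain ⟨c, hc⟩ := h
    rw [← hY] at hc
    -- `e = c y0 / l`
    have hl0 : (l : Om) ≠ 0 := by
      intro h0
      rw [h0, map_zero] at hl
      exact zero_ne_one hl
    have hl1 : w.valuation ((c : Om) * (Y0 : Om) * (l : Om)⁻¹) ≤ 1 := by
      rw [map_mul, map_mul, map_inv₀, hl, inv_one, mul_one]
      exact mul_le_one₀ (w.valuation_le_one c) zero_le (w.valuation_le_one Y0)
    set e : w := ⟨(c : Om) * (Y0 : Om) * (l : Om)⁻¹, (w.valuation_le_one_iff _).mp hl1⟩ with he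
    have hρe : ρ = e * ((l : w) * Y0 ^ (l - 1)) := by
      apply Subtype.val_injective
      have h1 : (ρ : Om) = ((Y0 ^ l * c : w) : Om) := by rw [hc]
      rw [h1]
      change (Y0 : Om) ^ l * (c : Om) = (c : Om) * (Y0 : Om) * (l : Om)⁻¹ *
        (((l : w) : Om) * (Y0 : Om) ^ (l - 1))
      have h2 : ((l : w) : Om) = (l : Om) := by norm_cast
      rw [h2]
      have h3 : (Y0 : Om) ^ l = (Y0 : Om) ^ (l - 1) * (Y0 : Om) := by
        rw [← pow_succ, Nat.sub_add_cancel (Fact.out : l.Prime).one_le]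
      rw [h3]
      field_simp
    refine ⟨toFr (po l F (C (e : Om))) * φ, -toFr (po l F (C (e : Om)) * J1B_E' l w F n0),
      ?_, ?_, ?_, ?_, ?_⟩
    · rw [map_mul, hv.val_C]
      exact mul_le_one₀ (w.valuation_le_one e) zero_le hφv
    · rw [Valuation.map_neg, ← kE', ← map_mul]
      exact J1B_val_E' hv _
    · have h1 : toFr (po l F (C (ρ : Om))) = toFr (po l F (C (e : Om))) *
          toFr (po l F (C (((l : w) * Y0 ^ (l - 1) : w) : Om))) := by
        simp only [toFr, ← map_mul]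
        rw [hρe]
        rfl
      have h2 : toFr Q = toFr (po l F (C (((l : w) * Y0 ^ (l - 1) : w) : Om))) +
          toFr b * toFr (J1B_E' l w F n0) := by
        rw [hQm]
        simp only [toFr, map_add, map_mul]
      have h3 : toFr (po l F (C (e : Om)) * J1B_E' l w F n0) =
          toFr (po l F (C (e : Om))) * toFr (J1B_E' l w F n0) := by
        simp only [toFr, map_mul]
      rw [h1, h3]
      linear_combination (toFr (po l F (C (e : Om)))) * hφa + (toFr (po l F (C (e : Om)))) * h2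
    · intro z hz
      obtain ⟨y, hy⟩ := hφi z hz
      refine ⟨po l F (C (e : Om)) * y, ?_⟩
      rw [mul_assoc, hy]
      simp only [toFr, map_mul]
    · intro z hz
      refine ⟨-(po l F (C (e : Om)) * J1B_E' l w F n0 * z), ?_⟩
      simp only [toFr, map_mul, map_neg]
      ring
  · -- `f0' (x0)` divides `ρ`
    obtain ⟨c, hc⟩ := h
    refine ⟨-toFr (po l F (C (c : Om)) * J1B_E l w F m0), toFr (po l F (C (c : Om))) * φ,
      ?_, ?_, ?_, ?_, ?_⟩
    · rw [Valuation.map_neg, ← kE, ← map_mul]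
      exact J1B_val_E hv _
    · rw [map_mul, hv.val_C]
      exact mul_le_one₀ (w.valuation_le_one c) zero_le hφv
    · have h1 : toFr (po l F (C (ρ : Om))) = toFr (po l F (C (c : Om))) *
          toFr (po l F (C ((f0.derivative.eval X0 : w) : Om))) := by
        simp only [toFr, ← map_mul]
        rw [hc, mul_comm]
        rfl
      have h2 : toFr G = toFr (po l F (C ((f0.derivative.eval X0 : w) : Om))) +
          toFr a * toFr (J1B_E l w F m0) := by
        rw [hGm]
        simp only [toFr, map_add, map_mul]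
      have h3 : toFr (po l F (C (c : Om)) * J1B_E l w F m0) =
          toFr (po l F (C (c : Om))) * toFr (J1B_E l w F m0) := by
        simp only [toFr, map_mul]
      rw [h1, h3]
      linear_combination (toFr (po l F (C (c : Om)))) * hφb + (toFr (po l F (C (c : Om)))) * h2
    · intro z hz
      refine ⟨-(po l F (C (c : Om)) * J1B_E l w F m0 * z), ?_⟩
      simp only [toFr, map_mul, map_neg]
      ring
    · intro z hz
      obtain ⟨y, hy⟩ := hφi z hz
      refine ⟨po l F (C (c : Om)) * y, ?_⟩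
      rw [mul_assoc, hy]
      simp only [toFr, map_mul]

end J1B_close

theorem J1_close {f0 : (w : Type)[X]} (hm : f0.Monic) (hF : f0.map (algebraMap w Om) = F)
    (hv : IsGv w v) (hl : w.valuation (l : Om) = 1) {ρ : w} (hρ0 : ρ ≠ 0)
    (hρ : ∀ x : w, f0.eval x ∣ ρ ∨ f0.derivative.eval x ∣ ρ) {P P' : Pnt l F}
    (hP : w.valuation P.x ≤ 1) (hx : w.valuation (P.x - P'.x) < w.valuation (ρ : Om))
    (hy : w.valuation (P.y - P'.y) < w.valuation (ρ : Om)) : P.cl - P'.cl ∈ J1 v := by
  have hρ1 : (ρ : Om) ≠ 0 := by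
    intro h
    exact hρ0 (Subtype.val_injective h)
  have hρle : w.valuation (ρ : Om) ≤ 1 := w.valuation_le_one ρ
  have hP' : w.valuation P'.x ≤ 1 := by
    have e : P'.x = P.x - (P.x - P'.x) := by ring
    rw [e]
    exact (w.valuation.map_sub _ _).trans (max_le hP (hx.le.trans hρle))
  have hPy := y_int hF hP
  have hPy' := y_int hF hP'
  obtain ⟨B1, B2, b1, b2, b3, b4, b5⟩ := J1B_ex hF hv hl hρ hP hPy
  obtain ⟨B1', B2', b1', b2', b3', b4', b5'⟩ := J1B_ex hF hv hl hρ hP' hPy'
  refine ⟨P.idl, P'.idl, J1B_idl_ne P, J1B_idl_ne P', ?_, ?_, rfl⟩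
  · refine J1B_mk hρ1 b1' b2' b3' b4' b5' hv ?_ ?_
    · rw [Valuation.map_sub_swap]; exact hx
    · rw [Valuation.map_sub_swap]; exact hy
  · exact J1B_mk hρ1 b1 b2 b3 b4 b5 hv hx hy

end Pool.Agent.SmS
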