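import Pool.Agent.Lib.SmS.Gal
import Pool.Agent.Lib.SmS.J1A
import Pool.Agent.Lib.SmS.J1B
import Pool.Agent.Lib.SmD.Defs

/-!
SMITH-S, (9.1) of the paper: good reduction (compare `SmJ/E/Good`).
-/

/-!
SMITH-S, (9.1) of the paper: good reduction (compare `SmJ/E/Good`).
-/

set_option autoImplicit false

open Polynomial IsLocalRing

namespace Pool.Agent.SmS

open Pool.Agent.Lib.SmD

variable {l : ℕ} {K Ω : Type} [Field K] [Field Ω] [Algebra K Ω] [Fact l.Prime] {f : K[X]}
  [Sup l (fO Ω f)] [IsSepClosed Ω] [SmChar l (fO Ω f)] {w : ValuationSubring Ω}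

theorem good_fixS {f0 : (w : Type)[X]} (hm : f0.Monic)
    (hF : f0.map (algebraMap w Ω) = fO Ω f) (hl : w.valuation (l : Ω) = 1)
    (hsep : (f0.map (residue w)).Separable) {s : Ω ≃ₐ[K] Ω} (hs : s ∈ iner K w)
    {Q : JJ l (fO Ω f)} {j : ℕ} (hQ : l ^ j • Q = 0) : galS l f s Q = Q := by
  obtain ⟨v, hv⟩ := exists_gv (l := l) hm hF
  have hρ : ∀ x : w, f0.eval x ∣ 1 ∨ f0.derivative.eval x ∣ 1 := by
    intro x
    by_contra hc
    push Not at hc
    have key : ∀ P : (w : Type)[X], ¬ P.eval x ∣ 1 → (P.map (residue w)).eval (residue w x) = 0 := by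
      intro P hP
      rw [Polynomial.eval_map, Polynomial.eval₂_at_apply, residue_eq_zero_iff,
        mem_maximalIdeal, mem_nonunits_iff]
      exact fun h => hP (isUnit_iff_dvd_one.mp h)
    have e1 := key f0 hc.1
    have e2 := key f0.derivative hc.2
    rw [← Polynomial.derivative_map] at e2
    obtain ⟨u, v, huv⟩ := hsep
    have e3 := congrArg (Polynomial.eval (residue w x)) huv
    rw [eval_add, eval_mul, eval_mul, e1, e2, eval_one] at e3
    simp at e3
  have e1 : w.valuation ((1 : w) : Ω) = 1 := map_one _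
  have hmem : galS l f s Q - Q ∈ J1 v := by
    refine jac_induction (p := fun Q => galS l f s Q - Q ∈ J1 v) ?_ ?_ ?_ Q
    · rw [map_zero, sub_zero]
      exact zero_mem _
    · intro P
      have e : galS l f s P.cl = (P.map (s : Ω ≃+* Ω) (map_gal f s) 1 (one_pow l)).cl :=
        act_cl _ _ _ _ P
      rw [e]
      by_cases hP : w.valuation P.x ≤ 1
      · have hy := y_int hF hP
        have h := J1_close (P := P) (P' := P.map (s : Ω ≃+* Ω) (map_gal f s) 1 (one_pow l))
          hm hF hv hl one_ne_zero hρ hP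
          (by
            rw [e1, Pnt.map_x, ← Valuation.map_neg, neg_sub]
            exact hs.2 P.x ((w.valuation_le_one_iff _).mp hP))
          (by
            rw [e1, Pnt.map_y, one_mul, ← Valuation.map_neg, neg_sub]
            exact hs.2 P.y ((w.valuation_le_one_iff _).mp hy))
        have e2 := neg_mem h
        rwa [neg_sub] at e2
      · have hP' : 1 < w.valuation P.x := not_le.mp hP
        have hsP : 1 < w.valuation (P.map (s : Ω ≃+* Ω) (map_gal f s) 1 (one_pow l)).x := by
          rw [← not_le]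
          intro h1
          exact hP ((dec_val_le K (iner_le_dec K w hs) P.x).mp h1)
        exact sub_mem (J1_inf hm hF hv hsP) (J1_inf hm hF hv hP')
    · intro x y hx hy
      have e : galS l f s (x + y) - (x + y) = (galS l f s x - x) + (galS l f s y - y) := by
        rw [map_add]
        abel
      rw [e]
      exact add_mem hx hy
  have h0 : l ^ j • (galS l f s Q - Q) = 0 := by
    rw [smul_sub, ← map_nsmul, hQ, map_zero, sub_zero]
  exact sub_eq_zero.mp (J1_tors hm hF hv hl hmem h0)

end Pool.Agent.SmS
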