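import Pool.Agent.Lib.SmS.Ord

/-!
SMITH-S, (8.0) of the paper: the Gauss valuation.

`|h|` = the maximum of the values of the coefficients of the `cf h j`, `j < l`. Multiplicative: scale to `|g| = |h| = 1`
and reduce modulo the maximal ideal: `Co l (f0 mod m)` is a domain (`co_isDomain`, `f0` is monic of degree prime
to `l`). Then `Valuation.extendToLocalization`.
-/

set_option autoImplicit false

open Polynomial

namespace Pool.Agent.SmS

variable {l : ℕ} {Om : Type} [Field Om] [Fact l.Prime] {w : ValuationSubring Om}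

/-- The fraction field. -/
abbrev Fr (l : ℕ) {F : Type} [Field F] (f : F[X]) : Type := FractionRing (Co l f)

/-- `h` as an element of the fraction field. -/
noncomputable abbrev toFr {F : Type} [Field F] {f : F[X]} (h : Co l f) : Fr l f :=
  algebraMap (Co l f) (Fr l f) h

/-- `v` is the Gauss valuation. -/
structure IsGv (w : ValuationSubring Om) {F : Om[X]} [Mc l F] (v : Valuation (Fr l F) w.ValueGroup) :
    Prop where
  le_iff : ∀ (h : Co l F) (r : w.ValueGroup),
    v (toFr h) ≤ r ↔ ∀ j < l, ∀ i, w.valuation ((cf h j).coeff i) ≤ r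

/-! ### Change of constants -/

section red

variable {R S : Type} [CommRing R] [CommRing S]

/-- The ring homomorphism given by a homomorphism of the constants. -/
private noncomputable def rh (l : ℕ) {f : R[X]} (φ : R →+* S) {f' : S[X]} (h : f.map φ = f') :
    Co l f →+* Co l f' :=
  AdjoinRoot.lift ((po l f').comp (mapRingHom φ)) (yy l f') (by
    rw [eval₂_sub, eval₂_X_pow, eval₂_C, yy_pow, RingHom.comp_apply, coe_mapRingHom, h, sub_self])

omit [Fact l.Prime] in
private theorem rh_po {f : R[X]} (φ : R →+* S) {f' : S[X]} (h : f.map φ = f') (p : R[X]) :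
    rh l φ h (po l f p) = po l f' (p.map φ) := AdjoinRoot.lift_of _

omit [Fact l.Prime] in
private theorem rh_yy {f : R[X]} (φ : R →+* S) {f' : S[X]} (h : f.map φ = f') :
    rh l φ h (yy l f) = yy l f' := AdjoinRoot.lift_root _

private theorem cf_rh [Nontrivial R] [Nontrivial S] {f : R[X]} (φ : R →+* S) {f' : S[X]}
    (h : f.map φ = f') (H : Co l f) {j : ℕ} (hj : j < l) :
    cf (rh l φ h H) j = (cf H j).map φ := by
  have e : rh l φ h H = ∑ j ∈ Finset.range l, po l f' ((cf H j).map φ) * yy l f' ^ j := by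
    conv_lhs => rw [eq_sum H]
    rw [map_sum]
    refine Finset.sum_congr rfl fun j _ => ?_
    rw [map_mul, map_pow, rh_po, rh_yy]
  rw [e, cf_sum _ hj]

end red

/-! ### The Gauss norm -/

section gau

variable {F : Om[X]}

private theorem ex_gau (w : ValuationSubring Om) (h : Co l F) : ∃ r : w.ValueGroup,
    (∃ j < l, ∃ i, w.valuation ((cf h j).coeff i) = r) ∧
      ∀ j < l, ∀ i, w.valuation ((cf h j).coeff i) ≤ r := by
  have hl : l.Prime := Fact.out
  obtain ⟨N, hN⟩ : ∃ N : ℕ, ∀ j < l, (cf h j).natDegree < N := by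
    refine ⟨∑ j ∈ Finset.range l, ((cf h j).natDegree + 1), fun j hj => ?_⟩
    exact Finset.single_le_sum (f := fun j => (cf h j).natDegree + 1) (fun _ _ => Nat.zero_le _)
      (Finset.mem_range.mpr hj)
  have hN0 : 0 < N := lt_of_le_of_lt (Nat.zero_le _) (hN 0 hl.pos)
  obtain ⟨⟨j0, i0⟩, hm, hmax⟩ := Finset.exists_max_image (Finset.range l ×ˢ Finset.range N)
    (fun x => w.valuation ((cf h x.1).coeff x.2))
    ⟨(0, 0), Finset.mem_product.mpr ⟨Finset.mem_range.mpr hl.pos, Finset.mem_range.mpr hN0⟩⟩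
  rw [Finset.mem_product, Finset.mem_range, Finset.mem_range] at hm
  refine ⟨_, ⟨j0, hm.1, i0, rfl⟩, fun j hj i => ?_⟩
  by_cases hi : i < N
  · exact hmax (j, i) (Finset.mem_product.mpr ⟨Finset.mem_range.mpr hj, Finset.mem_range.mpr hi⟩)
  · rw [coeff_eq_zero_of_natDegree_lt (lt_of_lt_of_le (hN j hj) (not_lt.mp hi)), map_zero]
    exact zero_le

/-- The Gauss norm. -/
private noncomputable def gau (w : ValuationSubring Om) (h : Co l F) : w.ValueGroup :=
  (ex_gau w h).choose

private theorem gau_att (w : ValuationSubring Om) (h : Co l F) :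
    ∃ j < l, ∃ i, w.valuation ((cf h j).coeff i) = gau w h := (ex_gau w h).choose_spec.1

private theorem le_gau (w : ValuationSubring Om) (h : Co l F) {j : ℕ} (hj : j < l) (i : ℕ) :
    w.valuation ((cf h j).coeff i) ≤ gau w h := (ex_gau w h).choose_spec.2 j hj i

private theorem gau_le {h : Co l F} {r : w.ValueGroup} :
    gau w h ≤ r ↔ ∀ j < l, ∀ i, w.valuation ((cf h j).coeff i) ≤ r := by
  constructor
  · intro h1 j hj i
    exact (le_gau w h hj i).trans h1
  · intro h1
    obtain ⟨j, hj, i, e⟩ := gau_att w h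
    rw [← e]
    exact h1 j hj i

private theorem gau_lt {h : Co l F} {r : w.ValueGroup} :
    gau w h < r ↔ ∀ j < l, ∀ i, w.valuation ((cf h j).coeff i) < r := by
  constructor
  · intro h1 j hj i
    exact (le_gau w h hj i).trans_lt h1
  · intro h1
    obtain ⟨j, hj, i, e⟩ := gau_att w h
    rw [← e]
    exact h1 j hj i

private theorem gau_zero : gau w (0 : Co l F) = 0 := by
  obtain ⟨j, _, i, e⟩ := gau_att w (0 : Co l F)
  rw [← e, cf_zero, coeff_zero, map_zero]

private theorem gau_eq_zero {h : Co l F} (h0 : gau w h = 0) : h = 0 := by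
  apply co_ext
  intro j hj
  ext1 i
  rw [cf_zero, coeff_zero]
  have h1 := le_gau w h hj i
  rw [h0] at h1
  exact (Valuation.zero_iff _).mp (le_antisymm h1 zero_le)

private theorem gau_add (g h : Co l F) : gau w (g + h) ≤ max (gau w g) (gau w h) := by
  rw [gau_le]
  intro j hj i
  rw [cf_add, coeff_add]
  exact (Valuation.map_add _ _ _).trans (max_le_max (le_gau w g hj i) (le_gau w h hj i))

private theorem gau_C_mul (c : Om) (h : Co l F) :
    gau w (po l F (C c) * h) = w.valuation c * gau w h := by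
  apply le_antisymm
  · rw [gau_le]
    intro j hj i
    rw [cf_po_mul, coeff_C_mul, map_mul]
    exact mul_le_mul_right (le_gau w h hj i) _
  · obtain ⟨j, hj, i, e⟩ := gau_att w h
    rw [← e, ← map_mul, ← coeff_C_mul, ← cf_po_mul]
    exact le_gau w _ hj i

private theorem cf_po (p : Om[X]) {j : ℕ} (hj : j < l) :
    cf (po l F p) j = if j = 0 then p else 0 := by
  have hl : l.Prime := Fact.out
  have e : po l F p = ∑ i ∈ Finset.range l, po l F (if i = 0 then p else 0) * yy l F ^ i := by
    rw [Finset.sum_eq_single_of_mem 0 (Finset.mem_range.mpr hl.pos), if_pos rfl, pow_zero, mul_one]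
    intro b _ hb
    rw [if_neg hb, map_zero, zero_mul]
  rw [e, cf_sum _ hj]

private theorem cf_yy {j : ℕ} (hj : j < l) : cf (yy l F) j = if j = 1 then 1 else 0 := by
  have hl : l.Prime := Fact.out
  have e : yy l F = ∑ i ∈ Finset.range l, po l F (if i = 1 then 1 else 0) * yy l F ^ i := by
    rw [Finset.sum_eq_single_of_mem 1 (Finset.mem_range.mpr hl.one_lt), if_pos rfl, map_one,
      one_mul, pow_one]
    intro b _ hb
    rw [if_neg hb, map_zero, zero_mul]
  conv_lhs => rw [e]
  rw [cf_sum _ hj]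

private theorem gau_one : gau w (1 : Co l F) = 1 := by
  have hl : l.Prime := Fact.out
  apply le_antisymm
  · rw [gau_le]
    intro j hj i
    rw [← map_one (po l F), cf_po _ hj]
    split_ifs
    · rw [coeff_one]
      split_ifs
      · rw [map_one]
      · rw [map_zero]
        exact zero_le
    · rw [coeff_zero, map_zero]
      exact zero_le
  · have h1 := le_gau w (1 : Co l F) hl.pos 0
    rwa [← map_one (po l F), cf_po _ hl.pos, if_pos rfl, coeff_one_zero, map_one, map_one] at h1

/-- Integral elements lift. -/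
private theorem ex_lift {f0 : (w : Type)[X]} (hF : f0.map (algebraMap w Om) = F) {h : Co l F}
    (hh : gau w h ≤ 1) : ∃ H : Co l f0, rh l (algebraMap w Om) hF H = h := by
  rw [gau_le] at hh
  have h1 : ∀ j, ∃ p : (w : Type)[X], j < l → p.map (algebraMap w Om) = cf h j := by
    intro j
    by_cases hj : j < l
    · have h2 : cf h j ∈ lifts (algebraMap w Om) := by
        rw [lifts_iff_coeff_lifts]
        intro i
        exact ⟨⟨_, (w.valuation_le_one_iff _).mp (hh j hj i)⟩, rfl⟩
      obtain ⟨p, hp⟩ := (mem_lifts _).mp h2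
      exact ⟨p, fun _ => hp⟩
    · exact ⟨0, fun h => absurd h hj⟩
  choose p hp using h1
  refine ⟨∑ j ∈ Finset.range l, po l f0 (p j) * yy l f0 ^ j, ?_⟩
  rw [map_sum]
  conv_rhs => rw [eq_sum h]
  refine Finset.sum_congr rfl fun j hj => ?_
  rw [map_mul, map_pow, rh_po, rh_yy, hp j (Finset.mem_range.mp hj)]

private theorem gau_rh_le {f0 : (w : Type)[X]} (hF : f0.map (algebraMap w Om) = F) (H : Co l f0) :
    gau w (rh l (algebraMap w Om) hF H) ≤ 1 := by
  rw [gau_le]
  intro j hj i
  rw [cf_rh _ _ _ hj, coeff_map]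
  exact w.valuation_le_one _

private theorem gau_rh_lt {f0 : (w : Type)[X]} (hF : f0.map (algebraMap w Om) = F) (H : Co l f0) :
    gau w (rh l (algebraMap w Om) hF H) < 1 ↔
      rh l (IsLocalRing.residue w) (rfl : f0.map (IsLocalRing.residue w) = _) H = 0 := by
  rw [gau_lt]
  constructor
  · intro h
    apply co_ext
    intro j hj
    ext1 i
    rw [cf_rh _ _ _ hj, coeff_map, cf_zero, coeff_zero, IsLocalRing.residue_eq_zero_iff,
      ValuationSubring.valuation_lt_one_iff]
    have h1 := h j hj i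
    rwa [cf_rh _ _ _ hj, coeff_map] at h1
  · intro h j hj i
    rw [cf_rh _ _ _ hj, coeff_map]
    have h1 : (cf (rh l (IsLocalRing.residue w)
      (rfl : f0.map (IsLocalRing.residue w) = _) H) j).coeff i = 0 := by
      rw [h, cf_zero, coeff_zero]
    rw [cf_rh _ _ _ hj, coeff_map, IsLocalRing.residue_eq_zero_iff,
      ValuationSubring.valuation_lt_one_iff] at h1
    exact h1

private theorem mcRed {f0 : (w : Type)[X]} (hm : f0.Monic)
    (hF : f0.map (algebraMap w Om) = F) [Mc l F] : Mc l (f0.map (IsLocalRing.residue w)) where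
  cop := by
    have h1 := CopDeg.cop (l := l) (f := F)
    rw [← hF, hm.natDegree_map] at h1
    rwa [hm.natDegree_map]
  monic := hm.map _

private theorem gau_mul_one {f0 : (w : Type)[X]} (hm : f0.Monic)
    (hF : f0.map (algebraMap w Om) = F) [Mc l F] {g h : Co l F} (hg : gau w g = 1)
    (hh : gau w h = 1) : gau w (g * h) = 1 := by
  have hmc : Mc l (f0.map (IsLocalRing.residue w)) := mcRed hm hF
  obtain ⟨G, rfl⟩ := ex_lift hF hg.le
  obtain ⟨H, rfl⟩ := ex_lift hF hh.le
  rw [← map_mul]
  refine (gau_rh_le hF (G * H)).lt_or_eq.resolve_left fun h1 => ?_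
  rw [gau_rh_lt, map_mul, mul_eq_zero, ← gau_rh_lt hF, ← gau_rh_lt hF] at h1
  rcases h1 with h1 | h1
  · exact h1.ne hg
  · exact h1.ne hh

private theorem gau_mul {f0 : (w : Type)[X]} (hm : f0.Monic)
    (hF : f0.map (algebraMap w Om) = F) [Mc l F] (g h : Co l F) :
    gau w (g * h) = gau w g * gau w h := by
  have key : ∀ g : Co l F, g ≠ 0 → ∃ (c : Om) (g' : Co l F), gau w g' = 1 ∧ g = po l F (C c) * g' ∧
      gau w g = w.valuation c := by
    intro g hg
    obtain ⟨c, hc⟩ := w.valuation_surjective (gau w g)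
    have hc0 : c ≠ 0 := by
      rintro rfl
      rw [map_zero] at hc
      exact hg (gau_eq_zero hc.symm)
    refine ⟨c, po l F (C c⁻¹) * g, ?_, ?_, hc.symm⟩
    · rw [gau_C_mul, ← hc, ← map_mul, inv_mul_cancel₀ hc0, map_one]
    · rw [← mul_assoc, ← map_mul, ← C_mul, mul_inv_cancel₀ hc0, map_one, map_one, one_mul]
  by_cases hg : g = 0
  · rw [hg, zero_mul, gau_zero, zero_mul]
  by_cases hh : h = 0
  · rw [hh, mul_zero, gau_zero, mul_zero]
  obtain ⟨c, g', h1, h2, h3⟩ := key g hg
  obtain ⟨d, h', h4, h5, h6⟩ := key h hh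
  rw [h3, h6, h2, h5]
  have e : po l F (C c) * g' * (po l F (C d) * h') = po l F (C c) * (po l F (C d) * (g' * h')) := by
    ring
  rw [e, gau_C_mul, gau_C_mul, gau_mul_one hm hF h1 h4, mul_one]

/-- The Gauss valuation of the coordinate ring. -/
private noncomputable def gvR {f0 : (w : Type)[X]} (hm : f0.Monic)
    (hF : f0.map (algebraMap w Om) = F) [Mc l F] : Valuation (Co l F) w.ValueGroup where
  toFun := gau w
  map_zero' := gau_zero
  map_one' := gau_one
  map_mul' := gau_mul hm hF
  map_add_le_max' := gau_add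

end gau

theorem exists_gv {f0 : (w : Type)[X]} (hm : f0.Monic) {F : Om[X]}
    (hF : f0.map (algebraMap w Om) = F) [Mc l F] : ∃ v : Valuation (Fr l F) w.ValueGroup, IsGv w v := by
  have hS : nonZeroDivisors (Co l F) ≤ (gvR (l := l) hm hF).supp.primeCompl := by
    intro h hh h1
    rw [SetLike.mem_coe, Valuation.mem_supp_iff] at h1
    exact nonZeroDivisors.ne_zero hh (gau_eq_zero h1)
  refine ⟨(gvR (l := l) hm hF).extendToLocalization hS (Fr l F), ⟨fun h r => ?_⟩⟩
  rw [toFr, Valuation.extendToLocalization_apply_map_apply]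
  exact gau_le

variable {F : Om[X]} [Mc l F] {v : Valuation (Fr l F) w.ValueGroup}

namespace IsGv

private theorem eq_gau (hv : IsGv w v) (h : Co l F) : v (toFr h) = gau w h := by
  apply le_antisymm
  · rw [hv.le_iff]
    exact fun j hj i => le_gau w h hj i
  · rw [gau_le]
    exact (hv.le_iff h _).mp le_rfl

theorem lt_iff (hv : IsGv w v) (h : Co l F) {r : w.ValueGroup} (hr : 0 < r) :
    v (toFr h) < r ↔ ∀ j < l, ∀ i, w.valuation ((cf h j).coeff i) < r := by
  rw [hv.eq_gau]
  exact gau_lt

theorem att (hv : IsGv w v) (h : Co l F) :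
    ∃ j < l, ∃ i, w.valuation ((cf h j).coeff i) = v (toFr h) := by
  rw [hv.eq_gau]
  exact gau_att w h

theorem val_C (hv : IsGv w v) (c : Om) : v (toFr (po l F (C c))) = w.valuation c := by
  rw [hv.eq_gau, ← mul_one (po l F (C c)), gau_C_mul, gau_one, mul_one]

theorem val_po_monic (hv : IsGv w v) {p0 : (w : Type)[X]} (hp : p0.Monic) :
    v (toFr (po l F (p0.map (algebraMap w Om)))) = 1 := by
  have hl : l.Prime := Fact.out
  rw [hv.eq_gau]
  apply le_antisymm
  · rw [gau_le]
    intro j hj i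
    rw [cf_po _ hj]
    split_ifs
    · rw [coeff_map]
      exact w.valuation_le_one _
    · rw [coeff_zero, map_zero]
      exact zero_le
  · have h1 := le_gau w (po l F (p0.map (algebraMap w Om))) hl.pos p0.natDegree
    rwa [cf_po _ hl.pos, if_pos rfl, coeff_map, hp.coeff_natDegree, map_one, map_one] at h1

theorem val_yy (hv : IsGv w v) : v (toFr (yy l F)) = 1 := by
  have hl : l.Prime := Fact.out
  rw [hv.eq_gau]
  apply le_antisymm
  · rw [gau_le]
    intro j hj i
    rw [cf_yy hj]
    split_ifs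
    · rw [coeff_one]
      split_ifs
      · rw [map_one]
      · rw [map_zero]
        exact zero_le
    · rw [coeff_zero, map_zero]
      exact zero_le
  · have h1 := le_gau w (yy l F) hl.one_lt 0
    rwa [cf_yy hl.one_lt, if_pos rfl, coeff_one_zero, map_one] at h1

end IsGv

/-- The automorphism of the fraction field. -/
noncomputable def sfr {ζ : Om} (hz : ζ ^ l = 1) : Fr l F ≃+* Fr l F :=
  IsFractionRing.ringEquivOfRingEquiv (sig (l := l) (f := F) hz)

omit [Mc l F] in
theorem sfr_toFr [CopDeg l F] {ζ : Om} (hz : ζ ^ l = 1) (h : Co l F) :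
    IsFractionRing.ringEquivOfRingEquiv (sig (l := l) (f := F) hz) (toFr h) =
      toFr (sig (l := l) (f := F) hz h) :=
  IsFractionRing.ringEquivOfRingEquiv_algebraMap _ _

private theorem gau_sig {ζ : Om} (hz : ζ ^ l = 1) (h : Co l F) :
    gau w (sig (l := l) (f := F) hz h) = gau w h := by
  have hl : l.Prime := Fact.out
  have hz1 : w.valuation ζ = 1 := by
    have h1 := congrArg w.valuation hz
    rw [map_pow, map_one] at h1
    exact (pow_eq_one_iff.mp h1).resolve_right hl.ne_zero
  have hc : ∀ j < l, ∀ i, w.valuation ((cf (sig (l := l) (f := F) hz h) j).coeff i) =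
      w.valuation ((cf h j).coeff i) := by
    intro j hj i
    rw [cf_coMap _ _ _ _ _ hj, coeff_C_mul, map_mul, map_pow, map_inv₀, hz1, inv_one, one_pow,
      one_mul, coeff_map]
    rfl
  apply le_antisymm
  · rw [gau_le]
    intro j hj i
    rw [hc j hj i]
    exact le_gau w h hj i
  · rw [gau_le]
    intro j hj i
    rw [← hc j hj i]
    exact le_gau w _ hj i

theorem val_sfr (hv : IsGv w v) {ζ : Om} (hz : ζ ^ l = 1) (h : Fr l F) : v (sfr hz h) = v h := by
  obtain ⟨a, b, _, rfl⟩ := IsFractionRing.div_surjective (A := Co l F) h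
  rw [map_div₀, map_div₀, map_div₀]
  have e : ∀ a : Co l F, v (sfr hz (algebraMap (Co l F) (Fr l F) a)) =
      v (algebraMap (Co l F) (Fr l F) a) := by
    intro a
    have h1 : sfr hz (algebraMap (Co l F) (Fr l F) a) = toFr (sig (l := l) (f := F) hz a) :=
      sfr_toFr hz a
    rw [h1, hv.eq_gau, gau_sig, ← hv.eq_gau]
  rw [e, e]

/-- A unit modulo the maximal ideal is congruent to a constant: if `r1 r2` is `1` modulo the maximal ideal,
`r1`, `r2` integral, then `r1` is congruent to a constant. -/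
theorem unit_mod {f0 : (w : Type)[X]} (hm : f0.Monic) (hF : f0.map (algebraMap w Om) = F)
    (hv : IsGv w v) {r1 r2 : Co l F} (h1 : v (toFr r1) ≤ 1) (h2 : v (toFr r2) ≤ 1)
    (h : v (toFr (r1 * r2 - 1)) < 1) :
    ∃ c : Om, w.valuation c = 1 ∧ v (toFr (r1 - po l F (C c))) < 1 := by
  have hmc : Mc l (f0.map (IsLocalRing.residue w)) := mcRed hm hF
  rw [hv.eq_gau] at h1 h2 h
  obtain ⟨R1, rfl⟩ := ex_lift hF h1
  obtain ⟨R2, rfl⟩ := ex_lift hF h2
  rw [← map_mul, ← map_one (rh l (algebraMap w Om) hF), ← map_sub, gau_rh_lt, map_sub, map_mul,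
    map_one, sub_eq_zero] at h
  obtain ⟨c, hc0, hc⟩ := isUnit_co.mp (IsUnit.of_mul_eq_one _ h)
  obtain ⟨c0, rfl⟩ := IsLocalRing.residue_surjective c
  refine ⟨c0, ?_, ?_⟩
  · rw [← ValuationSubring.valuation_eq_one_iff]
    by_contra h3
    exact hc0 ((IsLocalRing.residue_eq_zero_iff _).mpr h3)
  · have e : rh l (algebraMap w Om) hF R1 - po l F (C (c0 : Om)) =
        rh l (algebraMap w Om) hF (R1 - po l f0 (C c0)) := by
      rw [map_sub, rh_po, map_C]
      rfl
    rw [hv.eq_gau, e, gau_rh_lt, map_sub, hc, rh_po, map_C, sub_self]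

end Pool.Agent.SmS
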