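import Pool.Agent.Lib.SmN.R.Hb

/-!
SMITH-S, (10.5): Hilbert 90 and an `l`-th root.

`D` a subgroup of `Gal(Ω / K)`, `E : D → Ω ^ ×` locally constant with `ζ ^ c(s,t) E(s t) = E(s) s(E(t))`, `ζ` a primitive `l`-th root of unity fixed by
`Gal(Ω / K)`. Then `c = e s + e t - e (s t)` on `D` with `e : G → ZMod l` locally constant on `D`.
`E ^ l` is a cocycle: `h90K` (with `z s = Units.mk0 (E s ^ l)` on `D`, arbitrary (1) outside): `E s ^ l = s y / y`. `y = Y ^ l`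
(`IsSepClosed.exists_pow_nat_eq`, `(l : Ω) ≠ 0` because of `ζ`). `(E s * Y / s Y) ^ l = 1`, so `E s = ζ ^ e(s) * s Y / Y`, `e s : ZMod l`
(`IsPrimitiveRoot.eq_pow_of_pow_eq_one`), chosen such that `e s` depends on `E s * Y / s Y` only (define `e` by a function on the roots of unity).
`e` is locally constant: `Y` is fixed by an open normal subgroup `U'` (`Y` is in a finite Galois extension of `K`); take `U ⊓ U'`. Insert in the relation:
`ζ ^ c ζ ^ e(st) = ζ ^ e(s) ζ ^ e(t)` (`s ζ = ζ`); compare the exponents (`IsPrimitiveRoot.pow_inj`, `ZMod`).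
-/

set_option autoImplicit false

namespace Pool.Agent.SmS

open Pool.Agent.SmN.R

private theorem h90E_fix {K Ω : Type} [Field K] [Field Ω] [Algebra K Ω] [IsGalois K Ω] (Y : Ω) :
    ∃ V : Subgroup (Ω ≃ₐ[K] Ω), V.Normal ∧ IsOpen (V : Set (Ω ≃ₐ[K] Ω)) ∧ ∀ m ∈ V, m Y = Y := by
  have hY : IsIntegral K Y := Algebra.IsIntegral.isIntegral Y
  have h1 : FiniteDimensional K (IntermediateField.adjoin K {Y}) :=
    IntermediateField.adjoin.finiteDimensional hY
  let L : IntermediateField K Ω := IntermediateField.normalClosure K (IntermediateField.adjoin K {Y}) Ω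
  have hL1 : FiniteDimensional K L := inferInstance
  have hL2 : Normal K L := inferInstance
  have hYL : Y ∈ L := by
    have h3 : IntermediateField.adjoin K {Y} ≤ L := IntermediateField.le_normalClosure _
    exact h3 (IntermediateField.mem_adjoin_simple_self K Y)
  refine ⟨L.fixingSubgroup, ?_, IntermediateField.fixingSubgroup_isOpen L, fun m hm => ?_⟩
  · infer_instance
  · exact (IntermediateField.mem_fixingSubgroup_iff L m).1 hm Y hYL

theorem exists_lift {K Ω : Type} [Field K] [Field Ω] [Algebra K Ω] [IsGalois K Ω] [IsSepClosed Ω]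
    {l : ℕ} (hl : l.Prime) {ζ : Ω} (hζ : IsPrimitiveRoot ζ l)
    (hζK : ∀ s : Ω ≃ₐ[K] Ω, s ζ = ζ) (D : Subgroup (Ω ≃ₐ[K] Ω))
    {c : (Ω ≃ₐ[K] Ω) → (Ω ≃ₐ[K] Ω) → ZMod l} {E : (Ω ≃ₐ[K] Ω) → Ω} (hE0 : ∀ s ∈ D, E s ≠ 0)
    {U : Subgroup (Ω ≃ₐ[K] Ω)} (hU : U.Normal) (hUo : IsOpen (U : Set (Ω ≃ₐ[K] Ω)))
    (hE : ∀ s ∈ D, ∀ m ∈ U, m ∈ D → E (s * m) = E s)
    (h : ∀ s ∈ D, ∀ t ∈ D, ζ ^ (c s t).val * E (s * t) = E s * s (E t)) :
    ∃ (e : (Ω ≃ₐ[K] Ω) → ZMod l) (U' : Subgroup (Ω ≃ₐ[K] Ω)), U'.Normal ∧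
      IsOpen (U' : Set (Ω ≃ₐ[K] Ω)) ∧ (∀ s ∈ D, ∀ m ∈ U', m ∈ D → e (s * m) = e s) ∧
      ∀ s ∈ D, ∀ t ∈ D, c s t = e s + e t - e (s * t) := by
  classical
  haveI : NeZero l := ⟨hl.ne_zero⟩
  haveI : NeZero (l : Ω) := hζ.neZero'
  have hζl : ζ ^ l = 1 := hζ.pow_eq_one
  -- the cocycle
  let z : (Ω ≃ₐ[K] Ω) → Ωˣ := fun s =>
    if hs : s ∈ D then Units.mk0 (E s ^ l) (pow_ne_zero _ (hE0 s hs)) else 1
  have hz : ∀ s ∈ D, (z s : Ω) = E s ^ l := by
    intro s hs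
    simp only [z, dif_pos hs, Units.val_mk0]
  obtain ⟨y, hy⟩ := h90K D z ⟨U, hU, hUo, fun s hs n hn hnD => by
      apply Units.ext
      rw [hz _ (D.mul_mem hs hnD), hz s hs, hE s hs n hn hnD]⟩ (fun s hs t ht => by
      apply Units.ext
      rw [Units.val_mul, hz _ (D.mul_mem hs ht), hz s hs]
      have h1 : ((s • z t : Ωˣ) : Ω) = s (z t : Ω) := rfl
      rw [h1, hz t ht, map_pow, ← mul_pow, ← h s hs t ht, mul_pow, ← pow_mul, mul_comm (c s t).val l,
        pow_mul, hζl, one_pow, one_mul])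
  obtain ⟨Y, hY⟩ := IsSepClosed.exists_pow_nat_eq (y : Ω) l
  have hY0 : Y ≠ 0 := by
    intro h0
    rw [h0, zero_pow hl.ne_zero] at hY
    exact y.ne_zero hY.symm
  have hsY : ∀ s : Ω ≃ₐ[K] Ω, s Y ≠ 0 := fun s => (map_ne_zero s).2 hY0
  have hpow : ∀ s ∈ D, (E s * Y / s Y) ^ l = 1 := by
    intro s hs
    have h1 : (z s : Ω) = s (y : Ω) * (y : Ω)⁻¹ := by
      rw [hy s hs, Units.val_mul, Units.val_inv_eq_inv_val]
      rfl
    rw [div_pow, mul_pow, ← hz s hs, h1, ← hY, map_pow]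
    have := pow_ne_zero l hY0
    have := pow_ne_zero l (hsY s)
    field_simp
  -- exponents
  have hf : ∀ x : Ω, ∃ i : ZMod l, x ^ l = 1 → ζ ^ i.val = x := by
    intro x
    by_cases hx : x ^ l = 1
    · obtain ⟨i, hi, hix⟩ := hζ.eq_pow_of_pow_eq_one hx
      exact ⟨(i : ZMod l), fun _ => by rw [ZMod.val_natCast, Nat.mod_eq_of_lt hi, hix]⟩
    · exact ⟨0, fun h => absurd h hx⟩
  choose f hf using hf
  obtain ⟨V, hVn, hVo, hV⟩ := h90E_fix (K := K) Y
  have hEe : ∀ s ∈ D, E s = ζ ^ (f (E s * Y / s Y)).val * s Y / Y := by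
    intro s hs
    rw [hf _ (hpow s hs)]
    have := hsY s
    field_simp
  refine ⟨fun s => f (E s * Y / s Y), U ⊓ V, inferInstance, hUo.inter hVo, ?_, ?_⟩
  · intro s hs m hm hmD
    have h1 : (s * m) Y = s Y := by
      rw [AlgEquiv.mul_apply, hV m hm.2]
    simp only [hE s hs m hm.1 hmD, h1]
  · intro s hs t ht
    have h1 := h s hs t ht
    have hst := D.mul_mem hs ht
    have e1 := hEe s hs
    have e2 := hEe t ht
    have e3 := hEe _ hst
    set a := f (E s * Y / s Y) with ha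
    set b := f (E t * Y / t Y) with hb
    set d := f (E (s * t) * Y / (s * t) Y) with hd
    rw [e1, e2, e3, AlgEquiv.mul_apply, map_div₀, map_mul, map_pow, hζK] at h1
    have n1 := hsY s
    have n2 : s (t Y) ≠ 0 := hsY (s * t)
    have h2 : ζ ^ ((c s t).val + d.val) = ζ ^ (a.val + b.val) := by
      rw [pow_add, pow_add]
      have h3 : (ζ ^ (c s t).val * ζ ^ d.val) * (s (t Y) / Y) = (ζ ^ a.val * ζ ^ b.val) * (s (t Y) / Y) := by
        have h4 : ζ ^ a.val * s Y / Y * (ζ ^ b.val * s (t Y) / s Y) =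
            (ζ ^ a.val * ζ ^ b.val) * (s (t Y) / Y) := by
          field_simp
        rw [← h4, ← h1]
        ring
      exact mul_right_cancel₀ (div_ne_zero n2 hY0) h3
    rw [(hζ.isOfFinOrder hl.ne_zero).pow_eq_pow_iff_modEq, ← hζ.eq_orderOf,
      ← ZMod.natCast_eq_natCast_iff] at h2
    push_cast at h2
    rw [ZMod.natCast_zmod_val, ZMod.natCast_zmod_val, ZMod.natCast_zmod_val, ZMod.natCast_zmod_val] at h2
    show c s t = a + b - d
    rw [← h2]
    ring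

end Pool.Agent.SmS
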