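import Pool.Agent.Lib.SmS.Fix
import Pool.Agent.Lib.SmS.Div
import Pool.Agent.Lib.SmJ.E.Cop

/-!
SMITH-S, section 10 (isotropy): the setting.

`Tw l a Γ`: a group `Γ` acting on `F` by `s`, on the indices of the branch points by `p`, with a character
`u : Γ → μ_l` which is the twist, a root of unity `z` fixed by `Γ`, `del` with `s g del = u g * del` (Kummer), and a family
`NN` of subgroups (the open ones). `th g` the action on `Co l (ff a)`, `ac g` on the Jacobian, `pt g` on the points,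
`pw g` on `V0 l n`. `Stab T`: the multiset `T` of points is stable; `NB T`: no branch point in `T`. `LC E`: `E` is
locally constant. `Spl c`: the cochain `z ^ c` is the coboundary of a locally constant cochain.
-/

set_option autoImplicit false

open Polynomial

namespace Pool.Agent.SmS

/-! ### Ideals and points -/

section pts

variable {l : ℕ} {F : Type} [Field F] {f : F[X]} [Fact l.Prime]

theorem Pnt.ne_bot [Sup l f] (P : Pnt l f) : P.idl ≠ ⊥ := by
  intro h0
  have h1 : po l f (X - C P.x) ∈ P.idl := by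
    rw [Pnt.mem_idl, Pnt.ev_po, eval_sub, eval_X, eval_C, sub_self]
  rw [h0, Ideal.mem_bot] at h1
  refine lcc_ne_zero.mp ?_ h1
  rw [lcc_po, leadingCoeff_X_sub_C]
  exact one_ne_zero

omit [Fact l.Prime] in
theorem Pnt.ev_C (P : Pnt l f) (c : F) : P.ev (po l f (C c)) = c := by
  rw [Pnt.ev_po, eval_C]

omit [Fact l.Prime] in
theorem Pnt.idl_inj {P P' : Pnt l f} (h : P.idl = P'.idl) : P = P' := by
  have h1 : po l f (X - C P.x) ∈ P.idl := by
    rw [Pnt.mem_idl, Pnt.ev_po]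
    simp
  have h2 : yy l f - po l f (C P.y) ∈ P.idl := by
    rw [Pnt.mem_idl, map_sub, Pnt.ev_po, Pnt.ev_yy]
    simp
  rw [h, Pnt.mem_idl, Pnt.ev_po] at h1
  rw [h, Pnt.mem_idl, map_sub, Pnt.ev_po, Pnt.ev_yy] at h2
  simp only [eval_sub, eval_X, eval_C] at h1 h2
  ext
  · exact (sub_eq_zero.mp h1).symm
  · exact (sub_eq_zero.mp h2).symm

/-- The ideal of a multiset of points. -/
noncomputable def idT (T : Multiset (Pnt l f)) : Ideal (Co l f) := (T.map Pnt.idl).prod

/-- The class of a multiset of points. -/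
noncomputable def clT [Sup l f] [IsSepClosed F] (T : Multiset (Pnt l f)) : JJ l f :=
  (T.map fun P => P.cl).sum

omit [Fact l.Prime] in
@[simp] theorem idT_zero : idT (0 : Multiset (Pnt l f)) = ⊤ := by
  rw [idT, Multiset.map_zero, Multiset.prod_zero, Ideal.one_eq_top]

omit [Fact l.Prime] in
@[simp] theorem idT_cons (P : Pnt l f) (T : Multiset (Pnt l f)) : idT (P ::ₘ T) = P.idl * idT T := by
  rw [idT, Multiset.map_cons, Multiset.prod_cons]
  rfl

omit [Fact l.Prime] in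
theorem idT_add (T T' : Multiset (Pnt l f)) : idT (T + T') = idT T * idT T' := by
  rw [idT, Multiset.map_add, Multiset.prod_add]
  rfl

@[simp] theorem clT_zero [Sup l f] [IsSepClosed F] : clT (0 : Multiset (Pnt l f)) = 0 := by
  rw [clT, Multiset.map_zero, Multiset.sum_zero]

@[simp] theorem clT_cons [Sup l f] [IsSepClosed F] (P : Pnt l f) (T : Multiset (Pnt l f)) :
    clT (P ::ₘ T) = P.cl + clT T := by
  rw [clT, Multiset.map_cons, Multiset.sum_cons]
  rfl

theorem clT_add [Sup l f] [IsSepClosed F] (T T' : Multiset (Pnt l f)) : clT (T + T') = clT T + clT T' := by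
  rw [clT, Multiset.map_add, Multiset.sum_add]
  rfl

theorem idT_ne_bot [Sup l f] [IsSepClosed F] (T : Multiset (Pnt l f)) : idT T ≠ ⊥ := by
  induction T using Multiset.induction_on with
  | empty =>
    rw [idT_zero]
    exact top_ne_bot
  | cons P T ih =>
    rw [idT_cons]
    exact mul_ne_zero P.ne_bot ih

theorem cls_idT [Sup l f] [IsSepClosed F] (T : Multiset (Pnt l f)) : SmJ.cls (idT T) = clT T := by
  induction T using Multiset.induction_on with
  | empty =>
    rw [idT_zero, clT_zero, SmJ.cls_top]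
  | cons P T ih =>
    rw [idT_cons, clT_cons, SmJ.cls_mul P.ne_bot (idT_ne_bot T), ih]
    rfl

theorem map_idT (s : F ≃+* F) (hs : f.map (s : F →+* F) = f) (u : F) (hu : u ^ l = 1)
    (T : Multiset (Pnt l f)) :
    (idT T).map (coMap s hs u hu : Co l f →+* Co l f) = idT (T.map (Pnt.map s hs u hu)) := by
  induction T using Multiset.induction_on with
  | empty => rw [Multiset.map_zero, idT_zero, Ideal.map_top]
  | cons P T ih => rw [Multiset.map_cons, idT_cons, idT_cons, Ideal.map_mul, ih, Pnt.map_idl]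

omit [Fact l.Prime] in
/-- An ideal prime to the ideal of a point has an element which does not vanish there. -/
theorem exists_ev_ne {A : Ideal (Co l f)} {P : Pnt l f} (h : A ⊔ P.idl = ⊤) :
    ∃ z ∈ A, P.ev z ≠ 0 := by
  by_contra h1
  push Not at h1
  have h2 : A ≤ P.idl := fun z hz => h1 z hz
  rw [sup_eq_right.mpr h2] at h
  exact P.idl_max.ne_top h

omit [Fact l.Prime] in
theorem sup_idl_iff {A : Ideal (Co l f)} {P : Pnt l f} : A ⊔ P.idl = ⊤ ↔ ¬ A ≤ P.idl := by
  constructor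
  · intro h h1
    rw [sup_eq_right.mpr h1] at h
    exact P.idl_max.ne_top h
  · intro h
    by_contra h1
    exact h (le_sup_left.trans (P.idl_max.eq_of_le h1 le_sup_right).ge)

end pts

/-! ### The setting -/

/-- The setting of section 10. -/
structure Tw (l : ℕ) {F : Type} [Field F] {n : ℕ} (a : Fin n → F) (Γ : Type) [Group Γ] where
  s : Γ → F ≃+* F
  p : Γ → Equiv.Perm (Fin n)
  u : Γ → F
  z : F
  del : F
  NN : Set (Subgroup Γ)
  s_mul : ∀ g h x, s (g * h) x = s g (s h x)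
  sa : ∀ g i, s g (a i) = a (p g i)
  ul : ∀ g, u g ^ l = 1
  um : ∀ g h, u (g * h) = u g * u h
  us : ∀ g h, s g (u h) = u h
  hz : IsPrimitiveRoot z l
  sz : ∀ g, s g z = z
  del_ne : del ≠ 0
  sd : ∀ g, s g del = u g * del
  top : ⊤ ∈ NN
  inf : ∀ N ∈ NN, ∀ N' ∈ NN, N ⊓ N' ∈ NN
  lvF : ∀ x : F, ∃ N ∈ NN, ∀ n ∈ N, s n x = x
  lvu : ∃ N ∈ NN, ∀ n ∈ N, u n = 1

namespace Tw

variable {l : ℕ} {F : Type} [Field F] {n : ℕ} {a : Fin n → F} {Γ : Type} [Group Γ]
  (W : Tw l a Γ)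

theorem s_one (x : F) : W.s 1 x = x := by
  have h := W.s_mul 1 1 x
  rw [mul_one] at h
  exact ((W.s 1).injective h).symm

theorem map_ff (g : Γ) : (ff a).map (W.s g : F →+* F) = ff a := by
  rw [ff, Polynomial.map_prod]
  refine Fintype.prod_equiv (W.p g) _ _ fun i => ?_
  rw [Polynomial.map_sub, map_X, map_C]
  change X - C (W.s g (a i)) = _
  rw [W.sa]

section

variable [Fact l.Prime]

theorem u_ne (g : Γ) : W.u g ≠ 0 := ne_of_pow (W.ul g)

theorem u_one : W.u 1 = 1 := by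
  have h := W.um 1 1
  rw [mul_one] at h
  exact (mul_eq_left₀ (W.u_ne 1)).mp h.symm

/-- The action on the coordinate ring. -/
noncomputable def th (g : Γ) : Co l (ff a) ≃+* Co l (ff a) := coMap (W.s g) (W.map_ff g) (W.u g) (W.ul g)

/-- The action on the points. -/
noncomputable def pt (g : Γ) : Pnt l (ff a) → Pnt l (ff a) := Pnt.map (W.s g) (W.map_ff g) (W.u g) (W.ul g)

omit [Fact l.Prime] in
@[simp] theorem pt_x (g : Γ) (P : Pnt l (ff a)) : (W.pt g P).x = W.s g P.x := rfl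

omit [Fact l.Prime] in
@[simp] theorem pt_y (g : Γ) (P : Pnt l (ff a)) : (W.pt g P).y = W.u g * W.s g P.y := rfl

@[simp] theorem th_po (g : Γ) (q : F[X]) : W.th g (po l (ff a) q) = po l (ff a) (q.map (W.s g : F →+* F)) :=
  coMap_po _ _ _ _ _

@[simp] theorem th_yy (g : Γ) : W.th g (yy l (ff a)) = po l (ff a) (C (W.u g)⁻¹) * yy l (ff a) :=
  coMap_yy _ _ _ _

theorem th_C (g : Γ) (c : F) : W.th g (po l (ff a) (C c)) = po l (ff a) (C (W.s g c)) := by
  rw [th_po, map_C]
  rfl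

theorem ev_pt (g : Γ) (P : Pnt l (ff a)) (h : Co l (ff a)) :
    (W.pt g P).ev (W.th g h) = W.s g (P.ev h) := ev_map _ _ _ _ _ _

theorem idl_pt (g : Γ) (P : Pnt l (ff a)) :
    P.idl.map (W.th g : Co l (ff a) →+* Co l (ff a)) = (W.pt g P).idl := Pnt.map_idl _ _ _ _ _

theorem idT_pt (g : Γ) (T : Multiset (Pnt l (ff a))) :
    (idT T).map (W.th g : Co l (ff a) →+* Co l (ff a)) = idT (T.map (W.pt g)) := map_idT _ _ _ _ _

theorem pt_br (g : Γ) (i : Fin n) : W.pt g (br l a i) = br l a (W.p g i) := by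
  ext
  · change W.s g (a i) = a (W.p g i)
    exact W.sa g i
  · change W.u g * W.s g 0 = 0
    rw [map_zero, mul_zero]

theorem th_mul (g h : Γ) (x : Co l (ff a)) : W.th (g * h) x = W.th g (W.th h x) := by
  have e : ((W.th (g * h) : Co l (ff a) ≃+* Co l (ff a)) : Co l (ff a) →+* Co l (ff a)) =
      ((W.th g : Co l (ff a) ≃+* Co l (ff a)) : Co l (ff a) →+* Co l (ff a)).comp
        ((W.th h : Co l (ff a) ≃+* Co l (ff a)) : Co l (ff a) →+* Co l (ff a)) := by
    apply hom_ext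
    · intro q
      change W.th (g * h) (po l (ff a) q) = W.th g (W.th h (po l (ff a) q))
      rw [th_po, th_po, th_po, Polynomial.map_map]
      congr 2
      ext x
      exact W.s_mul g h x
    · change W.th (g * h) (yy l (ff a)) = W.th g (W.th h (yy l (ff a)))
      rw [th_yy, th_yy, map_mul, th_yy, th_C, ← mul_assoc, ← map_mul, ← C_mul]
      congr 3
      rw [map_inv₀, W.us, W.um, mul_inv, mul_comm]
  exact RingHom.congr_fun e x

theorem th_one (x : Co l (ff a)) : W.th 1 x = x := by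
  have h := W.th_mul 1 1 x
  rw [mul_one] at h
  exact ((W.th 1).injective h).symm

omit [Fact l.Prime] in
theorem pt_mul (g h : Γ) (P : Pnt l (ff a)) : W.pt (g * h) P = W.pt g (W.pt h P) := by
  ext
  · exact W.s_mul g h P.x
  · change W.u (g * h) * W.s (g * h) P.y = W.u g * W.s g (W.u h * W.s h P.y)
    rw [W.um, W.s_mul, map_mul, W.us, mul_assoc]

theorem pt_one (P : Pnt l (ff a)) : W.pt 1 P = P := by
  ext
  · exact W.s_one P.x
  · change W.u 1 * W.s 1 P.y = P.y
    rw [u_one, s_one, one_mul]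

theorem pt_inj (g : Γ) : Function.Injective (W.pt g) := by
  intro P P' h
  have h1 := congrArg (W.pt g⁻¹) h
  rwa [← pt_mul, ← pt_mul, inv_mul_cancel, pt_one, pt_one] at h1

theorem pt_surj (g : Γ) : Function.Surjective (W.pt g) := fun P =>
  ⟨W.pt g⁻¹ P, by rw [← pt_mul, mul_inv_cancel, pt_one]⟩

theorem map_th_mul (g h : Γ) (A : Ideal (Co l (ff a))) :
    A.map (W.th (g * h) : Co l (ff a) →+* Co l (ff a)) =
      (A.map (W.th h : Co l (ff a) →+* Co l (ff a))).map (W.th g : Co l (ff a) →+* Co l (ff a)) := by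
  rw [Ideal.map_map]
  congr 1
  exact RingHom.ext fun x => W.th_mul g h x

/-- `σ` commutes with the action. -/
theorem th_sig (g : Γ) (x : Co l (ff a)) :
    W.th g (sig W.hz.pow_eq_one x) = sig W.hz.pow_eq_one (W.th g x) := by
  have e : ((W.th g : Co l (ff a) ≃+* Co l (ff a)) : Co l (ff a) →+* Co l (ff a)).comp
      ((sig W.hz.pow_eq_one : Co l (ff a) ≃+* Co l (ff a)) : Co l (ff a) →+* Co l (ff a)) =
      ((sig W.hz.pow_eq_one : Co l (ff a) ≃+* Co l (ff a)) : Co l (ff a) →+* Co l (ff a)).comp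
      ((W.th g : Co l (ff a) ≃+* Co l (ff a)) : Co l (ff a) →+* Co l (ff a)) := by
    apply hom_ext
    · intro q
      change W.th g (sig W.hz.pow_eq_one (po l (ff a) q)) = sig W.hz.pow_eq_one (W.th g (po l (ff a) q))
      rw [coMap_po, th_po, th_po, coMap_po, Polynomial.map_map, Polynomial.map_map]
      rfl
    · change W.th g (sig W.hz.pow_eq_one (yy l (ff a))) = sig W.hz.pow_eq_one (W.th g (yy l (ff a)))
      rw [coMap_yy, map_mul, th_yy, th_C, map_mul, coMap_yy, coMap_po, map_C]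
      rw [map_inv₀, W.sz]
      change _ = po l (ff a) (C (W.u g)⁻¹) * _
      ring
  exact RingHom.congr_fun e x

end

variable [Fact l.Prime] [SupA l a]

omit [Fact l.Prime] in
theorem p_mul (g h : Γ) : W.p (g * h) = W.p g * W.p h := by
  ext1 i
  apply SupA.inj (l := l) (a := a)
  rw [← W.sa, W.s_mul, W.sa, W.sa]
  rfl

omit [Fact l.Prime] in
theorem p_one : W.p 1 = 1 := by
  have h := W.p_mul 1 1
  rw [mul_one] at h
  exact (left_eq_mul.mp h)

/-- The action on the vectors of sum zero. -/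
def pw (g : Γ) (w : V0 l n) : V0 l n := ⟨fun i => w.1 ((W.p g)⁻¹ i), by
  change ∑ i, w.1 ((W.p g)⁻¹ i) = 0
  rw [Fintype.sum_equiv ((W.p g)⁻¹ : Equiv.Perm (Fin n)) (fun i => w.1 ((W.p g)⁻¹ i)) (fun i => w.1 i)
    fun i => rfl]
  exact w.2⟩

omit [SupA l a] in
theorem pw_apply (g : Γ) (w : V0 l n) (i : Fin n) : (W.pw g w).1 i = w.1 ((W.p g)⁻¹ i) := rfl

theorem pw_mul (g h : Γ) (w : V0 l n) : W.pw (g * h) w = W.pw g (W.pw h w) := by
  apply Subtype.ext
  funext i
  rw [pw_apply, pw_apply, pw_apply, p_mul, mul_inv_rev]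
  rfl

variable [IsSepClosed F]

/-- The action on the Jacobian. -/
noncomputable def ac (g : Γ) : JJ l (ff a) →+ JJ l (ff a) :=
  act (W.s g) (W.map_ff g) (W.u g) (W.ul g)

theorem ac_cls (g : Γ) (A : Ideal (Co l (ff a))) :
    W.ac g (SmJ.cls A) = SmJ.cls (A.map (W.th g : Co l (ff a) →+* Co l (ff a))) :=
  act_cls _ _ _ _ _

theorem ac_cl (g : Γ) (P : Pnt l (ff a)) : W.ac g P.cl = (W.pt g P).cl := act_cl _ _ _ _ _

theorem ac_ee (g : Γ) (i : Fin n) : W.ac g (ee l a i) = ee l a (W.p g i) := by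
  rw [ee, ac_cl, pt_br]
  rfl

theorem ac_clT (g : Γ) (T : Multiset (Pnt l (ff a))) : W.ac g (clT T) = clT (T.map (W.pt g)) := by
  rw [← cls_idT, ac_cls, idT_pt, cls_idT]

theorem ac_mul (g h : Γ) (Q : JJ l (ff a)) : W.ac (g * h) Q = W.ac g (W.ac h Q) := by
  obtain ⟨A, -, rfl⟩ := SmJ.exists_cls Q
  rw [ac_cls, ac_cls, ac_cls, map_th_mul]

theorem ac_inj (g : Γ) : Function.Injective (W.ac g) := by
  rw [injective_iff_map_eq_zero]
  intro Q hQ
  have h1 : ∀ Q, W.ac 1 (W.ac 1 Q) = W.ac 1 Q := fun Q => by rw [← ac_mul, mul_one]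
  have h2 : ∀ Q : JJ l (ff a), W.ac 1 Q = Q := by
    intro Q
    obtain ⟨A, -, rfl⟩ := SmJ.exists_cls Q
    rw [ac_cls]
    congr 1
    have e : ((W.th 1 : Co l (ff a) ≃+* Co l (ff a)) : Co l (ff a) →+* Co l (ff a)) = RingHom.id _ :=
      RingHom.ext fun x => W.th_one x
    rw [e, Ideal.map_id]
  rw [← h2 Q, ← inv_mul_cancel g, ac_mul, hQ, map_zero]

theorem ac_one (Q : JJ l (ff a)) : W.ac 1 Q = Q := by
  apply W.ac_inj 1
  rw [← ac_mul, mul_one]

theorem ac_lam (g : Γ) (Q : JJ l (ff a)) :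
    W.ac g (lam W.hz.pow_eq_one Q) = lam W.hz.pow_eq_one (W.ac g Q) := by
  rw [lam_apply, lam_apply, map_sub]
  congr 1
  obtain ⟨A, -, rfl⟩ := SmJ.exists_cls Q
  rw [act_cls, ac_cls, ac_cls, act_cls, Ideal.map_map, Ideal.map_map]
  congr 2
  exact RingHom.ext fun x => W.th_sig g x

theorem io_pw (g : Γ) (w : V0 l n) : io l a (W.pw g w) = W.ac g (io l a w) := by
  rw [io_apply, io_apply, map_sum]
  refine (Fintype.sum_equiv (W.p g) _ _ fun i => ?_).symm
  rw [map_nsmul, ac_ee, pw_apply]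
  have h : (W.p g)⁻¹ (W.p g i) = i := (W.p g).symm_apply_apply i
  rw [h]

/-! ### Stable multisets of points -/

omit [SupA l a] [IsSepClosed F] in
/-- `T` is stable. -/
def Stab (T : Multiset (Pnt l (ff a))) : Prop := ∀ g, T.map (W.pt g) = T

omit [SupA l a] [IsSepClosed F] in
theorem stab_idT {T : Multiset (Pnt l (ff a))} (h : W.Stab T) (g : Γ) :
    (idT T).map (W.th g : Co l (ff a) →+* Co l (ff a)) = idT T := by
  rw [idT_pt, h g]

theorem stab_clT {T : Multiset (Pnt l (ff a))} (h : W.Stab T) (g : Γ) :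
    W.ac g (clT T) = clT T := by
  rw [ac_clT, h g]

/-! ### Locally constant cochains -/

omit [Fact l.Prime] [SupA l a] [IsSepClosed F] in
/-- Locally constant. -/
def LC {Y : Type} (E : Γ → Y) : Prop := ∃ N ∈ W.NN, ∀ g, ∀ m ∈ N, E (g * m) = E g

omit [Fact l.Prime] [SupA l a] [IsSepClosed F] in
theorem LC.const {Y : Type} (y : Y) : W.LC (fun _ => y) := ⟨⊤, W.top, fun _ _ _ => rfl⟩

omit [Fact l.Prime] [SupA l a] [IsSepClosed F] in
theorem LC.map {Y Z : Type} {E : Γ → Y} (h : W.LC E) (φ : Y → Z) : W.LC (fun g => φ (E g)) := by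
  obtain ⟨N, hN, h1⟩ := h
  exact ⟨N, hN, fun g m hm => congrArg φ (h1 g m hm)⟩

omit [Fact l.Prime] [SupA l a] [IsSepClosed F] in
theorem LC.map₂ {Y Z U : Type} {E : Γ → Y} {E' : Γ → Z} (h : W.LC E) (h' : W.LC E')
    (φ : Y → Z → U) : W.LC (fun g => φ (E g) (E' g)) := by
  obtain ⟨N, hN, h1⟩ := h
  obtain ⟨N', hN', h1'⟩ := h'
  exact ⟨N ⊓ N', W.inf N hN N' hN', fun g m hm => by
    change φ (E (g * m)) (E' (g * m)) = φ (E g) (E' g)
    rw [h1 g m hm.1, h1' g m hm.2]⟩

omit [Fact l.Prime] [SupA l a] [IsSepClosed F] in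
theorem LC.pi {ι : Type} [Finite ι] {Y : ι → Type} {E : Γ → ∀ i, Y i} (h : ∀ i, W.LC (fun g => E g i)) :
    W.LC E := by
  classical
  have := Fintype.ofFinite ι
  have h1 : ∀ S : Finset ι, ∃ N ∈ W.NN, ∀ g, ∀ m ∈ N, ∀ i ∈ S, E (g * m) i = E g i := by
    intro S
    induction S using Finset.induction_on with
    | empty => exact ⟨⊤, W.top, fun _ _ _ _ h => absurd h (Finset.notMem_empty _)⟩
    | insert i S hi ih =>
      obtain ⟨N, hN, h2⟩ := ih
      obtain ⟨N', hN', h3⟩ := h i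
      refine ⟨N ⊓ N', W.inf N hN N' hN', fun g m hm j hj => ?_⟩
      rw [Finset.mem_insert] at hj
      rcases hj with rfl | hj
      · exact h3 g m hm.2
      · exact h2 g m hm.1 j hj
  obtain ⟨N, hN, h2⟩ := h1 Finset.univ
  exact ⟨N, hN, fun g m hm => funext fun i => h2 g m hm i (Finset.mem_univ i)⟩

/-- The cochain `z ^ c` is the coboundary of a locally constant cochain. -/
def Spl (c : Γ → Γ → ZMod l) : Prop :=
  ∃ E : Γ → F, (∀ g, E g ≠ 0) ∧ W.LC E ∧
    ∀ g h, W.z ^ (c g h).val * E (g * h) = E g * W.s g (E h)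

/-! ### Levels -/

omit [Fact l.Prime] [SupA l a] [IsSepClosed F] in
theorem lv_poly (q : F[X]) : ∃ N ∈ W.NN, ∀ m ∈ N, q.map (W.s m : F →+* F) = q := by
  have h1 : ∀ S : Finset ℕ, ∃ N ∈ W.NN, ∀ m ∈ N, ∀ i ∈ S, W.s m (q.coeff i) = q.coeff i := by
    classical
    intro S
    induction S using Finset.induction_on with
    | empty => exact ⟨⊤, W.top, fun _ _ _ h => absurd h (Finset.notMem_empty _)⟩
    | insert i S hi ih =>
      obtain ⟨N, hN, h2⟩ := ih
      obtain ⟨N', hN', h3⟩ := W.lvF (q.coeff i)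
      refine ⟨N ⊓ N', W.inf N hN N' hN', fun m hm j hj => ?_⟩
      rw [Finset.mem_insert] at hj
      rcases hj with rfl | hj
      · exact h3 m hm.2
      · exact h2 m hm.1 j hj
  obtain ⟨N, hN, h2⟩ := h1 q.support
  refine ⟨N, hN, fun m hm => ?_⟩
  ext i
  rw [coeff_map]
  by_cases hi : i ∈ q.support
  · exact h2 m hm i hi
  · rw [notMem_support_iff.mp hi, map_zero]

omit [SupA l a] [IsSepClosed F] in
theorem lv_co (x : Co l (ff a)) : ∃ N ∈ W.NN, ∀ m ∈ N, W.th m x = x := by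
  have h1 : ∀ S : Finset ℕ, ∃ N ∈ W.NN, ∀ m ∈ N, ∀ i ∈ S,
      (cf x i).map (W.s m : F →+* F) = cf x i := by
    classical
    intro S
    induction S using Finset.induction_on with
    | empty => exact ⟨⊤, W.top, fun _ _ _ h => absurd h (Finset.notMem_empty _)⟩
    | insert i S hi ih =>
      obtain ⟨N, hN, h2⟩ := ih
      obtain ⟨N', hN', h3⟩ := W.lv_poly (cf x i)
      refine ⟨N ⊓ N', W.inf N hN N' hN', fun m hm j hj => ?_⟩
      rw [Finset.mem_insert] at hj
      rcases hj with rfl | hj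
      · exact h3 m hm.2
      · exact h2 m hm.1 j hj
  obtain ⟨N, hN, h2⟩ := h1 (Finset.range l)
  obtain ⟨N', hN', h3⟩ := W.lvu
  refine ⟨N ⊓ N', W.inf N hN N' hN', fun m hm => co_ext fun j hj => ?_⟩
  rw [th, cf_coMap _ _ _ _ _ hj, h3 m hm.2, h2 m hm.1 j (Finset.mem_range.mpr hj), inv_one,
    one_pow, C_1, one_mul]

omit [SupA l a] [IsSepClosed F] in
/-- Every ideal is fixed by a subgroup of the family. -/
theorem lv_ideal (A : Ideal (Co l (ff a))) : ∃ N ∈ W.NN, ∀ m ∈ N,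
    A.map (W.th m : Co l (ff a) →+* Co l (ff a)) = A := by
  classical
  obtain ⟨S, hS⟩ := IsNoetherian.noetherian A
  have h1 : ∀ S : Finset (Co l (ff a)), ∃ N ∈ W.NN, ∀ m ∈ N, ∀ x ∈ S, W.th m x = x := by
    intro S
    induction S using Finset.induction_on with
    | empty => exact ⟨⊤, W.top, fun _ _ _ h => absurd h (Finset.notMem_empty _)⟩
    | insert i S hi ih =>
      obtain ⟨N, hN, h2⟩ := ih
      obtain ⟨N', hN', h3⟩ := W.lv_co i
      refine ⟨N ⊓ N', W.inf N hN N' hN', fun m hm j hj => ?_⟩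
      rw [Finset.mem_insert] at hj
      rcases hj with rfl | hj
      · exact h3 m hm.2
      · exact h2 m hm.1 j hj
  obtain ⟨N, hN, h2⟩ := h1 S
  refine ⟨N, hN, fun m hm => ?_⟩
  rw [← hS]
  change (Ideal.span (S : Set (Co l (ff a)))).map _ = Ideal.span (S : Set (Co l (ff a)))
  rw [Ideal.map_span]
  congr 1
  ext x
  constructor
  · rintro ⟨y, hy, rfl⟩
    have h3 := h2 m hm y hy
    change W.th m y ∈ _
    rw [h3]
    exact hy
  · intro hx
    exact ⟨x, hx, h2 m hm x hx⟩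

theorem lv_jac (Q : JJ l (ff a)) : ∃ N ∈ W.NN, ∀ m ∈ N, W.ac m Q = Q := by
  obtain ⟨A, -, rfl⟩ := SmJ.exists_cls Q
  obtain ⟨N, hN, h⟩ := W.lv_ideal A
  exact ⟨N, hN, fun m hm => by rw [ac_cls, h m hm]⟩

/-- The cocycle of a class is locally constant. -/
theorem lc_x {Q : JJ l (ff a)} {x : Γ → V0 l n} (hx : ∀ g, W.ac g Q = Q + io l a (x g)) :
    W.LC x := by
  obtain ⟨N, hN, h⟩ := W.lv_jac Q
  refine ⟨N, hN, fun g m hm => ?_⟩
  apply io_inj (a := a) W.hz
  apply add_left_cancel (a := Q)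
  rw [← hx, ac_mul, h m hm, hx]

/-- The cocycle identity. -/
theorem x_mul {Q : JJ l (ff a)} {x : Γ → V0 l n} (hx : ∀ g, W.ac g Q = Q + io l a (x g)) (g h : Γ) :
    x (g * h) = x g + W.pw g (x h) := by
  apply io_inj (a := a) W.hz
  apply add_left_cancel (a := Q)
  rw [← hx, ac_mul, hx h, map_add, hx g, map_add, io_pw, add_assoc]

end Tw

end Pool.Agent.SmS
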