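import Pool.Agent.Lib.SmS.Brp

/-!
SMITH-S, section 10, (10.1): the classes fixed by `Γ` are generated by the classes of the stable multisets without branch points.

`M := red P` (`exists_red`): `M.map (pt g) = M` for all `g` (`red (ac g P) = (red P).map (pt g)`), `clT M = P`.
`M = M.filter (no branch point) + M.filter (branch point)`. The first part is stable and `NB` (`pt g` maps the branch points to the branch points and the
others to the others: `pt_br`, `pt_inj`, `(pt g P).x = s g P.x`, `Multiset.map_filter`-type lemma, or count: `Multiset.count_map_eq_count'` with `pt_inj`).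
The second part is `∑ i, m i • {br i}`, `m i := M.count (br l a i)`, `m (p g i) = m i`. For `k ≥ 1` let `O k := {i | k ≤ m i}`, stable, empty for
`k > card M`; `∑ i, m i • ee i = ∑ k ∈ Icc 1 (card M), ∑ i ∈ O k, ee i`, and each inner sum is `- clT T k` by `brp`. (A point with `x = a i` has `y = 0`, it is `br i`.)
-/

set_option autoImplicit false

open Polynomial

namespace Pool.Agent.SmS

variable {l : ℕ} {F : Type} [Field F] [Fact l.Prime] {n : ℕ} {a : Fin n → F} [SupA l a]
  [IsSepClosed F] [SmChar l (ff a)] {Γ : Type} [Group Γ]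

omit [SupA l a] [IsSepClosed F] [SmChar l (ff a)] in
/-- A point above `a i` is the branch point. -/
private theorem StabJ_br {P : Pnt l (ff a)} {i : Fin n} (h : P.x = a i) : P = br l a i := by
  have hl : l ≠ 0 := (Fact.out : l.Prime).ne_zero
  ext
  · exact h
  · change P.y = 0
    have h1 : P.y ^ l = 0 := by
      rw [P.on, h, ff_eval]
      exact Finset.prod_eq_zero (Finset.mem_univ i) (sub_self _)
    exact (pow_eq_zero_iff hl).mp h1

omit [SmChar l (ff a)] in
open Classical in
/-- The class of the part of `M` at the branch points. -/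
private theorem StabJ_cl (M : Multiset (Pnt l (ff a))) :
    clT (M.filter fun P => ∃ i, P.x = a i) = ∑ i, M.count (br l a i) • ee l a i := by
  induction M using Multiset.induction_on with
  | empty =>
    rw [Multiset.filter_zero, clT_zero]
    exact (Finset.sum_eq_zero fun i _ => by rw [Multiset.count_zero, zero_smul]).symm
  | cons Q M ih =>
    by_cases hQ : ∃ i, Q.x = a i
    · obtain ⟨j, hj⟩ := hQ
      have hQj := StabJ_br hj
      rw [Multiset.filter_cons_of_pos M (p := fun P : Pnt l (ff a) => ∃ i, P.x = a i) ⟨j, hj⟩, clT_cons,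
        ih, hQj]
      have h1 : ∀ i, (br l a j ::ₘ M).count (br l a i) • ee l a i =
          (if i = j then ee l a i else 0) + M.count (br l a i) • ee l a i := by
        intro i
        by_cases hij : i = j
        · subst hij
          rw [Multiset.count_cons_self, if_pos rfl, add_smul, one_smul, add_comm]
        · rw [Multiset.count_cons_of_ne, if_neg hij, zero_add]
          intro h
          exact hij (SupA.inj (l := l) (a := a) (congrArg Pnt.x h))
      rw [Finset.sum_congr rfl fun i _ => h1 i, Finset.sum_add_distrib, Finset.sum_ite_eq',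
        if_pos (Finset.mem_univ j)]
      rfl
    · rw [Multiset.filter_cons_of_neg M (p := fun P : Pnt l (ff a) => ∃ i, P.x = a i) hQ, ih]
      refine Finset.sum_congr rfl fun i _ => ?_
      rw [Multiset.count_cons_of_ne]
      rintro rfl
      exact hQ ⟨i, rfl⟩

private theorem StabJ_smul {A : Type*} [AddCommMonoid A] (e : A) {m K : ℕ} (h : m ≤ K) :
    m • e = ∑ k ∈ Finset.range K, if k < m then e else 0 := by
  rw [← Finset.sum_filter, Finset.sum_const]
  congr 1
  have : (Finset.range K).filter (fun k => k < m) = Finset.range m := by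
    ext k
    simp only [Finset.mem_filter, Finset.mem_range]
    omega
  rw [this, Finset.card_range]

theorem Tw.fixed_mem (W : Tw l a Γ) {P : JJ l (ff a)} (hP : ∀ g, W.ac g P = P) :
    P ∈ AddSubgroup.closure {R : JJ l (ff a) | ∃ T, W.Stab T ∧ NB T ∧ clT T = R} := by
  classical
  obtain ⟨red, hr1, -, hr3⟩ := exists_red (l := l) (f := ff a)
  set M := red P with hMd
  have hM : ∀ g, M.map (W.pt g) = M := by
    intro g
    have h1 := hr3 (W.s g) (W.map_ff g) (W.u g) (W.ul g) P
    have h2 : act (W.s g) (W.map_ff g) (W.u g) (W.ul g) P = P := hP g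
    rw [h2] at h1
    exact h1.symm
  have hPM : clT M = P := hr1 P
  have hbr : ∀ g (Q : Pnt l (ff a)), (∃ i, (W.pt g Q).x = a i) ↔ ∃ i, Q.x = a i := by
    intro g Q
    constructor
    · rintro ⟨j, hj⟩
      refine ⟨(W.p g)⁻¹ j, (W.s g).injective ?_⟩
      rw [W.sa]
      have h3 : W.p g ((W.p g)⁻¹ j) = j := (W.p g).apply_symm_apply j
      rw [h3, ← hj]
      rfl
    · rintro ⟨i, hi⟩
      refine ⟨W.p g i, ?_⟩
      rw [W.pt_x, hi, W.sa]
  -- the part without branch points
  have h1 : clT (M.filter fun Q => ¬ ∃ i, Q.x = a i) ∈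
      AddSubgroup.closure {R : JJ l (ff a) | ∃ T, W.Stab T ∧ NB T ∧ clT T = R} := by
    refine AddSubgroup.subset_closure ⟨_, ?_, ?_, rfl⟩
    · intro g
      have e2 : (M.filter fun Q => ¬ ∃ i, Q.x = a i) =
          (M.map (W.pt g)).filter fun Q => ¬ ∃ i, Q.x = a i := by
        rw [hM g]
      conv_rhs => rw [e2, Multiset.filter_map]
      congr 1
      apply Multiset.filter_congr
      intro Q _
      rw [Function.comp_apply]
      exact not_congr (hbr g Q).symm
    · intro t ht i hi
      exact (Multiset.mem_filter.mp ht).2 ⟨i, hi⟩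
  -- the branch points
  have h2 : clT (M.filter fun Q => ∃ i, Q.x = a i) ∈
      AddSubgroup.closure {R : JJ l (ff a) | ∃ T, W.Stab T ∧ NB T ∧ clT T = R} := by
    rw [StabJ_cl]
    have hc : ∀ g i, M.count (br l a (W.p g i)) = M.count (br l a i) := by
      intro g i
      rw [← W.pt_br]
      conv_lhs => rw [← hM g]
      exact Multiset.count_map_eq_count' _ _ (W.pt_inj g) _
    have h3 : ∑ i, M.count (br l a i) • ee l a i =
        ∑ k ∈ Finset.range (Multiset.card M), ∑ i ∈ Finset.univ.filter (fun i => k < M.count (br l a i)),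
          ee l a i := by
      rw [Finset.sum_congr rfl fun i _ => StabJ_smul (ee l a i) (Multiset.count_le_card (br l a i) M),
        Finset.sum_comm]
      refine Finset.sum_congr rfl fun k _ => ?_
      rw [Finset.sum_filter]
    rw [h3]
    refine AddSubgroup.sum_mem _ fun k _ => ?_
    obtain ⟨T, hT1, hT2, hT3⟩ := W.brp (Finset.univ.filter (fun i => k < M.count (br l a i)))
      (fun g i hi => by
        rw [Finset.mem_filter] at hi ⊢
        exact ⟨Finset.mem_univ _, by rw [hc]; exact hi.2⟩)
    rw [hT3]
    exact AddSubgroup.neg_mem _ (AddSubgroup.subset_closure ⟨T, hT1, hT2, rfl⟩)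
  have h3 : P = clT (M.filter fun Q => ∃ i, Q.x = a i) + clT (M.filter fun Q => ¬ ∃ i, Q.x = a i) := by
    rw [← clT_add, Multiset.filter_add_not, hPM]
  rw [h3]
  exact AddSubgroup.add_mem _ h2 h1

end Pool.Agent.SmS
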