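import Pool.Agent.Lib.SmS.IsoT
import Pool.Agent.Lib.SmS.StabJ

/-!
SMITH-S, section 10, the THEOREM: the cup product of the cocycles of two classes of the Jacobian is the coboundary of a locally constant
cochain with values in `F ^ ×`.

`P := lam Q` is fixed by `Γ` (`ac_lam`, `lam_io`). For `P` in the closure of the classes `clT T`, `T` stable and `NB`, we prove by induction: (`ac g P = P` for all `g`)
and for all `Q`, `x` with `lam Q = P`, `ac g Q = Q + io (x g)`: `Spl`. Generators: `spl_T`. Sum `P1 + P2`: `Q1` with `lam Q1 = P1` (`exists_lam`),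
`ac g Q1 - Q1` is in the kernel of `lam` (`ac_lam`), so `= io (x1 g)` (`io_range`); `Q2 = Q - Q1`, `x2 = x - x1`; `Spl.add`. Negative: `-Q`, `-x`. Zero:
`Q = io w` (`io_range`), `x g = pw g w - w` (`io_inj`, `io_pw`), the cup product is `∑ i, w_((p g)⁻¹ i) x'(h)_((p g)⁻¹ i) - ∑ i, w_i (pw g (x' h))_i
= b h - (b (g h) - b g)`, `b g := ∑ i, w_i (x' g)_i` (`x_mul`): `Spl.cob`.
-/

set_option autoImplicit false

open Polynomial

namespace Pool.Agent.SmS

variable {l : ℕ} {F : Type} [Field F] [Fact l.Prime] {n : ℕ} {a : Fin n → F} [SupA l a]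
  [IsSepClosed F] [SmChar l (ff a)] {Γ : Type} [Group Γ]

omit [SmChar l (ff a)] in
private theorem IsoJ_zero (W : Tw l a Γ) {Q Q' : JJ l (ff a)} {x x' : Γ → V0 l n}
    (hQ : lam W.hz.pow_eq_one Q = 0)
    (hx : ∀ g, W.ac g Q = Q + io l a (x g)) (hx' : ∀ g, W.ac g Q' = Q' + io l a (x' g)) :
    W.Spl (fun g h => ∑ i, (x g).1 i * (W.pw g (x' h)).1 i) := by
  obtain ⟨w, rfl⟩ := io_range W.hz hQ
  have h1 : ∀ g, x g = W.pw g w - w := by
    intro g
    apply io_inj (a := a) W.hz
    rw [map_sub, Tw.io_pw, hx g, add_sub_cancel_left]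
  have hb : W.LC (fun g => ∑ i, w.1 i * (x' g).1 i) :=
    Tw.LC.map W (W.lc_x hx') (fun y : V0 l n => ∑ i, w.1 i * y.1 i)
  have h2 := Tw.Spl.cob hb
  have h3 : (fun g h => ∑ i, (x g).1 i * (W.pw g (x' h)).1 i) =
      fun g k => (∑ i, w.1 i * (x' g).1 i) + (∑ i, w.1 i * (x' k).1 i) -
        ∑ i, w.1 i * (x' (g * k)).1 i := by
    funext g k
    have h4 : ∑ i, (W.pw g w).1 i * (W.pw g (x' k)).1 i = ∑ i, w.1 i * (x' k).1 i := by
      exact Fintype.sum_equiv ((W.p g)⁻¹ : Equiv.Perm (Fin n)) _ _ fun i => rfl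
    have h5 : ∑ i, w.1 i * (x' (g * k)).1 i =
        ∑ i, w.1 i * (x' g).1 i + ∑ i, w.1 i * (W.pw g (x' k)).1 i := by
      rw [← Finset.sum_add_distrib]
      refine Finset.sum_congr rfl fun i _ => ?_
      rw [W.x_mul hx' g k]
      change w.1 i * ((x' g).1 i + (W.pw g (x' k)).1 i) = _
      rw [mul_add]
    have h6 : ∑ i, (x g).1 i * (W.pw g (x' k)).1 i =
        ∑ i, (W.pw g w).1 i * (W.pw g (x' k)).1 i - ∑ i, w.1 i * (W.pw g (x' k)).1 i := by
      rw [← Finset.sum_sub_distrib]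
      refine Finset.sum_congr rfl fun i _ => ?_
      rw [h1 g]
      change ((W.pw g w).1 i - w.1 i) * _ = _
      rw [sub_mul]
    rw [h6, h4, h5]
    ring
  rw [h3]
  exact h2

theorem Tw.spl (W : Tw l a Γ) {Q Q' : JJ l (ff a)} {x x' : Γ → V0 l n}
    (hx : ∀ g, W.ac g Q = Q + io l a (x g)) (hx' : ∀ g, W.ac g Q' = Q' + io l a (x' g)) :
    W.Spl (fun g h => ∑ i, (x g).1 i * (W.pw g (x' h)).1 i) := by
  have hfix : ∀ g, W.ac g (lam W.hz.pow_eq_one Q) = lam W.hz.pow_eq_one Q := by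
    intro g
    rw [ac_lam, hx g, map_add, lam_io W.hz, add_zero]
  have key : ∀ P ∈ AddSubgroup.closure
      {R : JJ l (ff a) | ∃ T, W.Stab T ∧ NB T ∧ clT T = R},
      (∀ g, W.ac g P = P) ∧ ∀ (Q : JJ l (ff a)) (x : Γ → V0 l n), lam W.hz.pow_eq_one Q = P →
        (∀ g, W.ac g Q = Q + io l a (x g)) →
        W.Spl (fun g h => ∑ i, (x g).1 i * (W.pw g (x' h)).1 i) := by
    intro P hP
    induction hP using AddSubgroup.closure_induction with
    | mem R hR =>
      obtain ⟨T, hT, hb, rfl⟩ := hR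
      exact ⟨W.stab_clT hT, fun Q x hQ hx => W.spl_T hT hb hQ hx hx'⟩
    | zero => exact ⟨fun g => map_zero _, fun Q x hQ hx => IsoJ_zero W hQ hx hx'⟩
    | add P1 P2 _ _ h1 h2 =>
      refine ⟨fun g => by rw [map_add, h1.1, h2.1], fun Q x hQ hx => ?_⟩
      obtain ⟨Q1, hQ1⟩ := exists_lam W.hz P1
      have h3 : ∀ g, ∃ y : V0 l n, io l a y = W.ac g Q1 - Q1 := by
        intro g
        apply io_range W.hz
        rw [map_sub, ← ac_lam, hQ1, h1.1, sub_self]
      choose x1 hx1 using h3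
      have h4 := h1.2 Q1 x1 hQ1 fun g => by rw [hx1 g, add_sub_cancel]
      have h5 := h2.2 (Q - Q1) (fun g => x g - x1 g) (by rw [map_sub, hQ, hQ1, add_sub_cancel_left])
        fun g => by
          rw [map_sub, map_sub, hx g, hx1 g]
          abel
      have h6 := Tw.Spl.add h4 h5
      have h7 : (fun g h => ∑ i, (x g).1 i * (W.pw g (x' h)).1 i) =
          fun g h => ∑ i, (x1 g).1 i * (W.pw g (x' h)).1 i +
            ∑ i, (x g - x1 g).1 i * (W.pw g (x' h)).1 i := by
        funext g h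
        rw [← Finset.sum_add_distrib]
        refine Finset.sum_congr rfl fun i _ => ?_
        change _ = _ + ((x g).1 i - (x1 g).1 i) * _
        ring
      rw [h7]
      exact h6
    | neg P _ h1 =>
      refine ⟨fun g => by rw [map_neg, h1.1], fun Q x hQ hx => ?_⟩
      have h4 := h1.2 (-Q) (fun g => -x g) (by rw [map_neg, hQ, neg_neg])
        fun g => by
          rw [map_neg, map_neg, hx g]
          abel
      have h5 := Tw.Spl.neg h4
      have h7 : (fun g h => ∑ i, (x g).1 i * (W.pw g (x' h)).1 i) =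
          fun g h => -∑ i, (-x g).1 i * (W.pw g (x' h)).1 i := by
        funext g h
        rw [← Finset.sum_neg_distrib]
        refine Finset.sum_congr rfl fun i _ => ?_
        change _ = -(-(x g).1 i * _)
        ring
      rw [h7]
      exact h5
  exact (key _ (W.fixed_mem hfix)).2 Q x rfl hx

end Pool.Agent.SmS
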