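import Pool.Agent.Lib.SmS.KumG
import Pool.Agent.Lib.SmS.Eps

/-!
SMITH-S, section 10: isotropy for `lam Q = clT T`, `T` stable without branch points.

`ρ`, `c`, `κ` from `kum`, `ε` from `exists_eps`. `U i := ∏ t ∈ T, (t.x - a i)`. `M g` with `∑ i, vl (x' g) i = l * M g` (`sum_vl`; take
`M g := (∑ i, vl (x' g) i) / l`, so that it is a function of `x' g`). `E g := (∏ i, ρ i ^ vl (x' g) i) * c⁻¹ ^ M g * ε g`; it is `LC` (`x'` is
by `lc_x`, `ε` is; `LC.map₂`).
(a) `s g (U i) = U (p g i)` as `T` is stable (`T = T.map (pt g)`, `pt_x`, `sa`).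
(b) `κ g ^ l = s g c / c`: raise the relation for `s g (ρ i)` to the power `l`, `z ^ l = 1`, use `ρ i ^ l = c * U i`, (a), `U i ≠ 0`; any `i`
(`n ≥ 2`).
(c) `s g (∏ i, ρ i ^ vl (x' h) i) = κ g ^ (l * M h) * z ^ (∑ j, vl (x g) j * vl (pw g (x' h)) j) * ∏ j, ρ j ^ vl (pw g (x' h)) j`
(reindex by `j = p g i`: `vl (pw g w) (p g i) = vl w i`).
(d) `∏ i, ρ i ^ (vl (x' g) i + vl (pw g (x' h)) i) = ∏ i, ρ i ^ vl (x' (g h)) i * ∏ i, (c * U i) ^ cy i` (`vl_add`, `x_mul`), and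
`∏ t ∈ T, ∏ i, (t.x - a i) ^ cy i = ∏ i, U i ^ cy i` (`Multiset.prod_map_prod`, `Multiset.prod_map_pow`).
(e) `M g + M h = M (g h) + ∑ i, cy i` (sum `vl_add` over `i`, `∑ i, vl (pw g w) i = ∑ i, vl w i`, divide by `l`).
(f) `z ^ (c g h).val = z ^ (∑ j, vl (x g) j * vl (pw g (x' h)) j)` as the exponents are congruent mod `l` (`ZMod.natCast_self_eq_zero`,
`ZMod.natCast_zmod_val`, `pow_eq_pow_iff_modEq` or `z ^ l = 1` and `Nat.mod_add_div`).
Then `z ^ (c g h).val * E (g h) = E g * s g (E h)`.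
-/

set_option autoImplicit false

open Polynomial

namespace Pool.Agent.SmS

variable {l : ℕ} {F : Type} [Field F] [Fact l.Prime] {n : ℕ} {a : Fin n → F} [SupA l a]
  [IsSepClosed F] {Γ : Type} [Group Γ]

omit [Fact l.Prime] [SupA l a] [IsSepClosed F] in
private theorem IsoT_ne {T : Multiset (Pnt l (ff a))} (hb : NB T) (i : Fin n) :
    (T.map fun t => t.x - a i).prod ≠ 0 := by
  rw [Ne, Multiset.prod_eq_zero_iff, Multiset.mem_map]
  rintro ⟨t, ht, h⟩
  exact hb t ht i (sub_eq_zero.mp h)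

omit [Fact l.Prime] [SupA l a] [IsSepClosed F] in
/-- `s g (U i) = U (p g i)`. -/
private theorem IsoT_U (W : Tw l a Γ) {T : Multiset (Pnt l (ff a))} (hT : W.Stab T) (g : Γ)
    (i : Fin n) : W.s g (T.map fun t => t.x - a i).prod = (T.map fun t => t.x - a (W.p g i)).prod := by
  rw [map_multiset_prod, Multiset.map_map]
  conv_rhs => rw [← hT g, Multiset.map_map]
  congr 1
  refine Multiset.map_congr rfl fun t _ => ?_
  change W.s g (t.x - a i) = W.s g t.x - a (W.p g i)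
  rw [map_sub, W.sa]

omit [Fact l.Prime] [SupA l a] [IsSepClosed F] in
private theorem IsoT_prod (T : Multiset (Pnt l (ff a))) (e : Fin n → ℕ) :
    (T.map fun t => ∏ i, (t.x - a i) ^ e i).prod = ∏ i, (T.map fun t => t.x - a i).prod ^ e i := by
  rw [Multiset.prod_map_prod]
  refine Finset.prod_congr rfl fun i _ => ?_
  rw [Multiset.prod_map_pow]

omit [SupA l a] [IsSepClosed F] in
private theorem IsoT_vl_pw (W : Tw l a Γ) (g : Γ) (w : V0 l n) (i : Fin n) :
    vl (W.pw g w) (W.p g i) = vl w i := by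
  change ((W.pw g w).1 (W.p g i)).val = (w.1 i).val
  rw [W.pw_apply]
  have h : (W.p g)⁻¹ (W.p g i) = i := (W.p g).symm_apply_apply i
  rw [h]

omit [SupA l a] [IsSepClosed F] in
private theorem IsoT_sum_pw (W : Tw l a Γ) (g : Γ) (w : V0 l n) :
    ∑ i, vl (W.pw g w) i = ∑ i, vl w i := by
  refine (Fintype.sum_equiv (W.p g) _ _ fun i => ?_).symm
  rw [IsoT_vl_pw]

theorem Tw.spl_T (W : Tw l a Γ) {T : Multiset (Pnt l (ff a))} (hT : W.Stab T) (hb : NB T)
    {Q Q' : JJ l (ff a)} (hQ : lam W.hz.pow_eq_one Q = clT T) {x x' : Γ → V0 l n}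
    (hx : ∀ g, W.ac g Q = Q + io l a (x g)) (hx' : ∀ g, W.ac g Q' = Q' + io l a (x' g)) :
    W.Spl (fun g h => ∑ i, (x g).1 i * (W.pw g (x' h)).1 i) := by
  have hl : l.Prime := Fact.out
  obtain ⟨ρ, c, κ, hρ, hc, hκ, hρl, hρg⟩ := kum W hT hb hQ hx
  obtain ⟨ε, hε, hεL, hεm⟩ := exists_eps W hT hb hx'
  have hz : W.z ≠ 0 := W.hz.ne_zero hl.ne_zero
  -- `κ g ^ l * c = s g c`
  have hκl : ∀ g, κ g ^ l * c = W.s g c := by
    intro g
    have hn : 0 < n := by have := SupA.two_le (l := l) (a := a); omega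
    set i : Fin n := ⟨0, hn⟩
    have h1 : W.s g (ρ i) ^ l = (κ g * W.z ^ vl (x g) (W.p g i) * ρ (W.p g i)) ^ l := by
      rw [hρg g i]
    rw [← map_pow, hρl i, map_mul, IsoT_U W hT, mul_pow, mul_pow, hρl, ← pow_mul, mul_comm _ l,
      pow_mul, W.hz.pow_eq_one, one_pow, mul_one] at h1
    have h2 := IsoT_ne hb (W.p g i)
    apply mul_right_cancel₀ h2
    rw [h1]
    ring
  -- the integers `M`
  have hM : ∀ w : V0 l n, ∑ i, vl w i = l * ((∑ i, vl w i) / l) := by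
    intro w
    obtain ⟨m, hm⟩ := sum_vl w
    rw [hm, Nat.mul_div_cancel_left _ hl.pos]
  set M : V0 l n → ℕ := fun w => (∑ i, vl w i) / l with hMdef
  have hM' : ∀ w : V0 l n, ∑ i, vl w i = l * M w := hM
  have hMp : ∀ g w, M (W.pw g w) = M w := by
    intro g w
    change (∑ i, vl (W.pw g w) i) / l = (∑ i, vl w i) / l
    rw [IsoT_sum_pw]
  set G : V0 l n → F := fun w => (∏ i, ρ i ^ vl w i) * c⁻¹ ^ M w with hG
  refine ⟨fun g => G (x' g) * ε g, ?_, ?_, ?_⟩
  · intro g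
    refine mul_ne_zero (mul_ne_zero ?_ (pow_ne_zero _ (inv_ne_zero hc))) (hε g)
    exact Finset.prod_ne_zero_iff.mpr fun i _ => pow_ne_zero _ (hρ i)
  · exact Tw.LC.map₂ W (Tw.LC.map W (W.lc_x hx') G) hεL fun y z => y * z
  · intro g h
    -- `s g (G w)`
    have e1 : W.s g (G (x' h)) = W.z ^ (∑ j, vl (x g) j * vl (W.pw g (x' h)) j) *
        G (W.pw g (x' h)) := by
      have e2 : W.s g (∏ i, ρ i ^ vl (x' h) i) =
          ∏ j, (κ g * W.z ^ vl (x g) j * ρ j) ^ vl (W.pw g (x' h)) j := by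
        rw [map_prod]
        refine Fintype.prod_equiv (W.p g) _ _ fun i => ?_
        rw [map_pow, hρg, IsoT_vl_pw]
      have e3 : ∏ j, (κ g * W.z ^ vl (x g) j * ρ j) ^ vl (W.pw g (x' h)) j =
          κ g ^ (l * M (x' h)) * W.z ^ (∑ j, vl (x g) j * vl (W.pw g (x' h)) j) *
            ∏ j, ρ j ^ vl (W.pw g (x' h)) j := by
        rw [← hMp g, ← hM', ← Finset.prod_pow_eq_pow_sum, ← Finset.prod_pow_eq_pow_sum,
          ← Finset.prod_mul_distrib, ← Finset.prod_mul_distrib]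
        refine Finset.prod_congr rfl fun j _ => ?_
        rw [mul_pow, mul_pow, pow_mul]
      rw [hG]
      simp only
      rw [map_mul, e2, e3, map_pow, map_inv₀, hMp, ← hκl g, pow_mul, mul_inv, mul_pow]
      have h5 : (κ g ^ l) ^ M (x' h) ≠ 0 := pow_ne_zero _ (pow_ne_zero _ (hκ g))
      rw [inv_pow]
      field_simp
    -- the product
    have e4 : G (x' g) * G (W.pw g (x' h)) =
        G (x' (g * h)) * ∏ i, (T.map fun t => t.x - a i).prod ^
          cy ((x' g).1 i) ((W.pw g (x' h)).1 i) := by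
      have e5 := vl_add (x' g) (W.pw g (x' h))
      rw [← W.x_mul hx' g h] at e5
      set cc : Fin n → ℕ := fun i => cy ((x' g).1 i) ((W.pw g (x' h)).1 i) with hcc
      have e6 : ∀ i, vl (x' g) i + vl (W.pw g (x' h)) i = vl (x' (g * h)) i + l * cc i :=
        fun i => congrFun e5 i
      have e7 : M (x' g) + M (W.pw g (x' h)) = M (x' (g * h)) + ∑ i, cc i := by
        apply Nat.eq_of_mul_eq_mul_left hl.pos
        rw [mul_add, mul_add, ← hM', ← hM', ← hM', Finset.mul_sum, ← Finset.sum_add_distrib,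
          ← Finset.sum_add_distrib]
        exact Finset.sum_congr rfl fun i _ => e6 i
      have e8 : (∏ i, ρ i ^ vl (x' g) i) * ∏ i, ρ i ^ vl (W.pw g (x' h)) i =
          (∏ i, ρ i ^ vl (x' (g * h)) i) * (c ^ (∑ i, cc i) *
            ∏ i, (T.map fun t => t.x - a i).prod ^ cc i) := by
        rw [← Finset.prod_pow_eq_pow_sum, ← Finset.prod_mul_distrib, ← Finset.prod_mul_distrib,
          ← Finset.prod_mul_distrib]
        refine Finset.prod_congr rfl fun i _ => ?_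
        rw [← pow_add, e6, pow_add, pow_mul, hρl, mul_pow]
      have e9 : c⁻¹ ^ M (x' g) * c⁻¹ ^ M (W.pw g (x' h)) =
          c⁻¹ ^ M (x' (g * h)) * c⁻¹ ^ (∑ i, cc i) := by
        rw [← pow_add, e7, pow_add]
      have e10 : c ^ (∑ i, cc i) * c⁻¹ ^ (∑ i, cc i) = 1 := by
        rw [← mul_pow, mul_inv_cancel₀ hc, one_pow]
      rw [hG]
      simp only
      calc (∏ i, ρ i ^ vl (x' g) i) * c⁻¹ ^ M (x' g) *
            ((∏ i, ρ i ^ vl (W.pw g (x' h)) i) * c⁻¹ ^ M (W.pw g (x' h)))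
          = ((∏ i, ρ i ^ vl (x' g) i) * ∏ i, ρ i ^ vl (W.pw g (x' h)) i) *
            (c⁻¹ ^ M (x' g) * c⁻¹ ^ M (W.pw g (x' h))) := by ring
        _ = _ := by
          rw [e8, e9]
          linear_combination ((∏ i, ρ i ^ vl (x' (g * h)) i) * c⁻¹ ^ M (x' (g * h)) *
            ∏ i, (T.map fun t => t.x - a i).prod ^ cc i) * e10
    -- the root of unity
    have e11 : W.z ^ (∑ i, (x g).1 i * (W.pw g (x' h)).1 i).val =
        W.z ^ (∑ j, vl (x g) j * vl (W.pw g (x' h)) j) := by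
      have h6 : (∑ i, (x g).1 i * (W.pw g (x' h)).1 i) =
          ((∑ j, vl (x g) j * vl (W.pw g (x' h)) j : ℕ) : ZMod l) := by
        push_cast
        refine Finset.sum_congr rfl fun i _ => ?_
        rw [vl, vl, ZMod.natCast_zmod_val, ZMod.natCast_zmod_val]
      rw [h6, ZMod.val_natCast]
      conv_rhs => rw [← Nat.mod_add_div (∑ j, vl (x g) j * vl (W.pw g (x' h)) j) l, pow_add,
        pow_mul, W.hz.pow_eq_one, one_pow, mul_one]
    simp only
    rw [e11, map_mul, e1, hεm g h, IsoT_prod]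
    linear_combination (-(W.z ^ (∑ j, vl (x g) j * vl (W.pw g (x' h)) j) * ε g * W.s g (ε h))) * e4

end Pool.Agent.SmS
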