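import Pool.Agent.Lib.SmS.Min

/-!
SMITH-S, section 5 of the paper.
-/

set_option autoImplicit false

open Polynomial

namespace Pool.Agent.SmS

variable {l : ℕ} {F : Type} [Field F] {f : F[X]} [Fact l.Prime]

omit [Fact l.Prime] in
theorem zpow_pow {ζ : F} (hz : ζ ^ l = 1) (k : ℕ) : (ζ ^ k) ^ l = 1 := by
  rw [← pow_mul, mul_comm, pow_mul, hz, one_pow]

/-- The point `(x, u y)`. -/
abbrev Pnt.rot (u : F) (hu : u ^ l = 1) (P : Pnt l f) : Pnt l f :=
  P.map (RingEquiv.refl F) (map_refl f) u hu

private theorem nsum_C_ne (c : F) : (X - C c : F[X]) ≠ 0 := X_sub_C_ne_zero c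

theorem Pnt.idl_eq_span (P : Pnt l f) :
    P.idl = Ideal.span {po l f (X - C P.x), yy l f - po l f (C P.y)} := by
  set I : Ideal (Co l f) := Ideal.span {po l f (X - C P.x), yy l f - po l f (C P.y)} with hI
  have ha : po l f (X - C P.x) ∈ I := Ideal.subset_span (Set.mem_insert _ _)
  have hb : yy l f - po l f (C P.y) ∈ I :=
    Ideal.subset_span (Set.mem_insert_of_mem _ (Set.mem_singleton _))
  apply le_antisymm
  · intro h hh
    rw [Pnt.mem_idl] at hh
    have e : (Ideal.Quotient.mk I : Co l f →+* Co l f ⧸ I) =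
        (((Ideal.Quotient.mk I).comp (po l f)).comp C).comp P.ev := by
      apply hom_ext
      · intro p
        simp only [RingHom.comp_apply, Pnt.ev_po]
        rw [Ideal.Quotient.eq, ← map_sub]
        obtain ⟨q, hq⟩ := X_sub_C_dvd_sub_C_eval (p := p) (a := P.x)
        rw [hq, map_mul]
        exact I.mul_mem_right _ ha
      · simp only [RingHom.comp_apply, Pnt.ev_yy]
        rw [Ideal.Quotient.eq]
        exact hb
    have h1 := RingHom.congr_fun e h
    simp only [RingHom.comp_apply, hh, map_zero] at h1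
    exact Ideal.Quotient.eq_zero_iff_mem.mp h1
  · rw [hI, Ideal.span_le]
    rintro z hz
    rw [Set.mem_insert_iff, Set.mem_singleton_iff] at hz
    rcases hz with rfl | rfl
    · rw [SetLike.mem_coe, Pnt.mem_idl, Pnt.ev_po]
      simp
    · rw [SetLike.mem_coe, Pnt.mem_idl, map_sub, Pnt.ev_po, Pnt.ev_yy]
      simp

private theorem nsum_prod_le {R : Type*} [CommRing R] (a : R) (b : ℕ → R) (n : ℕ) :
    ∏ k ∈ Finset.range n, Ideal.span {a, b k} ≤
      Ideal.span {a, ∏ k ∈ Finset.range n, b k} := by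
  induction n with
  | zero =>
    rw [Finset.prod_range_zero, Finset.prod_range_zero, Ideal.one_eq_top]
    intro z _
    have h1 : (1 : R) ∈ Ideal.span {a, 1} :=
      Ideal.subset_span (Set.mem_insert_of_mem _ (Set.mem_singleton _))
    rw [(Ideal.eq_top_iff_one _).mpr h1]
    trivial
  | succ n ih =>
    rw [Finset.prod_range_succ, Finset.prod_range_succ]
    refine le_trans (Ideal.mul_mono_left ih) ?_
    rw [Ideal.span_mul_span', Ideal.span_le]
    have ha : a ∈ Ideal.span {a, (∏ k ∈ Finset.range n, b k) * b n} :=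
      Ideal.subset_span (Set.mem_insert _ _)
    have hb : (∏ k ∈ Finset.range n, b k) * b n ∈
        Ideal.span {a, (∏ k ∈ Finset.range n, b k) * b n} :=
      Ideal.subset_span (Set.mem_insert_of_mem _ (Set.mem_singleton _))
    rintro z ⟨u, hu, v, hv, rfl⟩
    rw [Set.mem_insert_iff, Set.mem_singleton_iff] at hu hv
    rcases hu with rfl | rfl
    · exact Ideal.mul_mem_right _ _ ha
    · rcases hv with rfl | rfl
      · exact Ideal.mul_mem_left _ _ ha
      · exact hb

private theorem nsum_prod_yy {ζ : F} (hz : IsPrimitiveRoot ζ l) (P : Pnt l f) :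
    ∏ k ∈ Finset.range l, (yy l f - po l f (C (ζ ^ k * P.y))) =
      po l f f - po l f (C (f.eval P.x)) := by
  have h1 := X_pow_sub_C_eq_prod hz (Fact.out : l.Prime).pos P.on
  have h2 := congrArg (eval₂ ((po l f).comp C) (yy l f)) h1
  rw [eval₂_sub, eval₂_X_pow, eval₂_C, eval₂_finsetProd] at h2
  rw [← yy_pow]
  rw [show (po l f) (C (f.eval P.x)) = ((po l f).comp C) (f.eval P.x) from rfl, h2]
  refine Finset.prod_congr rfl fun k _ => ?_
  rw [eval₂_sub, eval₂_X, eval₂_C]
  rfl

private theorem nsum_le {ζ : F} (hz : IsPrimitiveRoot ζ l) (P : Pnt l f) :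
    ∏ k ∈ Finset.range l, (P.rot (ζ ^ k) (zpow_pow hz.pow_eq_one k)).idl ≤
      Ideal.span {po l f (X - C P.x)} := by
  have e : ∀ k ∈ Finset.range l, (P.rot (ζ ^ k) (zpow_pow hz.pow_eq_one k)).idl =
      Ideal.span {po l f (X - C P.x), yy l f - po l f (C (ζ ^ k * P.y))} := by
    intro k _
    exact Pnt.idl_eq_span _
  rw [Finset.prod_congr rfl e]
  refine le_trans (nsum_prod_le _ _ _) ?_
  rw [nsum_prod_yy hz P, Ideal.span_le]
  intro z hz'
  rw [Set.mem_insert_iff, Set.mem_singleton_iff] at hz'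
  rcases hz' with rfl | rfl
  · exact Ideal.mem_span_singleton_self _
  · rw [SetLike.mem_coe, Ideal.mem_span_singleton, ← map_sub]
    exact map_dvd _ X_sub_C_dvd_sub_C_eval

theorem prod_rot [Sup l f] {ζ : F} (hz : IsPrimitiveRoot ζ l) (P : Pnt l f) :
    ∏ k ∈ Finset.range l, (P.rot (ζ ^ k) (zpow_pow hz.pow_eq_one k)).idl =
      Ideal.span {po l f (X - C P.x)} := by
  have hl : l.Prime := Fact.out
  apply le_antisymm (nsum_le hz P)
  rw [Ideal.span_singleton_le_iff_mem]
  by_cases hy : P.y = 0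
  · -- branch point
    have e : ∀ k ∈ Finset.range l, (P.rot (ζ ^ k) (zpow_pow hz.pow_eq_one k)).idl = P.idl := by
      intro k _
      congr 1
      ext
      · rfl
      · change ζ ^ k * P.y = P.y
        rw [hy, mul_zero]
    rw [Finset.prod_congr rfl e, Finset.prod_const, Finset.card_range]
    have hfx : f.eval P.x = 0 := by
      rw [← P.on, hy, zero_pow hl.ne_zero]
    obtain ⟨g, hg⟩ := dvd_iff_isRoot.mpr hfx
    have hgx : g.eval P.x ≠ 0 := by
      intro h0
      obtain ⟨q, hq⟩ := dvd_iff_isRoot.mpr h0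
      have hsep := (inferInstance : Sup l f).sep
      have h3 : f = (X - C P.x) * (X - C P.x) * q := by
        refine hg.trans ?_
        rw [hq, mul_assoc]
      have h2 := hsep.squarefree (X - C P.x) ⟨q, h3⟩
      exact not_isUnit_X_sub_C P.x h2
    have hcop : IsCoprime ((X - C P.x) ^ (l - 1)) g := by
      apply IsCoprime.pow_left
      refine ((irreducible_X_sub_C P.x).coprime_iff_not_dvd).mpr ?_
      intro hd
      exact hgx (dvd_iff_isRoot.mp hd)
    obtain ⟨u, v, huv⟩ := hcop
    have ha : po l f (X - C P.x) ∈ P.idl := by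
      rw [Pnt.mem_idl, Pnt.ev_po]
      simp
    have hb : yy l f ∈ P.idl := by
      rw [Pnt.mem_idl, Pnt.ev_yy, hy]
    have ha' := Ideal.pow_mem_pow ha l
    have hb' := Ideal.pow_mem_pow hb l
    have e2 : po l f (X - C P.x) =
        po l f u * po l f (X - C P.x) ^ l + po l f v * yy l f ^ l := by
      rw [yy_pow, ← map_pow, ← map_mul, ← map_mul, ← map_add]
      congr 1
      have e3 : (X - C P.x : F[X]) ^ l = (X - C P.x) ^ (l - 1) * (X - C P.x) := by
        rw [← pow_succ, Nat.sub_add_cancel hl.one_le]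
      rw [e3]
      calc (X - C P.x : F[X]) = (u * (X - C P.x) ^ (l - 1) + v * g) * (X - C P.x) := by
            rw [huv, one_mul]
        _ = u * ((X - C P.x) ^ (l - 1) * (X - C P.x)) + v * ((X - C P.x) * g) := by ring
        _ = _ := by rw [← hg]
    rw [e2]
    exact Ideal.add_mem _ (Ideal.mul_mem_left _ _ ha') (Ideal.mul_mem_left _ _ hb')
  · -- the general case
    rw [Ideal.prod_eq_iInf_of_pairwise_isCoprime]
    · simp only [Ideal.mem_iInf]
      intro k _
      rw [Pnt.mem_idl, Pnt.ev_po]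
      change (X - C P.x : F[X]).eval P.x = 0
      simp
    · intro i hi j hj hij
      change IsCoprime _ _
      apply Ideal.isCoprime_of_isMaximal
      intro h0
      apply hij
      have h1 : yy l f - po l f (C (ζ ^ j * P.y)) ∈
          (P.rot (ζ ^ j) (zpow_pow hz.pow_eq_one j)).idl := by
        rw [Pnt.mem_idl, map_sub, Pnt.ev_po, Pnt.ev_yy]
        change ζ ^ j * P.y - (C (ζ ^ j * P.y) : F[X]).eval _ = 0
        rw [eval_C, sub_self]
      have h0' : (P.rot (ζ ^ i) (zpow_pow hz.pow_eq_one i)).idl =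
          (P.rot (ζ ^ j) (zpow_pow hz.pow_eq_one j)).idl := h0
      rw [← h0', Pnt.mem_idl, map_sub, Pnt.ev_po, Pnt.ev_yy, eval_C] at h1
      change ζ ^ i * P.y - ζ ^ j * P.y = 0 at h1
      have h2 : ζ ^ i = ζ ^ j := mul_right_cancel₀ hy (sub_eq_zero.mp h1)
      exact hz.pow_inj (Finset.mem_range.mp hi) (Finset.mem_range.mp hj) h2

private theorem nsum_po_ne [Sup l f] (c : F) : po l f (X - C c) ≠ 0 := by
  intro h0
  have h1 : cf (po l f (X - C c) * (yy l f) ^ 0) 0 = X - C c := by
    have h2 := cf_sum (l := l) (f := f) (fun i => if i = 0 then X - C c else 0)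
      (Fact.out : l.Prime).pos
    rw [← Finset.sum_subset (s₁ := {0}) (by
      intro i hi
      rw [Finset.mem_singleton] at hi
      rw [hi, Finset.mem_range]
      exact (Fact.out : l.Prime).pos) (by
      intro i _ hi
      rw [Finset.mem_singleton] at hi
      rw [if_neg hi, map_zero, zero_mul])] at h2
    rw [Finset.sum_singleton, if_pos rfl] at h2
    exact h2
  rw [h0, zero_mul, cf_zero] at h1
  exact X_sub_C_ne_zero c h1.symm

/-- `1 + σ + ... + σ ^ (l - 1) = 0` on the Jacobian. -/
theorem sum_zact [Sup l f] [IsSepClosed F] [SmChar l f] {ζ : F} (hz : IsPrimitiveRoot ζ l)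
    (Q : JJ l f) : ∑ k ∈ Finset.range l, zact (zpow_pow hz.pow_eq_one k) Q = 0 := by
  induction Q using jac_induction with
  | h0 => simp
  | h1 P =>
    have e : ∀ k ∈ Finset.range l, zact (zpow_pow hz.pow_eq_one k) P.cl =
        SmJ.cls (P.rot (ζ ^ k) (zpow_pow hz.pow_eq_one k)).idl := by
      intro k _
      exact act_cl _ _ _ _ P
    rw [Finset.sum_congr rfl e, ← SmJ.cls_prod, prod_rot hz P, SmJ.cls_span]
    intro k _ h0
    have h1 : po l f (X - C P.x) ∈ (P.rot (ζ ^ k) (zpow_pow hz.pow_eq_one k)).idl := by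
      rw [Pnt.mem_idl, Pnt.ev_po]
      change (X - C P.x : F[X]).eval P.x = 0
      simp
    rw [h0, Ideal.mem_bot] at h1
    exact nsum_po_ne P.x h1
  | h2 x y hx hy =>
    simp only [map_add, Finset.sum_add_distrib]
    rw [hx, hy, add_zero]

private theorem nsum_act_congr [Sup l f] [IsSepClosed F] {s t : F ≃+* F} (e : s = t)
    (hs : f.map (s : F →+* F) = f) (ht : f.map (t : F →+* F) = f) {u v : F} (e' : u = v)
    (hu : u ^ l = 1) (hv : v ^ l = 1) (Q : JJ l f) : act s hs u hu Q = act t ht v hv Q := by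
  subst e
  subst e'
  rfl

private theorem nsum_act_one [Sup l f] [IsSepClosed F] (h1 : (1 : F) ^ l = 1) (Q : JJ l f) :
    zact h1 Q = Q := by
  have e : (sig h1 : Co l f ≃+* Co l f) = RingEquiv.refl _ := by
    apply RingEquiv.ext
    intro h
    have e2 : ((sig h1 : Co l f ≃+* Co l f) : Co l f →+* Co l f) = RingHom.id _ := by
      apply hom_ext
      · intro p
        change sig h1 (po l f p) = po l f p
        rw [coMap_po]
        congr 1
        exact Polynomial.map_id
      · change sig h1 (yy l f) = yy l f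
        rw [coMap_yy, inv_one, map_one, map_one, one_mul]
    exact RingHom.congr_fun e2 h
  obtain ⟨I, _, rfl⟩ := SmJ.exists_cls Q
  rw [act_cls]
  congr 1
  have e3 : ((sig h1 : Co l f ≃+* Co l f) : Co l f →+* Co l f) = RingHom.id _ := by
    rw [e]
    rfl
  rw [e3, Ideal.map_id]

/-- `σ ^ k`. -/
theorem zact_pow [Sup l f] [IsSepClosed F] {ζ : F} (hz : ζ ^ l = 1) (k : ℕ) (Q : JJ l f) :
    (zact hz)^[k] Q = zact (zpow_pow hz k) Q := by
  induction k with
  | zero =>
    rw [Function.iterate_zero, id_eq]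
    exact ((nsum_act_congr rfl _ (map_refl f) (pow_zero ζ) _ (one_pow l) Q).trans
      (nsum_act_one (one_pow l) Q)).symm
  | succ k ih =>
    rw [Function.iterate_succ_apply', ih]
    change act _ _ _ _ (act _ _ _ _ Q) = _
    rw [act_act]
    exact nsum_act_congr rfl _ _ (pow_succ' ζ k).symm _ _ Q

end Pool.Agent.SmS
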