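import Pool.Agent.Lib.SmS.Gv
import Pool.Agent.Lib.SmS.Nsum

/-!
SMITH-S, (8.1) of the paper: the subgroup `J1`.
-/

set_option autoImplicit false

open Polynomial

namespace Pool.Agent.SmS

variable {l : ℕ} {Om : Type} [Field Om] [Fact l.Prime] {w : ValuationSubring Om} {F : Om[X]}

section defs

variable [Mc l F] (v : Valuation (Fr l F) w.ValueGroup)

/-- There is `h ∈ I I'⁻¹` with `v (h - 1) < 1`. -/
def Mv (I I' : Ideal (Co l F)) : Prop :=
  ∃ h : Fr l F, v (h - 1) < 1 ∧ ∀ x ∈ I', ∃ y ∈ I, h * toFr x = toFr y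

variable {v}

omit [Fact l.Prime] [Mc l F] in
theorem Mv.one (I : Ideal (Co l F)) : Mv v I I := by
  refine ⟨1, ?_, fun x hx => ⟨x, hx, one_mul _⟩⟩
  rw [sub_self, map_zero]
  exact zero_lt_one

theorem Mv.mul {I I' J J' : Ideal (Co l F)} (h : Mv v I I') (h' : Mv v J J') :
    Mv v (I * J) (I' * J') := by
  obtain ⟨a, ha, ha'⟩ := h
  obtain ⟨b, hb, hb'⟩ := h'
  refine ⟨a * b, ?_, ?_⟩
  · have e : a * b - 1 = (a - 1) * (b - 1) + ((a - 1) + (b - 1)) := by ring
    rw [e]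
    refine v.map_add_lt ?_ (v.map_add_lt ha hb)
    rw [map_mul]
    exact mul_lt_one_of_nonneg_of_lt_one_left zero_le ha hb.le
  · intro x hx
    refine Submodule.mul_induction_on hx ?_ ?_
    · intro m hm n hn
      obtain ⟨y, hy, ey⟩ := ha' m hm
      obtain ⟨z, hz, ez⟩ := hb' n hn
      refine ⟨y * z, Ideal.mul_mem_mul hy hz, ?_⟩
      have e1 : toFr (m * n) = toFr m * toFr n := map_mul (algebraMap (Co l F) (Fr l F)) m n
      have e2 : toFr (y * z) = toFr y * toFr z := map_mul (algebraMap (Co l F) (Fr l F)) y z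
      rw [e1, e2, ← ey, ← ez]
      ring
    · rintro m n ⟨y, hy, ey⟩ ⟨z, hz, ez⟩
      refine ⟨y + z, (I * J).add_mem hy hz, ?_⟩
      have e1 : toFr (m + n) = toFr m + toFr n := map_add (algebraMap (Co l F) (Fr l F)) m n
      have e2 : toFr (y + z) = toFr y + toFr z := map_add (algebraMap (Co l F) (Fr l F)) y z
      rw [e1, e2, ← ey, ← ez, mul_add]

/-- The subgroup `J1`. -/
noncomputable def J1 [IsDedekindDomain (Co l F)] (v : Valuation (Fr l F) w.ValueGroup) :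
    AddSubgroup (JJ l F) where
  carrier := {c | ∃ I I' : Ideal (Co l F), I ≠ ⊥ ∧ I' ≠ ⊥ ∧ Mv v I I' ∧ Mv v I' I ∧
    c = SmJ.cls I - SmJ.cls I'}
  zero_mem' := ⟨⊤, ⊤, by simp, by simp, Mv.one _, Mv.one _, by rw [sub_self]⟩
  add_mem' := by
    rintro c c' ⟨I, I', h1, h2, h3, h4, rfl⟩ ⟨J, J', g1, g2, g3, g4, rfl⟩
    refine ⟨I * J, I' * J', mul_ne_zero h1 g1, mul_ne_zero h2 g2, h3.mul g3, h4.mul g4, ?_⟩
    rw [SmJ.cls_mul h1 g1, SmJ.cls_mul h2 g2]
    abel
  neg_mem' := by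
    rintro c ⟨I, I', h1, h2, h3, h4, rfl⟩
    exact ⟨I', I, h2, h1, h4, h3, by rw [neg_sub]⟩

end defs

variable [Sup l F] [IsSepClosed Om] {v : Valuation (Fr l F) w.ValueGroup}

private theorem j1_mv_map (hv : IsGv w v) {ζ : Om} (hz : ζ ^ l = 1) {I I' : Ideal (Co l F)}
    (h : Mv v I I') :
    Mv v (I.map (sig (l := l) (f := F) hz : Co l F →+* Co l F))
      (I'.map (sig (l := l) (f := F) hz : Co l F →+* Co l F)) := by
  obtain ⟨a, ha, ha'⟩ := h
  refine ⟨sfr hz a, ?_, ?_⟩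
  · have e : sfr hz a - 1 = sfr hz (a - 1) := by rw [map_sub, map_one]
    rw [e, val_sfr hv hz]
    exact ha
  · intro x hx
    rw [Ideal.mem_map_iff_of_surjective (sig (l := l) (f := F) hz : Co l F →+* Co l F)
      (sig (l := l) (f := F) hz).surjective] at hx
    obtain ⟨x0, hx0, rfl⟩ := hx
    obtain ⟨y, hy, ey⟩ := ha' x0 hx0
    refine ⟨sig (l := l) (f := F) hz y, Ideal.mem_map_of_mem _ hy, ?_⟩
    have e2 := congrArg (sfr (l := l) (F := F) hz) ey
    rw [map_mul] at e2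
    have e3 : sfr hz (toFr x0) = toFr (sig (l := l) (f := F) hz x0) := sfr_toFr hz x0
    have e4 : sfr hz (toFr y) = toFr (sig (l := l) (f := F) hz y) := sfr_toFr hz y
    rw [e3, e4] at e2
    exact e2

theorem J1_zact (hv : IsGv w v) {ζ : Om} (hz : ζ ^ l = 1) {c : JJ l F} (hc : c ∈ J1 v) :
    zact hz c ∈ J1 v := by
  obtain ⟨I, I', h1, h2, h3, h4, rfl⟩ := hc
  have hinj : Function.Injective (sig (l := l) (f := F) hz : Co l F →+* Co l F) :=
    (sig (l := l) (f := F) hz).injective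
  refine ⟨I.map (sig (l := l) (f := F) hz : Co l F →+* Co l F),
    I'.map (sig (l := l) (f := F) hz : Co l F →+* Co l F), ?_, ?_, j1_mv_map hv hz h3,
    j1_mv_map hv hz h4, ?_⟩
  · rw [Ne, Ideal.map_eq_bot_iff_of_injective hinj]
    exact h1
  · rw [Ne, Ideal.map_eq_bot_iff_of_injective hinj]
    exact h2
  · rw [map_sub, act_cls, act_cls]

end Pool.Agent.SmS
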