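import Pool.Agent.Lib.SmS.KumN

/-!
SMITH-S, section 10, Kum, second part: the action of `Γ` on the Kummer map.

`KumD.gal`: let `g ∈ Γ`, `x = x g : V0 l n` with `ac g Q = Q + io x`; `j = p g i`; we want a constant `κ ≠ 0` (independent of `i`) with
`(th g g2)(P_j) * g1(P_j) = κ * z ^ x_j * (th g g1)(P_j) * g2(P_j)` for all `j`.
Take `V` in the class `-(ac g Q)` prime to all the `P_i` (`SmJ.exists_coprime`, `K = ∏ i, (br l a i).idl`), `V ≠ ⊥`.
`(th g A) * V = (k1)` and `A * PE (vl x) * V = (k2)` (`SmJ.cls_eq_zero_iff`, `cls_PE`, `ac_cls`).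
Write `s` for `sig`, `T'` for `idT T` (`stab_idT`: `th g` fixes it). From `e1`, `e2` and their images by `th g` (`th_sig`: `th g` commutes
with `σ`): `(th g g1) = th A * th B`, `(th g g2) = σ (th A) * T' * th B`. Hence (all ideals commute)
`(th g g2 * g1 * k1 * σ k2) = σ(thA) T' thB * A B * thA V * σA * PE * σV` (`sig_PE`),
`(th g g1 * g2 * σ k1 * k2) = thA thB * σA T' B * σ(thA) σV * A PE V`: equal. So
`th g g2 * g1 * k1 * σ k2 = C κ * (th g g1 * g2 * σ k1 * k2)`, `κ ≠ 0` (`Ideal.span_singleton_eq_span_singleton`, `isUnit_co`).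
Now at `P_j`: by `mem_PE` (`B := A * V`, prime to `P_j`) `k2 ∈ P_j ^ m`, `m = vl x j`, and `k2 * r ∈ P_j ^ (m + 1) → r ∈ P_j`.
By `sig_sub_mem` `σ k2 = C (z⁻¹ ^ m) * k2 + (element of P_j ^ (m + 1))`. So
`k2 * (C (z⁻¹ ^ m) * th g g2 * g1 * k1 - C κ * th g g1 * g2 * σ k1) ∈ P_j ^ (m + 1)`, the bracket vanishes at `P_j`; `ev_j (σ k1) = ev_j k1 ≠ 0`
(`ev_sig`; `thA * V` is prime to `P_j`: `thA` because `th g` permutes the `P_i`, `idl_pt`, `pt_br`). Cancel `ev_j k1`, multiply by `z ^ m`.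

`kum`: `ρ i := ev_i g2 / ev_i g1`; `s g (ρ i) = ev_j (th g g2) / ev_j (th g g1)` by `ev_pt`, `pt_br`, `j = p g i`.
-/

set_option autoImplicit false

open Polynomial

namespace Pool.Agent.SmS

variable {l : ℕ} {F : Type} [Field F] [Fact l.Prime] {n : ℕ} {a : Fin n → F} [SupA l a]
  [IsSepClosed F] {Γ : Type} [Group Γ]

theorem KumG.span_map {R : Type} [CommRing R] (σ : R ≃+* R) (x : R) :
    (Ideal.span {x}).map (σ : R →+* R) = Ideal.span {σ x} := by
  rw [Ideal.map_span, Set.image_singleton]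
  rfl

theorem KumD.gal (W : Tw l a Γ) {T : Multiset (Pnt l (ff a))} (hT : W.Stab T) {Q : JJ l (ff a)}
    {A B : Ideal (Co l (ff a))} {g1 g2 : Co l (ff a)}
    (h : KumD W.hz.pow_eq_one T Q A B g1 g2) (g : Γ) {x : V0 l n}
    (hx : W.ac g Q = Q + io l a x) :
    ∃ κ, κ ≠ 0 ∧ ∀ j, (br l a j).ev (W.th g g2) * (br l a j).ev g1 =
      κ * W.z ^ vl x j * ((br l a j).ev (W.th g g1) * (br l a j).ev g2) := by
  classical
  have hK : (∏ i, (br l a i).idl : Ideal (Co l (ff a))) ≠ ⊥ :=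
    Finset.prod_ne_zero_iff.mpr fun i _ => (br l a i).ne_bot
  obtain ⟨V, hV0, hVc, hVK⟩ := SmJ.exists_coprime (-(W.ac g Q)) hK
  have hVi : ∀ i, V ⊔ (br l a i).idl = ⊤ := by
    intro i
    rw [eq_top_iff, ← hVK]
    refine sup_le_sup_left ?_ V
    exact Ideal.le_of_dvd (Finset.dvd_prod_of_mem (fun i => (br l a i).idl) (Finset.mem_univ i))
  -- the images
  set thA := A.map (W.th g : Co l (ff a) →+* Co l (ff a)) with hthA
  set thB := B.map (W.th g : Co l (ff a) →+* Co l (ff a)) with hthB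
  set sg : Co l (ff a) →+* Co l (ff a) :=
    ((sig W.hz.pow_eq_one : Co l (ff a) ≃+* Co l (ff a)) : Co l (ff a) →+* Co l (ff a)) with hsg
  have hthA0 : thA ≠ ⊥ := SmJ.map_ne_bot (W.th g) h.nA
  have hthAc : SmJ.cls thA = W.ac g Q := by rw [hthA, ← W.ac_cls, h.cA]
  obtain ⟨k1, hk1⟩ : ∃ k1, thA * V = Ideal.span {k1} := by
    rw [← SmJ.cls_eq_zero_iff (mul_ne_zero hthA0 hV0), SmJ.cls_mul hthA0 hV0, hthAc, hVc,
      add_neg_cancel]
  obtain ⟨k2, hk2⟩ : ∃ k2, A * PE l a (vl x) * V = Ideal.span {k2} := by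
    have hAP : A * PE l a (vl x) ≠ ⊥ := mul_ne_zero h.nA (PE_ne_bot _)
    rw [← SmJ.cls_eq_zero_iff (mul_ne_zero hAP hV0), SmJ.cls_mul hAP hV0,
      SmJ.cls_mul h.nA (PE_ne_bot _), h.cA, cls_PE, hVc, hx, add_neg_cancel]
  -- the principal ideals
  have s1 : Ideal.span {W.th g g1} = thA * thB := by
    rw [← KumG.span_map, ← h.e1, Ideal.map_mul]
  have s2 : Ideal.span {W.th g g2} = thA.map sg * idT T * thB := by
    rw [← KumG.span_map, ← h.e2, Ideal.map_mul, Ideal.map_mul, W.stab_idT hT, hthA, Ideal.map_map,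
      Ideal.map_map]
    congr 3
    exact RingHom.ext fun y => W.th_sig g y
  have s3 : Ideal.span {sig W.hz.pow_eq_one k1} = thA.map sg * V.map sg := by
    rw [← KumG.span_map, ← hk1, Ideal.map_mul]
  have s4 : Ideal.span {sig W.hz.pow_eq_one k2} = A.map sg * PE l a (vl x) * V.map sg := by
    rw [← KumG.span_map, ← hk2, Ideal.map_mul, Ideal.map_mul, sig_PE]
  have e1 := h.e1
  have e2 := h.e2
  rw [← hsg] at e2
  have key : Ideal.span {W.th g g1 * g2 * sig W.hz.pow_eq_one k1 * k2} =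
      Ideal.span {W.th g g2 * g1 * k1 * sig W.hz.pow_eq_one k2} := by
    simp only [← Ideal.span_singleton_mul_span_singleton]
    rw [s1, s2, s3, s4, ← e1, ← e2, ← hk1, ← hk2]
    ring
  obtain ⟨v, hv⟩ := Ideal.span_singleton_eq_span_singleton.mp key
  obtain ⟨κ, hκ, hκv⟩ := isUnit_co.mp v.isUnit
  refine ⟨κ, hκ, fun j => ?_⟩
  rw [hκv] at hv
  -- at `P_j`
  have hAV : (A * V) ⊔ (br l a j).idl = ⊤ := by
    rw [sup_idl_iff, Ideal.IsPrime.mul_le (br l a j).idl_max.isPrime, not_or]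
    exact ⟨sup_idl_iff.mp (h.pA j), sup_idl_iff.mp (hVi j)⟩
  have hk2' : Ideal.span {k2} = A * V * PE l a (vl x) := by
    rw [← hk2]
    ring
  obtain ⟨hm1, hm2⟩ := mem_PE hAV hk2'
  have hm3 := sig_sub_mem W.hz j (vl x j) hm1
  have hr : k2 * (po l (ff a) (C (W.z⁻¹ ^ vl x j)) * (W.th g g2 * g1 * k1) -
      po l (ff a) (C κ) * (W.th g g1 * g2 * sig W.hz.pow_eq_one k1)) ∈
        (br l a j).idl ^ (vl x j + 1) := by
    have h1 : k2 * (po l (ff a) (C (W.z⁻¹ ^ vl x j)) * (W.th g g2 * g1 * k1) -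
        po l (ff a) (C κ) * (W.th g g1 * g2 * sig W.hz.pow_eq_one k1)) =
        -(W.th g g2 * g1 * k1) * (sig W.hz.pow_eq_one k2 -
          po l (ff a) (C (W.z⁻¹ ^ vl x j)) * k2) := by
      linear_combination (-1 : Co l (ff a)) * hv
    rw [h1]
    exact Ideal.mul_mem_left _ _ hm3
  have hr' := hm2 _ hr
  rw [Pnt.mem_idl] at hr'
  simp only [map_sub, map_mul, Pnt.ev_C, ev_sig, sub_eq_zero] at hr'
  have hk1ne : (br l a j).ev k1 ≠ 0 := by
    intro h0
    have h1 : thA * V ≤ (br l a j).idl := by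
      rw [hk1, Ideal.span_singleton_le_iff_mem]
      exact h0
    rw [Ideal.IsPrime.mul_le (br l a j).idl_max.isPrime] at h1
    rcases h1 with h1 | h1
    · have h2 : thA ⊔ (br l a j).idl = ⊤ := by
        have h3 : (br l a j).idl = ((br l a ((W.p g)⁻¹ j)).idl).map
            (W.th g : Co l (ff a) →+* Co l (ff a)) := by
          rw [W.idl_pt, W.pt_br]
          congr 2
          exact ((W.p g).apply_symm_apply j).symm
        rw [h3, hthA, ← Ideal.map_sup, h.pA, Ideal.map_top]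
      exact sup_idl_iff.mp h2 h1
    · exact sup_idl_iff.mp (hVi j) h1
  have hz0 : W.z ≠ 0 := ne_of_pow W.hz.pow_eq_one
  have h5 : W.z ^ vl x j * W.z⁻¹ ^ vl x j = 1 := by
    rw [← mul_pow, mul_inv_cancel₀ hz0, one_pow]
  apply mul_right_cancel₀ hk1ne
  linear_combination W.z ^ vl x j * hr' -
    ((br l a j).ev (W.th g g2) * (br l a j).ev g1 * (br l a j).ev k1) * h5

/-- The Kummer map at the branch points. -/
theorem kum (W : Tw l a Γ) {T : Multiset (Pnt l (ff a))} (hT : W.Stab T) (hb : NB T)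
    {Q : JJ l (ff a)} (hQ : lam W.hz.pow_eq_one Q = clT T) {x : Γ → V0 l n}
    (hx : ∀ g, W.ac g Q = Q + io l a (x g)) :
    ∃ (ρ : Fin n → F) (c : F) (κ : Γ → F), (∀ i, ρ i ≠ 0) ∧ c ≠ 0 ∧ (∀ g, κ g ≠ 0) ∧
      (∀ i, ρ i ^ l = c * (T.map fun t => t.x - a i).prod) ∧
      ∀ g i, W.s g (ρ i) = κ g * W.z ^ vl (x g) (W.p g i) * ρ (W.p g i) := by
  obtain ⟨A, B, g1, g2, h⟩ := exists_kumD W.hz.pow_eq_one hQ
  obtain ⟨c, hc, hn⟩ := KumD.norm W.hz h
  choose κ hκ hk using fun g => KumD.gal W hT h g (hx g)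
  refine ⟨fun i => (br l a i).ev g2 / (br l a i).ev g1, c, κ, fun i => div_ne_zero (h.ev2 hb i)
    (h.ev1 i), hc, hκ, fun i => ?_, fun g i => ?_⟩
  · rw [div_pow, hn i, mul_div_assoc, div_self (pow_ne_zero _ (h.ev1 i)), mul_one]
  · have h1 : ∀ y, W.s g ((br l a i).ev y) = (br l a (W.p g i)).ev (W.th g y) := by
      intro y
      rw [← W.ev_pt, W.pt_br]
    have h2 : (br l a (W.p g i)).ev (W.th g g1) ≠ 0 := by
      rw [← h1]
      exact (_root_.map_ne_zero _).mpr (h.ev1 i)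
    have h3 := hk g (W.p g i)
    have h4 := h.ev1 (W.p g i)
    change W.s g ((br l a i).ev g2 / (br l a i).ev g1) = _ * ((br l a (W.p g i)).ev g2 /
      (br l a (W.p g i)).ev g1)
    rw [map_div₀, h1, h1, div_eq_iff h2, mul_div_assoc', div_mul_eq_mul_div, eq_div_iff h4]
    linear_combination h3

end Pool.Agent.SmS
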