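import Pool.Agent.Lib.SmS.SigP

/-!
SMITH-S, section 10, Kum, first part: the functions of the Kummer map.

`KumD`: `A` an ideal in the class `Q`, `A * B = (g1)`, `σ A * idT T * B = (g2)`, `A` and `B` prime to all the `P_i`.

`exists_kumD`: `lam Q = Q - σ Q = clT T`. By `SmJ.exists_coprime` with `K = ∏ i, (br l a i).idl` (`≠ ⊥`) take `A` in the class
`Q` and `B` in the class `-Q` prime to `K` (so prime to each `P_i`). `cls (A * B) = 0` and `cls (σ A * idT T * B) = σ Q + clT T - Q = 0`: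
`SmJ.cls_eq_zero_iff`.

`KumD.ev1`, `KumD.ev2`: `g1`, `g2` do not vanish at `P_i`: `P_i` is a prime ideal, `A * B ≤ P_i` would give `A ≤ P_i` or `B ≤ P_i`
(`Ideal.IsPrime.mul_le`, `sup_idl_iff`); `σ A ≤ P_i` gives `A ≤ P_i` as `ev_i (σ z) = ev_i z` (`ev_sig`); `idT T ≤ P_i` gives
`t.idl ≤ P_i` for some `t ∈ T`, so `t = br i` (maximal ideals, `Pnt.idl_inj`), contradiction with `NB T`.

`KumD.norm`: let `N h := ∏ k < l, σ ^ k h` (as in `pc_ev`) and for an ideal `N I := ∏ k < l, I.map (σ ^ k)`; `N (σ A) = N A` (the product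
over `k` is cyclic, `σ ^ l = 1`), `N (idT T) = (po U)`, `U = ∏ t ∈ T, (X - t.x)` (`prod_rot`, induction on `T`), so
`(N g2) = N A * (po U) * N B = (po U * N g1)`, `N g2 = const * po U * N g1` (associated elements, `isUnit_co`). Evaluate at
`P_i` (`pc_ev`): `(ev_i g2) ^ l = const * ∏ t ∈ T, (a_i - t.x) * (ev_i g1) ^ l`, `c = const * (-1) ^ card T`.
-/

set_option autoImplicit false

open Polynomial

namespace Pool.Agent.SmS

variable {l : ℕ} {F : Type} [Field F] [Fact l.Prime] {n : ℕ} {a : Fin n → F} [SupA l a]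
  [IsSepClosed F]

/-- The functions of the Kummer map. -/
structure KumD {ζ : F} (hz : ζ ^ l = 1) (T : Multiset (Pnt l (ff a))) (Q : JJ l (ff a))
    (A B : Ideal (Co l (ff a))) (g1 g2 : Co l (ff a)) : Prop where
  nA : A ≠ ⊥
  nB : B ≠ ⊥
  cA : SmJ.cls A = Q
  pA : ∀ i, A ⊔ (br l a i).idl = ⊤
  pB : ∀ i, B ⊔ (br l a i).idl = ⊤
  e1 : A * B = Ideal.span {g1}
  e2 : A.map ((sig hz : Co l (ff a) ≃+* Co l (ff a)) : Co l (ff a) →+* Co l (ff a)) * idT T * B =
    Ideal.span {g2}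

private theorem KumN_exists_cop (Q : JJ l (ff a)) : ∃ A : Ideal (Co l (ff a)), A ≠ ⊥ ∧
    SmJ.cls A = Q ∧ ∀ i, A ⊔ (br l a i).idl = ⊤ := by
  have hK : (∏ i, (br l a i).idl : Ideal (Co l (ff a))) ≠ ⊥ :=
    Finset.prod_ne_zero_iff.mpr fun i _ => (br l a i).ne_bot
  obtain ⟨A, h1, h2, h3⟩ := SmJ.exists_coprime Q hK
  refine ⟨A, h1, h2, fun i => ?_⟩
  refine top_le_iff.mp (h3.ge.trans (sup_le_sup_left ?_ A))
  exact Ideal.le_of_dvd (Finset.dvd_prod_of_mem _ (Finset.mem_univ i))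

theorem exists_kumD {ζ : F} (hz : ζ ^ l = 1) {T : Multiset (Pnt l (ff a))} {Q : JJ l (ff a)}
    (hQ : lam hz Q = clT T) : ∃ A B g1 g2, KumD hz T Q A B g1 g2 := by
  obtain ⟨A, nA, cA, pA⟩ := KumN_exists_cop (l := l) (a := a) Q
  obtain ⟨B, nB, cB, pB⟩ := KumN_exists_cop (l := l) (a := a) (-Q)
  have nS : A.map ((sig hz : Co l (ff a) ≃+* Co l (ff a)) : Co l (ff a) →+* Co l (ff a)) ≠ ⊥ :=
    SmJ.map_ne_bot _ nA
  have nT := idT_ne_bot T
  obtain ⟨g1, e1⟩ := (SmJ.cls_eq_zero_iff (mul_ne_zero nA nB)).mp (by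
    rw [SmJ.cls_mul nA nB, cA, cB, add_neg_cancel])
  obtain ⟨g2, e2⟩ := (SmJ.cls_eq_zero_iff (mul_ne_zero (mul_ne_zero nS nT) nB)).mp (by
    rw [SmJ.cls_mul (mul_ne_zero nS nT) nB, SmJ.cls_mul nS nT, cB, cls_idT, ← hQ, lam_apply, ← cA,
      act_cls]
    abel)
  exact ⟨A, B, g1, g2, nA, nB, cA, pA, pB, e1, e2⟩

namespace KumD

variable {ζ : F} {T : Multiset (Pnt l (ff a))} {Q : JJ l (ff a)}
  {A B : Ideal (Co l (ff a))} {g1 g2 : Co l (ff a)}

theorem ev1 {hz : ζ ^ l = 1} (h : KumD hz T Q A B g1 g2) (i : Fin n) : (br l a i).ev g1 ≠ 0 := by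
  intro h0
  have h1 : A * B ≤ (br l a i).idl := by
    rw [h.e1, Ideal.span_singleton_le_iff_mem]
    exact h0
  rcases (Ideal.IsPrime.mul_le (br l a i).idl_max.isPrime).mp h1 with h2 | h2
  · exact sup_idl_iff.mp (h.pA i) h2
  · exact sup_idl_iff.mp (h.pB i) h2

omit [SupA l a] [IsSepClosed F] in
private theorem KumN_idT {T : Multiset (Pnt l (ff a))} (hb : NB T) (i : Fin n) :
    ¬ idT T ≤ (br l a i).idl := by
  induction T using Multiset.induction_on with
  | empty =>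
    rw [idT_zero]
    intro h
    exact (br l a i).idl_max.ne_top (top_le_iff.mp h)
  | cons t T ih =>
    intro h
    rw [idT_cons] at h
    rcases (Ideal.IsPrime.mul_le (br l a i).idl_max.isPrime).mp h with h2 | h2
    · have h3 := Pnt.idl_inj (t.idl_max.eq_of_le (br l a i).idl_max.ne_top h2)
      exact hb t (Multiset.mem_cons_self _ _) i (by rw [h3]; rfl)
    · exact ih (fun t ht => hb t (Multiset.mem_cons_of_mem ht)) h2

theorem ev2 {hz : ζ ^ l = 1} (h : KumD hz T Q A B g1 g2) (hb : NB T) (i : Fin n) :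
    (br l a i).ev g2 ≠ 0 := by
  intro h0
  have h1 : A.map ((sig hz : Co l (ff a) ≃+* Co l (ff a)) : Co l (ff a) →+* Co l (ff a)) *
      idT T * B ≤ (br l a i).idl := by
    rw [h.e2, Ideal.span_singleton_le_iff_mem]
    exact h0
  rcases (Ideal.IsPrime.mul_le (br l a i).idl_max.isPrime).mp h1 with h2 | h2
  · rcases (Ideal.IsPrime.mul_le (br l a i).idl_max.isPrime).mp h2 with h3 | h3
    · refine sup_idl_iff.mp (h.pA i) fun z hz' => ?_
      have h4 := h3 (Ideal.mem_map_of_mem _ hz')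
      rw [Pnt.mem_idl] at h4 ⊢
      rw [← ev_sig hz i z]
      exact h4
    · exact KumN_idT hb i h3
  · exact sup_idl_iff.mp (h.pB i) h2

/-- The norm of an ideal. -/
private noncomputable def KumN_N {ζ : F} (hz : ζ ^ l = 1) (I : Ideal (Co l (ff a))) :
    Ideal (Co l (ff a)) :=
  ∏ k ∈ Finset.range l, I.map ((sig (zpow_pow hz k) : Co l (ff a) ≃+* Co l (ff a)) :
    Co l (ff a) →+* Co l (ff a))

omit [SupA l a] [IsSepClosed F] in
private theorem KumN_N_mul {ζ : F} (hz : ζ ^ l = 1) (I J : Ideal (Co l (ff a))) :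
    KumN_N hz (I * J) = KumN_N hz I * KumN_N hz J := by
  rw [KumN_N, KumN_N, KumN_N, ← Finset.prod_mul_distrib]
  exact Finset.prod_congr rfl fun k _ => Ideal.map_mul _ _ _

omit [SupA l a] [IsSepClosed F] in
private theorem KumN_N_span {ζ : F} (hz : ζ ^ l = 1) (h : Co l (ff a)) :
    KumN_N hz (Ideal.span {h}) =
      Ideal.span {∏ k ∈ Finset.range l, sig (l := l) (f := ff a) (zpow_pow hz k) h} := by
  rw [KumN_N, ← Ideal.prod_span_singleton]
  refine Finset.prod_congr rfl fun k _ => ?_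
  rw [Ideal.map_span, Set.image_singleton]
  rfl

omit [IsSepClosed F] in
private theorem KumN_N_idT {ζ : F} (hz : IsPrimitiveRoot ζ l) (T : Multiset (Pnt l (ff a))) :
    KumN_N hz.pow_eq_one (idT T) =
      Ideal.span {po l (ff a) (T.map fun t => X - C t.x).prod} := by
  induction T using Multiset.induction_on with
  | empty =>
    rw [idT_zero, Multiset.map_zero, Multiset.prod_zero, map_one, Ideal.span_singleton_one, KumN_N]
    rw [Finset.prod_congr rfl fun k _ => Ideal.map_top _, Finset.prod_const, ← Ideal.one_eq_top,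
      one_pow]
  | cons t T ih =>
    rw [idT_cons, KumN_N_mul, ih, Multiset.map_cons, Multiset.prod_cons, map_mul,
      ← Ideal.span_singleton_mul_span_singleton, ← prod_rot hz t, KumN_N]
    congr 1
    exact Finset.prod_congr rfl fun k _ => Pnt.map_idl _ _ _ _ _

omit [SupA l a] [IsSepClosed F] in
private theorem KumN_sig_sig {ζ : F} (hz : ζ ^ l = 1) (k : ℕ) :
    ((sig (zpow_pow hz k) : Co l (ff a) ≃+* Co l (ff a)) : Co l (ff a) →+* Co l (ff a)).comp
      ((sig hz : Co l (ff a) ≃+* Co l (ff a)) : Co l (ff a) →+* Co l (ff a)) =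
    ((sig (zpow_pow hz (k + 1)) : Co l (ff a) ≃+* Co l (ff a)) :
      Co l (ff a) →+* Co l (ff a)) := by
  apply hom_ext
  · intro p
    change sig (zpow_pow hz k) (sig hz (po l (ff a) p)) = sig (zpow_pow hz (k + 1)) (po l (ff a) p)
    rw [coMap_po, coMap_po, coMap_po, Polynomial.map_map]
    rfl
  · change sig (zpow_pow hz k) (sig hz (yy l (ff a))) = sig (zpow_pow hz (k + 1)) (yy l (ff a))
    rw [coMap_yy, map_mul, coMap_yy, coMap_po, coMap_yy, map_C, ← mul_assoc, ← map_mul, ← C_mul]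
    congr 3
    change ζ⁻¹ * (ζ ^ k)⁻¹ = (ζ ^ (k + 1))⁻¹
    rw [pow_succ, mul_inv, mul_comm]

omit [SupA l a] [IsSepClosed F] in
private theorem KumN_N_sig {ζ : F} (hz : ζ ^ l = 1) (I : Ideal (Co l (ff a))) :
    KumN_N hz (I.map ((sig hz : Co l (ff a) ≃+* Co l (ff a)) : Co l (ff a) →+* Co l (ff a))) =
      KumN_N hz I := by
  have hl : l.Prime := Fact.out
  rw [KumN_N, KumN_N]
  have h1 : ∀ k ∈ Finset.range l,
      (I.map ((sig hz : Co l (ff a) ≃+* Co l (ff a)) : Co l (ff a) →+* Co l (ff a))).map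
        ((sig (zpow_pow hz k) : Co l (ff a) ≃+* Co l (ff a)) : Co l (ff a) →+* Co l (ff a)) =
      I.map ((sig (zpow_pow hz (k + 1)) : Co l (ff a) ≃+* Co l (ff a)) :
        Co l (ff a) →+* Co l (ff a)) := by
    intro k _
    rw [Ideal.map_map, KumN_sig_sig]
  rw [Finset.prod_congr rfl h1]
  have h2 : ∀ (m : ℕ) (G : ℕ → Ideal (Co l (ff a))), 0 < m → G m = G 0 →
      ∏ k ∈ Finset.range m, G (k + 1) = ∏ k ∈ Finset.range m, G k := by
    intro m G hm0 hG
    obtain ⟨m, rfl⟩ := Nat.exists_eq_succ_of_ne_zero hm0.ne'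
    rw [Finset.prod_range_succ, Finset.prod_range_succ' (fun k => G k)]
    rw [← Nat.succ_eq_add_one, hG]
  refine h2 l (fun k => I.map ((sig (zpow_pow hz k) : Co l (ff a) ≃+* Co l (ff a)) :
    Co l (ff a) →+* Co l (ff a))) hl.pos ?_
  have h3 : ((sig (zpow_pow hz l) : Co l (ff a) ≃+* Co l (ff a)) :
      Co l (ff a) →+* Co l (ff a)) = ((sig (zpow_pow hz 0) : Co l (ff a) ≃+* Co l (ff a)) :
      Co l (ff a) →+* Co l (ff a)) := by
    apply hom_ext
    · intro p
      change sig (zpow_pow hz l) (po l (ff a) p) = sig (zpow_pow hz 0) (po l (ff a) p)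
      rw [coMap_po, coMap_po]
    · change sig (zpow_pow hz l) (yy l (ff a)) = sig (zpow_pow hz 0) (yy l (ff a))
      rw [coMap_yy, coMap_yy, hz, pow_zero]
  change I.map _ = I.map _
  rw [h3]

omit [Fact l.Prime] [SupA l a] [IsSepClosed F] in
private theorem KumN_prod_eval (T : Multiset (Pnt l (ff a))) (i : Fin n) :
    ((T.map fun t : Pnt l (ff a) => (X - C t.x : F[X])).prod).eval (a i) =
      (-1) ^ T.card * (T.map fun t => t.x - a i).prod := by
  induction T using Multiset.induction_on with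
  | empty => simp
  | cons t T ih =>
    rw [Multiset.map_cons, Multiset.prod_cons, eval_mul, ih, Multiset.card_cons, Multiset.map_cons,
      Multiset.prod_cons, eval_sub, eval_X, eval_C]
    ring

theorem norm (hz : IsPrimitiveRoot ζ l) (h : KumD hz.pow_eq_one T Q A B g1 g2) :
    ∃ c, c ≠ 0 ∧ ∀ i, (br l a i).ev g2 ^ l =
      c * (T.map fun t => t.x - a i).prod * (br l a i).ev g1 ^ l := by
  have h1 := congrArg (KumN_N hz.pow_eq_one) h.e1
  have h2 := congrArg (KumN_N hz.pow_eq_one) h.e2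
  rw [KumN_N_mul, KumN_N_span] at h1
  rw [KumN_N_mul, KumN_N_mul, KumN_N_sig, KumN_N_idT hz, KumN_N_span, mul_right_comm, h1,
    Ideal.span_singleton_mul_span_singleton, Ideal.span_singleton_eq_span_singleton] at h2
  obtain ⟨w, hw⟩ := h2
  obtain ⟨c, hc, hcw⟩ := isUnit_co.mp w.isUnit
  refine ⟨c * (-1) ^ T.card, mul_ne_zero hc (pow_ne_zero _ (neg_ne_zero.mpr one_ne_zero)),
    fun i => ?_⟩
  have h3 := congrArg (br l a i).ev hw
  rw [hcw, map_mul, map_mul, pc_ev hz, pc_ev hz, Pnt.ev_C, Pnt.ev_po] at h3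
  rw [← h3]
  change _ * ((T.map fun t : Pnt l (ff a) => (X - C t.x : F[X])).prod).eval (a i) * _ = _
  rw [KumN_prod_eval]
  ring

end KumD

end Pool.Agent.SmS
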