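import Pool.Agent.Lib.SmL.Fld.Tame
import Pool.Agent.Lib.SmL.Ar.Inv

/-!
SMITH-S, (10.5): the relation `ph sg ph⁻¹ = sg ^ q` modulo the wild inertia, and the local invariant.

`exists_ratioU`: the proof of `exists_ratioN` in `SmL/Fld/Tame.lean` (implication `→`); there the hypothesis `TameAt w N` is used only for the
element `σ` at hand (`obtain ⟨n, hnK, hidx⟩ := hN σ hσ`). (`tameN_field` is private there: copy it.)

`wild_rel`: `τ := (σ ^ q)⁻¹ * (φ * σ * φ⁻¹)` is in the inertia group and `rr w (τ ϖ / ϖ) = 1` (computation at the end of `tame_frobN`). The index of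
`N` is finite: `N.index = l' * m` hmm: write `N.index = m * r` with `m` prime to `l` and `(r : K) ≠ 0`: if the characteristic of `K` is a prime `p ≠ l` then
`m` = the power of `p` in `N.index` (`Nat.exists_eq_pow_mul_and_not_dvd`), `r` prime to `p`; in characteristic 0 `m = 1`.
`(τ ^ m) ^ r = τ ^ N.index ∈ N` (`Subgroup.pow_index_mem`, `N` normal), `rr w ((τ ^ m) ϖ / ϖ) = 1` (`ratio_pow`), so `τ ^ m ∈ N` by `exists_ratioU`.

`inv_of_open`: `q := B.q v`, `n := (sg ^ q * ph)⁻¹ * (ph * sg)`. `n = ph⁻¹ * τ * ph`, `τ = (sg ^ q)⁻¹ * (ph * sg * ph⁻¹)`, so `n ^ m ∈ U`, `n` is in every `N ∈ B.NN`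
(`hB.rel`, normality) and in `B.D v`. `c s n = c s 1` for `s ∈ D v` (`c` is of level some `N ∈ NN` on `D v`) and `c s 1 = e s + e 1 - e s = e 1`. So
`e (s n) = e s + e n - e 1` for `s ∈ D v`, `e (n ^ j) = e 1 + j (e n - e 1)`; `j = m`: `n ^ m ∈ U`, `e (n ^ m) = e 1`; `m` prime to `l`: `e n = e 1`. So
`e (ph * sg) = e (sg ^ q * ph)`; the rest is the proof of `inv_cob` (there `hf` is used only through `tf_rel`); first `inv_congr`.
-/

set_option autoImplicit false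

open IsLocalRing

namespace Pool.Agent.SmS

open Pool.Agent.Lib.SmD Pool.Agent.SmD Pool.Agent.GBU Pool.Agent.SmL.Ar

section wild

variable {K Ω : Type*} [Field K] [Field Ω] [Algebra K Ω] [IsGalois K Ω] {w : ValuationSubring Ω}
  {π : K}

omit w π in
private theorem WildR_field {N : Subgroup (Ω ≃ₐ[K] Ω)}
    (hNn : N.Normal) (hNo : IsOpen (N : Set (Ω ≃ₐ[K] Ω))) :
    ∃ L : IntermediateField K Ω, FiniteDimensional K L ∧ IsGalois K L ∧ L.fixingSubgroup = N := by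
  have hcl : IsClosed (N : Set (Ω ≃ₐ[K] Ω)) := N.isClosed_of_isOpen hNo
  have e1 : (IntermediateField.fixedField N).fixingSubgroup = N :=
    InfiniteGalois.fixingSubgroup_fixedField ⟨N, hcl⟩
  have hfd : FiniteDimensional K (IntermediateField.fixedField N) := by
    rw [← InfiniteGalois.isOpen_iff_finite, e1]
    exact hNo
  have hgal : IsGalois K (IntermediateField.fixedField N) := by
    rw [← InfiniteGalois.normal_iff_isGalois, e1]
    exact hNn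
  exact ⟨_, hfd, hgal, e1⟩

omit w π in
private theorem WildR_index {N : Subgroup (Ω ≃ₐ[K] Ω)}
    (hNn : N.Normal) (hNo : IsOpen (N : Set (Ω ≃ₐ[K] Ω))) : N.FiniteIndex := by
  obtain ⟨L, hL, hLg, rfl⟩ := WildR_field hNn hNo
  refine ⟨?_⟩
  rw [index_fixingSubgroup]
  exact Module.finrank_pos.ne'

theorem exists_ratioU (h : LocHyp K w π) (hw : CharOk w) {N : Subgroup (Ω ≃ₐ[K] Ω)}
    (hNn : N.Normal) (hNo : IsOpen (N : Set (Ω ≃ₐ[K] Ω))) :
    ∃ ϖ : Ω, ϖ ≠ 0 ∧ ∀ σ ∈ iner K w, (∃ n : ℕ, (n : K) ≠ 0 ∧ σ ^ n ∈ N) →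
      rr w (σ ϖ / ϖ) = 1 → σ ∈ N := by
  obtain ⟨L, hL, hLg, rfl⟩ := WildR_field hNn hNo
  obtain ⟨ϖ, hϖL, hϖ0, -, hval⟩ := exists_unif h.pi_ne h.pi_lt h.disc L
  refine ⟨ϖ, hϖ0, fun σ hσ hex h1 => ?_⟩
  have hLσ : ∀ x ∈ L, σ x ∈ L := by
    intro x hx
    have h2 := AlgEquiv.restrictNormal_commutes σ L ⟨x, hx⟩
    have h3 : ((AlgEquiv.restrictNormal σ L ⟨x, hx⟩ : L) : Ω) = σ x := h2
    rw [← h3]
    exact Subtype.mem _
  obtain ⟨n, hnK, hidx⟩ := hex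
  have hn0 : ((n : ℕ) : Ω) ≠ 0 := by
    rw [← map_natCast (algebraMap K Ω)]
    exact (_root_.map_ne_zero _).2 hnK
  rw [IntermediateField.mem_fixingSubgroup_iff]
  refine tame_fix hσ.1 L hLσ ?_ hn0 (hw _ hn0) ?_
  · intro a haL ha0
    rw [← ratio_eq_one_iff hσ.1 ha0]
    obtain ⟨n, hn⟩ := hval a haL ha0
    have hzn : ϖ ^ n ≠ 0 := zpow_ne_zero _ hϖ0
    rw [ratio_eq hσ ha0 hzn (by rw [hn, map_zpow₀])]
    have hnat : ∀ m : ℕ, rr w (σ (ϖ ^ m) / ϖ ^ m) = 1 := by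
      intro m
      rw [map_pow, ← div_pow, rr_pow (ratio_mem hσ.1 hϖ0), h1, one_pow]
    obtain ⟨m, rfl | rfl⟩ := n.eq_nat_or_neg
    · rw [zpow_natCast]
      exact hnat m
    · rw [zpow_neg, zpow_natCast, ratio_eq_one_iff hσ.1 (inv_ne_zero (pow_ne_zero _ hϖ0))]
      have h2 := (ratio_eq_one_iff hσ.1 (pow_ne_zero m hϖ0)).1 (hnat m)
      have hb0 : ϖ ^ m ≠ 0 := pow_ne_zero _ hϖ0
      have hσb : σ (ϖ ^ m) ≠ 0 := (_root_.map_ne_zero σ).2 hb0
      have hv : w.valuation (σ (ϖ ^ m)) = w.valuation (ϖ ^ m) := dec_val_inv hσ.1 _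
      have hvb : 0 < w.valuation (ϖ ^ m) := zero_lt_iff.2 ((Valuation.ne_zero_iff _).2 hb0)
      have h3 : σ (ϖ ^ m)⁻¹ - (ϖ ^ m)⁻¹ = -(σ (ϖ ^ m) - ϖ ^ m) * ((σ (ϖ ^ m))⁻¹ * (ϖ ^ m)⁻¹) := by
        rw [map_inv₀]
        field_simp
        ring
      rw [h3, map_mul, Valuation.map_neg, map_mul, map_inv₀, map_inv₀, hv]
      rw [← mul_assoc]
      have h4 : w.valuation (σ (ϖ ^ m) - ϖ ^ m) * (w.valuation (ϖ ^ m))⁻¹ < 1 := by
        rw [← div_eq_mul_inv, div_lt_one₀ hvb]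
        exact h2
      calc _ < 1 * (w.valuation (ϖ ^ m))⁻¹ := by
            exact mul_lt_mul_of_pos_right h4 (inv_pos.2 hvb)
        _ = _ := one_mul _
  · intro x hx
    exact (IntermediateField.mem_fixingSubgroup_iff _ _).1 hidx x hx

omit [Algebra K Ω] [IsGalois K Ω] [Field Ω] in
private theorem WildR_split {l : ℕ} (hl : l.Prime) (hl0 : (l : K) ≠ 0) {t : ℕ} (ht : t ≠ 0) :
    ∃ m r : ℕ, t = m * r ∧ m.Coprime l ∧ (r : K) ≠ 0 := by
  obtain ⟨p, hp⟩ := CharP.exists K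
  rcases CharP.char_is_prime_or_zero K p with hpp | rfl
  · obtain ⟨j, r, hr, rfl⟩ := Nat.exists_eq_pow_mul_and_not_dvd ht p hpp.ne_one
    refine ⟨p ^ j, r, rfl, ?_, fun h0 => hr ((CharP.cast_eq_zero_iff K p r).1 h0)⟩
    refine Nat.Coprime.pow_left j ((Nat.coprime_primes hpp hl).2 ?_)
    rintro rfl
    exact hl0 (CharP.cast_eq_zero K p)
  · refine ⟨1, t, (one_mul t).symm, Nat.coprime_one_left l, fun h0 => ht ?_⟩
    have h1 := (CharP.cast_eq_zero_iff K 0 t).1 h0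
    exact Nat.eq_zero_of_zero_dvd h1

theorem wild_rel (h : LocHyp K w π) (hw : CharOk w) {N : Subgroup (Ω ≃ₐ[K] Ω)}
    (hNn : N.Normal) (hNo : IsOpen (N : Set (Ω ≃ₐ[K] Ω))) {φ σ : Ω ≃ₐ[K] Ω}
    (hφ : IsFrob K w φ) (hσ : σ ∈ iner K w) {l : ℕ} (hl : l.Prime) (hl0 : (l : K) ≠ 0) :
    ∃ m : ℕ, m.Coprime l ∧
      ((σ ^ resCard (below K w))⁻¹ * (φ * σ * φ⁻¹)) ^ m ∈ N := by
  obtain ⟨ϖ, hϖ0, hker⟩ := exists_ratioU h hw hNn hNo
  have hfi := WildR_index hNn hNo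
  have h1 : φ * σ * φ⁻¹ ∈ iner K w := iner_conj hφ.mem hσ
  have h2 : σ ^ resCard (below K w) ∈ iner K w := (iner K w).pow_mem hσ _
  have h3 : (σ ^ resCard (below K w))⁻¹ ∈ iner K w := (iner K w).inv_mem h2
  have h4 := (iner K w).mul_mem h3 h1
  have h5 : rr w (((σ ^ resCard (below K w))⁻¹ * (φ * σ * φ⁻¹)) ϖ / ϖ) = 1 := by
    rw [ratio_mul h3 h1 hϖ0, ratio_frob hφ hσ hϖ0,
      ← ratio_pow hσ hϖ0, ← ratio_mul h3 h2 hϖ0, inv_mul_cancel]
    exact ratio_one hϖ0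
  obtain ⟨m, r, hmr, hml, hr⟩ := WildR_split (K := K) hl hl0 (t := N.index) hfi.index_ne_zero
  refine ⟨m, hml, hker _ ((iner K w).pow_mem h4 m) ⟨r, hr, ?_⟩ ?_⟩
  · rw [← pow_mul, ← hmr]
    exact Subgroup.pow_index_mem N _
  · rw [ratio_pow h4 hϖ0, h5, one_pow]

end wild

theorem inv_of_open {l : ℕ} {G Pl : Type*} [Group G] {B : Bs G Pl} (hB : B.Ok l) (v : Pl)
    {c : G → G → ZMod l} (hc : B.TF2On (B.D v) c) {e : G → ZMod l}
    (he : ∀ s ∈ B.D v, ∀ t ∈ B.D v, c s t = e s + e t - e (s * t)) {U : Subgroup G}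
    (hU : U.Normal) (heU : ∀ s ∈ B.D v, ∀ u ∈ U, u ∈ B.D v → e (s * u) = e s) {m : ℕ}
    (hm : m.Coprime l)
    (hw : ((B.sg v ^ B.q v)⁻¹ * (B.ph v * B.sg v * (B.ph v)⁻¹)) ^ m ∈ U) : B.inv v c = 0 := by
  set τ := (B.sg v ^ B.q v)⁻¹ * (B.ph v * B.sg v * (B.ph v)⁻¹) with hτ
  have hD : B.sg v ^ B.q v * B.ph v ∈ B.D v :=
    (B.D v).mul_mem ((B.D v).pow_mem (hB.sg_mem v) _) (hB.ph_mem v)
  have hD' : B.ph v * B.sg v ∈ B.D v := (B.D v).mul_mem (hB.ph_mem v) (hB.sg_mem v)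
  set n := (B.sg v ^ B.q v * B.ph v)⁻¹ * (B.ph v * B.sg v) with hn
  have hnτ : n = (B.ph v)⁻¹ * τ * (B.ph v)⁻¹⁻¹ := by
    rw [hn, hτ]
    group
  have hnD : n ∈ B.D v := (B.D v).mul_mem ((B.D v).inv_mem hD) hD'
  have hnN : ∀ N ∈ B.NN, n ∈ N := by
    intro N hN
    rw [hnτ]
    exact (hB.normal N hN).conj_mem _ (hB.rel v N hN) (B.ph v)⁻¹
  have hnU : n ^ m ∈ U := by
    rw [hnτ, conj_pow]
    exact hU.conj_mem _ hw (B.ph v)⁻¹
  have hone : (1 : G) ∈ B.D v := (B.D v).one_mem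
  have hen : ∀ s ∈ B.D v, e (s * n) = e s + e n - e 1 := by
    intro s hs
    obtain ⟨N, hN, hc⟩ := hc
    have h1 := hc s hs 1 hone 1 N.one_mem hone n (hnN N hN) hnD
    rw [mul_one, one_mul, he s hs n hnD, he s hs 1 hone, mul_one] at h1
    linear_combination -h1
  have hpow : ∀ j : ℕ, e (n ^ j) = e 1 + j * (e n - e 1) := by
    intro j
    induction j with
    | zero => simp
    | succ j ih =>
      rw [pow_succ, hen _ ((B.D v).pow_mem hnD j), ih]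
      push_cast
      ring
  have hm1 : (m : ZMod l) * (e n - e 1) = 0 := by
    have h1 := heU 1 hone _ hnU ((B.D v).pow_mem hnD m)
    rw [one_mul, hpow] at h1
    linear_combination h1
  have hen1 : e n = e 1 := by
    have hu : IsUnit (m : ZMod l) := (ZMod.isUnit_iff_coprime m l).2 hm
    exact sub_eq_zero.1 (hu.mul_right_eq_zero.1 hm1)
  have hrel : e (B.ph v * B.sg v) = e (B.sg v ^ B.q v * B.ph v) := by
    have h1 := hen _ hD
    rw [hn, mul_inv_cancel_left, ← hn, hen1, add_sub_cancel_right] at h1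
    exact h1
  rw [inv_congr hB v he]
  have key : ∀ m : ℕ, ∑ i ∈ Finset.Ico 1 (m + 1),
      (e (B.sg v ^ i) + e (B.sg v) - e (B.sg v ^ i * B.sg v)) =
      (m : ZMod l) * e (B.sg v) + e (B.sg v) - e (B.sg v ^ (m + 1)) := by
    intro m
    induction m with
    | zero => simp
    | succ m ih =>
      rw [Finset.sum_Ico_succ_top (by omega), ih, ← pow_succ]
      push_cast
      ring
  obtain ⟨k, hk⟩ : ∃ k, B.q v = k + 1 := ⟨B.q v - 1, by have := hB.q_pos v; omega⟩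
  have h2 : (k : ZMod l) = 0 := by
    have h3 := hB.q_one v
    rw [hk] at h3
    push_cast at h3
    linear_combination h3
  unfold Bs.inv
  beta_reduce
  rw [hrel, hk, key, h2]
  ring

end Pool.Agent.SmS
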