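import Pool.Agent.Lib.SmS.IsoJ
import Pool.Agent.Lib.SmS.WildR
import Pool.Agent.Lib.SmS.H90E
import Pool.Agent.Lib.SmL.Fld.OkK
import Pool.Agent.Lib.SmL.Fld.Chi
import Pool.Agent.Lib.SmBU.FrPlc

/-!
SMITH-S, section 10: isotropy of the local Kummer groups for the standard data of a global function field.

`twD`: the setting of `Iso0` for a subgroup `D` of the Galois group and the twist by `chi`. `isot_dec`: the local invariant of the cup product of the
cocycles of two classes of the Jacobian is zero. No condition on the classes: `n = (sg ^ q ph)⁻¹ (ph sg)` is in every group of the family `NN` and has a power with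
exponent prime to `l` in any given open normal subgroup, so `x' n = 0` for the cocycle `x'` (`inv_of_open'`).
-/

set_option autoImplicit false

open Polynomial

namespace Pool.Agent.SmS

open Pool.Agent.BSDFF Pool.Agent.Lib.SmD Pool.Agent.SmD Pool.Agent.GBU Pool.Agent.SmL.Ar
  Pool.Agent.SmL.Fld

section tw

variable {K Ω : Type} [Field K] [Field Ω] [Algebra K Ω] [IsGalois K Ω] {l : ℕ} {n : ℕ}
  {a : Fin n → Ω}

/-- An element is fixed by an open normal subgroup. -/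
theorem exists_open (x : Ω) : ∃ U : Subgroup (Ω ≃ₐ[K] Ω), U.Normal ∧
    IsOpen (U : Set (Ω ≃ₐ[K] Ω)) ∧ ∀ s ∈ U, s x = x := by
  let L := IntermediateField.normalClosure K (IntermediateField.adjoin K {x}) Ω
  have hx : IsIntegral K x := Algebra.IsIntegral.isIntegral x
  have h1 : FiniteDimensional K (IntermediateField.adjoin K {x}) :=
    IntermediateField.adjoin.finiteDimensional hx
  have h2 : FiniteDimensional K L := inferInstance
  have h3 : Normal K L := inferInstance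
  have h4 : IsGalois K L := inferInstance
  refine ⟨L.fixingSubgroup, ?_, IntermediateField.fixingSubgroup_isOpen L, fun s hs => ?_⟩
  · infer_instance
  · have h5 : x ∈ L := by
      have h6 : IntermediateField.adjoin K {x} ≤ L := IntermediateField.le_normalClosure _
      exact h6 (IntermediateField.mem_adjoin_simple_self K x)
    exact (IntermediateField.mem_fixingSubgroup_iff _ _).1 hs x h5

/-- The setting of section 10 for a subgroup of the Galois group. -/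
noncomputable def twD [Fact l.Prime] (σ : (Ω ≃ₐ[K] Ω) → Equiv.Perm (Fin n))
    (hσ : ∀ s i, s (a i) = a (σ s i)) {ζ : Ω} (hζ : IsPrimitiveRoot ζ l)
    (hζK : ∀ s : Ω ≃ₐ[K] Ω, s ζ = ζ) {chi : (Ω ≃ₐ[K] Ω) → ZMod l}
    (hc : ∀ s t, chi (s * t) = chi s + chi t) {del : Ω} (hd0 : del ≠ 0)
    (hd : ∀ s, s del = ζ ^ (chi s).val * del) (D : Subgroup (Ω ≃ₐ[K] Ω)) : Tw l a D where
  s g := ((g : Ω ≃ₐ[K] Ω) : Ω ≃+* Ω)
  p g := σ g
  u g := ζ ^ (chi g).val
  z := ζ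
  del := del
  NN := {N | ∃ U : Subgroup (Ω ≃ₐ[K] Ω), U.Normal ∧ IsOpen (U : Set (Ω ≃ₐ[K] Ω)) ∧
    N = U.subgroupOf D}
  s_mul g h x := rfl
  sa g i := hσ g i
  ul g := zpow_pow hζ.pow_eq_one _
  um g h := by
    have h1 : chi ((g * h : D) : Ω ≃ₐ[K] Ω) = chi g + chi h := hc g h
    rw [h1, ← pow_add, ZMod.val_add]
    conv_rhs => rw [← Nat.div_add_mod ((chi g).val + (chi h).val) l, pow_add, pow_mul,
      hζ.pow_eq_one, one_pow, one_mul]
  us g h := by
    change (g : Ω ≃ₐ[K] Ω) (ζ ^ (chi h).val) = _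
    rw [map_pow, hζK]
  hz := hζ
  sz g := hζK g
  del_ne := hd0
  sd g := hd g
  top := ⟨⊤, inferInstance, isOpen_univ, by
    ext x
    simp⟩
  inf := by
    rintro N ⟨U, hU, hUo, rfl⟩ N' ⟨U', hU', hUo', rfl⟩
    refine ⟨U ⊓ U', inferInstance, hUo.inter hUo', ?_⟩
    ext x
    simp [Subgroup.mem_subgroupOf]
  lvF x := by
    obtain ⟨U, hU, hUo, h⟩ := exists_open (K := K) x
    exact ⟨U.subgroupOf D, ⟨U, hU, hUo, rfl⟩, fun m hm => h m hm⟩
  lvu := by
    obtain ⟨U, hU, hUo, h⟩ := exists_open (K := K) del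
    refine ⟨U.subgroupOf D, ⟨U, hU, hUo, rfl⟩, fun m hm => ?_⟩
    have h1 := h m hm
    rw [hd] at h1
    exact (mul_eq_right₀ hd0).mp h1

end tw

theorem inv_of_open' {l : ℕ} {G Pl : Type*} [Group G] {B : Bs G Pl} (hB : B.Ok l) (v : Pl)
    {c : G → G → ZMod l}
    (hc : ∀ s ∈ B.D v, c s ((B.sg v ^ B.q v * B.ph v)⁻¹ * (B.ph v * B.sg v)) = c s 1)
    {e : G → ZMod l}
    (he : ∀ s ∈ B.D v, ∀ t ∈ B.D v, c s t = e s + e t - e (s * t)) {U : Subgroup G}
    (hU : U.Normal) (heU : ∀ s ∈ B.D v, ∀ u ∈ U, u ∈ B.D v → e (s * u) = e s) {m : ℕ}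
    (hm : m.Coprime l)
    (hw : ((B.sg v ^ B.q v)⁻¹ * (B.ph v * B.sg v * (B.ph v)⁻¹)) ^ m ∈ U) : B.inv v c = 0 := by
  set τ := (B.sg v ^ B.q v)⁻¹ * (B.ph v * B.sg v * (B.ph v)⁻¹) with hτ
  have hD : B.sg v ^ B.q v * B.ph v ∈ B.D v :=
    (B.D v).mul_mem ((B.D v).pow_mem (hB.sg_mem v) _) (hB.ph_mem v)
  have hD' : B.ph v * B.sg v ∈ B.D v := (B.D v).mul_mem (hB.ph_mem v) (hB.sg_mem v)
  set n := (B.sg v ^ B.q v * B.ph v)⁻¹ * (B.ph v * B.sg v) with hn
  have hnτ : n = (B.ph v)⁻¹ * τ * (B.ph v)⁻¹⁻¹ := by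
    rw [hn, hτ]
    group
  have hnD : n ∈ B.D v := (B.D v).mul_mem ((B.D v).inv_mem hD) hD'
  have hnU : n ^ m ∈ U := by
    rw [hnτ, conj_pow]
    exact hU.conj_mem _ hw (B.ph v)⁻¹
  have hone : (1 : G) ∈ B.D v := (B.D v).one_mem
  have hen : ∀ s ∈ B.D v, e (s * n) = e s + e n - e 1 := by
    intro s hs
    have h1 := hc s hs
    rw [he s hs n hnD, he s hs 1 hone, mul_one] at h1
    linear_combination -h1
  have hpow : ∀ j : ℕ, e (n ^ j) = e 1 + j * (e n - e 1) := by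
    intro j
    induction j with
    | zero => simp
    | succ j ih =>
      rw [pow_succ, hen _ ((B.D v).pow_mem hnD j), ih]
      push_cast
      ring
  have hm1 : (m : ZMod l) * (e n - e 1) = 0 := by
    have h1 := heU 1 hone _ hnU ((B.D v).pow_mem hnD m)
    rw [one_mul, hpow] at h1
    linear_combination h1
  have hen1 : e n = e 1 := by
    have hu : IsUnit (m : ZMod l) := (ZMod.isUnit_iff_coprime m l).2 hm
    exact sub_eq_zero.1 (hu.mul_right_eq_zero.1 hm1)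
  have hrel : e (B.ph v * B.sg v) = e (B.sg v ^ B.q v * B.ph v) := by
    have h1 := hen _ hD
    rw [hn, mul_inv_cancel_left, ← hn, hen1, add_sub_cancel_right] at h1
    exact h1
  rw [inv_congr hB v he]
  have key : ∀ m : ℕ, ∑ i ∈ Finset.Ico 1 (m + 1),
      (e (B.sg v ^ i) + e (B.sg v) - e (B.sg v ^ i * B.sg v)) =
      (m : ZMod l) * e (B.sg v) + e (B.sg v) - e (B.sg v ^ (m + 1)) := by
    intro m
    induction m with
    | zero => simp
    | succ m ih =>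
      rw [Finset.sum_Ico_succ_top (by omega), ih, ← pow_succ]
      push_cast
      ring
  obtain ⟨k, hk⟩ : ∃ k, B.q v = k + 1 := ⟨B.q v - 1, by have := hB.q_pos v; omega⟩
  have h2 : (k : ZMod l) = 0 := by
    have h3 := hB.q_one v
    rw [hk] at h3
    push_cast at h3
    linear_combination h3
  unfold Bs.inv
  beta_reduce
  rw [hrel, hk, key, h2]
  ring

variable {k K Ω : Type} [Field k] [Finite k] [Field K] [Algebra k K] [Algebra (RatFunc k) K]
  [IsScalarTower k (RatFunc k) K] [FiniteDimensional (RatFunc k) K]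
  [Algebra.IsSeparable (RatFunc k) K] [Field Ω] [Algebra K Ω] [IsSepClosure K Ω] [IsSepClosed Ω]
  {l : ℕ} [Fact l.Prime] {ζ : Ω} {NN : Set (Subgroup (Ω ≃ₐ[K] Ω))}
  {w : Place k K → ValuationSubring Ω} {sg ph : Place k K → Ω ≃ₐ[K] Ω} {n : ℕ} {a : Fin n → Ω}
  [SupA l a] [SmChar l (ff a)]

theorem isot_dec (h2 : (2 : k) ≠ 0) (hl2 : l ≠ 2) (hζ : IsPrimitiveRoot ζ l)
    (hζK : ∃ z : K, algebraMap K Ω z = ζ) (hS : Std l ζ NN w sg ph)
    {chi : (Ω ≃ₐ[K] Ω) → ZMod l} (hchi : HomO l chi) {σ : (Ω ≃ₐ[K] Ω) → Equiv.Perm (Fin n)}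
    (hσ : ∀ s i, s (a i) = a (σ s i)) (hσN : ∃ N ∈ NN, ∀ s ∈ N, σ s = 1) (v : Place k K)
    (hm : ∀ s : Ω ≃ₐ[K] Ω, (ff a).map ((s : Ω ≃+* Ω) : Ω →+* Ω) = ff a) {Q Q' : JJ l (ff a)}
    {x x' : (Ω ≃ₐ[K] Ω) → V0 l n}
    (hx : ∀ s ∈ dec K (w v), act (s : Ω ≃+* Ω) (hm s) (ζ ^ (chi s).val)
      (zpow_pow hζ.pow_eq_one _) Q = Q + io l a (x s))
    (hx' : ∀ s ∈ dec K (w v), act (s : Ω ≃+* Ω) (hm s) (ζ ^ (chi s).val)
      (zpow_pow hζ.pow_eq_one _) Q' = Q' + io l a (x' s)) :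
    (bK NN w sg ph).inv v (fun s t => ∑ i, (x s).1 i * (x' t).1 ((σ s)⁻¹ i)) = 0 := by
  have hl : l.Prime := Fact.out
  have hfix : ∀ s : Ω ≃ₐ[K] Ω, s ζ = ζ := by
    obtain ⟨z, hz⟩ := hζK
    intro s
    rw [← hz, AlgEquiv.commutes]
  have hgal : IsGalois K Ω := inferInstance
  -- the Kummer generator
  obtain ⟨α, hα, hchl⟩ := hchi.kummer hl hζ hζK
  obtain ⟨del, hdel⟩ := Pool.Agent.SmL.Fld.exists_root hl hζ α
  have hd : ∀ s : Ω ≃ₐ[K] Ω, s del = ζ ^ (chi s).val * del := by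
    intro s
    rw [hchl s]
    exact chl_spec hl hζ hζK hα s hdel
  have hd0 : del ≠ 0 := by
    rintro rfl
    rw [zero_pow hl.ne_zero] at hdel
    exact hα ((map_eq_zero_iff _ (algebraMap K Ω).injective).mp hdel.symm)
  set D := dec K (w v) with hD
  let W : Tw l a D := twD σ hσ hζ hfix hchi.add hd0 hd D
  have hWx' : ∀ g : D, W.ac g Q' = Q' + io l a (x' g) := fun g => hx' g g.2
  have h1 : W.Spl (fun g h => ∑ i, (x g).1 i * (W.pw g (x' h)).1 i) :=
    W.spl (Q := Q) (Q' := Q') (x := fun g : D => x g) (x' := fun g : D => x' g)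
      (fun g => hx g g.2) hWx'
  obtain ⟨E, hE0, ⟨N, ⟨U, hU, hUo, rfl⟩, hEN⟩, hE⟩ := h1
  obtain ⟨N', ⟨U1, hU1, hUo1, rfl⟩, hxN⟩ := W.lc_x (x := fun g : D => x' g) hWx'
  classical
  let E' : (Ω ≃ₐ[K] Ω) → Ω := fun s => if h : s ∈ D then E ⟨s, h⟩ else 1
  have hE' : ∀ s (h : s ∈ D), E' s = E ⟨s, h⟩ := fun s h => dif_pos h
  obtain ⟨e, U', hU', hUo', heU, he⟩ := exists_lift (c := fun s t =>
      ∑ i, (x s).1 i * (x' t).1 ((σ s)⁻¹ i)) (E := E') hl hζ hfix D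
    (fun s hs => by rw [hE' s hs]; exact hE0 _) hU hUo
    (fun s hs m hm hmD => by
      rw [hE' s hs, hE' _ (D.mul_mem hs hmD)]
      exact hEN ⟨s, hs⟩ ⟨m, hmD⟩ hm)
    (fun s hs t ht => by
      rw [hE' s hs, hE' t ht, hE' _ (D.mul_mem hs ht)]
      exact hE ⟨s, hs⟩ ⟨t, ht⟩)
  obtain ⟨π, hπ⟩ := IsDiscreteValuationRing.exists_irreducible v.ring
  have hL : LocHyp K (w v) (π : K) := locHyp_of_below h2 v (w v) (hS.loc.below v) hπ
  have hlK : (l : K) ≠ 0 := by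
    have hlΩ : NeZero ((l : ℕ) : Ω) := hζ.neZero'
    intro h0
    apply hlΩ.out
    rw [← map_natCast (algebraMap K Ω), h0, map_zero]
  obtain ⟨m, hml, hmU⟩ := wild_rel hL (charOk_of_finite k K (w v))
    (N := U' ⊓ U1) inferInstance (hUo'.inter hUo1) (hS.frob v) (hS.loc.iner v) hl hlK
  rw [Pool.Agent.SmBU.resCard_eq (hS.loc.below v)] at hmU
  have hB := std_ok hl hl2 hζ hζK hS
  refine inv_of_open' hB v ?_ he hU' heU hml hmU.1
  -- the element `n`
  intro s hs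
  set B := bK NN w sg ph with hBdef
  set τ := (B.sg v ^ B.q v)⁻¹ * (B.ph v * B.sg v * (B.ph v)⁻¹) with hτ
  set n' := (B.sg v ^ B.q v * B.ph v)⁻¹ * (B.ph v * B.sg v) with hn
  have hnτ : n' = (B.ph v)⁻¹ * τ * (B.ph v)⁻¹⁻¹ := by
    rw [hn, hτ]
    group
  have hDm : B.sg v ^ B.q v * B.ph v ∈ D :=
    D.mul_mem (D.pow_mem (hB.sg_mem v) _) (hB.ph_mem v)
  have hnD : n' ∈ D := D.mul_mem (D.inv_mem hDm) (D.mul_mem (hB.ph_mem v) (hB.sg_mem v))
  have hσn : σ n' = 1 := by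
    obtain ⟨N, hN, h3⟩ := hσN
    apply h3
    rw [hnτ]
    exact (hB.normal N hN).conj_mem _ (hB.rel v N hN) (B.ph v)⁻¹
  have hnU : n' ^ m ∈ U1 := by
    rw [hnτ, conj_pow]
    exact hU1.conj_mem _ hmU.2 (B.ph v)⁻¹
  let g : D := ⟨n', hnD⟩
  have hx1 : x' 1 = 0 := by
    have h3 := W.x_mul (x := fun g : D => x' g) hWx' 1 1
    have h4 : W.pw 1 (x' ((1 : D) : Ω ≃ₐ[K] Ω)) = x' ((1 : D) : Ω ≃ₐ[K] Ω) := by
      apply Subtype.ext
      funext i
      rw [Tw.pw_apply, W.p_one]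
      rfl
    simp only [mul_one] at h3
    rw [h4] at h3
    exact left_eq_add.mp h3
  have hpw : ∀ y : V0 l n, W.pw g y = y := by
    intro y
    apply Subtype.ext
    funext i
    rw [Tw.pw_apply]
    change y.1 ((σ n')⁻¹ i) = _
    rw [hσn]
    rfl
  have hxj : ∀ j : ℕ, x' (n' ^ j) = j • x' n' := by
    intro j
    induction j with
    | zero => rw [pow_zero, zero_smul, hx1]
    | succ j ih =>
      have h3 := W.x_mul (x := fun g : D => x' g) hWx' g (g ^ j)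
      rw [hpw, ← pow_succ'] at h3
      change x' (n' ^ (j + 1)) = x' n' + x' (n' ^ j) at h3
      rw [h3, ih, add_smul, one_smul, add_comm]
  have hxn : x' n' = 0 := by
    have h3 := hxN 1 (g ^ m) hnU
    rw [one_mul] at h3
    change x' (n' ^ m) = x' 1 at h3
    rw [hxj, hx1] at h3
    have hu : IsUnit (m : ZMod l) := (ZMod.isUnit_iff_coprime m l).2 hml
    rw [← Nat.cast_smul_eq_nsmul (ZMod l)] at h3
    exact (hu.smul_eq_zero).mp h3
  have h5 : (fun s t => ∑ i, (x s).1 i * (x' t).1 ((σ s)⁻¹ i)) s n' = 0 := by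
    refine Finset.sum_eq_zero fun i _ => ?_
    rw [hxn]
    exact mul_zero _
  have h6 : (fun s t => ∑ i, (x s).1 i * (x' t).1 ((σ s)⁻¹ i)) s 1 = 0 := by
    refine Finset.sum_eq_zero fun i _ => ?_
    rw [hx1]
    exact mul_zero _
  exact h5.trans h6.symm

end Pool.Agent.SmS
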