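import Pool.Agent.Lib.SmL.Fld.Std
import Pool.Agent.Lib.SmL.C.FinN
import Pool.Agent.Lib.SmL.E.LocF
import Pool.Agent.Lib.SmL.C.Mul

/-!
# SMITH-S, (10.5) of the paper: a 2-cochain on `D_v` which is a coboundary in `Ωˣ` has invariant zero

`D = dec K (w v)`, `c` a function of finite level on `D × D` with values in `ZMod l` and `ζ ^ c = d b` on `D`
with a locally constant `b : D → Ωˣ`. Then `inv v c = 0`.

PROOF. Write `G = Gal(Ω/K)`, `sg = sg v`, `ph = ph v`, `q = q ^ deg v`, `u = z : Ωˣ`, `(z : Ω) = ζ`.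
(1) `kumStepM` (`SmL/C/GalM.lean`, `M = l`, `A = D`): we may assume `b s ^ l = 1` for all `s`.
Hence `t • b s = b s` for all `t` (the `l`-th roots of unity are powers of `ζ ∈ K`).
(2) `C s t := z ^ (c s t).val` satisfies `C s t = b s * b t * (b (s t))⁻¹` on `D`. By `RM_cob` and `RM_zt` (`SmL/C/Mul.lean`;
`bK.inv v c = linv sg ph q c` by definition; only values of `b` on `D` occur, replace `b` by
`1` outside `D` if you like) or directly, all values: `z ^ (inv v c).val = 1` as soon as `b (sg ^ q * ph) = b (ph * sg)`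
(use `q ≡ 1` modulo `l`: `Fld/OkK`, `card_modEq` in `SmL/C/Sym.lean`). As `ζ` is primitive, `inv v c = 0`.
(3) It remains to show `b (ph sg) = b (sg ^ q ph)`. Let `c` have level `N ∈ NN` on `D`. For `s ∈ D`, `n ∈ N ∩ D`:
`C s n = C s 1`, so `b (s n) = b s * b n * (b 1)⁻¹`. Put `f n = b n * (b 1)⁻¹` for `n ∈ N ∩ D`: a locally constant homomorphism
`N ∩ D → μ_l`, and `b (s n) = b s * f n`. Let `n = (sg ^ q ph)⁻¹ (ph sg)`. By `hS.loc.rel` (conjugate by `ph`; `NN` consists of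
normal subgroups) `n ∈ N'` for EVERY `N' ∈ NN`, and `n ∈ iner K (w v)` (`iner` is normal in `dec`, `sg ∈ iner`). To show: `f n = 1`.
(4) `h90` (as in `kumStepM`, for the subgroup `N ⊓ D` and the cocycle `f`, extended by `1`): there is `y : Ωˣ` with
`f s = s • y * y⁻¹` for `s ∈ N ∩ D`. Then `β = y ^ l` is fixed by `N ∩ D`.
(5) There is `L : IntermediateField K Ω` with fixing subgroup `N` (`N` is open, so closed, of finite index:
`InfiniteGalois`), finite over `K`. As in `hFin_open` (`SmL/E/LocF.lean`) `L` is again finite separable over `k(t)`, so `LocHyp L w π` holds for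
some `π ∈ L` and `value_iner` (`SmD/ValIner.lean`): there is an integer `m` with `w(β) = w(π) ^ m`, because `β` is fixed by `iner L w`
(whose elements restricted to `K` are in `N ∩ iner K w`). Put `β' = π ^ m ∈ Lˣ`, `y' ∈ Ωˣ` with `y' ^ l = β'` (`exists_rootM`), `x = y / y'`: `w(x ^ l) = 1`,
so `w(x) = 1`.
(6) `n ∈ N ∩ iner`, `n` fixes `x ^ l = β / β'` (`β'∈ L`, `n ∈ N`), so `n x = x` (`root_fix_inerM`).
So `f n = n • y * y⁻¹ = n • y' * y'⁻¹`.
(7) Let `N'' = {s ∈ N | s fixes g y' for all g ∈ G}`. It is normal; open (finitely many conjugates `g y'`, each stabilizer is open; or: the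
stabilizer `U` of `y'` in `N` is open of finite index, `N'' = U.normalCore`, see `Subgroup.normalCore`, `Subgroup.finiteIndex_normalCore`,
a closed subgroup of finite index is open); for `s ∈ N` one has `s ^ l ∈ N''`, because `(g y') ^ l = g β' ∈ L` (`N` normal), so
`s (g y') = ξ g y'` with `ξ ^ l = 1`, `ξ ∈ K`. So `N'' ∈ NN` by `hS.fam.ext` (`m = 1`). Hence `n ∈ N''`, `n y' = y'`, `f n = 1`. QED
-/

set_option autoImplicit false

namespace Pool.Agent.SmS

open Pool.Agent.BSDFF Pool.Agent.Lib.SmD Pool.Agent.GBU Pool.Agent.SmL.Ar Pool.Agent.SmL.C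
  Pool.Agent.SmL.Fld
open Pool.Agent.Ht.RK (LC Spl)

section aux

private theorem LocBr_RM_congr {G A : Type*} [Group G] [CommGroup A] {D : Subgroup G} {sg ph : G}
    (hsg : sg ∈ D) (hph : ph ∈ D) (q : ℕ) {F F' : G → G → A}
    (h : ∀ s ∈ D, ∀ t ∈ D, F s t = F' s t) : RM sg ph q F = RM sg ph q F' := by
  unfold RM
  rw [h ph hph sg hsg, h (sg ^ q) (D.pow_mem hsg q) ph hph]
  congr 2
  exact Finset.prod_congr rfl fun i _ => h _ (D.pow_mem hsg i) _ hsg

variable {K Ω : Type} [Field K] [Field Ω] [Algebra K Ω]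

/-- the value at `s n` -/
private theorem LocBr_mul {D N : Subgroup (Ω ≃ₐ[K] Ω)}
    {C : (Ω ≃ₐ[K] Ω) → (Ω ≃ₐ[K] Ω) → Ωˣ} {B : (Ω ≃ₐ[K] Ω) → Ωˣ}
    (hfix : ∀ s t : Ω ≃ₐ[K] Ω, s • B t = B t) (hB : Spl D C B)
    (hC : ∀ s ∈ D, ∀ n ∈ N, n ∈ D → C s n = C s 1) {s n : Ω ≃ₐ[K] Ω} (hs : s ∈ D) (hn : n ∈ N)
    (hnD : n ∈ D) : B (s * n) = B s * (B n * (B 1)⁻¹) := by
  have e1 := hB s hs n hnD
  have e2 := hB s hs 1 D.one_mem
  rw [hC s hs n hn hnD, e2, mul_one, hfix, hfix] at e1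
  generalize B (s * n) = x at e1 ⊢
  generalize B n = u at e1 ⊢
  generalize B 1 = v at e1 ⊢
  generalize B s = b at e1 ⊢
  have key : ∀ (X : Type) [AddCommGroup X] (x u v b : X),
      b + v + -b = b + u + -x → x = b + (u + -v) := by
    intro X _ x u v b hh
    have : x = b + u - (b + v + -b) := by rw [hh]; abel
    rw [this]
    abel
  exact key (Additive Ωˣ) x u v b e1

/-- the Kummer extension over `N` -/
private theorem LocBr_kum [IsGalois K Ω] {k : Type} [Field k] [Algebra k K] {l : ℕ}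
    {NN : Set (Subgroup (Ω ≃ₐ[K] Ω))} (hF : FamL k l NN) {N : Subgroup (Ω ≃ₐ[K] Ω)} (hN : N ∈ NN)
    {y : Ωˣ} (hmu : ∀ (s : Ω ≃ₐ[K] Ω) (u : Ωˣ), u ^ l = 1 → s • u = u)
    (hy : ∀ s ∈ N, s • (y ^ l) = y ^ l) : ∃ N' ∈ NN, ∀ s ∈ N', s • y = y := by
  have hNn := hF.normal N hN
  let N' : Subgroup (Ω ≃ₐ[K] Ω) :=
    { carrier := {s | s ∈ N ∧ ∀ g : Ω ≃ₐ[K] Ω, s • g • y = g • y}
      one_mem' := ⟨N.one_mem, fun g => one_smul _ _⟩
      mul_mem' := by
        rintro a b ⟨ha, ha'⟩ ⟨hb, hb'⟩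
        exact ⟨N.mul_mem ha hb, fun g => by rw [mul_smul, hb', ha']⟩
      inv_mem' := by
        rintro a ⟨ha, ha'⟩
        exact ⟨N.inv_mem ha, fun g => by rw [inv_smul_eq_iff, ha']⟩ }
  have hmem : ∀ s, s ∈ N' ↔ s ∈ N ∧ ∀ g : Ω ≃ₐ[K] Ω, s • g • y = g • y := fun s => Iff.rfl
  have hnorm : N'.Normal := by
    refine ⟨fun n hn g => ?_⟩
    rw [hmem] at hn ⊢
    refine ⟨hNn.conj_mem n hn.1 g, fun h => ?_⟩
    rw [mul_smul, mul_smul, ← mul_smul g⁻¹ h y, hn.2, mul_smul, smul_inv_smul]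
  have hopen : IsOpen (N' : Set (Ω ≃ₐ[K] Ω)) := by
    obtain ⟨N1, h1, h3, h4⟩ := Pool.Agent.Ht.RK.exists_open_fix (K := K) y
    refine Subgroup.isOpen_mono (H₁ := N ⊓ N1) ?_ ?_
    · rintro n ⟨hn, hn1⟩
      refine (hmem n).2 ⟨hn, fun g => ?_⟩
      have h5 := h4 _ (h1.conj_mem n hn1 g⁻¹)
      rw [inv_inv, mul_smul, mul_smul, inv_smul_eq_iff] at h5
      exact h5
    · rw [Subgroup.coe_inf]
      exact (hF.isOpen _ hN).inter h3
  refine ⟨N', hF.ext N hN N' hnorm hopen (fun s hs => hs.1) fun s hs => ⟨1, ?_⟩, fun s hs => ?_⟩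
  · rw [pow_one, hmem]
    refine ⟨N.pow_mem hs l, fun g => ?_⟩
    have h1 : s • (g • y) ^ l = (g • y) ^ l := by
      have h3 := hy _ (hNn.conj_mem s hs g⁻¹)
      rw [inv_inv, mul_smul, mul_smul, inv_smul_eq_iff] at h3
      rw [← smul_pow']
      exact h3
    set ξ : Ωˣ := s • g • y * (g • y)⁻¹ with hξ
    have hξl : ξ ^ l = 1 := by
      rw [hξ, mul_pow, inv_pow, ← smul_pow', h1, mul_inv_cancel]
    have hsy : s • g • y = ξ * g • y := by rw [hξ, inv_mul_cancel_right]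
    have h5 : ∀ j : ℕ, (s ^ j) • g • y = ξ ^ j * g • y := by
      intro j
      induction j with
      | zero => rw [pow_zero, pow_zero, one_smul, one_mul]
      | succ j ih =>
        rw [pow_succ', mul_smul, ih, smul_mul', hmu s (ξ ^ j) (by rw [← pow_mul, mul_comm, pow_mul,
          hξl, one_pow]), hsy, pow_succ]
        exact (mul_assoc _ _ _).symm
    rw [h5, hξl, one_mul]
  · have h1 := ((hmem s).1 hs).2 1
    rwa [one_smul] at h1

end aux

section val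

variable {k K Ω : Type} [Field k] [Finite k] [Field K] [Algebra k K] [Algebra (RatFunc k) K]
  [IsScalarTower k (RatFunc k) K] [FiniteDimensional (RatFunc k) K]
  [Algebra.IsSeparable (RatFunc k) K] [Field Ω] [Algebra K Ω] [IsSepClosure K Ω]

/-- the values of the elements fixed by `N ⊓ iner K w` -/
private theorem LocBr_val (h2 : (2 : k) ≠ 0) {w : ValuationSubring Ω} (hw : w ≠ ⊤)
    {N : Subgroup (Ω ≃ₐ[K] Ω)} (hN : IsOpen (N : Set (Ω ≃ₐ[K] Ω))) {β : Ω} (hβ0 : β ≠ 0)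
    (hβ : ∀ s ∈ iner K w, s ∈ N → s β = β) :
    ∃ γ : Ω, γ ≠ 0 ∧ (∀ s ∈ N, s γ = γ) ∧ w.valuation β = w.valuation γ := by
  have hgal : IsGalois K Ω := IsSepClosure.isGalois
  have hNcl : IsClosed (N : Set (Ω ≃ₐ[K] Ω)) := Subgroup.isClosed_of_isOpen N hN
  let L : IntermediateField K Ω := IntermediateField.fixedField N
  have hLN : L.fixingSubgroup = N :=
    InfiniteGalois.fixingSubgroup_fixedField (k := K) (K := Ω) ⟨N, hNcl⟩
  have hfin : FiniteDimensional K L := by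
    rw [← InfiniteGalois.isOpen_iff_finite, hLN]
    exact hN
  let aL : Algebra (RatFunc k) L := ((algebraMap K L).comp (algebraMap (RatFunc k) K)).toAlgebra
  let akL : Algebra k L := ((algebraMap K L).comp (algebraMap k K)).toAlgebra
  have t1 : IsScalarTower (RatFunc k) K L := IsScalarTower.of_algebraMap_eq fun _ => rfl
  have t2 : IsScalarTower k (RatFunc k) L := IsScalarTower.of_algebraMap_eq fun x => by
    change algebraMap K L (algebraMap k K x) = algebraMap K L (algebraMap (RatFunc k) K _)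
    rw [IsScalarTower.algebraMap_apply k (RatFunc k) K]
  have f1 : FiniteDimensional (RatFunc k) L := FiniteDimensional.trans (RatFunc k) K L
  have s0 : Algebra.IsSeparable K L := by
    have : Algebra.IsSeparable K Ω := IsSepClosure.separable
    exact Algebra.isSeparable_tower_bot_of_isSeparable K L Ω
  have s1 : Algebra.IsSeparable (RatFunc k) L := Algebra.IsSeparable.trans (RatFunc k) K L
  have c1 : IsSepClosure L Ω := by
    have h1 : IsSepClosed Ω := IsSepClosure.sep_closed K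
    have h2 : Algebra.IsSeparable K Ω := IsSepClosure.separable
    exact ⟨h1, Algebra.isSeparable_tower_top_of_isSeparable K L Ω⟩
  have gL : IsGalois L Ω := IsSepClosure.isGalois
  obtain ⟨π, hL⟩ := exists_locHyp_of_ne_top k L h2 w hw
  have hmemN : ∀ s : Ω ≃ₐ[K] Ω, s ∈ N ↔ ∀ x ∈ L, s x = x := fun s => by
    rw [← hLN, IntermediateField.mem_fixingSubgroup_iff]
  have hπ0 : algebraMap L Ω π ≠ 0 := (map_ne_zero_iff _ (algebraMap L Ω).injective).2 hL.pi_ne
  obtain ⟨m, hm⟩ := value_iner hL hβ0 (fun σ hσ => by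
    have hr : ∀ x, (σ.restrictScalars K) x = σ x := fun _ => rfl
    rw [← hr]
    refine hβ (σ.restrictScalars K) ?_ ((hmemN _).2 fun x hx => σ.commutes ⟨x, hx⟩)
    rw [mem_iner] at hσ ⊢
    refine ⟨?_, hσ.2⟩
    have h3 := hσ.1
    rw [mem_dec] at h3 ⊢
    exact h3)
  refine ⟨algebraMap L Ω π ^ m, zpow_ne_zero _ hπ0, fun s hs => ?_, ?_⟩
  · rw [map_zpow₀, (hmemN s).1 hs (algebraMap L Ω π) π.2]
  · rw [map_zpow₀, hm]

private theorem LocBr_ring_ne_top (v : Place k K) : v.ring ≠ ⊤ := by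
  intro h
  have hdvr := v.dvr
  rw [h] at hdvr
  have hf : ¬ IsField (⊤ : ValuationSubring K) := IsDiscreteValuationRing.not_isField _
  apply hf
  refine ⟨⟨0, 1, ?_⟩, mul_comm, fun {a} ha => ?_⟩
  · exact zero_ne_one
  · refine ⟨⟨(a : K)⁻¹, ValuationSubring.mem_top _⟩, ?_⟩
    apply Subtype.ext
    have h0 : (a : K) ≠ 0 := fun h0 => ha (Subtype.ext h0)
    exact mul_inv_cancel₀ h0

private theorem LocBr_ne_top {v : Place k K} {w : ValuationSubring Ω} (hw : below K w = v.ring) :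
    w ≠ ⊤ := by
  rintro rfl
  apply LocBr_ring_ne_top v
  rw [← hw]
  rfl

/-- roots of unity are constants -/
private theorem LocBr_isC (K : Type) [Field K] [Algebra k K] [Algebra K Ω] {n : ℕ} (hn : 0 < n)
    (hnO : ((n : ℕ) : Ω) ≠ 0) {x : Ω} (hx : x ^ n = 1) : IsC k x := by
  obtain ⟨p, f, hp, hf, hq, hOm⟩ := card_eq_pow_C k K Ω
  have hcop : Nat.Coprime (Nat.card k) n := by
    rw [hq]
    refine Nat.Coprime.pow_left f ((Nat.Prime.coprime_iff_not_dvd hp).2 fun h => hnO ?_)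
    exact (CharP.cast_eq_zero_iff Ω p n).2 h
  have h1 := Nat.ModEq.pow_totient hcop
  refine ⟨Nat.totient n, Nat.totient_pos.2 hn, ?_⟩
  rw [pow_eq_pow_mod _ hx, h1, ← pow_eq_pow_mod _ hx, pow_one]

end val

variable {k K Ω : Type} [Field k] [Finite k] [Field K] [Algebra k K] [Algebra (RatFunc k) K]
  [IsScalarTower k (RatFunc k) K] [FiniteDimensional (RatFunc k) K]
  [Algebra.IsSeparable (RatFunc k) K] [Field Ω] [Algebra K Ω] [IsSepClosure K Ω]
  {l : ℕ} {ζ : Ω} {NN : Set (Subgroup (Ω ≃ₐ[K] Ω))} {w : Place k K → ValuationSubring Ω}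
  {sg ph : Place k K → Ω ≃ₐ[K] Ω}

theorem locBr (h2 : (2 : k) ≠ 0) (hl : l.Prime) (hlk : (l : k) ≠ 0)
    (hζ : IsPrimitiveRoot ζ l) (hζK : ∃ x : K, algebraMap K Ω x = ζ) (hS : Std l ζ NN w sg ph)
    (v : Place k K) {c : (Ω ≃ₐ[K] Ω) → (Ω ≃ₐ[K] Ω) → ZMod l}
    (hc : (bK NN w sg ph).TF2On (dec K (w v)) c) {z : Ωˣ} (hz : (z : Ω) = ζ)
    {b : (Ω ≃ₐ[K] Ω) → Ωˣ} (hb : LC (dec K (w v)) b)
    (h : Spl (dec K (w v)) (fun s t => z ^ (c s t).val) b) :
    (bK NN w sg ph).inv v c = 0 := by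
  classical
  have hsc : IsSepClosed Ω := IsSepClosure.sep_closed K
  have hgal : IsGalois K Ω := IsSepClosure.isGalois
  have hlne : NeZero l := ⟨hl.ne_zero⟩
  have hlΩ : (l : Ω) ≠ 0 := hζ.neZero'.out
  set D : Subgroup (Ω ≃ₐ[K] Ω) := dec K (w v) with hD
  set q : ℕ := Nat.card k ^ v.degree with hq
  have hq1 : 1 ≤ q := Nat.one_le_pow _ _ Nat.card_pos
  have hzl : z ^ l = 1 := by
    apply Units.ext
    rw [Units.val_pow_eq_pow_val, hz, hζ.pow_eq_one, Units.val_one]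
  have hord : orderOf z = l := by
    rw [← orderOf_units, hz]
    exact hζ.eq_orderOf.symm
  have hzfix : ∀ s : Ω ≃ₐ[K] Ω, s • z = z := by
    intro s
    obtain ⟨x, hx⟩ := hζK
    apply Units.ext
    change s (z : Ω) = z
    rw [hz, ← hx, AlgEquiv.commutes]
  have hmupow : ∀ u : Ωˣ, u ^ l = 1 → ∃ j : ℕ, u = z ^ j := by
    intro u hu
    have h1 : (u : Ω) ^ l = 1 := by rw [← Units.val_pow_eq_pow_val, hu, Units.val_one]
    obtain ⟨j, -, hj⟩ := hζ.eq_pow_of_pow_eq_one h1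
    refine ⟨j, Units.ext ?_⟩
    rw [Units.val_pow_eq_pow_val, hz, hj]
  have hmu : ∀ (s : Ω ≃ₐ[K] Ω) (u : Ωˣ), u ^ l = 1 → s • u = u := by
    intro s u hu
    obtain ⟨j, rfl⟩ := hmupow u hu
    rw [smul_pow', hzfix]
  have hsgI := hS.loc.iner v
  have hphD : ph v ∈ D := (hS.frob v).mem
  have hsgD : sg v ∈ D := iner_le_dec K _ hsgI
  have hzq : z ^ q = z := by
    have hC : IsC k (z : Ω) := LocBr_isC (Ω := Ω) K hl.pos hlΩ (by rw [hz, hζ.pow_eq_one])
    have h1 := hS.loc.cst v (z : Ω) hC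
    have h3 : ph v (z : Ω) = z := congrArg Units.val (hzfix (ph v))
    apply Units.ext
    rw [Units.val_pow_eq_pow_val, ← h1, h3]
  have hphmu : ∀ u : Ωˣ, u ^ l = 1 → ph v • u = u ^ q := by
    intro u hu
    obtain ⟨j, rfl⟩ := hmupow u hu
    rw [hmu _ _ hu, ← pow_mul, mul_comm, pow_mul, hzq]
  -- values in the roots of unity
  obtain ⟨B, hBl, hBc, hB⟩ := kumStepM (K := K) hlΩ D (fun s t => z ^ (c s t).val)
    (fun s _ t _ => by rw [← pow_mul, mul_comm, pow_mul, hzl, one_pow]) b hb h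
  have hBfix : ∀ s t : Ω ≃ₐ[K] Ω, s • B t = B t := fun s t => hmu s _ (hBl t)
  obtain ⟨N, hN, hcN⟩ := hc
  have hNn := hS.fam.normal N hN
  have hNo := hS.fam.isOpen N hN
  have hCN : ∀ s ∈ D, ∀ n ∈ N, n ∈ D → z ^ (c s n).val = z ^ (c s 1).val := by
    intro s hs n hn hnD
    have h1 := hcN s hs 1 D.one_mem 1 N.one_mem D.one_mem n hn hnD
    rw [mul_one, one_mul] at h1
    rw [h1]
  have hBmul : ∀ s ∈ D, ∀ n ∈ N, n ∈ D → B (s * n) = B s * (B n * (B 1)⁻¹) :=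
    fun s hs n hn hnD => LocBr_mul hBfix hB hCN hs hn hnD
  -- the homomorphism on `N ⊓ D`
  set f : (Ω ≃ₐ[K] Ω) → Ωˣ := fun n => B n * (B 1)⁻¹ with hf
  have hfl : ∀ n, f n ^ l = 1 := by
    intro n
    rw [hf]
    change (B n * (B 1)⁻¹) ^ l = 1
    rw [mul_pow, inv_pow, hBl, hBl, inv_one, one_mul]
  obtain ⟨y, hy⟩ := Pool.Agent.Ht.RK.h90 (N ⊓ D) f
    ((hBc.mono inf_le_right).comp fun u => u * (B 1)⁻¹) (by
      rintro s ⟨hsN, hsD⟩ t ⟨htN, htD⟩
      rw [hmu s _ (hfl t)]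
      change B (s * t) * (B 1)⁻¹ = B s * (B 1)⁻¹ * (B t * (B 1)⁻¹)
      rw [hBmul s hsD t htN htD]
      exact mul_right_comm _ _ _)
  have hyl : ∀ s ∈ N, s ∈ D → s • (y ^ l) = y ^ l := by
    intro s hsN hsD
    have h1 := hfl s
    rw [hy s ⟨hsN, hsD⟩, mul_pow, inv_pow, ← smul_pow', mul_inv_eq_one] at h1
    exact h1
  -- the value of `y ^ l`
  have hwtop : w v ≠ ⊤ := LocBr_ne_top (hS.loc.below v)
  obtain ⟨γ, hγ0, hγN, hγw⟩ := LocBr_val (k := k) h2 hwtop hNo (β := ((y ^ l : Ωˣ) : Ω))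
    (y ^ l).ne_zero (fun s hs hsN => congrArg Units.val (hyl s hsN (iner_le_dec K _ hs)))
  obtain ⟨y', hy'⟩ := exists_rootM (Ω := Ω) (M := l) hlΩ (Units.mk0 γ hγ0)
  have hy'N : ∀ s ∈ N, s • (y' ^ l) = y' ^ l := by
    intro s hs
    rw [hy']
    apply Units.ext
    exact hγN s hs
  obtain ⟨N', hN', hN'y⟩ := LocBr_kum hS.fam hN hmu hy'N
  set x : Ωˣ := y * y'⁻¹ with hx
  have hM : (w v).valuation ((l : ℕ) : Ω) = 1 := charOk_of_finite k K (w v) _ hlΩ
  have hwx : (w v).valuation (x : Ω) = 1 := by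
    have h1 : (w v).valuation (x : Ω) ^ l = 1 := by
      rw [← map_pow, ← Units.val_pow_eq_pow_val, hx, mul_pow, inv_pow, hy', Units.val_mul,
        Units.val_inv_eq_inv_val, Units.val_mk0, map_mul, map_inv₀, hγw]
      exact mul_inv_cancel₀ ((Valuation.ne_zero_iff _).2 hγ0)
    exact (pow_eq_one_iff.1 h1).resolve_right hl.ne_zero
  -- the element `n`
  set n : Ω ≃ₐ[K] Ω := (sg v ^ q * ph v)⁻¹ * (ph v * sg v) with hn
  have hnN : ∀ N0 ∈ NN, n ∈ N0 := by
    intro N0 hN0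
    have h1 := hS.loc.rel v N0 hN0
    have h4 := (hS.fam.normal _ hN0).conj_mem _ h1 (ph v)⁻¹
    rw [inv_inv] at h4
    have h5 : (sg v ^ q * ph v)⁻¹ * (ph v * sg v) = (ph v)⁻¹ * ((sg v ^ q)⁻¹ *
        (ph v * sg v * (ph v)⁻¹)) * ph v := by group
    rw [hn, h5]
    exact h4
  have hnI : n ∈ iner K (w v) := by
    have h1 : n = (ph v)⁻¹ * (sg v ^ q)⁻¹ * ((ph v)⁻¹)⁻¹ * sg v := by
      rw [hn]
      group
    rw [h1]
    exact (iner K (w v)).mul_mem (iner_conj ((dec K (w v)).inv_mem hphD)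
      ((iner K (w v)).inv_mem ((iner K (w v)).pow_mem hsgI q))) hsgI
  have hnD : n ∈ D := iner_le_dec K _ hnI
  have hny' : n • y' = y' := hN'y n (hnN N' hN')
  have hnx : n • x = x := by
    apply Units.ext
    change n (x : Ω) = x
    refine root_fix_inerM hM hnI hwx ?_
    have h1 : n • (x ^ l) = x ^ l := by
      rw [hx, mul_pow, inv_pow, smul_mul', smul_inv', hyl n (hnN N hN) hnD, hy'N n (hnN N hN)]
    have h3 := congrArg Units.val h1
    rw [Units.val_pow_eq_pow_val] at h3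
    exact h3
  have hny : n • y = y := by
    have h1 : y = x * y' := by rw [hx, inv_mul_cancel_right]
    rw [h1, smul_mul', hnx, hny']
  have hfn : B n * (B 1)⁻¹ = 1 := by
    have h1 := hy n ⟨hnN N hN, hnD⟩
    rw [hny, mul_inv_cancel] at h1
    exact h1
  have hrel : B (sg v ^ q * ph v) = B (ph v * sg v) := by
    have h1 := hBmul (sg v ^ q * ph v) (D.mul_mem (D.pow_mem hsgD q) hphD) n (hnN N hN) hnD
    rw [hfn, mul_one, hn, mul_inv_cancel_left] at h1
    exact h1.symm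
  have hR : (zt hzl (linv (sg v) (ph v) q c)).toMul = 1 := by
    rw [← RM_zt hzl, LocBr_RM_congr (D := D) hsgD hphD q
      (F' := fun s t => B s * s • B t * (B (s * t))⁻¹) (fun s hs t ht => ?_)]
    · exact RM_cob hq1 hBl (fun u hu => hmu _ u hu) hphmu hrel
    · rw [← hB s hs t ht]
      have h1 := zt_nat hzl (c s t).val
      rw [ZMod.natCast_zmod_val] at h1
      exact h1
  exact zt_inj hzl hord hR

end Pool.Agent.SmS
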