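import Pool.Agent.Lib.SmS.Col

/-!
SMITH-S, section 4 of the paper: the minimal ideal of a class. `n (l - 1) / 2 < p` in the form `SmChar`.
-/

set_option autoImplicit false

open Polynomial

namespace Pool.Agent.SmS

variable {l : ℕ} {F : Type} [Field F] {f : F[X]} [Fact l.Prime]

/-- The numbers `1 ≤ d ≤ n (l - 1)` are not zero in `F`. -/
class SmChar (l : ℕ) {F : Type} [Field F] (f : F[X]) : Prop where
  ne : ∀ d : ℕ, 1 ≤ d → d ≤ f.natDegree * (l - 1) → (d : F) ≠ 0

variable [Sup l f] [IsSepClosed F] [SmChar l f]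

/-! ### Auxiliary statements -/

omit [Fact l.Prime] [Sup l f] [IsSepClosed F] [SmChar l f] in
private theorem Min_idl_inj {P P' : Pnt l f} (h : P.idl = P'.idl) : P = P' := by
  have h1 : po l f (X - C P.x) ∈ P.idl := by
    rw [Pnt.mem_idl, Pnt.ev_po]
    simp
  have h2 : yy l f - po l f (C P.y) ∈ P.idl := by
    rw [Pnt.mem_idl, map_sub, Pnt.ev_po, Pnt.ev_yy]
    simp
  rw [h, Pnt.mem_idl, Pnt.ev_po] at h1
  rw [h, Pnt.mem_idl, map_sub, Pnt.ev_po, Pnt.ev_yy] at h2
  simp only [eval_sub, eval_X, eval_C] at h1 h2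
  ext
  · exact (sub_eq_zero.mp h1).symm
  · exact (sub_eq_zero.mp h2).symm

omit [IsSepClosed F] [SmChar l f] in
private theorem Min_idl_ne_bot (P : Pnt l f) : P.idl ≠ ⊥ := by
  intro h
  have h1 : po l f (X - C P.x) ∈ P.idl := by
    rw [Pnt.mem_idl, Pnt.ev_po]
    simp
  rw [h, Ideal.mem_bot] at h1
  have h2 : cf (po l f (X - C P.x)) 0 = cf (0 : Co l f) 0 := by rw [h1]
  rw [cf_zero] at h2
  have h3 : cf (po l f (X - C P.x)) 0 = X - C P.x := by
    have h4 : po l f (X - C P.x) = ∑ i ∈ Finset.range l,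
        po l f ((fun i : ℕ => if i = 0 then X - C P.x else 0) i) * yy l f ^ i := by
      rw [Finset.sum_eq_single 0]
      · simp
      · intro i _ hi
        simp [hi]
      · intro h0
        exact absurd (Finset.mem_range.mpr (NeZero.pos l)) h0
    rw [h4, cf_sum _ (NeZero.pos l)]
    simp
  rw [h3] at h2
  exact X_sub_C_ne_zero P.x h2

omit [Fact l.Prime] [Sup l f] [IsSepClosed F] [SmChar l f] in
private theorem Min_map_ne_bot {σ : Co l f ≃+* Co l f} {I : Ideal (Co l f)} (h : I ≠ ⊥) :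
    I.map (σ : Co l f →+* Co l f) ≠ ⊥ := by
  intro h0
  exact h ((Ideal.map_eq_bot_iff_of_injective σ.injective).mp h0)

omit [IsSepClosed F] [SmChar l f] in
private theorem Min_dg_map (s : F ≃+* F) (hs : f.map (s : F →+* F) = f) (u : F) (hu : u ^ l = 1)
    (I : Ideal (Co l f)) : dg (I.map (coMap s hs u hu : Co l f →+* Co l f)) = dg I := by
  unfold dg Module.finrank
  congr 1
  refine (rank_eq_of_equiv_equiv (s : F → F)
    (Ideal.quotientEquiv I (I.map (coMap s hs u hu : Co l f →+* Co l f)) (coMap s hs u hu) rfl :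
      (Co l f ⧸ I) ≃+* _).toAddEquiv s.bijective ?_).symm
  intro r m
  obtain ⟨m, rfl⟩ := Ideal.Quotient.mk_surjective m
  change Ideal.Quotient.mk _ (coMap s hs u hu (r • m)) =
    Ideal.Quotient.mk _ (s r • coMap s hs u hu m)
  congr 1
  have e : ∀ (c : F) (z : Co l f), c • z = po l f (C c) * z := by
    intro c z
    rw [Algebra.smul_def, AdjoinRoot.algebraMap_eq']
    rfl
  rw [e, e, map_mul, coMap_po, map_C]
  rfl

omit [SmChar l f] in
private theorem Min_dg_top : dg (⊤ : Ideal (Co l f)) = 0 := by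
  unfold dg
  have : Subsingleton (Co l f ⧸ (⊤ : Ideal (Co l f))) := Ideal.Quotient.subsingleton_iff.mpr rfl
  exact Module.finrank_zero_of_subsingleton

/-- The ideal `I` has minimal degree in its class. -/
private def Min_IsMin (I : Ideal (Co l f)) : Prop :=
  I ≠ ⊥ ∧ ∀ I' : Ideal (Co l f), I' ≠ ⊥ → SmJ.cls I' = SmJ.cls I → dg I ≤ dg I'

omit [SmChar l f] in
private theorem Min_exists (c : JJ l f) : ∃ I : Ideal (Co l f), Min_IsMin I ∧ SmJ.cls I = c := by
  classical
  have h : ∃ n : ℕ, ∃ I : Ideal (Co l f), I ≠ ⊥ ∧ SmJ.cls I = c ∧ dg I = n := by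
    obtain ⟨I, h1, h2⟩ := SmJ.exists_cls c
    exact ⟨dg I, I, h1, h2, rfl⟩
  obtain ⟨I, h1, h2, h3⟩ := Nat.find_spec h
  refine ⟨I, ⟨h1, fun I' h4 h5 => ?_⟩, h2⟩
  rw [h3]
  exact Nat.find_min' h ⟨I', h4, h5.trans h2, rfl⟩

omit [SmChar l f] in
/-- An element of `J` gives an ideal in the class `-cls J`. -/
private theorem Min_quot {I J : Ideal (Co l f)} (hI : I ≠ ⊥) (hJ : J ≠ ⊥)
    (e0 : SmJ.cls (I * J) = 0) {g : Co l f}
    (hg : g ∈ J) (hg0 : g ≠ 0) : ∃ K : Ideal (Co l f), K ≠ ⊥ ∧ SmJ.cls K = SmJ.cls I ∧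
      ord g = dg J + dg K := by
  obtain ⟨K, hK⟩ := Ideal.dvd_span_singleton.mpr hg
  have hK0 : K ≠ ⊥ := by
    rintro rfl
    rw [Ideal.mul_bot, Ideal.span_singleton_eq_bot] at hK
    exact hg0 hK
  refine ⟨K, hK0, ?_, ?_⟩
  · have e1 : SmJ.cls J + SmJ.cls K = 0 := by
      rw [← SmJ.cls_mul hJ hK0, ← hK, SmJ.cls_span]
    have e2 : SmJ.cls I + SmJ.cls J = 0 := by
      rw [← SmJ.cls_mul hI hJ, e0]
    rw [add_comm] at e2
    exact add_left_cancel (e1.trans e2.symm)
  · rw [← dg_span hg0, hK, dg_mul hJ hK0]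

omit [SmChar l f] in
private theorem Min_scale {z z' : Co l f} (hz : z ≠ 0) (hz' : z' ≠ 0) : ∃ w : Co l f,
    w ≠ 0 ∧ Ideal.span {w} = Ideal.span {z'} ∧ lcc w = lcc z := by
  have hl : lcc z ≠ 0 := lcc_ne_zero.mpr hz
  have hl' : lcc z' ≠ 0 := lcc_ne_zero.mpr hz'
  have hk0 : lcc z / lcc z' ≠ 0 := div_ne_zero hl hl'
  have hu : IsUnit (po l f (C (lcc z / lcc z'))) := isUnit_co.mpr ⟨_, hk0, rfl⟩
  refine ⟨po l f (C (lcc z / lcc z')) * z', mul_ne_zero hu.ne_zero hz', ?_, ?_⟩
  · rw [Ideal.span_singleton_mul_left_unit hu]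
  · rw [lcc_mul, lcc_po, leadingCoeff_C, div_mul_cancel₀ _ hl']

omit [SmChar l f] in
private theorem Min_unique {I I' : Ideal (Co l f)} (h : Min_IsMin I) (h' : Min_IsMin I')
    (e : SmJ.cls I = SmJ.cls I') : I = I' := by
  have hd : dg I = dg I' := le_antisymm (h.2 I' h'.1 e.symm) (h'.2 I h.1 e)
  obtain ⟨J, hJ, z, hz, h1⟩ := SmJ.exists_cls_neg I h.1
  have h2 : SmJ.cls (I' * J) = 0 := by
    rw [SmJ.cls_mul h'.1 hJ, ← e, ← SmJ.cls_mul h.1 hJ, h1, SmJ.cls_span]
  obtain ⟨z', h3⟩ := (SmJ.cls_eq_zero_iff (mul_ne_zero h'.1 hJ)).mp h2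
  have hz' : z' ≠ 0 := by
    rintro rfl
    rw [Ideal.span_singleton_eq_bot.mpr rfl] at h3
    exact mul_ne_zero h'.1 hJ h3
  obtain ⟨w, hw0, hw, lw⟩ := Min_scale hz hz'
  have hsw : Ideal.span {w} = I' * J := by rw [hw, h3]
  have ow : ord w = dg I' + dg J := by
    rw [← dg_span hw0, hsw, dg_mul h'.1 hJ]
  have oz : ord z = dg I + dg J := by
    rw [← dg_span hz, ← h1, dg_mul h.1 hJ]
  have hzJ : z ∈ J := by
    have h8 : z ∈ I * J := by rw [h1]; exact Ideal.mem_span_singleton_self z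
    exact (Ideal.mul_le_right : I * J ≤ J) h8
  have hwJ : w ∈ J := by
    have h8 : w ∈ I' * J := by rw [← hsw]; exact Ideal.mem_span_singleton_self w
    exact (Ideal.mul_le_right : I' * J ≤ J) h8
  have key : z = w := by
    by_contra hne
    have h4 := ord_sub_lt (g := z) (h := w) (by rw [oz, ow, hd]) lw.symm hne
    have h9 : z - w ∈ J := Submodule.sub_mem _ hzJ hwJ
    obtain ⟨K, hK0, hcK, h6⟩ := Min_quot h.1 hJ (by rw [h1, SmJ.cls_span]) h9
      (sub_ne_zero.mpr hne)
    have h5 := h.2 K hK0 hcK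
    omega
  have h7 : I * J = I' * J := by rw [← hsw, ← key, h1]
  exact mul_right_cancel₀ hJ h7

omit [SmChar l f] in
private theorem Min_map {I : Ideal (Co l f)} (h : Min_IsMin I) (s : F ≃+* F)
    (hs : f.map (s : F →+* F) = f) (u : F) (hu : u ^ l = 1) :
    Min_IsMin (I.map (coMap s hs u hu : Co l f →+* Co l f)) := by
  refine ⟨Min_map_ne_bot h.1, fun I' hI' e => ?_⟩
  rw [Min_dg_map]
  have hs' := map_symm hs
  have hu' : (s.symm u⁻¹) ^ l = 1 := by rw [← map_pow, inv_pow, hu, inv_one, map_one]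
  have h1 := h.2 (I'.map (coMap s.symm hs' (s.symm u⁻¹) hu' : Co l f →+* Co l f))
    (Min_map_ne_bot hI') (by
      rw [← act_cls, e, ← act_cls, act_act]
      have e3 : ∀ (t : F ≃+* F) (ht : f.map (t : F →+* F) = f) (v : F) (hv : v ^ l = 1),
          t = RingEquiv.refl F → v = 1 → ∀ Q : JJ l f, act t ht v hv Q = Q := by
        rintro t ht v hv rfl rfl Q
        obtain ⟨I0, -, rfl⟩ := SmJ.exists_cls Q
        rw [act_cls]
        congr 1
        have : (coMap (RingEquiv.refl F) ht 1 hv : Co l f →+* Co l f) = RingHom.id _ := by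
          apply hom_ext
          · intro p
            change coMap (RingEquiv.refl F) ht 1 hv (po l f p) = po l f p
            rw [coMap_po]
            congr 1
            exact Polynomial.map_id
          · change coMap (RingEquiv.refl F) ht 1 hv (yy l f) = yy l f
            rw [coMap_yy, inv_one, C_1, map_one, one_mul]
        rw [this, Ideal.map_id]
      apply e3
      · exact RingEquiv.ext fun x => s.symm_apply_apply x
      · rw [← map_mul, inv_mul_cancel₀ (ne_of_pow hu), map_one])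
  rw [Min_dg_map] at h1
  exact h1

omit [SmChar l f] in
private theorem Min_dg_le {I : Ideal (Co l f)} (h : Min_IsMin I) :
    dg I ≤ f.natDegree * (l - 1) / 2 := by
  obtain ⟨J, hJ, z, hz, h1⟩ := SmJ.exists_cls_neg I h.1
  obtain ⟨g, hg, hg0, h2⟩ := exists_small hJ
  obtain ⟨K, hK0, hcK, h6⟩ := Min_quot h.1 hJ (by rw [h1, SmJ.cls_span]) hg hg0
  have h5 := h.2 K hK0 hcK
  omega

omit [IsSepClosed F] [SmChar l f] in
private theorem Min_prod_ne_bot (M : Multiset (Pnt l f)) : (M.map Pnt.idl).prod ≠ ⊥ := by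
  apply Multiset.prod_ne_zero
  intro h
  obtain ⟨P, -, hP⟩ := Multiset.mem_map.mp h
  exact Min_idl_ne_bot P hP

omit [SmChar l f] in
private theorem Min_dg_prod (M : Multiset (Pnt l f)) : dg (M.map Pnt.idl).prod = M.card := by
  induction M using Multiset.induction_on with
  | empty =>
    rw [Multiset.map_zero, Multiset.prod_zero, Ideal.one_eq_top, Min_dg_top, Multiset.card_zero]
  | cons P M ih =>
    rw [Multiset.map_cons, Multiset.prod_cons, dg_mul (Min_idl_ne_bot P) (Min_prod_ne_bot M), ih,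
      dg_idl, Multiset.card_cons, add_comm]

private theorem Min_factor {I : Ideal (Co l f)} (h0 : I ≠ ⊥)
    (hd : dg I ≤ f.natDegree * (l - 1)) : ∃ M : Multiset (Pnt l f), (M.map Pnt.idl).prod = I := by
  revert h0 hd
  refine UniqueFactorizationMonoid.induction_on_prime I ?_ ?_ ?_
  · intro h
    exact absurd rfl h
  · intro I hI _ _
    exact ⟨0, by rw [Multiset.map_zero, Multiset.prod_zero]; exact (isUnit_iff_eq_one.mp hI).symm⟩
  · intro I P hI hP ih _ hd
    rw [dg_mul hP.ne_zero hI] at hd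
    obtain ⟨M, hM⟩ := ih hI (by omega)
    have hPm : P.IsMaximal := (Ideal.isPrime_of_prime hP).isMaximal hP.ne_zero
    obtain ⟨Q, hQ⟩ := exists_pnt hPm hP.ne_zero (fun d h1 h2 => SmChar.ne (l := l) (f := f) d h1
      (by omega))
    refine ⟨Q ::ₘ M, ?_⟩
    rw [Multiset.map_cons, Multiset.prod_cons, hM, hQ]

omit [SmChar l f] in
private theorem Min_prod_inj {M M' : Multiset (Pnt l f)}
    (h : (M.map Pnt.idl).prod = (M'.map Pnt.idl).prod) : M = M' := by
  have hp : ∀ M : Multiset (Pnt l f), ∀ I ∈ M.map Pnt.idl, Irreducible I := by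
    intro M I hI
    obtain ⟨P, -, rfl⟩ := Multiset.mem_map.mp hI
    exact (Ideal.prime_of_isPrime (Min_idl_ne_bot P) P.idl_max.isPrime).irreducible
  have h1 := UniqueFactorizationMonoid.factors_unique (hp M) (hp M') (Associated.of_eq h)
  have h2 : M.map Pnt.idl = M'.map Pnt.idl := by
    rw [← Multiset.rel_eq]
    exact h1.mono fun a _ b _ hab => associated_iff_eq.mp hab
  exact Multiset.map_injective (fun P P' e => Min_idl_inj e) h2

omit [SmChar l f] in
private theorem Min_map_prod (M : Multiset (Pnt l f)) (s : F ≃+* F)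
    (hs : f.map (s : F →+* F) = f) (u : F) (hu : u ^ l = 1) :
    (M.map Pnt.idl).prod.map (coMap s hs u hu : Co l f →+* Co l f) =
      ((M.map (Pnt.map s hs u hu)).map Pnt.idl).prod := by
  induction M using Multiset.induction_on with
  | empty =>
    rw [Multiset.map_zero, Multiset.map_zero, Multiset.map_zero, Multiset.prod_zero,
      Ideal.one_eq_top, Ideal.map_top]
  | cons P M ih =>
    rw [Multiset.map_cons, Multiset.map_cons, Multiset.map_cons, Multiset.prod_cons,
      Multiset.prod_cons, Ideal.map_mul, ih, Pnt.map_idl]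

/-- Canonical representatives of the classes. -/
theorem exists_red : ∃ red : JJ l f → Multiset (Pnt l f),
    (∀ c, ((red c).map fun P => P.cl).sum = c) ∧
    (∀ c, (red c).card ≤ f.natDegree * (l - 1) / 2) ∧
    ∀ (s : F ≃+* F) (hs : f.map (s : F →+* F) = f) (u : F) (hu : u ^ l = 1) (c : JJ l f),
      red (act s hs u hu c) = (red c).map (Pnt.map s hs u hu) := by
  choose I hI hc using Min_exists (l := l) (f := f)
  have hd := fun c => Min_dg_le (hI c)
  have hM : ∀ c, ∃ M : Multiset (Pnt l f), (M.map Pnt.idl).prod = I c := fun c =>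
    Min_factor (hI c).1 ((hd c).trans (Nat.div_le_self _ _))
  choose M hM using hM
  refine ⟨M, fun c => ?_, fun c => ?_, fun s hs u hu c => ?_⟩
  · have h1 := SmJ.cls_multiset ((M c).map Pnt.idl) (by
      intro J hJ
      obtain ⟨P, -, rfl⟩ := Multiset.mem_map.mp hJ
      exact Min_idl_ne_bot P)
    rw [Multiset.map_map] at h1
    rw [hM, hc] at h1
    exact h1.symm
  · rw [← Min_dg_prod, hM]
    exact hd c
  · apply Min_prod_inj
    rw [hM, ← Min_map_prod, hM]
    apply Min_unique (hI _) (Min_map (hI c) s hs u hu)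
    rw [hc, ← act_cls, hc]

theorem jac_induction {p : JJ l f → Prop} (h0 : p 0) (h1 : ∀ P : Pnt l f, p P.cl)
    (h2 : ∀ x y, p x → p y → p (x + y)) (Q : JJ l f) : p Q := by
  obtain ⟨red, hr, -, -⟩ := exists_red (l := l) (f := f)
  rw [← hr Q]
  induction red Q using Multiset.induction_on with
  | empty => rw [Multiset.map_zero, Multiset.sum_zero]; exact h0
  | cons P M ih =>
    rw [Multiset.map_cons, Multiset.sum_cons]
    exact h2 _ _ (h1 P) ih

end Pool.Agent.SmS
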