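import Pool.Agent.Lib.SmS.Nsum

/-!
SMITH-S, (6.1) of the paper: `x - x0` is a norm.
-/

set_option autoImplicit false

open Polynomial

namespace Pool.Agent.SmS

variable {l : ℕ} {F : Type} [Field F] {f : F[X]} [Fact l.Prime]

/-- The product of the conjugates. -/
noncomputable def pc {ζ : F} (hz : ζ ^ l = 1) (h : Co l f) : Co l f :=
  ∏ k ∈ Finset.range l, sig (l := l) (f := f) (zpow_pow hz k) h

/-! ### Generalities -/

private theorem NrmX_irr {g : F[X]} {c : F} (h0 : g.eval c = 0) (h1 : g.derivative.eval c ≠ 0) :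
    Irreducible ((X : F[X][X]) ^ l - C g) := by
  have hl : l.Prime := Fact.out
  rw [(monic_def g).irreducible_iff_irreducible_map_fraction_map (K := RatFunc F)]
  rw [Polynomial.map_sub, Polynomial.map_pow, map_X, map_C]
  refine X_pow_sub_C_irreducible_of_prime hl fun b hb => h1 ?_
  obtain ⟨p, hp⟩ := IsIntegrallyClosed.exists_algebraMap_eq_of_isIntegral_pow (R := F[X])
    (K := RatFunc F) (x := b) hl.pos (by rw [hb]; exact isIntegral_algebraMap)
  have h2 : p ^ l = g := by
    apply RatFunc.algebraMap_injective F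
    rw [map_pow, hp, hb]
  have h3 : p.eval c = 0 := by
    have h4 := congrArg (eval c) h2
    rw [eval_pow, h0] at h4
    exact (pow_eq_zero_iff hl.ne_zero).mp h4
  rw [← h2, derivative_pow, eval_mul, eval_mul, eval_pow, h3,
    zero_pow (Nat.sub_ne_zero_of_lt hl.one_lt), mul_zero, zero_mul]

private theorem NrmX_dom {g : F[X]} {c : F} (h0 : g.eval c = 0) (h1 : g.derivative.eval c ≠ 0) :
    IsDomain (Co l g) :=
  AdjoinRoot.isDomain_of_prime (UniqueFactorizationMonoid.irreducible_iff_prime.mp
    (NrmX_irr h0 h1))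

/-- `∏ (A - ζ ^ k B) = A ^ l - B ^ l` -/
private theorem NrmX_prod {R : Type} [CommRing R] [IsDomain R] {ζ : R} (hz : IsPrimitiveRoot ζ l)
    (A B : R) : ∏ k ∈ Finset.range l, (A - ζ ^ k * B) = A ^ l - B ^ l := by
  classical
  have hl : l.Prime := Fact.out
  rw [hz.pow_sub_pow_eq_prod_sub_mul A B hl.pos]
  have h1 : nthRootsFinset l (1 : R) = (Finset.range l).image fun k => ζ ^ k := by
    symm
    apply Finset.eq_of_subset_of_card_le
    · intro x hx
      obtain ⟨k, -, rfl⟩ := Finset.mem_image.mp hx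
      rw [mem_nthRootsFinset hl.pos, ← pow_mul, mul_comm, pow_mul, hz.pow_eq_one, one_pow]
    · rw [hz.card_nthRootsFinset, Finset.card_image_of_injOn, Finset.card_range]
      intro i hi j hj e
      exact hz.pow_inj (Finset.mem_range.mp hi) (Finset.mem_range.mp hj) e
  rw [h1, Finset.prod_image]
  intro i hi j hj e
  exact hz.pow_inj (Finset.mem_range.mp hi) (Finset.mem_range.mp hj) e

open Classical in
/-- geometric sums of roots of unity -/
private theorem NrmX_geom {u : F} (hu : u ^ l = 1) :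
    ∑ k ∈ Finset.range l, u ^ k = if u = 1 then (l : F) else 0 := by
  split_ifs with h
  · rw [h]
    simp
  · have h1 := geom_sum_mul u l
    rw [hu, sub_self] at h1
    exact (mul_eq_zero.mp h1).resolve_right (sub_ne_zero.mpr h)

/-- change of the polynomial ring -/
private noncomputable def NrmX_bc {f g : F[X]} (φ : F[X] →+* F[X]) (h : φ f = g) :
    Co l f →+* Co l g :=
  AdjoinRoot.lift ((po l g).comp φ) (yy l g) (by
    rw [eval₂_sub, eval₂_X_pow, eval₂_C, yy_pow, RingHom.comp_apply, h, sub_self])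

private theorem NrmX_bc_po {f g : F[X]} (φ : F[X] →+* F[X]) (h : φ f = g) (p : F[X]) :
    NrmX_bc (l := l) φ h (po l f p) = po l g (φ p) := AdjoinRoot.lift_of _

private theorem NrmX_bc_yy {f g : F[X]} (φ : F[X] →+* F[X]) (h : φ f = g) :
    NrmX_bc (l := l) φ h (yy l f) = yy l g := AdjoinRoot.lift_root _

private theorem NrmX_sig_po {u : F} (hu : u ^ l = 1) (p : F[X]) :
    sig (l := l) (f := f) hu (po l f p) = po l f p := by
  rw [coMap_po]
  exact congrArg _ (map_refl p)

private theorem NrmX_sig_yy {u : F} (hu : u ^ l = 1) :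
    sig (l := l) (f := f) hu (yy l f) = po l f (C u⁻¹) * yy l f := coMap_yy _ _ _ _

private theorem NrmX_sig_sig {u v : F} (hu : u ^ l = 1) (hv : v ^ l = 1) (h : Co l f) :
    sig (l := l) (f := f) hu (sig hv h) =
      sig (l := l) (f := f) (ζ := u * v) (by rw [mul_pow, hu, hv, one_mul]) h :=
  coMap_coMap (RingEquiv.refl F) (RingEquiv.refl F) (map_refl f) (map_refl f) u v hu hv h

private theorem NrmX_sig_congr {u v : F} (hu : u ^ l = 1) (hv : v ^ l = 1) (e : u = v)
    (h : Co l f) : sig (l := l) (f := f) hu h = sig (l := l) (f := f) hv h := by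
  subst e
  rfl

private theorem NrmX_sig_bc {f g : F[X]} (φ : F[X] →+* F[X]) (h : φ f = g)
    (hφ : ∀ c : F, φ (C c) = C c) {u : F} (hu : u ^ l = 1) (x : Co l f) :
    sig (l := l) (f := g) hu (NrmX_bc φ h x) = NrmX_bc φ h (sig (l := l) (f := f) hu x) := by
  have e : ((sig (l := l) (f := g) hu : Co l g ≃+* Co l g) : Co l g →+* Co l g).comp
      (NrmX_bc φ h) =
      (NrmX_bc φ h).comp ((sig (l := l) (f := f) hu : Co l f ≃+* Co l f) : Co l f →+* Co l f) := by
    apply hom_ext
    · intro p
      change sig (l := l) (f := g) hu (NrmX_bc φ h (po l f p)) =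
        NrmX_bc φ h (sig (l := l) (f := f) hu (po l f p))
      rw [NrmX_bc_po, NrmX_sig_po, NrmX_sig_po, NrmX_bc_po]
    · change sig (l := l) (f := g) hu (NrmX_bc φ h (yy l f)) =
        NrmX_bc φ h (sig (l := l) (f := f) hu (yy l f))
      rw [NrmX_bc_yy, NrmX_sig_yy, NrmX_sig_yy, map_mul, NrmX_bc_po, NrmX_bc_yy, hφ]
  exact RingHom.congr_fun e x

private theorem NrmX_cyc {M : Type} [CommMonoid M] (G : ℕ → M) (n : ℕ) (h : G n = G 0) :
    ∏ k ∈ Finset.range n, G (k + 1) = ∏ k ∈ Finset.range n, G k := by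
  cases n with
  | zero => rfl
  | succ m => rw [Finset.prod_range_succ, Finset.prod_range_succ', h]

private theorem NrmX_sig_succ {ζ : F} (hz : ζ ^ l = 1) (k : ℕ) (h : Co l f) :
    sig (l := l) (f := f) (zpow_pow hz k) (sig (l := l) (f := f) hz h) =
      sig (l := l) (f := f) (zpow_pow hz (k + 1)) h := by
  rw [NrmX_sig_sig]
  exact NrmX_sig_congr _ _ (pow_succ ζ k).symm h

/-- the conjugates of a conjugate -/
private theorem NrmX_shift {ζ : F} (hz : ζ ^ l = 1) (h : Co l f) :
    pc hz (sig (l := l) (f := f) hz h) = pc hz h := by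
  unfold pc
  rw [Finset.prod_congr rfl fun k _ => NrmX_sig_succ hz k h]
  exact NrmX_cyc (fun k => sig (l := l) (f := f) (zpow_pow hz k) h) l
    (NrmX_sig_congr _ _ (by rw [hz, pow_zero]) h)

private theorem NrmX_pc_mul {ζ : F} (hz : ζ ^ l = 1) (g h : Co l f) :
    pc hz (g * h) = pc hz g * pc hz h := by
  unfold pc
  rw [← Finset.prod_mul_distrib]
  exact Finset.prod_congr rfl fun k _ => map_mul _ _ _

private theorem NrmX_pc_po {ζ : F} (hz : ζ ^ l = 1) (p : F[X]) :
    pc hz (po l f p) = po l f p ^ l := by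
  unfold pc
  rw [Finset.prod_congr rfl fun k _ => NrmX_sig_po (zpow_pow hz k) p, Finset.prod_const,
    Finset.card_range]

private theorem NrmX_pc_bc {f g : F[X]} (φ : F[X] →+* F[X]) (h : φ f = g)
    (hφ : ∀ c : F, φ (C c) = C c) {ζ : F} (hz : ζ ^ l = 1) (x : Co l f) :
    pc hz (NrmX_bc φ h x) = NrmX_bc φ h (pc hz x) := by
  unfold pc
  rw [map_prod]
  exact Finset.prod_congr rfl fun k _ => NrmX_sig_bc φ h hφ _ x

private theorem NrmX_pc_eq_zero [IsDomain (Co l f)] {ζ : F} (hz : ζ ^ l = 1) {x : Co l f}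
    (h : pc hz x = 0) : x = 0 := by
  obtain ⟨k, -, hk⟩ := Finset.prod_eq_zero_iff.mp h
  exact (map_eq_zero_iff _ (RingEquiv.injective _)).mp hk

private theorem NrmX_dec (x0 : F) (p : F[X]) :
    ∃ P : ℕ → F[X], p = ∑ m ∈ Finset.range l, X ^ m * (P m).comp (C x0 - X ^ l) := by
  have hl : l.Prime := Fact.out
  induction p using Polynomial.induction_on' with
  | add p p' h h' =>
    obtain ⟨P, hP⟩ := h
    obtain ⟨P', hP'⟩ := h'
    refine ⟨fun m => P m + P' m, ?_⟩
    conv_lhs => rw [hP, hP']
    rw [← Finset.sum_add_distrib]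
    exact Finset.sum_congr rfl fun m _ => by rw [add_comp, mul_add]
  | monomial n a =>
    refine ⟨fun m => if m = n % l then C a * (C x0 - X) ^ (n / l) else 0, ?_⟩
    rw [Finset.sum_eq_single (n % l)]
    · dsimp only
      rw [if_pos rfl, mul_comp, C_comp, pow_comp, sub_comp, C_comp, X_comp, sub_sub_cancel,
        ← pow_mul, mul_left_comm, ← pow_add, Nat.mod_add_div, C_mul_X_pow_eq_monomial]
    · intro m _ hm
      dsimp only
      rw [if_neg hm, zero_comp, mul_zero]
    · intro h
      exact absurd (Finset.mem_range.mpr (Nat.mod_lt _ hl.pos)) h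

private theorem NrmX_Gp (x0 : F) {ζ : F} (hz : IsPrimitiveRoot ζ l) (r : F → F)
    (hr : ∀ a, r a ^ l = x0 - a) (s : Multiset F) :
    ∏ k ∈ Finset.range l, ((s.map fun a => C (r a) - X).prod).comp (C (ζ ^ k) * X) =
      ((s.map fun a => X - C a).prod).comp (C x0 - X ^ l) := by
  induction s using Multiset.induction_on with
  | empty => simp
  | cons a s ih =>
    simp only [Multiset.map_cons, Multiset.prod_cons, mul_comp]
    rw [Finset.prod_mul_distrib, ih]
    congr 1
    have h1 : ∀ k, (C (r a) - X : F[X]).comp (C (ζ ^ k) * X) = C (r a) - (C ζ) ^ k * X := by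
      intro k
      rw [sub_comp, C_comp, X_comp, C_pow]
    rw [Finset.prod_congr rfl fun k _ => h1 k,
      NrmX_prod (hz.map_of_injective (C_injective (R := F))) (C (r a)) X, ← C_pow, hr, sub_comp,
      X_comp, C_comp, C_sub]
    ring

theorem exists_norm_X [Sup l f] [IsSepClosed F] {ζ : F} (hz : IsPrimitiveRoot ζ l) (x0 : F) :
    ∃ α β : Co l f, α ≠ 0 ∧ β ≠ 0 ∧
      pc hz.pow_eq_one α = po l f (X - C x0) * pc hz.pow_eq_one β := by
  classical
  have hl : l.Prime := Fact.out
  have hlF : (l : F) ≠ 0 := Sup.ne f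
  have hnz : NeZero (l : F) := ⟨hlF⟩
  have hodd : Odd l := hl.odd_of_ne_two (Sup.odd f)
  have hz0 : ζ ≠ 0 := hz.ne_zero hl.ne_zero
  have hex : ∀ a : F, ∃ r : F, r ^ l = x0 - a := fun a => IsSepClosed.exists_pow_nat_eq (x0 - a) l
  choose r hr using hex
  have hsep : f.Separable := Sup.sep l
  have hsp := IsSepClosed.splits_of_separable f hsep
  have hmon : f.Monic := Mc.monic l
  have hf : (f.roots.map fun a => X - C a).prod = f := (hsp.eq_prod_roots_of_monic hmon).symm
  -- a root of `f` different from `x0`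
  obtain ⟨a, ha, hax⟩ : ∃ a, f.eval a = 0 ∧ a ≠ x0 := by
    by_contra hcon
    push Not at hcon
    have h1 : f.roots.toFinset ⊆ {x0} := by
      intro a ha
      rw [Finset.mem_singleton]
      exact hcon a (isRoot_of_mem_roots (Multiset.mem_toFinset.mp ha))
    have h2 := Finset.card_le_card h1
    rw [Finset.card_singleton, Multiset.toFinset_card_of_nodup (nodup_roots hsep),
      splits_iff_card_roots.mp hsp] at h2
    have h3 : 2 ≤ f.natDegree := Sup.two_le l
    omega
  set q : F[X] := C x0 - X ^ l with hq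
  set g : F[X] := f.comp q with hg
  have hc0 : r a ≠ 0 := by
    intro h
    have h1 := hr a
    rw [h, zero_pow hl.ne_zero] at h1
    exact hax (sub_eq_zero.mp h1.symm).symm
  have hqc : q.eval (r a) = a := by
    rw [hq, eval_sub, eval_C, eval_pow, eval_X, hr, sub_sub_cancel]
  have hdom : IsDomain (Co l g) := by
    refine NrmX_dom (c := r a) ?_ ?_
    · rw [hg, eval_comp, hqc, ha]
    · rw [hg, derivative_comp, eval_mul, eval_comp, hqc]
      refine mul_ne_zero ?_ ?_
      · rw [hq, derivative_sub, derivative_C, zero_sub, derivative_X_pow, eval_neg, eval_mul,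
          eval_pow, eval_X, neg_ne_zero]
        refine mul_ne_zero ?_ (pow_ne_zero _ hc0)
        rw [eval_C]
        exact hlF
      · have h1 := hsep.eval₂_derivative_ne_zero (RingHom.id F) (x := a) (by
          rw [eval₂_id]
          exact ha)
        rwa [eval₂_id] at h1
  -- the maps
  have hι : compRingHom q f = g := rfl
  have hτ' : q.comp (C ζ * X) = q := by
    rw [hq, sub_comp, C_comp, pow_comp, X_comp, mul_pow, ← C_pow, hz.pow_eq_one, C_1, one_mul]
  have hτ : compRingHom (C ζ * X) g = g := by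
    change (f.comp q).comp (C ζ * X) = f.comp q
    rw [comp_assoc, hτ']
  let ι : Co l f →+* Co l g := NrmX_bc (compRingHom q) hι
  let τ : Co l g →+* Co l g := NrmX_bc (compRingHom (C ζ * X)) hτ
  have hιC : ∀ c : F, compRingHom q (C c) = C c := fun c => C_comp
  have hτC : ∀ c : F, compRingHom (C ζ * X) (C c) = C c := fun c => C_comp
  have ι_po : ∀ p, ι (po l f p) = po l g (p.comp q) := fun p => NrmX_bc_po _ _ p
  have ι_yy : ι (yy l f) = yy l g := NrmX_bc_yy _ _
  have τ_po : ∀ p, τ (po l g p) = po l g (p.comp (C ζ * X)) := fun p => NrmX_bc_po _ _ p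
  have τ_yy : τ (yy l g) = yy l g := NrmX_bc_yy _ _
  have τι : ∀ x, τ (ι x) = ι x := by
    intro x
    have e : τ.comp ι = ι := by
      apply hom_ext
      · intro p
        change τ (ι (po l f p)) = ι (po l f p)
        rw [ι_po, τ_po, comp_assoc, hτ']
      · change τ (ι (yy l f)) = ι (yy l f)
        rw [ι_yy, τ_yy]
    exact RingHom.congr_fun e x
  have po_inj : Function.Injective (po l g) := by
    apply AdjoinRoot.of.injective_of_degree_ne_zero
    rw [degree_X_pow_sub_C hl.pos]
    exact_mod_cast hl.ne_zero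
  have ι_inj : Function.Injective ι := by
    rw [injective_iff_map_eq_zero]
    intro x hx
    apply co_ext
    intro j hj
    have h1 : ι x = ∑ j ∈ Finset.range l, po l g ((cf x j).comp q) * yy l g ^ j := by
      conv_lhs => rw [eq_sum x]
      rw [map_sum]
      exact Finset.sum_congr rfl fun j _ => by rw [map_mul, map_pow, ι_po, ι_yy]
    have h2 := cf_sum (l := l) (f := g) (fun j => (cf x j).comp q) hj
    rw [← h1, hx, cf_zero] at h2
    rw [cf_zero]
    rcases comp_eq_zero_iff.mp h2.symm with h3 | ⟨-, h3⟩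
    · exact h3
    · exfalso
      have h4 := congrArg natDegree h3
      rw [natDegree_C, hq] at h4
      have h5 : (C x0 - X ^ l : F[X]).natDegree = l := by
        rw [← neg_sub, natDegree_neg, natDegree_X_pow_sub_C]
      rw [h5] at h4
      exact hl.ne_zero h4
  -- the polynomials
  let Gp : F[X] := (f.roots.map fun a => C (r a) - X).prod
  have hGp : ∏ k ∈ Finset.range l, Gp.comp (C (ζ ^ k) * X) = g := by
    have h1 := NrmX_Gp x0 hz r hr f.roots
    rw [hf] at h1
    exact h1
  let Gk : ℕ → F[X] := fun k => ∏ i ∈ Finset.range k, Gp.comp (C (ζ ^ i) * X)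
  have hGk0 : Gk 0 = 1 := rfl
  have hGkl : Gk l = g := hGp
  have hGks : ∀ k, Gp * (Gk k).comp (C ζ * X) = Gk (k + 1) := by
    intro k
    change Gp * (∏ i ∈ Finset.range k, Gp.comp (C (ζ ^ i) * X)).comp (C ζ * X) =
      ∏ i ∈ Finset.range (k + 1), Gp.comp (C (ζ ^ i) * X)
    rw [prod_comp, Finset.prod_range_succ', pow_zero, C_1, one_mul, comp_X, mul_comm]
    congr 1
    refine Finset.prod_congr rfl fun i _ => ?_
    rw [comp_assoc, mul_comp, C_comp, X_comp, ← mul_assoc, ← C_mul, ← pow_succ]
  let u : ℕ → Co l g := fun k => po l g (Gk k) * yy l g ^ (l - k)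
  let B : Co l g := ∑ k ∈ Finset.range l, po l g (Gk k) * yy l g ^ (l - 1 - k)
  have rel1 : po l g Gp * τ B = yy l g * B := by
    have h1 : po l g Gp * τ B = ∑ k ∈ Finset.range l, u (k + 1) := by
      change po l g Gp * τ (∑ k ∈ Finset.range l, po l g (Gk k) * yy l g ^ (l - 1 - k)) = _
      rw [map_sum, Finset.mul_sum]
      refine Finset.sum_congr rfl fun k _ => ?_
      rw [map_mul, map_pow, τ_po, τ_yy, ← mul_assoc, ← map_mul, hGks]
      change _ = po l g (Gk (k + 1)) * yy l g ^ (l - (k + 1))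
      rw [Nat.sub_sub, Nat.add_comm 1 k]
    have h2 : yy l g * B = ∑ k ∈ Finset.range l, u k := by
      change yy l g * (∑ k ∈ Finset.range l, po l g (Gk k) * yy l g ^ (l - 1 - k)) = _
      rw [Finset.mul_sum]
      refine Finset.sum_congr rfl fun k hk => ?_
      have hk' := Finset.mem_range.mp hk
      change _ = po l g (Gk k) * yy l g ^ (l - k)
      rw [mul_left_comm, ← pow_succ', show l - 1 - k + 1 = l - k by omega]
    have h3 : u 0 = u l := by
      change po l g (Gk 0) * yy l g ^ (l - 0) = po l g (Gk l) * yy l g ^ (l - l)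
      rw [hGk0, hGkl, map_one, one_mul, Nat.sub_zero, Nat.sub_self, pow_zero, mul_one, yy_pow]
    rw [h1, h2]
    have h4 := Finset.sum_range_succ u l
    have h5 := Finset.sum_range_succ' u l
    rw [h4, ← h3] at h5
    exact (add_right_cancel h5).symm
  -- the decomposition of `B`
  obtain ⟨b, hb, hb0⟩ : ∃ b : ℕ → Co l f, B = ∑ m ∈ Finset.range l, po l g X ^ m * ι (b m) ∧
      cf (b 0) (l - 1) = 1 := by
    have h1 : ∀ k, ∃ P : ℕ → F[X], Gk k = ∑ m ∈ Finset.range l, X ^ m * (P m).comp q ∧
        (k = 0 → P 0 = 1) := by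
      intro k
      by_cases hk : k = 0
      · refine ⟨fun m => if m = 0 then 1 else 0, ?_, fun _ => if_pos rfl⟩
        rw [hk, hGk0, Finset.sum_eq_single 0]
        · dsimp only
          rw [if_pos rfl, pow_zero, one_comp, mul_one]
        · intro m _ hm
          dsimp only
          rw [if_neg hm, zero_comp, mul_zero]
        · intro h
          exact absurd (Finset.mem_range.mpr hl.pos) h
      · obtain ⟨P, hP⟩ := NrmX_dec (l := l) x0 (Gk k)
        exact ⟨P, hP, fun h => absurd h hk⟩
    choose P hP hP0 using h1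
    refine ⟨fun m => ∑ k ∈ Finset.range l, po l f (P k m) * yy l f ^ (l - 1 - k), ?_, ?_⟩
    · change (∑ k ∈ Finset.range l, po l g (Gk k) * yy l g ^ (l - 1 - k)) = _
      have h2 : ∀ m, po l g X ^ m * ι (∑ k ∈ Finset.range l, po l f (P k m) * yy l f ^ (l - 1 - k)) =
          ∑ k ∈ Finset.range l, po l g (X ^ m * (P k m).comp q) * yy l g ^ (l - 1 - k) := by
        intro m
        rw [map_sum, Finset.mul_sum]
        refine Finset.sum_congr rfl fun k _ => ?_
        rw [map_mul, map_pow, ι_po, ι_yy, ← mul_assoc, ← map_pow, ← map_mul]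
      rw [Finset.sum_congr rfl fun m _ => h2 m, Finset.sum_comm]
      refine Finset.sum_congr rfl fun k _ => ?_
      rw [← Finset.sum_mul, ← map_sum, ← hP k]
    · dsimp only
      have h3 : (∑ k ∈ Finset.range l, po l f (P k 0) * yy l f ^ (l - 1 - k)) =
          ∑ j ∈ Finset.range l, po l f (P (l - 1 - j) 0) * yy l f ^ j := by
        rw [← Finset.sum_range_reflect]
        refine Finset.sum_congr rfl fun k hk => ?_
        have hk' := Finset.mem_range.mp hk
        rw [show l - 1 - (l - 1 - k) = k by omega]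
      rw [h3, cf_sum (fun j => P (l - 1 - j) 0) (by have := hl.pos; omega : l - 1 < l),
        Nat.sub_self]
      exact hP0 0 rfl
  have hb00 : b 0 ≠ 0 := by
    intro h
    rw [h, cf_zero] at hb0
    exact zero_ne_one hb0
  have hB0 : B ≠ 0 := by
    intro h
    have h3 : B = ∑ j ∈ Finset.range l, po l g (Gk (l - 1 - j)) * yy l g ^ j := by
      change (∑ k ∈ Finset.range l, po l g (Gk k) * yy l g ^ (l - 1 - k)) = _
      rw [← Finset.sum_range_reflect]
      refine Finset.sum_congr rfl fun k hk => ?_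
      have hk' := Finset.mem_range.mp hk
      rw [show l - 1 - (l - 1 - k) = k by omega]
    have h4 := cf_sum (l := l) (f := g) (fun j => Gk (l - 1 - j))
      (by have := hl.pos; omega : l - 1 < l)
    rw [← h3, h, cf_zero, Nat.sub_self, hGk0] at h4
    exact zero_ne_one h4
  have hyy0 : yy l g ≠ 0 := by
    intro h
    have h3 : yy l g = ∑ j ∈ Finset.range l, po l g (if j = 1 then 1 else 0) * yy l g ^ j := by
      rw [Finset.sum_eq_single 1]
      · rw [if_pos rfl, map_one, one_mul, pow_one]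
      · intro m _ hm
        rw [if_neg hm, map_zero, zero_mul]
      · intro h
        exact absurd (Finset.mem_range.mpr hl.one_lt) h
    have h4 := cf_sum (l := l) (f := g) (fun j => if j = 1 then 1 else 0) hl.one_lt
    rw [← h3, h, cf_zero] at h4
    exact zero_ne_one (h4.trans (if_pos rfl))
  have hτB : τ B ≠ 0 := by
    intro h
    rw [h, mul_zero] at rel1
    exact mul_ne_zero hyy0 hB0 rel1.symm
  have hGp0 : po l g Gp ≠ 0 := by
    intro h
    rw [h, zero_mul] at rel1
    exact mul_ne_zero hyy0 hB0 rel1.symm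
  let σ : Co l g ≃+* Co l g := sig (l := l) (f := g) hz.pow_eq_one
  have σ_po : ∀ p, σ (po l g p) = po l g p := fun p => NrmX_sig_po _ p
  have σ_τ : ∀ x, σ (τ x) = τ (σ x) := fun x => NrmX_sig_bc _ _ hτC _ x
  have rel2 : po l g Gp * τ (σ B) = po l g (C ζ⁻¹) * yy l g * σ B := by
    have h1 := congrArg σ rel1
    rw [map_mul, map_mul, σ_po, σ_τ] at h1
    rw [h1]
    congr 1
    exact NrmX_sig_yy _
  have hCC : po l g (C ζ) * po l g (C ζ⁻¹) = 1 := by
    rw [← map_mul, ← C_mul, mul_inv_cancel₀ hz0, C_1, map_one]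
  have hτX : τ (po l g X) = po l g (C ζ) * po l g X := by
    rw [τ_po, X_comp, map_mul]
  let A : Co l g := po l g X * σ B
  have rel3 : τ A * B = A * τ B := by
    apply mul_left_cancel₀ hGp0
    have h1 : τ A = po l g (C ζ) * po l g X * τ (σ B) := by
      change τ (po l g X * σ B) = _
      rw [map_mul, hτX]
    rw [h1]
    change po l g Gp * (po l g (C ζ) * po l g X * τ (σ B) * B) =
      po l g Gp * (po l g X * σ B * τ B)
    calc po l g Gp * (po l g (C ζ) * po l g X * τ (σ B) * B)
        = po l g (C ζ) * po l g X * (po l g Gp * τ (σ B)) * B := by ring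
      _ = (po l g (C ζ) * po l g (C ζ⁻¹)) * (po l g X * yy l g * σ B * B) := by rw [rel2]; ring
      _ = po l g X * σ B * (yy l g * B) := by rw [hCC]; ring
      _ = po l g Gp * (po l g X * σ B * τ B) := by rw [← rel1]; ring
  have rel4 : ∀ k, τ^[k] A * B = A * τ^[k] B := by
    intro k
    induction k with
    | zero => rfl
    | succ k ih =>
      rw [Function.iterate_succ_apply', Function.iterate_succ_apply']
      have h1 := congrArg τ ih
      rw [map_mul, map_mul] at h1
      apply mul_left_cancel₀ hτB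
      calc τ B * (τ (τ^[k] A) * B) = (τ (τ^[k] A) * τ B) * B := by ring
        _ = τ A * τ (τ^[k] B) * B := by rw [h1]
        _ = (τ A * B) * τ (τ^[k] B) := by ring
        _ = A * τ B * τ (τ^[k] B) := by rw [rel3]
        _ = τ B * (A * τ (τ^[k] B)) := by ring
  have hit : ∀ (e : ℕ → ℕ) (c : ℕ → Co l f) (k : ℕ),
      τ^[k] (∑ m ∈ Finset.range l, po l g X ^ e m * ι (c m)) =
        ∑ m ∈ Finset.range l, po l g (C (ζ ^ (k * e m))) * (po l g X ^ e m * ι (c m)) := by
    intro e c k
    induction k with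
    | zero =>
      refine Finset.sum_congr rfl fun m _ => ?_
      rw [Nat.zero_mul, pow_zero, C_1, map_one, one_mul]
    | succ k ih =>
      rw [Function.iterate_succ_apply', ih, map_sum]
      refine Finset.sum_congr rfl fun m _ => ?_
      have e1 : τ (po l g X ^ e m) = (po l g (C ζ) * po l g X) ^ e m := by rw [map_pow, hτX]
      have e2 : τ (po l g (C (ζ ^ (k * e m)))) = po l g (C (ζ ^ (k * e m))) := by
        rw [τ_po, C_comp]
      have e3 : po l g (C (ζ ^ ((k + 1) * e m))) =
          po l g (C (ζ ^ (k * e m))) * po l g (C ζ) ^ e m := by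
        rw [Nat.succ_mul, pow_add, C_mul, map_mul]
        congr 1
        rw [C_pow, map_pow]
      rw [map_mul, map_mul, e1, e2, e3, τι, mul_pow]
      ring
  have havg : ∀ (e : ℕ → ℕ) (c : ℕ → Co l f) (m0 : ℕ), m0 < l →
      (∀ m < l, ζ⁻¹ * ζ ^ e m = 1 ↔ m = m0) →
      ∑ k ∈ Finset.range l, po l g (C (ζ⁻¹ ^ k)) *
        τ^[k] (∑ m ∈ Finset.range l, po l g X ^ e m * ι (c m)) =
        po l g (C (l : F)) * (po l g X ^ e m0 * ι (c m0)) := by
    intro e c m0 hm0 he
    have h1 : ∀ k, po l g (C (ζ⁻¹ ^ k)) *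
        τ^[k] (∑ m ∈ Finset.range l, po l g X ^ e m * ι (c m)) =
        ∑ m ∈ Finset.range l, po l g (C ((ζ⁻¹ * ζ ^ e m) ^ k)) * (po l g X ^ e m * ι (c m)) := by
      intro k
      rw [hit, Finset.mul_sum]
      refine Finset.sum_congr rfl fun m _ => ?_
      rw [← mul_assoc, ← map_mul, ← C_mul, mul_pow, ← pow_mul, mul_comm (e m) k]
    rw [Finset.sum_congr rfl fun k _ => h1 k, Finset.sum_comm]
    have h2 : ∀ m ∈ Finset.range l,
        ∑ k ∈ Finset.range l, po l g (C ((ζ⁻¹ * ζ ^ e m) ^ k)) * (po l g X ^ e m * ι (c m)) =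
        if m = m0 then po l g (C (l : F)) * (po l g X ^ e m0 * ι (c m0)) else 0 := by
      intro m hm
      rw [← Finset.sum_mul, ← map_sum, ← map_sum, NrmX_geom (l := l) (by
        rw [mul_pow, inv_pow, hz.pow_eq_one, inv_one, one_mul, ← pow_mul, mul_comm, pow_mul,
          hz.pow_eq_one, one_pow])]
      by_cases h : m = m0
      · rw [if_pos h, if_pos ((he m (Finset.mem_range.mp hm)).mpr h), h]
      · rw [if_neg h, if_neg (fun h' => h ((he m (Finset.mem_range.mp hm)).mp h')), C_0, map_zero,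
          zero_mul]
    rw [Finset.sum_congr rfl h2, Finset.sum_ite_eq' (Finset.range l) m0,
      if_pos (Finset.mem_range.mpr hm0)]
  have hA : A = ∑ m ∈ Finset.range l, po l g X ^ (m + 1) *
      ι (sig (l := l) (f := f) hz.pow_eq_one (b m)) := by
    change po l g X * σ B = _
    rw [hb, map_sum, Finset.mul_sum]
    refine Finset.sum_congr rfl fun m _ => ?_
    have h1 : σ (ι (b m)) = ι (sig (l := l) (f := f) hz.pow_eq_one (b m)) :=
      NrmX_sig_bc _ _ hιC _ _
    rw [map_mul, map_pow, σ_po, h1, pow_succ']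
    ring
  have avA := havg (fun m => m + 1) (fun m => sig (l := l) (f := f) hz.pow_eq_one (b m)) 0 hl.pos
    (by
      intro m hm
      rw [pow_succ', inv_mul_cancel_left₀ hz0]
      constructor
      · intro h
        exact hz.pow_inj hm hl.pos (h.trans (pow_zero ζ).symm)
      · rintro rfl
        rw [pow_zero])
  have avB := havg (fun m => m) b 1 hl.one_lt (by
      intro m hm
      constructor
      · intro h
        have h1 : ζ ^ m = ζ ^ 1 := by
          rw [pow_one]
          have h2 := congrArg (fun z => ζ * z) h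
          simp only [mul_inv_cancel_left₀ hz0, mul_one] at h2
          exact h2
        exact hz.pow_inj hm hl.one_lt h1
      · rintro rfl
        rw [pow_one, inv_mul_cancel₀ hz0])
  rw [← hA] at avA
  rw [← hb] at avB
  have hX0 : po l g X ≠ 0 := by
    intro h
    exact X_ne_zero (po_inj (h.trans (map_zero _).symm))
  have hCl : po l g (C (l : F)) ≠ 0 := by
    intro h
    exact C_ne_zero.mpr hlF (po_inj (h.trans (map_zero _).symm))
  have rel5 : ι (sig (l := l) (f := f) hz.pow_eq_one (b 0)) * B = A * ι (b 1) := by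
    have h1 : (∑ k ∈ Finset.range l, po l g (C (ζ⁻¹ ^ k)) * τ^[k] A) * B =
        A * ∑ k ∈ Finset.range l, po l g (C (ζ⁻¹ ^ k)) * τ^[k] B := by
      rw [Finset.sum_mul, Finset.mul_sum]
      refine Finset.sum_congr rfl fun k _ => ?_
      rw [mul_assoc, rel4]
      ring
    rw [avA, avB] at h1
    apply mul_left_cancel₀ (mul_ne_zero hCl hX0)
    simp only [zero_add, pow_one] at h1
    calc po l g (C (l : F)) * po l g X *
          (ι (sig (l := l) (f := f) hz.pow_eq_one (b 0)) * B)
        = po l g (C (l : F)) * (po l g X * ι (sig (l := l) (f := f) hz.pow_eq_one (b 0))) * B := by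
          ring
      _ = A * (po l g (C (l : F)) * (po l g X * ι (b 1))) := h1
      _ = po l g (C (l : F)) * po l g X * (A * ι (b 1)) := by ring
  have rel6 : pc hz.pow_eq_one (b 0) = po l f (C x0 - X) * pc hz.pow_eq_one (b 1) := by
    have h1 := congrArg (pc hz.pow_eq_one) rel5
    have h2 : pc hz.pow_eq_one A = po l g X ^ l * pc hz.pow_eq_one B := by
      change pc hz.pow_eq_one (po l g X * σ B) = _
      rw [NrmX_pc_mul, NrmX_pc_po]
      congr 1
      exact NrmX_shift _ B
    have h3 : ∀ x, pc hz.pow_eq_one (ι x) = ι (pc hz.pow_eq_one x) := fun x =>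
      NrmX_pc_bc _ _ hιC _ x
    rw [NrmX_pc_mul, NrmX_pc_mul, h2, h3, h3, NrmX_shift] at h1
    have h4 : pc hz.pow_eq_one B ≠ 0 := fun h => hB0 (NrmX_pc_eq_zero _ h)
    apply ι_inj
    rw [map_mul, ι_po, sub_comp, C_comp, X_comp, hq, sub_sub_cancel, map_pow]
    apply mul_right_cancel₀ h4
    rw [h1]
    ring
  have hb1 : b 1 ≠ 0 := by
    intro h
    rw [h] at rel6
    have h1 : pc hz.pow_eq_one (0 : Co l f) = 0 := by
      unfold pc
      refine Finset.prod_eq_zero (Finset.mem_range.mpr hl.pos) (map_zero _)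
    rw [h1, mul_zero] at rel6
    exact hb00 (NrmX_pc_eq_zero _ rel6)
  refine ⟨-b 0, b 1, neg_ne_zero.mpr hb00, hb1, ?_⟩
  have h1 : pc hz.pow_eq_one (-b 0) = - pc hz.pow_eq_one (b 0) := by
    unfold pc
    rw [Finset.prod_congr rfl fun k _ => map_neg _ _, Finset.prod_neg, Finset.card_range,
      hodd.neg_one_pow, neg_one_mul]
  rw [h1, rel6, ← neg_mul, ← map_neg, neg_sub]

end Pool.Agent.SmS
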