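import Pool.Agent.Lib.SmS.Defs

/-!
SMITH-S, section 1 of the paper (team-store SmS_paper.md): the order at infinity.

`LT h = ∑ j < l, h_j (T ^ l) T ^ (n j)`; the exponents `l i + n j` (`j < l`) are distinct. `ord h` = the
degree, `lcc h` = the leading coefficient. On monomials the product `x ^ i y ^ j x ^ i' y ^ j'` is
`x ^ (i + i') y ^ (j + j')` or `x ^ (i + i') f(x) y ^ (j + j' - l)`, `f` monic of degree `n`, so
`LT (g h) = LT g LT h +` terms of smaller degree.
-/

set_option autoImplicit false

open Polynomial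

namespace Pool.Agent.SmS

variable {l : ℕ} {F : Type} [Field F] {f : F[X]} [Fact l.Prime]

/-- The leading term polynomial. -/
noncomputable def LT (h : Co l f) : F[X] :=
  ∑ j ∈ Finset.range l, expand F l (cf h j) * X ^ (f.natDegree * j)

/-- The pole order at infinity. -/
noncomputable def ord (h : Co l f) : ℕ := (LT h).natDegree

/-- The leading coefficient at infinity. -/
noncomputable def lcc (h : Co l f) : F := (LT h).leadingCoeff

/-- The `j < l` with `n j = m` modulo `l`. -/
def jx (l n m : ℕ) : ℕ := ((m : ZMod l) * (n : ZMod l)⁻¹).val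

theorem LT_add (g h : Co l f) : LT (g + h) = LT g + LT h := by
  simp only [LT, cf_add, map_add, add_mul, Finset.sum_add_distrib]

theorem LT_sub (g h : Co l f) : LT (g - h) = LT g - LT h := by
  simp only [LT, cf_sub, map_sub, sub_mul, Finset.sum_sub_distrib]

theorem LT_C_mul (c : F) (h : Co l f) : LT (po l f (C c) * h) = C c * LT h := by
  simp only [LT, cf_po_mul, map_mul, expand_C, Finset.mul_sum, mul_assoc]

private theorem LT_mono (p : F[X]) {j : ℕ} (hj : j < l) :
    LT (po l f p * yy l f ^ j) = expand F l p * X ^ (f.natDegree * j) := by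
  have e : po l f p * yy l f ^ j =
      ∑ i ∈ Finset.range l, po l f (if i = j then p else 0) * yy l f ^ i := by
    rw [Finset.sum_eq_single_of_mem j (Finset.mem_range.mpr hj), if_pos rfl]
    intro b _ hb
    rw [if_neg hb, map_zero, zero_mul]
  rw [LT, Finset.sum_eq_single_of_mem j (Finset.mem_range.mpr hj)]
  · rw [e, cf_sum _ hj, if_pos rfl]
  · intro b hb hbj
    rw [e, cf_sum _ (Finset.mem_range.mp hb), if_neg hbj, map_zero, zero_mul]

private theorem LT_sum {ι : Type} (s : Finset ι) (g : ι → Co l f) :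
    LT (∑ i ∈ s, g i) = ∑ i ∈ s, LT (g i) := by
  classical
  induction s using Finset.induction_on with
  | empty =>
    rw [Finset.sum_empty, Finset.sum_empty, LT]
    refine Finset.sum_eq_zero fun j _ => ?_
    rw [cf_zero, map_zero, zero_mul]
  | insert a s ha ih => rw [Finset.sum_insert ha, Finset.sum_insert ha, LT_add, ih]

private theorem LT_zero : LT (0 : Co l f) = 0 := by
  have h := LT_sum (l := l) (f := f) (∅ : Finset ℕ) fun _ => 0
  simpa using h

variable [Mc l f]

omit [Fact l.Prime] [Mc l f] in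
private theorem coe_mono (p : F[X]) (hl : 0 < l) (j m : ℕ) :
    (expand F l p * X ^ (f.natDegree * j)).coeff m ≠ 0 →
    ∃ i, m = l * i + f.natDegree * j ∧ p.coeff i ≠ 0 := by
  intro h
  rw [coeff_mul_X_pow'] at h
  split_ifs at h with h1
  · rw [coeff_expand hl] at h
    split_ifs at h with h2
    · refine ⟨(m - f.natDegree * j) / l, ?_, h⟩
      rw [Nat.mul_div_cancel' h2]
      omega
    · exact absurd rfl h
  · exact absurd rfl h

private theorem inj_exp {i j i' j' : ℕ} (hj : j < l) (hj' : j' < l)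
    (e : l * i + f.natDegree * j = l * i' + f.natDegree * j') : j = j' ∧ i = i' := by
  have hl : l.Prime := Fact.out
  have hc := CopDeg.cop (l := l) (f := f)
  have e1 : f.natDegree * j ≡ f.natDegree * j' [MOD l] := by
    have h1 : l * i + f.natDegree * j ≡ f.natDegree * j [MOD l] := by
      simp [Nat.ModEq]
    have h2 : l * i' + f.natDegree * j' ≡ f.natDegree * j' [MOD l] := by
      simp [Nat.ModEq]
    rw [e] at h1
    exact h1.symm.trans h2
  have e2 : j ≡ j' [MOD l] := Nat.ModEq.cancel_left_of_coprime hc.gcd_eq_one e1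
  have e3 : j = j' := Nat.ModEq.eq_of_lt_of_lt e2 hj hj'
  subst e3
  refine ⟨rfl, ?_⟩
  have e4 : l * i = l * i' := by omega
  exact Nat.eq_of_mul_eq_mul_left hl.pos e4

private theorem coeff_LT (h : Co l f) {i j : ℕ} (hj : j < l) :
    (LT h).coeff (l * i + f.natDegree * j) = (cf h j).coeff i := by
  have hl : l.Prime := Fact.out
  rw [LT, finsetSum_coeff, Finset.sum_eq_single_of_mem j (Finset.mem_range.mpr hj)]
  · rw [coeff_mul_X_pow, mul_comm, coeff_expand_mul hl.pos]
  · intro b hb hbj
    by_contra h1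
    obtain ⟨i', h2, _⟩ := coe_mono (f := f) _ hl.pos _ _ h1
    exact hbj (inj_exp (f := f) hj (Finset.mem_range.mp hb) h2).1.symm

omit [Mc l f] in
private theorem exists_form (h : Co l f) {m : ℕ} (hm : (LT h).coeff m ≠ 0) :
    ∃ i j : ℕ, j < l ∧ m = l * i + f.natDegree * j := by
  have hl : l.Prime := Fact.out
  rw [LT, finsetSum_coeff] at hm
  obtain ⟨j, hj, h1⟩ := Finset.exists_ne_zero_of_sum_ne_zero hm
  obtain ⟨i, h2, _⟩ := coe_mono (f := f) _ hl.pos _ _ h1
  exact ⟨i, j, Finset.mem_range.mp hj, h2⟩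

theorem LT_eq_zero {h : Co l f} : LT h = 0 ↔ h = 0 := by
  constructor
  · intro h0
    apply co_ext
    intro j hj
    ext1 i
    rw [← coeff_LT h hj, h0, coeff_zero, cf_zero, coeff_zero]
  · rintro rfl
    exact LT_zero

/-- Every degree is `l i + n j` with `j < l`. -/
theorem ord_form {h : Co l f} (hh : h ≠ 0) : ∃ i j : ℕ, j < l ∧ ord h = l * i + f.natDegree * j := by
  apply exists_form h
  rw [ord, ← leadingCoeff]
  exact leadingCoeff_ne_zero.mpr fun h0 => hh (LT_eq_zero.mp h0)

private theorem term_le (h : Co l f) {a : ℕ} (ha : (LT h).degree ≤ a) {j : ℕ} (hj : j < l) :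
    (expand F l (cf h j) * X ^ (f.natDegree * j)).degree ≤ ((a : ℕ) : WithBot ℕ) := by
  have hl : l.Prime := Fact.out
  rw [degree_le_iff_coeff_zero]
  intro m hm
  by_contra h1
  obtain ⟨i, h2, h3⟩ := coe_mono (f := f) _ hl.pos _ _ h1
  rw [← coeff_LT h hj, ← h2] at h3
  exact absurd (lt_of_lt_of_le hm (le_degree_of_ne_zero h3)) (not_lt.mpr ha)

private theorem deg_f : (expand F l f - X ^ (l * f.natDegree)).degree <
    ((l * f.natDegree : ℕ) : WithBot ℕ) := by
  have hl : l.Prime := Fact.out
  have h1 : (expand F l f).Monic := (Mc.monic (l := l) (f := f)).expand hl.pos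
  have h2 : (expand F l f).degree = ((l * f.natDegree : ℕ) : WithBot ℕ) := by
    rw [degree_eq_natDegree h1.ne_zero, natDegree_expand, mul_comm]
  rw [← h2]
  refine degree_sub_lt_left ?_ h1.ne_zero ?_
  · rw [degree_X_pow, h2]
  · rw [h1.leadingCoeff, leadingCoeff_X_pow]

private theorem mono_mul (p q : F[X]) {j j' : ℕ} (hj : j < l) (hj' : j' < l) {a b : ℕ}
    (ha : (expand F l p * X ^ (f.natDegree * j)).degree ≤ ((a : ℕ) : WithBot ℕ))
    (hb : (expand F l q * X ^ (f.natDegree * j')).degree ≤ ((b : ℕ) : WithBot ℕ)) :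
    LT (po l f p * yy l f ^ j * (po l f q * yy l f ^ j')) -
      expand F l p * X ^ (f.natDegree * j) * (expand F l q * X ^ (f.natDegree * j')) ∈
      degreeLT F (a + b) := by
  rcases lt_or_ge (j + j') l with h1 | h1
  · have e : po l f p * yy l f ^ j * (po l f q * yy l f ^ j') =
        po l f (p * q) * yy l f ^ (j + j') := by
      rw [map_mul, pow_add]
      ring
    rw [e, LT_mono _ h1]
    have e2 : expand F l (p * q) * X ^ (f.natDegree * (j + j')) -
      expand F l p * X ^ (f.natDegree * j) * (expand F l q * X ^ (f.natDegree * j')) = 0 := by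
      rw [map_mul, mul_add, pow_add]
      ring
    rw [e2]
    exact Submodule.zero_mem _
  · obtain ⟨d, hd⟩ := Nat.exists_eq_add_of_le h1
    have e : po l f p * yy l f ^ j * (po l f q * yy l f ^ j') =
        po l f (p * q * f) * yy l f ^ d := by
      have h2 : yy l f ^ j * yy l f ^ j' = po l f f * yy l f ^ d := by
        rw [← pow_add, hd, pow_add, yy_pow]
      calc _ = po l f p * po l f q * (yy l f ^ j * yy l f ^ j') := by ring
        _ = _ := by rw [h2, map_mul, map_mul]; ring
    have hdl : d < l := by omega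
    rw [e, LT_mono _ hdl]
    have e2 : expand F l (p * q * f) * X ^ (f.natDegree * d) -
        expand F l p * X ^ (f.natDegree * j) * (expand F l q * X ^ (f.natDegree * j')) =
        expand F l p * expand F l q * X ^ (f.natDegree * d) *
          (expand F l f - X ^ (l * f.natDegree)) := by
      have h3 : (X : F[X]) ^ (f.natDegree * j) * X ^ (f.natDegree * j') =
          X ^ (f.natDegree * d) * X ^ (l * f.natDegree) := by
        rw [← pow_add, ← pow_add, ← mul_add, hd]
        congr 1
        ring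
      calc _ = expand F l p * expand F l q * expand F l f * X ^ (f.natDegree * d) -
            expand F l p * expand F l q * (X ^ (f.natDegree * j) * X ^ (f.natDegree * j')) := by
              rw [map_mul, map_mul]; ring
        _ = _ := by rw [h3]; ring
    rw [e2, mem_degreeLT]
    by_cases hpq : expand F l p * expand F l q = 0
    · rw [hpq, zero_mul, zero_mul, degree_zero]
      exact WithBot.bot_lt_coe _
    · have h5 : (expand F l p * X ^ (f.natDegree * j) *
          (expand F l q * X ^ (f.natDegree * j'))).degree ≤ ((a + b : ℕ) : WithBot ℕ) := by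
        rw [degree_mul]
        push_cast
        exact add_le_add ha hb
      have h6 : (expand F l p * X ^ (f.natDegree * j) *
          (expand F l q * X ^ (f.natDegree * j'))).degree =
          (expand F l p * expand F l q * X ^ (f.natDegree * d)).degree +
            ((l * f.natDegree : ℕ) : WithBot ℕ) := by
        have h3 : (X : F[X]) ^ (f.natDegree * j) * X ^ (f.natDegree * j') =
            X ^ (f.natDegree * d) * X ^ (l * f.natDegree) := by
          rw [← pow_add, ← pow_add, ← mul_add, hd]
          congr 1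
          ring
        have h7 : expand F l p * X ^ (f.natDegree * j) *
            (expand F l q * X ^ (f.natDegree * j')) =
            expand F l p * expand F l q * X ^ (f.natDegree * d) * X ^ (l * f.natDegree) := by
          calc _ = expand F l p * expand F l q *
              (X ^ (f.natDegree * j) * X ^ (f.natDegree * j')) := by ring
            _ = _ := by rw [h3]; ring
        rw [h7, degree_mul, degree_X_pow]
      rw [degree_mul]
      refine lt_of_lt_of_le ?_ h5
      rw [h6]
      have h8 : (expand F l p * expand F l q * X ^ (f.natDegree * d)).degree ≠ ⊥ := by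
        rw [Ne, degree_eq_bot]
        exact mul_ne_zero hpq (pow_ne_zero _ X_ne_zero)
      exact WithBot.add_lt_add_left h8 deg_f

private theorem LT_mul (g h : Co l f) {a b : ℕ} (ha : (LT g).degree ≤ a)
    (hb : (LT h).degree ≤ b) : LT (g * h) - LT g * LT h ∈ degreeLT F (a + b) := by
  have e : LT (g * h) - LT g * LT h = ∑ j ∈ Finset.range l, ∑ j' ∈ Finset.range l,
      (LT (po l f (cf g j) * yy l f ^ j * (po l f (cf h j') * yy l f ^ j')) -
      expand F l (cf g j) * X ^ (f.natDegree * j) *
        (expand F l (cf h j') * X ^ (f.natDegree * j'))) := by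
    conv_lhs => rw [eq_sum g, eq_sum h, Finset.sum_mul_sum, LT_sum]
    simp only [Finset.sum_sub_distrib, LT_sum]
    congr 1
    rw [← Finset.sum_mul_sum]
    congr 1
    · refine Finset.sum_congr rfl fun j hj => ?_
      rw [LT_mono _ (Finset.mem_range.mp hj)]
    · refine Finset.sum_congr rfl fun j hj => ?_
      rw [LT_mono _ (Finset.mem_range.mp hj)]
  rw [e]
  refine Submodule.sum_mem _ fun j hj => Submodule.sum_mem _ fun j' hj' => ?_
  exact mono_mul _ _ (Finset.mem_range.mp hj) (Finset.mem_range.mp hj')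
    (term_le g ha (Finset.mem_range.mp hj)) (term_le h hb (Finset.mem_range.mp hj'))

private theorem LT_ne {h : Co l f} (hh : h ≠ 0) : LT h ≠ 0 := fun h0 => hh (LT_eq_zero.mp h0)

private theorem key {g h : Co l f} (hg : g ≠ 0) (hh : h ≠ 0) :
    (LT (g * h) - LT g * LT h).degree < (LT g * LT h).degree := by
  have h1 := LT_mul g h (degree_le_natDegree) (degree_le_natDegree)
  rw [mem_degreeLT] at h1
  rw [degree_mul, degree_eq_natDegree (LT_ne hg), degree_eq_natDegree (LT_ne hh)]
  exact_mod_cast h1

theorem lcc_mul (g h : Co l f) : lcc (g * h) = lcc g * lcc h := by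
  by_cases hg : g = 0
  · subst hg
    rw [zero_mul, lcc, lcc, LT_zero, leadingCoeff_zero, zero_mul]
  by_cases hh : h = 0
  · subst hh
    rw [mul_zero, lcc, lcc, LT_zero, leadingCoeff_zero, mul_zero]
  have h1 := leadingCoeff_add_of_degree_lt (key hg hh)
  rw [sub_add_cancel, leadingCoeff_mul] at h1
  exact h1

theorem ord_mul {g h : Co l f} (hg : g ≠ 0) (hh : h ≠ 0) : ord (g * h) = ord g + ord h := by
  have h1 := natDegree_add_eq_right_of_degree_lt (key hg hh)
  rw [sub_add_cancel, natDegree_mul (LT_ne hg) (LT_ne hh)] at h1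
  exact h1

theorem lcc_ne_zero {h : Co l f} : lcc h ≠ 0 ↔ h ≠ 0 := by
  rw [lcc, Ne, leadingCoeff_eq_zero, LT_eq_zero]

omit [Mc l f] in
private theorem LT_po (p : F[X]) : LT (po l f p) = expand F l p := by
  have hl : l.Prime := Fact.out
  have h := LT_mono (l := l) (f := f) p hl.pos
  rwa [pow_zero, mul_one, mul_zero, pow_zero, mul_one] at h

omit [Mc l f] in
private theorem LT_yy : LT (yy l f) = X ^ f.natDegree := by
  have hl : l.Prime := Fact.out
  have h := LT_mono (l := l) (f := f) 1 hl.one_lt
  rwa [pow_one, map_one, one_mul, mul_one, map_one, one_mul] at h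

theorem ord_po (p : F[X]) : ord (po l f p) = l * p.natDegree := by
  rw [ord, LT_po, natDegree_expand, mul_comm]

theorem lcc_po (p : F[X]) : lcc (po l f p) = p.leadingCoeff := by
  have hl : l.Prime := Fact.out
  rw [lcc, LT_po, leadingCoeff, natDegree_expand, coeff_expand_mul hl.pos, leadingCoeff]

theorem ord_yy : ord (yy l f) = f.natDegree := by
  rw [ord, LT_yy, natDegree_X_pow]

theorem lcc_yy : lcc (yy l f) = 1 := by
  rw [lcc, LT_yy, leadingCoeff_X_pow]

theorem ord_sub_lt {g h : Co l f} (h1 : ord g = ord h) (h2 : lcc g = lcc h) (h3 : g ≠ h) :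
    ord (g - h) < ord g := by
  have h4 : g - h ≠ 0 := sub_ne_zero.mpr h3
  have hg : g ≠ 0 := by
    rintro rfl
    apply h3
    symm
    by_contra h5
    rw [← Ne, ← lcc_ne_zero, ← h2] at h5
    apply h5
    rw [lcc, LT_zero, leadingCoeff_zero]
  have hh : h ≠ 0 := by
    rw [← lcc_ne_zero, ← h2, lcc_ne_zero]
    exact hg
  have h5 : (LT g - LT h).degree < (LT g).degree := by
    refine degree_sub_lt_left ?_ (LT_ne hg) h2
    rw [degree_eq_natDegree (LT_ne hg), degree_eq_natDegree (LT_ne hh)]
    exact congrArg _ h1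
  rw [ord, ord, LT_sub]
  refine natDegree_lt_natDegree ?_ h5
  rw [← LT_sub]
  exact LT_ne h4

theorem eq_C_of_ord {h : Co l f} (h0 : ord h = 0) : ∃ c : F, h = po l f (C c) := by
  refine ⟨(LT h).coeff 0, ?_⟩
  rw [← sub_eq_zero, ← LT_eq_zero, LT_sub, LT_po, expand_C, sub_eq_zero]
  exact eq_C_of_natDegree_eq_zero h0

theorem isUnit_co {h : Co l f} : IsUnit h ↔ ∃ c : F, c ≠ 0 ∧ h = po l f (C c) := by
  constructor
  · intro hu
    obtain ⟨g, hg⟩ := hu.exists_right_inv
    have hh : h ≠ 0 := hu.ne_zero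
    have hg0 : g ≠ 0 := by
      rintro rfl
      rw [mul_zero] at hg
      exact zero_ne_one hg
    have h1 := ord_mul hh hg0
    have h2 : ord (1 : Co l f) = 0 := by
      have h3 := ord_po (l := l) (f := f) 1
      rwa [map_one, natDegree_one, mul_zero] at h3
    rw [hg, h2] at h1
    obtain ⟨c, hc⟩ := eq_C_of_ord (h := h) (by omega)
    refine ⟨c, ?_, hc⟩
    rintro rfl
    rw [C_0, map_zero] at hc
    exact hh hc
  · rintro ⟨c, hc, rfl⟩
    exact ((isUnit_C.mpr hc.isUnit).map (po l f))

theorem ord_ne_one (h2 : 2 ≤ f.natDegree) (h : Co l f) : ord h ≠ 1 := by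
  have hl : l.Prime := Fact.out
  intro h1
  have hh : h ≠ 0 := by
    rintro rfl
    rw [ord, LT_zero, natDegree_zero] at h1
    exact zero_ne_one h1
  obtain ⟨i, j, _, h3⟩ := ord_form hh
  rw [h1] at h3
  have h4 := hl.two_le
  rcases Nat.eq_zero_or_pos i with rfl | hi
  · rcases Nat.eq_zero_or_pos j with rfl | hj
    · simp at h3
    · nlinarith [Nat.mul_le_mul h2 hj]
  · nlinarith [Nat.mul_le_mul h4 hi]

theorem ord_coMap (s : F ≃+* F) (hs : f.map (s : F →+* F) = f) (u : F) (hu : u ^ l = 1)
    (h : Co l f) : ord (coMap s hs u hu h) = ord h := by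
  by_cases hh : h = 0
  · subst hh
    rw [map_zero]
  have h1 : ∀ (h : Co l f) (m : ℕ), (LT (coMap s hs u hu h)).coeff m ≠ 0 ↔ (LT h).coeff m ≠ 0 := by
    intro h m
    by_cases hm : ∃ i j : ℕ, j < l ∧ m = l * i + f.natDegree * j
    · obtain ⟨i, j, hj, rfl⟩ := hm
      rw [coeff_LT _ hj, coeff_LT _ hj, cf_coMap _ _ _ _ _ hj, coeff_C_mul, coeff_map]
      have h2 : u⁻¹ ^ j ≠ 0 := pow_ne_zero _ (inv_ne_zero (ne_of_pow hu))
      rw [Ne, Ne, mul_eq_zero, not_or]
      constructor
      · rintro ⟨_, h3⟩ h4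
        rw [h4, map_zero] at h3
        exact h3 rfl
      · intro h3
        refine ⟨h2, fun h4 => h3 ?_⟩
        exact s.injective (h4.trans (map_zero s).symm)
    · constructor
      · intro h2
        exact absurd (exists_form _ h2) hm
      · intro h2
        exact absurd (exists_form _ h2) hm
  have h2 : coMap s hs u hu h ≠ 0 := fun h0 =>
    hh ((coMap s hs u hu).injective (h0.trans (map_zero _).symm))
  apply le_antisymm
  · exact le_natDegree_of_ne_zero ((h1 h _).mp (leadingCoeff_ne_zero.mpr (LT_ne h2)))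
  · exact le_natDegree_of_ne_zero ((h1 h _).mpr (leadingCoeff_ne_zero.mpr (LT_ne hh)))

theorem lcc_coMap (s : F ≃+* F) (hs : f.map (s : F →+* F) = f) (u : F) (hu : u ^ l = 1)
    (h : Co l f) :
    lcc (coMap s hs u hu h) = s (lcc h) * u⁻¹ ^ jx l f.natDegree (ord h) := by
  have hl : l.Prime := Fact.out
  by_cases hh : h = 0
  · subst hh
    rw [map_zero, lcc, LT_zero, leadingCoeff_zero, map_zero, zero_mul]
  obtain ⟨i, j, hj, h1⟩ := ord_form hh
  have h2 : ord (coMap s hs u hu h) = l * i + f.natDegree * j := by rw [ord_coMap, h1]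
  have hc := CopDeg.cop (l := l) (f := f)
  have h3 : jx l f.natDegree (ord h) = j := by
    have h4 : ((f.natDegree : ℕ) : ZMod l) ≠ 0 := by
      rw [Ne, ZMod.natCast_eq_zero_iff]
      intro h5
      exact hl.one_lt.ne' (Nat.dvd_one.mp (hc.symm.gcd_eq_one ▸ Nat.dvd_gcd h5 dvd_rfl))
    rw [jx, h1]
    push_cast
    rw [CharP.cast_eq_zero, zero_mul, zero_add, mul_comm, ← mul_assoc, inv_mul_cancel₀ h4, one_mul,
      ZMod.val_natCast_of_lt hj]
  have h5 : lcc (coMap s hs u hu h) = (cf (coMap s hs u hu h) j).coeff i := by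
    rw [lcc, leadingCoeff, ← coeff_LT _ hj, ← h2]
    rfl
  have h6 : lcc h = (cf h j).coeff i := by
    rw [lcc, leadingCoeff, ← coeff_LT _ hj, ← h1]
    rfl
  rw [h5, h6, h3, cf_coMap _ _ _ _ _ hj, coeff_C_mul, coeff_map, mul_comm]
  rfl

/-- The product of the conjugates is a polynomial in `x` of degree `ord h`. -/
theorem exists_nm {ζ : F} (hz : IsPrimitiveRoot ζ l) (h : Co l f) : ∃ p : F[X],
    ∏ k ∈ Finset.range l, sig (l := l) (f := f) (ζ := ζ ^ k)
      (by rw [← pow_mul, mul_comm, pow_mul, hz.pow_eq_one, one_pow]) h = po l f p ∧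
    p.natDegree = ord h ∧ (h ≠ 0 → p ≠ 0) := by
  have hl : l.Prime := Fact.out
  have hz1 : ∀ k : ℕ, (ζ ^ k) ^ l = 1 := fun k => by
    rw [← pow_mul, mul_comm, pow_mul, hz.pow_eq_one, one_pow]
  have hζ : ζ ^ l = 1 := hz.pow_eq_one
  set N : Co l f := ∏ k ∈ Finset.range l, sig (l := l) (f := f) (ζ := ζ ^ k) (hz1 k) h with hN
  have hsig : ∀ k, sig (l := l) (f := f) hζ (sig (l := l) (f := f) (hz1 k) h) =
      sig (l := l) (f := f) (hz1 (k + 1)) h := by
    intro k
    apply co_ext
    intro j hj
    rw [cf_coMap _ _ _ _ _ hj, cf_coMap _ _ _ _ _ hj, cf_coMap _ _ _ _ _ hj]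
    have e : ∀ q : F[X], q.map ((RingEquiv.refl F : F ≃+* F) : F →+* F) = q := fun q =>
      Polynomial.map_id
    rw [e, e, ← mul_assoc, ← C_mul, ← mul_pow]
    congr 3
    rw [pow_succ, mul_inv, mul_comm]
  have hfix : sig (l := l) (f := f) hζ N = N := by
    rw [hN, map_prod]
    have h1 : ∏ k ∈ Finset.range l, sig (l := l) (f := f) hζ
        (sig (l := l) (f := f) (hz1 k) h) =
        ∏ k ∈ Finset.range l, sig (l := l) (f := f) (hz1 (k + 1)) h :=
      Finset.prod_congr rfl fun k _ => hsig k
    rw [h1]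
    have h2 : ∀ (m : ℕ) (G : ℕ → Co l f), 0 < m → G m = G 0 → ∏ k ∈ Finset.range m, G (k + 1) =
        ∏ k ∈ Finset.range m, G k := by
      intro m G hm0 hG
      obtain ⟨m, rfl⟩ := Nat.exists_eq_succ_of_ne_zero hm0.ne'
      rw [Finset.prod_range_succ, Finset.prod_range_succ' (fun k => G k)]
      rw [← Nat.succ_eq_add_one, hG]
    apply h2 l (fun k => sig (l := l) (f := f) (hz1 k) h) hl.pos
    have h3 : ζ ^ l = ζ ^ 0 := by rw [hζ, pow_zero]
    apply co_ext
    intro j hj
    rw [cf_coMap _ _ _ _ _ hj, cf_coMap _ _ _ _ _ hj, h3]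
  have h0 : ∀ j < l, j ≠ 0 → cf N j = 0 := by
    intro j hj hj0
    have h1 : cf (sig (l := l) (f := f) hζ N) j = cf N j := by rw [hfix]
    rw [cf_coMap _ _ _ _ _ hj] at h1
    have e : (cf N j).map ((RingEquiv.refl F : F ≃+* F) : F →+* F) = cf N j := Polynomial.map_id
    rw [e] at h1
    by_contra h2
    have h3 : C (ζ⁻¹ ^ j) = 1 := by
      apply mul_right_cancel₀ h2
      rw [h1, one_mul]
    rw [← C_1] at h3
    have h4 := C_injective h3
    rw [inv_pow, inv_eq_one] at h4
    exact hz.pow_ne_one_of_pos_of_lt hj0 hj h4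
  have hNp : N = po l f (cf N 0) := by
    conv_lhs => rw [eq_sum N]
    rw [Finset.sum_eq_single_of_mem 0 (Finset.mem_range.mpr hl.pos)]
    · rw [pow_zero, mul_one]
    · intro b hb hb0
      rw [h0 b (Finset.mem_range.mp hb) hb0, map_zero, zero_mul]
  refine ⟨cf N 0, hNp, ?_, ?_⟩
  · by_cases hh : h = 0
    · have h1 : N = 0 := by
        rw [hN]
        apply Finset.prod_eq_zero (Finset.mem_range.mpr hl.pos)
        rw [hh, map_zero]
      rw [h1, cf_zero, hh, ord, LT_zero]
    · have h1 : ∀ (s : Finset ℕ), (∏ k ∈ s, sig (l := l) (f := f) (hz1 k) h) ≠ 0 ∧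
          ord (∏ k ∈ s, sig (l := l) (f := f) (hz1 k) h) = s.card * ord h := by
        intro s
        induction s using Finset.induction_on with
        | empty =>
          rw [Finset.prod_empty, Finset.card_empty, zero_mul]
          refine ⟨one_ne_zero, ?_⟩
          have h3 := ord_po (l := l) (f := f) 1
          rwa [map_one, natDegree_one, mul_zero] at h3
        | insert a s ha ih =>
          rw [Finset.prod_insert ha, Finset.card_insert_of_notMem ha]
          have h2 : sig (l := l) (f := f) (hz1 a) h ≠ 0 := fun h0 =>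
            hh ((sig (l := l) (f := f) (hz1 a)).injective (h0.trans (map_zero _).symm))
          refine ⟨mul_ne_zero h2 ih.1, ?_⟩
          rw [ord_mul h2 ih.1, ih.2, ord_coMap]
          ring
      have h2 := (h1 (Finset.range l)).2
      rw [← hN, Finset.card_range, hNp, ord_po] at h2
      exact Nat.eq_of_mul_eq_mul_left hl.pos h2
  · intro hh h1
    have h2 : N ≠ 0 := by
      rw [hN]
      refine Finset.prod_ne_zero_iff.mpr fun k _ => ?_
      exact fun h0 =>
        hh ((sig (l := l) (f := f) (hz1 k)).injective (h0.trans (map_zero _).symm))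
    rw [h1, map_zero] at hNp
    exact h2 hNp

end Pool.Agent.SmS
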