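import Pool.Agent.Lib.SmS.Iso0

/-!
SMITH-S, section 10: products of powers of the ideals of the branch points, carries, calculus of `Spl`.

`PE l a w = ∏ i, P_i ^ w i` for `w : Fin n → ℕ`; `vl w` for `w : V0 l n` are the representatives `0 ≤ w_i < l`;
`cy x y` the carry of `x + y`.
-/

set_option autoImplicit false

open Polynomial

namespace Pool.Agent.SmS

variable {l : ℕ} {F : Type} [Field F] [Fact l.Prime] {n : ℕ} {a : Fin n → F} [SupA l a]

/-- `∏ i, P_i ^ w i`. -/
noncomputable def PE (l : ℕ) [Fact l.Prime] {n : ℕ} (a : Fin n → F) (w : Fin n → ℕ) :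
    Ideal (Co l (ff a)) := ∏ i, (br l a i).idl ^ w i

/-- The representatives. -/
def vl {l n : ℕ} (w : V0 l n) : Fin n → ℕ := fun i => (w.1 i).val

/-- The carry. -/
def cy {l : ℕ} (x y : ZMod l) : ℕ := (x.val + y.val) / l

/-- `T` has no branch point. -/
def NB (T : Multiset (Pnt l (ff a))) : Prop := ∀ t ∈ T, ∀ i, t.x ≠ a i

omit [SupA l a] in
theorem PE_add (w w' : Fin n → ℕ) : PE l a (w + w') = PE l a w * PE l a w' := by
  simp only [PE, Pi.add_apply, pow_add, Finset.prod_mul_distrib]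

omit [SupA l a] in
theorem PE_zero : PE l a 0 = ⊤ := by
  simp only [PE, Pi.zero_apply, pow_zero, Finset.prod_const_one]
  exact Ideal.one_eq_top

theorem PE_ne_bot [IsSepClosed F] (w : Fin n → ℕ) : PE l a w ≠ ⊥ :=
  Finset.prod_ne_zero_iff.mpr fun i _ => pow_ne_zero _ (br l a i).ne_bot

omit [SupA l a] in
private theorem PE_map_br {ζ : F} (hz : ζ ^ l = 1) (i : Fin n) :
    (br l a i).map (RingEquiv.refl F) (map_refl (ff a)) ζ hz = br l a i := by
  ext
  · rfl
  · change ζ * (0 : F) = 0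
    exact mul_zero _

private theorem PE_pow [IsSepClosed F] {ζ : F} (hz : IsPrimitiveRoot ζ l) (i : Fin n) :
    (br l a i).idl ^ l = Ideal.span {po l (ff a) (X - C (a i))} := by
  have h := prod_rot hz (br l a i)
  rw [Finset.prod_congr rfl (g := fun _ => (br l a i).idl), Finset.prod_const,
    Finset.card_range] at h
  · exact h
  · intro k _
    rw [Pnt.rot, PE_map_br]

/-- `P_i ^ l = (x - a_i)`. -/
theorem PE_l [IsSepClosed F] (w : Fin n → ℕ) {ζ : F} (hz : IsPrimitiveRoot ζ l) :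
    PE l a (fun i => l * w i) = Ideal.span {po l (ff a) (∏ i, (X - C (a i)) ^ w i)} := by
  simp only [PE, pow_mul, PE_pow hz, Ideal.span_singleton_pow]
  rw [Ideal.prod_span_singleton, map_prod]
  simp only [map_pow]

/-- An ideal prime to the `P_i`. -/
theorem PE_sup [IsSepClosed F] {A : Ideal (Co l (ff a))} (h : ∀ i, A ⊔ (br l a i).idl = ⊤)
    (w : Fin n → ℕ) : A ⊔ PE l a w = ⊤ :=
  Ideal.sup_prod_eq_top fun i _ => Ideal.sup_pow_eq_top (h i)

theorem cls_PE [IsSepClosed F] (w : V0 l n) : SmJ.cls (PE l a (vl w)) = io l a w := by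
  have h := SmJ.cls_prod (Finset.univ : Finset (Fin n)) (I := fun i => (br l a i).idl ^ vl w i)
    (fun i _ => pow_ne_zero _ (br l a i).ne_bot)
  rw [PE, h, io_apply]
  refine Finset.sum_congr rfl fun i _ => ?_
  rw [SmJ.cls_pow (br l a i).ne_bot]
  rfl

/-- The degree of `PE (vl w)` is divisible by `l`. -/
theorem dg_PE [IsSepClosed F] (w : V0 l n) : ((dg (PE l a (vl w)) : ℕ) : ZMod l) = 0 := by
  classical
  have h0 : dg (⊤ : Ideal (Co l (ff a))) = 0 := by
    have h := dg_mul (l := l) (f := ff a) (I := ⊤) (I' := ⊤) top_ne_bot top_ne_bot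
    rw [Ideal.top_mul] at h
    omega
  have h1 : ∀ (i : Fin n) (m : ℕ), dg ((br l a i).idl ^ m) = m := by
    intro i m
    induction m with
    | zero => rw [pow_zero, Ideal.one_eq_top, h0]
    | succ m ih =>
      rw [pow_succ, dg_mul (pow_ne_zero _ (br l a i).ne_bot) (br l a i).ne_bot, ih, dg_idl]
  have h2 : ∀ S : Finset (Fin n), dg (∏ i ∈ S, (br l a i).idl ^ vl w i) = ∑ i ∈ S, vl w i := by
    intro S
    induction S using Finset.induction_on with
    | empty => rw [Finset.prod_empty, Finset.sum_empty, Ideal.one_eq_top, h0]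
    | insert i S hi ih =>
      rw [Finset.prod_insert hi, Finset.sum_insert hi, dg_mul (pow_ne_zero _ (br l a i).ne_bot)
        (Finset.prod_ne_zero_iff.mpr fun i _ => pow_ne_zero _ (br l a i).ne_bot), ih, h1]
  rw [PE, h2, Nat.cast_sum]
  have h3 : ∑ i, w.1 i = 0 := w.2
  rw [← h3]
  refine Finset.sum_congr rfl fun i _ => ?_
  rw [vl, ZMod.natCast_val, ZMod.cast_id]

/-- `σ` fixes the ideals of the branch points. -/
theorem sig_PE [IsSepClosed F] {ζ : F} (hz : ζ ^ l = 1) (w : Fin n → ℕ) :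
    (PE l a w).map ((sig hz : Co l (ff a) ≃+* Co l (ff a)) : Co l (ff a) →+* Co l (ff a)) =
      PE l a w := by
  have h := map_prod (Ideal.mapHom ((sig hz : Co l (ff a) ≃+* Co l (ff a)) :
    Co l (ff a) →+* Co l (ff a))) (fun i => (br l a i).idl ^ w i) Finset.univ
  refine h.trans (Finset.prod_congr rfl fun i _ => ?_)
  rw [map_pow]
  congr 1
  change (br l a i).idl.map _ = _
  rw [Pnt.map_idl, PE_map_br]

/-- The exact power of `P_j` in `B * PE w`, `B` prime to `P_j`. -/
theorem mem_PE [IsSepClosed F] {B : Ideal (Co l (ff a))} {j : Fin n} (hB : B ⊔ (br l a j).idl = ⊤)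
    {w : Fin n → ℕ} {k : Co l (ff a)} (hk : Ideal.span {k} = B * PE l a w) :
    k ∈ (br l a j).idl ^ w j ∧ ∀ r, k * r ∈ (br l a j).idl ^ (w j + 1) → r ∈ (br l a j).idl := by
  classical
  have h1 : PE l a w = (br l a j).idl ^ w j * ∏ i ∈ Finset.univ.erase j, (br l a i).idl ^ w i :=
    (Finset.mul_prod_erase _ _ (Finset.mem_univ j)).symm
  have h2 : (∏ i ∈ Finset.univ.erase j, (br l a i).idl ^ w i) ⊔ (br l a j).idl = ⊤ := by
    rw [sup_comm]
    refine Ideal.sup_prod_eq_top fun i hi => Ideal.sup_pow_eq_top ?_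
    rw [sup_idl_iff]
    intro h3
    have h4 := Pnt.idl_inj ((br l a j).idl_max.eq_of_le (br l a i).idl_max.ne_top h3)
    have h5 : a j = a i := congrArg Pnt.x h4
    exact Finset.ne_of_mem_erase hi (SupA.inj l h5).symm
  set D := B * ∏ i ∈ Finset.univ.erase j, (br l a i).idl ^ w i with hD
  have h3 : Ideal.span {k} = (br l a j).idl ^ w j * D := by
    rw [hk, h1, hD, mul_left_comm]
  have h6 : (br l a j).idl.IsPrime := (br l a j).idl_max.isPrime
  have h4 : ¬ D ≤ (br l a j).idl := by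
    intro h
    rcases h6.mul_le.mp h with h | h
    · exact sup_idl_iff.mp hB h
    · exact sup_idl_iff.mp h2 h
  have h7 : Ideal.span {k} ≤ (br l a j).idl ^ w j := by
    rw [h3]
    exact Ideal.mul_le_left
  refine ⟨h7 (Ideal.mem_span_singleton_self k), fun r hr => ?_⟩
  · have h5 : (br l a j).idl ^ w j * (D * Ideal.span {r}) ≤ (br l a j).idl ^ w j * (br l a j).idl := by
      rw [← mul_assoc, ← h3, Ideal.span_singleton_mul_span_singleton, ← pow_succ,
        Ideal.span_singleton_le_iff_mem]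
      exact hr
    rw [← Ideal.dvd_iff_le, mul_dvd_mul_iff_left (pow_ne_zero _ (br l a j).ne_bot),
      Ideal.dvd_iff_le] at h5
    rcases h6.mul_le.mp h5 with h8 | h8
    · exact absurd h8 h4
    · exact h8 (Ideal.mem_span_singleton_self r)

omit [Fact l.Prime] [SupA l a] in
/-- The carries. -/
theorem vl_add [NeZero l] (w w' : V0 l n) :
    vl w + vl w' = vl (w + w') + fun i => l * cy (w.1 i) (w'.1 i) := by
  funext i
  change (w.1 i).val + (w'.1 i).val = (w.1 i + w'.1 i).val + l * (((w.1 i).val + (w'.1 i).val) / l)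
  rw [ZMod.val_add, Nat.mod_add_div]

/-- `l` divides the sum of the representatives. -/
theorem sum_vl (w : V0 l n) : ∃ m, ∑ i, vl w i = l * m := by
  change l ∣ ∑ i, vl w i
  rw [← ZMod.natCast_eq_zero_iff, Nat.cast_sum]
  have h3 : ∑ i, w.1 i = 0 := w.2
  rw [← h3]
  refine Finset.sum_congr rfl fun i _ => ?_
  rw [vl, ZMod.natCast_val, ZMod.cast_id]

namespace Tw

variable {Γ : Type} [Group Γ] (W : Tw l a Γ)

theorem th_PE [IsSepClosed F] (g : Γ) (w : V0 l n) :
    (PE l a (vl w)).map (W.th g : Co l (ff a) →+* Co l (ff a)) = PE l a (vl (W.pw g w)) := by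
  have h := map_prod (Ideal.mapHom (W.th g : Co l (ff a) →+* Co l (ff a)))
    (fun i => (br l a i).idl ^ vl w i) Finset.univ
  refine h.trans (Fintype.prod_equiv (W.p g) _ _ fun i => ?_)
  rw [map_pow]
  change (br l a i).idl.map _ ^ _ = _
  rw [idl_pt, pt_br]
  congr 1
  change _ = (w.1 ((W.p g)⁻¹ (W.p g i))).val
  have e : (W.p g)⁻¹ (W.p g i) = i := (W.p g).symm_apply_apply i
  rw [e]
  rfl

variable {W}

omit [SupA l a] in
private theorem zv_add (x y : ZMod l) : W.z ^ (x + y).val = W.z ^ x.val * W.z ^ y.val := by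
  rw [ZMod.val_add, ← pow_add]
  conv_rhs => rw [← Nat.mod_add_div (x.val + y.val) l, pow_add, pow_mul, W.hz.pow_eq_one, one_pow,
    mul_one]

omit [SupA l a] in
private theorem zv_neg (x : ZMod l) : W.z ^ (-x).val * W.z ^ x.val = 1 := by
  rw [← zv_add, neg_add_cancel, ZMod.val_zero, pow_zero]

theorem Spl.add {c c' : Γ → Γ → ZMod l} (h : W.Spl c) (h' : W.Spl c') :
    W.Spl (fun g k => c g k + c' g k) := by
  obtain ⟨E, h1, h2, h3⟩ := h
  obtain ⟨E', h1', h2', h3'⟩ := h'
  refine ⟨fun g => E g * E' g, fun g => mul_ne_zero (h1 g) (h1' g), LC.map₂ W h2 h2' _, fun g k => ?_⟩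
  rw [zv_add, map_mul, mul_mul_mul_comm, h3, h3']
  ring

theorem Spl.neg {c : Γ → Γ → ZMod l} (h : W.Spl c) : W.Spl (fun g k => -c g k) := by
  obtain ⟨E, h1, h2, h3⟩ := h
  refine ⟨fun g => (E g)⁻¹, fun g => inv_ne_zero (h1 g), LC.map W h2 _, fun g k => ?_⟩
  rw [map_inv₀, ← mul_inv, ← h3 g k, mul_inv]
  congr 1
  exact eq_inv_of_mul_eq_one_left (zv_neg _)

/-- The coboundary of a locally constant cochain. -/
theorem Spl.cob {b : Γ → ZMod l} (hb : W.LC b) : W.Spl (fun g k => b g + b k - b (g * k)) := by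
  have hz0 : W.z ≠ 0 := W.hz.ne_zero (NeZero.ne l)
  refine ⟨fun g => W.z ^ (b g).val, fun g => pow_ne_zero _ hz0, LC.map W hb (fun x => W.z ^ x.val), fun g k => ?_⟩
  rw [map_pow, W.sz, ← zv_add, ← zv_add, sub_add_cancel]

end Tw

end Pool.Agent.SmS
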