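import Pool.Agent.Lib.SmS.PE

/-!
SMITH-S, section 10: Lemma S, the action of `σ` on `P_i ^ m / P_i ^ (m + 1)`, and the norm of a function at a branch point.

`sig_sub_mem`: for `h ∈ P_i ^ m`, `σ h - ζ⁻¹ ^ m h ∈ P_i ^ (m + 1)`. Induction on `m`. `m = 0`: `ev_i (σ h) = ev_i h`
because `P_i` is fixed by `σ` (`ev_map`, `(br i).rot = br i`). Step: `Submodule.mul_induction_on` for `P_i ^ (m + 1) =
P_i * P_i ^ m`: `σ (a b) - ζ⁻¹ ^ (m + 1) a b = (σ a - ζ⁻¹ a) σ b + ζ⁻¹ a (σ b - ζ⁻¹ ^ m b)`; so `m = 1` is needed: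
`a = u (x - a_i) + v y` by `Pnt.idl_eq_span` and `Ideal.mem_span_pair`; `σ a - ζ⁻¹ a = (σ u - ζ⁻¹ u) (x - a_i) +
ζ⁻¹ (σ v - v) y`, `x - a_i ∈ P_i ^ 2` as `(x - a_i) = P_i ^ l` (`prod_rot` at `br i`, all the `rot` are `br i`; or `PE_l`),
`l ≥ 2`; `σ v - v ∈ P_i`, `y ∈ P_i`; `σ P_i = P_i` (`Pnt.map_idl`).

`pc_ev`: the value of the product of the conjugates.
-/

set_option autoImplicit false

open Polynomial

namespace Pool.Agent.SmS

variable {l : ℕ} {F : Type} [Field F] [Fact l.Prime] {n : ℕ} {a : Fin n → F} [SupA l a]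
  [IsSepClosed F]

omit [SupA l a] [IsSepClosed F] in
private theorem SigP_yy_mem (i : Fin n) : yy l (ff a) ∈ (br l a i).idl := by
  rw [Pnt.mem_idl, Pnt.ev_yy]
  rfl

theorem rot_br {u : F} (hu : u ^ l = 1) (i : Fin n) : (br l a i).rot u hu = br l a i := by
  ext
  · rfl
  · change u * 0 = 0
    rw [mul_zero]

theorem ev_sig {u : F} (hu : u ^ l = 1) (i : Fin n) (h : Co l (ff a)) :
    (br l a i).ev (sig hu h) = (br l a i).ev h := by
  have h1 := ev_map (RingEquiv.refl F) (map_refl (ff a)) u hu (br l a i) h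
  have h2 : (br l a i).map (RingEquiv.refl F) (map_refl (ff a)) u hu = br l a i := rot_br hu i
  rw [h2] at h1
  exact h1

private theorem SigP_map {u : F} (hu : u ^ l = 1) (i : Fin n) {m : ℕ} {h : Co l (ff a)}
    (hh : h ∈ (br l a i).idl ^ m) : sig hu h ∈ (br l a i).idl ^ m := by
  have h1 := Pnt.map_idl (RingEquiv.refl F) (map_refl (ff a)) u hu (br l a i)
  have h2 : (br l a i).map (RingEquiv.refl F) (map_refl (ff a)) u hu = br l a i := rot_br hu i
  rw [h2] at h1
  have h3 := Ideal.mem_map_of_mem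
    (coMap (RingEquiv.refl F) (map_refl (ff a)) u hu : Co l (ff a) →+* Co l (ff a)) hh
  rw [Ideal.map_pow, h1] at h3
  exact h3

private theorem SigP_x_mem {ζ : F} (hz : IsPrimitiveRoot ζ l) (i : Fin n) :
    po l (ff a) (X - C (a i)) ∈ (br l a i).idl ^ l := by
  have h1 := prod_rot (f := ff a) hz (br l a i)
  rw [Finset.prod_congr rfl fun k _ => congrArg Pnt.idl (rot_br (zpow_pow hz.pow_eq_one k) i),
    Finset.prod_const, Finset.card_range] at h1
  rw [h1]
  exact Ideal.mem_span_singleton_self _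

private theorem SigP_zero {u : F} (hu : u ^ l = 1) (i : Fin n) (h : Co l (ff a)) :
    sig hu h - h ∈ (br l a i).idl := by
  rw [Pnt.mem_idl, map_sub, ev_sig, sub_self]

private theorem SigP_one {ζ : F} (hz : IsPrimitiveRoot ζ l) (i : Fin n) {h : Co l (ff a)}
    (hh : h ∈ (br l a i).idl) :
    sig hz.pow_eq_one h - po l (ff a) (C ζ⁻¹) * h ∈ (br l a i).idl ^ 2 := by
  have hl : 2 ≤ l := (Fact.out : l.Prime).two_le
  have h1 := hh
  rw [Pnt.idl_eq_span, Ideal.mem_span_pair] at h1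
  obtain ⟨u, v, rfl⟩ := h1
  have hx : po l (ff a) (X - C (br l a i).x) ∈ (br l a i).idl ^ 2 :=
    Ideal.pow_le_pow_right hl (SigP_x_mem hz i)
  have hy : yy l (ff a) - po l (ff a) (C (br l a i).y) = yy l (ff a) := by
    change yy l (ff a) - po l (ff a) (C 0) = _
    rw [C_0, map_zero, sub_zero]
  have e1 : sig hz.pow_eq_one (po l (ff a) (X - C (br l a i).x)) =
      po l (ff a) (X - C (br l a i).x) := by
    change coMap _ _ _ _ _ = _
    rw [coMap_po]
    congr 1
    exact Polynomial.map_id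
  have e2 : sig hz.pow_eq_one (yy l (ff a)) = po l (ff a) (C ζ⁻¹) * yy l (ff a) :=
    coMap_yy _ _ _ _
  rw [hy, map_add, map_mul, map_mul, e1, e2]
  have e3 : sig hz.pow_eq_one u * po l (ff a) (X - C (br l a i).x) +
      sig hz.pow_eq_one v * (po l (ff a) (C ζ⁻¹) * yy l (ff a)) -
      po l (ff a) (C ζ⁻¹) * (u * po l (ff a) (X - C (br l a i).x) + v * yy l (ff a)) =
      (sig hz.pow_eq_one u - po l (ff a) (C ζ⁻¹) * u) * po l (ff a) (X - C (br l a i).x) +
        po l (ff a) (C ζ⁻¹) * ((sig hz.pow_eq_one v - v) * yy l (ff a)) := by ring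
  rw [e3]
  refine Ideal.add_mem _ (Ideal.mul_mem_left _ _ hx) (Ideal.mul_mem_left _ _ ?_)
  rw [pow_two]
  exact Ideal.mul_mem_mul (SigP_zero hz.pow_eq_one i v) (SigP_yy_mem i)

theorem sig_sub_mem {ζ : F} (hz : IsPrimitiveRoot ζ l) (i : Fin n) (m : ℕ) {h : Co l (ff a)}
    (hh : h ∈ (br l a i).idl ^ m) :
    sig hz.pow_eq_one h - po l (ff a) (C (ζ⁻¹ ^ m)) * h ∈ (br l a i).idl ^ (m + 1) := by
  induction m generalizing h with
  | zero =>
    rw [pow_zero, C_1, map_one, one_mul, zero_add, pow_one]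
    exact SigP_zero hz.pow_eq_one i h
  | succ m ih =>
    rw [pow_succ'] at hh
    refine Submodule.mul_induction_on hh ?_ ?_
    · intro a' ha b hb
      have e : sig hz.pow_eq_one (a' * b) - po l (ff a) (C (ζ⁻¹ ^ (m + 1))) * (a' * b) =
          (sig hz.pow_eq_one a' - po l (ff a) (C ζ⁻¹) * a') * sig hz.pow_eq_one b +
            po l (ff a) (C ζ⁻¹) * (a' * (sig hz.pow_eq_one b - po l (ff a) (C (ζ⁻¹ ^ m)) * b)) := by
        rw [pow_succ, C_mul, map_mul, map_mul]
        ring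
      rw [e]
      refine Ideal.add_mem _ ?_ (Ideal.mul_mem_left _ _ ?_)
      · rw [show m + 1 + 1 = 2 + m by omega, pow_add]
        exact Ideal.mul_mem_mul (SigP_one hz i ha) (SigP_map hz.pow_eq_one i hb)
      · rw [pow_succ' _ (m + 1)]
        exact Ideal.mul_mem_mul ha (ih hb)
    · intro x y hx hy
      have e : sig hz.pow_eq_one (x + y) - po l (ff a) (C (ζ⁻¹ ^ (m + 1))) * (x + y) =
          (sig hz.pow_eq_one x - po l (ff a) (C (ζ⁻¹ ^ (m + 1))) * x) +
            (sig hz.pow_eq_one y - po l (ff a) (C (ζ⁻¹ ^ (m + 1))) * y) := by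
        rw [map_add]
        ring
      rw [e]
      exact Ideal.add_mem _ hx hy

/-- The value at `P_i` of the product of the conjugates. -/
theorem pc_ev {ζ : F} (hz : IsPrimitiveRoot ζ l) (i : Fin n) (h : Co l (ff a)) :
    (br l a i).ev (∏ k ∈ Finset.range l, sig (zpow_pow hz.pow_eq_one k) h) =
      (br l a i).ev h ^ l := by
  rw [map_prod, Finset.prod_congr rfl fun k _ => ev_sig (zpow_pow hz.pow_eq_one k) i h,
    Finset.prod_const, Finset.card_range]

end Pool.Agent.SmS
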