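import Pool.Agent.Lib.SmS.Fix
import Pool.Agent.Lib.SmL.Fld.Summ

/-!
# SMITH-S, section 11: the module `V1` (vectors of sum zero in the permutation module of `Fin n`)

`ac0`: the action of a group `G` which acts on `Fin n`; `e0 w w' = ∑ w_i w'_i`; `P0` the dual pair.
`e0_symm`, `e0_nondeg`, `e0_inv`; `gd0`: all arithmetic facts (from `Fld.summ_gd`); `nofix0`;
`span0`: `F_l[G]` is onto `End V1 × F_l` if `G` acts through the full symmetric group.
-/

set_option autoImplicit false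

open Finset

namespace Pool.Agent.SmS

section alg

variable {l n : ℕ}

theorem v0_mem {w : Fin n → ZMod l} : w ∈ V0 l n ↔ ∑ i, w i = 0 := Iff.rfl

theorem v0_sum (w : V0 l n) : ∑ i, w.1 i = 0 := w.2

theorem inv_ap {α : Type*} (σ : Equiv.Perm α) (i : α) : σ⁻¹ (σ i) = i := σ.symm_apply_apply i

theorem ap_inv {α : Type*} (σ : Equiv.Perm α) (i : α) : σ (σ⁻¹ i) = i := σ.apply_symm_apply i

section act

variable {G : Type*} [Group G]

/-- `w ↦ w ∘ σ⁻¹`. -/
def prm (l : ℕ) {n : ℕ} (σ : Equiv.Perm (Fin n)) : V0 l n →ₗ[ZMod l] V0 l n where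
  toFun w := ⟨fun i => w.1 (σ⁻¹ i), by
    rw [v0_mem, ← v0_sum w]
    exact Equiv.sum_comp σ⁻¹ w.1⟩
  map_add' _ _ := rfl
  map_smul' _ _ := rfl

theorem prm_apply (σ : Equiv.Perm (Fin n)) (w : V0 l n) (i : Fin n) :
    (prm l σ w).1 i = w.1 (σ⁻¹ i) := rfl

/-- The action on the vectors of sum zero. -/
def ac0 (l : ℕ) {n : ℕ} {G : Type*} [Group G] (π : G →* Equiv.Perm (Fin n)) :
    G →* (V0 l n ≃ₗ[ZMod l] V0 l n) where
  toFun s := LinearEquiv.ofLinearMap (prm l (π s)) (prm l (π s)⁻¹)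
    (by
      ext w i
      change (w.1 ((π s)⁻¹⁻¹ ((π s)⁻¹ i))) = w.1 i
      rw [inv_inv, ap_inv])
    (by
      ext w i
      change (w.1 ((π s)⁻¹ ((π s)⁻¹⁻¹ i))) = w.1 i
      rw [inv_inv, inv_ap])
  map_one' := by
    ext w i
    change (w.1 ((π 1)⁻¹ i)) = w.1 i
    rw [map_one, inv_one, Equiv.Perm.one_apply]
  map_mul' s t := by
    ext w i
    change (w.1 ((π (s * t))⁻¹ i)) = w.1 ((π t)⁻¹ ((π s)⁻¹ i))
    rw [map_mul, mul_inv_rev, Equiv.Perm.mul_apply]

theorem ac0_apply (π : G →* Equiv.Perm (Fin n)) (s : G) (w : V0 l n) (i : Fin n) :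
    (ac0 l π s w).1 i = w.1 ((π s)⁻¹ i) := rfl

end act

/-- The form `∑ w_i w'_i`. -/
def e0 (l n : ℕ) : V0 l n →ₗ[ZMod l] V0 l n →ₗ[ZMod l] ZMod l :=
  LinearMap.mk₂ (ZMod l) (fun w w' => ∑ i, w.1 i * w'.1 i)
    (fun w1 w2 w' => by
      rw [← sum_add_distrib]
      exact sum_congr rfl fun i _ => add_mul _ _ _)
    (fun c w w' => by
      rw [smul_eq_mul, mul_sum]
      exact sum_congr rfl fun i _ => mul_assoc _ _ _)
    (fun w w1 w2 => by
      rw [← sum_add_distrib]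
      exact sum_congr rfl fun i _ => mul_add _ _ _)
    (fun c w w' => by
      rw [smul_eq_mul, mul_sum]
      exact sum_congr rfl fun i _ => mul_left_comm _ _ _)

theorem e0_apply (w w' : V0 l n) : e0 l n w w' = ∑ i, w.1 i * w'.1 i := rfl

theorem e0_symm (w w' : V0 l n) : e0 l n w w' = e0 l n w' w := by
  rw [e0_apply, e0_apply]
  exact sum_congr rfl fun i _ => mul_comm _ _

theorem e0_inv {G : Type*} [Group G] (π : G →* Equiv.Perm (Fin n)) (s : G) (w w' : V0 l n) :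
    e0 l n (ac0 l π s w) (ac0 l π s w') = e0 l n w w' := by
  rw [e0_apply, e0_apply]
  exact Equiv.sum_comp (π s)⁻¹ fun i => w.1 i * w'.1 i

/-- The vector `e_i - e_j`. -/
def vv (l : ℕ) {n : ℕ} (i j : Fin n) : V0 l n :=
  ⟨fun k => (if k = i then 1 else 0) - (if k = j then 1 else 0), by
    rw [v0_mem, sum_sub_distrib, sum_ite_eq' univ i, sum_ite_eq' univ j, if_pos (mem_univ _),
      if_pos (mem_univ _), sub_self]⟩

theorem vv_apply (i j k : Fin n) :
    (vv l i j).1 k = (if k = i then 1 else 0) - (if k = j then 1 else 0) := rfl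

theorem e0_vv (w : V0 l n) (i j : Fin n) : e0 l n w (vv l i j) = w.1 i - w.1 j := by
  rw [e0_apply]
  have h : ∀ k, w.1 k * (vv l i j).1 k =
      (if k = i then w.1 k else 0) - (if k = j then w.1 k else 0) := fun k => by
    rw [vv_apply, mul_sub, mul_ite, mul_ite, mul_one, mul_zero]
  rw [sum_congr rfl fun k _ => h k, sum_sub_distrib, sum_ite_eq' univ i, sum_ite_eq' univ j,
    if_pos (mem_univ _), if_pos (mem_univ _)]

theorem eq_zero_of_const [Fact l.Prime] (hn : (n : ZMod l) ≠ 0) {w : V0 l n}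
    (h : ∀ i j, w.1 i = w.1 j) : w = 0 := by
  ext i
  have h1 : ∑ j : Fin n, w.1 j = n * w.1 i := by
    rw [sum_congr rfl fun j _ => h j i, sum_const, card_univ, Fintype.card_fin, nsmul_eq_mul]
  rw [v0_sum] at h1
  exact (mul_eq_zero.1 h1.symm).resolve_left hn

theorem e0_nondeg [Fact l.Prime] (hn : (n : ZMod l) ≠ 0) (w : V0 l n)
    (h : ∀ w', e0 l n w w' = 0) : w = 0 :=
  eq_zero_of_const hn fun i j => by
    have h1 := h (vv l i j)
    rw [e0_vv, sub_eq_zero] at h1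
    exact h1

/-- The inclusion. -/
def i0 (l n : ℕ) : V0 l n →ₗ[ZMod l] (Fin n → ZMod l) := (V0 l n).subtype

/-- The projection `f ↦ f - (∑ f) / n`. -/
def p0 (l n : ℕ) [Fact l.Prime] (hn : (n : ZMod l) ≠ 0) : (Fin n → ZMod l) →ₗ[ZMod l] V0 l n where
  toFun f := ⟨fun i => f i - (n : ZMod l)⁻¹ * ∑ j, f j, by
    rw [v0_mem, sum_sub_distrib, sum_const, card_univ, Fintype.card_fin, nsmul_eq_mul, ← mul_assoc,
      mul_inv_cancel₀ hn, one_mul, sub_self]⟩
  map_add' f g := by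
    ext i
    change (f + g) i - _ * ∑ j, (f + g) j = (f i - _ * ∑ j, f j) + (g i - _ * ∑ j, g j)
    have h : ∑ j, (f + g) j = ∑ j, f j + ∑ j, g j := sum_add_distrib
    rw [h, Pi.add_apply]
    ring
  map_smul' c f := by
    ext i
    change (c • f) i - _ * ∑ j, (c • f) j = c * (f i - _ * ∑ j, f j)
    have h : ∑ j, (c • f) j = c * ∑ j, f j := (mul_sum _ _ _).symm
    rw [h, Pi.smul_apply, smul_eq_mul]
    ring

theorem p0_apply [Fact l.Prime] (hn : (n : ZMod l) ≠ 0) (f : Fin n → ZMod l) (i : Fin n) :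
    (p0 l n hn f).1 i = f i - (n : ZMod l)⁻¹ * ∑ j, f j := rfl

theorem p0_i0 [Fact l.Prime] (hn : (n : ZMod l) ≠ 0) (w : V0 l n) : p0 l n hn (i0 l n w) = w := by
  ext i
  change w.1 i - (n : ZMod l)⁻¹ * ∑ j, w.1 j = w.1 i
  rw [v0_sum, mul_zero, sub_zero]

theorem p0_adj [Fact l.Prime] (hn : (n : ZMod l) ≠ 0) (f : Fin n → ZMod l) (y : V0 l n) :
    e0 l n (p0 l n hn f) y = ∑ x, f x * i0 l n y x := by
  rw [e0_apply]
  have h : ∀ i, (p0 l n hn f).1 i * y.1 i = f i * y.1 i - ((n : ZMod l)⁻¹ * ∑ j, f j) * y.1 i :=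
    fun i => by rw [p0_apply, sub_mul]
  rw [sum_congr rfl fun i _ => h i, sum_sub_distrib, ← mul_sum, v0_sum, mul_zero, sub_zero]
  rfl

section grp

variable {G : Type*} [Group G] (π : G →* Equiv.Perm (Fin n))

theorem p0_ac [Fact l.Prime] (hn : (n : ZMod l) ≠ 0) (s : G) (f : Fin n → ZMod l) :
    p0 l n hn (fun x => f ((π s)⁻¹ x)) = ac0 l π s (p0 l n hn f) := by
  ext i
  change f ((π s)⁻¹ i) - (n : ZMod l)⁻¹ * ∑ j, f ((π s)⁻¹ j) =
    f ((π s)⁻¹ i) - (n : ZMod l)⁻¹ * ∑ j, f j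
  rw [show ∑ j, f ((π s)⁻¹ j) = ∑ j, f j from Equiv.sum_comp (π s)⁻¹ f]

/-- The dual pair. -/
def P0 (l : ℕ) {n : ℕ} {G : Type*} [Group G] (π : G →* Equiv.Perm (Fin n)) :
    SmL.Ar.DP l G (V0 l n) (V0 l n) := ⟨ac0 l π, ac0 l π, e0 l n⟩

theorem nofix0 [Fact l.Prime] (hn : (n : ZMod l) ≠ 0) (hπ : ∀ i j, ∃ s, π s i = j)
    (w : V0 l n) (h : ∀ s : G, ac0 l π s w = w) : w = 0 :=
  eq_zero_of_const hn fun i j => by
    obtain ⟨s, hs⟩ := hπ i j
    have h1 := congrArg (fun z : V0 l n => z.1 j) (h s)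
    change w.1 ((π s)⁻¹ j) = w.1 j at h1
    rw [← hs, inv_ap] at h1
    rw [h1, hs]

/-! ### The span -/

/-- The rank one operator `w ↦ (w_i - w_j) (e_k - e_m)`. -/
def rk (l : ℕ) {n : ℕ} (i j k m : Fin n) : V0 l n →ₗ[ZMod l] V0 l n :=
  (((e0 l n).flip (vv l i j)).smulRight (vv l k m))

theorem rk_apply (i j k m : Fin n) (w : V0 l n) : rk l i j k m w = (w.1 i - w.1 j) • vv l k m := by
  change (e0 l n w (vv l i j)) • vv l k m = _
  rw [e0_vv]

theorem sum_vv (w : V0 l n) : ∑ i, ∑ j, (w.1 i - w.1 j) • vv l i j = (2 * n : ZMod l) • w := by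
  ext k
  have h0 : ((∑ i, ∑ j, (w.1 i - w.1 j) • vv l i j : V0 l n)).1 k =
      ∑ i, ∑ j, (w.1 i - w.1 j) * (vv l i j).1 k := by
    rw [Submodule.coe_sum, Finset.sum_apply]
    refine sum_congr rfl fun i _ => ?_
    rw [Submodule.coe_sum, Finset.sum_apply]
    rfl
  rw [h0]
  change _ = (2 * n : ZMod l) * w.1 k
  have h1 : ∀ i j, (w.1 i - w.1 j) * (vv l i j).1 k =
      (if i = k then (w.1 i - w.1 j) else 0) - (if j = k then (w.1 i - w.1 j) else 0) :=
    fun i j => by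
    rw [vv_apply, mul_sub, mul_ite, mul_ite, mul_one, mul_zero]
    simp only [eq_comm]
  simp only [h1, sum_sub_distrib]
  have h2 : ∑ i, ∑ j, (if i = k then w.1 i - w.1 j else 0) = n * w.1 k := by
    rw [sum_comm]
    have h3 : ∀ j, ∑ i, (if i = k then w.1 i - w.1 j else 0) = w.1 k - w.1 j := fun j => by
      rw [sum_ite_eq' univ k, if_pos (mem_univ _)]
    rw [sum_congr rfl fun j _ => h3 j, sum_sub_distrib, v0_sum, sub_zero, sum_const, card_univ,
      Fintype.card_fin, nsmul_eq_mul]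
  have h4 : ∑ i, ∑ j, (if j = k then w.1 i - w.1 j else 0) = -(n * w.1 k) := by
    have h3 : ∀ i, ∑ j, (if j = k then w.1 i - w.1 j else 0) = w.1 i - w.1 k := fun i => by
      rw [sum_ite_eq' univ k, if_pos (mem_univ _)]
    rw [sum_congr rfl fun i _ => h3 i, sum_sub_distrib, v0_sum, zero_sub, sum_const, card_univ,
      Fintype.card_fin, nsmul_eq_mul]
  rw [h2, h4]
  ring

theorem rk_span [Fact l.Prime] (hl2 : l ≠ 2) (hn : (n : ZMod l) ≠ 0)
    (B : V0 l n →ₗ[ZMod l] V0 l n) :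
    B ∈ Submodule.span (ZMod l) (Set.range fun x : Fin n × Fin n × Fin n × Fin n =>
      rk l x.1 x.2.1 x.2.2.1 x.2.2.2) := by
  have h2 : (2 : ZMod l) ≠ 0 := by
    intro h
    have h1 : ((2 : ℕ) : ZMod l) = 0 := by exact_mod_cast h
    rw [ZMod.natCast_eq_zero_iff] at h1
    exact hl2 ((Nat.prime_dvd_prime_iff_eq Fact.out Nat.prime_two).1 h1)
  have h2n : (2 * n : ZMod l) ≠ 0 := mul_ne_zero h2 hn
  have h3 : B = (2 * n : ZMod l)⁻¹ • ∑ i, ∑ j, (2 * n : ZMod l)⁻¹ •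
      ∑ k, ∑ m, ((B (vv l i j)).1 k - (B (vv l i j)).1 m) • rk l i j k m := by
    have h4 : ∀ i j, (2 * n : ZMod l)⁻¹ •
        ∑ k, ∑ m, ((B (vv l i j)).1 k - (B (vv l i j)).1 m) • rk l i j k m =
        ((e0 l n).flip (vv l i j)).smulRight (B (vv l i j)) := by
      intro i j
      refine LinearMap.ext fun w => ?_
      rw [LinearMap.smul_apply, LinearMap.smulRight_apply, LinearMap.flip_apply, e0_vv]
      have h5 : (∑ k, ∑ m, ((B (vv l i j)).1 k - (B (vv l i j)).1 m) • rk l i j k m) w =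
          (w.1 i - w.1 j) • ∑ k, ∑ m,
            ((B (vv l i j)).1 k - (B (vv l i j)).1 m) • vv l k m := by
        rw [LinearMap.sum_apply, smul_sum]
        refine sum_congr rfl fun k _ => ?_
        rw [LinearMap.sum_apply, smul_sum]
        refine sum_congr rfl fun m _ => ?_
        rw [LinearMap.smul_apply, rk_apply, smul_comm]
      rw [h5, sum_vv, smul_comm ((w.1 i - w.1 j)) (2 * n : ZMod l), smul_smul,
        inv_mul_cancel₀ h2n, one_smul]
    simp only [h4]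
    refine LinearMap.ext fun w => ?_
    have h6 : (∑ i, ∑ j, ((e0 l n).flip (vv l i j)).smulRight (B (vv l i j))) w =
        B (∑ i, ∑ j, (w.1 i - w.1 j) • vv l i j) := by
      rw [LinearMap.sum_apply, map_sum]
      refine sum_congr rfl fun i _ => ?_
      rw [LinearMap.sum_apply, map_sum]
      refine sum_congr rfl fun j _ => ?_
      rw [LinearMap.smulRight_apply, LinearMap.flip_apply, e0_vv, map_smul]
    rw [LinearMap.smul_apply, h6, sum_vv, map_smul, smul_smul, inv_mul_cancel₀ h2n, one_smul]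
  rw [h3]
  refine Submodule.smul_mem _ _ (Submodule.sum_mem _ fun i _ => Submodule.sum_mem _ fun j _ =>
    Submodule.smul_mem _ _ (Submodule.sum_mem _ fun k _ => Submodule.sum_mem _ fun m _ =>
      Submodule.smul_mem _ _ (Submodule.subset_span ⟨(i, j, k, m), rfl⟩)))

/-- `F_l[G]` is onto `End V1 × F_l`. -/
theorem span0_top [Fact l.Prime] (hl2 : l ≠ 2) (hn : (n : ZMod l) ≠ 0)
    (hπ : Function.Surjective π) :
    Submodule.span (ZMod l) (Set.range fun g : G =>
      (((ac0 l π g : V0 l n →ₗ[ZMod l] V0 l n), (1 : ZMod l)) :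
        (V0 l n →ₗ[ZMod l] V0 l n) × ZMod l)) = ⊤ := by
  set W := Submodule.span (ZMod l) (Set.range fun g : G =>
      (((ac0 l π g : V0 l n →ₗ[ZMod l] V0 l n), (1 : ZMod l)) :
        (V0 l n →ₗ[ZMod l] V0 l n) × ZMod l)) with hW
  have hg : ∀ g : G, (((ac0 l π g : V0 l n →ₗ[ZMod l] V0 l n), (1 : ZMod l)) :
        (V0 l n →ₗ[ZMod l] V0 l n) × ZMod l) ∈ W := fun g => Submodule.subset_span ⟨g, rfl⟩
  have h1 : ∀ (i j : Fin n) (g : G), (rk l i j (π g i) (π g j), (0 : ZMod l)) ∈ W := by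
    intro i j g
    obtain ⟨t, ht⟩ := hπ (Equiv.swap i j)
    have h2 := W.sub_mem (hg g) (hg (g * t))
    have h3 : (((ac0 l π g : V0 l n →ₗ[ZMod l] V0 l n), (1 : ZMod l)) :
        (V0 l n →ₗ[ZMod l] V0 l n) × ZMod l) - ((ac0 l π (g * t) : V0 l n →ₗ[ZMod l] V0 l n), 1)
        = (rk l i j (π g i) (π g j), 0) := by
      rw [Prod.mk_sub_mk, sub_self]
      refine Prod.ext (LinearMap.ext fun w => ?_) rfl
      ext x
      change (ac0 l π g w).1 x - (ac0 l π (g * t) w).1 x = (rk l i j (π g i) (π g j) w).1 x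
      rw [rk_apply]
      change _ = (w.1 i - w.1 j) * (vv l (π g i) (π g j)).1 x
      rw [vv_apply, ac0_apply, ac0_apply, map_mul, ht, mul_inv_rev, Equiv.Perm.mul_apply,
        Equiv.swap_inv]
      obtain ⟨y, rfl⟩ := (π g).surjective x
      rw [inv_ap]
      by_cases hij : i = j
      · subst hij
        rw [Equiv.swap_self, Equiv.refl_apply, sub_self, sub_self, zero_mul]
      by_cases hyi : y = i
      · subst hyi
        rw [Equiv.swap_apply_left, if_pos rfl, if_neg fun h => hij ((π g).injective h), sub_zero,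
          mul_one]
      by_cases hyj : y = j
      · subst hyj
        rw [Equiv.swap_apply_right, if_pos rfl, if_neg fun h => hij ((π g).injective h).symm,
          zero_sub, mul_neg, mul_one, neg_sub]
      · rw [Equiv.swap_apply_of_ne_of_ne hyi hyj, if_neg fun h => hyi ((π g).injective h),
          if_neg fun h => hyj ((π g).injective h), sub_self, sub_self, mul_zero]
    rw [h3] at h2
    exact h2
  have h4 : ∀ B : V0 l n →ₗ[ZMod l] V0 l n, (B, (0 : ZMod l)) ∈ W := by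
    intro B
    have h5 : Submodule.span (ZMod l) (Set.range fun x : Fin n × Fin n × Fin n × Fin n =>
        rk l x.1 x.2.1 x.2.2.1 x.2.2.2) ≤
        W.comap (LinearMap.inl (ZMod l) (V0 l n →ₗ[ZMod l] V0 l n) (ZMod l)) := by
      rw [Submodule.span_le]
      rintro _ ⟨⟨i, j, k, m⟩, rfl⟩
      change (rk l i j k m, (0 : ZMod l)) ∈ W
      by_cases hkm : k = m
      · subst hkm
        have h6 : rk l i j k k = 0 := by
          refine LinearMap.ext fun w => ?_
          ext x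
          rw [rk_apply]
          change (w.1 i - w.1 j) * (vv l k k).1 x = 0
          rw [vv_apply, sub_self, mul_zero]
        rw [h6]
        exact W.zero_mem
      by_cases hij : i = j
      · subst hij
        have h6 : rk l i i k m = 0 := by
          refine LinearMap.ext fun w => ?_
          rw [rk_apply, sub_self, zero_smul]
          rfl
        rw [h6]
        exact W.zero_mem
      obtain ⟨σ, hσ1, hσ2⟩ : ∃ σ : Equiv.Perm (Fin n), σ i = k ∧ σ j = m := by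
        have h7 : Equiv.swap i k j ≠ k := by
          intro h
          have h8 := congrArg (Equiv.swap i k) h
          rw [Equiv.swap_apply_self, Equiv.swap_apply_right] at h8
          exact hij h8.symm
        refine ⟨Equiv.swap (Equiv.swap i k j) m * Equiv.swap i k, ?_, ?_⟩
        · rw [Equiv.Perm.mul_apply, Equiv.swap_apply_left, Equiv.swap_apply_of_ne_of_ne h7.symm hkm]
        · rw [Equiv.Perm.mul_apply, Equiv.swap_apply_left]
      obtain ⟨g, hg'⟩ := hπ σ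
      have h9 := h1 i j g
      rw [hg', hσ1, hσ2] at h9
      exact h9
    exact h5 (rk_span hl2 hn B)
  rw [eq_top_iff]
  rintro ⟨B, ε⟩ -
  have h5 := W.add_mem (h4 (B - ε • LinearMap.id)) (W.smul_mem ε (hg 1))
  have h6 : ((B - ε • LinearMap.id, (0 : ZMod l)) : (V0 l n →ₗ[ZMod l] V0 l n) × ZMod l) +
      ε • ((ac0 l π 1 : V0 l n →ₗ[ZMod l] V0 l n), (1 : ZMod l)) = (B, ε) := by
    refine Prod.ext (LinearMap.ext fun w => ?_) ?_
    · change (B w - ε • w) + ε • (ac0 l π 1 w) = B w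
      rw [map_one]
      change (B w - ε • w) + ε • w = B w
      rw [sub_add_cancel]
    · change (0 : ZMod l) + ε * 1 = ε
      rw [zero_add, mul_one]
  rw [h6] at h5
  exact h5

/-- The form of `AOk.span`. -/
theorem span0 [Fact l.Prime] (hl2 : l ≠ 2) (hn : (n : ZMod l) ≠ 0)
    (hπ : Function.Surjective π) (B : V0 l n →ₗ[ZMod l] V0 l n) (ε : ZMod l) :
    ∃ U : G →₀ ZMod l, (∀ w, ∑ g ∈ U.support, U g • ac0 l π g w = B w) ∧
      ∑ g ∈ U.support, U g = ε := by
  have h : (B, ε) ∈ Submodule.span (ZMod l) (Set.range fun g : G =>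
      (((ac0 l π g : V0 l n →ₗ[ZMod l] V0 l n), (1 : ZMod l)) :
        (V0 l n →ₗ[ZMod l] V0 l n) × ZMod l)) := by
    rw [span0_top π hl2 hn hπ]
    exact Submodule.mem_top
  rw [Finsupp.mem_span_range_iff_exists_finsupp] at h
  obtain ⟨U, hU⟩ := h
  rw [Finsupp.sum] at hU
  refine ⟨U, fun w => ?_, ?_⟩
  · have h1 := congrArg (fun z : (V0 l n →ₗ[ZMod l] V0 l n) × ZMod l => z.1 w) hU
    change (∑ g ∈ U.support, U g • (((ac0 l π g : V0 l n →ₗ[ZMod l] V0 l n), (1 : ZMod l)) :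
        (V0 l n →ₗ[ZMod l] V0 l n) × ZMod l)).1 w = B w at h1
    rw [← h1, Prod.fst_sum, LinearMap.sum_apply]
    rfl
  · have h1 := congrArg (fun z : (V0 l n →ₗ[ZMod l] V0 l n) × ZMod l => z.2) hU
    change (∑ g ∈ U.support, U g • (((ac0 l π g : V0 l n →ₗ[ZMod l] V0 l n), (1 : ZMod l)) :
        (V0 l n →ₗ[ZMod l] V0 l n) × ZMod l)).2 = ε at h1
    rw [← h1, Prod.snd_sum]
    refine sum_congr rfl fun g _ => ?_
    change U g = U g * 1
    rw [mul_one]

end grp

end alg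

section fld

open SmL.Fld SmL.Ar SmL.F Pool.Agent.GBU Pool.Agent.BSDFF Pool.Agent.Lib.SmD

section tame

variable {K Om : Type} [Field K] [Field Om] [Algebra K Om]

theorem tame_of_index {N0 : Subgroup (Om ≃ₐ[K] Om)} (h1 : N0.Normal)
    (h2 : IsOpen (N0 : Set (Om ≃ₐ[K] Om))) (hp : (ringChar K).Prime)
    (h3 : ((N0.index : ℕ) : K) ≠ 0) : TameN N0 where
  normal := h1
  isOpen := h2
  tame := fun _ _ s _ m hm => by
    rw [Ne, ringChar.spec] at h3
    rw [← QuotientGroup.eq_one_iff] at hm ⊢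
    rw [QuotientGroup.mk_pow] at hm
    have h4 := orderOf_dvd_of_pow_eq_one hm
    have h5 : orderOf (s : (Om ≃ₐ[K] Om) ⧸ N0) ∣ N0.index := orderOf_dvd_natCard _
    have h6 : Nat.Coprime (ringChar K ^ m) N0.index :=
      Nat.Coprime.pow_left _ ((Nat.Prime.coprime_iff_not_dvd hp).2 h3)
    rw [← orderOf_eq_one_iff]
    exact Nat.dvd_one.1 (h6 ▸ Nat.dvd_gcd h4 h5)

theorem tame_ker {n : ℕ} {π : (Om ≃ₐ[K] Om) →* Equiv.Perm (Fin n)}
    (h2 : IsOpen (π.ker : Set (Om ≃ₐ[K] Om))) (hp : (ringChar K).Prime)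
    (h3 : ((n.factorial : ℕ) : K) ≠ 0) : TameN π.ker := by
  refine tame_of_index inferInstance h2 hp fun h => h3 ?_
  rw [ringChar.spec] at h ⊢
  refine h.trans ?_
  rw [Subgroup.index_ker]
  have h4 := Subgroup.card_subgroup_dvd_card π.range
  rwa [Nat.card_eq_fintype_card (α := Equiv.Perm (Fin n)), Fintype.card_perm,
    Fintype.card_fin] at h4

theorem self_mem {N0 : Subgroup (Om ≃ₐ[K] Om)} (h1 : N0.Normal)
    (h2 : IsOpen (N0 : Set (Om ≃ₐ[K] Om))) : N0 ∈ NNt N0 :=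
  ⟨h1, h2, by rw [Subgroup.relIndex_self, Nat.cast_one]; exact one_ne_zero⟩

end tame

variable {k K : Type} [Field k] [Finite k] [Field K] [Algebra k K] [Algebra (RatFunc k) K]
  [IsScalarTower k (RatFunc k) K] [FiniteDimensional (RatFunc k) K]
  [Algebra.IsSeparable (RatFunc k) K] {Om : Type} [Field Om] [Algebra K Om] [IsSepClosure K Om]
  {w : Place k K → ValuationSubring Om} {sg ph : Place k K → Om ≃ₐ[K] Om} {l n : ℕ} {ζ : Om}
  {N0 : Subgroup (Om ≃ₐ[K] Om)}

/-- **All arithmetic facts for `V1`.** -/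
theorem gd0 [Fact l.Prime] (h2 : (2 : k) ≠ 0) (hl2 : l ≠ 2) (hζ : IsPrimitiveRoot ζ l)
    (hζK : ∃ z : K, algebraMap K Om z = ζ) (h0 : TameN N0) (hS : Std l ζ (NNt N0) w sg ph)
    (hCh : (bK (NNt N0) w sg ph).Cheb1) (hn : (n : ZMod l) ≠ 0)
    {π : (Om ≃ₐ[K] Om) →* Equiv.Perm (Fin n)} (hπ : ∀ i j, ∃ s, π s i = j)
    (hker : N0 ≤ π.ker) :
    (P0 l π).Gd (bK (NNt N0) w sg ph) ∧ ∃ T0 : Finset (Place k K), ∀ T, T0 ⊆ T →
      ShaT (bK (NNt N0) w sg ph) (ac0 l π) T := by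
  let : MulAction (Om ≃ₐ[K] Om) (Fin n) := MulAction.compHom (Fin n) π
  have : Nonempty (Fin n) := by
    rw [← Fin.pos_iff_nonempty]
    refine Nat.pos_of_ne_zero ?_
    rintro rfl
    exact hn Nat.cast_zero
  have : MulAction.IsPretransitive (Om ≃ₐ[K] Om) (Fin n) := ⟨hπ⟩
  have hX : TrivX (bK (NNt N0) w sg ph) (Fin n) :=
    ⟨N0, self_mem h0.normal h0.isOpen, fun s hs x => by
      change π s x = x
      rw [hker hs]
      rfl⟩
  refine summ_gd h2 Fact.out hl2 hζ hζK h0 hS hCh hX (P := P0 l π) rfl e0_symm (i0 l n)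
    (p0 l n hn) (p0_i0 hn) (fun s y x => ?_) (fun s f => ?_) (p0_adj hn)
  · change y.1 ((π s)⁻¹ x) = y.1 (π s⁻¹ x)
    rw [map_inv]
  · rw [show (P0 l π).a = ac0 l π from rfl, ← p0_ac π hn]
    congr 1
    funext x
    change f (π s⁻¹ x) = _
    rw [map_inv]

end fld

end Pool.Agent.SmS
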