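import Pool.Agent.Lib.SmL.V.Tor

/-!
# SMITH-S, section 11: the module `V`

`J` is a `G`-module (the Jacobian with the action of the Galois group) with an automorphism `sig` which
commutes with `G` and satisfies `1 + sig + ... + sig ^ (l - 1) = 0`. `VV D` = the `l`-power torsion of
`J`, a module over the group ring `AA l` of `ZMod l` (`zeta l` acts as `sig`).
-/

set_option autoImplicit false

open Finset

namespace Pool.Agent.SmS

open Pool.Agent.SmL.V

/-- A `G`-module with an automorphism `sig` of order `l` and norm zero. -/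
structure AutM (l : ℕ) (G J : Type*) [Group G] [AddCommGroup J] [DistribMulAction G J] where
  sig : J →+ J
  comm : ∀ (s : G) (Q : J), s • sig Q = sig (s • Q)
  sum : ∀ Q : J, ∑ k ∈ range l, (⇑sig)^[k] Q = 0

/-- The `l`-power torsion. -/
def VV {l : ℕ} {G J : Type*} [Group G] [AddCommGroup J] [DistribMulAction G J]
    (_ : AutM l G J) : Type _ := lPow l J

section

variable {l : ℕ} {G J : Type*} [Group G] [AddCommGroup J] [DistribMulAction G J] (D : AutM l G J)

noncomputable instance : AddCommGroup (VV D) := inferInstanceAs (AddCommGroup (lPow l J))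

noncomputable instance : DistribMulAction G (VV D) :=
  inferInstanceAs (DistribMulAction G (lPow l J))

namespace VV

/-- The inclusion in `J`. -/
noncomputable def val : VV D →+ J := (lPow l J).subtype

variable {D}

theorem val_inj : Function.Injective (val D) := Subtype.val_injective

theorem val_tors (Q : VV D) : ∃ n : ℕ, l ^ n • val D Q = 0 := Q.2

/-- An element of `l`-power order. -/
def mk {Q : J} (h : ∃ n : ℕ, l ^ n • Q = 0) : VV D := ⟨Q, h⟩

@[simp] theorem val_mk {Q : J} (h : ∃ n : ℕ, l ^ n • Q = 0) : val D (mk h) = Q := rfl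

theorem val_g (s : G) (Q : VV D) : val D (s • Q) = s • val D Q := rfl

end VV

/-- `sig ^ l = 1`. -/
theorem AutM.iter_l (Q : J) : (⇑D.sig)^[l] Q = Q := by
  have h1 : D.sig (∑ k ∈ range l, (⇑D.sig)^[k] Q) = ∑ k ∈ range l, (⇑D.sig)^[k + 1] Q := by
    rw [map_sum]
    exact sum_congr rfl fun k _ => (Function.iterate_succ_apply' _ _ _).symm
  have h2 := sum_range_succ (fun k => (⇑D.sig)^[k] Q) l
  rw [sum_range_succ', D.sum, zero_add, ← h1, D.sum, map_zero, zero_add] at h2
  exact h2.symm

theorem AutM.iter_mod (k : ℕ) (Q : J) : (⇑D.sig)^[k % l] Q = (⇑D.sig)^[k] Q := by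
  conv_rhs => rw [← Nat.mod_add_div k l, Function.iterate_add_apply, Function.iterate_mul]
  congr 1
  induction k / l with
  | zero => rfl
  | succ m ih =>
    rw [Function.iterate_succ_apply, D.iter_l]
    exact ih

theorem AutM.comm_iter (s : G) (k : ℕ) (Q : J) :
    s • (⇑D.sig)^[k] Q = (⇑D.sig)^[k] (s • Q) := by
  induction k with
  | zero => rfl
  | succ k ih => rw [Function.iterate_succ_apply', Function.iterate_succ_apply', D.comm, ih]

/-- `sig ^ k` on the `l`-power torsion. -/
noncomputable def VV.sgk (k : ℕ) : AddMonoid.End (VV D) where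
  toFun Q := VV.mk (Q := (⇑D.sig)^[k] (VV.val D Q)) (by
    obtain ⟨n, hn⟩ := VV.val_tors Q
    exact ⟨n, by rw [← iterate_map_nsmul D.sig, hn, iterate_map_zero]⟩)
  map_zero' := VV.val_inj (iterate_map_zero D.sig k)
  map_add' Q R := VV.val_inj (iterate_map_add D.sig k (VV.val D Q) (VV.val D R))

/-- The powers of `sig` as a homomorphism. -/
noncomputable def sgHom [NeZero l] : Multiplicative (ZMod l) →* AddMonoid.End (VV D) where
  toFun a := VV.sgk D a.toAdd.val
  map_one' := by
    rw [toAdd_one, ZMod.val_zero]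
    rfl
  map_mul' a b := by
    refine AddMonoidHom.ext fun Q => VV.val_inj ?_
    change (⇑D.sig)^[_] (VV.val D Q) = (⇑D.sig)^[_] ((⇑D.sig)^[_] (VV.val D Q))
    rw [← Function.iterate_add_apply, toAdd_mul, ZMod.val_add, D.iter_mod]

noncomputable instance [NeZero l] : Module (AA l) (VV D) :=
  Module.compHom (VV D)
    ((AddMonoidAlgebra.lift ℤ (AddMonoid.End (VV D)) (ZMod l) (sgHom D)).toRingHom)

namespace VV

variable {D} [NeZero l]

theorem of_smul (a : ZMod l) (Q : VV D) :
    val D ((AddMonoidAlgebra.of ℤ (ZMod l) (Multiplicative.ofAdd a) : AA l) • Q) =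
      (⇑D.sig)^[a.val] (val D Q) := by
  change val D ((AddMonoidAlgebra.lift ℤ (AddMonoid.End (VV D)) (ZMod l) (sgHom D))
    (AddMonoidAlgebra.of ℤ (ZMod l) (Multiplicative.ofAdd a)) Q) = _
  rw [AddMonoidAlgebra.lift_of]
  rfl

theorem zeta_pow_smul (n : ℕ) (Q : VV D) : val D (zeta l ^ n • Q) = (⇑D.sig)^[n] (val D Q) := by
  rw [zeta_pow, of_smul, ZMod.val_natCast, D.iter_mod]

theorem zeta_smul (Q : VV D) : val D (zeta l • Q) = D.sig (val D Q) := by
  rw [← pow_one (zeta l), zeta_pow_smul]
  rfl

theorem lam_smul (Q : VV D) : val D ((1 - zeta l) • Q) = val D Q - D.sig (val D Q) := by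
  rw [sub_smul, one_smul, map_sub, zeta_smul]

/-- `G` acts by linear maps. -/
theorem g_comm (s : G) (a : AA l) (Q : VV D) : s • (a • Q) = a • (s • Q) := by
  induction a using AddMonoidAlgebra.induction_on generalizing Q with
  | of m =>
    apply val_inj
    rw [val_g, of_smul, of_smul, val_g]
    exact D.comm_iter s _ _
  | add x y hx hy => rw [add_smul, add_smul, smul_add, hx, hy]
  | smul r x hx =>
    rw [smul_assoc, smul_assoc, ← hx, smul_comm]

/-- `1 + ze + ... + ze ^ (l - 1) = 0` on `V`. -/
theorem norm_smul (Q : VV D) : (∑ i ∈ range l, zeta l ^ i) • Q = 0 := by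
  apply val_inj
  rw [sum_smul, map_sum, map_zero, ← D.sum (val D Q)]
  exact sum_congr rfl fun i _ => zeta_pow_smul i Q

end VV

end

end Pool.Agent.SmS
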